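import Pool.Agent.MP_92191b_al.K3.Defs2
import Pool.Agent.MP_92191b_al.K3.HDefs

section

/-! The centred family is down-closed. -/

set_option linter.unusedSectionVars false

namespace Pool.Agent.MP_92191b_al.K3

open Finset Function Equiv K6 X

variable {ι : Type} [Fintype ι] [DecidableEq ι]

namespace Down

theorem mem_df {c z : ι → α} {r : ι} : r ∈ df c z ↔ c r ≠ z r := by simp [df]

theorem nz_iff {a b : α} : nz a b = true ↔ a ≠ b := by simp [nz]

theorem dist_le {c c' : ι → α} {S : Finset ι} (h : ∀ r, c r ≠ c' r → r ∈ S) :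
    hammingDist c c' ≤ S.card :=
  card_le_card fun r hr => h r (mem_filter.1 hr).2

theorem far {C : Finset (ι → α)} {F : Finset ι → Prop} (hC : Cen C F) {V : Finset ι}
    (hV : F V) {c c' : ι → α} (hc : c ∈ C) (hc' : c' ∈ C) (hne : c ≠ c') :
    V.card < hammingDist c c' := by
  by_contra h
  exact hne (hC.sep c hc c' hc' V V hV hV (by simp) (by rw [union_self]; omega))

theorem two {C : Finset (ι → α)} {F : Finset ι → Prop} (hC : Cen C F) {V U : Finset ι}
    (hV : F V) (hU : F U) {c u : ι → α} (hc : c ∈ C) (hu : u ∈ C) (hne : c ≠ u)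
    (hd : ∀ r, c r ≠ u r → r ∈ V ∪ U) : ∃ r1 ∈ U \ V, ∃ r2 ∈ U \ V, r1 ≠ r2 := by
  have h1 := far hC hV hc hu hne
  have h2 : hammingDist c u < (symmDiff V U).card := by
    by_contra h
    exact hne (hC.sep c hc u hu V U hV hU (by omega) (dist_le hd))
  have h3 : (symmDiff V U).card ≤ V.card + (U \ V).card := by
    refine le_trans (card_le_card ?_) (card_union_le _ _)
    intro r hr
    rw [mem_symmDiff] at hr
    rw [mem_union, mem_sdiff]
    tauto
  exact one_lt_card.1 (by omega)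

theorem ne1 : ∀ a : α, ∃ x, x ≠ a := by decide

theorem ne2 : ∀ a b : α, ∃ x, x ≠ a ∧ x ≠ b := by decide

end Down

open K3.Down in
theorem down (hS : StmtCSec ι α) (hCP : StmtCP) : StmtDown ι := by
  intro C F hC3 T l hV
  have hC : Cen C F := hC3.cen
  by_contra hT0
  have hl : l ∉ T := fun h => hT0 (by rwa [insert_eq_of_mem h] at hV)
  obtain ⟨c, hc, -⟩ := hC.ex (fun _ => 0) 1
  choose o ho using ne1
  let z : ι → α := fun r => if r ∈ T then o (c r) else c r
  have hz : ∀ r, r ∈ T ↔ c r ≠ z r := by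
    intro r
    by_cases h : r ∈ T
    · simp only [z, if_pos h, h, true_iff]
      exact (ho _).symm
    · simp [z, h]
  have hz0 : ∀ r, r ∉ T → c r = z r := fun r hr => by_contra fun h => hr ((hz r).2 h)
  have hdf : df c z = T := by
    ext r
    rw [mem_df, hz]
  obtain ⟨c', hc', hT'⟩ := hC.ex z 1
  have hmap : (df c' z).map (1 : Perm ι).toEmbedding = df c' z := by
    ext r
    rw [mem_map_equiv]
    rfl
  rw [hmap] at hT'
  have hcc : c ≠ c' := fun h => hT0 (by rwa [← h, hdf] at hT')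
  have hll : c' l = c l := by
    by_contra h
    obtain ⟨a, ha, ha'⟩ := ne2 (c l) (c' l)
    refine hcc ((hS C F hC (update z l a)).1 c hc c' hc' ?_ ?_)
    · have : df c (update z l a) = insert l T := by
        ext r
        rw [mem_df, mem_insert]
        by_cases hr : r = l
        · subst hr
          simp [ha.symm]
        · rw [update_of_ne hr, ← hz]
          simp [hr]
      rwa [this]
    · have : df c' (update z l a) = df c' z := by
        ext r
        rw [mem_df, mem_df]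
        by_cases hr : r = l
        · subst hr
          rw [update_self, ← hz0 r hl]
          simp [ha'.symm, h]
        · rw [update_of_ne hr]
      rwa [this]
  obtain ⟨i, hi, hi'⟩ : ∃ i ∈ T, i ∉ df c' z := by
    by_contra! h
    have h1 := far hC hT' hc hc' hcc
    have h2 : hammingDist c c' ≤ (df c' z).card := by
      refine dist_le fun r hr => ?_
      by_cases hrT : r ∈ T
      · exact h r hrT
      · rw [mem_df, ← hz0 r hrT]
        exact hr.symm
    omega
  have hil : i ≠ l := fun h => hl (h ▸ hi)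
  have hV' : ∀ r, r ≠ l → (r ∈ insert l T ↔ c r ≠ z r) := fun r hr => by
    rw [mem_insert, ← hz]
    simp [hr]
  have hW1 : cpl C F z i l (c i) (c l) true true :=
    ⟨c, hc, insert l T, hV, rfl, rfl, by simp [hi], by simp, fun r _ hr => hV' r hr⟩
  have hW2 : cpl C F z i l (c' i) (c l) false false := by
    refine ⟨c', hc', df c' z, hT', rfl, hll, by simpa using hi', ?_, fun r _ _ => mem_df⟩
    rw [mem_df, hll, hz0 l hl]
    simp
  have hci : c' i ≠ c i := by
    rw [mem_df, not_not] at hi'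
    rw [hi']
    exact ((hz i).1 hi).symm
  have hQ : Q4 (cpl C F z i l) (c i) (c l) := by
    rcases hCP _ ((hS C F hC z).2.1 i l hil) with
      ⟨y1, y2, h⟩ | h | ⟨y1, y2, h⟩ | ⟨y1, y2, h⟩ | ⟨τ, h⟩ | ⟨τ, h⟩ | ⟨b0, b1, y0, y1, -, -, h⟩
    · exact absurd (((h _ _ _ _).1 hW2).1.trans ((h _ _ _ _).1 hW1).1.symm) hci
    · simpa using (h _ _ _ _).1 hW1
    · simpa using (h _ _ _ _).1 hW1
    · have h1 := (h _ _ _ _).1 hW1
      simp only [and_true, Bool.true_eq_false, and_false, or_false] at h1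
      rw [h1.1, h1.2]
      exact h
    · simpa using (h _ _ _ _).1 hW1
    · simpa using (h _ _ _ _).1 hW1
    · simpa using (h _ _ _ _).1 hW1
  have hA : ∀ b, cpl C F z i l (c i) b false false := fun b =>
    (hQ _ _ _ _).2 (Or.inr ⟨Or.inl rfl, rfl, rfl⟩)
  choose A hAC VA hAF hAi hAl hAi' hAl' hAr using hA
  have hiV : i ∈ insert l T := mem_insert_of_mem hi
  have hlV : l ∈ insert l T := mem_insert_self _ _
  have hG : ∀ u ∈ C, ∀ U, F U → (∀ r, r ≠ i → r ≠ l → (r ∈ U ↔ u r ≠ z r)) → c ≠ u →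
      ∃ r1 r2, r1 ≠ r2 ∧ r1 ∉ insert l T ∧ r2 ∉ insert l T ∧ u r1 ≠ z r1 ∧ u r2 ≠ z r2 := by
    intro u hu U hU hr hne
    obtain ⟨r1, h1, r2, h2, h12⟩ := two hC hV hU hc hu hne fun r hcu => by
      by_cases hrV : r ∈ insert l T
      · exact mem_union_left _ hrV
      · have hri : r ≠ i := fun h => hrV (h ▸ hiV)
        have hrl : r ≠ l := fun h => hrV (h ▸ hlV)
        refine mem_union_right _ ((hr r hri hrl).2 ?_)
        rw [← hz0 r fun h => hrV (mem_insert_of_mem h)]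
        exact hcu.symm
    rw [mem_sdiff] at h1 h2
    exact ⟨r1, r2, h12, h1.2, h2.2,
      (hr r1 (fun h => h1.2 (h ▸ hiV)) fun h => h1.2 (h ▸ hlV)).1 h1.1,
      (hr r2 (fun h => h2.2 (h ▸ hiV)) fun h => h2.2 (h ▸ hlV)).1 h2.1⟩
  obtain ⟨r1, -, -, h1, -, h1', -⟩ := hG (A (o (c l))) (hAC _) _ (hAF _) (hAr _)
    fun h => ho (c l) ((hAl _).symm.trans (congrFun h l).symm)
  have hri : r1 ≠ i := fun h => h1 (h ▸ hiV)
  have hrl : r1 ≠ l := fun h => h1 (h ▸ hlV)
  have hcz : c r1 = z r1 := hz0 r1 fun h => h1 (mem_insert_of_mem h)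
  have hne : A (o (c l)) r1 ≠ c r1 := by rwa [hcz]
  have w1 : cpl C F (update z l (o (c l))) i r1 (c i) (c r1) true false := by
    refine ⟨c, hc, insert l T, hV, rfl, rfl, by simp [hi], by simpa using h1, fun r _ _ => ?_⟩
    by_cases hr : r = l
    · subst hr
      rw [update_self]
      exact iff_of_true hlV (ho _).symm
    · rw [update_of_ne hr]
      exact hV' r hr
  have w2 : cpl C F (update z l (o (c l))) i r1 (c i) (A (o (c l)) r1) false true := by
    refine ⟨A (o (c l)), hAC _, VA (o (c l)), hAF _, hAi _, rfl, hAi' _,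
      iff_of_true ((hAr _ r1 hri hrl).2 h1') rfl, fun r h4 _ => ?_⟩
    by_cases hr : r = l
    · rw [hr, update_self]
      exact iff_of_false (fun h => by simpa using (hAl' _).1 h) (not_not.2 (hAl _))
    · rw [update_of_ne hr]
      exact hAr _ r h4 hr
  rcases hCP _ ((hS C F hC (update z l (o (c l)))).2.1 i r1 hri.symm) with
    ⟨y1, y2, h⟩ | h | ⟨y1, y2, h⟩ | ⟨y1, y2, h⟩ | ⟨τ, h⟩ | ⟨τ, h⟩ | ⟨b0, b1, y0, y1, h⟩
  · exact hne (((h _ _ _ _).1 w2).2.trans ((h _ _ _ _).1 w1).2.symm)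
  · simpa using (h _ _ _ _).1 w1
  · have e1 := (h _ _ _ _).1 w1
    have e2 := (h _ _ _ _).1 w2
    simp only [Bool.true_eq_false, false_and, and_false, or_false] at e1 e2
    exact hne (e2.2.1.trans e1.2.1.symm)
  · simpa using (h _ _ _ _).1 w1
  · simpa using (h _ _ _ _).1 w1
  · simpa using (h _ _ _ _).1 w2
  · exact hC3.no8 _ i r1 hri.symm _ _ _ _ h

end Pool.Agent.MP_92191b_al.K3

end

section

/-! Sections of good relations. -/

set_option linter.unusedSectionVars false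

namespace Pool.Agent.MP_92191b_al.K3

open Finset Function Equiv K6 X

variable {ι : Type} [Fintype ι] [DecidableEq ι]

namespace Glob

theorem ham_comp (π : Perm ι) (c c' : ι → α) :
    hammingDist (c ∘ π) (c' ∘ π) = hammingDist c c' := by
  unfold hammingDist
  exact card_equiv π fun i => by simp

theorem good_c {T : Rel2 ι α} (h : Good T) (π : Perm ι) : Good fun c d => T (c ∘ π) d where
  tight :=
    { sep := fun c d c' d' h1 h2 he => by
        obtain ⟨e1, e2⟩ := h.tight.sep _ _ _ _ h1 h2 (by rw [ham_comp, he])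
        exact ⟨π.surjective.injective_comp_right e1, e2⟩
      ex := fun σ ρ => by
        obtain ⟨c, d, h1, h2⟩ := h.tight.ex (fun l => σ (π l)) (ρ * π)
        refine ⟨c ∘ π.symm, d, ?_, fun l => by simp [h2]⟩
        simpa [Function.comp_def] using h1 }
  no1 c c' d h1 h2 := by
    rw [← ham_comp π]
    exact h.no1 _ _ _ h1 h2
  nox := NoX.frame h.nox π 1

theorem good_d {T : Rel2 ι α} (h : Good T) (π : Perm ι) : Good fun c d => T c (d ∘ π) where
  tight :=
    { sep := fun c d c' d' h1 h2 he => by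
        obtain ⟨e1, e2⟩ := h.tight.sep _ _ _ _ h1 h2 (by rw [ham_comp, he])
        exact ⟨e1, π.surjective.injective_comp_right e2⟩
      ex := fun σ ρ => by
        obtain ⟨c, d, h1, h2⟩ := h.tight.ex σ (π⁻¹ * ρ)
        refine ⟨c, d ∘ π.symm, ?_, fun l => by simp [h2, Perm.inv_def]⟩
        simpa [Function.comp_def] using h1 }
  no1 c c' d h1 h2 := h.no1 _ _ _ h1 h2
  nox := NoX.frame h.nox 1 π

theorem comp_swap (c : ι → α) (a b : ι) : (c ∘ swap a b) ∘ swap a b = c := by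
  funext r; simp

variable {T : Rel2 ι α} {σ : ι → Perm α} {i j l : ι}

theorem sec_c12 (hli : l ≠ i) (hlj : l ≠ j) :
    c12 (sec T σ i j l) = sec (fun c d => T (c ∘ swap i j) d) σ i j l := by
  funext c1 c2 c3 d1 d2 d3
  refine propext ⟨?_, ?_⟩ <;> rintro ⟨c, d, h1, h2, h3, h4, h5, h6⟩ <;>
    refine ⟨c ∘ swap i j, d, by simpa only [comp_swap] using h1, fun r hi hj hl => ?_,
      by simpa using h4, by simpa using h3, ?_, h6⟩
  all_goals first
    | simpa [swap_apply_of_ne_of_ne hi hj] using h2 r hi hj hl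
    | simpa [swap_apply_of_ne_of_ne hli hlj] using h5

theorem sec_c23 (hij : i ≠ j) (hli : l ≠ i) :
    c23 (sec T σ i j l) = sec (fun c d => T (c ∘ swap j l) d) σ i j l := by
  funext c1 c2 c3 d1 d2 d3
  refine propext ⟨?_, ?_⟩ <;> rintro ⟨c, d, h1, h2, h3, h4, h5, h6⟩ <;>
    refine ⟨c ∘ swap j l, d, by simpa only [comp_swap] using h1, fun r hi hj hl => ?_,
      ?_, by simpa using h5, by simpa using h4, h6⟩
  all_goals first
    | simpa [swap_apply_of_ne_of_ne hj hl] using h2 r hi hj hl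
    | simpa [swap_apply_of_ne_of_ne hij hli.symm] using h3

theorem sec_d12 (hli : l ≠ i) (hlj : l ≠ j) :
    d12 (sec T σ i j l) = sec (fun c d => T c (d ∘ swap i j)) σ i j l := by
  funext c1 c2 c3 d1 d2 d3
  refine propext ⟨?_, ?_⟩ <;> rintro ⟨c, d, h1, h2, k1, k2, k3, h3, h4, h5⟩ <;>
    refine ⟨c, d ∘ swap i j, by simpa only [comp_swap] using h1, fun r hi hj hl => ?_,
      k1, k2, k3, by simpa using h4, by simpa using h3, ?_⟩
  all_goals first
    | simpa [swap_apply_of_ne_of_ne hi hj] using h2 r hi hj hl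
    | simpa [swap_apply_of_ne_of_ne hli hlj] using h5

theorem sec_d23 (hij : i ≠ j) (hli : l ≠ i) :
    d23 (sec T σ i j l) = sec (fun c d => T c (d ∘ swap j l)) σ i j l := by
  funext c1 c2 c3 d1 d2 d3
  refine propext ⟨?_, ?_⟩ <;> rintro ⟨c, d, h1, h2, k1, k2, k3, h3, h4, h5⟩ <;>
    refine ⟨c, d ∘ swap j l, by simpa only [comp_swap] using h1, fun r hi hj hl => ?_,
      k1, k2, k3, ?_, by simpa using h5, by simpa using h4⟩
  all_goals first
    | simpa [swap_apply_of_ne_of_ne hj hl] using h2 r hi hj hl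
    | simpa [swap_apply_of_ne_of_ne hij hli.symm] using h3

theorem orb_sec (hT : Good T) (hij : i ≠ j) (hli : l ≠ i) (hlj : l ≠ j) {Q : R6 α}
    (h : Orb (sec T σ i j l) Q) : ∃ T', Good T' ∧ Q = sec T' σ i j l := by
  induction h with
  | refl => exact ⟨T, hT, rfl⟩
  | c12 _ ih =>
    obtain ⟨T', h1, rfl⟩ := ih
    exact ⟨_, good_c h1 _, sec_c12 hli hlj⟩
  | c23 _ ih =>
    obtain ⟨T', h1, rfl⟩ := ih
    exact ⟨_, good_c h1 _, sec_c23 hij hli⟩
  | d12 _ ih =>
    obtain ⟨T', h1, rfl⟩ := ih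
    exact ⟨_, good_d h1 _, sec_d12 hli hlj⟩
  | d23 _ ih =>
    obtain ⟨T', h1, rfl⟩ := ih
    exact ⟨_, good_d h1 _, sec_d23 hij hli⟩

theorem sec_update (ρ : Perm α) : sec T σ i j l = sec T (update σ l ρ) i j l := by
  funext c1 c2 c3 d1 d2 d3
  refine propext ⟨?_, ?_⟩ <;> rintro ⟨c, d, h1, h2, h3⟩ <;>
    exact ⟨c, d, h1, fun r hi hj hl => by simpa [update_of_ne hl] using h2 r hi hj hl, h3⟩

end Glob

theorem rl (h : StmtCls3) : StmtRL := by
  intro P σ x e hP hX he
  have two : ∀ a : α, ∃ b, b ≠ a := exists_ne1 (by decide)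
  rcases h P hP with ⟨x1, x2, k⟩ | ⟨y1, y2, k⟩ | ⟨x1, x2, y1, y2, k⟩ | ⟨x1, x2, y1, y2, k⟩ |
    ⟨τ, y1, k⟩ | ⟨τ, y2, k⟩ | ⟨τ, x1, k⟩ | ⟨τ, x2, k⟩ | k
  · exact Or.inl ⟨σ.symm x1, fun y => σ.eq_symm_apply.2 ((k _ _ _ _).1 (he y)).1⟩
  · obtain ⟨y, hy⟩ := two y2
    exact absurd ((k _ _ _ _).1 (he y)).2 hy
  · have h1 : ∀ y, y ≠ y2 → σ (e y) = x1 ∧ e y = y1 := fun y hy => by
      have := (k _ _ _ _).1 (he y)
      tauto
    obtain ⟨b, hb⟩ := two y2
    have h3 : σ y1 = x1 := (h1 b hb).2 ▸ (h1 b hb).1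
    refine Or.inl ⟨y1, fun y => ?_⟩
    rcases (k _ _ _ _).1 (he y) with k' | k'
    · exact σ.injective (k'.1.trans h3.symm)
    · exact k'.2.2.1
  · have h1 : ∀ y, y ≠ y2 → σ (e y) = x1 ∧ x = x2 ∧ e y ≠ y1 := fun y hy => by
      have := (k _ _ _ _).1 (he y)
      tauto
    have h2 : e y2 = y1 := by
      have := (k _ _ _ _).1 (he y2)
      tauto
    obtain ⟨b, hb⟩ := two y2
    refine Or.inr (Or.inl ⟨y2, e b, ⟨fun y hy => σ.injective ((h1 y hy).1.trans (h1 b hb).1.symm),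
      h2 ▸ (h1 b hb).2.2.symm⟩, ?_⟩)
    rw [(h1 b hb).1, (h1 b hb).2.1, h2]
    exact k
  · exact Or.inl ⟨y1, fun y => ((k _ _ _ _).1 (he y)).2⟩
  · obtain ⟨y, hy⟩ := two y2
    exact absurd ((k _ _ _ _).1 (he y)).2 hy
  · obtain ⟨y, hy⟩ := two x
    have h1 := (k _ _ _ _).1 (he y)
    have h2 := (k _ _ _ _).1 (he x)
    exact absurd (τ.injective (h1.1.symm.trans ((σ.injective (h1.2.trans h2.2.symm)).trans h2.1)))
      hy
  · refine Or.inr (Or.inr ⟨τ, fun y => ((k _ _ _ _).1 (he y)).1, ?_⟩)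
    rw [((k _ _ _ _).1 (he x)).2]
    exact k
  · exact absurd k hX

theorem nice (hS : StmtSec ι α) : StmtNice ι := by
  intro T hT σ i j l hij hli hlj
  refine ⟨((hS T hT.tight σ i j hij).2.2 l hli hlj).1, fun Q hQ ρ => ?_⟩
  obtain ⟨T', hT', rfl⟩ := Glob.orb_sec hT hij hli hlj hQ
  have h := ((hS T' hT'.tight (update σ l ρ) i j hij).2.2 l hli hlj).2.1
  rw [update_self, ← Glob.sec_update] at h
  rw [h]
  exact hT'.nox.pl _ hij

theorem gRL (hS : StmtSec ι α) (hR : StmtRL) : StmtGRL ι := fun T hT σ i j x c d hij hL =>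
  hR (pl T σ i j) (σ i) x (fun b => d b i) (hS T hT.tight σ i j hij).1 (hT.nox.pl σ hij)
    fun y => ⟨c y, d y, ⟨(hL y).1, fun r _ hj => (hL y).2.2.2 r hj⟩, (hL y).2.2.2 i hij,
      (hL y).2.1, rfl, (hL y).2.2.1⟩

end Pool.Agent.MP_92191b_al.K3

end

section

/-! Fibres of the second code along a coordinate. -/

set_option linter.unusedSectionVars false

namespace Pool.Agent.MP_92191b_al.K3

open Finset Function Equiv K6 X

variable {ι : Type} [Fintype ι] [DecidableEq ι]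

namespace Lab

/-- The pairs matched by `σ` outside the coordinate `j`. -/
def Mt (C D : Finset (ι → α)) (σ : ι → Perm α) (j : ι) (c d : ι → α) : Prop :=
  c ∈ C ∧ d ∈ D ∧ ∀ r, r ≠ j → c r = σ r (d r)

variable {C D : Finset (ι → α)} {σ : ι → Perm α} {j : ι}

theorem good (hC : StmtCnt ι α) (hk : 3 ≤ Fintype.card α) (h : GQ C D) :
    Good fun c d => c ∈ C ∧ d ∈ D :=
  ⟨hC.2.2.1 C D (Fintype.card_pos_iff.1 (by omega)) h.sep h.big,
    fun c c' _ h1 h2 => h.no1 c h1.1 c' h2.1, h.nox⟩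

theorem key (hT : Tight fun c d => c ∈ C ∧ d ∈ D) {c d c' d' : ι → α} (h : Mt C D σ j c d)
    (h' : Mt C D σ j c' d') (he : c j = c' j ↔ d j = d' j) : c = c' ∧ d = d' := by
  refine hT.sep c d c' d' ⟨h.1, h.2.1⟩ ⟨h'.1, h'.2.1⟩ ?_
  unfold hammingDist
  congr 1
  refine filter_congr fun r _ => ?_
  by_cases hr : r = j
  · rw [hr]; exact he.not
  · rw [h.2.2 r hr, h'.2.2 r hr]
    exact (σ r).apply_eq_iff_eq.not

theorem Mt.upd {c d : ι → α} (h : Mt C D σ j c d) {v : α} (hv : v ∈ Fib D j d) :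
    Mt C D σ j c (update d j v) :=
  ⟨h.1, hv, fun r hr => by rw [update_of_ne hr]; exact h.2.2 r hr⟩

theorem fib_upd (x : ι → α) (v : α) : Fib D j (update x j v) = Fib D j x := by
  ext w
  simp only [Fib, Set.mem_ofPred_eq, update_idem]

theorem self_mem {d : ι → α} (h : d ∈ D) : d j ∈ Fib D j d := by
  simpa [Fib] using h

theorem kline (hk : 3 ≤ Fintype.card α) (hT : Tight fun c d => c ∈ C ∧ d ∈ D) {y : α}
    {c d : α → ι → α} (h : KLine (fun c d => c ∈ C ∧ d ∈ D) σ j y c d) {c' d' : ι → α}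
    (h' : Mt C D σ j c' d') : Fib D j d' = {y} := by
  have h1 : ∀ c' d', Mt C D σ j c' d' → d' j = y := by
    intro c' d' h'
    by_contra hne
    obtain ⟨a, ha⟩ := exists_ne1 (by omega) (c' j)
    obtain ⟨⟨a1, a2⟩, a3, a4, a5⟩ := h a
    have := (key hT h' ⟨a1, a2, a5⟩ (by
      rw [a3, a4]; exact iff_of_false (Ne.symm ha) hne)).1
    exact ha (by rw [this, a3])
  ext v
  refine ⟨fun hv => ?_, fun hv => ?_⟩
  · simpa using h1 _ _ (h'.upd hv)
  · rw [Set.mem_singleton_iff.1 hv, ← h1 _ _ h']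
    exact self_mem h'.2.1

theorem rline (hk : 3 ≤ Fintype.card α) (hT : Tight fun c d => c ∈ C ∧ d ∈ D) {x : α}
    {c d : α → ι → α} (h : RLine (fun c d => c ∈ C ∧ d ∈ D) σ j x c d) {c' d' : ι → α}
    (h' : Mt C D σ j c' d') : c' = c (d' j) ∧ d' = d (d' j) := by
  have h1 : c' j = x := by
    by_contra hne
    obtain ⟨b, hb⟩ := exists_ne1 (by omega) (d' j)
    obtain ⟨⟨a1, a2⟩, a3, a4, a5⟩ := h b
    have := (key hT h' ⟨a1, a2, a5⟩ (by
      rw [a3, a4]; exact iff_of_false hne (Ne.symm hb))).1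
    exact hne (by rw [this, a3])
  obtain ⟨⟨a1, a2⟩, a3, a4, a5⟩ := h (d' j)
  exact key hT h' ⟨a1, a2, a5⟩ (by rw [a3, a4]; exact iff_of_true h1 rfl)

theorem rfib (hk : 3 ≤ Fintype.card α) (hT : Tight fun c d => c ∈ C ∧ d ∈ D) {x : α}
    {c d : α → ι → α} (h : RLine (fun c d => c ∈ C ∧ d ∈ D) σ j x c d) (b v : α) :
    v ∈ Fib D j (d b) ↔ ∀ r, r ≠ j → d b r = d v r := by
  refine ⟨fun hv r hr => ?_, fun hv => ?_⟩
  · obtain ⟨⟨a1, a2⟩, -, -, a5⟩ := h b
    have h1 := (rline hk hT h (Mt.upd ⟨a1, a2, a5⟩ hv)).2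
    rw [update_self] at h1
    rw [← h1, update_of_ne hr]
  · have e : update (d b) j v = d v := by
      funext r
      by_cases hr : r = j
      · rw [hr, update_self, (h v).2.2.1]
      · rw [update_of_ne hr, hv r hr]
    show update (d b) j v ∈ D
    rw [e]
    exact (h v).1.2

/-- The three possible states of a line. -/
theorem state (hC : StmtCnt ι α) (hL : StmtLine ι) (hk : 3 ≤ Fintype.card α) (h : GQ C D)
    (σ : ι → Perm α) (j : ι) :
    (∃ y c d, KLine (fun c d => c ∈ C ∧ d ∈ D) σ j y c d) ∨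
    (∀ c d, Mt C D σ j c d → Fib D j d = Set.univ) ∨
    ∃ (b0 : α) (c d : α → ι → α), (∀ b, Mt C D σ j (c b) (d b)) ∧
      (∀ c' d', Mt C D σ j c' d' → c' = c (d' j) ∧ d' = d (d' j)) ∧
      (∀ b, b ≠ b0 → Fib D j (d b) = {b0}ᶜ) ∧ Fib D j (d b0) = {b0} ∧
      ∃ σ' c' d', KLine (fun c d => c ∈ C ∧ d ∈ D) σ' j b0 c' d' := by
  have hG := good hC hk h
  have hT := hG.tight
  rcases hL _ hG σ j with h1 | ⟨x, c, d, b0, h1, h2, h3⟩
  · exact Or.inl h1
  by_cases hg : ∀ b b' r, r ≠ j → d b r = d b' r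
  · refine Or.inr (Or.inl fun c' d' h' => ?_)
    rw [(rline hk hT h1 h').2]
    exact Set.eq_univ_of_forall fun v => (rfib hk hT h1 _ v).2 (hg _ _)
  have h4 : ∀ b, b ≠ b0 → ¬∀ r, r ≠ j → d b r = d b0 r := by
    intro b hb hh
    have h5 : ∀ b' r, r ≠ j → d b' r = d b0 r := by
      intro b' r hr
      by_cases hb' : b' = b0
      · rw [hb']
      · rw [h2 b' b hb' hb r hr, hh r hr]
    exact hg fun b1 b2 r hr => (h5 b1 r hr).trans (h5 b2 r hr).symm
  refine Or.inr (Or.inr ⟨b0, c, d, fun b => ⟨(h1 b).1.1, (h1 b).1.2, (h1 b).2.2.2⟩,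
    fun c' d' h' => rline hk hT h1 h', fun b hb => ?_, ?_, h3.resolve_left hg⟩)
  · ext v
    rw [rfib hk hT h1, Set.mem_compl_singleton_iff]
    exact ⟨fun hh hv => h4 b hb (hv ▸ hh), fun hv => h2 b v hb hv⟩
  · ext v
    rw [rfib hk hT h1, Set.mem_singleton_iff]
    refine ⟨fun hh => ?_, fun hv r _ => by rw [hv]⟩
    by_contra hv
    exact h4 v hv fun r hr => (hh r hr).symm

theorem sing_ne (hk : 3 ≤ Fintype.card α) (a b : α) : ({a} : Set α) ≠ {b}ᶜ := by
  intro h
  obtain ⟨x, h1, h2⟩ := exists_ne2 (by omega) a b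
  have h3 : x ∈ ({b}ᶜ : Set α) := h2
  rw [← h] at h3
  exact h1 h3

theorem univ_ne (hk : 3 ≤ Fintype.card α) (b : α) :
    (Set.univ : Set α) ≠ {b} ∧ (Set.univ : Set α) ≠ {b}ᶜ := by
  refine ⟨fun h => ?_, fun h => ?_⟩
  · obtain ⟨x, h1⟩ := exists_ne1 (by omega) b
    have h3 : x ∈ (Set.univ : Set α) := trivial
    rw [h] at h3
    exact h1 h3
  · have h3 : b ∈ (Set.univ : Set α) := trivial
    rw [h] at h3
    exact h3 rfl

/-- The pairs of `C × X` matched by `σ` outside `j`. -/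
def mcnt (C X : Finset (ι → α)) (σ : ι → Perm α) (j : ι) : Finset ((ι → α) × (ι → α)) :=
  (C ×ˢ X).filter fun p => ∀ r ∈ univ.erase j, p.1 r = σ r (p.2 r)

theorem mem_cnt {X : Finset (ι → α)} {p : (ι → α) × (ι → α)} :
    p ∈ mcnt C X σ j ↔ p.1 ∈ C ∧ p.2 ∈ X ∧ ∀ r, r ≠ j → p.1 r = σ r (p.2 r) := by
  simp only [mcnt, mem_filter, mem_product, mem_erase, mem_univ, and_true, and_assoc]

theorem sum_cnt {n : ℕ} (hn : ∀ c d : ι → α,
    (univ.filter fun σ : ι → Perm α => ∀ r ∈ univ.erase j, c r = σ r (d r)).card = n)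
    (C X : Finset (ι → α)) : ∑ σ, (mcnt C X σ j).card = C.card * n * X.card := by
  simp only [mcnt, card_filter]
  rw [sum_comm]
  simp only [card_filter] at hn
  rw [sum_congr rfl fun p _ => hn p.1 p.2, sum_const, card_product, smul_eq_mul]
  ring

end Lab

open Lab

theorem lab (hC : StmtCnt ι α) (hL : StmtLine ι) : StmtLab ι := by
  intro C D h σ j
  have hk := hk3
  rcases state hC hL hk h σ j with ⟨y, c, d, h1⟩ | h1 | ⟨b0, c, d, -, h2, h3, h4, -⟩
  · exact Or.inr ⟨y, fun c' hc d' hd hm =>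
      Or.inl (kline hk (good hC hk h).tight h1 ⟨hc, hd, hm⟩)⟩
  · exact Or.inl fun c' hc d' hd hm => h1 c' d' ⟨hc, hd, hm⟩
  · refine Or.inr ⟨b0, fun c' hc d' hd hm => ?_⟩
    rw [(h2 c' d' ⟨hc, hd, hm⟩).2]
    by_cases hb : d' j = b0
    · rw [hb]; exact Or.inl h4
    · exact Or.inr (h3 _ hb)

theorem sw2 (hC : StmtCnt ι α) (hL : StmtLine ι) : StmtSw2 ι := by
  classical
  intro C D h j z hx
  have hk := hk3
  have hT := (good hC hk h).tight
  obtain ⟨n, hn0, hn⟩ := hC.1 (univ.erase j)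
  have hCp : 0 < C.card := by
    have h1 : 0 < Fintype.card α ^ Fintype.card ι := pow_pos (by omega) _
    exact Nat.pos_of_mul_pos_right (h1.trans_le h.big)
  generalize hX2 : (univ.filter fun x : ι → α => x j = z ∧ ∃ b, b ≠ z ∧ Fib D j x = {b}ᶜ) = X2
  generalize hX1 : (univ.filter fun x : ι → α => x j = z ∧ ∃ b, b ≠ z ∧ Fib D j x = {b}) = X1
  have m2 : ∀ x, x ∈ X2 ↔ x j = z ∧ ∃ b, b ≠ z ∧ Fib D j x = {b}ᶜ := fun x => by
    rw [← hX2, mem_filter]; exact and_iff_right (mem_univ _)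
  have m1 : ∀ x, x ∈ X1 ↔ x j = z ∧ ∃ b, b ≠ z ∧ Fib D j x = {b} := fun x => by
    rw [← hX1, mem_filter]; exact and_iff_right (mem_univ _)
  have k2 : ∀ σ p, p ∈ mcnt C X2 σ j →
      Mt C D σ j p.1 p.2 ∧ p.2 j = z ∧ ∃ b, Fib D j p.2 = {b}ᶜ := by
    intro σ p hp
    obtain ⟨a1, a2, a3⟩ := mem_cnt.1 hp
    obtain ⟨a4, b, a5, a6⟩ := (m2 _).1 a2
    have a7 : z ∈ Fib D j p.2 := by rw [a6]; exact a5.symm
    have a8 : update p.2 j z ∈ D := a7
    rw [← a4, update_eq_self] at a8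
    exact ⟨⟨a1, a8, a3⟩, a4, b, a6⟩
  have k1 : ∀ σ c d b, Mt C D σ j c d → b ≠ z → Fib D j d = {b} → 0 < (mcnt C X1 σ j).card := by
    intro σ c d b hm hb hf
    refine card_pos.2 ⟨(c, update d j z), mem_cnt.2 ⟨hm.1, (m1 _).2 ⟨update_self _ _ _, b, hb,
      (fib_upd d z).trans hf⟩, fun r hr => ?_⟩⟩
    show c r = σ r (update d j z r)
    rw [update_of_ne hr]
    exact hm.2.2 r hr
  have kK : ∀ σ y c d, KLine (fun c d => c ∈ C ∧ d ∈ D) σ j y c d →
      (mcnt C X2 σ j).card = 0 := by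
    intro σ y c d hl
    refine card_eq_zero.2 (eq_empty_of_forall_notMem fun p hp => ?_)
    obtain ⟨a1, -, b, a3⟩ := k2 σ p hp
    exact sing_ne hk y b ((kline hk hT hl a1).symm.trans a3)
  have hle : ∀ σ, (mcnt C X2 σ j).card ≤ (mcnt C X1 σ j).card := by
    intro σ
    rcases state hC hL hk h σ j with ⟨y, c, d, h1⟩ | h1 | ⟨b0, c, d, h1, h2, h3, h4, -⟩
    · rw [kK σ y c d h1]; exact Nat.zero_le _
    · rw [card_eq_zero.2 (eq_empty_of_forall_notMem fun p hp => ?_)]
      · exact Nat.zero_le _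
      obtain ⟨a1, -, b, a3⟩ := k2 σ p hp
      exact (univ_ne hk b).2 ((h1 _ _ a1).symm.trans a3)
    · rcases (mcnt C X2 σ j).eq_empty_or_nonempty with he | ⟨p, hp⟩
      · rw [he]; exact Nat.zero_le _
      have h5 : (mcnt C X2 σ j).card ≤ 1 := by
        refine (card_le_card fun q hq => ?_).trans (card_singleton (c z, d z)).le
        obtain ⟨a1, a2, -⟩ := k2 σ q hq
        have a3 := h2 _ _ a1
        rw [a2] at a3
        exact mem_singleton.2 (Prod.ext a3.1 a3.2)
      obtain ⟨a1, a2, b, a3⟩ := k2 σ p hp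
      have a4 := (h2 _ _ a1).2
      rw [a2] at a4
      have h6 : b0 ≠ z := fun e => by
        rw [a4, ← e, h4] at a3
        exact sing_ne hk _ _ a3
      exact h5.trans (k1 σ _ _ b0 (h1 b0) h6 h4)
  have hK : ∃ σ b c d, b ≠ z ∧ KLine (fun c d => c ∈ C ∧ d ∈ D) σ j b c d := by
    obtain ⟨x, b, hb, hf⟩ := hx
    obtain ⟨v, hv⟩ : ∃ v, v ∈ Fib D j x := by
      rcases hf with hf | hf
      · exact ⟨b, by rw [hf]; rfl⟩
      · obtain ⟨v, hv⟩ := exists_ne1 (by omega) b
        exact ⟨v, by rw [hf]; exact hv⟩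
    obtain ⟨c0, hc0⟩ := card_pos.1 hCp
    have hm : Mt C D (fun r => swap (update x j v r) (c0 r)) j c0 (update x j v) :=
      ⟨hc0, hv, fun r _ => (swap_apply_left _ _).symm⟩
    rw [← fib_upd x v] at hf
    rcases state hC hL hk h (fun r => swap (update x j v r) (c0 r)) j with
      ⟨y, c, d, h1⟩ | h1 | ⟨b0, c, d, -, h2, h3, h4, σ', c', d', h5⟩
    · rw [kline hk hT h1 hm] at hf
      rcases hf with hf | hf
      · exact ⟨_, y, c, d, by rw [Set.singleton_injective hf]; exact hb, h1⟩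
      · exact absurd hf (sing_ne hk _ _)
    · rw [h1 _ _ hm] at hf
      exact absurd hf (not_or.2 (univ_ne hk b))
    · refine ⟨σ', b0, c', d', ?_, h5⟩
      rw [(h2 _ _ hm).2, update_self] at hf
      by_cases hv0 : v = b0
      · rw [hv0, h4] at hf
        rcases hf with hf | hf
        · rw [Set.singleton_injective hf]; exact hb
        · exact absurd hf (sing_ne hk _ _)
      · rw [h3 v hv0] at hf
        rcases hf with hf | hf
        · exact absurd hf.symm (sing_ne hk _ _)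
        · rw [Set.singleton_injective (compl_injective hf)]; exact hb
  obtain ⟨σ, b, c, d, hb, hl⟩ := hK
  have hlt : (mcnt C X2 σ j).card < (mcnt C X1 σ j).card := by
    have hm : Mt C D σ j (c b) (d b) := ⟨(hl b).1.1, (hl b).1.2, (hl b).2.2.2⟩
    rw [kK σ b c d hl]
    exact k1 σ _ _ b hm hb (kline hk hT hl hm)
  have hs : ∑ σ, (mcnt C X2 σ j).card < ∑ σ, (mcnt C X1 σ j).card :=
    sum_lt_sum (fun σ _ => hle σ) ⟨σ, mem_univ _, hlt⟩
  rw [sum_cnt hn, sum_cnt hn] at hs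
  exact lt_of_mul_lt_mul_left hs (Nat.zero_le _)

end Pool.Agent.MP_92191b_al.K3

end

section

/-! Sizes of small balls and of the half cube, and distances between their points. -/

set_option linter.unusedSectionVars false

namespace Pool.Agent.MP_92191b_al.K3

open Finset Function Equiv K6 X

variable {ι : Type} [Fintype ι] [DecidableEq ι]

namespace HSz

theorem dist_eq {x y : ι → Fin 3} {A : Finset ι} (h : ∀ l, x l ≠ y l ↔ l ∈ A) :
    hammingDist x y = A.card := by
  unfold hammingDist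
  congr 1
  ext l
  simp only [mem_filter, mem_univ, true_and]
  exact h l

theorem upd (y d : ι → Fin 3) (l : ι) (v : Fin 3) :
    hammingDist (update y l v) d + nq (y l) (d l) = hammingDist y d + nq v (d l) := by
  unfold hammingDist nq
  rw [card_filter, card_filter, ← add_sum_erase _ _ (mem_univ l), ← add_sum_erase _ _ (mem_univ l)]
  have h : ∑ x ∈ univ.erase l, (if update y l v x ≠ d x then 1 else 0 : ℕ) =
      ∑ x ∈ univ.erase l, (if y x ≠ d x then 1 else 0 : ℕ) :=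
    sum_congr rfl fun x hx => by rw [update_of_ne (ne_of_mem_erase hx)]
  rw [h, update_self]
  by_cases h1 : y l = d l <;> by_cases h2 : v = d l <;> simp [h1, h2]
  all_goals omega

/-- Replace the letter at `l` by the third letter. -/
def fl (ζ y : ι → Fin 3) (l : ι) : ι → Fin 3 := update y l (-(ζ l + y l))

theorem third_ne : ∀ a b : Fin 3, b ≠ a → -(a + b) ≠ a ∧ -(a + b) ≠ b := by decide

theorem third_eq : ∀ a b c : Fin 3, b ≠ a → c ≠ a → b ≠ c → -(a + b) = c := by decide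

theorem third_third : ∀ a b : Fin 3, -(a + -(a + b)) = b := by decide

theorem fl_off {ζ y : ι → Fin 3} (h : ∀ l, y l ≠ ζ l) (l r : ι) : fl ζ y l r ≠ ζ r := by
  unfold fl
  by_cases e : r = l
  · subst e
    rw [update_self]
    exact (third_ne _ _ (h r)).1
  · rw [update_of_ne e]
    exact h r

theorem fl_fl (ζ y : ι → Fin 3) (l : ι) : fl ζ (fl ζ y l) l = y := by
  unfold fl
  rw [update_self, third_third, update_idem, update_eq_self]

theorem fl_par {ζ y d : ι → Fin 3} (l : ι) (hy : y l ≠ ζ l) (hd : d l ≠ ζ l) :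
    Even (hammingDist (fl ζ y l) d) ↔ ¬Even (hammingDist y d) := by
  have h := upd y d l (-(ζ l + y l))
  unfold nq at h
  change hammingDist (fl ζ y l) d + _ = _ at h
  by_cases e : y l = d l
  · have e2 : -(ζ l + y l) ≠ d l := e ▸ (third_ne _ _ hy).2
    rw [if_pos e, if_neg e2] at h
    rw [add_zero] at h
    rw [h, Nat.even_add_one]
  · rw [if_neg e, if_pos (third_eq _ _ _ hy hd e), add_zero] at h
    rw [← h, Nat.even_add_one, not_not]

theorem ball (ζ : ι → Fin 3) (ρ : ℕ) :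
    (univ.filter fun y : ι → Fin 3 => hammingDist y ζ ≤ ρ).card ≤
      2 ^ ρ * 2 ^ Fintype.card ι := by
  rw [← Fintype.card_finset, ← card_univ]
  refine card_le_mul_card_image_of_maps_to (f := fun y => univ.filter fun l => y l ≠ ζ l)
    (fun _ _ => mem_univ _) _ fun A _ => ?_
  by_cases hA : A.card ≤ ρ
  · refine le_trans ?_ (Nat.pow_le_pow_right two_pos hA)
    rw [← card_powerset]
    refine card_le_card_of_injOn (fun y => A.filter fun l => y l = ζ l + 1)
      (fun y _ => mem_coe.2 (mem_powerset.2 (filter_subset _ _))) fun y hy y' hy' e => ?_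
    have h1 := (mem_filter.1 (mem_coe.1 hy)).2
    have h2 := (mem_filter.1 (mem_coe.1 hy')).2
    funext l
    have e1 : y l ≠ ζ l ↔ l ∈ A := by rw [← h1]; simp
    have e2 : y' l ≠ ζ l ↔ l ∈ A := by rw [← h2]; simp
    have e3 : l ∈ A ∧ y l = ζ l + 1 ↔ l ∈ A ∧ y' l = ζ l + 1 := by
      rw [← mem_filter (p := fun l => y l = ζ l + 1), ← mem_filter (p := fun l => y' l = ζ l + 1)]
      exact Finset.ext_iff.1 e l
    have key : ∀ a b c : Fin 3, (a ≠ c ↔ b ≠ c) → (a ≠ c → (a = c + 1 ↔ b = c + 1)) → a = b := by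
      decide
    refine key _ _ (ζ l) (e1.trans e2.symm) fun hl => ?_
    have hA := e1.1 hl
    simpa [hA] using e3
  · rw [filter_eq_empty_iff.2, card_empty]
    · exact Nat.zero_le _
    · intro y hy e
      exact hA (e ▸ (mem_filter.1 hy).2)

theorem ball_one (ζ : ι → Fin 3) :
    (univ.filter fun y : ι → Fin 3 => hammingDist y ζ ≤ 1).card = 2 * Fintype.card ι + 1 := by
  let f : ι × Bool → ι → Fin 3 := fun p => update ζ p.1 (if p.2 then ζ p.1 + 1 else ζ p.1 + 2)
  have k1 : ∀ (a : Fin 3) (b : Bool), (if b then a + 1 else a + 2) ≠ a := by decide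
  have k2 : ∀ (a : Fin 3) (b b' : Bool),
      (if b then a + 1 else a + 2) = (if b' then a + 1 else a + 2) → b = b' := by decide
  have k3 : ∀ a c : Fin 3, c ≠ a → ∃ b : Bool, (if b then a + 1 else a + 2) = c := by decide
  have hf : ∀ p r, f p r ≠ ζ r ↔ r = p.1 := by
    intro p r
    by_cases e : r = p.1
    · subst e
      simpa [f] using k1 _ _
    · simp [f, e]
  have hinj : Injective f := by
    rintro ⟨l, b⟩ ⟨l', b'⟩ e
    have e1 : l = l' := (hf (l', b') l).1 (e ▸ (hf (l, b) l).2 rfl)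
    subst e1
    have e2 := congrFun e l
    simp only [f, update_self] at e2
    rw [k2 _ _ _ e2]
  have hs : (univ.filter fun y : ι → Fin 3 => hammingDist y ζ ≤ 1) = insert ζ (univ.image f) := by
    ext y
    simp only [mem_filter, mem_univ, true_and, mem_insert, mem_image]
    constructor
    · intro h
      by_cases e : y = ζ
      · exact Or.inl e
      obtain ⟨l, hl⟩ := Function.ne_iff.1 e
      obtain ⟨b, hb⟩ := k3 _ _ hl
      refine Or.inr ⟨(l, b), funext fun r => ?_⟩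
      by_cases e' : r = l
      · subst e'
        simpa [f] using hb
      · simp only [f, update_of_ne e']
        by_contra hr
        exact e' (card_le_one.1 h r (by simpa using fun h' => hr h'.symm) l (by simpa using hl))
    · rintro (rfl | ⟨p, rfl⟩)
      · simp
      · rw [dist_eq (A := {p.1}) fun r => by rw [hf, mem_singleton], card_singleton]
  rw [hs, card_insert_of_notMem, card_image_of_injective _ hinj, card_univ, Fintype.card_prod,
    Fintype.card_bool, mul_comm]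
  intro h
  obtain ⟨p, -, e⟩ := mem_image.1 h
  exact (hf p p.1).2 rfl (congrFun e _)

theorem half (ζ d0 : ι → Fin 3) (hd : ∀ l, d0 l ≠ ζ l) (hm : 1 ≤ Fintype.card ι) :
    (univ.filter fun y : ι → Fin 3 => (∀ l, y l ≠ ζ l) ∧ Even (hammingDist y d0)).card =
      2 ^ (Fintype.card ι - 1) := by
  obtain ⟨l⟩ : Nonempty ι := Fintype.card_pos_iff.1 hm
  have hW : (univ.filter fun y : ι → Fin 3 => ∀ l, y l ≠ ζ l).card = 2 ^ Fintype.card ι := by
    have : (univ.filter fun y : ι → Fin 3 => ∀ l, y l ≠ ζ l) =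
        Fintype.piFinset fun l => univ.erase (ζ l) := by
      ext y
      simp
    rw [this, Fintype.card_piFinset]
    simp
  have h1 := card_filter_add_card_filter_not
    (s := univ.filter fun y : ι → Fin 3 => ∀ l, y l ≠ ζ l) fun y => Even (hammingDist y d0)
  rw [filter_filter, filter_filter, hW] at h1
  have h2 : (univ.filter fun y : ι → Fin 3 => (∀ l, y l ≠ ζ l) ∧ ¬Even (hammingDist y d0)).card =
      (univ.filter fun y : ι → Fin 3 => (∀ l, y l ≠ ζ l) ∧ Even (hammingDist y d0)).card := by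
    refine card_nbij' (fun y => fl ζ y l) (fun y => fl ζ y l) (fun y hy => ?_) (fun y hy => ?_)
      (fun y _ => fl_fl ζ y l) fun y _ => fl_fl ζ y l
    · obtain ⟨h, h'⟩ := (mem_filter.1 (mem_coe.1 hy)).2
      exact mem_coe.2 (mem_filter.2 ⟨mem_univ _, fl_off h l, (fl_par l (h l) (hd l)).2 h'⟩)
    · obtain ⟨h, h'⟩ := (mem_filter.1 (mem_coe.1 hy)).2
      exact mem_coe.2 (mem_filter.2 ⟨mem_univ _, fl_off h l,
        fun h'' => (fl_par l (h l) (hd l)).1 h'' h'⟩)
  obtain ⟨n, hn⟩ : ∃ n, Fintype.card ι = n + 1 := ⟨Fintype.card ι - 1, by omega⟩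
  rw [h2, hn, pow_succ] at h1
  rw [hn, Nat.add_sub_cancel]
  omega

theorem reach (ζ d0 y : ι → Fin 3) (s : ℕ) (hd : ∀ l, d0 l ≠ ζ l) (hy : ∃ l, y l = ζ l)
    (h1 : Fintype.card ι ≤ s + hammingDist y ζ) (h2 : s ≤ Fintype.card ι) :
    ∃ h : ι → Fin 3, (∀ l, h l ≠ ζ l) ∧ Even (hammingDist h d0) ∧ hammingDist y h = s := by
  obtain ⟨l0, hl0⟩ := hy
  set A := univ.filter fun l => y l ≠ ζ l with hA
  have hAc : hammingDist y ζ = A.card := rfl
  have hAm : A.card ≤ Fintype.card ι := card_le_univ _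
  obtain ⟨B, hBA, hB⟩ := exists_subset_card_eq (s := A) (n := s + A.card - Fintype.card ι)
    (by omega)
  have hC : (B ∪ Aᶜ).card = s := by
    rw [card_union_of_disjoint (disjoint_compl_right.mono_left hBA), hB, card_compl]
    omega
  have k1 : ∀ a : Fin 3, a + 1 ≠ a := by decide
  let h0 : ι → Fin 3 := fun l =>
    if l ∈ B then -(ζ l + y l) else if y l = ζ l then ζ l + 1 else y l
  have hoff : ∀ l, h0 l ≠ ζ l := by
    intro l
    simp only [h0]
    split_ifs with e1 e2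
    · exact (third_ne _ _ (mem_filter.1 (hBA e1)).2).1
    · exact k1 _
    · exact e2
  have hdiff : ∀ l, y l ≠ h0 l ↔ l ∈ B ∪ Aᶜ := by
    intro l
    simp only [h0, mem_union, mem_compl, hA, mem_filter, mem_univ, true_and, not_not]
    split_ifs with e1 e2
    · simpa [e1] using (third_ne _ _ (mem_filter.1 (hBA e1)).2).2.symm
    · simpa [e2] using (k1 _).symm
    · simp [e1, e2]
  by_cases hp : Even (hammingDist h0 d0)
  · exact ⟨h0, hoff, hp, (dist_eq hdiff).trans hC⟩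
  · refine ⟨fl ζ h0 l0, fl_off hoff l0, (fl_par l0 (hoff l0) (hd l0)).2 hp,
      (dist_eq fun l => ?_).trans hC⟩
    rw [← hdiff]
    by_cases e : l = l0
    · subst e
      rw [hl0]
      exact iff_of_true (fl_off hoff l l).symm (hoff l).symm
    · unfold fl
      rw [update_of_ne e]

theorem flips (ζ d0 : ι → Fin 3) (s : ℕ) (hd : ∀ l, d0 l ≠ ζ l) (h : s ≤ Fintype.card ι) :
    ∃ h : ι → Fin 3, (∀ l, h l ≠ ζ l) ∧ hammingDist h d0 = s := by
  obtain ⟨B, -, hB⟩ := exists_subset_card_eq (s := (univ : Finset ι)) (n := s) h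
  refine ⟨fun l => if l ∈ B then -(ζ l + d0 l) else d0 l, fun l => ?_,
    (dist_eq fun l => ?_).trans hB⟩
  · dsimp only
    split_ifs
    · exact (third_ne _ _ (hd l)).1
    · exact hd l
  · by_cases e : l ∈ B
    · simpa [e] using (third_ne _ _ (hd l)).2
    · simp [e]

theorem sphere (ζ : ι → Fin 3) (ρ s : ℕ) (h1 : ρ ≤ Fintype.card ι) (h2 : s ≤ 2 * ρ)
    (h3 : s ≤ Fintype.card ι) :
    ∃ y y' : ι → Fin 3, hammingDist y ζ = ρ ∧ hammingDist y' ζ = ρ ∧ hammingDist y y' = s := by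
  have k1 : ∀ a : Fin 3, a + 1 ≠ a := by decide
  have k2 : ∀ a : Fin 3, a + 2 ≠ a := by decide
  have k3 : ∀ a : Fin 3, a + 1 ≠ a + 2 := by decide
  by_cases hs : s ≤ ρ
  · obtain ⟨A, -, hA⟩ := exists_subset_card_eq (s := (univ : Finset ι)) (n := ρ) h1
    obtain ⟨B, hBA, hB⟩ := exists_subset_card_eq (s := A) (n := s) (by omega)
    refine ⟨fun l => if l ∈ A then ζ l + 1 else ζ l,
      fun l => if l ∈ B then ζ l + 2 else if l ∈ A then ζ l + 1 else ζ l,
      (dist_eq fun l => ?_).trans hA, (dist_eq fun l => ?_).trans hA,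
      (dist_eq fun l => ?_).trans hB⟩
    · by_cases e : l ∈ A <;> simp [e]
    · by_cases e : l ∈ B
      · simpa [e, hBA e] using k2 _
      · by_cases e' : l ∈ A <;> simp [e, e']
    · by_cases e : l ∈ B
      · simpa [e, hBA e] using k3 _
      · simp [e]
  · obtain ⟨S, -, hS⟩ := exists_subset_card_eq (s := (univ : Finset ι)) (n := s) h3
    obtain ⟨A, hAS, hA⟩ := exists_subset_card_eq (s := S) (n := ρ) (by omega)
    obtain ⟨A', h4, h5, hA'⟩ := exists_subsuperset_card_eq (s := S \ A) (t := S) (n := ρ)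
      sdiff_subset (by rw [card_sdiff_of_subset hAS]; omega) (by omega)
    refine ⟨fun l => if l ∈ A then ζ l + 1 else ζ l, fun l => if l ∈ A' then ζ l + 2 else ζ l,
      (dist_eq fun l => ?_).trans hA, (dist_eq fun l => ?_).trans hA',
      (dist_eq fun l => ?_).trans hS⟩
    · by_cases e : l ∈ A <;> simp [e]
    · by_cases e : l ∈ A'
      · simpa [e] using k2 _
      · simp [e]
    · by_cases e : l ∈ A <;> by_cases e' : l ∈ A'
      · simpa [e, e', hAS e] using k3 _
      · simp [e, e', hAS e]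
      · simpa [e, e', h5 e'] using (k2 _).symm
      · simpa [e, e'] using fun hl => e' (h4 (mem_sdiff.2 ⟨hl, e⟩))

end HSz

theorem sz : StmtSz ι := fun ζ =>
  ⟨HSz.ball ζ, HSz.ball_one ζ, HSz.half ζ, HSz.reach ζ, HSz.flips ζ, HSz.sphere ζ⟩

end Pool.Agent.MP_92191b_al.K3

end
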