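import Pool.Agent.MP_92191b_al.K3.Defs2
import Pool.Agent.MP_92191b_al.K6.Basic
import Pool.Agent.MP_92191b_al.K3.HDefs

section

/-! The structure theorem: centring and unswitching. -/

set_option linter.unusedSectionVars false

namespace Pool.Agent.MP_92191b_al.K3

open Finset Function Equiv K6 X

variable {ι : Type} [Fintype ι] [DecidableEq ι]

namespace ThmA

theorem mem_df {c z : ι → α} {l : ι} : l ∈ df c z ↔ c l ≠ z l := by simp [df]

theorem dist_eq (c d : ι → α) : hammingDist c d = (df c d).card := rfl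

theorem closure {D : Finset (ι → α)} {ζ : ι → α}
    (H : ∀ d ∈ D, ∀ j v, d j ≠ ζ j → v ≠ ζ j → update d j v ∈ D) {d x : ι → α} (hd : d ∈ D)
    (h : df x ζ = df d ζ) : x ∈ D := by
  have h' : ∀ i, x i ≠ ζ i ↔ d i ≠ ζ i := fun i => by rw [← mem_df, ← mem_df, h]
  have key : ∀ S : Finset ι, (fun i => if i ∈ S then x i else d i) ∈ D := by
    intro S
    induction S using Finset.induction_on with
    | empty => simpa using hd
    | insert i S hi ih =>
      by_cases hx : x i = ζ i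
      · have hd' : d i = ζ i := by
          by_contra h2
          exact (h' i).2 h2 hx
        convert ih using 1
        funext r
        by_cases hr : r = i
        · subst hr
          simp [hi, hx, hd']
        · simp [hr]
      · have := H _ ih i (x i) (by simpa [hi] using (h' i).1 hx) hx
        convert this using 1
        funext r
        by_cases hr : r = i
        · subst hr
          simp
        · simp [hr]
  simpa using key univ

theorem dev_eq (ζ : ι → α) (E : Finset ι) (x : ι → α) : dev ζ E x = (df x ζ \ E).card := by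
  unfold dev
  congr 1
  ext i
  simp [df, and_comm]

theorem mem_AK {ζ : ι → α} {E : Finset ι} {e : ℕ} {x : ι → α} :
    x ∈ AK ζ E e ↔ dev ζ E x ≤ e := by simp [AK]

theorem dev_insert (ζ : ι → α) {E : Finset ι} {j : ι} (hj : j ∉ E) (x : ι → α) :
    dev ζ E x = dev ζ (insert j E) x + nq (x j) (ζ j) := by
  unfold dev
  by_cases h : x j = ζ j
  · rw [h, nq_self, add_zero]
    congr 1
    ext i
    by_cases hi : i = j
    · subst hi
      simp [h]
    · simp [hi]
  · rw [nq_of_ne h, ← card_insert_of_notMem (a := j) (by simp)]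
    congr 1
    ext i
    by_cases hi : i = j
    · subst hi
      simp [h, hj]
    · simp [hi]

theorem dev_congr {ζ ζ' x x' : ι → α} {E : Finset ι} (h1 : ∀ i, i ∉ E → ζ i = ζ' i)
    (h2 : ∀ i, i ∉ E → x i = x' i) : dev ζ E x = dev ζ' E x' := by
  unfold dev
  congr 1
  ext i
  by_cases hi : i ∈ E
  · simp [hi]
  · simp [hi, h1 i hi, h2 i hi]

theorem upd_off {x : ι → α} {j : ι} {v : α} {E : Finset ι} (hj : j ∈ E) (i : ι) (hi : i ∉ E) :
    update x j v i = x i :=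
  update_of_ne (fun h : i = j => hi (h ▸ hj)) _ _

theorem mem_fib_AK {ζ : ι → α} {E : Finset ι} {j : ι} (hj : j ∉ E) (e : ℕ) (x : ι → α) (v : α) :
    v ∈ Fib (AK ζ E e) j x ↔ dev ζ (insert j E) x + nq v (ζ j) ≤ e := by
  show update x j v ∈ AK ζ E e ↔ _
  rw [mem_AK, dev_insert ζ hj, update_self,
    dev_congr (fun _ _ => rfl) (upd_off (mem_insert_self j E))]

theorem four (hL : StmtLab ι) (_hk : 3 ≤ Fintype.card α) {C D : Finset (ι → α)} (hG : GQ C D)
    (hC : C.Nonempty) (j : ι) (x : ι → α) :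
    Fib D j x = ∅ ∨ Fib D j x = Set.univ ∨ ∃ b, Fib D j x = {b} ∨ Fib D j x = {b}ᶜ := by
  rcases (Fib D j x).eq_empty_or_nonempty with h | ⟨v, hv⟩
  · exact Or.inl h
  right
  obtain ⟨c, hc⟩ := hC
  have he : Fib D j (update x j v) = Fib D j x := by
    ext w
    simp [Fib]
  have hs : ∀ r, r ≠ j → c r = swap (update x j v r) (c r) (update x j v r) := fun r _ =>
    (swap_apply_left _ _).symm
  rcases hL C D hG (fun r => swap (update x j v r) (c r)) j with h | ⟨b, h⟩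
  · exact Or.inl (he ▸ h c hc _ hv hs)
  · exact Or.inr ⟨b, he ▸ h c hc _ hv hs⟩

theorem far_dist {ζ x y : ι → α} {E : Finset ι} {j : ι} (hj : j ∉ E) {b b' : α} (hb : b ≠ b')
    (hE : ∀ r ∈ E, x r ≠ y r) (hd : ∀ r, r ∉ insert j E → x r = ζ r ∨ y r = ζ r) :
    hammingDist (update x j b) (update y j b') =
      dev ζ (insert j E) x + dev ζ (insert j E) y + E.card + 1 := by
  have h1 : df (update x j b) (update y j b') =
      (df x ζ \ insert j E) ∪ (df y ζ \ insert j E) ∪ insert j E := by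
    ext r
    simp only [mem_df, mem_union, mem_sdiff]
    by_cases hr : r ∈ insert j E
    · simp only [hr, or_true, iff_true]
      rcases mem_insert.1 hr with rfl | hr'
      · simpa using hb
      · have : r ≠ j := fun h => hj (h ▸ hr')
        simpa [update_of_ne this] using hE r hr'
    · rw [upd_off (mem_insert_self j E) r hr, upd_off (mem_insert_self j E) r hr]
      simp only [hr, not_false_eq_true, and_true, or_false]
      rcases hd r hr with h | h
      · rw [h]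
        simp [eq_comm]
      · rw [h]
        simp
  rw [dist_eq, h1, card_union_of_disjoint, card_union_of_disjoint, card_insert_of_notMem hj,
    dev_eq, dev_eq]
  · omega
  · rw [disjoint_left]
    intro r h2 h3
    rw [mem_sdiff, mem_df] at h2 h3
    rcases hd r h2.2 with h | h
    · exact h2.1 h
    · exact h3.1 h
  · rw [disjoint_left]
    intro r h2 h3
    rcases mem_union.1 h2 with h | h <;> exact (mem_sdiff.1 h).2 h3

theorem exists_far (hk : 3 ≤ Fintype.card α) {ζ x x' : ι → α} {E : Finset ι} {j : ι} {e : ℕ}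
    (hj : j ∉ E) (room : E.card + Fintype.card α * e + 1 ≤ Fintype.card ι)
    (hx : dev ζ (insert j E) x = e) (hx' : dev ζ (insert j E) x' = e) :
    ∃ y, dev ζ (insert j E) y = e ∧ (∀ r ∈ E, x r ≠ y r ∧ x' r ≠ y r) ∧
      ∀ r, r ∉ insert j E → (x r = ζ r ∨ y r = ζ r) ∧ (x' r = ζ r ∨ y r = ζ r) := by
  set B := (df x ζ \ insert j E) ∪ (df x' ζ \ insert j E) ∪ insert j E with hB
  have hc : B.card ≤ e + e + (E.card + 1) := by
    rw [dev_eq] at hx hx'
    refine (card_union_le _ _).trans (Nat.add_le_add ((card_union_le _ _).trans ?_) ?_)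
    · omega
    · rw [card_insert_of_notMem hj]
  have hc' : e ≤ (univ \ B).card := by
    rw [card_univ_sdiff]
    have : 3 * e ≤ Fintype.card α * e := Nat.mul_le_mul_right _ hk
    omega
  obtain ⟨R, hR, hRc⟩ := exists_subset_card_eq hc'
  have hRB : ∀ r ∈ R, r ∉ B := fun r hr => (mem_sdiff.1 (hR hr)).2
  choose a ha using fun r => exists_ne1 (by omega) (ζ r)
  choose w hw using fun r => exists_ne2 (by omega) (x r) (x' r)
  refine ⟨fun r => if r ∈ R then a r else if r ∈ E then w r else ζ r, ?_, ?_, ?_⟩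
  · rw [dev_eq, ← hRc]
    congr 1
    ext r
    rw [mem_sdiff, mem_df]
    by_cases hr : r ∈ R
    · have := hRB r hr
      simp only [hr, if_true, iff_true]
      exact ⟨ha r, fun h => this (mem_union_right _ h)⟩
    · simp only [hr, if_false, iff_false, not_and, not_not]
      intro h
      by_cases hE : r ∈ E
      · exact mem_insert_of_mem hE
      · simp [hE] at h
  · intro r hr
    have hr' : r ∉ R := fun h => hRB r h (mem_union_right _ (mem_insert_of_mem hr))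
    simp only [hr', hr, if_true, if_false]
    exact ⟨(hw r).1.symm, (hw r).2.symm⟩
  · intro r hr
    by_cases hR' : r ∈ R
    · have := hRB r hR'
      simp only [hB, mem_union, mem_sdiff, mem_df, hr, not_false_eq_true, and_true, or_false,
        not_or, not_not] at this
      exact ⟨Or.inl this.1, Or.inl this.2⟩
    · have hE : r ∉ E := fun h => hr (mem_insert_of_mem h)
      simp only [hR', hE, if_false, or_true, and_self]

theorem unswitch (hL : StmtLab ι) (hk : 3 ≤ Fintype.card α) {C D D' : Finset (ι → α)}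
    (hG : GQ C D) {j : ι} {z : α} (hS : SwRel D D' j z) {d : ι → α} {b : α}
    (hd : Fib D j d = {b} ∨ Fib D j d = {b}ᶜ) (hc : Concl C D') : Concl C D := by
  obtain ⟨ζ, E, e, rfl, room, c, hc, c', hc', hcc⟩ := hc
  obtain ⟨z1, hz1⟩ := exists_ne1 (by omega) z
  have hne : ∀ x, Fib (AK ζ E e) j x = {z} ∨ Fib (AK ζ E e) j x = {z}ᶜ →
      ¬(z ∈ Fib (AK ζ E e) j x ↔ z1 ∈ Fib (AK ζ E e) j x) := by
    rintro x (h | h) <;> rw [h] <;> simp [hz1]
  have hd' : Fib (AK ζ E e) j d = {z} ∨ Fib (AK ζ E e) j d = {z}ᶜ :=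
    hd.imp ((hS d).2.2.1 b) ((hS d).2.2.2 b)
  have hj : j ∉ E := by
    intro hj
    refine hne d hd' ?_
    show update d j z ∈ AK ζ E e ↔ update d j z1 ∈ AK ζ E e
    rw [mem_AK, mem_AK, dev_congr (fun _ _ => rfl) (upd_off hj),
      dev_congr (fun _ _ => rfl) (upd_off hj)]
  have h4 := four hL hk hG ⟨c, hc⟩ j
  have hlt : ∀ x, dev ζ (insert j E) x < e → Fib D j x = Set.univ := by
    intro x hx
    have hu : ∀ v, v ∈ Fib (AK ζ E e) j x := fun v => by
      rw [mem_fib_AK hj]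
      have := nq_le v (ζ j)
      omega
    rcases h4 x with h | h | ⟨b, h⟩
    · have := hu z
      rw [(hS x).1 h] at this
      exact this.elim
    · exact h
    · exact (hne x (h.imp ((hS x).2.2.1 b) ((hS x).2.2.2 b)) (iff_of_true (hu _) (hu _))).elim
  have hgt : ∀ x, e < dev ζ (insert j E) x → Fib D j x = ∅ := by
    intro x hx
    have hu : ∀ v, v ∉ Fib (AK ζ E e) j x := fun v => by
      rw [mem_fib_AK hj]
      omega
    rcases h4 x with h | h | ⟨b, h⟩
    · exact h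
    · have := hu z
      rw [(hS x).2.1 h] at this
      exact (this trivial).elim
    · exact (hne x (h.imp ((hS x).2.2.1 b) ((hS x).2.2.2 b)) (iff_of_false (hu _) (hu _))).elim
  have heq : ∀ x, dev ζ (insert j E) x = e → ∃ b, Fib D j x = {b} := by
    intro x hx
    obtain ⟨v, hv1, hv2⟩ := exists_ne2 (by omega) z (ζ j)
    have h1 : ζ j ∈ Fib (AK ζ E e) j x := by
      rw [mem_fib_AK hj, nq_self]
      omega
    have h2 : v ∉ Fib (AK ζ E e) j x := by
      rw [mem_fib_AK hj, nq_of_ne hv2]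
      omega
    rcases h4 x with h | h | ⟨b, h | h⟩
    · rw [(hS x).1 h] at h1
      exact h1.elim
    · rw [(hS x).2.1 h] at h2
      exact (h2 trivial).elim
    · exact ⟨b, h⟩
    · rw [(hS x).2.2.2 b h] at h2
      exact (h2 hv1).elim
  have hpair : ∀ x y b b', dev ζ (insert j E) x = e → dev ζ (insert j E) y = e →
      Fib D j x = {b} → Fib D j y = {b'} → (∀ r ∈ E, x r ≠ y r) →
      (∀ r, r ∉ insert j E → x r = ζ r ∨ y r = ζ r) → b = b' := by
    intro x y b b' hx hy h1 h2 hE hr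
    by_contra hb
    have m1 : b ∈ Fib D j x := h1 ▸ rfl
    have m2 : b' ∈ Fib D j y := h2 ▸ rfl
    have h3 := far_dist hj hb hE hr
    have h5 := hG.sep c hc c' hc' _ m1 _ m2 (by omega)
    rw [h5, hammingDist_self] at hcc
    omega
  have hde : dev ζ (insert j E) d = e := by
    rcases lt_trichotomy (dev ζ (insert j E) d) e with h | h | h
    · exact (hne d hd' (by rw [(hS d).2.1 (hlt d h)]; simp)).elim
    · exact h
    · exact (hne d hd' (by rw [(hS d).1 (hgt d h)]; simp)).elim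
  obtain ⟨b0, hb0⟩ := heq d hde
  have hall : ∀ x, dev ζ (insert j E) x = e → Fib D j x = {b0} := by
    intro x hx
    obtain ⟨b1, hb1⟩ := heq x hx
    obtain ⟨y, hy, hE, hr⟩ := exists_far hk hj room hx hde
    obtain ⟨b2, hb2⟩ := heq y hy
    have e1 := hpair x y b1 b2 hx hy hb1 hb2 (fun r h => (hE r h).1) fun r h => (hr r h).1
    have e2 := hpair d y b0 b2 hde hy hb0 hb2 (fun r h => (hE r h).2) fun r h => (hr r h).2
    rw [hb1, e1, e2]
  refine ⟨update ζ j b0, E, e, ?_, room, c, hc, c', hc', hcc⟩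
  ext x
  have h1 : x ∈ D ↔ x j ∈ Fib D j x := by simp [Fib]
  rw [h1, mem_AK, dev_insert _ hj, update_self,
    dev_congr (upd_off (mem_insert_self j E)) fun _ _ => rfl]
  have h2 := nq_le (x j) b0
  rcases lt_trichotomy (dev ζ (insert j E) x) e with h | h | h
  · rw [hlt x h]
    exact iff_of_true trivial (by omega)
  · rw [hall x h, Set.mem_singleton_iff]
    by_cases h3 : x j = b0
    · rw [h3, nq_self]
      exact iff_of_true rfl (by omega)
    · rw [nq_of_ne h3]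
      exact iff_of_false h3 (by omega)
  · rw [hgt x h]
    exact iff_of_false id (by omega)

theorem pl_iff {C D : Finset (ι → α)} {ζ : ι → α}
    (H : ∀ d ∈ D, ∀ j v, d j ≠ ζ j → v ≠ ζ j → update d j v ∈ D) (z : ι → α) {i j : ι}
    (hij : i ≠ j) (c1 c2 d1 d2 : α) :
    pl (fun c d => c ∈ C ∧ d ∈ D) (fun r => swap (ζ r) (z r)) i j c1 c2 d1 d2 ↔
      cpl C (fun V => ∃ d ∈ D, df d ζ = V) z i j c1 c2 (nz d1 (ζ i)) (nz d2 (ζ j)) := by
  constructor
  · rintro ⟨c, d, ⟨⟨hc, hd⟩, h⟩, rfl, rfl, rfl, rfl⟩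
    refine ⟨c, hc, df d ζ, ⟨d, hd, rfl⟩, rfl, rfl, ?_, ?_, fun r h1 h2 => ?_⟩
    · rw [mem_df, nz, decide_eq_true_iff]
    · rw [mem_df, nz, decide_eq_true_iff]
    · rw [mem_df, h r h1 h2, Ne, Ne, swap_apply_eq_iff, swap_apply_right]
  · rintro ⟨c, hc, V, ⟨d, hd, rfl⟩, rfl, rfl, h1, h2, h3⟩
    rw [nz, decide_eq_true_iff] at h1 h2
    refine ⟨c, fun r => if r = i then d1 else if r = j then d2 else swap (ζ r) (z r) (c r),
      ⟨⟨hc, closure H hd ?_⟩, fun r hi hj => ?_⟩, rfl, rfl, if_pos rfl, ?_⟩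
    · ext r
      rw [mem_df]
      by_cases hi : r = i
      · subst hi
        rw [if_pos rfl, h1]
      · by_cases hj : r = j
        · subst hj
          rw [if_neg hi, if_pos rfl, h2]
        · rw [if_neg hi, if_neg hj, h3 r hi hj, Ne, Ne, swap_apply_eq_iff, swap_apply_left]
    · simp only [if_neg hi, if_neg hj, swap_apply_self]
    · simp only [if_neg hij.symm, if_true]

end ThmA

open ThmA

theorem toCen (hC : StmtCnt ι α) (hA : StmtCenA ι) : StmtToCen ι := by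
  intro C D hG h2 ζ H
  have hk := hk3
  have hcen : Cen C fun V => ∃ d ∈ D, df d ζ = V := by
    constructor
    · rintro c hc c' hc' V V' ⟨d, hd, hV⟩ ⟨d', hd', hV'⟩ h1 h3
      have hu : (V ∪ V').card = (symmDiff V V').card + (V ∩ V').card := by
        rw [← card_union_of_disjoint]
        · congr 1
          ext i
          simp only [mem_union, mem_symmDiff, mem_inter]
          tauto
        · rw [disjoint_left]
          intro i
          simp only [mem_symmDiff, mem_inter]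
          tauto
      obtain ⟨S, hS, hSc⟩ := exists_subset_card_eq (s := V ∩ V')
        (n := hammingDist c c' - (symmDiff V V').card) (by omega)
      choose a ha using fun r => exists_ne1 (by omega) (ζ r)
      choose a' ha' using fun r => exists_ne2 (by omega) (ζ r) (a r)
      have m1 : (fun i => if i ∈ V then a i else ζ i) ∈ D := by
        refine closure H hd ?_
        rw [hV]
        ext i
        rw [mem_df]
        by_cases hi : i ∈ V <;> simp [hi, ha i]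
      have m2 : (fun i => if i ∈ V' then (if i ∈ S then a' i else a i) else ζ i) ∈ D := by
        refine closure H hd' ?_
        rw [hV']
        ext i
        rw [mem_df]
        by_cases hi : i ∈ V' <;> by_cases hs : i ∈ S <;> simp [hi, hs, ha i, (ha' i).1]
      refine hG.sep c hc c' hc' _ m1 _ m2 ?_
      have h4 : df (fun i => if i ∈ V then a i else ζ i)
          (fun i => if i ∈ V' then (if i ∈ S then a' i else a i) else ζ i) =
          symmDiff V V' ∪ S := by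
        ext i
        have h5 : i ∈ S → i ∈ V ∧ i ∈ V' := fun h => mem_inter.1 (hS h)
        rw [mem_df, mem_union, mem_symmDiff]
        by_cases hi : i ∈ V <;> by_cases hi' : i ∈ V' <;> by_cases hs : i ∈ S <;>
          simp_all [(ha i).symm, (ha' i).2.symm]
      rw [dist_eq (fun i => if i ∈ V then a i else ζ i), h4, card_union_of_disjoint]
      · omega
      · rw [disjoint_left]
        intro i h6 h7
        have := mem_inter.1 (hS h7)
        rw [mem_symmDiff] at h6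
        tauto
    · intro z π
      have hne : Nonempty α := Fintype.card_pos_iff.1 (by omega)
      obtain ⟨c, d, ⟨hc, hd⟩, h⟩ := (hC.2.2.1 C D hne hG.sep hG.big).ex
        (fun l => swap (ζ (π l)) (z l)) π
      refine ⟨c, hc, d, hd, ?_⟩
      ext r
      obtain ⟨l, rfl⟩ := π.surjective r
      have h1 : π l ∈ (df c z).map π.toEmbedding ↔ l ∈ df c z := mem_map' π.toEmbedding
      rw [h1, mem_df, mem_df, h l, Ne, Ne, swap_apply_eq_iff, swap_apply_right]
  have h3 : Cen3 C fun V => ∃ d ∈ D, df d ζ = V := by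
    refine ⟨hcen, fun z i j hij a0 a1 x0 x1 hQ => ?_⟩
    refine hG.nox.pl (fun r => swap (ζ r) (z r)) hij
      (Or.inl ⟨a0, a1, x0, x1, ζ i, ζ j, hQ.1, hQ.2.1, fun c1 c2 d1 d2 => ?_⟩)
    rw [pl_iff H z hij, hQ.2.2]
    simp only [nz, decide_eq_true_iff, decide_eq_false_iff_not, not_not]
  obtain ⟨E, e, room, hF, hcc⟩ := hA C _ h3 h2
  refine ⟨ζ, E, e, ?_, room, hcc⟩
  ext x
  rw [mem_AK, dev_eq, ← hF]
  exact ⟨fun hx => ⟨x, hx, rfl⟩, fun ⟨d, hd, h⟩ => closure H hd h.symm⟩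

theorem thmA (hL : StmtLab ι) (hS : StmtSw ι) (hT : StmtToCen ι) : StmtA ι := by
  intro C D hG h2
  have hk := hk3
  obtain ⟨ζ⟩ : Nonempty (ι → α) := by
    have hne : Nonempty α := Fintype.card_pos_iff.1 (by omega)
    infer_instance
  have hb : ∀ D : Finset (ι → α), ∑ j, (D.filter fun d => d j = ζ j).card ≤
      ∑ _j : ι, Fintype.card (ι → α) := fun D =>
    sum_le_sum fun j _ => card_le_univ _
  have key : ∀ n, ∀ D : Finset (ι → α), GQ C D →
      ∑ _j : ι, Fintype.card (ι → α) < ∑ j, (D.filter fun d => d j = ζ j).card + n →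
      Concl C D := by
    intro n
    induction n with
    | zero => exact fun D _ h => absurd (hb D) (by omega)
    | succ n ih =>
      intro D hG hn
      by_cases H : ∀ d ∈ D, ∀ j v, d j ≠ ζ j → v ≠ ζ j → update d j v ∈ D
      · exact hT C D hG h2 ζ H
      push Not at H
      obtain ⟨d, hd, j, v, h1, h3, h4⟩ := H
      have m1 : d j ∈ Fib D j d := by simpa [Fib] using hd
      have m2 : v ∉ Fib D j d := h4
      obtain ⟨b, hb1, hb2⟩ : ∃ b, b ≠ ζ j ∧ (Fib D j d = {b} ∨ Fib D j d = {b}ᶜ) := by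
        rcases four hL hk hG (card_pos.1 (by omega)) j d with h | h | ⟨b, h | h⟩
        · rw [h] at m1
          exact m1.elim
        · rw [h] at m2
          exact (m2 trivial).elim
        · refine ⟨b, ?_, Or.inl h⟩
          rw [h, Set.mem_singleton_iff] at m1
          exact m1 ▸ h1
        · refine ⟨b, ?_, Or.inr h⟩
          rw [h, Set.mem_compl_iff, not_not, Set.mem_singleton_iff] at m2
          exact m2 ▸ h3
      obtain ⟨D', hG', hsw, he, hlt⟩ := hS C D hG h2 j (ζ j) ⟨d, b, hb1, hb2⟩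
      refine unswitch hL hk hG hsw hb2 (ih D' hG' ?_)
      have : ∑ r, (D.filter fun d => d r = ζ r).card < ∑ r, (D'.filter fun d => d r = ζ r).card := by
        refine sum_lt_sum (fun r _ => ?_) ⟨j, mem_univ _, hlt⟩
        by_cases hr : r = j
        · subst hr
          exact hlt.le
        · exact (he r _ hr).ge
      omega
  exact key (∑ _j : ι, Fintype.card (ι → α) + 1) D hG (by omega)

end Pool.Agent.MP_92191b_al.K3

end

section

/-! Counting states. -/

set_option linter.unusedSectionVars false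

namespace Pool.Agent.MP_92191b_al.K6

open Finset Function Equiv

variable {ι α : Type} [Fintype ι] [DecidableEq ι] [Fintype α] [DecidableEq α]

namespace Cnt

/-- The states sending `d` to `c` on `R`. -/
def St (R : Finset ι) (c d : ι → α) : Finset (ι → Perm α) :=
  univ.filter fun σ : ι → Perm α => ∀ r ∈ R, c r = σ r (d r)

theorem mem_St {R : Finset ι} {c d : ι → α} {σ : ι → Perm α} :
    σ ∈ St R c d ↔ ∀ r ∈ R, c r = σ r (d r) := by simp [St]

theorem St_le (R : Finset ι) (c d c' d' : ι → α) : (St R c d).card ≤ (St R c' d').card := by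
  refine card_le_card_of_injOn (fun σ r => swap (c r) (c' r) * σ r * swap (d r) (d' r)) ?_ ?_
  · intro σ hσ
    have h := mem_St.1 (mem_coe.1 hσ)
    refine mem_coe.2 (mem_St.2 fun r hr => ?_)
    simp only [Perm.mul_apply, swap_apply_right]
    rw [← h r hr, swap_apply_left]
  · intro σ _ τ _ h
    funext r
    have h1 := congrFun h r
    exact mul_left_cancel (mul_right_cancel h1)

theorem St_eq (R : Finset ι) (c d c' d' : ι → α) : (St R c d).card = (St R c' d').card :=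
  le_antisymm (St_le R c d c' d') (St_le R c' d' c d)

theorem St_pos (R : Finset ι) (c d : ι → α) : 0 < (St R c d).card :=
  card_pos.2 ⟨fun r => swap (d r) (c r), mem_St.2 fun _ _ => (swap_apply_left _ _).symm⟩

theorem part1 (R : Finset ι) : ∃ n, 0 < n ∧ ∀ c d : ι → α, (St R c d).card = n := by
  rcases isEmpty_or_nonempty (ι → α) with h | ⟨⟨x⟩⟩
  · exact ⟨1, one_pos, fun c => isEmptyElim c⟩
  · exact ⟨_, St_pos R x x, fun c d => St_eq R c d x x⟩

/-- The pairs matched by a state. -/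
def Pr (C D : Finset (ι → α)) (σ : ι → Perm α) : Finset ((ι → α) × (ι → α)) :=
  (C ×ˢ D).filter fun p => σ ∈ St univ p.1 p.2

theorem mem_Pr {C D : Finset (ι → α)} {σ : ι → Perm α} {p : (ι → α) × (ι → α)} :
    p ∈ Pr C D σ ↔ p.1 ∈ C ∧ p.2 ∈ D ∧ ∀ r, p.1 r = σ r (p.2 r) := by
  simp [Pr, mem_St, and_assoc]

theorem sum_Pr (C D : Finset (ι → α)) {n : ℕ} (hn : ∀ c d : ι → α, (St univ c d).card = n) :
    ∑ σ : ι → Perm α, (Pr C D σ).card = C.card * D.card * n := by
  have h := sum_card_bipartiteAbove_eq_sum_card_bipartiteBelow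
    (s := (univ : Finset (ι → Perm α))) (t := C ×ˢ D) (fun σ p => σ ∈ St univ p.1 p.2)
  have h1 : ∑ σ : ι → Perm α, (Pr C D σ).card =
      ∑ p ∈ C ×ˢ D, ((univ : Finset (ι → Perm α)).bipartiteBelow
        (fun σ (p : (ι → α) × (ι → α)) => σ ∈ St univ p.1 p.2) p).card := h
  rw [h1, ← card_product, ← smul_eq_mul, ← sum_const]
  refine sum_congr rfl fun p _ => ?_
  rw [← hn p.1 p.2]
  congr 1
  ext σ
  simp [mem_bipartiteBelow]

theorem total (x : ι → α) {n : ℕ} (hn : ∀ c d : ι → α, (St univ c d).card = n) :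
    Fintype.card (ι → Perm α) = Fintype.card α ^ Fintype.card ι * n := by
  have h := sum_Pr (univ : Finset (ι → α)) {x} hn
  rw [card_univ, card_singleton, mul_one, Fintype.card_fun] at h
  rw [← h, ← card_univ, card_eq_sum_ones]
  refine sum_congr rfl fun σ _ => ?_
  symm
  rw [card_eq_one]
  refine ⟨(fun r => σ r (x r), x), ?_⟩
  ext p
  rw [mem_Pr, mem_singleton, mem_singleton]
  constructor
  · rintro ⟨-, h2, h3⟩
    refine Prod.ext (funext fun r => ?_) h2
    rw [h3 r, h2]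
  · rintro rfl
    exact ⟨mem_univ _, rfl, fun _ => rfl⟩

theorem Pr_le {C D : Finset (ι → α)} (h : Sep C D) (σ : ι → Perm α) : (Pr C D σ).card ≤ 1 := by
  refine card_le_one.2 fun p hp q hq => ?_
  obtain ⟨h1, h2, h3⟩ := mem_Pr.1 hp
  obtain ⟨h4, h5, h6⟩ := mem_Pr.1 hq
  have he : hammingDist p.1 q.1 = hammingDist p.2 q.2 := by
    unfold hammingDist
    congr 1
    refine filter_congr fun r _ => ?_
    rw [h3 r, h6 r]
    exact (σ r).injective.ne_iff
  have hc := h _ h1 _ h4 _ h2 _ h5 he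
  refine Prod.ext hc (funext fun r => (σ r).injective ?_)
  rw [← h3 r, ← h6 r, hc]

theorem part2 (C D : Finset (ι → α)) (h : Sep C D) :
    C.card * D.card ≤ Fintype.card α ^ Fintype.card ι := by
  rcases C.eq_empty_or_nonempty with rfl | ⟨x, -⟩
  · simp
  obtain ⟨n, hn0, hn⟩ := part1 (α := α) (univ : Finset ι)
  refine Nat.le_of_mul_le_mul_right ?_ hn0
  rw [← total x hn, ← sum_Pr C D hn, ← card_univ, card_eq_sum_ones (univ : Finset (ι → Perm α))]
  exact sum_le_sum fun σ _ => Pr_le h σ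

theorem part4 (C D : Finset (ι → α))
    (h : ∀ σ : ι → Perm α, ∃ d ∈ D, (fun l => σ l (d l)) ∈ C) :
    Fintype.card α ^ Fintype.card ι ≤ C.card * D.card := by
  obtain ⟨x, -, -⟩ := h 1
  obtain ⟨n, hn0, hn⟩ := part1 (α := α) (univ : Finset ι)
  refine Nat.le_of_mul_le_mul_right ?_ hn0
  rw [← total x hn, ← sum_Pr C D hn, ← card_univ, card_eq_sum_ones (univ : Finset (ι → Perm α))]
  refine sum_le_sum fun σ _ => card_pos.2 ?_
  obtain ⟨d, hd, hc⟩ := h σ
  exact ⟨(fun l => σ l (d l), d), mem_Pr.2 ⟨hc, hd, fun _ => rfl⟩⟩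

theorem ex_one {C D : Finset (ι → α)} (hα : Nonempty α) (h : Sep C D)
    (hb : Fintype.card α ^ Fintype.card ι ≤ C.card * D.card) (σ : ι → Perm α) :
    ∃ c d, (c ∈ C ∧ d ∈ D) ∧ ∀ l, c l = σ l (d l) := by
  obtain ⟨a⟩ := hα
  obtain ⟨n, hn0, hn⟩ := part1 (α := α) (univ : Finset ι)
  by_contra hne
  have h0 : (Pr C D σ).card < 1 := by
    rw [Nat.lt_one_iff, card_eq_zero, eq_empty_iff_forall_notMem]
    intro p hp
    obtain ⟨h1, h2, h3⟩ := mem_Pr.1 hp
    exact hne ⟨p.1, p.2, ⟨h1, h2⟩, h3⟩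
  have hlt : ∑ τ : ι → Perm α, (Pr C D τ).card < ∑ _τ : ι → Perm α, 1 :=
    sum_lt_sum (fun τ _ => Pr_le h τ) ⟨σ, mem_univ _, h0⟩
  rw [sum_Pr C D hn, ← card_eq_sum_ones, card_univ, total (fun _ => a) hn] at hlt
  exact absurd (Nat.mul_le_mul_right n hb) (not_le.2 hlt)

theorem ham_comp (π : Perm ι) (d d' : ι → α) :
    hammingDist (d ∘ π) (d' ∘ π) = hammingDist d d' := by
  unfold hammingDist
  refine card_bij (fun r _ => π r) ?_ ?_ ?_
  · intro r hr
    simpa using hr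
  · intro r _ s _ hrs
    exact π.injective hrs
  · intro r hr
    exact ⟨π.symm r, by simpa using hr, by simp⟩

theorem part3 (C D : Finset (ι → α)) (hα : Nonempty α) (h : Sep C D)
    (hb : Fintype.card α ^ Fintype.card ι ≤ C.card * D.card) :
    Tight fun c d => c ∈ C ∧ d ∈ D where
  sep c d c' d' h1 h2 he := by
    have hc := h _ h1.1 _ h2.1 _ h1.2 _ h2.2 he
    refine ⟨hc, ?_⟩
    rw [hc, hammingDist_self] at he
    exact hammingDist_eq_zero.1 he.symm
  ex σ π := by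
    have hinj : Injective fun d : ι → α => d ∘ π := π.surjective.injective_comp_right
    have hs : Sep C (D.image fun d => d ∘ π) := by
      intro c hc c' hc' d hd d' hd' he
      obtain ⟨e, he1, rfl⟩ := mem_image.1 hd
      obtain ⟨e', he2, rfl⟩ := mem_image.1 hd'
      exact h c hc c' hc' e he1 e' he2 (he.trans (ham_comp π e e'))
    obtain ⟨c, d, ⟨hc, hd⟩, hcd⟩ := ex_one hα hs (by rwa [card_image_of_injective _ hinj]) σ
    obtain ⟨e, he, rfl⟩ := mem_image.1 hd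
    exact ⟨c, e, ⟨hc, he⟩, hcd⟩

end Cnt

theorem cnt : StmtCnt ι α := ⟨Cnt.part1, Cnt.part2, Cnt.part3, Cnt.part4⟩

end Pool.Agent.MP_92191b_al.K6

end

section

/-! The final counting for half cubes. -/

set_option linter.unusedSectionVars false

namespace Pool.Agent.MP_92191b_al.K3

open Finset Function Equiv K6 X

variable {ι : Type} [Fintype ι] [DecidableEq ι]

namespace HFin

theorem ineqA (n : ℕ) (h : 5 ≤ n) : (2 * n + 4) * (2 ^ n + (2 * n + 3)) < 3 ^ (n + 1) := by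
  induction n, h using Nat.le_induction with
  | base => norm_num
  | succ n _ ih =>
    rw [pow_succ 3, pow_succ 2]
    generalize 2 ^ n = X at *
    generalize 3 ^ (n + 1) = Y at *
    nlinarith [Nat.zero_le (n * X), Nat.zero_le (n * n)]

theorem ineqB (n : ℕ) (h : 16 ≤ n) : (2 * n + 2) * ((n + 1) * 2 ^ n) < 3 ^ n := by
  induction n, h using Nat.le_induction with
  | base => norm_num
  | succ n hn ih =>
    rw [pow_succ 3, pow_succ 2]
    generalize 2 ^ n = X at *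
    generalize 3 ^ n = Y at *
    have h1 : (2 * (n + 1) + 2) * (n + 1 + 1) * 2 ≤ 3 * ((2 * n + 2) * (n + 1)) := by nlinarith
    have h2 := Nat.mul_le_mul_right X h1
    nlinarith

theorem hd_upd (x d : ι → Fin 3) (j : ι) (v : Fin 3) :
    hammingDist (update x j v) d =
      (if v ≠ d j then 1 else 0) + ∑ l ∈ univ.erase j, if x l ≠ d l then 1 else 0 := by
  rw [hammingDist, card_filter, ← add_sum_erase _ _ (mem_univ j), update_self]
  congr 1
  exact sum_congr rfl fun l hl => by rw [update_of_ne (ne_of_mem_erase hl)]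

theorem flip {ζ d x : ι → Fin 3} (hd : ∀ l, d l ≠ ζ l) (hx : ∀ l, x l ≠ ζ l) {j : ι} {v : Fin 3}
    (h1 : v ≠ ζ j) (h2 : v ≠ x j) :
    Even (hammingDist (update x j v) d) ↔ ¬Even (hammingDist x d) := by
  have e := hd_upd x d j (x j)
  rw [update_eq_self] at e
  rw [e, hd_upd]
  have key : ∀ z a b c : Fin 3, a ≠ z → b ≠ z → c ≠ z → c ≠ b → (c = a ↔ b ≠ a) := by decide
  have := key _ _ _ _ (hd j) (hx j) h1 h2
  generalize (∑ l ∈ univ.erase j, if x l ≠ d l then 1 else 0) = A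
  by_cases h : v = d j
  · rw [if_neg (not_not.2 h), if_pos (this.1 h), zero_add, add_comm, Nat.even_add_one, not_not]
  · rw [if_pos h, if_neg fun k => h (this.2 k), zero_add, add_comm, Nat.even_add_one]

theorem upd_off {ζ x : ι → Fin 3} (hx : ∀ l, x l ≠ ζ l) {j : ι} {v : Fin 3} (h1 : v ≠ ζ j) :
    ∀ l, update x j v l ≠ ζ l := fun l => by
  by_cases h : l = j
  · subst h
    rwa [update_self]
  · rw [update_of_ne h]
    exact hx l

theorem fib {D : Finset (ι → Fin 3)} {ζ d0 x : ι → Fin 3} (hH : Half D ζ d0)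
    (hm : 3 ≤ Fintype.card ι) (hρ : ∀ y ∈ D, (∃ l, y l = ζ l) → hammingDist y ζ ≤ 1)
    (hx : ∀ l, x l ≠ ζ l) (he : Even (hammingDist x d0)) (j : ι) : Fib D j x = {x j} := by
  ext v
  simp only [Fib, Set.mem_ofPred_eq, Set.mem_singleton_iff]
  constructor
  · intro hv
    by_contra h2
    by_cases h1 : v = ζ j
    · have h3 := hρ _ hv ⟨j, by rw [update_self, h1]⟩
      rw [hd_upd, sum_congr rfl fun l _ => if_pos (hx l), sum_const, card_erase_of_mem (mem_univ j),
        card_univ, smul_eq_mul] at h3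
      omega
    · exact (flip hH.off hx h1 h2).1 ((hH.mem _ (upd_off hx h1)).1 hv) he
  · rintro rfl
    rw [update_eq_self]
    exact (hH.mem x hx).2 he

theorem fib2 {D : Finset (ι → Fin 3)} {ζ d0 : ι → Fin 3} (hH : Half D ζ d0)
    (hm : 3 ≤ Fintype.card ι) (hρ : ∀ y ∈ D, (∃ l, y l = ζ l) → hammingDist y ζ ≤ 1) (j : ι) :
    ∃ x x' b b', b ≠ b' ∧ Fib D j x = {b} ∧ Fib D j x' = {b'} := by
  have key : ∀ a b : Fin 3, ∃ c, c ≠ a ∧ c ≠ b := by decide
  obtain ⟨i, hi⟩ := Fintype.exists_ne_of_one_lt_card (by omega) j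
  obtain ⟨u, u1, u2⟩ := key (ζ i) (d0 i)
  obtain ⟨v, v1, v2⟩ := key (ζ j) (d0 j)
  have e0 : Even (hammingDist d0 d0) := by rw [hammingDist_self]; exact Even.zero
  have o1 := upd_off hH.off u1
  have e1 : ¬Even (hammingDist (update d0 i u) d0) := fun h => (flip hH.off hH.off u1 u2).1 h e0
  have e2 := (flip hH.off o1 v1 (by rwa [update_of_ne hi.symm])).2 e1
  refine ⟨d0, _, _, _, ?_, fib hH hm hρ hH.off e0 j, fib hH hm hρ (upd_off o1 v1) e2 j⟩
  rw [update_self]
  exact v2.symm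

end HFin

open HFin in
theorem fin (hO : StmtOdd ι) (hK : StmtKraft ι) (hT : StmtTwo ι) (hB : StmtBall ι)
    (hZ : StmtSz ι) : StmtFin ι := by
  intro hm C D ζ d0 hP hH
  obtain ⟨z1, z2, z3, z4, z5, z6⟩ := hZ ζ
  obtain ⟨t1, t2⟩ := hT (by omega) C D ζ d0 hP hH
  have hprod : C.card * D.card = 3 ^ Fintype.card ι := by
    have := (K6.cnt (ι := ι) (α := Fin 3)).2.1 C D hP.sep
    rw [Fintype.card_fin] at this
    exact le_antisymm this hP.big
  have hodd : Odd (C.card * D.card) := by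
    rw [hprod]
    exact Odd.pow (by decide)
  have hHc := z3 d0 hH.off (by omega)
  have hD0 : ∃ y ∈ D, ∃ l, y l = ζ l := by
    by_contra h
    have e : D = univ.filter fun y : ι → Fin 3 => (∀ l, y l ≠ ζ l) ∧ Even (hammingDist y d0) := by
      ext y
      simp only [mem_filter, mem_univ, true_and]
      refine ⟨fun hy => ?_, fun hy => (hH.mem y hy.1).2 hy.2⟩
      have : ∀ l, y l ≠ ζ l := fun l hl => h ⟨y, hy, l, hl⟩
      exact ⟨this, (hH.mem y this).1 hy⟩
    rw [← e] at hHc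
    have h2 := (Nat.odd_mul.1 hodd).2
    rw [hHc] at h2
    exact (Nat.not_odd_iff_even.2 (Nat.even_pow.2 ⟨even_two, by omega⟩)) h2
  obtain ⟨c, hc⟩ : C.Nonempty := card_pos.1 (Nat.odd_mul.1 hodd).1.pos
  have key : ∀ a : Fin 3, a ≠ a + 1 := by decide
  obtain ⟨c', hc', hne, -⟩ := (t2 (fun l => c l + 1) c hc fun l => key _).1
  obtain ⟨⟨c1, c2⟩, h12, hmax⟩ := exists_max_image (C ×ˢ C) (fun p => hammingDist p.1 p.2)
    ⟨(c, c), mem_product.2 ⟨hc, hc⟩⟩
  obtain ⟨h1, h2⟩ := mem_product.1 h12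
  simp only at h1 h2 hmax
  have hM : ∀ a ∈ C, ∀ b ∈ C, hammingDist a b ≤ hammingDist c1 c2 := fun a ha b hb =>
    hmax (a, b) (mem_product.2 ⟨ha, hb⟩)
  have hM1 : 1 ≤ hammingDist c1 c2 := le_trans (hammingDist_pos.2 hne) (hM c' hc' c hc)
  have n12 : c1 ≠ c2 := hammingDist_pos.1 hM1
  have hMo := t1 c1 h1 c2 h2 n12
  have hMm : hammingDist c1 c2 ≤ Fintype.card ι := hammingDist_le_card_fintype
  have hlt : ∀ y ∈ D, (∃ l, y l = ζ l) →
      hammingDist c1 c2 + hammingDist y ζ + 1 ≤ Fintype.card ι := fun y hy hl => by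
    by_contra h
    obtain ⟨g, g1, g2, g3⟩ := z4 d0 y (hammingDist c1 c2) hH.off hl (by omega) hMm
    exact n12 (hP.sep c1 h1 c2 h2 y hy g ((hH.mem g g1).2 g2) g3.symm)
  obtain ⟨ρ, hρ⟩ : ∃ ρ, hammingDist c1 c2 + ρ + 1 = Fintype.card ι := by
    obtain ⟨y, hy, hl⟩ := hD0
    have := hlt y hy hl
    exact ⟨Fintype.card ι - hammingDist c1 c2 - 1, by omega⟩
  have hle : ∀ y ∈ D, (∃ l, y l = ζ l) → hammingDist y ζ ≤ ρ := fun y hy hl => by
    have := hlt y hy hl
    omega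
  have hS := hB C D ζ d0 _ ρ hP hH hM hρ hM1 hle hD0
  have hsp : ∀ s, s ≤ 2 * ρ → s ≤ Fintype.card ι → HasD D s := fun s a b => by
    obtain ⟨y, y', e1, e2, e3⟩ := z6 ρ s (by omega) a b
    exact ⟨y, hS y e1, y', hS y' e2, e3⟩
  have hmin : ∀ a ∈ C, ∀ b ∈ C, a ≠ b → 2 * ρ + 1 ≤ hammingDist a b := fun a ha b hb hab => by
    by_contra h
    obtain ⟨y, hy, y', hy', e⟩ := hsp (hammingDist a b) (by omega) hammingDist_le_card_fintype
    exact hab (hP.sep a ha b hb y hy y' hy' e.symm)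
  have hC1 := hK C c (2 * ρ + 1) hc (fun b hb h => hmin c hc b hb h.symm)
    fun z hz => (t2 z c hc hz).1
  have hC2 := hO C t1
  have hM2 := hmin c1 h1 c2 h2 n12
  have hD : ∀ r, ρ ≤ r → D.card ≤ 2 ^ (Fintype.card ι - 1) +
      (univ.filter fun y : ι → Fin 3 => hammingDist y ζ ≤ r).card := fun r hr => by
    rw [← hHc]
    refine le_trans (card_le_card fun y hy => ?_) (card_union_le _ _)
    simp only [mem_union, mem_filter, mem_univ, true_and]
    by_cases h : ∃ l, y l = ζ l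
    · exact Or.inr ((hle y hy h).trans hr)
    · have : ∀ l, y l ≠ ζ l := fun l hl => h ⟨l, hl⟩
      exact Or.inl ⟨this, (hH.mem y this).1 hy⟩
  have hev : ∀ s, Even s → s ≤ Fintype.card ι → HasD D s := fun s a b => by
    obtain ⟨g, g1, g2⟩ := z5 d0 s hH.off b
    exact ⟨g, (hH.mem g g1).2 (g2 ▸ a), d0,
      (hH.mem d0 hH.off).2 (by rw [hammingDist_self]; exact Even.zero), g2⟩
  rw [Nat.odd_iff] at hMo
  by_cases hr : ρ ≤ 1
  · by_cases h6 : 6 ≤ Fintype.card ι
    · exfalso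
      have h3 := hD 1 hr
      rw [z2] at h3
      have h4 := Nat.mul_le_mul hC2 h3
      rw [hprod] at h4
      obtain ⟨n, hn⟩ : ∃ n, Fintype.card ι = n + 1 := ⟨Fintype.card ι - 1, by omega⟩
      have h5 := ineqA n (by omega)
      rw [hn, Nat.add_sub_cancel] at h4
      exact absurd (h4.trans_eq (by ring)) (not_le.2 h5)
    · have h3 : hammingDist c1 c2 = 3 := by omega
      have hc3 : HasD C 3 := ⟨c1, h1, c2, h2, h3⟩
      by_cases h4 : Fintype.card ι = 4
      · exact Or.inl ⟨h4, Or.inl ⟨hc3, hev 2 (by decide) (by omega), hev 4 (by decide) (by omega)⟩⟩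
      · have h5 : Fintype.card ι = 5 := by omega
        refine Or.inr ⟨h5, hc3, hsp 1 (by omega) (by omega), hev 2 (by decide) (by omega),
          hev 4 (by decide) (by omega), ?_,
          fib2 hH hm fun y hy hl => (hle y hy hl).trans hr⟩
        obtain ⟨y, hy, hl⟩ := hD0
        obtain ⟨g, g1, g2, g3⟩ := z4 d0 y 5 hH.off hl (by omega) (by omega)
        exact ⟨y, hy, g, (hH.mem g g1).2 g2, g3⟩
  · exfalso
    have a1 : 2 ^ (2 * ρ) ≤ Fintype.card ι := by
      rw [pow_succ] at hC1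
      omega
    have a2 : 2 ^ 4 ≤ 2 ^ (2 * ρ) := Nat.pow_le_pow_right (by decide) (by omega)
    have a3 : 2 ^ ρ ≤ 2 ^ (2 * ρ) := Nat.pow_le_pow_right (by decide) (by omega)
    have a4 : 2 ^ (Fintype.card ι - 1) ≤ 2 ^ Fintype.card ι :=
      Nat.pow_le_pow_right (by decide) (by omega)
    have a5 := Nat.mul_le_mul_right (2 ^ Fintype.card ι) (a3.trans a1)
    have a6 : D.card ≤ (Fintype.card ι + 1) * 2 ^ Fintype.card ι := by
      have b1 := hD ρ le_rfl
      have b2 := z1 ρ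
      rw [add_mul, one_mul]
      omega
    have h4 := Nat.mul_le_mul hC2 a6
    rw [hprod] at h4
    exact absurd h4 (not_le.2 (ineqB _ (by omega)))

end Pool.Agent.MP_92191b_al.K3

end

section

/-! Local propagation from dual hybrid planes. -/

set_option linter.unusedSectionVars false

namespace Pool.Agent.MP_92191b_al.K3

open Finset Function Equiv K6 X

variable {ι : Type} [Fintype ι] [DecidableEq ι]

namespace HLoc

variable {C D : Finset (ι → Fin 3)}

theorem wr_wr (σ s : ι → Perm (Fin 3)) (π κ : Perm ι) (x : ι → Fin 3) :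
    wr σ π (wr s κ x) = wr (fun l => σ l * s (π l)) (κ * π) x := rfl

theorem wr_one (τ t : ι → Perm (Fin 3)) (x : ι → Fin 3) :
    wr τ 1 (wr t 1 x) = wr (fun l => τ l * t l) 1 x := rfl

theorem sepF (hS : Sys (Sct C D)) {σ τ : ι → Perm (Fin 3)} {π : Perm ι} {c c' d d' : ι → Fin 3}
    (hc : wr σ π c ∈ C) (hc' : wr σ π c' ∈ C) (hd : wr τ 1 d ∈ D) (hd' : wr τ 1 d' ∈ D)
    (h : ∀ t, c t = c' t ↔ d t = d' t) : c = c' := by
  let p : Fin (Fintype.card ι) ↪ ι := (Fintype.equivFin ι).symm.toEmbedding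
  have hp : ∀ r, ∃ l, r = p l := fun r => ⟨Fintype.equivFin ι r, by simp [p]⟩
  have hT := (hS.tight _ _ ⟨σ, π, τ, 1, p, Or.inl rfl⟩).sep (fun l => c (p l)) (fun l => d (p l))
    (fun l => c' (p l)) (fun l => d' (p l))
    ⟨c, d, ⟨hc, hd⟩, fun _ => rfl, fun _ => rfl, fun r hr => by
      obtain ⟨l, hl⟩ := hp r
      exact absurd hl (hr l)⟩
    ⟨c', d', ⟨hc', hd'⟩, fun _ => rfl, fun _ => rfl, fun r hr => by
      obtain ⟨l, hl⟩ := hp r
      exact absurd hl (hr l)⟩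
    (by simp only [hammingDist, ne_eq, h])
  funext r
  obtain ⟨l, rfl⟩ := hp r
  exact congrFun hT.1 l

/-- The section in three coordinates. -/
def Q (C D : Finset (ι → Fin 3)) (σ : ι → Perm (Fin 3)) (π : Perm ι) (τ : ι → Perm (Fin 3))
    (a b r : ι) (x1 x2 x3 y1 y2 y3 : Fin 3) : Prop :=
  ∃ c d, wr σ π c ∈ C ∧ wr τ 1 d ∈ D ∧ c a = x1 ∧ c b = x2 ∧ c r = x3 ∧ d a = y1 ∧ d b = y2 ∧
    d r = y3 ∧ ∀ s, s ≠ a → s ≠ b → s ≠ r → c s = d s

theorem three (h : StmtPL3) (hS : Sys (Sct C D)) {σ τ : ι → Perm (Fin 3)} {π : Perm ι}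
    {a b r : ι} (hab : a ≠ b) (hra : r ≠ a) (hrb : r ≠ b) {z : Fin 3}
    (h0 : Q C D σ π τ a b r 0 1 z 1 1 z)
    (hK : ∀ c1 c2 d1 d2, KH c1 c2 d1 d2 → ∃ w, Q C D σ π τ a b r c1 c2 w d1 d2 w) :
    ∃ ν : Perm (Fin 3), ν 1 = z ∧
      (∀ x1 x2 x3 d1 d2 d3, Q C D σ π τ a b r x1 x2 x3 d1 d2 (ν d3) →
        Q C D σ π τ a b r x1 x2 x3 (2 * d1) (2 * d2) (ν d3) ∧
        Q C D σ π τ a b r x1 x2 x3 d1 d3 (ν d2)) ∧
      ∀ d1 d2 d3, Q C D σ π τ a b r 0 1 z d1 d2 (ν d3) →
        (d1 = 0 ∧ d2 = 0 ∧ d3 = 0) ∨ d1 * d2 * d3 = 1 := by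
  let p : Fin 3 ↪ ι := ⟨![a, b, r], by
    intro u v huv
    fin_cases u <;> fin_cases v <;> simp_all [eq_comm]⟩
  let μ : Perm (Fin 3) := swap 1 z
  have hμ : μ 1 = z := swap_apply_left _ _
  let s : Fin 3 → Perm (Fin 3) := ![1, 1, μ]
  have hR := hS.act 3 _ s 1 s 1 ⟨σ, π, τ, 1, p, Or.inl rfl⟩
  have key : ∀ x1 x2 x3 y1 y2 y3, sct (fun c d => wr σ π c ∈ C ∧ wr τ 1 d ∈ D) p
      (wr s 1 ![x1, x2, x3]) (wr s 1 ![y1, y2, y3]) ↔
      Q C D σ π τ a b r x1 x2 (μ x3) y1 y2 (μ y3) := by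
    intro x1 x2 x3 y1 y2 y3
    constructor
    · rintro ⟨c, d, ⟨hc, hd⟩, e1, e2, e3⟩
      refine ⟨c, d, hc, hd, e1 0, e1 1, e1 2, e2 0, e2 1, e2 2, fun t t1 t2 t3 => e3 t fun l => ?_⟩
      fin_cases l
      · exact t1
      · exact t2
      · exact t3
    · rintro ⟨c, d, hc, hd, e1, e2, e3, f1, f2, f3, e⟩
      refine ⟨c, d, ⟨hc, hd⟩, fun l => ?_, fun l => ?_, fun t ht => e t (ht 0) (ht 1) (ht 2)⟩
      · fin_cases l
        · exact e1
        · exact e2
        · exact e3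
      · fin_cases l
        · exact f1
        · exact f2
        · exact f3
  obtain ⟨τ0, t1, t2, t3⟩ := h _ hS _ hR
    (fun c1 c2 d1 d2 hk => by
      obtain ⟨w, hw⟩ := hK c1 c2 d1 d2 hk
      exact ⟨μ⁻¹ w, (key _ _ _ _ _ _).2 (by simpa using hw)⟩)
    ((key _ _ _ _ _ _).2 (by rwa [hμ]))
  refine ⟨μ * τ0, by simp [t1, hμ], fun x1 x2 x3 d1 d2 d3 hq => ?_, fun d1 d2 d3 hq => ?_⟩
  · have := t2 ![x1, x2, μ⁻¹ x3] d1 d2 d3 ((key _ _ _ _ _ _).2 (by simpa using hq))
    exact ⟨by simpa using (key _ _ _ _ _ _).1 this.1, by simpa using (key _ _ _ _ _ _).1 this.2.2.2⟩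
  · exact t3 d1 d2 d3 ((key _ _ _ _ _ _).2 (by simpa [hμ] using hq))

theorem ne {d : ι → Fin 3} {a b : ι} {u v : Fin 3} (h : GC C D d a b u v) :
    a ≠ b ∧ d a ≠ u ∧ d b ≠ v := by
  obtain ⟨hab, σ, π, τ, c', d', rfl, rfl, rfl, -, -, -, -, e1, e2, -⟩ := h
  refine ⟨hab, ?_, ?_⟩
  · simp [wr, e1]
  · simp [wr, e2]

theorem mem {d : ι → Fin 3} {a b : ι} {u v : Fin 3} (h : GC C D d a b u v) : d ∈ D := by
  obtain ⟨-, σ, π, τ, c', d', -, -, -, h, -⟩ := h
  exact h

local instance decKH (c1 c2 d1 d2 : Fin 3) : Decidable (KH c1 c2 d1 d2) := by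
  unfold KH
  infer_instance

theorem KH_symm : ∀ c1 c2 d1 d2, KH c1 c2 d1 d2 → KH c1 c2 d2 d1 := by decide

theorem KH_neg : ∀ c1 c2 d1 d2, KH c1 c2 d1 d2 →
    KH c1 c2 (swap (1 : Fin 3) 2 d1) (swap (1 : Fin 3) 2 d2) := by decide

theorem sym {d : ι → Fin 3} {a b : ι} {u v : Fin 3} (h : GC C D d a b u v) : GC C D d b a v u := by
  obtain ⟨hab, σ, π, τ, c', d', e1, e2, e3, hd, hc, f1, f2, f3, f4, f5, hK⟩ := h
  have hw : ∀ c : ι → Fin 3, wr σ (swap a b * π) (c ∘ swap a b) = wr σ π c := by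
    intro c
    funext l
    simp [wr]
  refine ⟨hab.symm, σ, swap a b * π, τ, c' ∘ swap a b, d', e2, e1, e3, hd, by rwa [hw],
    by simpa using f1, by simpa using f2, f4, f3, fun r h1 h2 => ?_, fun c1 c2 d1 d2 hk => ?_⟩
  · simpa [swap_apply_of_ne_of_ne h2 h1] using f5 r h2 h1
  · obtain ⟨c, e, hc, he, g1, g2, g3, g4, g5⟩ := hK c1 c2 d2 d1 (KH_symm _ _ _ _ hk)
    exact ⟨c ∘ swap a b, e, by rwa [hw], he, by simpa using g1, by simpa using g2, g4, g3,
      fun r h1 h2 => by simpa [swap_apply_of_ne_of_ne h2 h1] using g5 r h2 h1⟩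

/-- The words of `D` near `d`. -/
def A (D : Finset (ι → Fin 3)) (d : ι → Fin 3) (a b r : ι) (u v w : Fin 3) : Prop :=
  ∀ d' ∈ D, (∀ s, s ≠ a → s ≠ b → s ≠ r → d' s = d s) →
    (d' a = u ∧ d' b = v ∧ d' r = w) ∨
    (d' a ≠ u ∧ d' b ≠ v ∧ d' r ≠ w ∧ Even (hammingDist d' d))

theorem A.s12 {d : ι → Fin 3} {a b r : ι} {u v w : Fin 3} (h : A D d a b r u v w) :
    A D d b a r v u w := fun d' hd e => by
  have := h d' hd fun s h1 h2 h3 => e s h2 h1 h3
  tauto

theorem A.s23 {d : ι → Fin 3} {a b r : ι} {u v w : Fin 3} (h : A D d a b r u v w) :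
    A D d a r b u w v := fun d' hd e => by
  have := h d' hd fun s h1 h2 h3 => e s h1 h3 h2
  tauto

theorem dist3 {x y : ι → Fin 3} {a b r : ι} (hab : a ≠ b) (hra : r ≠ a) (hrb : r ≠ b)
    (h : ∀ s, s ≠ a → s ≠ b → s ≠ r → x s = y s) :
    hammingDist x y = nq (x a) (y a) + nq (x b) (y b) + nq (x r) (y r) := by
  have h1 : hammingDist x y = ∑ t, nq (x t) (y t) := by
    rw [hammingDist, card_filter]
    exact sum_congr rfl fun t _ => by simp [nq]
  rw [h1, ← sum_subset (subset_univ {a, b, r}), sum_insert (by simp [hab, hra.symm]),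
    sum_pair hrb.symm, add_assoc]
  intro t _ ht
  simp only [mem_insert, mem_singleton, not_or] at ht
  simp [nq, h t ht.1 ht.2.1 ht.2.2]

theorem par : ∀ x y z : Fin 3, x * y * z = 1 →
    x ≠ 0 ∧ y ≠ 0 ∧ z ≠ 0 ∧ Even (nq x 1 + nq y 1 + nq z 1) := by decide

theorem nq_perm (g : Perm (Fin 3)) (x y : Fin 3) : nq (g x) (g y) = nq x y := by simp [nq]

theorem rot (h : StmtPL3) (hS : Sys (Sct C D)) {d : ι → Fin 3} {a b r : ι} {u v : Fin 3}
    (hG : GC C D d a b u v) (hra : r ≠ a) (hrb : r ≠ b) :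
    ∃ w, A D d a b r u v w ∧ GC C D d a r u w := by
  obtain ⟨hab, σ, π, τ, c', d', e1, e2, e3, hd, hc, f1, f2, f3, f4, f5, hK⟩ := hG
  obtain ⟨ν, n1, n2, n3⟩ := three h hS (σ := σ) (π := π) (τ := τ) hab hra hrb (z := d' r)
    ⟨c', d', hc, e3 ▸ hd, f1, f2, f5 r hra hrb, f3, f4, rfl, fun s h1 h2 _ => f5 s h1 h2⟩
    fun c1 c2 d1 d2 hk => by
      obtain ⟨c, e, hc, he, g1, g2, g3, g4, g5⟩ := hK c1 c2 d1 d2 hk
      exact ⟨e r, c, e, hc, he, g1, g2, g5 r hra hrb, g3, g4, rfl, fun s h1 h2 _ => g5 s h1 h2⟩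
  refine ⟨τ r (ν 0), fun x hx hag => ?_, ?_⟩
  · have hx' : wr τ 1 (fun l => (τ l)⁻¹ (x l)) = x := by
      funext l
      simp [wr]
    have hq := n3 ((τ a)⁻¹ (x a)) ((τ b)⁻¹ (x b)) (ν⁻¹ ((τ r)⁻¹ (x r)))
      ⟨c', fun l => (τ l)⁻¹ (x l), hc, by rwa [hx'], f1, f2, f5 r hra hrb, rfl, rfl, by simp,
        fun s h1 h2 h3 => by simp [f5 s h1 h2, hag s h1 h2 h3, e3, wr]⟩
    generalize hx1 : (τ a)⁻¹ (x a) = x1 at hq
    generalize hx2 : (τ b)⁻¹ (x b) = x2 at hq
    generalize hx3 : ν⁻¹ ((τ r)⁻¹ (x r)) = x3 at hq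
    have y1 : x a = τ a x1 := by simp [← hx1]
    have y2 : x b = τ b x2 := by simp [← hx2]
    have y3 : x r = τ r (ν x3) := by simp [← hx3]
    have z1 : d a = τ a 1 := by simp [e3, wr, f3]
    have z2 : d b = τ b 1 := by simp [e3, wr, f4]
    have z3 : d r = τ r (ν 1) := by simp [e3, wr, n1]
    rw [dist3 hab hra hrb hag, y1, y2, y3, z1, z2, z3, ← e1, ← e2, nq_perm, nq_perm, nq_perm,
      nq_perm]
    rcases hq with ⟨rfl, rfl, rfl⟩ | hq
    · exact Or.inl ⟨rfl, rfl, rfl⟩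
    · right
      simpa using par _ _ _ hq
  · let s : ι → Perm (Fin 3) := fun l => if l = r then ν else 1
    let nc : (ι → Fin 3) → ι → Fin 3 := fun c t => if t = b then ν⁻¹ (c r) else c (swap b r t)
    let nd : (ι → Fin 3) → ι → Fin 3 := fun e t => if t = r then ν⁻¹ (e r) else e t
    have hnc : ∀ c, wr s (swap b r) (nc c) = c := by
      intro c
      funext l
      by_cases h1 : l = r
      · subst h1
        simp [wr, s, nc]
      · have : swap b r l ≠ b := fun e => h1 (by simpa using congrArg (swap b r) e)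
        simp [wr, s, nc, h1, this]
    have hnd : ∀ e, wr s 1 (nd e) = e := by
      intro e
      funext l
      by_cases h1 : l = r
      · subst h1
        simp [wr, s, nd]
      · simp [wr, s, nd, h1]
    have mk : ∀ c1 c2 d1 d2 z, Q C D σ π τ a b r c1 c2 (ν z) d1 z (ν d2) →
        ∃ c e, wr (fun l => σ l * s (π l)) (swap b r * π) c ∈ C ∧
          wr (fun l => τ l * s l) 1 e ∈ D ∧ c a = c1 ∧ c r = c2 ∧ e a = d1 ∧ e r = d2 ∧
          ∀ t, t ≠ a → t ≠ r → c t = e t := by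
      rintro c1 c2 d1 d2 z ⟨c, e, hc, he, g1, g2, g3, g4, g5, g6, g7⟩
      refine ⟨nc c, nd e, by rwa [← wr_wr, hnc], by rwa [← wr_one, hnd], ?_, ?_, ?_, ?_,
        fun t t1 t2 => ?_⟩
      · simp [nc, hab, swap_apply_of_ne_of_ne hab hra.symm, g1]
      · simp [nc, hrb, g2]
      · simp [nd, hra.symm, g4]
      · simp [nd, g6]
      · by_cases t3 : t = b
        · subst t3
          simp [nc, nd, t2, g3, g5]
        · simp [nc, nd, t2, t3, swap_apply_of_ne_of_ne t3 t2, g7 t t1 t3 t2]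
    refine ⟨hra.symm, fun l => σ l * s (π l), swap b r * π, fun l => τ l * s l, nc c', nd d',
      by simp [s, hra.symm, e1], by simp [s], by rw [← wr_one, hnd, e3], hd,
      by rwa [← wr_wr, hnc], ?_, ?_, ?_, ?_, fun t t1 t2 => ?_, fun c1 c2 d1 d2 hk => ?_⟩
    · simp [nc, hab, swap_apply_of_ne_of_ne hab hra.symm, f1]
    · simp [nc, hrb, f2]
    · simp [nd, hra.symm, f3]
    · simp [nd, ← n1]
    · by_cases t3 : t = b
      · subst t3
        simp [nc, nd, t2, f5 r hra hrb, ← n1, f4]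
      · simp [nc, nd, t2, t3, swap_apply_of_ne_of_ne t3 t2, f5 t t1 t3]
    · obtain ⟨c, e, hc, he, g1, g2, g3, g4, g5⟩ := hK c1 c2 d1 d2 hk
      refine mk c1 c2 d1 d2 (ν⁻¹ (e r)) (n2 _ _ _ _ _ _ ?_).2
      exact ⟨c, e, hc, he, g1, g2, by simp [g5 r hra hrb], g3, g4, by simp,
        fun s h1 h2 _ => g5 s h1 h2⟩

theorem flip (h : StmtPL3) (hS : Sys (Sct C D)) {d : ι → Fin 3} {a b : ι} {u v : Fin 3}
    (hG : GC C D d a b u v) :
    ∃ x, GC C D x a b u v ∧ x a ≠ d a ∧ x b ≠ d b ∧ ∀ s, s ≠ a → s ≠ b → x s = d s := by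
  obtain ⟨hab, σ, π, τ, c', d', e1, e2, e3, hd, hc, f1, f2, f3, f4, f5, hK⟩ := hG
  obtain ⟨c2, d2, hc2, hd2, g1, g2, g3, g4, g5⟩ := hK 0 1 2 2 (by unfold KH; decide)
  have same : ∀ r, r ≠ a → r ≠ b → d2 r = d' r := by
    intro r hra hrb
    obtain ⟨ν, n1, n2, -⟩ := three h hS (σ := σ) (π := π) (τ := τ) hab hra hrb (z := d' r)
      ⟨c', d', hc, e3 ▸ hd, f1, f2, f5 r hra hrb, f3, f4, rfl, fun s h1 h2 _ => f5 s h1 h2⟩
      fun c1 c2 d1 d2 hk => by
        obtain ⟨c, e, hc, he, g1, g2, g3, g4, g5⟩ := hK c1 c2 d1 d2 hk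
        exact ⟨e r, c, e, hc, he, g1, g2, g5 r hra hrb, g3, g4, rfl, fun s h1 h2 _ => g5 s h1 h2⟩
    obtain ⟨c3, d3, hc3, hd3, k1, k2, k3, k4, k5, k6, k7⟩ := (n2 0 1 (d' r) 1 1 1
      ⟨c', d', hc, e3 ▸ hd, f1, f2, f5 r hra hrb, f3, f4, n1.symm,
        fun s h1 h2 _ => f5 s h1 h2⟩).1
    have : c2 = c3 := sepF hS hc2 hc3 hd2 hd3 fun t => by
      by_cases t1 : t = a
      · simp [t1, g1, k1, g3, k4]
      by_cases t2 : t = b
      · simp [t2, g2, k2, g4, k5]
      by_cases t3 : t = r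
      · rw [t3, g5 r hra hrb, k3, k6, n1]
      · rw [g5 t t1 t2, k7 t t1 t2 t3]
    rw [← g5 r hra hrb, this, k3]
  let s : ι → Perm (Fin 3) := fun l => if l = a ∨ l = b then swap 1 2 else 1
  have hs : ∀ e, wr s 1 (wr s 1 e) = e := by
    intro e
    funext l
    by_cases h1 : l = a ∨ l = b <;> simp [wr, s, h1]
  have z0 : swap (1 : Fin 3) 2 0 = 0 := by decide
  refine ⟨wr τ 1 d2, ⟨hab, σ, π, fun l => τ l * s l, c2, wr s 1 d2, by simp [s, z0, e1],
    by simp [s, z0, e2], by rw [← wr_one, hs], hd2, hc2, g1, g2, by simp [wr, s, g3],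
    by simp [wr, s, g4], fun t t1 t2 => by simp [wr, s, t1, t2, g5 t t1 t2],
    fun c1 c2 d1 d2 hk => ?_⟩, by simp [e3, wr, g3, f3], by simp [e3, wr, g4, f4],
    fun t t1 t2 => by simp [e3, wr, same t t1 t2]⟩
  obtain ⟨c, e, hc, he, k1, k2, k3, k4, k5⟩ := hK c1 c2 _ _ (KH_neg _ _ _ _ hk)
  exact ⟨c, wr s 1 e, hc, by rwa [← wr_one, hs], k1, k2, by simp [wr, s, k3], by simp [wr, s, k4],
    fun t t1 t2 => by simp [wr, s, t1, t2, k5 t t1 t2]⟩

theorem third (x y w w' : Fin 3) (h1 : x ≠ y) (h2 : x ≠ w) (h3 : y ≠ w) (h4 : x ≠ w')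
    (h5 : y ≠ w') : w' = w := by omega

theorem uniq (h : StmtPL3) (hS : Sys (Sct C D)) {d x : ι → Fin 3} {a b r : ι} {u v w w' : Fin 3}
    (hA : A D d a b r u v w) (hx : ∀ s, s ≠ a → s ≠ b → s ≠ r → x s = d s)
    (hG : GC C D x a r u w') : w' = w := by
  obtain ⟨y, hy, -, y2, y3⟩ := flip h hS hG
  have a1 := (hA x (mem hG) hx).resolve_left fun e => (ne hG).2.1 e.1
  have a2 := (hA y (mem hy) fun s h1 h2 h3 => (y3 s h1 h3).trans (hx s h1 h2 h3)).resolve_left
    fun e => (ne hy).2.1 e.1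
  exact third _ _ _ _ y2 a2.2.2.1 a1.2.2.1 (ne hy).2.2 (ne hG).2.2

theorem more (h : StmtPL3) (hS : Sys (Sct C D)) {d x : ι → Fin 3} {a b r : ι} {u v w : Fin 3}
    (hra : r ≠ a) (hrb : r ≠ b) (hA : A D d a b r u v w)
    (hx : ∀ s, s ≠ a → s ≠ b → s ≠ r → x s = d s) (hG : GC C D x a b u v) :
    GC C D x a r u w ∧ GC C D x b r v w := by
  obtain ⟨w1, -, h1⟩ := rot h hS hG hra hrb
  obtain ⟨w2, -, h2⟩ := rot h hS (sym hG) hrb hra
  exact ⟨uniq h hS hA hx h1 ▸ h1, uniq h hS hA.s12 (fun s t1 t2 t3 => hx s t2 t1 t3) h2 ▸ h2⟩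

end HLoc

open HLoc in
theorem loc (h : StmtPL3) : StmtLoc ι := by
  intro C D hS
  refine ⟨fun d a b u v hG => HLoc.ne hG, fun d a b u v r hG hra hrb => ?_⟩
  have hab := (HLoc.ne hG).1
  obtain ⟨w, hA, g2⟩ := rot h hS hG hra hrb
  have g3 := (more h hS hra hrb hA (fun _ _ _ _ => rfl) hG).2
  refine ⟨w, (HLoc.ne g2).2.2, hA, fun x hx x1 x2 x3 hev => ?_⟩
  have n1 := (HLoc.ne hG).2.1
  have n2 := (HLoc.ne hG).2.2
  have n3 := (HLoc.ne g2).2.2
  suffices H : GC C D x a b u v by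
    obtain ⟨k1, k2⟩ := more h hS hra hrb hA hx H
    exact ⟨mem H, H, sym H, k1, sym k1, k2, sym k2⟩
  rw [dist3 hab hra hrb hx] at hev
  have ext : ∀ y : ι → Fin 3, y a = x a → y b = x b → y r = x r →
      (∀ s, s ≠ a → s ≠ b → s ≠ r → y s = d s) → y = x := by
    intro y e1 e2 e3 e4
    funext s
    by_cases t1 : s = a
    · rwa [t1]
    by_cases t2 : s = b
    · rwa [t2]
    by_cases t3 : s = r
    · rwa [t3]
    · rw [e4 s t1 t2 t3, hx s t1 t2 t3]
  by_cases e1 : x a = d a <;> by_cases e2 : x b = d b <;> by_cases e3 : x r = d r <;>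
    simp only [nq, e1, e2, e3, if_true, if_false] at hev
  · exact ext d e1.symm e2.symm e3.symm (fun _ _ _ _ => rfl) ▸ hG
  · exact absurd hev (by decide)
  · exact absurd hev (by decide)
  · obtain ⟨y, hy, y1, y2, y3⟩ := flip h hS g3
    rw [ext y ((y3 a hab hra.symm).trans e1.symm)
      (third _ _ _ _ n2 (Ne.symm e2) x2.symm y1.symm (HLoc.ne hy).2.1.symm)
      (third _ _ _ _ n3 (Ne.symm e3) x3.symm y2.symm (HLoc.ne hy).2.2.symm)
      fun s _ t2 t3 => y3 s t2 t3] at hy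
    exact sym (more h hS hab hra.symm hA.s12.s23 (fun s t1 t2 t3 => hx s t3 t1 t2) hy).1
  · exact absurd hev (by decide)
  · obtain ⟨y, hy, y1, y2, y3⟩ := flip h hS g2
    rw [ext y (third _ _ _ _ n1 (Ne.symm e1) x1.symm y1.symm (HLoc.ne hy).2.1.symm)
      ((y3 b hab.symm hrb.symm).trans e2.symm)
      (third _ _ _ _ n3 (Ne.symm e3) x3.symm y2.symm (HLoc.ne hy).2.2.symm)
      fun s t1 _ t3 => y3 s t1 t3] at hy
    exact (more h hS hab.symm hrb.symm hA.s23 (fun s t1 t2 t3 => hx s t1 t3 t2) hy).1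
  · obtain ⟨y, hy, y1, y2, y3⟩ := flip h hS hG
    rwa [ext y (third _ _ _ _ n1 (Ne.symm e1) x1.symm y1.symm (HLoc.ne hy).2.1.symm)
      (third _ _ _ _ n2 (Ne.symm e2) x2.symm y2.symm (HLoc.ne hy).2.2.symm)
      ((y3 r hra hrb).trans e3.symm) fun s t1 t2 _ => y3 s t1 t2] at hy
  · exact absurd hev (by decide)

end Pool.Agent.MP_92191b_al.K3

end

section

/-! The family of all sections of a pair of codes is a system. -/

set_option linter.unusedSectionVars false

namespace Pool.Agent.MP_92191b_al.K3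

open Finset Function Equiv K6 X

variable {ι : Type} [Fintype ι] [DecidableEq ι]

namespace HSys

variable {T : Rel2 ι (Fin 3)} {n : ℕ} {C D : Finset (ι → Fin 3)}

theorem wr_wr (σ σ' : ι → Perm (Fin 3)) (π π' : Perm ι) (c : ι → Fin 3) :
    wr σ π (wr σ' π' c) = wr (fun l => σ l * σ' (π l)) (π' * π) c := rfl

theorem wr_inv (σ : ι → Perm (Fin 3)) (π : Perm ι) (c : ι → Fin 3) :
    wr σ π (wr (fun l => (σ (π⁻¹ l))⁻¹) π⁻¹ c) = c := by
  funext l
  simp [wr]

theorem wr_dist (σ : ι → Perm (Fin 3)) (π : Perm ι) (c c' : ι → Fin 3) :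
    hammingDist (wr σ π c) (wr σ π c') = hammingDist c c' := Glue.dist_wreath σ π c c'

theorem wr_inj {σ : ι → Perm (Fin 3)} {π : Perm ι} {c c' : ι → Fin 3}
    (h : wr σ π c = wr σ π c') : c = c' := by
  rw [← hammingDist_eq_zero, ← wr_dist σ π, h, hammingDist_self]

theorem tight_wr (h : Tight T) (σ τ : ι → Perm (Fin 3)) (π ρ : Perm ι) :
    Tight fun c d => T (wr σ π c) (wr τ ρ d) where
  sep c d c' d' h1 h2 e := by
    have := h.sep _ _ _ _ h1 h2 (by rw [wr_dist, wr_dist, e])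
    exact ⟨wr_inj this.1, wr_inj this.2⟩
  ex σ0 π0 := by
    obtain ⟨c, d, h1, h2⟩ := h.ex (fun l => σ l * σ0 (π l) * (τ (ρ⁻¹ (π0 (π l))))⁻¹) (ρ⁻¹ * π0 * π)
    refine ⟨wr σ0 π0 (wr (fun l => (τ (ρ⁻¹ l))⁻¹) ρ⁻¹ d), _, ?_, fun l => rfl⟩
    rw [wr_inv]
    obtain rfl : c = _ := funext h2
    exact h1

theorem tight_dual (h : Tight T) : Tight fun c d => T d c where
  sep c d c' d' h1 h2 e := (h.sep _ _ _ _ h1 h2 e.symm).symm
  ex σ π := by
    obtain ⟨c, d, h1, h2⟩ := h.ex (fun l => (σ (π⁻¹ l))⁻¹) π⁻¹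
    refine ⟨d, c, h1, fun l => ?_⟩
    rw [(funext h2 : c = wr _ _ d)]
    exact (congrFun (wr_inv σ π d) l).symm

theorem split (p : Fin n ↪ ι) (c c' : ι → Fin 3) : hammingDist c c' =
    hammingDist (c ∘ p) (c' ∘ p) + (univ.filter fun r => (∀ l, r ≠ p l) ∧ c r ≠ c' r).card := by
  rw [hammingDist, hammingDist, ← card_map p, ← card_union_of_disjoint]
  · congr 1
    ext r
    simp only [mem_filter, mem_univ, true_and, mem_union, mem_map, comp_apply]
    constructor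
    · intro h
      by_cases hr : ∀ l, r ≠ p l
      · exact Or.inr ⟨hr, h⟩
      · obtain ⟨l, hl⟩ := not_forall.1 hr
        obtain rfl := not_not.1 hl
        exact Or.inl ⟨l, h, rfl⟩
    · rintro (⟨l, h, rfl⟩ | h)
      exacts [h, h.2]
  · rw [disjoint_left]
    intro r h1 h2
    obtain ⟨l, -, rfl⟩ := mem_map.1 h1
    exact (mem_filter.1 h2).2.1 l rfl

theorem dist_eq (p : Fin n ↪ ι) {c c' d d' : ι → Fin 3}
    (h : ∀ r, (∀ l, r ≠ p l) → (c r = c' r ↔ d r = d' r))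
    (e : hammingDist (c ∘ p) (c' ∘ p) = hammingDist (d ∘ p) (d' ∘ p)) :
    hammingDist c c' = hammingDist d d' := by
  rw [split p, split p d, e, filter_congr fun r _ => and_congr_right fun hr => (h r hr).ne]

theorem extend_wr (p : Fin n ↪ ι) (σ : Fin n → Perm (Fin 3)) (π : Perm (Fin n)) :
    ∃ (σ' : ι → Perm (Fin 3)) (π' : Perm ι), ∀ c, (∀ l, wr σ' π' c (p l) = wr σ π (c ∘ p) l) ∧
      ∀ r, (∀ l, r ≠ p l) → wr σ' π' c r = c r := by
  refine ⟨extend p σ 1, π.viaFintypeEmbedding p, fun c => ⟨fun l => ?_, fun r hr => ?_⟩⟩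
  · simp only [wr, p.injective.extend_apply, Perm.viaFintypeEmbedding_apply_image, comp_apply]
  · have h : ¬∃ l, p l = r := fun ⟨l, e⟩ => hr l e.symm
    simp only [wr, extend_apply' _ _ _ h, Perm.viaFintypeEmbedding_apply_notMem_range _ _ h,
      Pi.one_apply, Perm.one_apply]

theorem tight_sct (h : Tight T) (p : Fin n ↪ ι) : Tight (sct T p) where
  sep := by
    rintro x y x' y' ⟨c, d, h1, e1, e2, e3⟩ ⟨c', d', h2, f1, f2, f3⟩ e
    obtain rfl : c ∘ p = x := funext e1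
    obtain rfl : d ∘ p = y := funext e2
    obtain rfl : c' ∘ p = x' := funext f1
    obtain rfl : d' ∘ p = y' := funext f2
    obtain ⟨rfl, rfl⟩ := h.sep _ _ _ _ h1 h2 (dist_eq p (fun r hr => by rw [e3 r hr, f3 r hr]) e)
    exact ⟨rfl, rfl⟩
  ex σ π := by
    obtain ⟨σ', π', H⟩ := extend_wr p σ π
    obtain ⟨c, d, h1, h2⟩ := h.ex σ' π'
    exact ⟨c ∘ p, d ∘ p, ⟨c, d, h1, fun _ => rfl, fun _ => rfl,
      fun r hr => (h2 r).trans ((H d).2 r hr)⟩, fun l => (h2 _).trans ((H d).1 l)⟩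

theorem act_sct (p : Fin n ↪ ι) (σ τ : Fin n → Perm (Fin 3)) (π ρ : Perm (Fin n)) :
    ∃ (σ' τ' : ι → Perm (Fin 3)) (π' ρ' : Perm ι), ∀ T : Rel2 ι (Fin 3),
      (fun x y => sct T p (wr σ π x) (wr τ ρ y)) =
        sct (fun c d => T (wr σ' π' c) (wr τ' ρ' d)) p := by
  obtain ⟨σ', π', H⟩ := extend_wr p σ π
  obtain ⟨τ', ρ', H'⟩ := extend_wr p τ ρ
  have key : ∀ {σ π σ' π'}, (∀ c, (∀ l, wr σ' π' c (p l) = wr σ π (c ∘ p) l) ∧
      ∀ r, (∀ l, r ≠ p l) → wr σ' π' c r = c r) → ∀ {c x}, (∀ l, c (p l) = wr σ π x l) →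
      wr σ' π' (extend p x c) = c := fun H c x e => funext fun r => by
    by_cases hr : ∃ l, p l = r
    · obtain ⟨l, rfl⟩ := hr
      rw [(H _).1, extend_comp p.injective, e]
    · rw [(H _).2 r fun l e => hr ⟨l, e.symm⟩, extend_apply' _ _ _ hr]
  refine ⟨σ', τ', π', ρ', fun T => ?_⟩
  funext x y
  apply propext
  constructor
  · rintro ⟨c, d, h, e1, e2, e3⟩
    refine ⟨extend p x c, extend p y d, by beta_reduce; rwa [key H e1, key H' e2],
      fun l => p.injective.extend_apply _ _ l, fun l => p.injective.extend_apply _ _ l,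
      fun r hr => ?_⟩
    have hr' : ¬∃ l, p l = r := fun ⟨l, e⟩ => hr l e.symm
    rw [extend_apply' _ _ _ hr', extend_apply' _ _ _ hr', e3 r hr]
  · rintro ⟨c, d, h, e1, e2, e3⟩
    obtain rfl : c ∘ p = x := funext e1
    obtain rfl : d ∘ p = y := funext e2
    exact ⟨_, _, h, (H c).1, (H' d).1, fun r hr => by rw [(H c).2 r hr, (H' d).2 r hr, e3 r hr]⟩

theorem dual_sct (p : Fin n ↪ ι) : (fun x y => sct T p y x) = sct (fun c d => T d c) p := by
  funext x y
  apply propext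
  constructor <;> rintro ⟨c, d, h, e1, e2, e3⟩ <;>
    exact ⟨d, c, h, e2, e1, fun r hr => (e3 r hr).symm⟩

theorem up (p : Fin (n + 1) ↪ ι) {x y : Pt n} {c d : ι → Fin 3} (h : T c d)
    (e1 : ∀ l, c (p l.castSucc) = x l) (e2 : ∀ l, d (p l.castSucc) = y l)
    (e3 : ∀ r, (∀ l : Fin n, r ≠ p l.castSucc) → c r = d r) :
    sct T p (sn x (c (p (Fin.last n)))) (sn y (c (p (Fin.last n)))) := by
  refine ⟨c, d, h, ?_, ?_, fun r hr => e3 r fun l => hr _⟩
  · simpa only [Fin.forall_fin_succ', sn, Fin.snoc_castSucc, Fin.snoc_last, and_true] using e1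
  · simp only [Fin.forall_fin_succ', sn, Fin.snoc_castSucc, Fin.snoc_last]
    exact ⟨e2, (e3 _ fun l e => (Fin.castSucc_lt_last l).ne' (p.injective e)).symm⟩

theorem face_sct (p : Fin (n + 1) ↪ ι) : face (sct T p) = sct T (Fin.Embedding.init p) := by
  funext x y
  apply propext
  constructor
  · rintro ⟨a, c, d, h, e1, e2, e3⟩
    simp only [Fin.forall_fin_succ', sn, Fin.snoc_castSucc, Fin.snoc_last] at e1 e2 e3
    refine ⟨c, d, h, e1.1, e2.1, fun r hr => ?_⟩
    by_cases e : r = p (Fin.last n)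
    · rw [e, e1.2, e2.2]
    · exact e3 r ⟨hr, e⟩
  · rintro ⟨c, d, h, e1, e2, e3⟩
    exact ⟨_, up p h e1 e2 e3⟩

theorem ext_emb (p : Fin n ↪ ι) {r : ι} (hr : ∀ l, r ≠ p l) :
    ∃ p' : Fin (n + 1) ↪ ι, Fin.Embedding.init p' = p ∧ p' (Fin.last n) = r :=
  ⟨Fin.Embedding.snoc p (a := r) fun ⟨l, e⟩ => hr l e.symm, Fin.Embedding.init_snoc _ _,
    Fin.Embedding.snoc_last⟩

/-- The relations whose sections are taken. -/
def Fm (C D : Finset (ι → Fin 3)) (T : Rel2 ι (Fin 3)) : Prop :=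
  ∃ σ π τ ρ, T = (fun c d => wr σ π c ∈ C ∧ wr τ ρ d ∈ D) ∨
    T = fun c d => wr σ π c ∈ D ∧ wr τ ρ d ∈ C

theorem sct_iff {R : Rn n} : Sct C D n R ↔ ∃ T p, Fm C D T ∧ R = sct T p := by
  constructor
  · rintro ⟨σ, π, τ, ρ, p, h | h⟩
    exacts [⟨_, p, ⟨σ, π, τ, ρ, Or.inl rfl⟩, h⟩, ⟨_, p, ⟨σ, π, τ, ρ, Or.inr rfl⟩, h⟩]
  · rintro ⟨T, p, ⟨σ, π, τ, ρ, rfl | rfl⟩, h⟩
    exacts [⟨σ, π, τ, ρ, p, Or.inl h⟩, ⟨σ, π, τ, ρ, p, Or.inr h⟩]

theorem Fm.tight (h : TP3 C D) (hT : Fm C D T) : Tight T := by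
  have h1 := K6.cnt.2.2.1 C D inferInstance h.sep (by rw [Fintype.card_fin]; exact h.big)
  obtain ⟨σ, π, τ, ρ, rfl | rfl⟩ := hT
  · exact tight_wr h1 σ τ π ρ
  · simpa only [and_comm] using tight_wr (tight_dual h1) σ τ π ρ

theorem Fm.prod (hT : Fm C D T) {c d c' d' : ι → Fin 3} (h : T c d) (h' : T c' d') : T c d' := by
  obtain ⟨σ, π, τ, ρ, rfl | rfl⟩ := hT <;> exact ⟨h.1, h'.2⟩

theorem Fm.act (hT : Fm C D T) (σ' τ' : ι → Perm (Fin 3)) (π' ρ' : Perm ι) :
    Fm C D fun c d => T (wr σ' π' c) (wr τ' ρ' d) := by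
  obtain ⟨σ, π, τ, ρ, rfl | rfl⟩ := hT
  exacts [⟨_, _, _, _, Or.inl (by simp only [wr_wr]; rfl)⟩,
    ⟨_, _, _, _, Or.inr (by simp only [wr_wr]; rfl)⟩]

theorem Fm.dual (hT : Fm C D T) : Fm C D fun c d => T d c := by
  obtain ⟨σ, π, τ, ρ, rfl | rfl⟩ := hT
  exacts [⟨τ, ρ, σ, π, Or.inr (by simp only [and_comm])⟩,
    ⟨τ, ρ, σ, π, Or.inl (by simp only [and_comm])⟩]

theorem Fm.exo (hT : Fm C D T) (h4 : Fintype.card ι = 4) {c d c' d' z w z' w' u v u' v' : ι → Fin 3}
    (h1 : T c d) (h2 : T c' d') (h3 : T z w) (h5 : T z' w') (h6 : T u v) (h7 : T u' v')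
    (e1 : hammingDist c c' = 3) (e2 : hammingDist w w' = 2) (e3 : hammingDist v v' = 4) :
    Exo4 C D := by
  obtain ⟨σ, π, τ, ρ, rfl | rfl⟩ := hT
  · exact ⟨h4, Or.inl ⟨⟨_, h1.1, _, h2.1, by rwa [wr_dist]⟩, ⟨_, h3.2, _, h5.2, by rwa [wr_dist]⟩,
      _, h6.2, _, h7.2, by rwa [wr_dist]⟩⟩
  · exact ⟨h4, Or.inr ⟨⟨_, h3.2, _, h5.2, by rwa [wr_dist]⟩, ⟨_, h6.2, _, h7.2, by rwa [wr_dist]⟩,
      _, h1.1, _, h2.1, by rwa [wr_dist]⟩⟩

end HSys

open HSys

theorem sys : StmtSys ι := by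
  intro C D h hX
  refine ⟨fun n R hR => ?_, fun n R σ π τ ρ hR => ?_, fun n R hR => ?_, fun n R hR => ?_,
    fun n R hR => ?_, fun R hR => ?_⟩ <;> obtain ⟨T, p, hT, rfl⟩ := sct_iff.1 hR
  · exact tight_sct (hT.tight h) p
  · obtain ⟨σ', τ', π', ρ', H⟩ := act_sct p σ τ π ρ
    exact sct_iff.2 ⟨_, p, hT.act σ' τ' π' ρ', H T⟩
  · exact sct_iff.2 ⟨_, p, hT.dual, dual_sct p⟩
  · exact sct_iff.2 ⟨_, _, hT, face_sct p⟩
  · rintro x y x' y' z w z' w' ⟨c1, d1, h1, a1, b1, e1⟩ ⟨c2, d2, h2, a2, b2, e2⟩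
      ⟨c3, d3, h3, a3, b3, e3⟩ ⟨c4, d4, h4, a4, b4, e4⟩ hx hd
    obtain ⟨r, hr, hn⟩ : ∃ r, (∀ l, r ≠ p l) ∧ ¬(c1 r = c2 r ↔ d3 r = d4 r) := by
      by_contra hc
      have e := ((hT.tight h).sep _ _ _ _ (hT.prod h1 h3) (hT.prod h2 h4) (dist_eq p
        (fun r hr => by_contra fun hn => hc ⟨r, hr, hn⟩) (by
          rwa [← (funext a1 : c1 ∘ p = x), ← (funext a2 : c2 ∘ p = x'),
            ← (funext b3 : d3 ∘ p = w), ← (funext b4 : d4 ∘ p = w')] at hd))).1
      exact hx (funext fun l => by rw [← a1, ← a2, e])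
    rw [← e3 r hr, ← e4 r hr] at hn
    obtain ⟨p', rfl, rfl⟩ := ext_emb p hr
    exact ⟨_, sct_iff.2 ⟨T, p', hT, rfl⟩, face_sct p', _, _, _, _, up p' h1 a1 b1 e1,
      up p' h2 a2 b2 e2, up p' h3 a3 b3 e3, up p' h4 a4 b4 e4, hn⟩
  · rintro x y x' y' z w z' w' u v u' v' ⟨c1, d1, h1, a1, -⟩ ⟨c2, d2, h2, a2, -⟩
      ⟨c3, d3, h3, -, b3, -⟩ ⟨c4, d4, h4, -, b4, -⟩ ⟨c5, d5, h5, -, b5, -⟩ ⟨c6, d6, h6, -, b6, -⟩
      f1 f2 f3
    by_cases hr : ∃ r, ∀ l, r ≠ p l
    · obtain ⟨r, hr⟩ := hr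
      obtain ⟨p', rfl, -⟩ := ext_emb p hr
      exact ⟨_, sct_iff.2 ⟨T, p', hT, rfl⟩, face_sct p'⟩
    have hd : ∀ c c' : ι → Fin 3, hammingDist c c' = hammingDist (c ∘ p) (c' ∘ p) := fun c c' => by
      rw [split p, filter_false_of_mem fun r _ e => hr ⟨r, e.1⟩, card_empty, add_zero]
    have hb : Bijective p := ⟨p.injective, fun r => by_contra fun e =>
      hr ⟨r, fun l e' => e ⟨l, e'.symm⟩⟩⟩
    refine absurd (hT.exo (by rw [← Fintype.card_of_bijective hb, Fintype.card_fin])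
      h1 h2 h3 h4 h5 h6 ?_ ?_ ?_) hX
    · rwa [hd, (funext a1 : c1 ∘ p = x), (funext a2 : c2 ∘ p = x')]
    · rwa [hd, (funext b3 : d3 ∘ p = w), (funext b4 : d4 ∘ p = w')]
    · rwa [hd, (funext b5 : d5 ∘ p = v), (funext b6 : d6 ∘ p = v')]

end Pool.Agent.MP_92191b_al.K3

end

section

/-! Codes against a half cube and the sphere lemma. -/

set_option linter.unusedSectionVars false

namespace Pool.Agent.MP_92191b_al.K3

open Finset Function Equiv K6 X

variable {ι : Type} [Fintype ι] [DecidableEq ι]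

namespace HTwo

theorem third : ∀ a b : Fin 3, b ≠ a → -(a + b) ≠ a ∧ -(a + b) ≠ b ∧
    ∀ e, e ≠ a → (-(a + b) = e ↔ ¬b = e) := by decide

theorem succ_ne : ∀ a : Fin 3, a ≠ a + 1 := by decide

theorem perm2 {a b a' b' : Fin 3} (h : a = b ↔ a' = b') :
    ∃ σ : Perm (Fin 3), σ a = a' ∧ σ b = b' := by
  refine ⟨swap (swap a a' b) b' * swap a a', ?_, by simp⟩
  by_cases e : a = b
  · rw [h.1 e, e]
    simp
  · rw [Perm.mul_apply, swap_apply_left, swap_apply_of_ne_of_ne _ fun e' => e (h.2 e')]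
    intro e'
    exact e ((swap a a').injective ((swap_apply_left _ _).trans e'))

theorem dist_congr {x y x' y' : ι → Fin 3} (h : ∀ l, x l = y l ↔ x' l = y' l) :
    hammingDist x y = hammingDist x' y' := by
  unfold hammingDist
  congr 1
  ext l
  simp [h l]

theorem dist_add (x y : ι → Fin 3) :
    (univ.filter fun l => x l = y l).card + hammingDist x y = Fintype.card ι :=
  card_filter_add_card_filter_not (s := univ) fun l => x l = y l

theorem dist_split (x y : ι → Fin 3) (l0 : ι) : hammingDist x y =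
    (if x l0 = y l0 then 0 else 1) + ∑ l ∈ univ.erase l0, if x l ≠ y l then 1 else 0 := by
  rw [hammingDist, card_filter, ← add_sum_erase _ _ (mem_univ l0), ite_not]

theorem par {ζ d0 h : ι → Fin 3} (h0 : ∀ l, d0 l ≠ ζ l) (hh : ∀ l, h l ≠ ζ l) (l0 : ι)
    (p : Prop) : ∃ h' : ι → Fin 3, (∀ l, h' l ≠ ζ l) ∧ (∀ l, l ≠ l0 → h' l = h l) ∧
      (Even (hammingDist h' d0) ↔ p) := by
  by_cases hp : Even (hammingDist h d0) ↔ p
  · exact ⟨h, hh, fun _ _ => rfl, hp⟩
  refine ⟨update h l0 (-(ζ l0 + h l0)), fun l => ?_, fun l hl => update_of_ne hl _ _, ?_⟩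
  · by_cases e : l = l0
    · rw [e, update_self]
      exact (third _ _ (hh l0)).1
    · rw [update_of_ne e]
      exact hh l
  · rw [dist_split _ _ l0] at hp ⊢
    rw [update_self, sum_congr rfl fun l hl => by rw [update_of_ne (mem_erase.1 hl).1]]
    have h1 := (third _ _ (hh l0)).2.2 _ (h0 l0)
    by_cases e : h l0 = d0 l0
    · rw [if_pos e, zero_add] at hp
      rw [if_neg fun e' => h1.1 e' e, add_comm, Nat.even_add_one]
      tauto
    · rw [if_neg e, add_comm, Nat.even_add_one] at hp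
      rw [if_pos (h1.2 e), zero_add]
      tauto

theorem tight {C D : Finset (ι → Fin 3)} (h : TP3 C D) : Tight fun c d => c ∈ C ∧ d ∈ D :=
  K6.cnt.2.2.1 C D ⟨0⟩ h.sep (by simpa using h.big)

theorem b2 {C D : Finset (ι → Fin 3)} {ζ d0 : ι → Fin 3} (hT : TP3 C D) (hH : Half D ζ d0)
    {z c : ι → Fin 3} (hc : c ∈ C) (hz : ∀ l, c l ≠ z l) {c' : ι → Fin 3} (hc' : c' ∈ C)
    {d : ι → Fin 3} (hd : d ∈ D) (h : ∀ l, c' l = z l ↔ d l = ζ l) (l0 : ι) : d l0 ≠ ζ l0 := by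
  intro e
  obtain ⟨h', h1, h2, h3⟩ := par (h := fun l => if d l = ζ l then d0 l else
    if c l = c' l then d l else -(ζ l + d l)) hH.off (fun l => by
      split_ifs with e1 e2
      exacts [hH.off l, e1, (third _ _ e1).1]) l0 True
  have h4 : ∀ l, d l = ζ l → (c l = c' l ↔ h' l = d l) := fun l e1 =>
    iff_of_false (by rw [(h l).2 e1]; exact hz l) (by rw [e1]; exact h1 l)
  have h5 := hT.sep c hc c' hc' h' ((hH.mem h' h1).2 (h3.2 trivial)) d hd (dist_congr fun l => by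
    by_cases e1 : d l = ζ l
    · exact h4 l e1
    · rw [h2 l fun e2 => e1 (e2 ▸ e), if_neg e1]
      split_ifs with e2
      · exact iff_of_true e2 rfl
      · exact iff_of_false e2 (third _ _ e1).2.1)
  exact hz l0 (h5 ▸ (h l0).2 e)

theorem path {p : (ι → Fin 3) → Prop} {z0 z1 : ι → Fin 3} (h0 : ¬p z0) (h1 : p z1) :
    ∃ z l v, ¬p z ∧ p (update z l v) := by
  have key : ∀ S : Finset ι, p (S.piecewise z1 z0) → ∃ z l v, ¬p z ∧ p (update z l v) := by
    intro S
    induction S using Finset.induction_on with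
    | empty => exact fun h => absurd (by simpa using h) h0
    | insert l S _ ih =>
      intro h
      by_cases e : p (S.piecewise z1 z0)
      · exact ih e
      · rw [piecewise_insert] at h
        exact ⟨_, l, _, e, h⟩
  exact key univ (by simpa using h1)

theorem shape {c c1 z0 : ι → Fin 3} {l0 : ι} {M ρ : ℕ} (h1 : ∀ l, l ≠ l0 → c1 l ≠ z0 l)
    (hM : hammingDist c c1 ≤ M) (hs : M + ρ + 1 = Fintype.card ι) (hρ : hammingDist c z0 ≤ ρ) :
    (univ.filter fun l => c l = z0 l).card = M + 1 ∧ c l0 = z0 l0 ∧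
      ∀ l, c l ≠ z0 l → c l = c1 l := by
  have a1 := dist_add c z0
  have a2 : (univ.filter fun l => c l = z0 l).erase l0 ⊆ univ.filter fun l => c l ≠ c1 l := by
    intro l hl
    rw [mem_erase, mem_filter] at hl
    rw [mem_filter, hl.2.2]
    exact ⟨mem_univ _, (h1 l hl.1).symm⟩
  have a3 := card_le_card a2
  have a4 : (univ.filter fun l => c l ≠ c1 l).card ≤ M := hM
  have a5 : l0 ∈ univ.filter fun l => c l = z0 l := by
    by_contra e
    rw [erase_eq_of_notMem e] at a3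
    omega
  have a6 := card_erase_add_one a5
  have a7 := eq_of_subset_of_card_le a2 (by omega)
  refine ⟨by omega, (mem_filter.1 a5).2, fun l hl => ?_⟩
  by_contra e
  have : l ∈ univ.filter fun l => c l ≠ c1 l := mem_filter.2 ⟨mem_univ _, e⟩
  rw [← a7] at this
  exact hl (mem_filter.1 (mem_erase.1 this).2).2

theorem even_dist {c c' c1 z0 : ι → Fin 3}
    (h : (univ.filter fun l => c l = z0 l).card = (univ.filter fun l => c' l = z0 l).card)
    (h1 : ∀ l, c l ≠ z0 l → c l = c1 l) (h2 : ∀ l, c' l ≠ z0 l → c' l = c1 l) :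
    Even (hammingDist c c') := by
  have e : (univ.filter fun l => c l ≠ c' l) =
      ((univ.filter fun l => c l = z0 l) \ univ.filter fun l => c' l = z0 l) ∪
        ((univ.filter fun l => c' l = z0 l) \ univ.filter fun l => c l = z0 l) := by
    ext l
    simp only [mem_filter, mem_univ, true_and, mem_union, mem_sdiff]
    constructor
    · intro hl
      by_cases a : c l = z0 l
      · exact Or.inl ⟨a, fun b => hl (a.trans b.symm)⟩
      · by_cases b : c' l = z0 l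
        · exact Or.inr ⟨b, a⟩
        · exact absurd ((h1 l a).trans (h2 l b).symm) hl
    · rintro (⟨a, b⟩ | ⟨a, b⟩) hl
      · exact b (hl ▸ a)
      · exact b (hl ▸ a)
  rw [hammingDist, e, card_union_of_disjoint disjoint_sdiff_sdiff, card_sdiff_comm h]
  exact ⟨_, rfl⟩

end HTwo

open HTwo

theorem two : StmtTwo ι := by
  intro hι C D ζ d0 hT hH
  refine ⟨fun c hc c' hc' hne => ?_,
    fun z c hc hz => ⟨?_, fun c' hc' d hd h => b2 hT hH hc hz hc' hd h⟩⟩
  · by_contra he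
    rw [Nat.not_odd_iff_even] at he
    have e : hammingDist c c' =
        hammingDist (fun l => if c l = c' l then d0 l else -(ζ l + d0 l)) d0 :=
      dist_congr fun l => by
        split_ifs with e
        · exact iff_of_true e rfl
        · exact iff_of_false e (third _ _ (hH.off l)).2.1
    refine hne (hT.sep c hc c' hc' _ ((hH.mem _ fun l => ?_).2 (e ▸ he)) d0
      ((hH.mem d0 hH.off).2 (by simp)) e)
    split_ifs
    exacts [hH.off l, (third _ _ (hH.off l)).1]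
  · obtain ⟨l0⟩ : Nonempty ι := Fintype.card_pos_iff.1 hι
    obtain ⟨h, h1, -, h3⟩ := par hH.off hH.off l0 False
    choose σ s1 s2 using fun l => perm2 (iff_of_false (h1 l) (hz l))
    obtain ⟨c', d', ⟨hc', hd'⟩, e⟩ := (tight hT).ex σ 1
    have h4 : ∀ l, c' l = z l ↔ d' l = ζ l := fun l => by
      rw [e, ← s2, (σ l).apply_eq_iff_eq]
      rfl
    refine ⟨c', hc', fun e' => h3.1 ((hH.mem h h1).1 ?_),
      fun l e' => b2 hT hH hc hz hc' hd' h4 l ((h4 l).1 e')⟩
    have : h = d' := funext fun l => (σ l).injective (by rw [s1, ← e', e]; rfl)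
    exact this ▸ hd'

theorem ball (hT : StmtTwo ι) : StmtBall ι := by
  intro C D ζ d0 M ρ hP hH hM hs _ hρ ⟨y0, hy0, l1, hl1⟩ y hy
  obtain ⟨hodd, hb⟩ := hT (by omega) C D ζ d0 hP hH
  obtain ⟨c0, -, ⟨hc0, -⟩, -⟩ := (tight hP).ex 1 1
  obtain ⟨z0, l0, v, hn, c1, hc1, h1⟩ := path (p := fun z => ∃ c ∈ C, ∀ l, c l ≠ z l)
    (z0 := fun l => if y0 l = ζ l then c0 l else c0 l + 1) (z1 := fun l => c0 l + 1)
    (by
      rintro ⟨c, hc, hz⟩
      refine (hb _ c hc hz).2 c0 hc0 y0 hy0 (fun l => ?_) l1 hl1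
      split_ifs with e
      · exact iff_of_true rfl e
      · exact iff_of_false (succ_ne _) e) ⟨c0, hc0, fun l => succ_ne _⟩
  have h2 : ∀ l, l ≠ l0 → c1 l ≠ z0 l := fun l hl => by
    have := h1 l
    rwa [update_of_ne hl] at this
  have key : ∀ (σ : ι → Perm (Fin 3)) (π : Perm ι), (∀ l, σ l (ζ (π l)) = z0 l) →
      ∃ c ∈ C, ∃ d ∈ D, (∀ l, c l = σ l (d (π l))) ∧
        (univ.filter fun l => c l = z0 l).card = M + 1 ∧ ∀ l, c l ≠ z0 l → c l = c1 l := by
    intro σ π hσ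
    obtain ⟨c, d, ⟨hc, hd⟩, e⟩ := (tight hP).ex σ π
    have h3 : ∀ l, c l = z0 l ↔ (d ∘ π) l = (ζ ∘ π) l := fun l => by
      rw [e, ← hσ, (σ l).apply_eq_iff_eq]
      rfl
    obtain ⟨l, hl⟩ : ∃ l, c l = z0 l := by
      by_contra h
      exact hn ⟨c, hc, fun l hl => h ⟨l, hl⟩⟩
    have h4 := shape h2 (hM c hc c1 hc1) hs (by
      rw [dist_congr h3, Cnt.ham_comp]
      exact hρ d hd ⟨π l, (h3 l).1 hl⟩)
    exact ⟨c, hc, d, hd, e, h4.1, h4.2.2⟩
  obtain ⟨c, hc, -, -, -, a1, a2⟩ :=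
    key (fun l => swap (ζ l) (z0 l)) 1 fun l => swap_apply_left _ _
  have a3 := dist_add y ζ
  let e : {l // c l = z0 l} ≃ {l // y l = ζ l} := Fintype.equivOfCardEq (by
    rw [Fintype.card_subtype, Fintype.card_subtype]
    omega)
  have a4 : ∀ l, y (e.extendSubtype l) = ζ (e.extendSubtype l) ↔ c l = z0 l := fun l =>
    ⟨fun h => by_contra fun h' => e.extendSubtype_not_mem l h' h, e.extendSubtype_mem l⟩
  choose σ s1 s2 using fun l => perm2 (a4 l)
  obtain ⟨c', hc', d, hd, b0, b1, b2⟩ := key σ e.extendSubtype s2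
  have a5 : c = c' := by
    by_contra hne
    exact Nat.not_odd_iff_even.2 (even_dist (a1.trans b1.symm) a2 b2) (hodd c hc c' hc' hne)
  have a6 : y = d := funext fun l => by
    obtain ⟨l, rfl⟩ := e.extendSubtype.surjective l
    exact (σ l).injective ((s1 l).trans ((congrFun a5 l).trans (b0 l)))
  exact a6 ▸ hd

end Pool.Agent.MP_92191b_al.K3

end
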