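import Pool.Agent.MP_92191b_al.K3.Defs2
import Pool.Agent.MP_92191b_al.Main

section

/-! Two separating coordinates clash. -/

set_option linter.unusedSectionVars false

namespace Pool.Agent.MP_92191b_al.K3

open Finset Function Equiv K6 X

variable {ι : Type} [Fintype ι] [DecidableEq ι]

namespace DS2

section small

variable {T : Rel2 ι α} {σ : ι → Perm α} {i j : ι} {x1 x2 y1 y2 : α}

theorem cls (h : Is4 (pl T σ i j) x1 x2 y1 y2) {c d : ι → α} (hc : Cell T σ i j c d) :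
    (c i = x1 ∧ c j = x2 ∧ d i ≠ y1 ∧ d j ≠ y2) ∨
      ((c i = x1 ∨ c j = x2) ∧ d i = y1 ∧ d j = y2) :=
  (h _ _ _ _).1 ⟨c, d, hc, rfl, rfl, rfl, rfl⟩

theorem farC (h : Is4 (pl T σ i j) x1 x2 y1 y2) {c d : ι → α} (hc : Far T σ i j y1 y2 c d) :
    c i = x1 ∧ c j = x2 := by
  rcases cls h hc.1 with h' | h'
  · exact ⟨h'.1, h'.2.1⟩
  · exact absurd h'.2.1 hc.2.1

theorem exFar (h : Is4 (pl T σ i j) x1 x2 y1 y2) {e1 e2 : α} (h1 : e1 ≠ y1) (h2 : e2 ≠ y2) :
    ∃ c d, Far T σ i j y1 y2 c d ∧ d i = e1 ∧ d j = e2 := by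
  obtain ⟨c, d, hc, -, -, a3, a4⟩ := (h x1 x2 e1 e2).2 (Or.inl ⟨rfl, rfl, h1, h2⟩)
  exact ⟨c, d, ⟨hc, a3 ▸ h1, a4 ▸ h2⟩, a3, a4⟩

theorem exA (h : Is4 (pl T σ i j) x1 x2 y1 y2) {a : α} (ha : a ≠ x1) :
    ∃ c d, Arm T σ i j x1 x2 y1 y2 c d ∧ c i = a ∧ c j = x2 := by
  obtain ⟨c, d, hc, a1, a2, a3, a4⟩ := (h a x2 y1 y2).2 (Or.inr ⟨Or.inr rfl, rfl, rfl⟩)
  exact ⟨c, d, ⟨hc, a3, a4, Or.inl (a1 ▸ ha)⟩, a1, a2⟩

theorem exB (h : Is4 (pl T σ i j) x1 x2 y1 y2) {a : α} (ha : a ≠ x2) :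
    ∃ c d, Arm T σ i j x1 x2 y1 y2 c d ∧ c i = x1 ∧ c j = a := by
  obtain ⟨c, d, hc, a1, a2, a3, a4⟩ := (h x1 a y1 y2).2 (Or.inr ⟨Or.inl rfl, rfl, rfl⟩)
  exact ⟨c, d, ⟨hc, a3, a4, Or.inr (a2 ▸ ha)⟩, a1, a2⟩

theorem single_pos (hk : 3 ≤ Fintype.card α) {e : α → α} {b1 b2 w w' : α} (h1 : Single e b1 w)
    (h2 : Single e b2 w') : b1 = b2 := by
  by_contra hb
  obtain ⟨b, hb1, hb2⟩ := exists_ne2 (by omega) b1 b2
  have e1 := h1.1 b hb1
  have e2 := h2.1 b hb2
  exact h1.2 ((h2.1 b1 hb).trans (e2.symm.trans e1))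

end small

theorem stepA (hA : StmtAlpha ι) (hL : StmtGLam ι) (h1 : StmtDS1 ι)
    (hk : 3 ≤ Fintype.card α) {T : Rel2 ι α} (hT : Good T) {σ : ι → Perm α} {i j l l2 : ι}
    {x b1 b2 wi wl wl2 : α} {c d : α → ι → α} {τ : Perm α} (hij : i ≠ j) (hlj : l ≠ j)
    (hl2j : l2 ≠ j) (hil : i ≠ l) (hil2 : i ≠ l2) (hll2 : l ≠ l2) (hb : b1 ≠ b2)
    (hR : RLine T σ j x c d) (si : Single (fun b => d b i) b1 wi)
    (sl : Single (fun b => d b l) b2 wl) (sl2 : Single (fun b => d b l2) b2 wl2) (hτ : τ b1 = x)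
    {c' d' : ι → α} (harm : Arm T (update σ j τ) i l (σ i wi) (σ l wl) (d b1 i) wl c' d')
    (hB : c' i = σ i wi) : d' l2 = wl2 := by
  obtain ⟨h4, -, hs, hf⟩ := (hA T hT σ i j l x b1 b2 wi wl c d hij hlj hil hb hR si sl).2 τ hτ
  obtain ⟨h4', -⟩ := (hA T hT σ i j l2 x b1 b2 wi wl2 c d hij hl2j hil2 hb hR si sl2).2 τ hτ
  have hAc : ∀ a, a ≠ σ i wi → ∃ c0 d0,
      Arm T (update σ j τ) i l (σ i wi) (σ l wl) (d b1 i) wl c0 d0 ∧ c0 i = a ∧ d0 l2 = wl2 := by
    intro a ha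
    obtain ⟨c0, d0, ⟨hc0, e1, e2, -⟩, e3, e4⟩ := exA h4' ha
    have hcell : Cell T (update σ j τ) i l c0 d0 := by
      refine ⟨hc0.1, fun r hri hrl => ?_⟩
      by_cases hr : r = l2
      · rw [hr, e4, e2, update_of_ne hl2j]
      · exact hc0.2 r hri hr
    rcases cls h4 hcell with h | h
    · exact absurd e1 h.2.2.1
    · exact ⟨c0, d0, ⟨hcell, e1, h.2.2, Or.inl (e3 ▸ ha)⟩, e3, e2⟩
  have hagree : ∀ c0 d0, Arm T (update σ j τ) i l (σ i wi) (σ l wl) (d b1 i) wl c0 d0 →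
      c0 i = σ i wi → d0 l2 = d' l2 := by
    intro c0 d0 h0 hB0
    by_contra hne
    obtain ⟨-, μ, hμ, -⟩ := (h1 T hT σ i j l x b1 b2 wi wl c d τ hij hlj hil hb hR si sl hτ).2
      l2 hil2.symm hll2.symm ⟨c0, d0, c', d', h0, harm, hB0, hB, hne⟩
    exact hb (single_pos hk hμ sl2)
  obtain ⟨a, ha⟩ := exists_ne1 (by omega) (σ i wi)
  obtain ⟨a', ha', haa⟩ := exists_ne2 (by omega) (σ i wi) a
  obtain ⟨c1, d1, A1, e1, f1⟩ := hAc a ha
  obtain ⟨c2, d2, A2, e2, f2⟩ := hAc a' ha'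
  rcases hL T hT (update σ j τ) i l l2 _ _ _ _ hil hil2.symm hll2.symm h4 with ⟨m, hm⟩ | ⟨p, μ, -, -, hp, hu⟩
  · rw [hm c' d' harm, ← hm c1 d1 A1, f1]
  · have hw : wl2 ≠ μ := fun h => haa (by
      rw [← e1, ← e2, hu c1 d1 c2 d2 A1 A2 (f1.trans h) (f2.trans h)])
    have hp1 : wl2 = p := by
      rcases hp c1 d1 A1 with h | h
      · exact f1.symm.trans h
      · exact absurd (f1.symm.trans h) hw
    rcases hp c' d' harm with h | h
    · exact h.trans hp1.symm
    · exfalso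
      obtain ⟨g, hg1, hg2⟩ := exists_ne2 (by omega) (σ l wl) (c' l)
      obtain ⟨c3, d3, A3, e3, f3⟩ := exB h4 hg1
      have := hu c3 d3 c' d' A3 harm ((hagree c3 d3 A3 e3).trans h) h
      exact hg2 (by rw [← f3, this])

/-- The far cells of the plane `(j, l)` are constant at `l2`. -/
theorem stepB (hA : StmtAlpha ι) (hF : StmtGF ι)
    (hk : 3 ≤ Fintype.card α) {T : Rel2 ι α} (hT : Good T) {σ : ι → Perm α} {i j l l2 : ι}
    {x b1 b2 wi wl wl2 : α} {c d : α → ι → α} (hij : i ≠ j) (hlj : l ≠ j)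
    (hl2j : l2 ≠ j) (hil : i ≠ l) (hll2 : l ≠ l2) (hb : b1 ≠ b2)
    (hR : RLine T σ j x c d) (si : Single (fun b => d b i) b1 wi)
    (sl : Single (fun b => d b l) b2 wl) (sl2 : Single (fun b => d b l2) b2 wl2) :
    ∀ c' d', Far T σ j l b2 (d b2 l) c' d' → d' l2 = wl2 := by
  have h4 := (hA T hT σ l j i x b2 b1 wl wi c d hlj hij hil.symm hb.symm hR sl si).1
  have hcell : ∀ b, Cell T σ j l (c b) (d b) := fun b =>
    ⟨(hR b).1, fun r hr _ => (hR b).2.2.2 r hr⟩
  have hfar : ∀ b, b ≠ b2 → Far T σ j l b2 (d b2 l) (c b) (d b) := fun b hb' =>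
    ⟨hcell b, by rw [(hR b).2.2.1]; exact hb', by
      have := sl.1 b hb'
      simp only at this
      rw [this]; exact Ne.symm sl.2⟩
  have harm : Arm T σ j l x (σ l wl) b2 (d b2 l) (c b2) (d b2) :=
    ⟨hcell b2, (hR b2).2.2.1, rfl, Or.inr (by
      rw [(hR b2).2.2.2 l hlj]
      exact fun h => sl.2 ((σ l).injective h))⟩
  obtain ⟨b, hb1, hb2⟩ := exists_ne2 (by omega) b1 b2
  have hcol : d b1 j = d b j ∨ d b1 l = d b l := Or.inr ((sl.1 b1 hb).trans (sl.1 b hb2).symm)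
  have hne : d b1 ≠ d b := fun h => hb1 (by
    have := congrFun h j
    rw [(hR b1).2.2.1, (hR b).2.2.1] at this
    exact this.symm)
  have v1 : d b1 l2 = wl2 := sl2.1 b1 hb
  have v2 : d b l2 = wl2 := sl2.1 b hb2
  rcases hF T hT σ j l l2 _ _ _ _ hlj.symm hl2j hll2.symm h4 with ⟨μ, hμ⟩ | ⟨m, hm, h | h⟩
  · intro c' d' h'
    rw [hμ c' d' h', ← hμ _ _ (hfar b1 hb), v1]
  · have hm' : wl2 ≠ m := fun e => sl2.2 ((hm _ _ harm).trans e.symm)
    exact absurd (h _ _ _ _ (hfar b1 hb) (hfar b hb2) hcol (v1 ▸ hm') (v2 ▸ hm')) hne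
  · exact absurd (h.1 _ _ _ _ (hfar b1 hb) (hfar b hb2) hcol (v1.trans v2.symm)) hne

/-- A good choice of the permutation at `j`. -/
theorem stepC (hA : StmtAlpha ι) (hF : StmtGF ι) (hL : StmtGLam ι)
    (hk : 3 ≤ Fintype.card α) {T : Rel2 ι α} (hT : Good T) {σ : ι → Perm α} {i j l l2 : ι}
    {x b1 b2 wi wl wl2 : α} {c d : α → ι → α} (hij : i ≠ j) (hlj : l ≠ j)
    (hl2j : l2 ≠ j) (hil : i ≠ l) (hil2 : i ≠ l2) (hll2 : l ≠ l2) (hb : b1 ≠ b2)
    (hR : RLine T σ j x c d) (si : Single (fun b => d b i) b1 wi)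
    (sl : Single (fun b => d b l) b2 wl) (sl2 : Single (fun b => d b l2) b2 wl2) :
    ∃ τ : Perm α, τ b1 = x ∧ (∃ c' d', Far T (update σ j τ) i l (d b1 i) wl c' d' ∧
      d' i = wi ∧ d' l = d b2 l ∧ d' l2 ≠ wl2) ∧
      ∀ c' d', Far T (update σ j τ) i l (d b1 i) wl c' d' → d' l = d b2 l → d' i ≠ wi →
        d' l2 = wl2 := by
  have h4 := (hA T hT σ l j i x b2 b1 wl wi c d hlj hij hil.symm hb.symm hR sl si).1
  have hB := stepB hA hF hk hT hij hlj hl2j hil hll2 hb hR si sl sl2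
  have hA' := (hA T hT σ i j l x b1 b2 wi wl c d hij hlj hil hb hR si sl).2
  have hrow : ∀ τ : Perm α, τ b1 = x → ∀ c' d', Far T (update σ j τ) i l (d b1 i) wl c' d' →
      d' i = wi → Cell T σ j l c' d' := by
    intro τ hτ c' d' h' e
    refine ⟨h'.1.1, fun r hrj hrl => ?_⟩
    by_cases hr : r = i
    · rw [hr, e]; exact (farC (hA' τ hτ).1 h').1
    · rw [h'.1.2 r hr hrl, update_of_ne hrj]
  have hsp : ∀ a, a ≠ x → ∃ (τ : Perm α) (c' d' : ι → α), τ b1 = x ∧
      Far T (update σ j τ) i l (d b1 i) wl c' d' ∧ d' i = wi ∧ d' l = d b2 l ∧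
      Arm T σ j l x (σ l wl) b2 (d b2 l) c' d' ∧ c' j = a := by
    intro a ha
    obtain ⟨τ, t1, t2⟩ := exists_perm2 hb ha.symm
    obtain ⟨c', d', hc', e1, e2, e3⟩ := (hA' τ t1).2.2.1
    have hfar : Far T (update σ j τ) i l (d b1 i) wl c' d' :=
      ⟨hc', e1 ▸ Ne.symm si.2, e2 ▸ sl.2⟩
    have ej : c' j = a := by
      rw [hc'.2 j hij.symm hlj.symm, update_self, e3, t2]
    exact ⟨τ, c', d', t1, hfar, e1, e2, ⟨hrow τ t1 c' d' hfar e1, e3, e2, Or.inl (ej ▸ ha)⟩, ej⟩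
  have hcell : ∀ b, Cell T σ j l (c b) (d b) := fun b =>
    ⟨(hR b).1, fun r hr _ => (hR b).2.2.2 r hr⟩
  have hfar : ∀ b, b ≠ b2 → Far T σ j l b2 (d b2 l) (c b) (d b) := fun b hb' =>
    ⟨hcell b, by rw [(hR b).2.2.1]; exact hb', by
      have := sl.1 b hb'
      simp only at this
      rw [this]; exact Ne.symm sl.2⟩
  have harm : Arm T σ j l x (σ l wl) b2 (d b2 l) (c b2) (d b2) :=
    ⟨hcell b2, (hR b2).2.2.1, rfl, Or.inr (by
      rw [(hR b2).2.2.2 l hlj]
      exact fun h => sl.2 ((σ l).injective h))⟩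
  have hG : ∃ (τ : Perm α) (c' d' : ι → α), τ b1 = x ∧
      Far T (update σ j τ) i l (d b1 i) wl c' d' ∧ d' i = wi ∧ d' l = d b2 l ∧ d' l2 ≠ wl2 := by
    obtain ⟨a, ha⟩ := exists_ne1 (by omega) x
    obtain ⟨a', ha', haa⟩ := exists_ne2 (by omega) x a
    obtain ⟨τ, c1, d1, t1, F1, e1, f1, A1, g1⟩ := hsp a ha
    obtain ⟨τ', c2, d2, t2, F2, e2, f2, A2, g2⟩ := hsp a' ha'
    rcases hL T hT σ j l l2 _ _ _ _ hlj.symm hl2j hll2.symm h4 with ⟨m, hm⟩ | ⟨p, μ, -, hμ, -, hu⟩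
    · refine ⟨τ, c1, d1, t1, F1, e1, f1, ?_⟩
      rw [hm _ _ A1, ← hm _ _ harm]
      exact sl2.2
    · have hw : wl2 = μ := (sl2.1 b1 hb).symm.trans (hμ _ _ (hfar b1 hb))
      by_cases h : d1 l2 = wl2
      · refine ⟨τ', c2, d2, t2, F2, e2, f2, fun h' => haa ?_⟩
        rw [← g1, ← g2, hu _ _ _ _ A1 A2 (h.trans hw) (h'.trans hw)]
      · exact ⟨τ, c1, d1, t1, F1, e1, f1, h⟩
  obtain ⟨τ, c0, d0, hτ, F0, e0, f0, g0⟩ := hG
  refine ⟨τ, hτ, ⟨c0, d0, F0, e0, f0, g0⟩, ?_⟩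
  obtain ⟨h4', -, -, hf⟩ := hA' τ hτ
  have hrw : ∀ e, e ≠ wl → e ≠ d b2 l → ∃ c' d', Far T (update σ j τ) i l (d b1 i) wl c' d' ∧
      d' i = wi ∧ d' l = e ∧ d' l2 = wl2 := by
    intro e he1 he2
    obtain ⟨c', d', h', f1, f2⟩ := exFar h4' (Ne.symm si.2) he1
    refine ⟨c', d', h', f1, f2, hB c' d' ⟨hrow τ hτ c' d' h' f1, ?_, f2 ▸ he2⟩⟩
    rcases hf c' d' h' (Or.inl f1) with h | h
    · rw [h]; exact hb
    · exact absurd (f2.symm.trans h.2) he2
  obtain ⟨e, he1, he2⟩ := exists_ne2 (by omega) wl (d b2 l)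
  obtain ⟨c1, d1, F1, e1, f1, g1⟩ := hrw e he1 he2
  have A0 : Arm T (update σ j τ) i l (σ i wi) (σ l wl) (d b1 i) wl (c b1) (d b1) := by
    refine ⟨⟨(hR b1).1, fun r _ _ => ?_⟩, rfl, sl.1 b1 hb, Or.inl ?_⟩
    · by_cases hr : r = j
      · rw [hr, update_self, (hR b1).2.1, (hR b1).2.2.1, hτ]
      · rw [update_of_ne hr, (hR b1).2.2.2 r hr]
    · rw [(hR b1).2.2.2 i hij]
      exact fun h => si.2 ((σ i).injective h)
  rcases hF T hT (update σ j τ) i l l2 _ _ _ _ hil hil2.symm hll2.symm h4' with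
    ⟨μ, hμ⟩ | ⟨m, hm0, h | h⟩
  · exact absurd (by rw [hμ _ _ F0, ← hμ _ _ F1, g1]) g0
  · have hm : wl2 = m := (sl2.1 b1 hb).symm.trans (hm0 _ _ A0)
    intro c' d' h' k1 k2
    by_contra k3
    exact k2 (by rw [h _ _ _ _ h' F0 (Or.inr (k1.trans f0.symm)) (hm ▸ k3) (hm ▸ g0), e0])
  · exact absurd (g1.trans ((sl2.1 b1 hb).symm.trans (hm0 _ _ A0))) (h.2 _ _ F1)

end DS2

open DS2 in
theorem ds2 (hS : StmtSec ι α) (hA : StmtAlpha ι) (hF : StmtGF ι) (hL : StmtGLam ι)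
    (h1 : StmtDS1 ι) : StmtDS2 ι := by
  have hk := hk3
  intro T hT σ i j l l2 r x b1 b2 wi wl wl2 c d τ hij hlj hl2j hil hil2 hll2 hb hR si sl sl2
    hτ hri hrl hrl2 sep sep2
  obtain ⟨τ1, hτ1, ⟨c0, d0, F0, e0, f0, g0⟩, hC⟩ :=
    stepC hA hF hL hk hT hij hlj hl2j hil hil2 hll2 hb hR si sl sl2
  obtain ⟨h41, -⟩ := (hA T hT σ i j l x b1 b2 wi wl c d hij hlj hil hb hR si sl).2 τ1 hτ1
  obtain ⟨ρ, hρ⟩ := exists_perm1 (d b2 l) (σ l wl)
  have hyl : d b2 l ≠ wl := sl.2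
  have hyi : d b1 i ≠ wi := si.2
  have hline : ∀ u, ∃ c' d' : ι → α, (T c' d' ∧ c' i = σ i wi ∧ d' i = u ∧
      ∀ s, s ≠ i → c' s = update (update σ j τ1) l ρ s (d' s)) ∧
      (u ≠ d b1 i → d' l = d b2 l) ∧ (u = d b1 i → d' l = wl) ∧
      (u ≠ wi → d' l2 = wl2) ∧ (u = wi → d' l2 ≠ wl2) := by
    intro u
    have hgen : ∀ c' d' : ι → α, Cell T (update σ j τ1) i l c' d' → c' l = ρ (d' l) →
        ∀ s, s ≠ i → c' s = update (update σ j τ1) l ρ s (d' s) := by
      intro c' d' h' e s hs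
      by_cases hsl : s = l
      · rw [hsl, update_self, e]
      · rw [update_of_ne hsl]; exact h'.2 s hs hsl
    by_cases hu : u = d b1 i
    · have hne : ρ wl ≠ σ l wl := fun h => hyl (ρ.injective (hρ.trans h.symm))
      obtain ⟨c', d', A, e1, e2⟩ := exB h41 hne
      refine ⟨c', d', ⟨A.1.1, e1, A.2.1.trans hu.symm, hgen c' d' A.1 (by rw [e2, A.2.2.1])⟩,
        fun h => absurd hu h, fun _ => A.2.2.1, fun _ => ?_, fun h => absurd (hu.symm.trans h) hyi⟩
      exact stepA hA hL h1 hk hT hij hlj hl2j hil hil2 hll2 hb hR si sl sl2 hτ1 A e1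
    · by_cases hw : u = wi
      · refine ⟨c0, d0, ⟨F0.1.1, (farC h41 F0).1, e0.trans hw.symm,
          hgen c0 d0 F0.1 (by rw [(farC h41 F0).2, f0, hρ])⟩, fun _ => f0,
          fun h => absurd h hu, fun h => absurd hw h, fun _ => g0⟩
      · obtain ⟨c', d', F, e1, e2⟩ := exFar h41 hu hyl
        refine ⟨c', d', ⟨F.1.1, (farC h41 F).1, e1,
          hgen c' d' F.1 (by rw [(farC h41 F).2, e2, hρ])⟩, fun _ => e2,
          fun h => absurd h hu, fun _ => hC c' d' F e2 (e1 ▸ hw), fun h => absurd h hw⟩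
  choose c2 d2 hR2 k1 k2 k3 k4 using hline
  have s2l : Single (fun u => d2 u l) (d b1 i) (d b2 l) :=
    ⟨k1, fun h => hyl (h.symm.trans (k2 _ rfl))⟩
  have s2l2 : Single (fun u => d2 u l2) wi wl2 := ⟨k3, k4 _ rfl⟩
  obtain ⟨ρ', hρ'⟩ := exists_perm1 (d b1 i) (σ i wi)
  obtain ⟨h43, -⟩ := (hA T hT (update (update σ j τ1) l ρ) l i l2 (σ i wi) (d b1 i) wi
    (d b2 l) wl2 c2 d2 hil.symm hil2.symm hll2 hyi hR2 s2l s2l2).2 ρ' hρ'
  rw [update_self, hρ, update_of_ne hll2.symm, update_of_ne hl2j, k2 _ rfl] at h43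
  set σ3 := update (update (update σ j τ1) l ρ) i ρ' with hσ3
  obtain ⟨h4, harm, -⟩ := (hA T hT σ i j l x b1 b2 wi wl c d hij hlj hil hb hR si sl).2 τ hτ
  obtain ⟨h42, harm2, -⟩ := (hA T hT σ i j l2 x b1 b2 wi wl2 c d hij hl2j hil2 hb hR si sl2).2 τ hτ
  have hcell : ∀ c' d' : ι → α, T c' d' → c' i = σ i wi → d' i = d b1 i → d' j = b1 →
      (∀ s, s ≠ i → s ≠ l → s ≠ l2 → c' s = update σ j τ s (d' s)) → Cell T σ3 l l2 c' d' := by
    intro c' d' ht e1 e2 e3 h'
    refine ⟨ht, fun s hsl hsl2 => ?_⟩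
    by_cases hs : s = i
    · rw [hs, hσ3, update_self, e1, e2, hρ']
    · rw [hσ3, update_of_ne hs, update_of_ne hsl, h' s hs hsl hsl2]
      by_cases hsj : s = j
      · rw [hsj, update_self, update_self, e3, hτ, hτ1]
      · rw [update_of_ne hsj, update_of_ne hsj]
  have hBl : ∀ c' d', Arm T (update σ j τ) i l (σ i wi) (σ l wl) (d b1 i) wl c' d' →
      c' i = σ i wi → Arm T σ3 l l2 (σ l wl) (σ l2 wl2) wl wl2 c' d' ∧ c' l ≠ σ l wl := by
    intro c' d' A e
    have hne : c' l ≠ σ l wl := A.2.2.2.resolve_left fun h => h e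
    exact ⟨⟨hcell c' d' A.1.1 e A.2.1 (harm c' d' A) fun s h1 h2 _ => A.1.2 s h1 h2, A.2.2.1,
      stepA hA hL h1 hk hT hij hlj hl2j hil hil2 hll2 hb hR si sl sl2 hτ A e, Or.inl hne⟩, hne⟩
  have hBl2 : ∀ c' d', Arm T (update σ j τ) i l2 (σ i wi) (σ l2 wl2) (d b1 i) wl2 c' d' →
      c' i = σ i wi → Arm T σ3 l l2 (σ l wl) (σ l2 wl2) wl wl2 c' d' ∧ c' l = σ l wl := by
    intro c' d' A e
    have hne : c' l2 ≠ σ l2 wl2 := A.2.2.2.resolve_left fun h => h e
    have hd := stepA hA hL h1 hk hT hij hl2j hlj hil2 hil hll2.symm hb hR si sl2 sl hτ A e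
    refine ⟨⟨hcell c' d' A.1.1 e A.2.1 (harm2 c' d' A) fun s h1 _ h3 => A.1.2 s h1 h3, hd,
      A.2.2.1, Or.inr hne⟩, ?_⟩
    rw [A.1.2 l hil.symm hll2, update_of_ne hlj, hd]
  obtain ⟨-, μ, hμ, hv, hu⟩ :=
    (h1 T hT σ i j l x b1 b2 wi wl c d τ hij hlj hil hb hR si sl hτ).2 r hri hrl sep
  obtain ⟨-, μ', hμ', hv2, hu2⟩ :=
    (h1 T hT σ i j l2 x b1 b2 wi wl2 c d τ hij hl2j hil2 hb hR si sl2 hτ).2 r hri hrl2 sep2
  have hμμ : μ' = μ := (hμ'.1 b2 hb.symm).symm.trans (hμ.1 b2 hb.symm)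
  have hp : d b1 r ≠ μ := hμ.2
  have hU : ∃ c' d', Arm T (update σ j τ) i l (σ i wi) (σ l wl) (d b1 i) wl c' d' ∧
      c' i = σ i wi ∧ d' r = μ := by
    obtain ⟨ca, da, cb, db, A, B, ea, eb, hne⟩ := sep
    rcases hv ca da A with h | h
    · exact ⟨cb, db, B, eb, (hv cb db B).resolve_left fun h' => hne (h.trans h'.symm)⟩
    · exact ⟨ca, da, A, ea, h⟩
  have hU2 : ∃ c' d', Arm T (update σ j τ) i l2 (σ i wi) (σ l2 wl2) (d b1 i) wl2 c' d' ∧
      c' i = σ i wi ∧ d' r = μ := by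
    obtain ⟨ca, da, cb, db, A, B, ea, eb, hne⟩ := sep2
    rcases hv2 ca da A with h | h
    · exact ⟨cb, db, B, eb,
        ((hv2 cb db B).resolve_left fun h' => hne (h.trans h'.symm)).trans hμμ⟩
    · exact ⟨ca, da, A, ea, h.trans hμμ⟩
  obtain ⟨cu, du, U, eu, fu⟩ := hU
  obtain ⟨cw, dw, U2, ew, fw⟩ := hU2
  have hV : ∀ g, g ≠ σ l wl → g ≠ cu l → ∃ c' d',
      Arm T σ3 l l2 (σ l wl) (σ l2 wl2) wl wl2 c' d' ∧ c' l = g ∧ d' r = d b1 r := by
    intro g hg1 hg2
    obtain ⟨c', d', A, e1, e2⟩ := exB h4 hg1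
    refine ⟨c', d', (hBl c' d' A e1).1, e2, (hv c' d' A).resolve_right fun h => hg2 ?_⟩
    rw [← e2, hu c' d' cu du A U h fu]
  obtain ⟨g, hg1, hg2⟩ := exists_ne2 (by omega) (σ l wl) (cu l)
  obtain ⟨cv, dv, V, ev, fv⟩ := hV g hg1 hg2
  obtain ⟨g', hg1', hg2'⟩ := exists_ne2 (by omega) (σ l2 wl2) (cw l2)
  obtain ⟨cv', dv', A', e1', e2'⟩ := exB h42 hg1'
  have fv' : dv' r = d b1 r := (hv2 cv' dv' A').resolve_right fun h => hg2' (by
    rw [← e2', hu2 cv' dv' cw dw A' U2 h (fw.trans hμμ.symm)])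
  obtain ⟨V', ev'⟩ := hBl2 cv' dv' A' e1'
  obtain ⟨AU, nU⟩ := hBl cu du U eu
  obtain ⟨AW, nW⟩ := hBl2 cw dw U2 ew
  rcases hL T hT σ3 l l2 r _ _ _ _ hll2 hrl hrl2 h43 with ⟨m, hm⟩ | ⟨p, ν, -, -, hq, hq1⟩
  · exact hp (by rw [← fv, ← fu, hm _ _ V, hm _ _ AU])
  · have hμν : μ ≠ ν := fun h =>
      nU (by rw [hq1 _ _ _ _ AU AW (fu.trans h) (fw.trans h), nW])
    have hpp : μ = p := by
      rcases hq _ _ AU with h | h
      · exact fu.symm.trans h
      · exact absurd (fu.symm.trans h) hμν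
    have hν : d b1 r = ν := by
      rcases hq _ _ V with h | h
      · exact absurd ((fv.symm.trans h).trans hpp.symm) hp
      · exact fv.symm.trans h
    exact hg1 (by rw [← ev, hq1 _ _ _ _ V V' (fv.trans hν) (fv'.trans hν), ev'])

end Pool.Agent.MP_92191b_al.K3

end

section

/-! Set families with an exchange property, and the centred theorem. -/

set_option linter.unusedSectionVars false

namespace Pool.Agent.MP_92191b_al.K3

open Finset Function Equiv K6 X

variable {ι : Type} [Fintype ι] [DecidableEq ι]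

namespace Fam

/-- maximal members -/
def Mx (F : Finset ι → Prop) (V : Finset ι) : Prop := F V ∧ ∀ r, r ∉ V → ¬F (insert r V)

theorem exists_mx {F : Finset ι → Prop} {T : Finset ι} (h : F T) : ∃ W, Mx F W ∧ T ⊆ W := by
  classical
  obtain ⟨V, hV, hm⟩ := exists_max_image (univ.filter fun W => F W ∧ T ⊆ W) card ⟨T, by simpa⟩
  rw [mem_filter] at hV
  refine ⟨V, ⟨hV.2.1, fun r hr h => ?_⟩, hV.2.2⟩
  have := hm (insert r V) (mem_filter.2 ⟨mem_univ _, h, hV.2.2.trans (subset_insert _ _)⟩)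
  rw [card_insert_of_notMem hr] at this
  omega

theorem exists_out {F : Finset ι → Prop} {V : Finset ι} (h : F V) (h1 : ¬F univ) : ∃ l, l ∉ V := by
  by_contra h2
  exact h1 ((eq_univ_iff_forall.2 fun l => not_not.1 fun hl => h2 ⟨l, hl⟩) ▸ h)

open Classical in
/-- the elements that can be exchanged for `l` -/
noncomputable def Ps (F : Finset ι → Prop) (V : Finset ι) (l : ι) : Finset ι :=
  V.filter fun j => F (insert l (V.erase j))

theorem mem_Ps {F : Finset ι → Prop} {V : Finset ι} {l j : ι} :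
    j ∈ Ps F V l ↔ j ∈ V ∧ F (insert l (V.erase j)) := by
  simp only [Ps, mem_filter]

variable {F : Finset ι → Prop} {J : ℕ} (hJ : ∀ V V', F V → F V' → (V ∪ V').card ≤ J)
include hJ

theorem big {T U V : Finset ι} {l : ι} (hT : F T) (hU : F U) (h1 : l ∉ T) (h2 : l ∉ V)
    (h3 : (T \ V).card + V.card = J) (h4 : insert l V ⊆ U ∪ T) : False := by
  have h5 := card_le_card (show insert l (T ∪ V) ⊆ U ∪ T by clear * - h4; grind)
  rw [card_insert_of_notMem (by simp [h1, h2]), ← card_sdiff_add_card] at h5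
  have := hJ _ _ hU hT
  omega

theorem core {V : Finset ι} {l : ι} (h : KLP α F J V l) (hl : l ∉ V) :
    V.card + (Ps F V l).card = J ∧ V.card + 2 * (Ps F V l).card + 1 ≤ Fintype.card ι ∧
      ∀ r, r ∉ V → ∃ T, F T ∧ l ∉ T ∧ r ∉ T ∧ Disjoint T (Ps F V l) ∧
        (T \ V).card + V.card = J := by
  obtain ⟨P, T, a0, k1, k2, k3, k4, k5, k6⟩ := h
  obtain ⟨x, hx⟩ := exists_ne1 (α := α) (by simp) a0
  obtain ⟨y, hy, hxy⟩ := exists_ne2 hk3 a0 x
  obtain ⟨x1, x2, x3, x4⟩ := k4 x hx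
  obtain ⟨y1, y2, y3, y4⟩ := k4 y hy
  have d := k5 y x hy hx hxy
  obtain rfl : P = Ps F V l := by
    refine Subset.antisymm (fun j hj => mem_Ps.2 ⟨k1 hj, k3 j hj⟩) fun j hj => by_contra fun hn => ?_
    obtain ⟨j1, j2⟩ := mem_Ps.1 hj
    by_cases h : j ∈ T x
    · exact big hJ x1 j2 x2 hl (by omega) (by clear * - h; grind)
    · have h' := not_not.1 fun h' => hxy (k6 j (mem_sdiff.2 ⟨j1, hn⟩) y x hy hx h' h)
      exact big hJ y1 j2 y2 hl (by omega) (by clear * - h'; grind)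
  refine ⟨k2, ?_, fun r hr => ?_⟩
  · have h4 := card_le_univ (insert l (V ∪ (T y \ V ∪ T x \ V)))
    rw [card_insert_of_notMem (by simp [hl, x2, y2]), card_union_of_disjoint
      (disjoint_union_right.2 ⟨disjoint_sdiff, disjoint_sdiff⟩), card_union_of_disjoint d] at h4
    omega
  · by_cases h : r ∈ T x
    · exact ⟨T y, y1, y2, fun h' => disjoint_left.1 d (mem_sdiff.2 ⟨h', hr⟩) (mem_sdiff.2 ⟨h, hr⟩),
        y3, by omega⟩
    · exact ⟨T x, x1, x2, h, x3, by omega⟩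

variable (hK : ∀ V l, F V → (∀ r, r ∉ V → ¬F (insert r V)) → l ∉ V → KLP α F J V l)
include hK

theorem indep {V : Finset ι} (hV : Mx F V) (hm : ∀ W, Mx F W → V.card ≤ W.card) {l r : ι}
    (hl : l ∉ V) (hr : r ∉ V) : Ps F V r ⊆ Ps F V l := fun j hj => by_contra fun hn => by
  obtain ⟨c1, -, c2⟩ := core hJ (hK V l hV.1 hV.2 hl) hl
  obtain ⟨T, t1, t2, t3, -, t5⟩ := c2 r hr
  obtain ⟨W, hW, hs⟩ := exists_mx t1
  have e : T ∪ V = W ∪ V := eq_of_subset_of_card_le (union_subset_union_left hs)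
    (by rw [← card_sdiff_add_card T, t5]; exact hJ _ _ hW.1 hV.1)
  have e' : ∀ x, x ∉ T → x ∉ V → x ∉ W := fun x h1 h2 h3 =>
    (mem_union.1 (e.ge (mem_union_left _ h3))).elim h1 h2
  have w1 : (W \ V).card + V.card = J := by rw [card_sdiff_add_card, ← e, ← card_sdiff_add_card, t5]
  have w2 : ∀ q, q ∉ T → q ∉ V → ∀ i ∈ Ps F V q, i ∉ W := fun q q1 q2 i hi hw =>
    big hJ hW.1 (mem_Ps.1 hi).2 (e' q q1 q2) q2 w1 (by clear * - hw; grind)
  have w3 : insert j (Ps F V l) ⊆ V := insert_subset (mem_Ps.1 hj).1 fun i hi => (mem_Ps.1 hi).1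
  have w4 : W ⊆ W \ V ∪ V \ insert j (Ps F V l) := by
    have a := w2 l t2 hl
    have b := w2 r t3 hr j hj
    clear * - a b
    grind
  have w5 := (hm W hW).trans ((card_le_card w4).trans (card_union_le _ _))
  have w6 := card_sdiff_add_card_eq_card w3
  rw [card_insert_of_notMem hn] at w6
  omega

omit hJ hK in
/-- The invariant of the exchange argument. -/
structure Phi (F : Finset ι → Prop) (E : Finset ι) (e : ℕ) (P : Finset ι) : Prop where
  dj : Disjoint P E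
  cd : P.card = e
  mx : Mx F (E ∪ P)
  ex : ∀ l, l ∉ E ∪ P → P ⊆ Ps F (E ∪ P) l

theorem step (hd : ∀ V V', V' ⊆ V → F V → F V') {e : ℕ} {E P : Finset ι}
    (hm : ∀ W, Mx F W → E.card + e ≤ W.card) (h : Phi F E e P) {l i : ι}
    (hl : l ∉ E ∪ P) (hi : i ∈ P) : Phi F E e (insert l (P.erase i)) := by
  have hiE : i ∉ E := disjoint_left.1 h.dj hi
  have c0 : (E ∪ P).card = E.card + e := by rw [card_union_of_disjoint h.dj.symm, h.cd]
  obtain ⟨-, -, c2⟩ := core hJ (hK _ l h.mx.1 h.mx.2 hl) hl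
  have d : Disjoint (insert l (P.erase i)) E :=
    disjoint_insert_left.2 ⟨fun h => hl (mem_union_left _ h), h.dj.mono_left (erase_subset _ _)⟩
  have c : (insert l (P.erase i)).card = e := by
    rw [card_insert_of_notMem (by clear * - hl; grind), card_erase_add_one hi, h.cd]
  have c' : (E ∪ insert l (P.erase i)).card = E.card + e := by rw [card_union_of_disjoint d.symm, c]
  have m : Mx F (E ∪ insert l (P.erase i)) := by
    refine ⟨hd _ _ (by clear * - hiE; grind) (mem_Ps.1 (h.ex l hl hi)).2, fun r hr hF => ?_⟩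
    by_cases hri : r = i
    · exact h.mx.2 l hl (hd _ _ (by clear * - hri; grind) hF)
    · obtain ⟨T, t1, t2, t3, t4, t5⟩ := c2 r (by clear * - hri hr; grind)
      have t6 : i ∉ T := disjoint_right.1 t4 (h.ex l hl hi)
      refine big hJ t1 hF t3 hr ?_ subset_union_left
      rw [c', ← c0, ← t5, show T \ (E ∪ insert l (P.erase i)) = T \ (E ∪ P) by
        clear * - t2 t6; grind]
  refine ⟨d, c, m, fun r hr j hj => indep hJ hK m (c' ▸ hm) hr (r := i)
    (by clear * - hiE hi hl; grind) (mem_Ps.2 ⟨mem_union_right _ hj, ?_⟩)⟩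
  by_cases hjl : j = l
  · exact hd _ _ (by clear * - hjl hi; grind) h.mx.1
  · exact hd _ _ (by clear * - hjl hj hi; grind)
      (mem_Ps.1 (h.ex l hl (show j ∈ P by clear * - hjl hj; grind))).2

omit hJ hK in
theorem all {e : ℕ} {E : Finset ι}
    (hs : ∀ P l i, Phi F E e P → l ∉ E ∪ P → i ∈ P → Phi F E e (insert l (P.erase i)))
    {Q : Finset ι} (hQ : Disjoint Q E) (hc : Q.card = e) (n : ℕ) :
    ∀ P, Phi F E e P → (Q \ P).card = n → Phi F E e Q := by
  induction n with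
  | zero =>
    intro P h hn
    rw [card_eq_zero, sdiff_eq_empty_iff_subset] at hn
    rwa [eq_of_subset_of_card_le hn (by rw [hc, h.cd])]
  | succ n ih =>
    intro P h hn
    obtain ⟨l, hl⟩ : (Q \ P).Nonempty := card_pos.1 (by omega)
    obtain ⟨i, hi⟩ : (P \ Q).Nonempty := by
      refine card_pos.1 ?_
      rw [card_sdiff_comm (h.cd.trans hc.symm)]
      omega
    rw [mem_sdiff] at hi
    have hl' := mem_sdiff.1 hl
    refine ih _ (hs P l i h (fun h1 => (mem_union.1 h1).elim (disjoint_left.1 hQ hl'.1) hl'.2)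
      hi.1) ?_
    have h1 : Q \ insert l (P.erase i) = (Q \ P).erase l := by
      ext x
      simp only [mem_sdiff, mem_insert, mem_erase]
      constructor
      · rintro ⟨h2, h3⟩
        exact ⟨fun h4 => h3 (Or.inl h4), h2,
          fun h4 => h3 (Or.inr ⟨fun h5 => hi.2 (h5 ▸ h2), h4⟩)⟩
      · rintro ⟨h2, h3, h4⟩
        exact ⟨h3, fun h5 => h5.elim h2 fun h6 => h4 h6.2⟩
    rw [h1, card_erase_of_mem hl, hn]
    rfl

end Fam

theorem fam : StmtFam ι := by
  classical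
  intro F J hd hJ hK h0 h1
  obtain ⟨V, hV, hm⟩ := exists_min_image (univ.filter (Fam.Mx F)) card
    ((Fam.exists_mx h0).imp fun W h => mem_filter.2 ⟨mem_univ _, h.1⟩)
  replace hV := (mem_filter.1 hV).2
  replace hm : ∀ W, Fam.Mx F W → V.card ≤ W.card := fun W h => hm W (mem_filter.2 ⟨mem_univ _, h⟩)
  obtain ⟨l, hl⟩ := Fam.exists_out hV.1 h1
  obtain ⟨k2, hr, -⟩ := Fam.core hJ (hK V l hV.1 hV.2 hl) hl
  have k3 := fun r hr => Fam.indep hJ hK hV hm (l := r) hr hl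
  have k1 : Fam.Ps F V l ⊆ V := fun i hi => (Fam.mem_Ps.1 hi).1
  generalize Fam.Ps F V l = P at k1 k2 k3 hr
  have hVE : V = V \ P ∪ P := (sdiff_union_of_subset k1).symm
  have hc : (V \ P).card + P.card = V.card := card_sdiff_add_card_eq_card k1
  have hdj : Disjoint P (V \ P) := disjoint_sdiff
  generalize V \ P = E at hVE hc hdj
  subst hVE
  have hP : Fam.Phi F E P.card P := ⟨hdj, rfl, hV, k3⟩
  generalize P.card = e at hP hr hc k2
  have he : 2 * e + E.card = J := by omega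
  have hall : ∀ Q : Finset ι, Disjoint Q E → Q.card = e → F (E ∪ Q) := fun Q a b =>
    (Fam.all (fun P l i h x y => Fam.step hJ hK hd (hc ▸ hm) h x y) a b _ P hP rfl).mx.1
  refine ⟨E, e, he, by rw [card3]; omega, fun W => ⟨fun hW => ?_, fun hW => ?_⟩⟩
  · by_contra hn
    obtain ⟨U, u1, u2⟩ := exists_subset_card_eq (s := W \ E) (n := e + 1) (by omega)
    have u3 : Disjoint U E := disjoint_of_subset_left u1 sdiff_disjoint
    obtain ⟨Q, q1, q2⟩ := exists_subset_card_eq (s := (U ∪ E)ᶜ) (n := e) (by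
      rw [card_compl, card_union_of_disjoint u3]; omega)
    have q3 : Disjoint Q (U ∪ E) := disjoint_of_subset_left q1 disjoint_compl_left
    have q4 := hJ _ _ (hd _ _ (u1.trans sdiff_subset) hW)
      (hall Q (q3.mono_right subset_union_right) q2)
    rw [← union_assoc, card_union_of_disjoint q3.symm, card_union_of_disjoint u3] at q4
    omega
  · obtain ⟨Q, q1, q2, q3⟩ := exists_subsuperset_card_eq (s := W \ E) (t := Eᶜ) (n := e)
      (fun x hx => mem_compl.2 (mem_sdiff.1 hx).2) hW (by rw [card_compl]; omega)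
    refine hd _ _ (fun x hx => ?_)
      (hall Q (disjoint_of_subset_left q2 disjoint_compl_left) q3)
    by_cases h2 : x ∈ E
    · exact mem_union_left _ h2
    · exact mem_union_right _ (q1 (mem_sdiff.2 ⟨hx, h2⟩))

theorem cenA (hD : StmtDown ι) (hK : StmtKL ι) (hF : StmtFam ι) : StmtCenA ι := by
  classical
  intro C F hC h2
  have hd : ∀ V V', V' ⊆ V → F V → F V' := by
    intro V V' hs hV
    have key : ∀ S : Finset ι, F (S ∪ V') → F V' := by
      intro S
      induction S using Finset.induction_on with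
      | empty => simp
      | insert a S _ ih =>
        intro h
        rw [insert_union] at h
        exact ih (hD C F hC _ _ h)
    exact key V (by rwa [union_eq_left.2 hs])
  obtain ⟨c, hc, c', hc', hn⟩ := one_lt_card.1 h2
  have h0 : F ∅ := by
    obtain ⟨_, _, h⟩ := hC.cen.ex c 1
    exact hd _ _ (empty_subset _) h
  have h1 : ¬F univ := fun h => hn (hC.cen.sep c hc c' hc' _ _ h h (by simp)
    (by simpa using hammingDist_le_card_fintype))
  obtain ⟨p, hp, hm⟩ := exists_max_image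
    (univ.filter fun p : Finset ι × Finset ι => F p.1 ∧ F p.2) (fun p => (p.1 ∪ p.2).card)
    ⟨(∅, ∅), by simpa using h0⟩
  rw [mem_filter] at hp
  have hJ : ∀ V V', F V → F V' → (V ∪ V').card ≤ (p.1 ∪ p.2).card := fun V V' a b =>
    hm (V, V') (mem_filter.2 ⟨mem_univ _, a, b⟩)
  have hL := hK C F _ hC.cen hd hJ ⟨p.1, p.2, hp.2.1, hp.2.2, rfl⟩
  obtain ⟨E, e, k1, k2, k3⟩ := hF F _ hd hJ
    (fun V l a b c => (hL V l a b c).2) h0 h1
  obtain ⟨V, ⟨hV, hx⟩, -⟩ := Fam.exists_mx h0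
  obtain ⟨l, hl⟩ := Fam.exists_out hV h1
  refine ⟨E, e, k2, k3, ?_⟩
  rw [k1]
  exact (hL V l hV hx hl).1

end Pool.Agent.MP_92191b_al.K3

end

section

/-! The structure of a centred family at a maximal set. -/

set_option linter.unusedSectionVars false

namespace Pool.Agent.MP_92191b_al.K3

open Finset Function Equiv K6 X

variable {ι : Type} [Fintype ι] [DecidableEq ι]

namespace KL

variable {C : Finset (ι → α)} {F : Finset ι → Prop} {J : ℕ}

theorem mem_df {c z : ι → α} {r : ι} : r ∈ df c z ↔ c r ≠ z r := by simp [df]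

theorem far (hC : Cen C F) (down : ∀ V V', V' ⊆ V → F V → F V')
    (hJ : ∃ V V', F V ∧ F V' ∧ (V ∪ V').card = J) {c c' : ι → α} (hc : c ∈ C) (hc' : c' ∈ C)
    (h : hammingDist c c' ≤ J) : c = c' := by
  obtain ⟨V, V', hV, hV', hJ⟩ := hJ
  obtain ⟨U, hU, hcard⟩ := exists_subset_card_eq (hJ ▸ h : hammingDist c c' ≤ (V ∪ V').card)
  have e : U ∩ V ∪ U \ V = U := by
    ext r
    simp only [mem_union, mem_inter, mem_sdiff]
    tauto
  refine hC.sep c hc c' hc' (U ∩ V) (U \ V) (down _ _ inter_subset_right hV)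
    (down _ _ ?_ hV') ?_ (by rw [e, hcard])
  · intro r hr
    rw [mem_sdiff] at hr
    exact (mem_union.1 (hU hr.1)).resolve_left hr.2
  · rw [← hcard]
    refine card_le_card fun r hr => ?_
    simp only [mem_symmDiff, mem_inter, mem_sdiff] at hr
    tauto

theorem cover (hC : Cen C F) (z : ι → α) : ∃ c ∈ C, F (df c z) := by
  obtain ⟨c, hc, h⟩ := hC.ex z (Equiv.refl ι)
  exact ⟨c, hc, by simpa using h⟩

end KL

open KL in
theorem kl (hS : StmtCSec ι α) (hCK : StmtCK) : StmtKL ι := by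
  intro C F J hC down hle hJ V l hV hmax hl
  have hk := hk3
  have uniq := fun z => (hS C F hC z).1
  obtain ⟨w⟩ : Nonempty α := Fintype.card_pos_iff.1 (by omega)
  obtain ⟨c0, hc0, -⟩ := cover hC fun _ => w
  choose o ho using exists_ne1 (α := α) (by omega)
  obtain ⟨z, hz⟩ : ∃ z : ι → α, df c0 z = V := by
    refine ⟨fun r => if r ∈ V then o (c0 r) else c0 r, ?_⟩
    ext r
    by_cases hr : r ∈ V <;> simp [mem_df, hr, (ho _).symm]
  have hzl : c0 l = z l := by
    by_contra h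
    exact hl (hz ▸ mem_df.2 h)
  choose c hc hF using fun a => cover hC (update z l a)
  obtain ⟨T, hT⟩ : ∃ T : α → Finset ι, ∀ a r, r ∈ T a ↔ r ≠ l ∧ c a r ≠ z r :=
    ⟨fun a => (df (c a) z).erase l, fun a r => by simp [mem_df]⟩
  have hFT : ∀ a, F (T a) := fun a => down _ _ (fun r hr => by
    rw [hT] at hr
    rw [mem_df, update_of_ne hr.1]
    exact hr.2) (hF a)
  have hlT : ∀ a, l ∉ T a := fun a h => ((hT a l).1 h).1 rfl
  have hcl : ∀ a, c a l = a := by
    intro a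
    by_contra h
    have sub : ∀ r, r = l ∨ c a r ≠ z r → r ∈ df (c a) (update z l a) := by
      intro r hr
      by_cases e : r = l
      · rw [e, mem_df, update_self]
        exact h
      · rw [mem_df, update_of_ne e]
        exact hr.resolve_left e
    have e : c a = c0 := uniq z _ (hc a) _ hc0
      (down _ _ (fun r hr => sub r (Or.inr (mem_df.1 hr))) (hF a)) (hz ▸ hV)
    refine hmax l hl (down _ _ (fun r hr => sub r ?_) (hF a))
    rw [mem_insert, ← hz, mem_df, ← e] at hr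
    exact hr
  have hca0 : c (z l) = c0 := uniq z _ (hc _) _ hc0 (by simpa using hF (z l)) (hz ▸ hV)
  have hT0 : T (z l) = V := by
    ext r
    rw [hT, hca0, ← mem_df, hz]
    exact ⟨fun h => h.2, fun h => ⟨fun e => hl (e ▸ h), h⟩⟩
  have two : ∀ a a', a ≠ a' → hammingDist (c a) (c a') = J + 1 ∧ (T a ∪ T a').card = J := by
    intro a a' h
    have h1 : ¬hammingDist (c a) (c a') ≤ J := fun h' =>
      h (by rw [← hcl a, far hC down hJ (hc a) (hc a') h', hcl])
    have h2 : hammingDist (c a) (c a') ≤ (insert l (T a ∪ T a')).card := by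
      refine card_le_card fun r hr => ?_
      simp only [mem_filter, mem_univ, true_and] at hr
      simp only [mem_insert, mem_union, hT]
      by_cases e : r = l
      · exact Or.inl e
      · by_cases e' : c a r = z r
        · exact Or.inr (Or.inr ⟨e, fun h => hr (e'.trans h.symm)⟩)
        · exact Or.inr (Or.inl ⟨e, e'⟩)
    have h3 := card_insert_le l (T a ∪ T a')
    have h4 := hle _ _ (hFT a) (hFT a')
    omega
  have tri : ∀ r, r ≠ l → (∀ a, r ∉ T a) ∨
      (∃ a1, (∀ b, b ≠ a1 → r ∉ T b) ∧ Q3 (cpl C F z r l) (c a1 r) a1) ∨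
      (r ∈ V ∧ ∀ a a', r ∉ T a → r ∉ T a' → a = a') := by
    intro r hr
    have hW : ∀ a, cpl C F z r l (c a r) a (nz (c a r) (z r)) false := fun a =>
      ⟨c a, hc a, T a, hFT a, rfl, hcl a, by simp [hT, nz, hr], by simp [hlT],
        fun r' _ h => by simp [hT, h]⟩
    rcases hCK _ (z r) (fun a => c a r) ((hS C F hC z).2.1 r l hr) hW with
      h | ⟨a1, h, h'⟩ | ⟨a0, a1, -, -, -, -, -, -, h⟩ | ⟨τ, h, h'⟩
    · exact Or.inl fun a ha => ((hT a r).1 ha).2 (h a)
    · exact Or.inr (Or.inl ⟨a1, fun b hb hb' => ((hT b r).1 hb').2 (h.1 b hb), h'⟩)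
    · have u : cpl C F z r l (c a0 r) a0 false false :=
        ⟨c a0, hc a0, (T a0).erase r, down _ _ (erase_subset _ _) (hFT a0), rfl, hcl a0,
          by simp, by simp [hlT], fun r' h h' => by simp [hT, h, h']⟩
      simpa using (h _ _ _ _).1 u
    · have hm : ∀ a, r ∉ T a → τ a = z r := fun a ha => by
        by_contra e
        exact ha ((hT a r).2 ⟨hr, fun e' => e ((h a).symm.trans e')⟩)
      refine Or.inr (Or.inr ⟨?_, fun a a' ha ha' =>
        τ.injective ((hm a ha).trans (hm a' ha').symm)⟩)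
      by_contra hrV
      obtain ⟨c', hc', V', hV', e1, e2, e3, -, e5⟩ :
        cpl C F z r l (z r) (z l) true false := (h' _ _ _ _).2 ⟨(hm _ (hT0 ▸ hrV)).symm, rfl⟩
      have sub : df c' z ⊆ V' := fun r' hr' => by
        rw [mem_df] at hr'
        exact (e5 r' (fun e => hr' (e ▸ e1)) fun e => hr' (e ▸ e2)).2 hr'
      have e : c' = c0 := uniq z _ hc' _ hc0 (down _ _ sub hV') (hz ▸ hV)
      rw [e, hz] at sub
      exact hmax r hrV (down _ _ (insert_subset (e3.2 rfl) sub) hV')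
  obtain ⟨P, hP⟩ : ∃ P : Finset ι, ∀ r, r ∈ P ↔ r ∈ V ∧ ∀ a, a ≠ z l → r ∉ T a :=
    ⟨V.filter fun r => ∀ a, a ≠ z l → r ∉ T a, fun r => by simp⟩
  have hPV : P ⊆ V := fun r hr => ((hP r).1 hr).1
  have hne : ∀ r ∈ V, r ≠ l := fun r hr e => hl (e ▸ hr)
  have dis : ∀ a a', a ≠ a' → Disjoint (T a \ V) (T a' \ V) := by
    intro a a' h
    rw [Finset.disjoint_left]
    intro r h1 h2
    rw [mem_sdiff] at h1 h2
    rcases tri r ((hT a r).1 h1.1).1 with h3 | ⟨a1, h3, -⟩ | ⟨h3, -⟩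
    · exact h3 a h1.1
    · by_cases e : a = a1
      · exact h3 a' (fun e' => h (e.trans e'.symm)) h2.1
      · exact h3 a e h1.1
    · exact h1.2 h3
  have hN : ∀ j ∈ V \ P, ∀ a a', j ∉ T a → j ∉ T a' → a = a' := by
    intro j hj
    rw [mem_sdiff, hP] at hj
    have hj0 : j ∈ T (z l) := hT0 ▸ hj.1
    rcases tri j (hne j hj.1) with h3 | ⟨a1, h3, -⟩ | ⟨-, h3⟩
    · exact absurd hj0 (h3 _)
    · refine absurd ⟨hj.1, fun a ha => h3 a fun e => ?_⟩ hj.2
      exact h3 (z l) (fun e' => ha (e.trans e'.symm)) hj0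
    · exact h3
  have hn : ∀ a, a ≠ z l → V.card + (T a \ V).card = J := by
    intro a ha
    have := (two a (z l) ha).2
    rw [hT0, ← card_sdiff_add_card] at this
    omega
  have hn' : ∀ a, a ≠ z l → (T a \ V).card = P.card := by
    intro a ha
    obtain ⟨a', e1, e2⟩ := exists_ne2 (by omega) (z l) a
    have e : T a ∪ T a' = (V \ P) ∪ ((T a \ V) ∪ (T a' \ V)) := by
      ext r
      have k1 := hN r
      have k2 := hP r
      simp only [mem_union, mem_sdiff] at k1 ⊢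
      constructor
      · rintro (h | h) <;> by_cases hr : r ∈ V
        · exact Or.inl ⟨hr, fun hp => (k2.1 hp).2 a ha h⟩
        · exact Or.inr (Or.inl ⟨h, hr⟩)
        · exact Or.inl ⟨hr, fun hp => (k2.1 hp).2 a' e1 h⟩
        · exact Or.inr (Or.inr ⟨h, hr⟩)
      · rintro (h | h | h)
        · by_contra! h'
          exact e2 (k1 h a' a h'.2 h'.1)
        · exact Or.inl h.1
        · exact Or.inr h.1
    have d : Disjoint (V \ P) ((T a \ V) ∪ (T a' \ V)) := by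
      rw [Finset.disjoint_left]
      intro r h1 h2
      simp only [mem_union, mem_sdiff] at h1 h2
      tauto
    have h1 := (two a a' e2.symm).2
    rw [e, card_union_of_disjoint d, card_union_of_disjoint (dis a a' e2.symm)] at h1
    have h2 := hn a ha
    have h3 := hn a' e1
    have h4 := card_sdiff_add_card_eq_card hPV
    omega
  obtain ⟨a, ha⟩ := exists_ne1 (by omega) (z l)
  refine ⟨⟨_, hc a, _, hc (z l), (two a _ ha).1⟩, P, T, z l, hPV, by rw [← hn' a ha, hn a ha],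
    fun j hj => ?_, fun a ha => ⟨hFT a, hlT a, ?_, hn' a ha⟩, fun a a' _ _ h => dis a a' h,
    fun j hj a a' _ _ => hN j hj a a'⟩
  · rw [hP] at hj
    have hjl := hne j hj.1
    have hj0 : j ∈ T (z l) := hT0 ▸ hj.1
    rcases tri j hjl with h3 | ⟨a1, h3, h4⟩ | ⟨-, h3⟩
    · exact absurd hj0 (h3 _)
    · obtain rfl : z l = a1 := by
        by_contra e
        exact h3 _ e hj0
      rw [hca0] at h4
      obtain ⟨c', hc', V', hV', e1, e2, -, e4, e5⟩ :
        cpl C F z j l (c0 j) (z l) false true := (h4 _ _ _ _).2 (by simp)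
      have e : c' = c0 := by
        refine uniq (update z j (c0 j)) _ hc' _ hc0 (down _ _ (fun r hr => ?_) hV')
          (down _ _ (fun r hr => ?_) hV)
        · rw [mem_df] at hr
          have h1 : r ≠ j := by
            rintro rfl
            exact hr (by rw [update_self, e1])
          rw [update_of_ne h1] at hr
          exact (e5 r h1 fun e => hr (e ▸ e2)).2 hr
        · rw [mem_df] at hr
          have h1 : r ≠ j := by
            rintro rfl
            exact hr (by rw [update_self])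
          rw [update_of_ne h1] at hr
          exact hz ▸ mem_df.2 hr
      refine down _ _ (insert_subset (e4.2 rfl) fun r hr => ?_) hV'
      rw [mem_erase] at hr
      refine (e5 r hr.1 (hne r hr.2)).2 ?_
      rw [e, ← mem_df, hz]
      exact hr.2
    · obtain ⟨b, b1, b2⟩ := exists_ne2 (by omega) (z l) a
      exact absurd (h3 b a (hj.2 b b1) (hj.2 a ha)) b2
  · rw [Finset.disjoint_left]
    exact fun r h1 h2 => ((hP r).1 h2).2 a ha h1

end Pool.Agent.MP_92191b_al.K3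

end

section

/-! Switching a coordinate. -/

set_option linter.unusedSectionVars false

namespace Pool.Agent.MP_92191b_al.K3

open Finset Function Equiv K6 X

variable {ι : Type} [Fintype ι] [DecidableEq ι]

namespace Sw

open Classical in
/-- The label of a fibre. -/
noncomputable def lab (S : Set α) (z : α) : α :=
  if h : ∃ b, S = {b} ∨ S = {b}ᶜ then h.choose else z

theorem lab_unique (hk : 3 ≤ Fintype.card α) {S : Set α} {b b' : α} (h : S = {b} ∨ S = {b}ᶜ)
    (h' : S = {b'} ∨ S = {b'}ᶜ) : b = b' := by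
  obtain ⟨x, hx, hx'⟩ := exists_ne2 hk b b'
  rcases h with rfl | rfl <;> rcases h' with h' | h'
  · exact Set.singleton_injective h'
  · have : x ∈ ({b} : Set α) := by rw [h']; exact hx'
    exact absurd this hx
  · have : x ∈ ({b'} : Set α) := by rw [← h']; exact hx
    exact absurd this hx'
  · exact Set.singleton_injective (compl_injective h')

theorem lab_eq (hk : 3 ≤ Fintype.card α) {S : Set α} {b : α} (z : α) (h : S = {b} ∨ S = {b}ᶜ) :
    lab S z = b := by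
  have h0 : ∃ b, S = {b} ∨ S = {b}ᶜ := ⟨b, h⟩
  rw [lab, dif_pos h0]
  exact lab_unique hk h0.choose_spec h

theorem fib_update (D : Finset (ι → α)) (j : ι) (x : ι → α) (v : α) :
    Fib D j (update x j v) = Fib D j x := by
  ext w; simp [Fib]

/-- The switching map. -/
noncomputable def sm (D : Finset (ι → α)) (j : ι) (z : α) (x : ι → α) : ι → α :=
  update x j (swap (lab (Fib D j x) z) z (x j))

theorem sm_update (D : Finset (ι → α)) (j : ι) (z : α) (x : ι → α) (v : α) :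
    sm D j z (update x j v) = update x j (swap (lab (Fib D j x) z) z v) := by
  simp [sm, fib_update]

theorem sm_sm (D : Finset (ι → α)) (j : ι) (z : α) (x : ι → α) : sm D j z (sm D j z x) = x := by
  conv_lhs => rw [sm.eq_1 D j z x, sm_update]
  simp

theorem sm_inj (D : Finset (ι → α)) (j : ι) (z : α) : Injective (sm D j z) :=
  Function.LeftInverse.injective (sm_sm D j z)

theorem sm_ne (D : Finset (ι → α)) {j r : ι} (z : α) (x : ι → α) (h : r ≠ j) :
    sm D j z x r = x r := by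
  simp [sm, h]

theorem fib_sm (D : Finset (ι → α)) (j : ι) (z : α) (x : ι → α) :
    Fib D j (sm D j z x) = Fib D j x := fib_update _ _ _ _

theorem mem_sw {D : Finset (ι → α)} {j : ι} {z : α} {x : ι → α} :
    x ∈ D.image (sm D j z) ↔ sm D j z x ∈ D := by
  rw [mem_image]
  constructor
  · rintro ⟨y, hy, rfl⟩; rwa [sm_sm]
  · exact fun h => ⟨_, h, sm_sm _ _ _ _⟩

theorem mem_fib_sw {D : Finset (ι → α)} {j : ι} {z : α} {x : ι → α} {v : α} :
    v ∈ Fib (D.image (sm D j z)) j x ↔ swap (lab (Fib D j x) z) z v ∈ Fib D j x := by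
  change update x j v ∈ D.image (sm D j z) ↔ _
  rw [mem_sw, sm_update]; rfl

theorem swRel (hk : 3 ≤ Fintype.card α) (D : Finset (ι → α)) (j : ι) (z : α) :
    SwRel D (D.image (sm D j z)) j z := by
  intro x
  refine ⟨fun h => ?_, fun h => ?_, fun b h => ?_, fun b h => ?_⟩ <;> ext v <;> rw [mem_fib_sw]
  · rw [h]; simp
  · rw [h]; simp
  · rw [lab_eq hk z (Or.inl h), h]; simp [swap_apply_eq_iff]
  · rw [lab_eq hk z (Or.inr h), h]; simp [swap_apply_eq_iff]

theorem dist_comp (π : Perm ι) (d d' : ι → α) :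
    hammingDist (d ∘ π) (d' ∘ π) = hammingDist d d' := by
  unfold hammingDist
  refine card_bij (fun i _ => π i) (by simp) (by simp) fun b hb => ⟨π.symm b, ?_, by simp⟩
  simpa using hb

theorem comp_inj (π : Perm ι) : Injective fun d : ι → α => d ∘ π := fun _ _ h =>
  π.surjective.injective_comp_right h

theorem gp_comp {C D : Finset (ι → α)} (h : GQ C D) (π : Perm ι) :
    GQ C (D.image fun d => d ∘ π) where
  sep c hc c' hc' d hd d' hd' he := by
    obtain ⟨e, he1, rfl⟩ := mem_image.1 hd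
    obtain ⟨e', he2, rfl⟩ := mem_image.1 hd'
    exact h.sep c hc c' hc' e he1 e' he2 (he.trans (dist_comp π e e'))
  big := by rw [card_image_of_injective _ (comp_inj π)]; exact h.big
  no1 := h.no1
  nox := by
    have e : (fun c d => c ∈ C ∧ d ∈ D.image fun d => d ∘ π) =
        fun c d : ι → α => c ∘ (1 : Perm ι) ∈ C ∧ d ∘ π.symm ∈ D := by
      funext c d
      refine congrArg (c ∈ C ∧ ·) (propext ?_)
      rw [← (comp_inj π).mem_finset_image (s := D), comp_assoc, Equiv.symm_comp_self, comp_id]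
    rw [e]
    exact h.nox.frame 1 π.symm
  nex he := by
    have e : ∀ s, HasD (D.image fun d => d ∘ π) s → HasD D s := by
      rintro s ⟨x, hx, y, hy, rfl⟩
      obtain ⟨x, hx', rfl⟩ := mem_image.1 hx
      obtain ⟨y, hy', rfl⟩ := mem_image.1 hy
      exact ⟨x, hx', y, hy', (dist_comp π x y).symm⟩
    exact h.nex ⟨he.1, he.2.imp (fun a => ⟨a.1, e _ a.2.1, e _ a.2.2⟩)
      fun a => ⟨a.1, a.2.1, e _ a.2.2⟩⟩

theorem fib_comp (D : Finset (ι → α)) (π : Perm ι) (j : ι) (d : ι → α) :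
    Fib (D.image fun d => d ∘ π) (π.symm j) (d ∘ π) = Fib D j d := by
  ext v
  change update (d ∘ π) (π.symm j) v ∈ D.image (fun d => d ∘ π) ↔ update d j v ∈ D
  rw [← update_comp_equiv]
  exact (comp_inj π).mem_finset_image

theorem sep_sw (hL : StmtLab ι) (hk : 3 ≤ Fintype.card α) {C D : Finset (ι → α)} (h : GQ C D)
    (j : ι) (z : α) : K6.Sep C (D.image (sm D j z)) := by
  intro c hc c' hc' x hx x' hx' he
  rw [mem_sw] at hx hx'
  obtain ⟨σ, π, h1, h2⟩ := exists_wreath he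
  have key : ∀ c y : ι → α, (fun i => σ i (y (π i))) = c →
      ∀ r, r ≠ π.symm j → c r = σ r ((sm D j z y ∘ π) r) := by
    rintro c y rfl r hr
    have : π r ≠ j := fun e => hr (by rw [← e]; simp)
    simp [sm_ne D z y this]
  have hlab : lab (Fib D j x) z = lab (Fib D j x') z := by
    have m1 := mem_image_of_mem (fun d : ι → α => d ∘ π) hx
    have m2 := mem_image_of_mem (fun d : ι → α => d ∘ π) hx'
    rcases hL C _ (gp_comp h π) σ (π.symm j) with H | ⟨b, H⟩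
    · have a1 := H c hc _ m1 (key c x h1)
      have a2 := H c' hc' _ m2 (key c' x' h2)
      rw [fib_comp, fib_sm] at a1 a2
      rw [a1, a2]
    · have a1 := H c hc _ m1 (key c x h1)
      have a2 := H c' hc' _ m2 (key c' x' h2)
      rw [fib_comp, fib_sm] at a1 a2
      rw [lab_eq (by omega) z a1, lab_eq (by omega) z a2]
  refine h.sep c hc c' hc' _ hx _ hx' (he.trans ?_)
  unfold hammingDist
  congr 1
  refine filter_congr fun i _ => ?_
  by_cases hi : i = j
  · subst hi; simp [sm, hlab]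
  · rw [sm_ne D z x hi, sm_ne D z x' hi]

theorem mem_iff_fib {D : Finset (ι → α)} {j : ι} {z : α} {x : ι → α} (h : x j = z) :
    x ∈ D ↔ z ∈ Fib D j x := by
  subst h; simp [Fib]

end Sw

open Sw in
theorem sw0 (hL : StmtLab ι) (h2 : StmtSw2 ι) : StmtSw0 ι := by
  classical
  intro C D h j z hex
  have hk := hk3
  have hR := swRel hk3 D j z
  refine ⟨D.image (sm D j z), ⟨sep_sw hL hk h j z, ?_, h.no1⟩, hR, fun r v hr => ?_, ?_⟩
  · rw [card_image_of_injective _ (sm_inj D j z)]; exact h.big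
  · rw [filter_image, card_image_of_injective _ (sm_inj D j z)]
    congr 1
    exact filter_congr fun x _ => by rw [sm_ne D z x hr]
  · have hlt := h2 C D h j z hex
    obtain ⟨c, hc⟩ : C.Nonempty := by
      rw [← card_pos]
      have h1 : 0 < Fintype.card α ^ Fintype.card ι := pow_pos (by omega) _
      exact Nat.pos_of_mul_pos_right (h1.trans_le h.big)
    set A := D.filter fun d => d j = z with hA
    set B := (D.image (sm D j z)).filter fun d => d j = z with hB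
    have e1 : (A \ B).card ≤ (univ.filter fun x : ι → α =>
        x j = z ∧ ∃ b, b ≠ z ∧ Fib D j x = {b}ᶜ).card := by
      refine card_le_card fun x hx => ?_
      simp only [hA, hB, mem_sdiff, mem_filter, not_and] at hx
      obtain ⟨⟨hxD, hxj⟩, hx'⟩ := hx
      have hn : z ∉ Fib (D.image (sm D j z)) j x := fun e => hx' ((mem_iff_fib hxj).2 e) hxj
      have hz := (mem_iff_fib hxj).1 hxD
      refine mem_filter.2 ⟨mem_univ _, hxj, ?_⟩
      rcases hL C D h (fun r => swap (x r) (c r)) j with H | ⟨b, H⟩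
      · have := H c hc x hxD (by simp)
        exact absurd (by rw [(hR x).2.1 this]; trivial) hn
      · rcases H c hc x hxD (by simp) with H | H
        · exact absurd (by rw [(hR x).2.2.1 b H]; rfl) hn
        · refine ⟨b, fun e => ?_, H⟩
          rw [H] at hz; exact hz e.symm
    have e2 : (univ.filter fun x : ι → α =>
        x j = z ∧ ∃ b, b ≠ z ∧ Fib D j x = {b}).card ≤ (B \ A).card := by
      refine card_le_card fun x hx => ?_
      obtain ⟨-, hxj, b, hb, H⟩ := mem_filter.1 hx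
      simp only [hA, hB, mem_sdiff, mem_filter, not_and]
      refine ⟨⟨(mem_iff_fib hxj).2 (by rw [(hR x).2.2.1 b H]; rfl), hxj⟩, fun hxD _ => ?_⟩
      have hz := (mem_iff_fib hxj).1 hxD
      rw [H] at hz; exact hb hz.symm
    have e3 := card_sdiff_add_card_inter A B
    have e4 := card_sdiff_add_card_inter B A
    rw [inter_comm] at e4
    have e5 : (A \ B).card < (B \ A).card := e1.trans_lt (lt_of_lt_of_le (by convert hlt) e2)
    omega

end Pool.Agent.MP_92191b_al.K3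

end
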