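import Pool.Agent.MP_92191b_al.K3.Defs2
import Pool.Agent.MP_92191b_al.K3.ClsA
import Pool.Agent.MP_92191b_al.K3.ClsB
import Pool.Agent.MP_92191b_al.K6.Basic
import Pool.Agent.Mg.F92191bp.G94466a
import Pool.Agent.Mg.F92191bp.G07c6ed
import Pool.Agent.MP_92191b_al.K3.F4
import Pool.Agent.MP_92191b_al.K3.Phi6
import Pool.Agent.Mg.F92191bp.G689315
import Pool.Agent.MP_92191b_al.K6.CSec
import Pool.Agent.MP_92191b_al.K6.SecT
import Pool.Agent.MP_92191b_al.K3.HDefs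
import Pool.Agent.MP_92191b_al.K3.HAsm

section

/-! A line with two singles at different positions. -/

set_option linter.unusedSectionVars false

namespace Pool.Agent.MP_92191b_al.K3

open Finset Function Equiv K6 X

variable {ι : Type} [Fintype ι] [DecidableEq ι]

namespace Alpha

theorem cell_of_rline {T : Rel2 ι α} {σ : ι → Perm α} {j : ι} {x : α} {c d : α → ι → α}
    (h : RLine T σ j x c d) (i : ι) (b : α) : Cell T σ i j (c b) (d b) :=
  ⟨(h b).1, fun r _ hj => (h b).2.2.2 r hj⟩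

theorem cell_of_rline' {T : Rel2 ι α} {σ : ι → Perm α} {j : ι} {x : α} {c d : α → ι → α}
    (h : RLine T σ j x c d) (i : ι) (b : α) : Cell T σ j i (c b) (d b) :=
  ⟨(h b).1, fun r hj _ => (h b).2.2.2 r hj⟩

theorem lem0 (hR : StmtGRL ι) {T : Rel2 ι α}
    (hT : Good T) {σ : ι → Perm α} {i j l : ι} {x b1 wi b b' : α} {c d : α → ι → α}
    (hij : i ≠ j) (hL : RLine T σ j x c d)
    (hs : Single (fun b => d b i) b1 wi) (hb : b ≠ b1) (hb' : b' ≠ b1)
    (hne : d b l ≠ d b' l) : Is4 (pl T σ i j) (σ i wi) x (d b1 i) b1 := by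
  have e1 : d b i = wi := hs.1 b hb
  have e2 : d b' i = wi := hs.1 b' hb'
  have e3 : d b1 i ≠ wi := hs.2
  rcases hR T hT σ i j x c d hij hL with ⟨w, hw⟩ | ⟨b0, w, hs', h⟩ | ⟨τ, hτ, -⟩
  · exact absurd ((hw b1).trans ((hw b).symm.trans e1)) e3
  · obtain ⟨z, hz0, hz1⟩ := exists_ne2 (α := α) hk3 b0 b1
    have hw : w = wi := (hs'.1 z hz0).symm.trans (hs.1 z hz1)
    subst hw
    have hb0 : b1 = b0 := by
      by_contra hne'
      exact e3 (hs'.1 b1 hne')
    subst hb0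
    exact h
  · have : b = b' := τ.injective ((hτ b).symm.trans (e1.trans (e2.symm.trans (hτ b'))))
    exact absurd (by rw [this]) hne

/-- The colouring of a cross plane is of the first kind with arm colour `m` as soon as a far cell
and an arm cell have colour `m` and some far cell has another colour. -/
theorem colour (hF : StmtGF ι) {T : Rel2 ι α} (hT : Good T)
    {σ : ι → Perm α} {i j r : ι} {x1 x2 y1 y2 m : α} (hij : i ≠ j) (hri : r ≠ i) (hrj : r ≠ j)
    (h4 : Is4 (pl T σ i j) x1 x2 y1 y2) {c0 d0 c1 d1 c2 d2 : ι → α}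
    (f0 : Far T σ i j y1 y2 c0 d0) (f1 : Far T σ i j y1 y2 c1 d1)
    (f2 : Arm T σ i j x1 x2 y1 y2 c2 d2) (e0 : d0 r ≠ m) (e1 : d1 r = m) (e2 : d2 r = m) :
    (∀ c d, Arm T σ i j x1 x2 y1 y2 c d → d r = m) ∧
      ∀ c d c' d', Far T σ i j y1 y2 c d → Far T σ i j y1 y2 c' d' →
        d i = d' i ∨ d j = d' j → d r ≠ m → d' r ≠ m → d = d' := by
  rcases hF T hT σ i j r x1 x2 y1 y2 hij hri hrj h4 with ⟨μ, hμ⟩ | ⟨m', hm, h⟩
  · exact absurd ((hμ _ _ f0).trans ((hμ _ _ f1).symm.trans e1)) e0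
  · have : m' = m := (hm _ _ f2).symm.trans e2
    subst this
    rcases h with h | ⟨-, h⟩
    · exact ⟨hm, h⟩
    · exact absurd e1 (h _ _ f1)

end Alpha

open Alpha in
theorem alpha (hS : StmtSec ι α) (hR : StmtGRL ι) (hF : StmtGF ι) : StmtAlpha ι := by
  intro T hT σ i j l x b1 b2 wi wl c d hij hlj hil hb hL hsi hsl
  obtain ⟨b3, hb31, hb32⟩ := exists_ne2 (α := α) hk3 b1 b2
  have hi : ∀ b, b ≠ b1 → d b i = wi := hsi.1
  have hi1 : d b1 i ≠ wi := hsi.2
  have hl : ∀ b, b ≠ b2 → d b l = wl := hsl.1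
  have hl2 : d b2 l ≠ wl := hsl.2
  have hA : Is4 (pl T σ i j) (σ i wi) x (d b1 i) b1 :=
    lem0 (l := l) hR hT hij hL hsi hb.symm hb31 (by rw [hl b3 hb32]; exact hl2)
  have hB : Is4 (pl T σ l j) (σ l wl) x (d b2 l) b2 :=
    lem0 (l := i) hR hT hlj hL hsl hb hb32 (by rw [hi b3 hb31]; exact hi1)
  have hB' : Is4 (pl T σ j l) x (σ l wl) b2 (d b2 l) := by
    rw [pl_flp T σ l j]; exact hB.flp
  refine ⟨by rw [pl_flp T σ i j]; exact hA.flp, fun τ hτ => ?_⟩
  have far0 : ∀ b, b ≠ b2 → Far T σ j l b2 (d b2 l) (c b) (d b) := fun b hb2 =>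
    ⟨cell_of_rline' hL l b, by rw [(hL b).2.2.1]; exact hb2, by rw [hl b hb2]; exact hl2.symm⟩
  have arm0 : Arm T σ j l x (σ l wl) b2 (d b2 l) (c b2) (d b2) :=
    ⟨cell_of_rline' hL l b2, (hL b2).2.2.1, rfl, Or.inr (by
      rw [(hL b2).2.2.2 l hlj]
      exact fun h => hl2 ((σ l).injective h))⟩
  obtain ⟨hArm, hFar⟩ := colour (m := wi) hF hT hlj.symm hij hil hB' (far0 b1 hb)
    (far0 b3 hb32) arm0 hi1 (hi b3 hb31) (hi b2 hb.symm)
  have hex : ∀ v, ∃ c' d' : ι → α, Cell T σ j l c' d' ∧ c' l = σ l wl ∧ d' l = v ∧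
      c' j = τ (d' j) ∧ (v ≠ d b2 l → d' j = b1) ∧ (v = d b2 l → d' j = b2) := by
    intro v
    by_cases hv : v = d b2 l
    · obtain ⟨c', d', hc, e1, e2, e3, e4⟩ :=
        (hB' (τ b2) (σ l wl) b2 v).2 (Or.inr ⟨Or.inr rfl, rfl, hv⟩)
      exact ⟨c', d', hc, e2, e4, by rw [e1, e3], fun h => absurd hv h, fun _ => e3⟩
    · obtain ⟨c', d', hc, e1, e2, e3, e4⟩ :=
        (hB' x (σ l wl) b1 v).2 (Or.inl ⟨rfl, rfl, hb, hv⟩)
      exact ⟨c', d', hc, e2, e4, by rw [e1, e3, hτ], fun _ => e3, fun h => absurd h hv⟩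
  choose c' d' hc hcl hdl hcj hj1 hj2 using hex
  have hL' : RLine T (update σ j τ) l (σ l wl) c' d' := by
    intro v
    refine ⟨(hc v).1, hcl v, hdl v, fun r hr => ?_⟩
    by_cases hrj : r = j
    · subst hrj
      rw [update_self]; exact hcj v
    · rw [update_of_ne hrj]; exact (hc v).2 r hrj hr
  have hw : d' wl = d b1 := by
    refine ((hS T hT.tight σ j l hlj.symm).2.1 _ _ _ _ (hc wl) (cell_of_rline' hL l b1) ?_).2
    rw [hcj wl, hj1 wl hl2.symm, hτ, (hL b1).2.1, hcl wl, (hL b1).2.2.2 l hlj, hl b1 hb, hdl wl,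
      (hL b1).2.2.1]
    simp
  have far1 : ∀ v, v ≠ d b2 l → Far T σ j l b2 (d b2 l) (c' v) (d' v) := fun v hv =>
    ⟨hc v, by rw [hj1 v hv]; exact hb, by rw [hdl v]; exact hv⟩
  have hwi : ∀ v, v ≠ wl → d' v i = wi := by
    intro v hv
    by_cases hv2 : v = d b2 l
    · refine hArm _ _ ⟨hc v, hj2 v hv2, (hdl v).trans hv2, Or.inl ?_⟩
      rw [hcj v, hj2 v hv2, ← hτ]
      exact fun h => hb (τ.injective h).symm
    · by_contra hne
      have := hFar _ _ _ _ (far1 v hv2) (far1 wl hl2.symm)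
        (Or.inl ((hj1 v hv2).trans (hj1 wl hl2.symm).symm)) hne (by rw [hw]; exact hi1)
      exact hv (by rw [← hdl v, this, hdl wl])
  have hs' : Single (fun v => d' v i) wl wi := ⟨hwi, by simpa only [hw] using hi1⟩
  obtain ⟨v3, hv31, hv32⟩ := exists_ne2 (α := α) hk3 wl (d b2 l)
  have hC : Is4 (pl T (update σ j τ) i l) (σ i wi) (σ l wl) (d b1 i) wl := by
    have := lem0 (l := j) hR hT hil hL' hs' hl2 hv31
      (by rw [hj2 _ rfl, hj1 v3 hv32]; exact hb.symm)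
    rwa [update_of_ne hij, hw] at this
  have far2 : ∀ v, v ≠ wl → Far T (update σ j τ) i l (d b1 i) wl (c' v) (d' v) := fun v hv =>
    ⟨cell_of_rline hL' i v, by rw [hwi v hv]; exact hi1.symm, by rw [hdl v]; exact hv⟩
  have hG : d' (d b2 l) j ≠ b1 := by rw [hj2 _ rfl]; exact hb.symm
  have arm2 : Arm T (update σ j τ) i l (σ i wi) (σ l wl) (d b1 i) wl (c' wl) (d' wl) :=
    ⟨cell_of_rline hL' i wl, by rw [hw], hdl wl, Or.inl (by
      rw [(hL' wl).2.2.2 i hil, update_of_ne hij, hw]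
      exact fun h => hi1 ((σ i).injective h))⟩
  obtain ⟨hArm', hFar'⟩ := colour (m := b1) hF hT hil hij.symm hlj.symm hC (far2 _ hl2)
    (far2 v3 hv31) arm2 hG (hj1 v3 hv32) (hj1 wl hl2.symm)
  refine ⟨hC, hArm', ⟨c' (d b2 l), d' (d b2 l), cell_of_rline hL' i _, hwi _ hl2, hdl _,
    hj2 _ rfl⟩, fun c'' d'' hf h => ?_⟩
  by_cases hj : d'' j = b1
  · exact Or.inl hj
  · have := hFar' _ _ _ _ hf (far2 _ hl2) (by rw [hwi _ hl2, hdl]; exact h) hj hG
    exact Or.inr ⟨by rw [this]; exact hwi _ hl2, by rw [this]; exact hdl _⟩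

end Pool.Agent.MP_92191b_al.K3

end

section

/-! Classification of centred planes. -/

set_option linter.unusedSectionVars false

namespace Pool.Agent.MP_92191b_al.K3

open Finset Function Equiv K6 X

variable {ι : Type} [Fintype ι] [DecidableEq ι]

namespace CP

theorem nq_zero {β : Type} [DecidableEq β] {a b : β} (h : nq a b = 0) : a = b := by
  by_contra h'
  rw [nq_of_ne h'] at h
  omega

theorem nz_false {a b : α} : nz a b = false ↔ a = b := by simp [nz]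

theorem nz_true {a b : α} : nz a b = true ↔ a ≠ b := by simp [nz]

theorem plane {W : W2 α} (hW : CPlane W) (o : α) :
    Plane fun c1 c2 d1 d2 : α => W c1 c2 (nz d1 o) (nz d2 o) where
  sep c1 c2 d1 d2 c1' c2' d1' d2' h1 h2 he := by
    have a1 := nz_le_nq d1 d1' o
    have a2 := nz_le_nq d2 d2' o
    have b1 := nq_le_bo d1 d1' o
    have b2 := nq_le_bo d2 d2' o
    obtain ⟨e1, e2⟩ := hW.sep _ _ _ _ _ _ _ _ h1 h2 (by omega) (by omega)
    subst e1 e2
    rw [nq_self, nq_self] at he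
    exact ⟨rfl, rfl, nq_zero (by omega), nq_zero (by omega)⟩
  ex σ1 σ2 := by
    obtain ⟨c1, c2, h⟩ := hW.ex (σ1 o) (σ2 o)
    obtain ⟨d1, rfl⟩ := σ1.surjective c1
    obtain ⟨d2, rfl⟩ := σ2.surjective c2
    refine ⟨d1, d2, ?_⟩
    simpa [nz] using h

theorem pin (hk : 3 ≤ Fintype.card α) {B : Bool → Prop} {o y : α}
    (h : ∀ d, B (nz d o) ↔ d = y) : y = o := by
  by_contra hy
  obtain ⟨d, h1, h2⟩ := exists_ne2 hk o y
  have h3 := (h y).2 rfl
  rw [nz_of_ne hy, ← nz_of_ne h1] at h3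
  exact h2 ((h d).1 h3)

end CP

open CP

theorem cp (h : StmtCls3) : StmtCP := by
  intro W hW
  have hk3 := hk3
  have hk2 : 2 ≤ Fintype.card α := by omega
  obtain ⟨o⟩ : Nonempty α := Fintype.card_pos_iff.1 (by omega)
  obtain ⟨o', ho⟩ := exists_ne1 hk2 o
  have hδ : ∀ t : Bool, ∃ d : α, nz d o = t := fun t => by
    cases t
    · exact ⟨o, nz_self o⟩
    · exact ⟨o', nz_of_ne ho⟩
  rcases h _ (plane hW o) with ⟨x1, x2, H⟩ | ⟨y1, y2, H⟩ | ⟨x1, x2, y1, y2, H⟩ |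
    ⟨x1, x2, y1, y2, H⟩ | ⟨τ, y, H⟩ | ⟨τ, y, H⟩ | ⟨τ, x, H⟩ | ⟨τ, x, H⟩ |
    ⟨a0, a1, x0, x1, y1, y2, ha, hx, H⟩ | ⟨a0, a1, x0, x1, y1, y2, ha, hx, H⟩ |
    ⟨s1, s2, t1, t2, H⟩
  · refine Or.inl ⟨x1, x2, fun c1 c2 t1 t2 => ?_⟩
    obtain ⟨d1, rfl⟩ := hδ t1
    obtain ⟨d2, rfl⟩ := hδ t2
    exact H c1 c2 d1 d2
  · have e1 : y1 = o := pin hk3 (B := fun t => W o o t (nz y2 o)) fun d =>
      (H o o d y2).trans (by simp)
    have e2 : y2 = o := pin hk3 (B := fun t => W o o (nz y1 o) t) fun d =>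
      (H o o y1 d).trans (by simp)
    refine Or.inr (Or.inl fun c1 c2 t1 t2 => ?_)
    obtain ⟨d1, rfl⟩ := hδ t1
    obtain ⟨d2, rfl⟩ := hδ t2
    rw [nz_false, nz_false]
    rw [e1, e2] at H
    exact H c1 c2 d1 d2
  · obtain ⟨u1, hu1⟩ := exists_ne1 hk2 x1
    obtain ⟨u2, hu2⟩ := exists_ne1 hk2 x2
    have e1 : y1 = o := pin hk3 (B := fun t => W u1 u2 t (nz y2 o)) fun d =>
      (H u1 u2 d y2).trans (by simp [hu1, hu2])
    have e2 : y2 = o := pin hk3 (B := fun t => W u1 u2 (nz y1 o) t) fun d =>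
      (H u1 u2 y1 d).trans (by simp [hu1, hu2])
    refine Or.inr (Or.inr (Or.inl ⟨x1, x2, fun c1 c2 t1 t2 => ?_⟩))
    obtain ⟨d1, rfl⟩ := hδ t1
    obtain ⟨d2, rfl⟩ := hδ t2
    rw [nz_false, nz_false]
    rw [e1, e2] at H
    exact H c1 c2 d1 d2
  · obtain ⟨u2, hu2⟩ := exists_ne1 hk2 x2
    have e1 : y1 = o := pin hk3 (B := fun t => W x1 u2 t (nz y2 o)) fun d =>
      (H x1 u2 d y2).trans (by simp [hu2])
    have e2 : y2 = o := pin hk3 (B := fun t => W x1 u2 (nz y1 o) t) fun d =>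
      (H x1 u2 y1 d).trans (by simp [hu2])
    refine Or.inr (Or.inr (Or.inr (Or.inl ⟨x1, x2, fun c1 c2 t1 t2 => ?_⟩)))
    obtain ⟨d1, rfl⟩ := hδ t1
    obtain ⟨d2, rfl⟩ := hδ t2
    rw [nz_false, nz_false, nz_true, nz_true]
    rw [e1, e2] at H
    exact H c1 c2 d1 d2
  · have e1 : y = o := pin hk3 (B := fun t => W (τ o) o t (nz o o)) fun d =>
      (H (τ o) o d o).trans (by simp)
    refine Or.inr (Or.inr (Or.inr (Or.inr (Or.inl ⟨τ, fun c1 c2 t1 t2 => ?_⟩))))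
    obtain ⟨d1, rfl⟩ := hδ t1
    obtain ⟨d2, rfl⟩ := hδ t2
    rw [nz_false]
    rw [e1] at H
    exact H c1 c2 d1 d2
  · have e1 : y = o := pin hk3 (B := fun t => W (τ o) o (nz o o) t) fun d =>
      (H (τ o) o o d).trans (by simp)
    refine Or.inr (Or.inr (Or.inr (Or.inr (Or.inr (Or.inl ⟨τ, fun c1 c2 t1 t2 => ?_⟩)))))
    obtain ⟨d1, rfl⟩ := hδ t1
    obtain ⟨d2, rfl⟩ := hδ t2
    rw [nz_false]
    rw [e1] at H
    exact H c1 c2 d1 d2
  · have e1 : ∀ d2, τ d2 = o := fun d2 => pin hk3 (B := fun t => W x o t (nz d2 o)) fun d =>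
      (H x o d d2).trans (by simp)
    exact absurd (τ.injective ((e1 o').trans (e1 o).symm)) ho
  · have e1 : ∀ d2, τ d2 = o := fun d2 => pin hk3 (B := fun t => W o x t (nz d2 o)) fun d =>
      (H o x d d2).trans (by simp)
    exact absurd (τ.injective ((e1 o').trans (e1 o).symm)) ho
  · obtain ⟨u1, hu1, hu1'⟩ := exists_ne2 hk3 a0 a1
    obtain ⟨u2, hu2, hu2'⟩ := exists_ne2 hk3 x0 x1
    have e1 : y1 = o := pin hk3 (B := fun t => W u1 u2 t (nz y2 o)) fun d =>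
      (H u1 u2 d y2).trans (by simp [hu1, hu2, hu1', hu2'])
    have e2 : y2 = o := pin hk3 (B := fun t => W u1 u2 (nz y1 o) t) fun d =>
      (H u1 u2 y1 d).trans (by simp [hu1, hu2, hu1', hu2'])
    refine Or.inr (Or.inr (Or.inr (Or.inr (Or.inr (Or.inr
      ⟨a0, a1, x0, x1, ha, hx, fun c1 c2 t1 t2 => ?_⟩)))))
    obtain ⟨d1, rfl⟩ := hδ t1
    obtain ⟨d2, rfl⟩ := hδ t2
    rw [nz_false, nz_false, nz_true, nz_true]
    rw [e1, e2] at H
    exact H c1 c2 d1 d2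
  · obtain ⟨u, hu⟩ := exists_ne1 hk2 y2
    have e1 : a0 = o := pin hk3 (B := fun t => W y1 u t (nz x0 o)) fun d =>
      (H d x0 y1 u).trans (by simp [hu, hx])
    have e2 : a1 = o := pin hk3 (B := fun t => W y1 u t (nz x1 o)) fun d =>
      (H d x1 y1 u).trans (by simp [hu, hx.symm])
    exact absurd (e1.trans e2.symm) ha
  · have e1 : ∀ c, t1.symm (s1 c) = o := fun c =>
      pin hk3 (B := fun t => W c (s2.symm 0) t (nz (t2.symm (s1 c)) o)) fun d =>
        (H c (s2.symm 0) d (t2.symm (s1 c))).trans (by simp [Equiv.eq_symm_apply])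
    exact absurd (s1.injective (t1.symm.injective ((e1 o').trans (e1 o).symm))) ho

theorem ck (h : StmtCP) : StmtCK := by
  intro W z e hW he
  have hk2 : 2 ≤ Fintype.card α := le_trans (by omega) hk3
  rcases h W hW with ⟨x1, x2, H⟩ | H | ⟨x1, x2, H⟩ | ⟨x1, x2, H⟩ | ⟨τ, H⟩ | ⟨τ, H⟩ |
    ⟨a0, a1, x0, x1, ha, hx, H⟩
  · obtain ⟨u, hu⟩ := exists_ne1 hk2 x2
    exact absurd ((H _ _ _ _).1 (he u)).2 hu
  · exact Or.inl fun a => nz_false.1 ((H _ _ _ _).1 (he a)).1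
  · have h1 : ∀ a, a ≠ x2 → e a = z ∧ e a ≠ x1 := fun a ha => by
      rcases (H _ _ _ _).1 (he a) with ⟨-, h2, -⟩ | ⟨h2, -, h3, -⟩
      · exact absurd h2 ha
      · exact ⟨nz_false.1 h3, h2⟩
    have h2 : e x2 = x1 := by
      rcases (H _ _ _ _).1 (he x2) with ⟨h2, -, -⟩ | ⟨-, h2, -⟩
      · exact h2
      · exact absurd rfl h2
    obtain ⟨u, hu⟩ := exists_ne1 hk2 x2
    refine Or.inr (Or.inl ⟨x2, ⟨fun b hb => (h1 b hb).1, fun h3 => (h1 u hu).2 ?_⟩, ?_⟩)
    · rw [(h1 u hu).1, ← h3, h2]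
    · rw [h2]
      exact H
  · refine Or.inl fun a => ?_
    rcases (H _ _ _ _).1 (he a) with ⟨-, -, -, h2⟩ | ⟨-, h2, -⟩
    · exact absurd h2 (by simp)
    · exact nz_false.1 h2
  · have h1 : ∀ a, τ a = z := fun a => by
      obtain ⟨h2, h3⟩ := (H _ _ _ _).1 (he a)
      rw [← h2]
      exact nz_false.1 h3
    obtain ⟨u, hu⟩ := exists_ne1 hk2 z
    exact absurd (τ.injective ((h1 u).trans (h1 z).symm)) hu
  · exact Or.inr (Or.inr (Or.inr ⟨τ, fun a => ((H _ _ _ _).1 (he a)).1, H⟩))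
  · have h1 : ∀ a, (((e a = a0 ∧ a = x1) ∨ (e a = a1 ∧ a = x0)) ∧ e a ≠ z) ∨
        (a ≠ x0 ∧ a ≠ x1 ∧ e a = z) := fun a => by
      rcases (H _ _ _ _).1 (he a) with ⟨-, -, h2⟩ | ⟨h2, h3, -⟩ | ⟨-, -, h2, h3, h4, -⟩
      · exact absurd h2 (by simp)
      · exact Or.inl ⟨h2, nz_true.1 h3⟩
      · exact Or.inr ⟨h2, h3, nz_false.1 h4⟩
    have h2 : e x1 = a0 ∧ e x1 ≠ z := by
      rcases h1 x1 with ⟨⟨h2, -⟩ | ⟨-, h2⟩, h3⟩ | ⟨-, h2, -⟩
      · exact ⟨h2, h3⟩
      · exact absurd h2.symm hx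
      · exact absurd rfl h2
    have h3 : e x0 = a1 ∧ e x0 ≠ z := by
      rcases h1 x0 with ⟨⟨-, h2⟩ | ⟨h2, -⟩, h3⟩ | ⟨h2, -, -⟩
      · exact absurd h2 hx
      · exact ⟨h2, h3⟩
      · exact absurd rfl h2
    refine Or.inr (Or.inr (Or.inl ⟨x1, x0, hx.symm, fun a b1 b0 => ?_, h2.2, h3.2, ?_⟩))
    · rcases h1 a with ⟨⟨-, h2⟩ | ⟨-, h2⟩, -⟩ | ⟨-, -, h2⟩
      · exact absurd h2 b1
      · exact absurd h2 b0
      · exact h2
    · rw [h2.1, h3.1]
      exact ⟨ha, hx, H⟩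

end Pool.Agent.MP_92191b_al.K3

end

section

/-! The classification of planes over three letters, by exhaustive search. -/

namespace Pool.Agent.MP_92191b_al.K3

open Finset Function Equiv K6 X

open ClsAux in
theorem cls3 : StmtCls3 := by
  intro P hP
  obtain ⟨e, he, h⟩ := sound (T := tab) (L := lw)
    (fun q => ∃ c1 c2 d1 d2, P c1 c2 d1 d2 ∧ q = enc c1 c2 d1 d2)
    (by
      rintro _ _ ⟨c1, c2, d1, d2, h, rfl⟩ ⟨c1', c2', d1', d2', h', rfl⟩
      exact (tab_ok c1 c2 d1 d2 c1' c2' d1' d2').resolve_right fun k =>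
        k.2 (hP.sep _ _ _ _ _ _ _ _ h h' k.1))
    sts _ 0 run
    (fun s hs => by
      obtain ⟨a, b, a', b', h⟩ := sts_ok s hs
      obtain ⟨d1, d2, h'⟩ := hP.ex (af a b) (af a' b')
      exact ⟨_, h d1 d2, _, _, _, _, h', rfl⟩)
    (by
      rintro _ ⟨c1, c2, d1, d2, -, rfl⟩
      exact top_ok c1 c2 d1 d2)
    (fun q h => by simp at h)
  have hPR : P = R e.1 := by
    funext c1 c2 d1 d2
    refine propext ⟨fun k => (h _).1 ⟨_, _, _, _, k, rfl⟩, fun k => ?_⟩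
    obtain ⟨c1', c2', d1', d2', k', e'⟩ := (h _).2 k
    obtain ⟨rfl, rfl, rfl, rfl⟩ := enc_inj _ _ _ _ _ _ _ _ e'
    exact k'
  rw [hPR]
  exact (lw_ok e he).con

end Pool.Agent.MP_92191b_al.K3

end

section

/-! Separating coordinates, and no double single. -/

set_option linter.unusedSectionVars false

namespace Pool.Agent.MP_92191b_al.K3

open Finset Function Equiv K6 X

variable {ι : Type} [Fintype ι] [DecidableEq ι]

namespace DS1

theorem ham_one {c c' : ι → α} {l : ι} (h : c l ≠ c' l) (h' : ∀ r, r ≠ l → c r = c' r) :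
    hammingDist c c' = 1 := by
  rw [hammingDist, card_eq_one]
  refine ⟨l, ?_⟩
  ext r
  simp only [mem_filter, mem_univ, true_and, mem_singleton]
  exact ⟨fun hr => by_contra fun hn => hr (h' r hn), fun hr => hr ▸ h⟩

theorem cell_upd {T : Rel2 ι α} {σ : ι → Perm α} {i j l : ι} {τ : Perm α} {c d : ι → α}
    (h : Cell T σ j l c d) (hj : c j = τ (d j)) : Cell T (update σ j τ) i l c d := by
  refine ⟨h.1, fun r _ hl => ?_⟩
  by_cases hr : r = j
  · rw [hr, update_self, hj]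
  · rw [update_of_ne hr, h.2 r hr hl]

theorem cell_line {T : Rel2 ι α} {σ : ι → Perm α} {j : ι} {x : α} {c d : α → ι → α}
    (h : RLine T σ j x c d) (l : ι) (b : α) : Cell T σ j l (c b) (d b) :=
  ⟨(h b).1, fun r hr _ => (h b).2.2.2 r hr⟩

theorem sep_ex {T : Rel2 ι α} (hT : Good T) {σ : ι → Perm α} {i l : ι}
    {x1 x2 y1 y2 : α} (h : Is4 (pl T σ i l) x1 x2 y1 y2) :
    ∃ r, r ≠ i ∧ r ≠ l ∧ SepAt T σ i l x1 x2 y1 y2 r := by
  have h6 := hk3
  obtain ⟨a, ha⟩ := exists_ne1 (by omega) x2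
  obtain ⟨a', ha1, ha2⟩ := exists_ne2 (by omega) x2 a
  obtain ⟨c, d, h1, h2, h3, h4, h5⟩ := (h x1 a y1 y2).2 (Or.inr ⟨Or.inl rfl, rfl, rfl⟩)
  obtain ⟨c', d', k1, k2, k3, k4, k5⟩ := (h x1 a' y1 y2).2 (Or.inr ⟨Or.inl rfl, rfl, rfl⟩)
  by_contra hn
  have hd : ∀ r, r ≠ i → r ≠ l → d r = d' r := fun r hi hl => by_contra fun hr =>
    hn ⟨r, hi, hl, c, d, c', d', ⟨h1, h4, h5, Or.inr (h3 ▸ ha)⟩, ⟨k1, k4, k5, Or.inr (k3 ▸ ha1)⟩,
      h2, k2, hr⟩
  have hdd : d = d' := funext fun r => by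
    by_cases hi : r = i
    · rw [hi, h4, k4]
    by_cases hl : r = l
    · rw [hl, h5, k5]
    exact hd r hi hl
  refine hT.no1 c c' d h1.1 (hdd ▸ k1.1) (ham_one (l := l) ?_ fun r hl => ?_)
  · rw [h3, k3]; exact ha2.symm
  · by_cases hi : r = i
    · rw [hi, h2, k2]
    · rw [h1.2 r hi hl, k1.2 r hi hl, hdd]

theorem disj {e : α → α} {b1 b2 w1 w2 : α} (h1 : Single e b1 w1)
    (h2 : Single e b2 w2) : b1 = b2 := by
  have h6 := hk3
  by_contra hb
  obtain ⟨b, k1, k2⟩ := exists_ne2 (by omega) b1 b2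
  exact h1.2 ((h2.1 b1 hb).trans ((h2.1 b k2).symm.trans (h1.1 b k1)))

open Classical in
/-- coordinates in which the line is single at `b` -/
noncomputable def U (d : α → ι → α) (j : ι) (b : α) : Finset ι :=
  univ.filter fun r => r ≠ j ∧ ∃ w, Single (fun b' => d b' r) b w

theorem mem_U {d : α → ι → α} {j r : ι} {b : α} :
    r ∈ U d j b ↔ r ≠ j ∧ ∃ w, Single (fun b' => d b' r) b w := by
  simp only [U, mem_filter, mem_univ, true_and]

theorem card_lt (h1 : StmtDS1 ι) (h2 : StmtDS2 ι) {T : Rel2 ι α}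
    (hT : Good T) {σ : ι → Perm α} {i j : ι} {x b1 b2 : α} {c d : α → ι → α}
    (hR : RLine T σ j x c d) (hb : b1 ≠ b2) (hi : i ∈ U d j b1) :
    (U d j b2).card < (U d j b1).card := by
  obtain ⟨hij, wi, hsi⟩ := mem_U.1 hi
  obtain ⟨τ, hτ⟩ := exists_perm1 b1 x
  have hne : ∀ r ∈ U d j b1, ∀ l ∈ U d j b2, r ≠ l := fun r hr l hl e => by
    obtain ⟨-, w, hw⟩ := mem_U.1 hr
    obtain ⟨-, w', hw'⟩ := mem_U.1 hl
    exact hb (disj hw (e ▸ hw'))
  have key : ∀ l, ∃ (w : α) (r : ι), l ∈ U d j b2 → Single (fun b' => d b' l) b2 w ∧ r ≠ i ∧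
      r ∈ U d j b1 ∧ SepAt T (update σ j τ) i l (σ i wi) (σ l w) (d b1 i) w r := fun l => by
    by_cases hl : l ∈ U d j b2
    · obtain ⟨hlj, w, hw⟩ := mem_U.1 hl
      obtain ⟨⟨r, k1, k2, k3⟩, k4⟩ :=
        h1 T hT σ i j l x b1 b2 wi w c d τ hij hlj (hne i hi l hl) hb hR hsi hw hτ
      obtain ⟨k5, μ, k6, -⟩ := k4 r k1 k2 k3
      exact ⟨w, r, fun _ => ⟨hw, k1, mem_U.2 ⟨k5, μ, k6⟩, k3⟩⟩
    · exact ⟨x, i, fun h => absurd h hl⟩
  choose w ψ hψ using key
  refine lt_of_le_of_lt (card_le_card_of_injOn ψ (t := (U d j b1).erase i) (fun l hl => ?_)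
    fun l hl l' hl' e => ?_) (card_erase_lt_of_mem hi)
  · exact mem_coe.2 (mem_erase.2 ⟨(hψ l hl).2.1, (hψ l hl).2.2.1⟩)
  · by_contra hll
    obtain ⟨k1, k2, k3, k4⟩ := hψ l hl
    obtain ⟨k5, -, -, k6⟩ := hψ l' hl'
    exact h2 T hT σ i j l l' (ψ l) x b1 b2 wi (w l) (w l') c d τ hij (mem_U.1 hl).1
      (mem_U.1 hl').1 (hne i hi l hl) (hne i hi l' hl') hll hb hR hsi k1 k5 hτ k2
      (hne _ k3 l hl) (hne _ k3 l' hl') k4 (e ▸ k6)

end DS1

open DS1

theorem ds1 (hS : StmtSec ι α) (hA : StmtAlpha ι) (hF : StmtGF ι) (hL : StmtGLam ι) :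
    StmtDS1 ι := by
  have _h := hS
  intro T hT σ i j l x b1 b2 wi wl c d τ hij hlj hil hb hR hsi hsl hτ
  obtain ⟨I4, armj, ⟨cs, ds, s1, s2, s3, s4⟩, -⟩ :=
    (hA T hT σ i j l x b1 b2 wi wl c d hij hlj hil hb hR hsi hsl).2 τ hτ
  have J4 := (hA T hT σ l j i x b2 b1 wl wi c d hlj hij hil.symm hb.symm hR hsl hsi).1
  have hyi : d b1 i ≠ wi := hsi.2
  have hyl : d b2 l ≠ wl := hsl.2
  refine ⟨sep_ex hT I4, ?_⟩
  rintro r hri hrl ⟨c1, d1, c2, d2, a1, a2, e1, e2, hne⟩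
  have hrj : r ≠ j := fun e => hne (by rw [e, armj _ _ a1, armj _ _ a2])
  refine ⟨hrj, ?_⟩
  have h6 := hk3
  obtain ⟨v, v1, v2⟩ := exists_ne2 (by omega) wl (d b2 l)
  rcases hL T hT _ i l r _ _ _ _ hil hri hrl I4 with ⟨m, hm⟩ | ⟨p, μ, -, far, arm, uni⟩
  · exact absurd ((hm _ _ a1).trans (hm _ _ a2).symm) hne
  have l1 : d b1 l = wl := hsl.1 b1 hb
  have t1 : Arm T (update σ j τ) i l (σ i wi) (σ l wl) (d b1 i) wl (c b1) (d b1) := by
    refine ⟨cell_upd (cell_line hR l b1) ?_, rfl, l1, Or.inl ?_⟩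
    · rw [(hR b1).2.1, (hR b1).2.2.1, hτ]
    · rw [(hR b1).2.2.2 i hij]
      exact fun e => hyi ((σ i).injective e)
  have hci : c b1 i ≠ σ i wi := by
    rw [(hR b1).2.2.2 i hij]
    exact fun e => hyi ((σ i).injective e)
  have hp : d b1 r ≠ μ := fun e => by
    rcases arm _ _ a1 with k1 | k1
    · rcases arm _ _ a2 with k2 | k2
      · exact hne (k1.trans k2.symm)
      · exact hci (by rw [uni _ _ _ _ t1 a2 e k2, e2])
    · exact hci (by rw [uni _ _ _ _ t1 a1 e k1, e1])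
  have hp' : d b1 r = p := (arm _ _ t1).resolve_right hp
  refine ⟨μ, ⟨?_, hp⟩, fun c' d' h => by rw [hp']; exact arm c' d' h, uni⟩
  have row : ∀ u, u ≠ wl → u ≠ d b2 l → ∃ c' d', Far T σ j l b2 (d b2 l) c' d' ∧ d' j = b1 ∧
      d' l = u ∧ d' r = μ := fun u u1 u2 => by
    obtain ⟨c', d', k1, k2, -, k4, k5⟩ := (J4 _ _ b1 u).2 (Or.inl ⟨rfl, rfl, hb, u2⟩)
    have k6 : Cell T (update σ j τ) i l c' d' := cell_upd k1 (by rw [k2, k4, hτ])
    refine ⟨c', d', ⟨k1, by rw [k4]; exact hb, by rw [k5]; exact u2⟩, k4, k5, far c' d' ?_⟩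
    rcases (I4 _ _ _ _).1 ⟨c', d', k6, rfl, rfl, rfl, rfl⟩ with k | k
    · exact ⟨k6, k.2.2.1, k.2.2.2⟩
    · exact absurd (k5.symm.trans k.2.2) u1
  obtain ⟨c3, d3, f3, -, -, r3⟩ := row v v1 v2
  have fs : Far T (update σ j τ) i l (d b1 i) wl cs ds :=
    ⟨s1, by rw [s2]; exact hyi.symm, by rw [s3]; exact hyl⟩
  have rs : ds r = μ := far cs ds fs
  have csi : cs i = σ i wi := by
    rcases (I4 _ _ _ _).1 ⟨cs, ds, s1, rfl, rfl, rfl, rfl⟩ with k | k
    · exact k.1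
    · exact absurd k.2.1 fs.2.1
  have as : Arm T σ j l x (σ l wl) b2 (d b2 l) cs ds := by
    refine ⟨⟨s1.1, fun r' k1 k2 => ?_⟩, s4, s3, Or.inl ?_⟩
    · by_cases k3 : r' = i
      · rw [k3, csi, s2]
      · rw [s1.2 r' k3 k2, update_of_ne k1]
    · rw [s1.2 j hij.symm hlj.symm, update_self, s4, ← hτ]
      exact fun e => hb (τ.injective e).symm
  have ft : ∀ b, b ≠ b2 → Far T σ j l b2 (d b2 l) (c b) (d b) := fun b h =>
    ⟨cell_line hR l b, by rw [(hR b).2.2.1]; exact h, by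
      have : d b l = wl := hsl.1 b h
      rw [this]; exact hyl.symm⟩
  rcases hF T hT σ j l r _ _ _ _ hlj.symm hrj hrl J4 with ⟨ν, hν⟩ | ⟨m, hm, hx | ⟨-, hx⟩⟩
  · exact absurd ((hν _ _ (ft b1 hb)).trans ((hν _ _ f3).symm.trans r3)) hp
  · have hmμ : μ = m := rs.symm.trans (hm cs ds as)
    subst hmμ
    intro b h
    by_cases h' : b = b2
    · subst h'
      refine hm (c b) (d b) ⟨cell_line hR l b, (hR b).2.2.1, rfl, Or.inr ?_⟩
      rw [(hR b).2.2.2 l hlj]
      exact fun e => hyl ((σ l).injective e)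
    · by_contra e
      have k1 : d b l = wl := hsl.1 b h'
      have := hx _ _ _ _ (ft b h') (ft b1 hb) (Or.inr (k1.trans l1.symm)) e hp
      exact h (by rw [← (hR b).2.2.1, this, (hR b1).2.2.1])
  · exact absurd (r3.trans (rs.symm.trans (hm cs ds as))) (hx _ _ f3)

theorem ds (h1 : StmtDS1 ι) (h2 : StmtDS2 ι) : StmtDS ι := by
  intro T hT σ i j l x b1 b2 wi wl c d hij hlj hR hsi hsl
  by_contra hb
  exact lt_asymm (card_lt h1 h2 hT hR hb (mem_U.2 ⟨hij, wi, hsi⟩))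
    (card_lt h1 h2 hT hR (Ne.symm hb) (mem_U.2 ⟨hlj, wl, hsl⟩))

end Pool.Agent.MP_92191b_al.K3

end

section

/-! Global forms of two lemmas on sections in three coordinates. -/

set_option linter.unusedSectionVars false

namespace Pool.Agent.MP_92191b_al.K3

open Finset Function Equiv K6 X

variable {ι : Type} [Fintype ι] [DecidableEq ι]

namespace GFL

variable {T : Rel2 ι α} {σ : ι → Perm α} {i j r : ι} {x1 x2 y1 y2 : α} {c d : ι → α}

theorem cell_sec (hri : r ≠ i) (hrj : r ≠ j) (h : Cell T σ i j c d) :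
    sec T σ i j r (c i) (c j) (σ r (d r)) (d i) (d j) (d r) :=
  ⟨c, d, h.1, fun s hi hj _ => h.2 s hi hj, rfl, rfl, h.2 r hri hrj, rfl, rfl, rfl⟩

theorem far_c (h4 : Is4 (pl T σ i j) x1 x2 y1 y2) (h : Far T σ i j y1 y2 c d) :
    c i = x1 ∧ c j = x2 := by
  rcases (h4 (c i) (c j) (d i) (d j)).1 ⟨c, d, h.1, rfl, rfl, rfl, rfl⟩ with
    ⟨a, b, _, _⟩ | ⟨_, a, _⟩
  · exact ⟨a, b⟩
  · exact absurd a h.2.1

theorem far_ex (h4 : Is4 (pl T σ i j) x1 x2 y1 y2) {b1 b2 : α} (h1 : b1 ≠ y1) (h2 : b2 ≠ y2) :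
    ∃ c d, Far T σ i j y1 y2 c d ∧ d i = b1 ∧ d j = b2 := by
  obtain ⟨c, d, hc, -, -, e1, e2⟩ := (h4 x1 x2 b1 b2).2 (Or.inl ⟨rfl, rfl, h1, h2⟩)
  exact ⟨c, d, ⟨hc, e1 ▸ h1, e2 ▸ h2⟩, e1, e2⟩

theorem far_sec (hri : r ≠ i) (hrj : r ≠ j) (h4 : Is4 (pl T σ i j) x1 x2 y1 y2)
    (h : Far T σ i j y1 y2 c d) : sec T σ i j r x1 x2 (σ r (d r)) (d i) (d j) (d r) := by
  have := cell_sec hri hrj h.1
  rwa [(far_c h4 h).1, (far_c h4 h).2] at this

theorem arm_sec (hri : r ≠ i) (hrj : r ≠ j) (h : Arm T σ i j x1 x2 y1 y2 c d) :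
    sec T σ i j r (c i) (c j) (σ r (d r)) y1 y2 (d r) := by
  have := cell_sec hri hrj h.1
  rwa [h.2.1, h.2.2.1] at this

end GFL

open GFL

theorem gF (hS : StmtSec ι α) (hN : StmtNice ι) (hF : StmtF3) : StmtGF ι := by
  intro T hT σ i j r x1 x2 y1 y2 hij hri hrj h4
  obtain ⟨-, hsep, hl⟩ := hS T hT.tight σ i j hij
  obtain ⟨-, hp12, -, -⟩ := hl r hri hrj
  have hn := hN T hT σ i j r hij hri hrj
  have key : ∀ c d c' d', Far T σ i j y1 y2 c d → Far T σ i j y1 y2 c' d' →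
      d i = d' i ∧ d j = d' j → d = d' := fun c d c' d' hf hf' e =>
    (hsep c d c' d' hf.1 hf'.1 (by
      rw [(far_c h4 hf).1, (far_c h4 hf).2, (far_c h4 hf').1, (far_c h4 hf').2, e.1, e.2]
      simp)).2
  rcases hF _ (σ r) x1 x2 y1 y2 hn (by rw [hp12]; exact h4) with ⟨μ, hμ⟩ | ⟨m, hm, hh⟩
  · exact Or.inl ⟨μ, fun c d hf => hμ _ _ _ hf.2.1 hf.2.2 (far_sec hri hrj h4 hf)⟩
  · refine Or.inr ⟨m, fun c d ha => hm _ _ _ ha.2.2.2 (arm_sec hri hrj ha), ?_⟩
    rcases hh with hh | hh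
    · exact Or.inl fun c d c' d' hf hf' hor hw hw' => key c d c' d' hf hf'
        (hh _ _ _ _ _ _ hf.2.1 hf.2.2 hf'.2.1 hf'.2.2 (far_sec hri hrj h4 hf)
          (far_sec hri hrj h4 hf') hor hw hw')
    · exact Or.inr ⟨fun c d c' d' hf hf' hor hw => key c d c' d' hf hf'
        (hh.1 _ _ _ _ _ _ hf.2.1 hf.2.2 hf'.2.1 hf'.2.2 (far_sec hri hrj h4 hf)
          (far_sec hri hrj h4 hf') hor hw),
        fun c d hf => hh.2 _ _ _ hf.2.1 hf.2.2 (far_sec hri hrj h4 hf)⟩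

theorem gLam (hS : StmtSec ι α) (hN : StmtNice ι) (hF : StmtGF ι) (hL : StmtLam3) :
    StmtGLam ι := by
  intro T hT σ i j r x1 x2 y1 y2 hij hri hrj h4
  rcases hF T hT σ i j r x1 x2 y1 y2 hij hri hrj h4 with ⟨μ, hμ⟩ | ⟨m, hm, -⟩
  swap
  · exact Or.inl ⟨m, hm⟩
  obtain ⟨-, hsep, hl⟩ := hS T hT.tight σ i j hij
  obtain ⟨-, hp12, -, -⟩ := hl r hri hrj
  have hn := hN T hT σ i j r hij hri hrj
  have hall : ∀ b1 b2, b1 ≠ y1 → b2 ≠ y2 → sec T σ i j r x1 x2 (σ r μ) b1 b2 μ := by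
    intro b1 b2 hb1 hb2
    obtain ⟨c', d', hf', e1, e2⟩ := far_ex h4 hb1 hb2
    have := far_sec hri hrj h4 hf'
    rwa [hμ _ _ hf', e1, e2] at this
  rcases hL _ (σ r) x1 x2 y1 y2 μ hn (by rw [hp12]; exact h4) hall with hA | ⟨p, hp, hA, hB⟩
  · exact Or.inl ⟨μ, fun c d ha => hA _ _ _ ha.2.2.2 (arm_sec hri hrj ha)⟩
  · refine Or.inr ⟨p, μ, hp, hμ, fun c d ha => hA _ _ _ ha.2.2.2 (arm_sec hri hrj ha), ?_⟩
    intro c1 d1 c2 d2 ha1 ha2 e1 e2
    have s1 := arm_sec hri hrj ha1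
    have s2 := arm_sec hri hrj ha2
    rw [e1] at s1
    rw [e2] at s2
    have e := hB _ _ _ _ ha1.2.2.2 ha2.2.2.2 s1 s2
    exact (hsep c1 d1 c2 d2 ha1.1 ha2.1 (by
      rw [e.1, e.2, ha1.2.1, ha1.2.2.1, ha2.2.1, ha2.2.2.1]
      simp)).1

end Pool.Agent.MP_92191b_al.K3

end

section

/-! No diagonal plane, and the structure of lines. -/

set_option linter.unusedSectionVars false

namespace Pool.Agent.MP_92191b_al.K3

open Finset Function Equiv K6 X

variable {ι : Type} [Fintype ι] [DecidableEq ι]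

namespace No6

theorem kline {T : Rel2 ι α} {σ : ι → Perm α} {i j : ι} {b0 : α} (ρ : Perm α)
    (h : ∀ a, ∃ y, pl T σ i j (ρ y) a y b0) : ∃ σ' c' d', KLine T σ' j b0 c' d' := by
  choose y c d hc h1 h2 h3 h4 using h
  refine ⟨update σ i ρ, c, d, fun a => ⟨(hc a).1, h2 a, h4 a, fun r hr => ?_⟩⟩
  by_cases hi : r = i
  · subst hi; rw [update_self, h1, h3]
  · rw [update_of_ne hi]; exact (hc a).2 r hi hr

/-- The family of cells of a diagonal plane. -/
def Grid (T : Rel2 ι α) (σ : ι → Perm α) (i j : ι) (τ : Perm α) (x : α)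
    (c d : α → α → ι → α) : Prop :=
  ∀ a b, Cell T σ i j (c a b) (d a b) ∧ c a b i = a ∧ c a b j = x ∧ d a b i = τ b ∧ d a b j = b

variable {T : Rel2 ι α} {σ : ι → Perm α} {i j : ι} {τ : Perm α} {x : α} {c d : α → α → ι → α}

theorem Grid.line (h : Grid T σ i j τ x c d) (π : Perm α) :
    RLine T (update σ i (π * τ⁻¹)) j x (fun b => c (π b) b) fun b => d (π b) b := by
  intro b
  obtain ⟨h1, h2, h3, h4, h5⟩ := h (π b) b
  refine ⟨h1.1, h3, h5, fun r hr => ?_⟩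
  by_cases hi : r = i
  · subst hi; simp [h2, h4]
  · rw [update_of_ne hi]; exact h1.2 r hi hr

theorem Grid.differ (hT : Good T) (h : Grid T σ i j τ x c d) {a a' : α} (ha : a ≠ a') (b : α) :
    ∃ r, r ≠ i ∧ r ≠ j ∧ d a b r ≠ d a' b r := by
  by_contra! hc
  obtain ⟨h1, h2, h3, h4, h5⟩ := h a b
  obtain ⟨g1, g2, g3, g4, g5⟩ := h a' b
  have hd : d a b = d a' b := by
    funext r
    by_cases hi : r = i
    · rw [hi, h4, g4]
    by_cases hj : r = j
    · rw [hj, h5, g5]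
    exact hc r hi hj
  refine hT.no1 _ _ _ h1.1 (hd ▸ g1.1) ?_
  have : ({r | c a b r ≠ c a' b r} : Finset ι) = {i} := by
    ext r
    simp only [mem_filter, mem_univ, true_and, mem_singleton]
    refine ⟨fun hr => ?_, fun hr => by rw [hr, h2, g2]; exact ha⟩
    by_contra hi
    by_cases hj : r = j
    · exact hr (by rw [hj, h3, g3])
    · exact hr (by rw [h1.2 r hi hj, g1.2 r hi hj, hd])
  rw [hammingDist, this, card_singleton]

theorem Grid.col (hS : StmtSec ι α) (hN : StmtNice ι) (hP : StmtPhi6) (hT : Good T) (hij : i ≠ j)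
    (H : Is6b (pl T σ i j) τ x) (h : Grid T σ i j τ x c d) (b : α) :
    ∃ r a0 μ ν, r ≠ j ∧ μ ≠ ν ∧ ∀ a b', d a b' r = if b' = b ∧ a ≠ a0 then ν else μ := by
  obtain ⟨r, hi, hj, hne⟩ := h.differ hT (show (0 : α) ≠ 1 by decide) b
  have H' : Is6b (p12 (sec T σ i j r) (σ r)) τ x := by
    rw [((hS T hT.tight σ i j hij).2.2 r hi hj).2.1]
    exact H
  rcases hP (sec T σ i j r) (σ r) τ x (fun a b => d a b r) (hN T hT σ i j r hij hi hj) H'
    (fun a b => by
      obtain ⟨h1, h2, h3, h4, h5⟩ := h a b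
      exact ⟨c a b, d a b, h1.1, fun s e1 e2 _ => h1.2 s e1 e2, h2, h3, h1.2 r hi hj, h4, h5, rfl⟩)
    with h1 | ⟨a0, b0, μ, ν, h1, h2⟩
  · exact (hne (h1 0 1 b)).elim
  · have hb : b = b0 := by
      by_contra hb
      have e0 := h2 0 b
      have e1 := h2 1 b
      rw [if_neg fun e => hb e.1] at e0 e1
      exact hne (e0.trans e1.symm)
    subst hb
    exact ⟨r, a0, μ, ν, hj, h1, h2⟩

theorem exists_pi (a a' : α) : ∃ π : Perm α, π 0 ≠ a ∧ π 1 ≠ a' := by
  obtain ⟨s, hs⟩ := exists_ne1 (by have := hk3; omega) a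
  obtain ⟨t, h1, h2⟩ := exists_ne2 hk3 a' s
  obtain ⟨π, p1, p2⟩ := exists_perm2 (show (0 : α) ≠ 1 by decide) h2.symm
  exact ⟨π, p1 ▸ hs, p2 ▸ h1⟩

end No6

theorem no6 (hS : StmtSec ι α) (hN : StmtNice ι) (hP : StmtPhi6) (hD : StmtDS ι) :
    StmtNo6 ι := by
  intro T hT σ i j τ x hij H
  obtain ⟨c, d, h⟩ : ∃ c d, No6.Grid T σ i j τ x c d := by
    choose c d h using fun a b => (H a x (τ b) b).2 ⟨rfl, rfl⟩
    exact ⟨c, d, h⟩
  obtain ⟨r, a0, μ, ν, hr, hne, e⟩ := h.col hS hN hP hT hij H 0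
  obtain ⟨r', a0', μ', ν', hr', hne', e'⟩ := h.col hS hN hP hT hij H 1
  obtain ⟨π, p1, p2⟩ := No6.exists_pi a0 a0'
  refine (show (0 : α) ≠ 1 by decide)
    (hD T hT _ r j r' x 0 1 μ μ' _ _ hr hr' (h.line π) ⟨fun s hs => ?_, ?_⟩ ⟨fun s hs => ?_, ?_⟩)
  · exact (e _ _).trans (if_neg fun g => hs g.1)
  · exact fun g => hne (g.symm.trans ((e _ _).trans (if_pos ⟨rfl, p1⟩)))
  · exact (e' _ _).trans (if_neg fun g => hs g.1)
  · exact fun g => hne' (g.symm.trans ((e' _ _).trans (if_pos ⟨rfl, p2⟩)))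

theorem lineThm (h0 : StmtLine0 α) (hR : StmtGRL ι) (hD : StmtDS ι) (h6 : StmtNo6 ι) :
    StmtLine ι := by
  intro T hT σ j
  rcases h0 (fun a b => ∃ c d, T c d ∧ (∀ r, r ≠ j → c r = σ r (d r)) ∧ c j = a ∧ d j = b)
    (by
      rintro a b a' b' ⟨c, d, h1, h2, rfl, rfl⟩ ⟨c', d', g1, g2, rfl, rfl⟩ he
      have : hammingDist c c' = hammingDist d d' := by
        unfold hammingDist
        congr 1
        ext r
        simp only [mem_filter, mem_univ, true_and]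
        by_cases hr : r = j
        · rw [hr]; exact not_congr he
        · rw [h2 r hr, g2 r hr]; exact not_congr (σ r).apply_eq_iff_eq
      obtain ⟨e1, e2⟩ := hT.tight.sep _ _ _ _ h1 g1 this
      rw [e1, e2]; exact ⟨rfl, rfl⟩)
    (by
      intro ρ
      obtain ⟨c, d, h1, h2⟩ := hT.tight.ex (update σ j ρ) 1
      refine ⟨d j, c, d, h1, fun r hr => ?_, by simpa using h2 j, rfl⟩
      simpa [update_of_ne hr] using h2 r) with ⟨x, hx⟩ | ⟨y, hy⟩
  · choose c d h1 h2 h3 h4 using fun b => (hx x b).2 rfl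
    have hl : RLine T σ j x c d := fun b => ⟨h1 b, h3 b, h4 b, h2 b⟩
    refine Or.inr ⟨x, c, d, ?_⟩
    by_cases hall : ∀ b b' r, r ≠ j → d b r = d b' r
    · exact ⟨x, hl, fun b b' _ _ r hr => hall b b' r hr, Or.inl hall⟩
    push Not at hall
    obtain ⟨b1, b2, i, hi, hne⟩ := hall
    rcases hR T hT σ i j x c d hi hl with ⟨w, hw⟩ | ⟨b0, w, hw, hP⟩ | ⟨τ, -, ht⟩
    · exact (hne ((hw b1).trans (hw b2).symm)).elim
    · refine ⟨b0, hl, fun b b' hb hb' r hr => ?_, Or.inr ?_⟩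
      · rcases hR T hT σ r j x c d hr hl with ⟨v, hv⟩ | ⟨b3, v, hv, -⟩ | ⟨τ, -, ht⟩
        · rw [hv, hv]
        · have : b0 = b3 := hD T hT σ i j r x b0 b3 w v c d hi hr hl hw hv
          subst this
          exact (hv.1 b hb).trans (hv.1 b' hb').symm
        · exact (h6 T hT σ r j τ x hr ht).elim
      · obtain ⟨ρ, hρ⟩ := exists_perm1 (d b0 i) (σ i w)
        exact No6.kline ρ fun a => ⟨d b0 i, (hP _ _ _ _).2 (Or.inr ⟨Or.inl hρ, rfl, rfl⟩)⟩
    · exact (h6 T hT σ i j τ x hi ht).elim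
  · choose c d h1 h2 h3 h4 using fun a => (hy a y).2 rfl
    exact Or.inl ⟨y, c, d, fun a => ⟨h1 a, h3 a, h4 a, h2 a⟩⟩

end Pool.Agent.MP_92191b_al.K3

end

section

/-! Switched pairs are not exceptional. -/

set_option linter.unusedSectionVars false

namespace Pool.Agent.MP_92191b_al.K3

open Finset Function Equiv K6 X

variable {ι : Type} [Fintype ι] [DecidableEq ι]

namespace SwX

theorem sub3 (A : Set α) : A = ∅ ∨ A = Set.univ ∨ (∃ b, A = {b}) ∨ ∃ b, A = {b}ᶜ := by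
  by_cases h0 : (0 : α) ∈ A <;> by_cases h1 : (1 : α) ∈ A <;> by_cases h2 : (2 : α) ∈ A
  · exact .inr (.inl (by ext v; fin_cases v <;> simp [h0, h1, h2]))
  · exact .inr (.inr (.inr ⟨2, by ext v; fin_cases v <;> simp [h0, h1, h2]⟩))
  · exact .inr (.inr (.inr ⟨1, by ext v; fin_cases v <;> simp [h0, h1, h2]⟩))
  · exact .inr (.inr (.inl ⟨0, by ext v; fin_cases v <;> simp [h0, h1, h2]⟩))
  · exact .inr (.inr (.inr ⟨0, by ext v; fin_cases v <;> simp [h0, h1, h2]⟩))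
  · exact .inr (.inr (.inl ⟨1, by ext v; fin_cases v <;> simp [h0, h1, h2]⟩))
  · exact .inr (.inr (.inl ⟨2, by ext v; fin_cases v <;> simp [h0, h1, h2]⟩))
  · exact .inl (by ext v; fin_cases v <;> simp [h0, h1, h2])

/-- The distance away from the coordinate `j`. -/
def off (j : ι) (x y : ι → α) : ℕ := ((univ.erase j).filter fun r => x r ≠ y r).card

theorem dist_eq (j : ι) (x y : ι → α) :
    hammingDist x y = off j x y + if x j = y j then 0 else 1 := by
  unfold hammingDist off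
  conv_lhs => rw [← insert_erase (mem_univ j), filter_insert]
  by_cases h : x j = y j
  · simp [h]
  · rw [if_pos h, if_neg h, card_insert_of_notMem (by simp)]

theorem off_update (j : ι) (x y : ι → α) (u v : α) :
    off j (update x j u) (update y j v) = off j x y := by
  unfold off
  congr 1
  refine filter_congr fun r hr => ?_
  rw [update_of_ne (ne_of_mem_erase hr), update_of_ne (ne_of_mem_erase hr)]

theorem off_lt (j : ι) (x y : ι → α) : off j x y + 1 ≤ Fintype.card ι := by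
  have h1 : off j x y ≤ (univ.erase j).card := card_filter_le _ _
  have h2 := card_erase_add_one (mem_univ j)
  rw [card_univ] at h2
  omega

theorem mem_fib {D : Finset (ι → α)} {x : ι → α} (hx : x ∈ D) (j : ι) : x j ∈ Fib D j x := by
  change update x j (x j) ∈ D
  rwa [update_eq_self]

theorem hasD {D : Finset (ι → α)} {j : ι} {x y : ι → α} {u v : α} (hu : u ∈ Fib D j x)
    (hv : v ∈ Fib D j y) : HasD D (off j x y + if u = v then 0 else 1) :=
  ⟨_, hu, _, hv, by rw [dist_eq j, off_update, update_self, update_self]⟩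

theorem lift {D D' : Finset (ι → α)} {j : ι} {z : α} (h : SwRel D D' j z) {x : ι → α}
    (hx : x ∈ D') : ∃ u, u ∈ Fib D j x := by
  by_contra hc
  have h1 : Fib D j x = ∅ := Set.eq_empty_of_forall_notMem fun u hu => hc ⟨u, hu⟩
  have h2 := mem_fib hx j
  rw [(h x).1 h1] at h2
  exact h2

theorem lift2 {D D' : Finset (ι → α)} {j : ι} {z : α} (h : SwRel D D' j z) {x y : ι → α}
    (hx : x ∈ D') (hy : y ∈ D') : HasD D (off j x y) ∨ HasD D (off j x y + 1) := by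
  obtain ⟨u, hu⟩ := lift h hx
  obtain ⟨v, hv⟩ := lift h hy
  have := hasD hu hv
  split_ifs at this
  · exact .inl this
  · exact .inr this

theorem lift3 {D D' : Finset (ι → α)} {j : ι} {z : α} (h : SwRel D D' j z) {x y : ι → α}
    (hx : x ∈ D') (hy : y ∈ D') (hj : x j ≠ y j) : HasD D (off j x y + 1) := by
  by_contra hc
  have key : ∀ u ∈ Fib D j x, ∀ v ∈ Fib D j y, u = v := fun u hu v hv => by
    by_contra huv
    have := hasD hu hv
    rw [if_neg huv] at this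
    exact hc this
  obtain ⟨u, hu⟩ := lift h hx
  obtain ⟨v, hv⟩ := lift h hy
  have h1 : Fib D j x = {v} := Set.eq_singleton_iff_unique_mem.2
    ⟨key u hu v hv ▸ hu, fun w hw => key w hw v hv⟩
  have h2 : Fib D j y = {u} := Set.eq_singleton_iff_unique_mem.2
    ⟨(key u hu v hv).symm ▸ hv, fun w hw => (key u hu w hw).symm⟩
  have h3 := mem_fib hx j
  have h4 := mem_fib hy j
  rw [(h x).2.2.1 _ h1] at h3
  rw [(h y).2.2.1 _ h2] at h4
  exact hj (h3.trans h4.symm)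

theorem avoid {C D : Finset (ι → α)} (h : K6.Sep C D) {s : ℕ} (hs : s ≠ 0) (hC : HasD C s) :
    ¬HasD D s := by
  obtain ⟨c, hc, c', hc', h1⟩ := hC
  rintro ⟨d, hd, d', hd', h2⟩
  have := h c hc c' hc' d hd d' hd' (h1.trans h2.symm)
  rw [this, hammingDist_self] at h1
  exact hs h1.symm

theorem sing {D D' : Finset (ι → α)} {j : ι} {z : α} (h : SwRel D D' j z) {x : ι → α} {b : α}
    (hb : Fib D' j x = {b}) : b = z := by
  have hne : ∀ c : α, ∃ u v : α, u ≠ v ∧ u ≠ c ∧ v ≠ c := by decide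
  rcases sub3 (Fib D j x) with h1 | h1 | ⟨c, h1⟩ | ⟨c, h1⟩
  · rw [(h x).1 h1] at hb
    exact absurd hb.symm (Set.singleton_ne_empty b)
  · rw [(h x).2.1 h1] at hb
    obtain ⟨u, -, -, hu, -⟩ := hne b
    exact absurd (hb ▸ Set.mem_univ u : u ∈ ({b} : Set α)) hu
  · rw [(h x).2.2.1 c h1] at hb
    exact (Set.singleton_injective hb).symm
  · rw [(h x).2.2.2 c h1] at hb
    obtain ⟨u, v, huv, hu, hv⟩ := hne z
    have h2 : u ∈ ({b} : Set α) := hb ▸ hu
    have h3 : v ∈ ({b} : Set α) := hb ▸ hv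
    exact absurd (h2.trans h3.symm) huv

end SwX

open SwX

theorem swX : StmtSwX ι := by
  intro C D D' hG _ _ j z h
  refine ⟨fun ⟨h4, hE⟩ => hG.nex ⟨h4, ?_⟩, fun hE => ?_⟩
  · rcases hE with ⟨hC, ⟨x, hx, y, hy, h2⟩, ⟨x', hx', y', hy', h4'⟩⟩ |
      ⟨hC, hC', ⟨x, hx, y, hy, h3⟩⟩
    · have ha := avoid hG.sep (by norm_num) hC
      refine .inl ⟨hC, ?_, ?_⟩
      · rw [dist_eq j] at h2
        split_ifs at h2 with hj
        · have := lift2 h hx hy
          rw [show off j x y = 2 by omega] at this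
          exact this.resolve_right ha
        · have := lift3 h hx hy hj
          rwa [h2] at this
      · rw [dist_eq j] at h4'
        have h5 := off_lt j x' y'
        have := lift2 h hx' hy'
        rw [show off j x' y' = 3 by split_ifs at h4' <;> omega] at this
        exact this.resolve_left ha
    · have ha := avoid hG.sep (by norm_num) hC
      have ha' := avoid hG.sep (by norm_num) hC'
      refine .inr ⟨hC, hC', ?_⟩
      rw [dist_eq j] at h3
      have := lift2 h hx hy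
      split_ifs at h3
      · rw [show off j x y = 3 by omega] at this
        exact this.resolve_right ha'
      · rw [show off j x y = 2 by omega] at this
        exact this.resolve_left ha
  · obtain ⟨x, x', b, b', hb, h1, h2⟩ := hE.2.2.2.2.2.2 j
    exact hb ((sing h h1).trans (sing h h2).symm)

theorem sw (h0 : StmtSw0 ι) (hH : StmtH ι) : StmtSw ι := by
  intro C D hG hC j z hx
  obtain ⟨D', h1, h2, h3⟩ := h0 C D hG j z hx
  obtain ⟨h4, h5⟩ := swX C D D' hG hC h1 j z h2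
  exact ⟨D', ⟨h1.sep, h1.big, h1.no1, hH C D' h1 h4 h5, h4⟩, h2, h3⟩

theorem a3_of (hH : StmtH ι) (hA : StmtA ι) : StmtAX ι α Exo := by
  intro C D hG hC
  by_cases h4 : Exo4 C D
  · rcases h4 with ⟨h, h' | h'⟩
    · exact .inr (.inl ⟨card3, h, h'⟩)
    · exact .inr (.inr (.inl ⟨card3, h, h'⟩))
  by_cases h5 : Exo5 C D
  · obtain ⟨h, h1, -, h2, h3, h6, -⟩ := h5
    exact .inr (.inr (.inr (.inl ⟨card3, h, h1, h2, h3, h6⟩)))
  · exact .inl (hA C D ⟨hG.sep, hG.big, hG.no1, hH C D hG h4 h5, h4⟩ hC)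

end Pool.Agent.MP_92191b_al.K3

end

section

/-! Conflicting sets of cells in one coordinate. -/

set_option linter.unusedSectionVars false

namespace Pool.Agent.MP_92191b_al.K6

open Finset Function Equiv

variable {ι α : Type} [Fintype ι] [DecidableEq ι] [Fintype α] [DecidableEq α]

namespace Line0

theorem row_or_col {L : α → α → Prop} (hL : Conf L) {a b a' b' : α} (h : L a b) (h' : L a' b') :
    a = a' ∨ b = b' := by
  by_contra! hc
  exact hc.1 (hL a b a' b' h h' (iff_of_false hc.1 hc.2)).1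

theorem in_line {L : α → α → Prop} (hL : Conf L) {a0 b0 : α} (h0 : L a0 b0) :
    (∀ a b, L a b → a = a0) ∨ ∀ a b, L a b → b = b0 := by
  by_cases h : ∀ a b, L a b → a = a0
  · exact Or.inl h
  push Not at h
  obtain ⟨a1, b1, h1, hne⟩ := h
  have e := (row_or_col hL h1 h0).resolve_left hne
  refine Or.inr fun a b hab => ?_
  rcases row_or_col hL hab h0 with h2 | h2
  · exact ((row_or_col hL hab h1).resolve_left fun h3 => hne (h3.symm.trans h2)).trans e
  · exact h2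

end Line0

theorem line0 : StmtLine0 α := by
  intro L hL hex
  obtain ⟨b0, h0⟩ := hex 1
  rcases Line0.in_line hL h0 with h | h
  · refine Or.inl ⟨_, fun a b => ⟨h a b, fun e => ?_⟩⟩
    obtain ⟨σ, hσ⟩ := exists_perm1 b a
    obtain ⟨b', hb'⟩ := hex σ
    have e' : b' = b := σ.injective ((h _ _ hb').trans (hσ.trans e).symm)
    rwa [e', hσ] at hb'
  · refine Or.inr ⟨_, fun a b => ⟨h a b, fun e => ?_⟩⟩
    obtain ⟨σ, hσ⟩ := exists_perm1 b a
    obtain ⟨b', hb'⟩ := hex σ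
    rwa [(h _ _ hb').trans e.symm, hσ] at hb'

theorem rep (h : StmtLine0 α) : StmtRep α := by
  intro _ L A w hL hex
  have hw : ∀ a, L a w → A a := fun a ha => by
    obtain ⟨σ, rfl⟩ := exists_perm1 w a
    exact (hex σ).1 ⟨w, ha⟩
  have hoff : ∀ a b, L a b → b ≠ w → ∀ a', a ≠ a' → A a' := fun a b hab hb a' ha' => by
    obtain ⟨σ, rfl, rfl⟩ := exists_perm2 hb ha'
    exact (hex σ).1 ⟨b, hab⟩
  by_cases hc : ∀ a b, L a b → b = w
  · refine Or.inl fun a b => ⟨fun hab => ⟨hw a (hc a b hab ▸ hab), hc a b hab⟩, ?_⟩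
    rintro ⟨ha, rfl⟩
    obtain ⟨σ, rfl⟩ := exists_perm1 b a
    obtain ⟨b', hb'⟩ := (hex σ).2 ha
    rwa [hc _ _ hb'] at hb'
  push Not at hc
  obtain ⟨a0, b0, h0, hb0⟩ := hc
  by_cases hA : A a0
  · have hall : ∀ a, A a := fun a => by
      by_cases e : a0 = a
      · exact e ▸ hA
      · exact hoff a0 b0 h0 hb0 a e
    exact Or.inr (Or.inr ⟨hall, h L hL fun σ => (hex σ).2 (hall _)⟩)
  have hcell : ∀ a b, L a b → a = a0 ∧ b ≠ w := fun a b hab => by
    by_cases hb : b = w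
    · subst hb
      exact (hA ((Line0.row_or_col hL hab h0).resolve_right hb0.symm ▸ hw a hab)).elim
    · exact ⟨not_not.1 fun e => hA (hoff a b hab hb a0 e), hb⟩
  refine Or.inr (Or.inl ⟨a0, fun a => ⟨fun ha e => hA (e ▸ ha),
    fun ha => hoff a0 b0 h0 hb0 a ha.symm⟩, fun a b => ⟨hcell a b, ?_⟩⟩)
  rintro ⟨rfl, hb⟩
  obtain ⟨σ, hσ⟩ := exists_perm1 b a
  obtain ⟨b', hb'⟩ := (hex σ).2
    (hoff a b0 h0 hb0 _ fun e => hb (σ.injective (hσ.trans e)))
  have e' : b' = b := σ.injective ((hcell _ _ hb').1.trans hσ.symm)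
  rwa [e', hσ] at hb'

end Pool.Agent.MP_92191b_al.K6

end

section

/-! Assembly for three letters. -/

namespace Pool.Agent.MP_92191b_al.K3

open K6 X

variable {ι : Type} [Fintype ι] [DecidableEq ι]

theorem line_all : StmtLine ι := by
  have hS : StmtSec ι α := secT
  have hN : StmtNice ι := nice hS
  have hR : StmtGRL ι := gRL hS (rl cls3)
  have hGF : StmtGF ι := gF hS hN (fLem cls3)
  have hGL : StmtGLam ι := gLam hS hN hGF (lam cls3)
  have hA : StmtAlpha ι := alpha hS hR hGF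
  have hD1 : StmtDS1 ι := ds1 hS hA hGF hGL
  have hD : StmtDS ι := ds hD1 (ds2 hS hA hGF hGL hD1)
  exact lineThm line0 hR hD (no6 hS hN (phi6 cls3) hD)

theorem cenA_all : StmtCenA ι :=
  cenA (down cSec (cp cls3)) (kl cSec (ck (cp cls3))) fam

theorem a3 (hH : StmtH ι) : StmtAX ι (Fin 3) Exo := by
  have hL : StmtLab ι := lab K6.cnt line_all
  exact a3_of hH (thmA hL (sw (sw0 hL (sw2 K6.cnt line_all)) hH) (toCen K6.cnt cenA_all))

end Pool.Agent.MP_92191b_al.K3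

end

section

/-! Codes with odd distances, and a covering bound. -/

set_option linter.unusedSectionVars false

namespace Pool.Agent.MP_92191b_al.K3

open Finset Function Equiv K6 X

variable {ι : Type} [Fintype ι] [DecidableEq ι]

namespace HOdd

/-- First coordinate of a letter. -/
def pp (a : Fin 3) : ZMod 2 := if a = 1 then 0 else 1

/-- Second coordinate of a letter. -/
def qq (a : Fin 3) : ZMod 2 := if a = 0 then 0 else 1

theorem form (a b : Fin 3) : (if a ≠ b then 1 else 0 : ZMod 2) = pp a * qq b + qq a * pp b := by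
  revert a b
  decide

omit [DecidableEq ι] in
theorem dist_cast (c e : ι → Fin 3) :
    (hammingDist c e : ZMod 2) = ∑ i, (pp (c i) * qq (e i) + qq (c i) * pp (e i)) := by
  rw [hammingDist, card_filter, Nat.cast_sum]
  refine sum_congr rfl fun i _ => ?_
  rw [← form]
  split_ifs <;> simp

theorem card_two (a b : Fin 3) :
    ((univ.erase a).erase b).card * (if a ≠ b then 2 else 1) = 2 := by
  revert a b
  decide

theorem card_pi (c e : ι → Fin 3) :
    (Fintype.piFinset fun l => (univ.erase (c l)).erase (e l)).card * 2 ^ hammingDist c e =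
      2 ^ Fintype.card ι := by
  rw [Fintype.card_piFinset, hammingDist, ← prod_const, prod_filter, ← prod_mul_distrib,
    prod_congr rfl fun l _ => card_two (c l) (e l), prod_const, card_univ]

end HOdd

open HOdd

theorem odd : StmtOdd ι := by
  intro C hC
  let v : C → (ι → ZMod 2) × (ι → ZMod 2) × ZMod 2 := fun c =>
    (fun i => pp (c.1 i), fun i => qq (c.1 i), 1)
  have hv : LinearIndependent (ZMod 2) v := by
    refine Fintype.linearIndependent_iff.2 fun g hg e => ?_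
    have h1 : ∀ i, ∑ c : C, g c * pp (c.1 i) = 0 := fun i => by
      simpa [v, Prod.fst_sum] using congrFun (congrArg Prod.fst hg) i
    have h2 : ∀ i, ∑ c : C, g c * qq (c.1 i) = 0 := fun i => by
      simpa [v, Prod.fst_sum, Prod.snd_sum] using congrFun (congrArg (·.2.1) hg) i
    have h3 : ∑ c : C, g c = 0 := by
      simpa [v, Prod.snd_sum] using congrArg (·.2.2) hg
    have h4 : ∑ c : C, g c * (hammingDist c.1 e.1 : ZMod 2) = 0 := by
      simp only [dist_cast, mul_sum]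
      rw [sum_comm]
      refine sum_eq_zero fun i _ => ?_
      simp only [mul_add, ← mul_assoc, sum_add_distrib, ← sum_mul, h1, h2, zero_mul, add_zero]
    have h5 : ∀ c : C, g c * (hammingDist c.1 e.1 : ZMod 2) = g c - if c = e then g c else 0 := by
      intro c
      split_ifs with h
      · simp [h]
      · rw [(ZMod.natCast_eq_one_iff_odd).2 (hC _ c.2 _ e.2 fun h' => h (Subtype.ext h')), mul_one,
          sub_zero]
    rw [sum_congr rfl fun c _ => h5 c, sum_sub_distrib, h3, sum_ite_eq', if_pos (mem_univ _),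
      zero_sub, neg_eq_zero] at h4
    exact h4
  have h := hv.fintype_card_le_finrank
  simp only [Fintype.card_coe, Module.finrank_prod, Module.finrank_fintype_fun_eq_card,
    Module.finrank_self] at h
  omega

theorem kraft : StmtKraft ι := by
  intro C c δ hc hd hz
  have h1 : (Fintype.piFinset fun l => univ.erase (c l)) ⊆ (C.erase c).biUnion fun e =>
      Fintype.piFinset fun l => (univ.erase (c l)).erase (e l) := by
    intro z hz'
    simp only [Fintype.mem_piFinset, mem_erase, mem_univ, and_true] at hz'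
    obtain ⟨e, he, h2, h3⟩ := hz z fun l => (hz' l).symm
    simp only [mem_biUnion, Fintype.mem_piFinset, mem_erase, mem_univ, and_true]
    exact ⟨e, ⟨h2, he⟩, fun l => ⟨(h3 l).symm, hz' l⟩⟩
  have h2 := (card_le_card h1).trans card_biUnion_le
  have h3 : (Fintype.piFinset fun l => univ.erase (c l)).card = 2 ^ Fintype.card ι := by
    simp [Fintype.card_piFinset]
  have h4 : 2 ^ δ * 2 ^ Fintype.card ι ≤ (C.erase c).card * 2 ^ Fintype.card ι := by
    rw [mul_comm, ← smul_eq_mul (C.erase c).card, ← sum_const]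
    refine (Nat.mul_le_mul_right _ (h3 ▸ h2)).trans ?_
    rw [sum_mul]
    refine sum_le_sum fun e he => ?_
    rw [← card_pi c e]
    exact Nat.mul_le_mul_left _ (Nat.pow_le_pow_right two_pos
      (hd e (mem_of_mem_erase he) (ne_of_mem_erase he)))
  have h5 := Nat.le_of_mul_le_mul_right h4 (by positivity)
  have h6 := card_erase_add_one hc
  omega

end Pool.Agent.MP_92191b_al.K3

end

section

/-! The half cube from the local propagation property. -/

namespace Pool.Agent.MP_92191b_al.K3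

open Finset Function Equiv K6 X

variable {ι : Type} [Fintype ι] [DecidableEq ι]

namespace HProp

theorem third : ∀ a b : Fin 3, ∃ c, c ≠ a ∧ c ≠ b := by decide

theorem third_eq : ∀ a b c c' : Fin 3, a ≠ b → c ≠ a → c ≠ b → c' ≠ a → c' ≠ b → c = c' := by
  decide

theorem exists_ne (h : 3 ≤ Fintype.card ι) (i j : ι) : ∃ r, r ≠ i ∧ r ≠ j := by
  by_contra hn
  have h1 : (univ : Finset ι) ⊆ {i, j} := fun r _ => by
    by_contra hr
    rw [mem_insert, mem_singleton, not_or] at hr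
    exact hn ⟨r, hr⟩
  have h2 := (card_le_card h1).trans card_le_two
  rw [card_univ] at h2
  omega

theorem hd_update (y d : ι → Fin 3) {i : ι} (h : y i ≠ d i) :
    hammingDist y (update d i (y i)) + 1 = hammingDist y d := by
  have e : (univ.filter fun l => y l ≠ d l) =
      insert i (univ.filter fun l => y l ≠ update d i (y i) l) := by
    ext l
    by_cases hl : l = i
    · subst hl
      simp [h]
    · simp [hl]
  unfold hammingDist
  rw [e, card_insert_of_notMem (by simp)]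

theorem hd_two (y d : ι → Fin 3) {i j : ι} (hij : i ≠ j) (hi : y i ≠ d i) (hj : y j ≠ d j) :
    hammingDist y (update (update d i (y i)) j (y j)) + 2 = hammingDist y d := by
  have h1 := hd_update y d hi
  have h2 := hd_update y (update d i (y i)) (i := j) (by rwa [update_of_ne hij.symm])
  omega

theorem even_flip {y d : ι → Fin 3} {i j : ι} (hij : i ≠ j) (hi : y i ≠ d i) (hj : y j ≠ d j)
    (h : ∀ s, s ≠ i → s ≠ j → y s = d s) : Even (hammingDist y d) := by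
  have h1 := hd_two y d hij hi hj
  have e : update (update d i (y i)) j (y j) = y := by
    funext s
    by_cases h2 : s = j
    · rw [h2, update_self]
    · rw [update_of_ne h2]
      by_cases h3 : s = i
      · rw [h3, update_self]
      · rw [update_of_ne h3, h s h3 h2]
  rw [e, hammingDist_self] at h1
  rw [← h1]
  exact even_two

variable {D : Finset (ι → Fin 3)} {G : (ι → Fin 3) → ι → ι → Fin 3 → Fin 3 → Prop}

theorem uniq (h3 : 3 ≤ Fintype.card ι) (hL : Loc D G) {d : ι → Fin 3} {i j : ι} {s t s' t' : Fin 3}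
    (h : G d i j s t) (h' : G d i j s' t') : s = s' ∧ t = t' := by
  obtain ⟨hij, a1, a2⟩ := hL.ne _ _ _ _ _ h
  obtain ⟨-, b1, b2⟩ := hL.ne _ _ _ _ _ h'
  obtain ⟨r, hi, hj⟩ := exists_ne h3 i j
  obtain ⟨p, p1, p2⟩ := third s' (d i)
  obtain ⟨q, q1, q2⟩ := third t' (d j)
  obtain ⟨w, w1, w2, -⟩ := hL.step _ _ _ _ _ r h hi hj
  obtain ⟨w', w1', -, w2'⟩ := hL.step _ _ _ _ _ r h' hi hj
  obtain ⟨y, yi, yj, ys⟩ : ∃ y : ι → Fin 3, y i = p ∧ y j = q ∧ ∀ s, s ≠ i → s ≠ j → y s = d s :=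
    ⟨update (update d i p) j q, by rw [update_of_ne hij, update_self], update_self ..,
      fun s h1 h2 => by rw [update_of_ne h2, update_of_ne h1]⟩
  have hy := (w2' y (fun s h1 h2 _ => ys s h1 h2) (yi ▸ p1) (yj ▸ q1) (ys r hi hj ▸ w1')
    (even_flip hij (yi ▸ p2) (yj ▸ q2) ys)).1
  rcases w2 y hy (fun s h1 h2 _ => ys s h1 h2) with h1 | h1
  · exact absurd (ys r hi hj ▸ h1.2.2) w1
  · exact ⟨third_eq p (d i) s s' p2 (yi ▸ h1.1.symm) a1.symm p1.symm b1.symm,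
      third_eq q (d j) t t' q2 (yj ▸ h1.2.1.symm) a2.symm q1.symm b2.symm⟩

omit [DecidableEq ι] in
theorem self_step (hL : Loc D G) {d : ι → Fin 3} {a b r : ι} {u v : Fin 3} (h : G d a b u v)
    (ha : r ≠ a) (hb : r ≠ b) : d ∈ D ∧ G d b a v u ∧ ∃ w, G d a r u w ∧ G d b r v w := by
  obtain ⟨-, a1, a2⟩ := hL.ne _ _ _ _ _ h
  obtain ⟨w, w1, -, w2⟩ := hL.step _ _ _ _ _ r h ha hb
  obtain ⟨b1, -, b2, b3, -, b4, -⟩ := w2 d (fun _ _ _ _ => rfl) a1 a2 w1 (by simp)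
  exact ⟨b1, b2, w, b3, b4⟩

theorem good_of (h3 : 3 ≤ Fintype.card ι) (hL : Loc D G) {d ζ : ι → Fin 3} {a : ι}
    (h : ∀ r, r ≠ a → G d a r (ζ a) (ζ r)) (i j : ι) (hij : i ≠ j) : G d i j (ζ i) (ζ j) := by
  by_cases hi : i = a
  · subst hi
    exact h j hij.symm
  by_cases hj : j = a
  · subst hj
    obtain ⟨r, r1, r2⟩ := exists_ne h3 j i
    exact (self_step hL (h i hi) r1 r2).2.1
  obtain ⟨-, -, w, w1, w2⟩ := self_step hL (h i hi) hj hij.symm
  rwa [(uniq h3 hL w1 (h j hj)).2] at w2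

theorem good_flip (h3 : 3 ≤ Fintype.card ι) (hL : Loc D G) {d y ζ : ι → Fin 3}
    (h : ∀ i j, i ≠ j → G d i j (ζ i) (ζ j)) {i j : ι} (hij : i ≠ j) (hi : y i ≠ d i)
    (hj : y j ≠ d j) (hi' : y i ≠ ζ i) (hj' : y j ≠ ζ j) (ys : ∀ s, s ≠ i → s ≠ j → y s = d s) :
    ∀ i j, i ≠ j → G y i j (ζ i) (ζ j) := by
  have key : ∀ r, r ≠ i → r ≠ j → G y i j (ζ i) (ζ j) ∧ G y i r (ζ i) (ζ r) := fun r r1 r2 => by
    obtain ⟨w, w1, -, w2⟩ := hL.step _ _ _ _ _ r (h i j hij) r1 r2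
    obtain ⟨-, a1, a2⟩ := hL.ne _ _ _ _ _ (h i j hij)
    have e := (uniq h3 hL (w2 d (fun _ _ _ _ => rfl) a1 a2 w1 (by simp)).2.2.2.1
      (h i r r1.symm)).2
    obtain ⟨-, b1, -, b2, -⟩ := w2 y (fun s h1 h2 _ => ys s h1 h2) hi' hj' (ys r r1 r2 ▸ w1)
      (even_flip hij hi hj ys)
    exact ⟨b1, e ▸ b2⟩
  refine good_of h3 hL (a := i) fun r hr => ?_
  by_cases hrj : r = j
  · obtain ⟨r', r1, r2⟩ := exists_ne h3 i j
    exact hrj ▸ (key r' r1 r2).1
  · exact (key r hr hrj).2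

theorem good_even (h3 : 3 ≤ Fintype.card ι) (hL : Loc D G) {y ζ : ι → Fin 3}
    (hy : ∀ l, y l ≠ ζ l) (n : ℕ) : ∀ d : ι → Fin 3, (∀ i j, i ≠ j → G d i j (ζ i) (ζ j)) →
      hammingDist y d = 2 * n → ∀ i j, i ≠ j → G y i j (ζ i) (ζ j) := by
  induction n with
  | zero =>
    intro d h hd
    rwa [hammingDist_eq_zero.1 hd]
  | succ n ih =>
    intro d h hd
    have h1 : 1 < (univ.filter fun l => y l ≠ d l).card := by
      change 1 < hammingDist y d
      omega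
    obtain ⟨i, hi, j, hj, hij⟩ := one_lt_card.1 h1
    have hi := (mem_filter.1 hi).2
    have hj := (mem_filter.1 hj).2
    have h2 := hd_two y d hij hi hj
    refine ih (update (update d i (y i)) j (y j))
      (good_flip h3 hL h hij ?_ ?_ ?_ ?_ fun s s1 s2 => ?_) (by omega)
    · rwa [update_of_ne hij, update_self]
    · rwa [update_self]
    · rw [update_of_ne hij, update_self]
      exact hy i
    · rw [update_self]
      exact hy j
    · rw [update_of_ne s2, update_of_ne s1]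

end HProp

open HProp in
theorem prop : StmtProp ι := by
  intro h3 D G hL d a b u v h
  have hab := (hL.ne _ _ _ _ _ h).1
  have h1 : ∀ r, ∃ w, (r = a → w = u) ∧ (r ≠ a → G d a r u w) := fun r => by
    by_cases ha : r = a
    · exact ⟨u, fun _ => rfl, fun h' => absurd ha h'⟩
    by_cases hb : r = b
    · exact ⟨v, fun h' => absurd h' ha, fun _ => hb ▸ h⟩
    obtain ⟨-, -, w, w1, -⟩ := self_step hL h ha hb
    exact ⟨w, fun h' => absurd h' ha, fun _ => w1⟩
  choose ζ z1 z2 using h1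
  have hg := good_of h3 hL (ζ := ζ) (a := a) fun r hr => z1 a rfl ▸ z2 r hr
  refine ⟨ζ, fun l => ?_, fun y hy => ⟨fun hD => ?_, fun he => ?_⟩⟩
  · obtain ⟨r, r1, -⟩ := exists_ne h3 l l
    exact (hL.ne _ _ _ _ _ (hg l r r1.symm)).2.1
  · by_contra hn
    obtain ⟨n, hn⟩ := Nat.not_even_iff_odd.1 hn
    have h1 : 0 < (univ.filter fun l => y l ≠ d l).card := by
      change 0 < hammingDist y d
      omega
    obtain ⟨i, hi⟩ := card_pos.1 h1
    have hi := (mem_filter.1 hi).2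
    obtain ⟨j, j1, -⟩ := exists_ne h3 i i
    obtain ⟨r, r1, r2⟩ := exists_ne h3 i j
    have h2 := hd_update d y hi.symm
    rw [hammingDist_comm d y, hammingDist_comm d] at h2
    have h4 := good_even h3 hL (y := update y i (d i)) (ζ := ζ) (fun l => by
      by_cases hl : l = i
      · rw [hl, update_self]
        exact (hL.ne _ _ _ _ _ (hg i j j1.symm)).2.1
      · rw [update_of_ne hl]
        exact hy l) n d hg (by omega)
    obtain ⟨w, -, w2, -⟩ := hL.step _ _ _ _ _ r (h4 i j j1.symm) r1 r2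
    rcases w2 y hD (fun s s1 _ _ => (update_of_ne s1 _ _).symm) with h5 | h5
    · exact hy i h5.1
    · have h6 := hd_update y (update y i (d i)) (i := i) (by rwa [update_self])
      rw [update_idem, update_eq_self, hammingDist_self] at h6
      have h7 := h5.2.2.2
      rw [← h6] at h7
      exact Nat.not_even_one h7
  · obtain ⟨n, hn⟩ := he
    obtain ⟨r, r1, r2⟩ := exists_ne h3 a b
    exact (self_step hL (good_even h3 hL hy n d hg (by omega) a b hab) r1 r2).1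

end Pool.Agent.MP_92191b_al.K3

end

section

/-! The structure theorem for three letters from the two local statements. -/

namespace Pool.Agent.MP_92191b_al.K3

open K6 X

variable {ι : Type} [Fintype ι] [DecidableEq ι]

theorem a3_loc (h9 : StmtA9) (h3 : StmtPL3) : StmtAX ι (Fin 3) Exo :=
  a3 (hThm sys h9 (loc h3) prop (fin odd kraft two (ball two) sz))

end Pool.Agent.MP_92191b_al.K3

end
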