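import Pool.Agent.MP_92191b_al.K6.Basic
import Pool.Agent.MP_92191b_al.G.Four
import Pool.Agent.MP_92191b_al.X.Defs

section

/-! A line with two singles at different positions. -/

set_option linter.unusedSectionVars false

namespace Pool.Agent.MP_92191b_al.K6

open Finset Function Equiv

variable {ι α : Type} [Fintype ι] [DecidableEq ι] [Fintype α] [DecidableEq α]

namespace Alpha

theorem cell_of_rline {T : Rel2 ι α} {σ : ι → Perm α} {j : ι} {x : α} {c d : α → ι → α}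
    (h : RLine T σ j x c d) (i : ι) (b : α) : Cell T σ i j (c b) (d b) :=
  ⟨(h b).1, fun r _ hj => (h b).2.2.2 r hj⟩

theorem cell_of_rline' {T : Rel2 ι α} {σ : ι → Perm α} {j : ι} {x : α} {c d : α → ι → α}
    (h : RLine T σ j x c d) (i : ι) (b : α) : Cell T σ j i (c b) (d b) :=
  ⟨(h b).1, fun r hj _ => (h b).2.2.2 r hj⟩

theorem lem0 (h1 : StmtM1 ι α) (hR : StmtGRL ι α) (hk : 4 ≤ Fintype.card α) {T : Rel2 ι α}
    (hT : Good T) {σ : ι → Perm α} {i j l : ι} {x b1 wi b b' : α} {c d : α → ι → α}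
    (hij : i ≠ j) (hli : l ≠ i) (hlj : l ≠ j) (hL : RLine T σ j x c d)
    (hs : Single (fun b => d b i) b1 wi) (hb : b ≠ b1) (hb' : b' ≠ b1)
    (hne : d b l ≠ d b' l) : Is4 (pl T σ i j) (σ i wi) x (d b1 i) b1 := by
  have e1 : d b i = wi := hs.1 b hb
  have e2 : d b' i = wi := hs.1 b' hb'
  have e3 : d b1 i ≠ wi := hs.2
  rcases hR hk T hT σ i j x c d hij hL with ⟨w, hw⟩ | ⟨b0, w, hs', h⟩ | ⟨τ, hτ, -⟩
  · exact absurd ((hw b1).trans ((hw b).symm.trans e1)) e3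
  · obtain ⟨z, hz0, hz1⟩ := exists_ne2 (α := α) (by omega) b0 b1
    have hw : w = wi := (hs'.1 z hz0).symm.trans (hs.1 z hz1)
    subst hw
    have hb0 : b1 = b0 := by
      by_contra hne'
      exact e3 (hs'.1 b1 hne')
    subst hb0
    rcases h with h | ⟨x1, h⟩
    · exact h
    · refine absurd (h1 hk T hT.tight hT.prod σ i j hij _ _ _ _ _ _ h (c b) (d b) (c b') (d b')
        (cell_of_rline hL i b) (cell_of_rline hL i b') ?_ (hL b).2.1 ?_ (hL b').2.1 l hli hlj) hne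
      · rw [(hL b).2.2.2 i hij, e1]
      · rw [(hL b').2.2.2 i hij, e2]
  · have : b = b' := τ.injective ((hτ b).symm.trans (e1.trans (e2.symm.trans (hτ b'))))
    exact absurd (by rw [this]) hne

/-- The colouring of a cross plane is of the first kind with arm colour `m` as soon as one row or
column contains two far cells of colour `m` and some far cell has another colour. -/
theorem colour (hF : StmtGF ι α) (hk : 4 ≤ Fintype.card α) {T : Rel2 ι α} (hT : Good T)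
    {σ : ι → Perm α} {i j r : ι} {x1 x2 y1 y2 m : α} (hij : i ≠ j) (hri : r ≠ i) (hrj : r ≠ j)
    (h4 : Is4 (pl T σ i j) x1 x2 y1 y2) {c0 d0 c1 d1 c2 d2 : ι → α}
    (f0 : Far T σ i j y1 y2 c0 d0) (f1 : Far T σ i j y1 y2 c1 d1) (f2 : Far T σ i j y1 y2 c2 d2)
    (e0 : d0 r ≠ m) (e1 : d1 r = m) (e2 : d2 r = m) (h12 : d1 i = d2 i ∨ d1 j = d2 j)
    (hne : d1 ≠ d2) :
    (∀ c d, Arm T σ i j x1 x2 y1 y2 c d → d r = m) ∧
      ∀ c d c' d', Far T σ i j y1 y2 c d → Far T σ i j y1 y2 c' d' →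
        d i = d' i ∨ d j = d' j → d r ≠ m → d' r ≠ m → d = d' := by
  rcases hF hk T hT σ i j r x1 x2 y1 y2 hij hri hrj h4 with ⟨μ, hμ⟩ | ⟨m', hm, h | h⟩
  · exact absurd ((hμ _ _ f0).trans ((hμ _ _ f1).symm.trans e1)) e0
  · have : m' = m := by
      by_contra hne'
      exact hne (h _ _ _ _ f1 f2 h12 (fun h' => hne' (h'.symm.trans e1))
        fun h' => hne' (h'.symm.trans e2))
    subst this
    exact ⟨hm, h⟩
  · exact absurd (h _ _ _ _ f1 f2 h12 (e1.trans e2.symm)) hne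

end Alpha

open Alpha in
theorem alpha (hS : StmtSec ι α) (h1 : StmtM1 ι α) (hR : StmtGRL ι α) (hF : StmtGF ι α) :
    StmtAlpha ι α := by
  intro hk T hT σ i j l x b1 b2 wi wl c d hij hlj hil hb hL hsi hsl
  obtain ⟨b3, hb31, hb32⟩ := exists_ne2 (α := α) (by omega) b1 b2
  obtain ⟨b4, hb41, hb42, hb43⟩ := exists_ne3 (α := α) (by omega) b1 b2 b3
  have hi : ∀ b, b ≠ b1 → d b i = wi := hsi.1
  have hi1 : d b1 i ≠ wi := hsi.2
  have hl : ∀ b, b ≠ b2 → d b l = wl := hsl.1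
  have hl2 : d b2 l ≠ wl := hsl.2
  have hA : Is4 (pl T σ i j) (σ i wi) x (d b1 i) b1 :=
    lem0 h1 hR hk hT hij hil.symm hlj hL hsi hb.symm hb31 (by rw [hl b3 hb32]; exact hl2)
  have hB : Is4 (pl T σ l j) (σ l wl) x (d b2 l) b2 :=
    lem0 h1 hR hk hT hlj hil hij hL hsl hb hb32 (by rw [hi b3 hb31]; exact hi1)
  have hB' : Is4 (pl T σ j l) x (σ l wl) b2 (d b2 l) := by
    rw [pl_flp T σ l j]; exact hB.flp
  refine ⟨by rw [pl_flp T σ i j]; exact hA.flp, fun τ hτ => ?_⟩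
  have far0 : ∀ b, b ≠ b2 → Far T σ j l b2 (d b2 l) (c b) (d b) := fun b hb2 =>
    ⟨cell_of_rline' hL l b, by rw [(hL b).2.2.1]; exact hb2, by rw [hl b hb2]; exact hl2.symm⟩
  obtain ⟨hArm, hFar⟩ := colour (m := wi) hF hk hT hlj.symm hij hil hB' (far0 b1 hb)
    (far0 b3 hb32) (far0 b4 hb42) hi1 (hi b3 hb31) (hi b4 hb41)
    (Or.inr ((hl b3 hb32).trans (hl b4 hb42).symm))
    (fun h => hb43 (by rw [← (hL b4).2.2.1, ← h, (hL b3).2.2.1]))
  have hex : ∀ v, ∃ c' d' : ι → α, Cell T σ j l c' d' ∧ c' l = σ l wl ∧ d' l = v ∧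
      c' j = τ (d' j) ∧ (v ≠ d b2 l → d' j = b1) ∧ (v = d b2 l → d' j = b2) := by
    intro v
    by_cases hv : v = d b2 l
    · obtain ⟨c', d', hc, e1, e2, e3, e4⟩ :=
        (hB' (τ b2) (σ l wl) b2 v).2 (Or.inr ⟨Or.inr rfl, rfl, hv⟩)
      exact ⟨c', d', hc, e2, e4, by rw [e1, e3], fun h => absurd hv h, fun _ => e3⟩
    · obtain ⟨c', d', hc, e1, e2, e3, e4⟩ :=
        (hB' x (σ l wl) b1 v).2 (Or.inl ⟨rfl, rfl, hb, hv⟩)
      exact ⟨c', d', hc, e2, e4, by rw [e1, e3, hτ], fun _ => e3, fun h => absurd h hv⟩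
  choose c' d' hc hcl hdl hcj hj1 hj2 using hex
  have hL' : RLine T (update σ j τ) l (σ l wl) c' d' := by
    intro v
    refine ⟨(hc v).1, hcl v, hdl v, fun r hr => ?_⟩
    by_cases hrj : r = j
    · subst hrj
      rw [update_self]; exact hcj v
    · rw [update_of_ne hrj]; exact (hc v).2 r hrj hr
  have hw : d' wl = d b1 := by
    refine ((hS T hT.tight σ j l hlj.symm).2.1 _ _ _ _ (hc wl) (cell_of_rline' hL l b1) ?_).2
    rw [hcj wl, hj1 wl hl2.symm, hτ, (hL b1).2.1, hcl wl, (hL b1).2.2.2 l hlj, hl b1 hb, hdl wl,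
      (hL b1).2.2.1]
    simp
  have far1 : ∀ v, v ≠ d b2 l → Far T σ j l b2 (d b2 l) (c' v) (d' v) := fun v hv =>
    ⟨hc v, by rw [hj1 v hv]; exact hb, by rw [hdl v]; exact hv⟩
  have hwi : ∀ v, v ≠ wl → d' v i = wi := by
    intro v hv
    by_cases hv2 : v = d b2 l
    · refine hArm _ _ ⟨hc v, hj2 v hv2, (hdl v).trans hv2, Or.inl ?_⟩
      rw [hcj v, hj2 v hv2, ← hτ]
      exact fun h => hb (τ.injective h).symm
    · by_contra hne
      have := hFar _ _ _ _ (far1 v hv2) (far1 wl hl2.symm)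
        (Or.inl ((hj1 v hv2).trans (hj1 wl hl2.symm).symm)) hne (by rw [hw]; exact hi1)
      exact hv (by rw [← hdl v, this, hdl wl])
  have hs' : Single (fun v => d' v i) wl wi := ⟨hwi, by simpa only [hw] using hi1⟩
  obtain ⟨v3, hv31, hv32⟩ := exists_ne2 (α := α) (by omega) wl (d b2 l)
  obtain ⟨v4, hv41, hv42, hv43⟩ := exists_ne3 (α := α) (by omega) wl (d b2 l) v3
  have hC : Is4 (pl T (update σ j τ) i l) (σ i wi) (σ l wl) (d b1 i) wl := by
    have := lem0 h1 hR hk hT hil hij.symm hlj.symm hL' hs' hl2 hv31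
      (by rw [hj2 _ rfl, hj1 v3 hv32]; exact hb.symm)
    rwa [update_of_ne hij, hw] at this
  have far2 : ∀ v, v ≠ wl → Far T (update σ j τ) i l (d b1 i) wl (c' v) (d' v) := fun v hv =>
    ⟨cell_of_rline hL' i v, by rw [hwi v hv]; exact hi1.symm, by rw [hdl v]; exact hv⟩
  have hG : d' (d b2 l) j ≠ b1 := by rw [hj2 _ rfl]; exact hb.symm
  obtain ⟨hArm', hFar'⟩ := colour (m := b1) hF hk hT hil hij.symm hlj.symm hC (far2 _ hl2)
    (far2 v3 hv31) (far2 v4 hv41) hG (hj1 v3 hv32) (hj1 v4 hv42)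
    (Or.inl ((hwi v3 hv31).trans (hwi v4 hv41).symm))
    (fun h => hv43 (by rw [← hdl v4, ← h, hdl v3]))
  refine ⟨hC, hArm', ⟨c' (d b2 l), d' (d b2 l), cell_of_rline hL' i _, hwi _ hl2, hdl _,
    hj2 _ rfl⟩, fun c'' d'' hf h => ?_⟩
  by_cases hj : d'' j = b1
  · exact Or.inl hj
  · have := hFar' _ _ _ _ hf (far2 _ hl2) (by rw [hwi _ hl2, hdl]; exact h) hj hG
    exact Or.inr ⟨by rw [this]; exact hwi _ hl2, by rw [this]; exact hdl _⟩

end Pool.Agent.MP_92191b_al.K6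

end

section

/-! Classification of centred planes. -/

set_option linter.unusedSectionVars false

namespace Pool.Agent.MP_92191b_al.K6

open Finset Function Equiv

variable {ι α : Type} [Fintype ι] [DecidableEq ι] [Fintype α] [DecidableEq α]

namespace CP

theorem nq_zero {β : Type} [DecidableEq β] {a b : β} (h : nq a b = 0) : a = b := by
  by_contra h'
  rw [nq_of_ne h'] at h
  omega

theorem nz_false {a b : α} : nz a b = false ↔ a = b := by simp [nz]

theorem nz_true {a b : α} : nz a b = true ↔ a ≠ b := by simp [nz]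

theorem plane {W : W2 α} (hW : CPlane W) (o : α) :
    Plane fun c1 c2 d1 d2 : α => W c1 c2 (nz d1 o) (nz d2 o) where
  sep c1 c2 d1 d2 c1' c2' d1' d2' h1 h2 he := by
    have a1 := nz_le_nq d1 d1' o
    have a2 := nz_le_nq d2 d2' o
    have b1 := nq_le_bo d1 d1' o
    have b2 := nq_le_bo d2 d2' o
    obtain ⟨e1, e2⟩ := hW.sep _ _ _ _ _ _ _ _ h1 h2 (by omega) (by omega)
    subst e1 e2
    rw [nq_self, nq_self] at he
    exact ⟨rfl, rfl, nq_zero (by omega), nq_zero (by omega)⟩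
  ex σ1 σ2 := by
    obtain ⟨c1, c2, h⟩ := hW.ex (σ1 o) (σ2 o)
    obtain ⟨d1, rfl⟩ := σ1.surjective c1
    obtain ⟨d2, rfl⟩ := σ2.surjective c2
    refine ⟨d1, d2, ?_⟩
    simpa [nz] using h

theorem pin (hk : 3 ≤ Fintype.card α) {B : Bool → Prop} {o y : α}
    (h : ∀ d, B (nz d o) ↔ d = y) : y = o := by
  by_contra hy
  obtain ⟨d, h1, h2⟩ := exists_ne2 hk o y
  have h3 := (h y).2 rfl
  rw [nz_of_ne hy, ← nz_of_ne h1] at h3
  exact h2 ((h d).1 h3)

end CP

open CP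

theorem cp (h : StmtCls α) : StmtCP α := by
  intro hk W hW
  have hk2 : 2 ≤ Fintype.card α := by omega
  have hk3 : 3 ≤ Fintype.card α := by omega
  obtain ⟨o⟩ : Nonempty α := Fintype.card_pos_iff.1 (by omega)
  obtain ⟨o', ho⟩ := exists_ne1 hk2 o
  have hδ : ∀ t : Bool, ∃ d : α, nz d o = t := fun t => by
    cases t
    · exact ⟨o, nz_self o⟩
    · exact ⟨o', nz_of_ne ho⟩
  rcases h hk _ (plane hW o) with ⟨x1, x2, H⟩ | ⟨y1, y2, H⟩ | ⟨x1, x2, y1, y2, H⟩ |
    ⟨x1, x2, y1, y2, H⟩ | ⟨τ, y, H⟩ | ⟨τ, y, H⟩ | ⟨τ, x, H⟩ | ⟨τ, x, H⟩ |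
    ⟨a0, a1, x0, x1, y1, y2, ha, hx, H⟩ | ⟨a0, a1, x0, x1, y1, y2, ha, hx, H⟩
  · refine Or.inl ⟨x1, x2, fun c1 c2 t1 t2 => ?_⟩
    obtain ⟨d1, rfl⟩ := hδ t1
    obtain ⟨d2, rfl⟩ := hδ t2
    exact H c1 c2 d1 d2
  · have e1 : y1 = o := pin hk3 (B := fun t => W o o t (nz y2 o)) fun d =>
      (H o o d y2).trans (by simp)
    have e2 : y2 = o := pin hk3 (B := fun t => W o o (nz y1 o) t) fun d =>
      (H o o y1 d).trans (by simp)
    refine Or.inr (Or.inl fun c1 c2 t1 t2 => ?_)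
    obtain ⟨d1, rfl⟩ := hδ t1
    obtain ⟨d2, rfl⟩ := hδ t2
    rw [nz_false, nz_false]
    rw [e1, e2] at H
    exact H c1 c2 d1 d2
  · obtain ⟨u1, hu1⟩ := exists_ne1 hk2 x1
    obtain ⟨u2, hu2⟩ := exists_ne1 hk2 x2
    have e1 : y1 = o := pin hk3 (B := fun t => W u1 u2 t (nz y2 o)) fun d =>
      (H u1 u2 d y2).trans (by simp [hu1, hu2])
    have e2 : y2 = o := pin hk3 (B := fun t => W u1 u2 (nz y1 o) t) fun d =>
      (H u1 u2 y1 d).trans (by simp [hu1, hu2])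
    refine Or.inr (Or.inr (Or.inl ⟨x1, x2, fun c1 c2 t1 t2 => ?_⟩))
    obtain ⟨d1, rfl⟩ := hδ t1
    obtain ⟨d2, rfl⟩ := hδ t2
    rw [nz_false, nz_false]
    rw [e1, e2] at H
    exact H c1 c2 d1 d2
  · obtain ⟨u2, hu2⟩ := exists_ne1 hk2 x2
    have e1 : y1 = o := pin hk3 (B := fun t => W x1 u2 t (nz y2 o)) fun d =>
      (H x1 u2 d y2).trans (by simp [hu2])
    have e2 : y2 = o := pin hk3 (B := fun t => W x1 u2 (nz y1 o) t) fun d =>
      (H x1 u2 y1 d).trans (by simp [hu2])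
    refine Or.inr (Or.inr (Or.inr (Or.inl ⟨x1, x2, fun c1 c2 t1 t2 => ?_⟩)))
    obtain ⟨d1, rfl⟩ := hδ t1
    obtain ⟨d2, rfl⟩ := hδ t2
    rw [nz_false, nz_false, nz_true, nz_true]
    rw [e1, e2] at H
    exact H c1 c2 d1 d2
  · have e1 : y = o := pin hk3 (B := fun t => W (τ o) o t (nz o o)) fun d =>
      (H (τ o) o d o).trans (by simp)
    refine Or.inr (Or.inr (Or.inr (Or.inr (Or.inl ⟨τ, fun c1 c2 t1 t2 => ?_⟩))))
    obtain ⟨d1, rfl⟩ := hδ t1
    obtain ⟨d2, rfl⟩ := hδ t2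
    rw [nz_false]
    rw [e1] at H
    exact H c1 c2 d1 d2
  · have e1 : y = o := pin hk3 (B := fun t => W (τ o) o (nz o o) t) fun d =>
      (H (τ o) o o d).trans (by simp)
    refine Or.inr (Or.inr (Or.inr (Or.inr (Or.inr (Or.inl ⟨τ, fun c1 c2 t1 t2 => ?_⟩)))))
    obtain ⟨d1, rfl⟩ := hδ t1
    obtain ⟨d2, rfl⟩ := hδ t2
    rw [nz_false]
    rw [e1] at H
    exact H c1 c2 d1 d2
  · have e1 : ∀ d2, τ d2 = o := fun d2 => pin hk3 (B := fun t => W x o t (nz d2 o)) fun d =>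
      (H x o d d2).trans (by simp)
    exact absurd (τ.injective ((e1 o').trans (e1 o).symm)) ho
  · have e1 : ∀ d2, τ d2 = o := fun d2 => pin hk3 (B := fun t => W o x t (nz d2 o)) fun d =>
      (H o x d d2).trans (by simp)
    exact absurd (τ.injective ((e1 o').trans (e1 o).symm)) ho
  · obtain ⟨u, hu⟩ := exists_ne1 hk2 y2
    have e1 : a0 = o := pin hk3 (B := fun t => W y1 u t (nz x0 o)) fun d =>
      (H d x0 y1 u).trans (by simp [hu, hx])
    have e2 : a1 = o := pin hk3 (B := fun t => W y1 u t (nz x1 o)) fun d =>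
      (H d x1 y1 u).trans (by simp [hu, hx.symm])
    exact absurd (e1.trans e2.symm) ha
  · obtain ⟨u1, hu1, hu1'⟩ := exists_ne2 hk3 a0 a1
    obtain ⟨u2, hu2, hu2'⟩ := exists_ne2 hk3 x0 x1
    have e1 : y1 = o := pin hk3 (B := fun t => W u1 u2 t (nz y2 o)) fun d =>
      (H u1 u2 d y2).trans (by simp [hu1, hu2, hu1', hu2'])
    have e2 : y2 = o := pin hk3 (B := fun t => W u1 u2 (nz y1 o) t) fun d =>
      (H u1 u2 y1 d).trans (by simp [hu1, hu2, hu1', hu2'])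
    refine Or.inr (Or.inr (Or.inr (Or.inr (Or.inr (Or.inr
      ⟨a0, a1, x0, x1, ha, hx, fun c1 c2 t1 t2 => ?_⟩)))))
    obtain ⟨d1, rfl⟩ := hδ t1
    obtain ⟨d2, rfl⟩ := hδ t2
    rw [nz_false, nz_false, nz_true, nz_true]
    rw [e1, e2] at H
    exact H c1 c2 d1 d2

theorem ck (h : StmtCP α) : StmtCK α := by
  intro hk W z e hW he
  have hk2 : 2 ≤ Fintype.card α := by omega
  rcases h hk W hW with ⟨x1, x2, H⟩ | H | ⟨x1, x2, H⟩ | ⟨x1, x2, H⟩ | ⟨τ, H⟩ | ⟨τ, H⟩ |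
    ⟨a0, a1, x0, x1, ha, hx, H⟩
  · obtain ⟨u, hu⟩ := exists_ne1 hk2 x2
    exact absurd ((H _ _ _ _).1 (he u)).2 hu
  · exact Or.inl fun a => nz_false.1 ((H _ _ _ _).1 (he a)).1
  · have h1 : ∀ a, a ≠ x2 → e a = z ∧ e a ≠ x1 := fun a ha => by
      rcases (H _ _ _ _).1 (he a) with ⟨-, h2, -⟩ | ⟨h2, -, h3, -⟩
      · exact absurd h2 ha
      · exact ⟨nz_false.1 h3, h2⟩
    have h2 : e x2 = x1 := by
      rcases (H _ _ _ _).1 (he x2) with ⟨h2, -, -⟩ | ⟨-, h2, -⟩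
      · exact h2
      · exact absurd rfl h2
    obtain ⟨u, hu⟩ := exists_ne1 hk2 x2
    refine Or.inr (Or.inl ⟨x2, ⟨fun b hb => (h1 b hb).1, fun h3 => (h1 u hu).2 ?_⟩, ?_⟩)
    · rw [(h1 u hu).1, ← h3, h2]
    · rw [h2]
      exact H
  · refine Or.inl fun a => ?_
    rcases (H _ _ _ _).1 (he a) with ⟨-, -, -, h2⟩ | ⟨-, h2, -⟩
    · exact absurd h2 (by simp)
    · exact nz_false.1 h2
  · have h1 : ∀ a, τ a = z := fun a => by
      obtain ⟨h2, h3⟩ := (H _ _ _ _).1 (he a)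
      rw [← h2]
      exact nz_false.1 h3
    obtain ⟨u, hu⟩ := exists_ne1 hk2 z
    exact absurd (τ.injective ((h1 u).trans (h1 z).symm)) hu
  · exact Or.inr (Or.inr (Or.inr ⟨τ, fun a => ((H _ _ _ _).1 (he a)).1, H⟩))
  · have h1 : ∀ a, (((e a = a0 ∧ a = x1) ∨ (e a = a1 ∧ a = x0)) ∧ e a ≠ z) ∨
        (a ≠ x0 ∧ a ≠ x1 ∧ e a = z) := fun a => by
      rcases (H _ _ _ _).1 (he a) with ⟨-, -, h2⟩ | ⟨h2, h3, -⟩ | ⟨-, -, h2, h3, h4, -⟩
      · exact absurd h2 (by simp)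
      · exact Or.inl ⟨h2, nz_true.1 h3⟩
      · exact Or.inr ⟨h2, h3, nz_false.1 h4⟩
    have h2 : e x1 = a0 ∧ e x1 ≠ z := by
      rcases h1 x1 with ⟨⟨h2, -⟩ | ⟨-, h2⟩, h3⟩ | ⟨-, h2, -⟩
      · exact ⟨h2, h3⟩
      · exact absurd h2.symm hx
      · exact absurd rfl h2
    have h3 : e x0 = a1 ∧ e x0 ≠ z := by
      rcases h1 x0 with ⟨⟨-, h2⟩ | ⟨h2, -⟩, h3⟩ | ⟨h2, -, -⟩
      · exact absurd h2 hx
      · exact ⟨h2, h3⟩
      · exact absurd rfl h2
    refine Or.inr (Or.inr (Or.inl ⟨x1, x0, hx.symm, fun a b1 b0 => ?_, h2.2, h3.2, ?_⟩))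
    · rcases h1 a with ⟨⟨-, h2⟩ | ⟨-, h2⟩, -⟩ | ⟨-, -, h2⟩
      · exact absurd h2 b1
      · exact absurd h2 b0
      · exact h2
    · rw [h2.1, h3.1]
      exact ⟨ha, hx, H⟩

end Pool.Agent.MP_92191b_al.K6

end

section

/-! All lines through a point are kept, or none. -/

set_option linter.unusedSectionVars false

namespace Pool.Agent.MP_92191b_al.K6

open Finset Function Equiv

variable {ι α : Type} [Fintype ι] [DecidableEq ι] [Fintype α] [DecidableEq α]

namespace Count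

theorem mem_AK {ζ : ι → α} {E : Finset ι} {e : ℕ} {x : ι → α} :
    x ∈ AK ζ E e ↔ dev ζ E x ≤ e := by simp [AK]

theorem line_iff (hk : 2 ≤ Fintype.card α) {ζ : ι → α} {E : Finset ι} {e : ℕ} {x : ι → α}
    (hx : dev ζ E x ≤ e) (i : ι) :
    (∀ b, update x i b ∈ AK ζ E e) ↔ dev ζ E x < e ∨ i ∈ E ∨ x i ≠ ζ i := by
  constructor
  · intro h
    by_contra! h'
    obtain ⟨h1, h2, h3⟩ := h'
    obtain ⟨b, hb⟩ := exists_ne1 hk (ζ i)
    have h4 := mem_AK.1 (h b)
    have h5 : (univ.filter fun r => r ∉ E ∧ update x i b r ≠ ζ r) =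
        insert i (univ.filter fun r => r ∉ E ∧ x r ≠ ζ r) := by
      ext r
      by_cases hr : r = i
      · subst hr; simp [h2, hb]
      · simp [hr]
    unfold dev at h4 h1
    rw [h5, card_insert_of_notMem (by simp [h3])] at h4
    omega
  · intro h b
    rw [mem_AK]
    have h5 : (univ.filter fun r => r ∉ E ∧ update x i b r ≠ ζ r) ⊆
        insert i (univ.filter fun r => r ∉ E ∧ x r ≠ ζ r) := by
      intro r
      by_cases hr : r = i
      · subst hr; simp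
      · simp [hr]
    by_cases hE : i ∈ E
    · refine le_trans (card_le_card ?_) hx
      intro r
      by_cases hr : r = i
      · subst hr; simp [hE]
      · simp [hr]
    · rcases h with h | h | h
      · exact (card_le_card h5).trans ((card_insert_le _ _).trans h)
      · exact absurd h hE
      · rw [insert_eq_of_mem (by simp [hE, h])] at h5
        exact (card_le_card h5).trans hx

theorem dev_update_lt {ζ : ι → α} {E : Finset ι} {x : ι → α} {j : ι} (h1 : j ∉ E)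
    (h2 : x j ≠ ζ j) : dev ζ E (update x j (ζ j)) < dev ζ E x := by
  refine card_lt_card ⟨?_, fun h => ?_⟩
  · intro r
    by_cases hr : r = j
    · subst hr; simp
    · simp [hr]
  · have := h (x := j) (by simp [h1, h2])
    simp at this

theorem card_full (ζ : ι → α) (E : Finset ι) (x : ι → α) :
    (univ.filter fun i => i ∈ E ∨ x i ≠ ζ i).card = E.card + dev ζ E x := by
  unfold dev
  rw [← card_union_of_disjoint (by simp +contextual [disjoint_left])]
  congr 1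
  ext r
  by_cases hr : r ∈ E <;> simp [hr]

theorem exists_B (hk : 2 ≤ Fintype.card α) (u : ι → α) {J e : ℕ} (U : Finset ι)
    (h2 : 2 * e ≤ J) (hU : U.card + e = J) :
    ∃ (ζ : ι → α) (E : Finset ι), 2 * e + E.card = J ∧ u ∈ AK ζ E e ∧
      ∀ l, (∀ a, update u l a ∈ AK ζ E e) ↔ l ∈ U := by
  obtain ⟨E, hE, hc⟩ := exists_subset_card_eq (s := U) (n := J - 2 * e) (by omega)
  choose o ho using fun a : α => exists_ne1 hk a
  refine ⟨fun l => if l ∈ U then o (u l) else u l, E, by omega, ?_⟩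
  have hd : dev (fun l => if l ∈ U then o (u l) else u l) E u = e := by
    have : (univ.filter fun r => r ∉ E ∧ u r ≠ if r ∈ U then o (u r) else u r) = U \ E := by
      ext r
      by_cases hr : r ∈ U
      · simp [hr, (ho (u r)).symm]
      · simp [hr]
    unfold dev
    rw [this, card_sdiff_of_subset hE]
    omega
  refine ⟨mem_AK.2 hd.le, fun l => ?_⟩
  rw [line_iff hk hd.le, hd]
  by_cases hl : l ∈ U
  · simp [hl, (ho (u l)).symm]
  · have : l ∉ E := fun h => hl (hE h)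
    simp [hl, this]

variable {f : (ι → α) → ι → α} {J N : ℕ} {x : ι → α}

theorem not_const (hk : 2 ≤ Fintype.card α) (τ : Perm α) (c : α) : ¬∀ a, τ a = c := fun h => by
  obtain ⟨b, hb⟩ := exists_ne1 hk c
  exact hb (by simpa using h (τ⁻¹ b))

theorem col_lin (hk : 2 ≤ Fintype.card α) {i l : ι} (h1 : Col f x i) (h2 : Lin f x i l) :
    False := by
  obtain ⟨τ, hτ⟩ := h2
  refine not_const hk τ (f x l) fun a => ?_
  have := congrFun ((hτ a).symm.trans (h1 a)) l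
  simpa using this

theorem lin_uniq (hk : 2 ≤ Fintype.card α) {i l l' : ι} (h1 : Lin f x i l) (h2 : Lin f x i l') :
    l = l' := by
  by_contra hne
  obtain ⟨τ, hτ⟩ := h1
  obtain ⟨τ', hτ'⟩ := h2
  refine not_const hk τ (f x l) fun a => ?_
  have := congrFun ((hτ a).symm.trans (hτ' a)) l
  simpa [hne] using this

theorem clq_not (hk : 2 ≤ Fintype.card α) {B : Finset (ι → α)} (hB : Diam B J) {i : ι}
    (h1 : Clq f J x i) (h2 : ∀ b, f (update x i b) ∈ B) : False := by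
  obtain ⟨b, hb⟩ := exists_ne1 hk (x i)
  exact absurd (hB _ (h2 b) _ (h2 (x i))) (not_le.2 (h1 _ _ hb))

theorem lin_mem {B : Finset (ι → α)} {i l : ι} (h : Lin f x i l) :
    (∀ b, f (update x i b) ∈ B) ↔ ∀ a, update (f x) l a ∈ B := by
  obtain ⟨τ, hτ⟩ := h
  refine ⟨fun h a => ?_, fun h b => hτ b ▸ h _⟩
  have := h (τ⁻¹ a)
  rw [hτ] at this
  simpa using this

open Classical in
/-- The collapsed directions. -/
noncomputable def Cx (f : (ι → α) → ι → α) (x : ι → α) : Finset ι := univ.filter fun i => Col f x i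

open Classical in
/-- The directions of the images of the kept lines. -/
noncomputable def Lam (f : (ι → α) → ι → α) (x : ι → α) : Finset ι :=
  univ.filter fun l => ∃ i, Lin f x i l

theorem mem_Lam {l : ι} : l ∈ Lam f x ↔ ∃ i, Lin f x i l := by simp [Lam]

theorem exists_g (x : ι → α) : ∃ g : ι → ι, ∀ l ∈ Lam f x, Lin f x (g l) l := by
  have : ∀ l, ∃ i, l ∈ Lam f x → Lin f x i l := fun l => by
    by_cases h : l ∈ Lam f x
    · exact (mem_Lam.1 h).imp fun i hi _ => hi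
    · exact ⟨l, fun h' => absurd h' h⟩
  choose g hg using this
  exact ⟨g, hg⟩

open Classical in
theorem card_eq (hk : 2 ≤ Fintype.card α) (hT : TriP f J) (U : Finset ι) :
    (univ.filter fun i => Col f x i ∨ ∃ l ∈ U, Lin f x i l).card =
      (Cx f x).card + (Lam f x ∩ U).card := by
  obtain ⟨g, hg⟩ := exists_g (f := f) x
  have hinj : Set.InjOn g (Lam f x ∩ U : Finset ι) := fun l hl l' hl' e =>
    lin_uniq hk (hg l (mem_inter.1 hl).1) (e ▸ hg l' (mem_inter.1 hl').1)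
  rw [← card_image_of_injOn hinj, ← card_union_of_disjoint]
  · congr 1
    ext i
    simp only [mem_filter, mem_univ, true_and, mem_union, Cx, mem_image, mem_inter]
    refine or_congr Iff.rfl ⟨?_, ?_⟩
    · rintro ⟨l, hl, h⟩
      have h1 : l ∈ Lam f x := mem_Lam.2 ⟨i, h⟩
      exact ⟨l, ⟨h1, hl⟩, hT.inj x _ _ l (hg l h1) h⟩
    · rintro ⟨l, ⟨h1, hl⟩, rfl⟩
      exact ⟨l, hl, hg l h1⟩
  · rw [disjoint_left]
    intro i h1 h2
    obtain ⟨l, hl, rfl⟩ := mem_image.1 h2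
    exact col_lin hk (by simpa [Cx] using h1) (hg l (mem_inter.1 hl).1)

theorem key (hS : StmtTy ι α) (hk : 2 ≤ Fintype.card α) (hP : Pre f J N) (hT : TriP f J)
    (x : ι → α) {e : ℕ} (he : Ty ι α J N e) (U : Finset ι) (hU : U.card + e = J) :
    ∃ (B : Finset (ι → α)) (ζ : ι → α) (E : Finset ι) (e' : ℕ), Ty ι α J N e' ∧ Diam B J ∧
      (∀ y, f y ∈ B ↔ y ∈ AK ζ E e') ∧ (∀ l, (∀ a, update (f x) l a ∈ B) ↔ l ∈ U) ∧
      (∀ i, (∀ b, update x i b ∈ AK ζ E e') ↔ Col f x i ∨ ∃ l ∈ U, Lin f x i l) ∧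
      ((Cx f x).card + (Lam f x ∩ U).card = Fintype.card ι ∨
        ((Cx f x).card + (Lam f x ∩ U).card + e' = J ∧ dev ζ E x = e')) := by
  classical
  obtain ⟨ζ, E, h1, h2, h3⟩ := exists_B hk (f x) U he.1 hU
  obtain ⟨ζ', E', e', k1, k2, k3⟩ := hP ζ E e he h1
  have hD : Diam (AK ζ E e) J := h1 ▸ hS.2.1 ζ E e
  have hx := mem_AK.1 ((k3 x).1 h2)
  have hF : ∀ i, (∀ b, update x i b ∈ AK ζ' E' e') ↔ Col f x i ∨ ∃ l ∈ U, Lin f x i l := by
    intro i
    simp only [← k3]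
    constructor
    · intro h
      rcases hT.tri x i with h4 | ⟨l, h4⟩ | h4
      · exact Or.inl h4
      · exact Or.inr ⟨l, (h3 l).1 ((lin_mem h4).1 h), h4⟩
      · exact (clq_not hk hD h4 h).elim
    · rintro (h4 | ⟨l, hl, h4⟩)
      · exact fun b => h4 b ▸ h2
      · exact (lin_mem h4).2 ((h3 l).2 hl)
  refine ⟨AK ζ E e, ζ', E', e', k1, hD, k3, h3, hF, ?_⟩
  rw [← card_eq hk hT U]
  rcases hx.lt_or_eq with h | h
  · left
    rw [← card_univ]
    congr 1
    exact filter_true_of_mem fun i _ => (hF i).1 ((line_iff hk hx i).2 (Or.inl h))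
  · right
    refine ⟨?_, h⟩
    have : (univ.filter fun i => Col f x i ∨ ∃ l ∈ U, Lin f x i l) =
        univ.filter fun i => i ∈ E' ∨ x i ≠ ζ' i := by
      refine filter_congr fun i _ => ?_
      rw [← hF, line_iff hk hx, h]
      simp
    rw [this, card_full]
    omega

theorem exists_avoid (S : Finset ι) {n : ℕ} (h : n + S.card ≤ Fintype.card ι) :
    ∃ W : Finset ι, W.card = n ∧ ∀ l ∈ S, l ∉ W := by
  obtain ⟨W, h1, h2⟩ := exists_subset_card_eq (s := Sᶜ) (n := n) (by rw [card_compl]; omega)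
  exact ⟨W, h2, fun l hl hW => mem_compl.1 (h1 hW) hl⟩

theorem step (hS : StmtTy ι α) (hk : 2 ≤ Fintype.card α) (hP : Pre f J N) (hT : TriP f J)
    (hm : J + 2 ≤ Fintype.card ι) {l0 l1 : ι} (h0 : l0 ∈ Lam f x) (h1 : l1 ∉ Lam f x) {e : ℕ}
    (he : Ty ι α J N e) (W : Finset ι) (hW : W.card + 1 + e = J) (w0 : l0 ∉ W) (w1 : l1 ∉ W) :
    ∃ e0, Ty ι α J N e0 ∧ Ty ι α J N (e0 + 1) ∧
      (Cx f x).card + (Lam f x ∩ W).card + 1 + e0 = J := by
  obtain ⟨_, _, _, ea, a1, -, -, -, -, a2⟩ := key hS hk hP hT x he (insert l0 W)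
    (by rw [card_insert_of_notMem w0]; exact hW)
  obtain ⟨_, _, _, eb, b1, -, -, -, -, b2⟩ := key hS hk hP hT x he (insert l1 W)
    (by rw [card_insert_of_notMem w1]; exact hW)
  rw [inter_insert_of_mem h0, card_insert_of_notMem (by simp [w0])] at a2
  rw [inter_insert_of_notMem h1] at b2
  have h3 : eb = ea + 1 := by omega
  exact ⟨ea, a1, h3 ▸ b1, by omega⟩

theorem lam_univ (hS : StmtTy ι α) (hk : 3 ≤ Fintype.card α) (hM : MaxA ι α J N) (hP : Pre f J N)
    {e : ℕ} (he : Ty ι α J N e) (he1 : 1 ≤ e) (hT : TriP f J) {l0 : ι} (h0 : l0 ∈ Lam f x)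
    (l1 : ι) : l1 ∈ Lam f x := by
  by_contra h1
  have hk2 : 2 ≤ Fintype.card α := by omega
  have hm : J + 2 ≤ Fintype.card ι := by
    have h2 := he.2.1
    have h3 : 3 * e ≤ Fintype.card α * e := Nat.mul_le_mul_right e hk
    omega
  have hJ := he.1
  obtain ⟨W0, c0, a0⟩ := exists_avoid {l0, l1} (n := J - e - 1)
    (by have := card_le_two (a := l0) (b := l1); omega)
  obtain ⟨e0, t0, t1, -⟩ := step hS hk2 hP hT hm h0 h1 he W0 (by omega) (a0 _ (by simp))
    (a0 _ (by simp))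
  have hty : ∀ e', Ty ι α J N e' → e' = e0 ∨ e' = e0 + 1 := by
    intro e' h
    by_contra! h2
    rcases lt_or_gt_of_ne h2.1 with h3 | h3
    · have h4 := (hS.2.2.2 hk J N _ _ ⟨x⟩ hM h t1 (by omega)).1
      omega
    · exact h2.2 (hS.2.2.2 hk J N _ _ ⟨x⟩ hM t0 h h3).1
  have hn : ∀ e', Ty ι α J N e' → ∀ W : Finset ι, W.card + 1 + e' = J → l0 ∉ W → l1 ∉ W →
      (Cx f x).card + (Lam f x ∩ W).card + 1 + e0 = J := by
    intro e' h W hW w0 w1
    obtain ⟨ea, s0, s1, s2⟩ := step hS hk2 hP hT hm h0 h1 h W hW w0 w1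
    have := hty _ s0
    have := hty _ s1
    omega
  have hJ1 := t1.1
  have hL : ∀ l ∈ Lam f x, l = l0 := by
    intro l hl
    by_contra hne
    have hne1 : l ≠ l1 := fun h => h1 (h ▸ hl)
    obtain ⟨W, c1, a1⟩ := exists_avoid {l0, l1, l} (n := J - e0 - 2)
      (by have := card_le_three (a := l0) (b := l1) (c := l); omega)
    have w0 : l0 ∉ W := a1 _ (by simp)
    have w1 : l1 ∉ W := a1 _ (by simp)
    have w2 : l ∉ W := a1 _ (by simp)
    have s1 := hn _ t1 W (by omega) w0 w1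
    have s2 := hn _ t0 (insert l W) (by rw [card_insert_of_notMem w2]; omega)
      (by simp [w0, Ne.symm hne]) (by simp [w1, Ne.symm hne1])
    rw [inter_insert_of_mem hl, card_insert_of_notMem (by simp [w2])] at s2
    omega
  have hE : ∀ W : Finset ι, l0 ∉ W → Lam f x ∩ W = ∅ := fun W hW =>
    eq_empty_of_forall_notMem fun l hl =>
      hW (hL l (mem_inter.1 hl).1 ▸ (mem_inter.1 hl).2)
  have hC : (Cx f x).card + 1 + e0 = J := by
    obtain ⟨W, c1, a1⟩ := exists_avoid {l0, l1} (n := J - e0 - 1)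
      (by have := card_le_two (a := l0) (b := l1); omega)
    have := hn _ t0 W (by omega) (a1 _ (by simp)) (a1 _ (by simp))
    rwa [hE W (a1 _ (by simp)), card_empty, add_zero] at this
  obtain ⟨U, c1, a1⟩ := exists_avoid {l0} (n := J - e0 - 1) (by rw [card_singleton]; omega)
  have u0 : l0 ∉ U := a1 _ (by simp)
  obtain ⟨B, ζ, E, e', -, k2, k3, k4, k5, k6⟩ := key hS hk2 hP hT x t1 U (by omega)
  rw [hE U u0, card_empty, add_zero] at k6
  have k7 : dev ζ E x = e' := by omega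
  have k8 : 0 < dev ζ E x := by omega
  obtain ⟨j, hj⟩ := card_pos.1 k8
  obtain ⟨j1, j2⟩ := (mem_filter.1 hj).2
  have hcol : Col f x j := by
    rcases (k5 j).1 ((line_iff hk2 k7.le j).2 (Or.inr (Or.inr j2))) with h | ⟨l, hl, h⟩
    · exact h
    · exact absurd (hL l (mem_Lam.2 ⟨j, h⟩) ▸ hl) u0
  obtain ⟨i0, hi0⟩ := mem_Lam.1 h0
  have hlt : dev ζ E (update x j (ζ j)) < e' := k7 ▸ dev_update_lt j1 j2
  have hin : ∀ b, f (update (update x j (ζ j)) i0 b) ∈ B := fun b =>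
    (k3 _).2 ((line_iff hk2 hlt.le i0).2 (Or.inl hlt) b)
  rcases hT.move x i0 j l0 (ζ j) hcol hi0 with h | h
  · have := (lin_mem h).1 hin
    rw [hcol] at this
    exact u0 ((k4 l0).1 this)
  · exact clq_not hk2 k2 h hin

end Count

theorem count (hT : StmtTy ι α) : StmtCount ι α := by
  intro hk J N e f hM hP he he1 hTri x
  by_cases h : ∀ i l, ¬Lin f x i l
  · exact Or.inr h
  push Not at h
  obtain ⟨i0, l0, h0⟩ := h
  have hall := Count.lam_univ hT hk hM hP he he1 hTri (Count.mem_Lam.2 ⟨i0, h0⟩)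
  obtain ⟨g, hg⟩ := Count.exists_g (f := f) x
  have hinj : Injective g := fun l l' e' =>
    Count.lin_uniq (by omega) (hg l (hall l)) (e' ▸ hg l' (hall l'))
  refine Or.inl fun i => ?_
  obtain ⟨l, rfl⟩ := Finite.injective_iff_surjective.1 hinj i
  exact ⟨l, hg l (hall l)⟩

end Pool.Agent.MP_92191b_al.K6

end

section

/-! Separating coordinates, and no double single. -/

set_option linter.unusedSectionVars false

namespace Pool.Agent.MP_92191b_al.K6

open Finset Function Equiv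

variable {ι α : Type} [Fintype ι] [DecidableEq ι] [Fintype α] [DecidableEq α]

namespace DS1

theorem ham_one {c c' : ι → α} {l : ι} (h : c l ≠ c' l) (h' : ∀ r, r ≠ l → c r = c' r) :
    hammingDist c c' = 1 := by
  rw [hammingDist, card_eq_one]
  refine ⟨l, ?_⟩
  ext r
  simp only [mem_filter, mem_univ, true_and, mem_singleton]
  exact ⟨fun hr => by_contra fun hn => hr (h' r hn), fun hr => hr ▸ h⟩

theorem cell_upd {T : Rel2 ι α} {σ : ι → Perm α} {i j l : ι} {τ : Perm α} {c d : ι → α}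
    (h : Cell T σ j l c d) (hj : c j = τ (d j)) : Cell T (update σ j τ) i l c d := by
  refine ⟨h.1, fun r _ hl => ?_⟩
  by_cases hr : r = j
  · rw [hr, update_self, hj]
  · rw [update_of_ne hr, h.2 r hr hl]

theorem cell_line {T : Rel2 ι α} {σ : ι → Perm α} {j : ι} {x : α} {c d : α → ι → α}
    (h : RLine T σ j x c d) (l : ι) (b : α) : Cell T σ j l (c b) (d b) :=
  ⟨(h b).1, fun r hr _ => (h b).2.2.2 r hr⟩

theorem sep_ex (h6 : 4 ≤ Fintype.card α) {T : Rel2 ι α} (hT : Good T) {σ : ι → Perm α} {i l : ι}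
    {x1 x2 y1 y2 : α} (h : Is4 (pl T σ i l) x1 x2 y1 y2) :
    ∃ r, r ≠ i ∧ r ≠ l ∧ SepAt T σ i l x1 x2 y1 y2 r := by
  obtain ⟨a, ha⟩ := exists_ne1 (by omega) x2
  obtain ⟨a', ha1, ha2⟩ := exists_ne2 (by omega) x2 a
  obtain ⟨c, d, h1, h2, h3, h4, h5⟩ := (h x1 a y1 y2).2 (Or.inr ⟨Or.inl rfl, rfl, rfl⟩)
  obtain ⟨c', d', k1, k2, k3, k4, k5⟩ := (h x1 a' y1 y2).2 (Or.inr ⟨Or.inl rfl, rfl, rfl⟩)
  by_contra hn
  have hd : ∀ r, r ≠ i → r ≠ l → d r = d' r := fun r hi hl => by_contra fun hr =>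
    hn ⟨r, hi, hl, c, d, c', d', ⟨h1, h4, h5, Or.inr (h3 ▸ ha)⟩, ⟨k1, k4, k5, Or.inr (k3 ▸ ha1)⟩,
      h2, k2, hr⟩
  have hdd : d = d' := funext fun r => by
    by_cases hi : r = i
    · rw [hi, h4, k4]
    by_cases hl : r = l
    · rw [hl, h5, k5]
    exact hd r hi hl
  refine hT.no1 c c' d h1.1 (hdd ▸ k1.1) (ham_one (l := l) ?_ fun r hl => ?_)
  · rw [h3, k3]; exact ha2.symm
  · by_cases hi : r = i
    · rw [hi, h2, k2]
    · rw [h1.2 r hi hl, k1.2 r hi hl, hdd]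

theorem disj (h6 : 4 ≤ Fintype.card α) {e : α → α} {b1 b2 w1 w2 : α} (h1 : Single e b1 w1)
    (h2 : Single e b2 w2) : b1 = b2 := by
  by_contra hb
  obtain ⟨b, k1, k2⟩ := exists_ne2 (by omega) b1 b2
  exact h1.2 ((h2.1 b1 hb).trans ((h2.1 b k2).symm.trans (h1.1 b k1)))

open Classical in
/-- coordinates in which the line is single at `b` -/
noncomputable def U (d : α → ι → α) (j : ι) (b : α) : Finset ι :=
  univ.filter fun r => r ≠ j ∧ ∃ w, Single (fun b' => d b' r) b w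

theorem mem_U {d : α → ι → α} {j r : ι} {b : α} :
    r ∈ U d j b ↔ r ≠ j ∧ ∃ w, Single (fun b' => d b' r) b w := by
  simp only [U, mem_filter, mem_univ, true_and]

theorem card_lt (h1 : StmtDS1 ι α) (h2 : StmtDS2 ι α) (h6 : 4 ≤ Fintype.card α) {T : Rel2 ι α}
    (hT : Good T) {σ : ι → Perm α} {i j : ι} {x b1 b2 : α} {c d : α → ι → α}
    (hR : RLine T σ j x c d) (hb : b1 ≠ b2) (hi : i ∈ U d j b1) :
    (U d j b2).card < (U d j b1).card := by
  obtain ⟨hij, wi, hsi⟩ := mem_U.1 hi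
  obtain ⟨τ, hτ⟩ := exists_perm1 b1 x
  have hne : ∀ r ∈ U d j b1, ∀ l ∈ U d j b2, r ≠ l := fun r hr l hl e => by
    obtain ⟨-, w, hw⟩ := mem_U.1 hr
    obtain ⟨-, w', hw'⟩ := mem_U.1 hl
    exact hb (disj h6 hw (e ▸ hw'))
  have key : ∀ l, ∃ (w : α) (r : ι), l ∈ U d j b2 → Single (fun b' => d b' l) b2 w ∧ r ≠ i ∧
      r ∈ U d j b1 ∧ SepAt T (update σ j τ) i l (σ i wi) (σ l w) (d b1 i) w r := fun l => by
    by_cases hl : l ∈ U d j b2
    · obtain ⟨hlj, w, hw⟩ := mem_U.1 hl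
      obtain ⟨⟨r, k1, k2, k3⟩, k4⟩ :=
        h1 h6 T hT σ i j l x b1 b2 wi w c d τ hij hlj (hne i hi l hl) hb hR hsi hw hτ
      obtain ⟨k5, μ, k6, -⟩ := k4 r k1 k2 k3
      exact ⟨w, r, fun _ => ⟨hw, k1, mem_U.2 ⟨k5, μ, k6⟩, k3⟩⟩
    · exact ⟨x, i, fun h => absurd h hl⟩
  choose w ψ hψ using key
  refine lt_of_le_of_lt (card_le_card_of_injOn ψ (t := (U d j b1).erase i) (fun l hl => ?_)
    fun l hl l' hl' e => ?_) (card_erase_lt_of_mem hi)
  · exact mem_coe.2 (mem_erase.2 ⟨(hψ l hl).2.1, (hψ l hl).2.2.1⟩)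
  · by_contra hll
    obtain ⟨k1, k2, k3, k4⟩ := hψ l hl
    obtain ⟨k5, -, -, k6⟩ := hψ l' hl'
    exact h2 h6 T hT σ i j l l' (ψ l) x b1 b2 wi (w l) (w l') c d τ hij (mem_U.1 hl).1
      (mem_U.1 hl').1 (hne i hi l hl) (hne i hi l' hl') hll hb hR hsi k1 k5 hτ k2
      (hne _ k3 l hl) (hne _ k3 l' hl') k4 (e ▸ k6)

end DS1

open DS1

theorem ds1 (hS : StmtSec ι α) (hA : StmtAlpha ι α) (hF : StmtGF ι α) (hL : StmtGLam ι α) :
    StmtDS1 ι α := by
  have _h := hS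
  intro h6 T hT σ i j l x b1 b2 wi wl c d τ hij hlj hil hb hR hsi hsl hτ
  obtain ⟨I4, armj, ⟨cs, ds, s1, s2, s3, s4⟩, farj⟩ :=
    (hA h6 T hT σ i j l x b1 b2 wi wl c d hij hlj hil hb hR hsi hsl).2 τ hτ
  have J4 := (hA h6 T hT σ l j i x b2 b1 wl wi c d hlj hij hil.symm hb.symm hR hsl hsi).1
  have hyi : d b1 i ≠ wi := hsi.2
  have hyl : d b2 l ≠ wl := hsl.2
  refine ⟨sep_ex h6 hT I4, ?_⟩
  rintro r hri hrl ⟨c1, d1, c2, d2, a1, a2, e1, e2, hne⟩
  have hrj : r ≠ j := fun e => hne (by rw [e, armj _ _ a1, armj _ _ a2])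
  refine ⟨hrj, ?_⟩
  obtain ⟨v, v1, v2⟩ := exists_ne2 (by omega) wl (d b2 l)
  obtain ⟨v', v3, v4, v5⟩ := exists_ne3 (by omega) wl (d b2 l) v
  have wild : ∃ r0 c0 d0 c' d', r0 ≠ i ∧ r0 ≠ l ∧ Far T (update σ j τ) i l (d b1 i) wl c0 d0 ∧
      Far T (update σ j τ) i l (d b1 i) wl c' d' ∧ d0 r0 ≠ d' r0 := by
    obtain ⟨c', d', k1, -, -, k4, k5⟩ := (I4 _ _ wi v).2 (Or.inl ⟨rfl, rfl, hyi.symm, v1⟩)
    have f1 : Far T (update σ j τ) i l (d b1 i) wl c' d' :=
      ⟨k1, by rw [k4]; exact hyi.symm, by rw [k5]; exact v1⟩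
    refine ⟨j, cs, ds, c', d', hij.symm, hlj.symm,
      ⟨s1, by rw [s2]; exact hyi.symm, by rw [s3]; exact hyl⟩, f1, ?_⟩
    rcases farj c' d' f1 (Or.inl k4) with k | k
    · rw [s4, k]; exact hb.symm
    · exact absurd (k5.symm.trans k.2) v2
  rcases hL h6 T hT _ i l r _ _ _ _ hil hri hrl I4 wild with ⟨m, hm⟩ | ⟨p, μ, -, far, arm, uni⟩
  · exact absurd ((hm _ _ a1).trans (hm _ _ a2).symm) hne
  have l1 : d b1 l = wl := hsl.1 b1 hb
  have t1 : Arm T (update σ j τ) i l (σ i wi) (σ l wl) (d b1 i) wl (c b1) (d b1) := by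
    refine ⟨cell_upd (cell_line hR l b1) ?_, rfl, l1, Or.inl ?_⟩
    · rw [(hR b1).2.1, (hR b1).2.2.1, hτ]
    · rw [(hR b1).2.2.2 i hij]
      exact fun e => hyi ((σ i).injective e)
  have hci : c b1 i ≠ σ i wi := by
    rw [(hR b1).2.2.2 i hij]
    exact fun e => hyi ((σ i).injective e)
  have hp : d b1 r ≠ μ := fun e => by
    rcases arm _ _ a1 with k1 | k1
    · rcases arm _ _ a2 with k2 | k2
      · exact hne (k1.trans k2.symm)
      · exact hci (by rw [uni _ _ _ _ t1 a2 e k2, e2])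
    · exact hci (by rw [uni _ _ _ _ t1 a1 e k1, e1])
  have hp' : d b1 r = p := (arm _ _ t1).resolve_right hp
  refine ⟨μ, ⟨?_, hp⟩, fun c' d' h => by rw [hp']; exact arm c' d' h, uni⟩
  have row : ∀ u, u ≠ wl → u ≠ d b2 l → ∃ c' d', Far T σ j l b2 (d b2 l) c' d' ∧ d' j = b1 ∧
      d' l = u ∧ d' r = μ := fun u u1 u2 => by
    obtain ⟨c', d', k1, k2, -, k4, k5⟩ := (J4 _ _ b1 u).2 (Or.inl ⟨rfl, rfl, hb, u2⟩)
    have k6 : Cell T (update σ j τ) i l c' d' := cell_upd k1 (by rw [k2, k4, hτ])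
    refine ⟨c', d', ⟨k1, by rw [k4]; exact hb, by rw [k5]; exact u2⟩, k4, k5, far c' d' ?_⟩
    rcases (I4 _ _ _ _).1 ⟨c', d', k6, rfl, rfl, rfl, rfl⟩ with k | k
    · exact ⟨k6, k.2.2.1, k.2.2.2⟩
    · exact absurd (k5.symm.trans k.2.2) u1
  obtain ⟨c3, d3, f3, j3, l3, r3⟩ := row v v1 v2
  obtain ⟨c4, d4, f4, j4, l4, r4⟩ := row v' v3 v4
  have h34 : d3 ≠ d4 := fun e => v5 (by rw [← l3, ← l4, e])
  have ft : ∀ b, b ≠ b2 → Far T σ j l b2 (d b2 l) (c b) (d b) := fun b h =>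
    ⟨cell_line hR l b, by rw [(hR b).2.2.1]; exact h, by
      have : d b l = wl := hsl.1 b h
      rw [this]; exact hyl.symm⟩
  rcases hF h6 T hT σ j l r _ _ _ _ hlj.symm hrj hrl J4 with ⟨ν, hν⟩ | ⟨m, hm, hx | hx⟩
  · exact absurd ((hν _ _ (ft b1 hb)).trans ((hν _ _ f3).symm.trans r3)) hp
  · have hmμ : μ = m := by_contra fun e =>
      h34 (hx _ _ _ _ f3 f4 (Or.inl (j3.trans j4.symm)) (r3 ▸ e) (r4 ▸ e))
    subst hmμ
    intro b h
    by_cases h' : b = b2
    · subst h'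
      refine hm (c b) (d b) ⟨cell_line hR l b, (hR b).2.2.1, rfl, Or.inr ?_⟩
      rw [(hR b).2.2.2 l hlj]
      exact fun e => hyl ((σ l).injective e)
    · by_contra e
      have k1 : d b l = wl := hsl.1 b h'
      have := hx _ _ _ _ (ft b h') (ft b1 hb) (Or.inr (k1.trans l1.symm)) e hp
      exact h (by rw [← (hR b).2.2.1, this, (hR b1).2.2.1])
  · exact absurd (hx _ _ _ _ f3 f4 (Or.inl (j3.trans j4.symm)) (r3.trans r4.symm)) h34

theorem ds (h1 : StmtDS1 ι α) (h2 : StmtDS2 ι α) : StmtDS ι α := by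
  intro h6 T hT σ i j l x b1 b2 wi wl c d hij hlj hR hsi hsl
  by_contra hb
  exact lt_asymm (card_lt h1 h2 h6 hT hR hb (mem_U.2 ⟨hij, wi, hsi⟩))
    (card_lt h1 h2 h6 hT hR (Ne.symm hb) (mem_U.2 ⟨hlj, wl, hsl⟩))

end Pool.Agent.MP_92191b_al.K6

end

section

/-! Two separating coordinates clash. -/

set_option linter.unusedSectionVars false

namespace Pool.Agent.MP_92191b_al.K6

open Finset Function Equiv

variable {ι α : Type} [Fintype ι] [DecidableEq ι] [Fintype α] [DecidableEq α]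

namespace DS2

section small

variable {T : Rel2 ι α} {σ : ι → Perm α} {i j : ι} {x1 x2 y1 y2 : α}

theorem cls (h : Is4 (pl T σ i j) x1 x2 y1 y2) {c d : ι → α} (hc : Cell T σ i j c d) :
    (c i = x1 ∧ c j = x2 ∧ d i ≠ y1 ∧ d j ≠ y2) ∨
      ((c i = x1 ∨ c j = x2) ∧ d i = y1 ∧ d j = y2) :=
  (h _ _ _ _).1 ⟨c, d, hc, rfl, rfl, rfl, rfl⟩

theorem farC (h : Is4 (pl T σ i j) x1 x2 y1 y2) {c d : ι → α} (hc : Far T σ i j y1 y2 c d) :
    c i = x1 ∧ c j = x2 := by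
  rcases cls h hc.1 with h' | h'
  · exact ⟨h'.1, h'.2.1⟩
  · exact absurd h'.2.1 hc.2.1

theorem exFar (h : Is4 (pl T σ i j) x1 x2 y1 y2) {e1 e2 : α} (h1 : e1 ≠ y1) (h2 : e2 ≠ y2) :
    ∃ c d, Far T σ i j y1 y2 c d ∧ d i = e1 ∧ d j = e2 := by
  obtain ⟨c, d, hc, -, -, a3, a4⟩ := (h x1 x2 e1 e2).2 (Or.inl ⟨rfl, rfl, h1, h2⟩)
  exact ⟨c, d, ⟨hc, a3 ▸ h1, a4 ▸ h2⟩, a3, a4⟩

theorem exA (h : Is4 (pl T σ i j) x1 x2 y1 y2) {a : α} (ha : a ≠ x1) :
    ∃ c d, Arm T σ i j x1 x2 y1 y2 c d ∧ c i = a ∧ c j = x2 := by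
  obtain ⟨c, d, hc, a1, a2, a3, a4⟩ := (h a x2 y1 y2).2 (Or.inr ⟨Or.inr rfl, rfl, rfl⟩)
  exact ⟨c, d, ⟨hc, a3, a4, Or.inl (a1 ▸ ha)⟩, a1, a2⟩

theorem exB (h : Is4 (pl T σ i j) x1 x2 y1 y2) {a : α} (ha : a ≠ x2) :
    ∃ c d, Arm T σ i j x1 x2 y1 y2 c d ∧ c i = x1 ∧ c j = a := by
  obtain ⟨c, d, hc, a1, a2, a3, a4⟩ := (h x1 a y1 y2).2 (Or.inr ⟨Or.inl rfl, rfl, rfl⟩)
  exact ⟨c, d, ⟨hc, a3, a4, Or.inr (a2 ▸ ha)⟩, a1, a2⟩

theorem wild (hk : 4 ≤ Fintype.card α) {l : ι} {b1 b2 wi yl : α} (hij : i ≠ j) (hlj : l ≠ j)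
    (hb : b1 ≠ b2) (h4 : Is4 (pl T σ i l) x1 x2 y1 y2) (hwi : wi ≠ y1) (hyl : yl ≠ y2)
    (hs : ∃ c' d', Cell T σ i l c' d' ∧ d' i = wi ∧ d' l = yl ∧ d' j = b2)
    (hf : ∀ c' d', Far T σ i l y1 y2 c' d' → d' i = wi ∨ d' l = yl →
      d' j = b1 ∨ (d' i = wi ∧ d' l = yl)) :
    ∃ r0 c d c' d', r0 ≠ i ∧ r0 ≠ l ∧ Far T σ i l y1 y2 c d ∧ Far T σ i l y1 y2 c' d' ∧
      d r0 ≠ d' r0 := by
  obtain ⟨c', d', hc', e1, e2, e3⟩ := hs
  obtain ⟨e, he1, he2⟩ := exists_ne2 (by omega) y2 yl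
  obtain ⟨c, d, hc, f1, f2⟩ := exFar h4 hwi he1
  refine ⟨j, c, d, c', d', hij.symm, hlj.symm, hc, ⟨hc', e1 ▸ hwi, e2 ▸ hyl⟩, ?_⟩
  rcases hf c d hc (Or.inl f1) with h | h
  · rw [h, e3]; exact hb
  · exact absurd (f2.symm.trans h.2) he2

theorem single_pos (hk : 4 ≤ Fintype.card α) {e : α → α} {b1 b2 w w' : α} (h1 : Single e b1 w)
    (h2 : Single e b2 w') : b1 = b2 := by
  by_contra hb
  obtain ⟨b, hb1, hb2⟩ := exists_ne2 (by omega) b1 b2
  have e1 := h1.1 b hb1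
  have e2 := h2.1 b hb2
  exact h1.2 ((h2.1 b1 hb).trans (e2.symm.trans e1))

end small

theorem stepA (hA : StmtAlpha ι α) (hL : StmtGLam ι α) (h1 : StmtDS1 ι α)
    (hk : 4 ≤ Fintype.card α) {T : Rel2 ι α} (hT : Good T) {σ : ι → Perm α} {i j l l2 : ι}
    {x b1 b2 wi wl wl2 : α} {c d : α → ι → α} {τ : Perm α} (hij : i ≠ j) (hlj : l ≠ j)
    (hl2j : l2 ≠ j) (hil : i ≠ l) (hil2 : i ≠ l2) (hll2 : l ≠ l2) (hb : b1 ≠ b2)
    (hR : RLine T σ j x c d) (si : Single (fun b => d b i) b1 wi)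
    (sl : Single (fun b => d b l) b2 wl) (sl2 : Single (fun b => d b l2) b2 wl2) (hτ : τ b1 = x)
    {c' d' : ι → α} (harm : Arm T (update σ j τ) i l (σ i wi) (σ l wl) (d b1 i) wl c' d')
    (hB : c' i = σ i wi) : d' l2 = wl2 := by
  obtain ⟨h4, -, hs, hf⟩ := (hA hk T hT σ i j l x b1 b2 wi wl c d hij hlj hil hb hR si sl).2 τ hτ
  obtain ⟨h4', -⟩ := (hA hk T hT σ i j l2 x b1 b2 wi wl2 c d hij hl2j hil2 hb hR si sl2).2 τ hτ
  have hAc : ∀ a, a ≠ σ i wi → ∃ c0 d0,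
      Arm T (update σ j τ) i l (σ i wi) (σ l wl) (d b1 i) wl c0 d0 ∧ c0 i = a ∧ d0 l2 = wl2 := by
    intro a ha
    obtain ⟨c0, d0, ⟨hc0, e1, e2, -⟩, e3, e4⟩ := exA h4' ha
    have hcell : Cell T (update σ j τ) i l c0 d0 := by
      refine ⟨hc0.1, fun r hri hrl => ?_⟩
      by_cases hr : r = l2
      · rw [hr, e4, e2, update_of_ne hl2j]
      · exact hc0.2 r hri hr
    rcases cls h4 hcell with h | h
    · exact absurd e1 h.2.2.1
    · exact ⟨c0, d0, ⟨hcell, e1, h.2.2, Or.inl (e3 ▸ ha)⟩, e3, e2⟩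
  have hagree : ∀ c0 d0, Arm T (update σ j τ) i l (σ i wi) (σ l wl) (d b1 i) wl c0 d0 →
      c0 i = σ i wi → d0 l2 = d' l2 := by
    intro c0 d0 h0 hB0
    by_contra hne
    obtain ⟨-, μ, hμ, -⟩ := (h1 hk T hT σ i j l x b1 b2 wi wl c d τ hij hlj hil hb hR si sl hτ).2
      l2 hil2.symm hll2.symm ⟨c0, d0, c', d', h0, harm, hB0, hB, hne⟩
    exact hb (single_pos hk hμ sl2)
  obtain ⟨a, ha⟩ := exists_ne1 (by omega) (σ i wi)
  obtain ⟨a', ha', haa⟩ := exists_ne2 (by omega) (σ i wi) a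
  obtain ⟨c1, d1, A1, e1, f1⟩ := hAc a ha
  obtain ⟨c2, d2, A2, e2, f2⟩ := hAc a' ha'
  rcases hL hk T hT (update σ j τ) i l l2 _ _ _ _ hil hil2.symm hll2.symm h4
    (wild hk hij hlj hb h4 (Ne.symm si.2) sl.2 hs hf) with ⟨m, hm⟩ | ⟨p, μ, -, -, hp, hu⟩
  · rw [hm c' d' harm, ← hm c1 d1 A1, f1]
  · have hw : wl2 ≠ μ := fun h => haa (by
      rw [← e1, ← e2, hu c1 d1 c2 d2 A1 A2 (f1.trans h) (f2.trans h)])
    have hp1 : wl2 = p := by
      rcases hp c1 d1 A1 with h | h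
      · exact f1.symm.trans h
      · exact absurd (f1.symm.trans h) hw
    rcases hp c' d' harm with h | h
    · exact h.trans hp1.symm
    · exfalso
      obtain ⟨g, hg1, hg2⟩ := exists_ne2 (by omega) (σ l wl) (c' l)
      obtain ⟨c3, d3, A3, e3, f3⟩ := exB h4 hg1
      have := hu c3 d3 c' d' A3 harm ((hagree c3 d3 A3 e3).trans h) h
      exact hg2 (by rw [← f3, this])

/-- The far cells of the plane `(j, l)` are constant at `l2`. -/
theorem stepB (hA : StmtAlpha ι α) (hF : StmtGF ι α)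
    (hk : 4 ≤ Fintype.card α) {T : Rel2 ι α} (hT : Good T) {σ : ι → Perm α} {i j l l2 : ι}
    {x b1 b2 wi wl wl2 : α} {c d : α → ι → α} (hij : i ≠ j) (hlj : l ≠ j)
    (hl2j : l2 ≠ j) (hil : i ≠ l) (hll2 : l ≠ l2) (hb : b1 ≠ b2)
    (hR : RLine T σ j x c d) (si : Single (fun b => d b i) b1 wi)
    (sl : Single (fun b => d b l) b2 wl) (sl2 : Single (fun b => d b l2) b2 wl2) :
    ∀ c' d', Far T σ j l b2 (d b2 l) c' d' → d' l2 = wl2 := by
  have h4 := (hA hk T hT σ l j i x b2 b1 wl wi c d hlj hij hil.symm hb.symm hR sl si).1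
  have hcell : ∀ b, Cell T σ j l (c b) (d b) := fun b =>
    ⟨(hR b).1, fun r hr _ => (hR b).2.2.2 r hr⟩
  have hfar : ∀ b, b ≠ b2 → Far T σ j l b2 (d b2 l) (c b) (d b) := fun b hb' =>
    ⟨hcell b, by rw [(hR b).2.2.1]; exact hb', by
      have := sl.1 b hb'
      simp only at this
      rw [this]; exact Ne.symm sl.2⟩
  have harm : Arm T σ j l x (σ l wl) b2 (d b2 l) (c b2) (d b2) :=
    ⟨hcell b2, (hR b2).2.2.1, rfl, Or.inr (by
      rw [(hR b2).2.2.2 l hlj]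
      exact fun h => sl.2 ((σ l).injective h))⟩
  obtain ⟨b, hb1, hb2⟩ := exists_ne2 (by omega) b1 b2
  have hcol : d b1 j = d b j ∨ d b1 l = d b l := Or.inr ((sl.1 b1 hb).trans (sl.1 b hb2).symm)
  have hne : d b1 ≠ d b := fun h => hb1 (by
    have := congrFun h j
    rw [(hR b1).2.2.1, (hR b).2.2.1] at this
    exact this.symm)
  have v1 : d b1 l2 = wl2 := sl2.1 b1 hb
  have v2 : d b l2 = wl2 := sl2.1 b hb2
  rcases hF hk T hT σ j l l2 _ _ _ _ hlj.symm hl2j hll2.symm h4 with ⟨μ, hμ⟩ | ⟨m, hm, h | h⟩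
  · intro c' d' h'
    rw [hμ c' d' h', ← hμ _ _ (hfar b1 hb), v1]
  · have hm' : wl2 ≠ m := fun e => sl2.2 ((hm _ _ harm).trans e.symm)
    exact absurd (h _ _ _ _ (hfar b1 hb) (hfar b hb2) hcol (v1 ▸ hm') (v2 ▸ hm')) hne
  · exact absurd (h _ _ _ _ (hfar b1 hb) (hfar b hb2) hcol (v1.trans v2.symm)) hne

/-- A good choice of the permutation at `j`. -/
theorem stepC (hA : StmtAlpha ι α) (hF : StmtGF ι α) (hL : StmtGLam ι α)
    (hk : 4 ≤ Fintype.card α) {T : Rel2 ι α} (hT : Good T) {σ : ι → Perm α} {i j l l2 : ι}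
    {x b1 b2 wi wl wl2 : α} {c d : α → ι → α} (hij : i ≠ j) (hlj : l ≠ j)
    (hl2j : l2 ≠ j) (hil : i ≠ l) (hil2 : i ≠ l2) (hll2 : l ≠ l2) (hb : b1 ≠ b2)
    (hR : RLine T σ j x c d) (si : Single (fun b => d b i) b1 wi)
    (sl : Single (fun b => d b l) b2 wl) (sl2 : Single (fun b => d b l2) b2 wl2) :
    ∃ τ : Perm α, τ b1 = x ∧ (∃ c' d', Far T (update σ j τ) i l (d b1 i) wl c' d' ∧
      d' i = wi ∧ d' l = d b2 l ∧ d' l2 ≠ wl2) ∧
      ∀ c' d', Far T (update σ j τ) i l (d b1 i) wl c' d' → d' l = d b2 l → d' i ≠ wi →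
        d' l2 = wl2 := by
  have h4 := (hA hk T hT σ l j i x b2 b1 wl wi c d hlj hij hil.symm hb.symm hR sl si).1
  have hB := stepB hA hF hk hT hij hlj hl2j hil hll2 hb hR si sl sl2
  have hA' := (hA hk T hT σ i j l x b1 b2 wi wl c d hij hlj hil hb hR si sl).2
  have hrow : ∀ τ : Perm α, τ b1 = x → ∀ c' d', Far T (update σ j τ) i l (d b1 i) wl c' d' →
      d' i = wi → Cell T σ j l c' d' := by
    intro τ hτ c' d' h' e
    refine ⟨h'.1.1, fun r hrj hrl => ?_⟩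
    by_cases hr : r = i
    · rw [hr, e]; exact (farC (hA' τ hτ).1 h').1
    · rw [h'.1.2 r hr hrl, update_of_ne hrj]
  have hsp : ∀ a, a ≠ x → ∃ (τ : Perm α) (c' d' : ι → α), τ b1 = x ∧
      Far T (update σ j τ) i l (d b1 i) wl c' d' ∧ d' i = wi ∧ d' l = d b2 l ∧
      Arm T σ j l x (σ l wl) b2 (d b2 l) c' d' ∧ c' j = a := by
    intro a ha
    obtain ⟨τ, t1, t2⟩ := exists_perm2 hb ha.symm
    obtain ⟨c', d', hc', e1, e2, e3⟩ := (hA' τ t1).2.2.1
    have hfar : Far T (update σ j τ) i l (d b1 i) wl c' d' :=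
      ⟨hc', e1 ▸ Ne.symm si.2, e2 ▸ sl.2⟩
    have ej : c' j = a := by
      rw [hc'.2 j hij.symm hlj.symm, update_self, e3, t2]
    exact ⟨τ, c', d', t1, hfar, e1, e2, ⟨hrow τ t1 c' d' hfar e1, e3, e2, Or.inl (ej ▸ ha)⟩, ej⟩
  have hcell : ∀ b, Cell T σ j l (c b) (d b) := fun b =>
    ⟨(hR b).1, fun r hr _ => (hR b).2.2.2 r hr⟩
  have hfar : ∀ b, b ≠ b2 → Far T σ j l b2 (d b2 l) (c b) (d b) := fun b hb' =>
    ⟨hcell b, by rw [(hR b).2.2.1]; exact hb', by
      have := sl.1 b hb'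
      simp only at this
      rw [this]; exact Ne.symm sl.2⟩
  have harm : Arm T σ j l x (σ l wl) b2 (d b2 l) (c b2) (d b2) :=
    ⟨hcell b2, (hR b2).2.2.1, rfl, Or.inr (by
      rw [(hR b2).2.2.2 l hlj]
      exact fun h => sl.2 ((σ l).injective h))⟩
  have hG : ∃ (τ : Perm α) (c' d' : ι → α), τ b1 = x ∧
      Far T (update σ j τ) i l (d b1 i) wl c' d' ∧ d' i = wi ∧ d' l = d b2 l ∧ d' l2 ≠ wl2 := by
    obtain ⟨b, hb1, hb2⟩ := exists_ne2 (by omega) b1 b2
    obtain ⟨a, ha⟩ := exists_ne1 (by omega) x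
    obtain ⟨a', ha', haa⟩ := exists_ne2 (by omega) x a
    obtain ⟨τ, c1, d1, t1, F1, e1, f1, A1, g1⟩ := hsp a ha
    obtain ⟨τ', c2, d2, t2, F2, e2, f2, A2, g2⟩ := hsp a' ha'
    rcases hL hk T hT σ j l l2 _ _ _ _ hlj.symm hl2j hll2.symm h4
      ⟨i, c b1, d b1, c b, d b, hij, hil, hfar b1 hb, hfar b hb2,
        fun h => si.2 (h.trans (si.1 b hb1))⟩ with ⟨m, hm⟩ | ⟨p, μ, -, hμ, -, hu⟩
    · refine ⟨τ, c1, d1, t1, F1, e1, f1, ?_⟩
      rw [hm _ _ A1, ← hm _ _ harm]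
      exact sl2.2
    · have hw : wl2 = μ := (sl2.1 b1 hb).symm.trans (hμ _ _ (hfar b1 hb))
      by_cases h : d1 l2 = wl2
      · refine ⟨τ', c2, d2, t2, F2, e2, f2, fun h' => haa ?_⟩
        rw [← g1, ← g2, hu _ _ _ _ A1 A2 (h.trans hw) (h'.trans hw)]
      · exact ⟨τ, c1, d1, t1, F1, e1, f1, h⟩
  obtain ⟨τ, c0, d0, hτ, F0, e0, f0, g0⟩ := hG
  refine ⟨τ, hτ, ⟨c0, d0, F0, e0, f0, g0⟩, ?_⟩
  obtain ⟨h4', -, -, hf⟩ := hA' τ hτ
  have hrw : ∀ e, e ≠ wl → e ≠ d b2 l → ∃ c' d', Far T (update σ j τ) i l (d b1 i) wl c' d' ∧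
      d' i = wi ∧ d' l = e ∧ d' l2 = wl2 := by
    intro e he1 he2
    obtain ⟨c', d', h', f1, f2⟩ := exFar h4' (Ne.symm si.2) he1
    refine ⟨c', d', h', f1, f2, hB c' d' ⟨hrow τ hτ c' d' h' f1, ?_, f2 ▸ he2⟩⟩
    rcases hf c' d' h' (Or.inl f1) with h | h
    · rw [h]; exact hb
    · exact absurd (f2.symm.trans h.2) he2
  obtain ⟨e, he1, he2⟩ := exists_ne2 (by omega) wl (d b2 l)
  obtain ⟨e', he1', he2', hee⟩ := exists_ne3 (by omega) wl (d b2 l) e
  obtain ⟨c1, d1, F1, e1, f1, g1⟩ := hrw e he1 he2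
  obtain ⟨c2, d2, F2, e2, f2, g2⟩ := hrw e' he1' he2'
  have hne : d1 ≠ d2 := fun h => hee (by rw [← f1, ← f2, h])
  rcases hF hk T hT (update σ j τ) i l l2 _ _ _ _ hil hil2.symm hll2.symm h4' with
    ⟨μ, hμ⟩ | ⟨m, -, h | h⟩
  · exact absurd (by rw [hμ _ _ F0, ← hμ _ _ F1, g1]) g0
  · have hm : wl2 = m := by
      by_contra hm
      exact hne (h _ _ _ _ F1 F2 (Or.inl (e1.trans e2.symm)) (g1 ▸ hm) (g2 ▸ hm))
    intro c' d' h' k1 k2
    by_contra k3
    exact k2 (by rw [h _ _ _ _ h' F0 (Or.inr (k1.trans f0.symm)) (hm ▸ k3) (hm ▸ g0), e0])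
  · exact absurd (h _ _ _ _ F1 F2 (Or.inl (e1.trans e2.symm)) (g1.trans g2.symm)) hne

end DS2

open DS2 in
theorem ds2 (hS : StmtSec ι α) (hA : StmtAlpha ι α) (hF : StmtGF ι α) (hL : StmtGLam ι α)
    (h1 : StmtDS1 ι α) : StmtDS2 ι α := by
  intro hk T hT σ i j l l2 r x b1 b2 wi wl wl2 c d τ hij hlj hl2j hil hil2 hll2 hb hR si sl sl2
    hτ hri hrl hrl2 sep sep2
  obtain ⟨τ1, hτ1, ⟨c0, d0, F0, e0, f0, g0⟩, hC⟩ :=
    stepC hA hF hL hk hT hij hlj hl2j hil hil2 hll2 hb hR si sl sl2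
  obtain ⟨h41, -⟩ := (hA hk T hT σ i j l x b1 b2 wi wl c d hij hlj hil hb hR si sl).2 τ1 hτ1
  obtain ⟨ρ, hρ⟩ := exists_perm1 (d b2 l) (σ l wl)
  have hyl : d b2 l ≠ wl := sl.2
  have hyi : d b1 i ≠ wi := si.2
  have hline : ∀ u, ∃ c' d' : ι → α, (T c' d' ∧ c' i = σ i wi ∧ d' i = u ∧
      ∀ s, s ≠ i → c' s = update (update σ j τ1) l ρ s (d' s)) ∧
      (u ≠ d b1 i → d' l = d b2 l) ∧ (u = d b1 i → d' l = wl) ∧
      (u ≠ wi → d' l2 = wl2) ∧ (u = wi → d' l2 ≠ wl2) := by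
    intro u
    have hgen : ∀ c' d' : ι → α, Cell T (update σ j τ1) i l c' d' → c' l = ρ (d' l) →
        ∀ s, s ≠ i → c' s = update (update σ j τ1) l ρ s (d' s) := by
      intro c' d' h' e s hs
      by_cases hsl : s = l
      · rw [hsl, update_self, e]
      · rw [update_of_ne hsl]; exact h'.2 s hs hsl
    by_cases hu : u = d b1 i
    · have hne : ρ wl ≠ σ l wl := fun h => hyl (ρ.injective (hρ.trans h.symm))
      obtain ⟨c', d', A, e1, e2⟩ := exB h41 hne
      refine ⟨c', d', ⟨A.1.1, e1, A.2.1.trans hu.symm, hgen c' d' A.1 (by rw [e2, A.2.2.1])⟩,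
        fun h => absurd hu h, fun _ => A.2.2.1, fun _ => ?_, fun h => absurd (hu.symm.trans h) hyi⟩
      exact stepA hA hL h1 hk hT hij hlj hl2j hil hil2 hll2 hb hR si sl sl2 hτ1 A e1
    · by_cases hw : u = wi
      · refine ⟨c0, d0, ⟨F0.1.1, (farC h41 F0).1, e0.trans hw.symm,
          hgen c0 d0 F0.1 (by rw [(farC h41 F0).2, f0, hρ])⟩, fun _ => f0,
          fun h => absurd h hu, fun h => absurd hw h, fun _ => g0⟩
      · obtain ⟨c', d', F, e1, e2⟩ := exFar h41 hu hyl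
        refine ⟨c', d', ⟨F.1.1, (farC h41 F).1, e1,
          hgen c' d' F.1 (by rw [(farC h41 F).2, e2, hρ])⟩, fun _ => e2,
          fun h => absurd h hu, fun _ => hC c' d' F e2 (e1 ▸ hw), fun h => absurd h hw⟩
  choose c2 d2 hR2 k1 k2 k3 k4 using hline
  have s2l : Single (fun u => d2 u l) (d b1 i) (d b2 l) :=
    ⟨k1, fun h => hyl (h.symm.trans (k2 _ rfl))⟩
  have s2l2 : Single (fun u => d2 u l2) wi wl2 := ⟨k3, k4 _ rfl⟩
  obtain ⟨ρ', hρ'⟩ := exists_perm1 (d b1 i) (σ i wi)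
  obtain ⟨h43, -, hs3, hf3⟩ := (hA hk T hT (update (update σ j τ1) l ρ) l i l2 (σ i wi) (d b1 i) wi
    (d b2 l) wl2 c2 d2 hil.symm hil2.symm hll2 hyi hR2 s2l s2l2).2 ρ' hρ'
  have hw3 := wild hk hil.symm hil2.symm hyi h43 (Ne.symm s2l.2) s2l2.2 hs3 hf3
  rw [update_self, hρ, update_of_ne hll2.symm, update_of_ne hl2j, k2 _ rfl] at h43
  rw [k2 _ rfl] at hw3
  set σ3 := update (update (update σ j τ1) l ρ) i ρ' with hσ3
  obtain ⟨h4, harm, -⟩ := (hA hk T hT σ i j l x b1 b2 wi wl c d hij hlj hil hb hR si sl).2 τ hτ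
  obtain ⟨-, harm2, -⟩ := (hA hk T hT σ i j l2 x b1 b2 wi wl2 c d hij hl2j hil2 hb hR si sl2).2 τ hτ
  have hcell : ∀ c' d' : ι → α, T c' d' → c' i = σ i wi → d' i = d b1 i → d' j = b1 →
      (∀ s, s ≠ i → s ≠ l → s ≠ l2 → c' s = update σ j τ s (d' s)) → Cell T σ3 l l2 c' d' := by
    intro c' d' ht e1 e2 e3 h'
    refine ⟨ht, fun s hsl hsl2 => ?_⟩
    by_cases hs : s = i
    · rw [hs, hσ3, update_self, e1, e2, hρ']
    · rw [hσ3, update_of_ne hs, update_of_ne hsl, h' s hs hsl hsl2]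
      by_cases hsj : s = j
      · rw [hsj, update_self, update_self, e3, hτ, hτ1]
      · rw [update_of_ne hsj, update_of_ne hsj]
  have hBl : ∀ c' d', Arm T (update σ j τ) i l (σ i wi) (σ l wl) (d b1 i) wl c' d' →
      c' i = σ i wi → Arm T σ3 l l2 (σ l wl) (σ l2 wl2) wl wl2 c' d' ∧ c' l ≠ σ l wl := by
    intro c' d' A e
    have hne : c' l ≠ σ l wl := A.2.2.2.resolve_left fun h => h e
    exact ⟨⟨hcell c' d' A.1.1 e A.2.1 (harm c' d' A) fun s h1 h2 _ => A.1.2 s h1 h2, A.2.2.1,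
      stepA hA hL h1 hk hT hij hlj hl2j hil hil2 hll2 hb hR si sl sl2 hτ A e, Or.inl hne⟩, hne⟩
  have hBl2 : ∀ c' d', Arm T (update σ j τ) i l2 (σ i wi) (σ l2 wl2) (d b1 i) wl2 c' d' →
      c' i = σ i wi → Arm T σ3 l l2 (σ l wl) (σ l2 wl2) wl wl2 c' d' ∧ c' l = σ l wl := by
    intro c' d' A e
    have hne : c' l2 ≠ σ l2 wl2 := A.2.2.2.resolve_left fun h => h e
    have hd := stepA hA hL h1 hk hT hij hl2j hlj hil2 hil hll2.symm hb hR si sl2 sl hτ A e
    refine ⟨⟨hcell c' d' A.1.1 e A.2.1 (harm2 c' d' A) fun s h1 _ h3 => A.1.2 s h1 h3, hd,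
      A.2.2.1, Or.inr hne⟩, ?_⟩
    rw [A.1.2 l hil.symm hll2, update_of_ne hlj, hd]
  obtain ⟨-, μ, hμ, hv, hu⟩ :=
    (h1 hk T hT σ i j l x b1 b2 wi wl c d τ hij hlj hil hb hR si sl hτ).2 r hri hrl sep
  obtain ⟨-, μ', hμ', hv2, -⟩ :=
    (h1 hk T hT σ i j l2 x b1 b2 wi wl2 c d τ hij hl2j hil2 hb hR si sl2 hτ).2 r hri hrl2 sep2
  have hμμ : μ' = μ := (hμ'.1 b2 hb.symm).symm.trans (hμ.1 b2 hb.symm)
  have hp : d b1 r ≠ μ := hμ.2
  have hU : ∃ c' d', Arm T (update σ j τ) i l (σ i wi) (σ l wl) (d b1 i) wl c' d' ∧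
      c' i = σ i wi ∧ d' r = μ := by
    obtain ⟨ca, da, cb, db, A, B, ea, eb, hne⟩ := sep
    rcases hv ca da A with h | h
    · exact ⟨cb, db, B, eb, (hv cb db B).resolve_left fun h' => hne (h.trans h'.symm)⟩
    · exact ⟨ca, da, A, ea, h⟩
  have hU2 : ∃ c' d', Arm T (update σ j τ) i l2 (σ i wi) (σ l2 wl2) (d b1 i) wl2 c' d' ∧
      c' i = σ i wi ∧ d' r = μ := by
    obtain ⟨ca, da, cb, db, A, B, ea, eb, hne⟩ := sep2
    rcases hv2 ca da A with h | h
    · exact ⟨cb, db, B, eb,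
        ((hv2 cb db B).resolve_left fun h' => hne (h.trans h'.symm)).trans hμμ⟩
    · exact ⟨ca, da, A, ea, h.trans hμμ⟩
  obtain ⟨cu, du, U, eu, fu⟩ := hU
  obtain ⟨cw, dw, U2, ew, fw⟩ := hU2
  have hV : ∀ g, g ≠ σ l wl → g ≠ cu l → ∃ c' d',
      Arm T σ3 l l2 (σ l wl) (σ l2 wl2) wl wl2 c' d' ∧ c' l = g ∧ d' r = d b1 r := by
    intro g hg1 hg2
    obtain ⟨c', d', A, e1, e2⟩ := exB h4 hg1
    refine ⟨c', d', (hBl c' d' A e1).1, e2, (hv c' d' A).resolve_right fun h => hg2 ?_⟩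
    rw [← e2, hu c' d' cu du A U h fu]
  obtain ⟨g, hg1, hg2⟩ := exists_ne2 (by omega) (σ l wl) (cu l)
  obtain ⟨g', hg1', hg2', hgg⟩ := exists_ne3 (by omega) (σ l wl) (cu l) g
  obtain ⟨cv, dv, V, ev, fv⟩ := hV g hg1 hg2
  obtain ⟨cv', dv', V', ev', fv'⟩ := hV g' hg1' hg2'
  obtain ⟨AU, nU⟩ := hBl cu du U eu
  obtain ⟨AW, nW⟩ := hBl2 cw dw U2 ew
  rcases hL hk T hT σ3 l l2 r _ _ _ _ hll2 hrl hrl2 h43 hw3 with ⟨m, hm⟩ | ⟨p, ν, -, -, hq, hq1⟩
  · exact hp (by rw [← fv, ← fu, hm _ _ V, hm _ _ AU])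
  · have hν : d b1 r ≠ ν := fun h => hgg (by
      rw [← ev, ← ev', hq1 _ _ _ _ V V' (fv.trans h) (fv'.trans h)])
    have hpp : d b1 r = p := by
      rcases hq _ _ V with h | h
      · exact fv.symm.trans h
      · exact absurd (fv.symm.trans h) hν
    have hμν : μ = ν := by
      rcases hq _ _ AU with h | h
      · exact absurd (hpp.trans (h.symm.trans fu)) hp
      · exact fu.symm.trans h
    exact nU (by rw [hq1 _ _ _ _ AU AW (fu.trans hμν) (fw.trans hμν), nW])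

end Pool.Agent.MP_92191b_al.K6

end

section

/-! Plane classes when a row label is used twice. -/

set_option linter.unusedSectionVars false

namespace Pool.Agent.MP_92191b_al.K6

open Finset Function Equiv

variable {ι α : Type} [Fintype ι] [DecidableEq ι] [Fintype α] [DecidableEq α]

namespace EnumA

theorem hX {P : R4 α} (hP : Plane P) {x y y' a a' b : α} (h1 : P a x b y) (h2 : P a' x b y')
    (hy : y ≠ y') : a = a' := by
  by_contra ha
  exact ha (hP.sep _ _ _ _ _ _ _ _ h1 h2 (by simp [nq_of_ne ha, nq_of_ne hy])).1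

theorem hY {P : R4 α} (hP : Plane P) {x x' y a b b' : α} (h1 : P a x b y) (h2 : P a x' b' y)
    (hx : x ≠ x') : b = b' := by
  by_contra hb
  exact hx (hP.sep _ _ _ _ _ _ _ _ h1 h2 (by simp [nq_of_ne hb, nq_of_ne hx])).2.1

theorem conf {P : R4 α} (hP : Plane P) (x y : α) : Conf fun a b => P a x b y := by
  intro a b a' b' h1 h2 h
  have := hP.sep _ _ _ _ _ _ _ _ h1 h2 (by
    by_cases ha : a = a'
    · simp [ha, h.1 ha]
    · have hb : b ≠ b' := fun hb => ha (h.2 hb)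
      simp [nq_of_ne ha, nq_of_ne hb])
  exact ⟨this.1, this.2.2.1⟩

/-- the three shapes of a slice -/
def Tri (P : R4 α) (w : α) (lab : α → α ⊕ α) (x y : α) : Prop :=
  (∀ a b, P a x b y ↔ (lab a = .inl x ∨ lab a = .inr y) ∧ b = w) ∨
  (∃ a0, (∀ a, (lab a = .inl x ∨ lab a = .inr y) ↔ a ≠ a0) ∧
    ∀ a b, P a x b y ↔ a = a0 ∧ b ≠ w) ∨
  ((∀ a, lab a = .inl x ∨ lab a = .inr y) ∧
    ((∃ a0, ∀ a b, P a x b y ↔ a = a0) ∨ ∃ b0, ∀ a b, P a x b y ↔ b = b0))

theorem col_of_small {P : R4 α} {w : α} {lab : α → α ⊕ α} (hk : 4 ≤ Fintype.card α) {x y a0 : α}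
    (hT : Tri P w lab x y) (hs : ∀ a, (lab a = .inl x ∨ lab a = .inr y) → a = a0) :
    ∀ a b, P a x b y ↔ (lab a = .inl x ∨ lab a = .inr y) ∧ b = w := by
  rcases hT with h | ⟨a1, h, -⟩ | ⟨h, -⟩
  · exact h
  · obtain ⟨a, h0, h1⟩ := exists_ne2 (by omega) a0 a1
    exact absurd (hs a ((h a).2 h1)) h0
  · obtain ⟨a, h0⟩ := exists_ne1 (by omega) a0
    exact absurd (hs a (h a)) h0

theorem full_of_all {P : R4 α} {w : α} {lab : α → α ⊕ α} {x y : α}
    (hT : Tri P w lab x y) (hs : ∀ a, lab a = .inl x ∨ lab a = .inr y) :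
    (∃ a0, ∀ a b, P a x b y ↔ a = a0) ∨ ∃ b0, ∀ a b, P a x b y ↔ b = b0 := by
  rcases hT with h | ⟨a1, h, -⟩ | ⟨-, h⟩
  · exact Or.inr ⟨w, fun a b => (h a b).trans (and_iff_right (hs a))⟩
  · exact absurd rfl ((h a1).1 (hs a1))
  · exact h

theorem row_of_miss {P : R4 α} {w : α} {lab : α → α ⊕ α} {x y a0 : α}
    (hT : Tri P w lab x y) (hs : ¬(lab a0 = .inl x ∨ lab a0 = .inr y)) :
    (∀ a b, P a x b y ↔ (lab a = .inl x ∨ lab a = .inr y) ∧ b = w) ∨
      ∀ a b, P a x b y ↔ a = a0 ∧ b ≠ w := by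
  rcases hT with h | ⟨a1, h, h'⟩ | ⟨h, -⟩
  · exact Or.inl h
  · have : a0 = a1 := by
      by_contra hne
      exact hs ((h a0).2 hne)
    subst this
    exact Or.inr h'
  · exact absurd (h a0) hs

theorem caseAll {P : R4 α} {w : α} {lab : α → α ⊕ α} (hk : 4 ≤ Fintype.card α) (hP : Plane P)
    (hT : ∀ x y, Tri P w lab x y) {x : α} (hA : ∀ a, lab a = .inl x) :
    (∃ x1 x2, Is1 P x1 x2) ∨ ∃ τ x, Is6b P τ x := by
  have hemp : ∀ a x' b y, P a x' b y → x' = x := by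
    intro a x' b y h
    by_contra hx
    have hs : ∀ a, ¬(lab a = .inl x' ∨ lab a = .inr y) := by
      intro a
      rw [hA a]
      simpa using fun h => hx h.symm
    exact hs a ((col_of_small (a0 := w) hk (hT x' y) (fun a h => absurd h (hs a)) a b).1 h).1
  have hf : ∀ y, (∃ a0, ∀ a b, P a x b y ↔ a = a0) ∨ ∃ b0, ∀ a b, P a x b y ↔ b = b0 :=
    fun y => full_of_all (hT x y) fun a => Or.inl (hA a)
  by_cases hr : ∃ y a0, ∀ a b, P a x b y ↔ a = a0
  · obtain ⟨y, a0, h0⟩ := hr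
    have hall : ∀ y' a b, P a x b y' ↔ a = a0 := by
      intro y'
      by_cases hy : y = y'
      · exact hy ▸ h0
      rcases hf y' with ⟨a1, h1⟩ | ⟨b0, h1⟩
      · have : a0 = a1 := hX hP ((h0 a0 w).2 rfl) ((h1 a1 w).2 rfl) hy
        exact this ▸ h1
      · obtain ⟨a, ha⟩ := exists_ne1 (by omega) a0
        exact absurd (hX hP ((h0 a0 b0).2 rfl) ((h1 a b0).2 rfl) hy).symm ha
    refine Or.inl ⟨a0, x, fun c1 c2 d1 d2 => ⟨fun h => ?_, ?_⟩⟩
    · have := hemp _ _ _ _ h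
      subst this
      exact ⟨(hall _ _ _).1 h, rfl⟩
    · rintro ⟨rfl, rfl⟩
      exact (hall _ _ _).2 rfl
  · have hc : ∀ y, ∃ b0, ∀ a b, P a x b y ↔ b = b0 := fun y =>
      (hf y).resolve_left fun h => hr ⟨y, h⟩
    choose τ hτ using hc
    have hinj : Injective τ := by
      intro y y' he
      by_contra hy
      obtain ⟨a, ha⟩ := exists_ne1 (by omega) w
      exact ha (hX hP ((hτ y a (τ y)).2 rfl) ((hτ y' w (τ y)).2 he) hy)
    refine Or.inr ⟨Equiv.ofBijective τ (Finite.injective_iff_bijective.1 hinj), x,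
      fun c1 c2 d1 d2 => ⟨fun h => ?_, ?_⟩⟩
    · have := hemp _ _ _ _ h
      subst this
      exact ⟨(hτ _ _ _).1 h, rfl⟩
    · rintro ⟨h, rfl⟩
      exact (hτ _ _ _).2 h

theorem caseR {P : R4 α} {w : α} {lab : α → α ⊕ α} (hk : 4 ≤ Fintype.card α) (hP : Plane P)
    (hT : ∀ x y, Tri P w lab x y) {x a0 z0 y0 : α} (hA : ∀ a, a ≠ a0 → lab a = .inl x)
    (h0 : lab a0 = .inr z0)
    (hy0 : ∀ y, y ≠ y0 → ¬∀ a b, P a x b y ↔ (lab a = .inl x ∨ lab a = .inr y) ∧ b = w) :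
    Is4 P a0 x w z0 := by
  have hS : ∀ x' y a, x' ≠ x → ((lab a = .inl x' ∨ lab a = .inr y) ↔ a = a0 ∧ y = z0) := by
    intro x' y a hx
    by_cases ha : a = a0
    · subst ha
      simp [h0, eq_comm]
    · rw [hA a ha]
      simpa [ha] using fun h => hx h.symm
  have hoth : ∀ x' y a b, x' ≠ x → (P a x' b y ↔ (a = a0 ∧ y = z0) ∧ b = w) := by
    intro x' y a b hx
    rw [col_of_small (a0 := a0) hk (hT x' y) (fun a h => ((hS x' y a hx).1 h).1) a b,
      hS x' y a hx]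
  have hmiss : ∀ y, y ≠ z0 → ¬(lab a0 = .inl x ∨ lab a0 = .inr y) := by
    intro y hy
    rw [h0]
    simpa using fun h => hy h.symm
  obtain ⟨y2, h2z, h20⟩ := exists_ne2 (by omega) z0 y0
  have hrow2 : ∀ a b, P a x b y2 ↔ a = a0 ∧ b ≠ w :=
    (row_of_miss (hT x y2) (hmiss y2 h2z)).resolve_left (hy0 y2 h20)
  have hall : ∀ a, lab a = .inl x ∨ lab a = .inr z0 := by
    intro a
    by_cases ha : a = a0
    · exact Or.inr (ha ▸ h0)
    · exact Or.inl (hA a ha)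
  obtain ⟨b1, hb1⟩ := exists_ne1 (by omega) w
  obtain ⟨x1, hx1⟩ := exists_ne1 (by omega) x
  obtain ⟨a1, ha1⟩ := exists_ne1 (by omega) a0
  have hcol : ∀ a b, P a x b z0 ↔ b = w := by
    rcases full_of_all (hT x z0) hall with ⟨a3, h3⟩ | ⟨b0, h3⟩
    · have e : a0 = a3 := hX hP ((hrow2 a0 b1).2 ⟨rfl, hb1⟩) ((h3 a3 b1).2 rfl) h2z
      exact absurd (hY hP ((h3 a0 b1).2 e) ((hoth x1 z0 a0 w hx1).2 ⟨⟨rfl, rfl⟩, rfl⟩) hx1.symm)
        hb1
    · have e : b0 = w := by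
        by_contra hb
        exact ha1 (hX hP ((hrow2 a0 b0).2 ⟨rfl, hb⟩) ((h3 a1 b0).2 rfl) h2z).symm
      exact e ▸ h3
  have hrow : ∀ y, y ≠ z0 → ∀ a b, P a x b y ↔ a = a0 ∧ b ≠ w := by
    intro y hy
    refine (row_of_miss (hT x y) (hmiss y hy)).resolve_left fun h => ?_
    exact ha1 (hX hP ((h a1 w).2 ⟨Or.inl (hA a1 ha1), rfl⟩) ((hcol a0 w).2 rfl) hy)
  intro c1 c2 d1 d2
  by_cases hc : c2 = x
  · subst hc
    by_cases hd : d2 = z0
    · subst hd
      rw [hcol]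
      simp
    · rw [hrow d2 hd]
      simp [hd]
  · rw [hoth c2 d2 c1 d1 hc]
    simp only [hc, false_and, and_false, or_false, false_or]
    tauto

end EnumA

open EnumA in
theorem enumA (hR : StmtRep α) : StmtEnumA α := by
  rintro hk P w lab hP hpiv ⟨x, a1, a2, h12, h1, h2⟩
  have hT : ∀ x y, Tri P w lab x y := fun x y =>
    hR (by omega) (fun a b => P a x b y) (fun a => lab a = .inl x ∨ lab a = .inr y) w
      (conf hP x y) (fun σ => hpiv x y σ)
  obtain ⟨y0, hy0⟩ : ∃ y0, ∀ y, y ≠ y0 →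
      ¬∀ a b, P a x b y ↔ (lab a = .inl x ∨ lab a = .inr y) ∧ b = w := by
    by_cases hc : ∃ y, ∀ a b, P a x b y ↔ (lab a = .inl x ∨ lab a = .inr y) ∧ b = w
    · obtain ⟨y0, h0⟩ := hc
      exact ⟨y0, fun y hy h =>
        h12 (hX hP ((h a1 w).2 ⟨Or.inl h1, rfl⟩) ((h0 a2 w).2 ⟨Or.inl h2, rfl⟩) hy)⟩
    · exact ⟨w, fun y _ h => hc ⟨y, h⟩⟩
  by_cases hA : ∀ a, lab a = .inl x
  · rcases caseAll hk hP hT hA with h | h
    · exact Or.inl h
    · exact Or.inr (Or.inr h)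
  push Not at hA
  obtain ⟨a0, ha0⟩ := hA
  have hone : ∀ a, a ≠ a0 → lab a = .inl x := by
    intro u hu
    by_contra hux
    have key : ∀ y, y ≠ y0 → lab u = .inr y ∨ lab a0 = .inr y := by
      intro y hy
      rcases hT x y with h | ⟨a3, h, -⟩ | ⟨h, -⟩
      · exact absurd h (hy0 y hy)
      · by_cases e : u = a3
        · exact Or.inr (((h a0).2 fun e' => hu (e.trans e'.symm)).resolve_left ha0)
        · exact Or.inl (((h u).2 e).resolve_left hux)
      · exact Or.inl ((h u).resolve_left hux)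
    obtain ⟨y1, h10⟩ := exists_ne1 (by omega) y0
    obtain ⟨y2, h20, h21⟩ := exists_ne2 (by omega) y0 y1
    obtain ⟨y3, h30, h31, h32⟩ := exists_ne3 hk y0 y1 y2
    rcases key y1 h10 with e1 | e1 <;> rcases key y2 h20 with e2 | e2 <;>
      rcases key y3 h30 with e3 | e3 <;>
      first
        | exact h21 (Sum.inr.inj (e2.symm.trans e1))
        | exact h31 (Sum.inr.inj (e3.symm.trans e1))
        | exact h32 (Sum.inr.inj (e3.symm.trans e2))
  rcases h0 : lab a0 with x' | z0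
  · exfalso
    have hx : x ≠ x' := fun e => ha0 (e ▸ h0)
    obtain ⟨y, hy⟩ := exists_ne1 (by omega) y0
    obtain ⟨b, hb⟩ := exists_ne1 (by omega) w
    have hc := col_of_small (a0 := a0) hk (hT x' y) (fun a h => by
      by_contra ha
      rw [hone a ha] at h
      exact hx (by simpa using h))
    have hr := (row_of_miss (a0 := a0) (hT x y) (by
      rw [h0]
      simpa using fun h => hx h.symm)).resolve_left (hy0 y hy)
    exact hb (hY hP ((hr a0 b).2 ⟨rfl, hb⟩) ((hc a0 w).2 ⟨Or.inl h0, rfl⟩) hx)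
  · exact Or.inr (Or.inl ⟨a0, x, w, z0, caseR hk hP hT hone h0 hy0⟩)

end Pool.Agent.MP_92191b_al.K6

end

section

/-! Plane classes when every row label is used at most once. -/

set_option linter.unusedSectionVars false

namespace Pool.Agent.MP_92191b_al.K6

open Finset Function Equiv

variable {ι α : Type} [Fintype ι] [DecidableEq ι] [Fintype α] [DecidableEq α]

namespace EnumB

/-- The letters that are selected for `x` and `y`. -/
def S (lab : α → α ⊕ α) (x y a : α) : Prop := lab a = .inl x ∨ lab a = .inr y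

/-- The slice is contained in the column `w`. -/
def COL (P : R4 α) (w : α) (lab : α → α ⊕ α) (x y : α) : Prop :=
  ∀ a b, P a x b y ↔ S lab x y a ∧ b = w

/-- The facts used in the enumeration. -/
structure Ctx (P : R4 α) (w : α) (lab : α → α ⊕ α) : Prop where
  card : 4 ≤ Fintype.card α
  tri : ∀ x y, COL P w lab x y ∨
    (∃ a0, (∀ a, S lab x y a ↔ a ≠ a0) ∧ ∀ a b, P a x b y ↔ a = a0 ∧ b ≠ w) ∨
    ((∀ a, S lab x y a) ∧ ((∃ a0, ∀ a b, P a x b y ↔ a = a0) ∨ ∃ b0, ∀ a b, P a x b y ↔ b = b0))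
  hX : ∀ {x y y' a a' b}, P a x b y → P a' x b y' → y ≠ y' → a = a'
  hY : ∀ {x x' y a b b'}, P a x b y → P a x' b' y → x ≠ x' → b = b'
  inj : ∀ x a a', lab a = .inl x → lab a' = .inl x → a = a'

variable {P : R4 α} {w : α} {lab : α → α ⊕ α}

theorem ctx (hR : StmtRep α) (hc : 4 ≤ Fintype.card α) (hP : Plane P) (hp : Piv P w lab)
    (hi : ∀ x a a', lab a = .inl x → lab a' = .inl x → a = a') : Ctx P w lab where
  card := hc
  tri x y := by
    refine hR (by omega) (fun a b => P a x b y) (S lab x y) w (fun a b a' b' h h' he => ?_)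
      (hp x y)
    have := hP.sep _ _ _ _ _ _ _ _ h h' (by simp only [nq, he, if_true])
    exact ⟨this.1, this.2.2.1⟩
  hX h h' hy := by
    by_contra ha
    exact ha (hP.sep _ _ _ _ _ _ _ _ h h' (by simp [nq_of_ne ha, nq_of_ne hy])).1
  hY h h' hx := by
    by_contra hb
    exact hx (hP.sep _ _ _ _ _ _ _ _ h h' (by simp [nq_of_ne hb, nq_of_ne hx])).2.1
  inj := hi

/-- a slice that misses a letter is a piece of the column or a piece of a row -/
theorem Ctx.row (h : Ctx P w lab) {x y a0 : α} (h0 : ¬S lab x y a0) (hn : ¬COL P w lab x y) :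
    (∀ a, S lab x y a ↔ a ≠ a0) ∧ ∀ a b, P a x b y ↔ a = a0 ∧ b ≠ w := by
  rcases h.tri x y with h1 | ⟨a1, h1, h2⟩ | ⟨h1, -⟩
  · exact absurd h1 hn
  · obtain rfl : a0 = a1 := by
      by_contra e
      exact h0 ((h1 a0).2 e)
    exact ⟨h1, h2⟩
  · exact absurd (h1 a0) h0

theorem Ctx.col (h : Ctx P w lab) {x y a0 a1 : α} (h0 : ¬S lab x y a0) (h1 : ¬S lab x y a1)
    (hne : a0 ≠ a1) : COL P w lab x y := by
  by_contra hn
  exact h1 (((h.row h0 hn).1 a1).2 hne.symm)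

/-- two pieces of the same row in the same column of slices -/
theorem Ctx.two_rows (h : Ctx P w lab) {x x' y a : α} (hx : x ≠ x')
    (h1 : ∀ b, b ≠ w → P a x b y) (h2 : ∀ b, b ≠ w → P a x' b y) : False := by
  obtain ⟨b, hb⟩ := exists_ne1 (by have := h.card; omega) w
  obtain ⟨b', hb', hb''⟩ := exists_ne2 (by have := h.card; omega) w b
  exact hb'' (h.hY (h2 b' hb') (h1 b hb) hx.symm)

theorem Ctx.uniq (h : Ctx P w lab) {a1 a2 y1 y2 : α} (h1 : lab a1 = .inr y1)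
    (h2 : lab a2 = .inr y2) : y1 = y2 := by
  by_contra hy
  have n1 : ∀ x, ¬S lab x y1 a2 := fun x => by simp [S, h2, Ne.symm hy]
  have n2 : ∀ x, ¬S lab x y2 a1 := fun x => by simp [S, h1, hy]
  have ha : a1 ≠ a2 := fun e => hy (by simpa [e, h2] using h1.symm)
  have key : ∀ x, (∀ b, b ≠ w → P a2 x b y1) ∨ ∀ b, b ≠ w → P a1 x b y2 := by
    intro x
    by_cases c1 : COL P w lab x y1
    · by_cases c2 : COL P w lab x y2
      · exact absurd (h.hX ((c1 a1 w).2 ⟨Or.inr h1, rfl⟩) ((c2 a2 w).2 ⟨Or.inr h2, rfl⟩) hy) ha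
      · exact Or.inr fun b hb => ((h.row (n2 x) c2).2 a1 b).2 ⟨rfl, hb⟩
    · exact Or.inl fun b hb => ((h.row (n1 x) c1).2 a2 b).2 ⟨rfl, hb⟩
  obtain ⟨x1, hx1⟩ := exists_ne1 (by have := h.card; omega) w
  obtain ⟨x2, hx2, hx3⟩ := exists_ne2 (by have := h.card; omega) w x1
  rcases key w with k0 | k0 <;> rcases key x1 with k1 | k1 <;> rcases key x2 with k2 | k2
  all_goals first
    | exact h.two_rows hx1 k1 k0
    | exact h.two_rows hx2 k2 k0
    | exact h.two_rows hx3 k2 k1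

/-- slices without a column label -/
theorem Ctx.off (h : Ctx P w lab) {y : α} (hy : ∀ a, lab a ≠ .inr y) (x a b : α) :
    P a x b y ↔ lab a = .inl x ∧ b = w := by
  have hS : ∀ a, S lab x y a ↔ lab a = .inl x := fun a => by simp [S, hy a]
  have hc : COL P w lab x y := by
    by_cases e : ∃ a, lab a = .inl x
    · obtain ⟨a0, h0⟩ := e
      obtain ⟨a1, h1⟩ := exists_ne1 (by have := h.card; omega) a0
      obtain ⟨a2, h2, h3⟩ := exists_ne2 (by have := h.card; omega) a0 a1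
      exact h.col (fun s => h1 (h.inj x _ _ ((hS _).1 s) h0))
        (fun s => h2 (h.inj x _ _ ((hS _).1 s) h0)) h3.symm
    · obtain ⟨a1, h1⟩ := exists_ne1 (by have := h.card; omega) w
      exact h.col (fun s => e ⟨_, (hS _).1 s⟩) (fun s => e ⟨_, (hS _).1 s⟩) h1
  rw [hc a b, hS]

theorem Ctx.case_right (h : Ctx P w lab) {y0 : α} (h0 : ∀ a, lab a = .inr y0) :
    (∃ y1 y2, Is2 P y1 y2) ∨ ∃ τ y, Is5b P τ y := by
  have off : ∀ x y a b, y ≠ y0 → ¬P a x b y := fun x y a b hy hp => by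
    have := (h.off (y := y) (fun a => by simp [h0 a, hy.symm]) x a b).1 hp
    simp [h0 a] at this
  have full : ∀ x, (∃ a0, ∀ a b, P a x b y0 ↔ a = a0) ∨ ∃ b0, ∀ a b, P a x b y0 ↔ b = b0 := by
    intro x
    rcases h.tri x y0 with h1 | ⟨a1, h1, -⟩ | ⟨-, h1⟩
    · exact Or.inr ⟨w, fun a b => by rw [h1 a b]; simp [S, h0 a]⟩
    · exact absurd rfl ((h1 a1).1 (Or.inr (h0 a1)))
    · exact h1
  by_cases hc : ∃ x b0, ∀ a b, P a x b y0 ↔ b = b0
  · obtain ⟨x0, b0, hb⟩ := hc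
    have all : ∀ x a b, P a x b y0 ↔ b = b0 := by
      intro x
      by_cases e : x = x0
      · rw [e]; exact hb
      rcases full x with ⟨a0, h1⟩ | ⟨b1, h1⟩
      · obtain ⟨b, hb'⟩ := exists_ne1 (by have := h.card; omega) b0
        exact absurd (h.hY ((h1 a0 b).2 rfl) ((hb a0 b0).2 rfl) e) hb'
      · obtain rfl := h.hY ((h1 w b1).2 rfl) ((hb w b0).2 rfl) e
        exact h1
    refine Or.inl ⟨b0, y0, fun c1 c2 d1 d2 => ?_⟩
    by_cases e : d2 = y0
    · rw [e, all]; simp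
    · simp [off _ _ _ _ e, e]
  · have all : ∀ x, ∃ a0, ∀ a b, P a x b y0 ↔ a = a0 := fun x =>
      (full x).resolve_right fun e => hc ⟨x, e⟩
    choose τ hτ using all
    have hi : Injective τ := fun x x' e => by
      by_contra hx
      exact h.two_rows hx (fun b _ => (hτ x (τ x) b).2 rfl) fun b _ => (hτ x' (τ x) b).2 e
    refine Or.inr ⟨Equiv.ofBijective τ (Finite.injective_iff_bijective.1 hi), y0,
      fun c1 c2 d1 d2 => ?_⟩
    by_cases e : d2 = y0
    · rw [e, hτ]; simp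
    · simp [off _ _ _ _ e, e]

theorem Ctx.case_left (h : Ctx P w lab) (h0 : ∀ a y, lab a ≠ .inr y) : ∃ τ y, Is5a P τ y := by
  have : ∀ a, ∃ x, lab a = .inl x := fun a => by
    rcases e : lab a with x | y
    · exact ⟨x, rfl⟩
    · exact absurd e (h0 a y)
  choose ρ hρ using this
  have hi : Injective ρ := fun a a' e => h.inj (ρ a) a a' (hρ a) (e ▸ hρ a')
  refine ⟨(Equiv.ofBijective ρ (Finite.injective_iff_bijective.1 hi)).symm, w,
    fun c1 c2 d1 d2 => ?_⟩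
  rw [h.off (fun a => h0 a d2), Equiv.eq_symm_apply, hρ]
  simp

theorem Ctx.not_col (h : Ctx P w lab) {y0 b1 a x : α} (hb : lab b1 = .inr y0)
    (ha : lab a = .inl x) : ¬COL P w lab x y0 := by
  intro hc
  obtain ⟨y, hy⟩ := exists_ne1 (by have := h.card; omega) y0
  have := h.hX ((h.off (y := y) (fun a e => hy (h.uniq e hb)) x a w).2 ⟨ha, rfl⟩)
    ((hc b1 w).2 ⟨Or.inr hb, rfl⟩) hy
  rw [this, hb] at ha
  simp at ha

theorem Ctx.case_one (h : Ctx P w lab) {y0 a0 x0 : α} (h0 : lab a0 = .inl x0)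
    (h1 : ∀ a, a ≠ a0 → lab a = .inr y0) : Is3 P a0 x0 w y0 := by
  obtain ⟨b1, hb1⟩ := exists_ne1 (by have := h.card; omega) a0
  have hl : ∀ a x, lab a = .inl x ↔ a = a0 ∧ x = x0 := fun a x => by
    by_cases e : a = a0
    · simp [e, h0, eq_comm]
    · simp [e, h1 a e]
  have hS : ∀ x, x ≠ x0 → ∀ a, S lab x y0 a ↔ a ≠ a0 := fun x hx a => by
    by_cases e : a = a0
    · simp [S, e, h0, hx.symm]
    · simp [S, e, h1 a e]
  have hn : ∀ x, x ≠ x0 → ¬COL P w lab x y0 → ∀ b, b ≠ w → P a0 x b y0 := fun x hx hc b hb =>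
    ((h.row (a0 := a0) (fun s => (hS x hx a0).1 s rfl) hc).2 a0 b).2 ⟨rfl, hb⟩
  obtain ⟨x', hx', hc⟩ : ∃ x', x' ≠ x0 ∧ COL P w lab x' y0 := by
    obtain ⟨x1, e1⟩ := exists_ne1 (by have := h.card; omega) x0
    obtain ⟨x2, e2, e3⟩ := exists_ne2 (by have := h.card; omega) x0 x1
    by_contra! hh
    exact h.two_rows e3 (hn x2 e2 (hh x2 e2)) (hn x1 e1 (hh x1 e1))
  have hp : ∀ a, a ≠ a0 → P a x' w y0 := fun a ha => (hc a w).2 ⟨(hS x' hx' a).2 ha, rfl⟩
  have hrow : ∀ a b, P a x0 b y0 ↔ a = a0 := by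
    have nc := h.not_col (h1 b1 hb1) h0
    have sa : ∀ a, S lab x0 y0 a := fun a => by
      by_cases e : a = a0
      · exact Or.inl (e ▸ h0)
      · exact Or.inr (h1 a e)
    rcases h.tri x0 y0 with k | ⟨a1, k, -⟩ | ⟨-, ⟨a1, k⟩ | ⟨b0, k⟩⟩
    · exact absurd k nc
    · exact absurd rfl ((k a1).1 (sa a1))
    · obtain rfl : a1 = a0 := by
        by_contra e
        obtain ⟨b, hb⟩ := exists_ne1 (by have := h.card; omega) w
        exact hb (h.hY ((k a1 b).2 rfl) (hp a1 e) hx'.symm)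
      exact k
    · obtain rfl := h.hY ((k b1 b0).2 rfl) (hp b1 hb1) hx'.symm
      exact absurd (fun a b => by rw [k a b]; simp [sa a]) nc
  have hall : ∀ x, x ≠ x0 → COL P w lab x y0 := fun x hx => by
    by_contra c
    exact h.two_rows hx (hn x hx c) fun b _ => (hrow a0 b).2 rfl
  intro c1 c2 d1 d2
  by_cases e : d2 = y0
  · by_cases e' : c2 = x0
    · rw [e, e', hrow]; simp
    · rw [e, hall c2 e' c1 d1, hS c2 e']; simp [e']
  · rw [h.off (fun a ea => e (h.uniq ea (h1 b1 hb1))), hl]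
    simp [e, and_assoc]

theorem Ctx.case_two (h : Ctx P w lab) {y0 b1 a0 a1 x0 x1 : α} (hb : lab b1 = .inr y0)
    (h0 : lab a0 = .inl x0) (h1 : lab a1 = .inl x1) (ha : a0 ≠ a1) : Is8 P a0 a1 x0 x1 w y0 := by
  have hx : x0 ≠ x1 := fun e => ha (h.inj x0 a0 a1 h0 (e ▸ h1))
  obtain ⟨s0, r0⟩ := h.row (x := x0) (y := y0) (a0 := a1) (by simp [S, h1, hx.symm])
    (h.not_col hb h0)
  obtain ⟨-, r1⟩ := h.row (x := x1) (y := y0) (a0 := a0) (by simp [S, h0, hx])
    (h.not_col hb h1)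
  have h2 : ∀ a, a ≠ a0 → a ≠ a1 → lab a = .inr y0 := fun a e0 e1 =>
    ((s0 a).2 e1).resolve_left fun e => e0 (h.inj x0 a a0 e h0)
  have hl : ∀ a x, lab a = .inl x ↔ (a = a0 ∧ x = x0) ∨ (a = a1 ∧ x = x1) := fun a x => by
    by_cases e0 : a = a0
    · simp [e0, h0, ha, eq_comm]
    by_cases e1 : a = a1
    · simp [e1, h1, ha.symm, eq_comm]
    · simp [e0, e1, h2 a e0 e1]
  refine ⟨ha, hx, fun c1 c2 d1 d2 => ?_⟩
  by_cases e : d2 = y0
  · by_cases e0 : c2 = x0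
    · rw [e, e0, r0]; simp [hx]
    by_cases e1 : c2 = x1
    · rw [e, e1, r1]; simp [hx.symm]
    have hS : ∀ a, S lab c2 y0 a ↔ a ≠ a0 ∧ a ≠ a1 := fun a => by
      by_cases k0 : a = a0
      · simp [S, k0, h0, Ne.symm e0]
      by_cases k1 : a = a1
      · simp [S, k1, h1, Ne.symm e1]
      · simp [S, k0, k1, h2 a k0 k1]
    rw [e, h.col (fun s => ((hS a0).1 s).1 rfl) (fun s => ((hS a1).1 s).2 rfl) ha c1 d1, hS]
    simp [e0, e1, and_assoc]
  · rw [h.off (fun a ea => e (h.uniq ea hb)), hl]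
    simp [e]

end EnumB

theorem enumB (hR : StmtRep α) : StmtEnumB α := by
  intro hc P w lab hP hp hi
  have h := EnumB.ctx hR hc hP hp hi
  by_cases hr : ∃ b1 y0, lab b1 = .inr y0
  · obtain ⟨b1, y0, hb⟩ := hr
    have hy : ∀ a, (¬∃ x, lab a = .inl x) → lab a = .inr y0 := fun a e => by
      rcases k : lab a with x | y
      · exact absurd ⟨x, k⟩ e
      · rw [h.uniq k hb]
    by_cases hl : ∃ a0 x0, lab a0 = .inl x0
    · obtain ⟨a0, x0, h0⟩ := hl
      by_cases h2 : ∃ a1 x1, a0 ≠ a1 ∧ lab a1 = .inl x1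
      · obtain ⟨a1, x1, ha, h1⟩ := h2
        exact Or.inr (Or.inr (Or.inr (Or.inr ⟨_, _, _, _, _, _, h.case_two hb h0 h1 ha⟩)))
      · exact Or.inr (Or.inl ⟨_, _, _, _, h.case_one h0 fun a ha =>
          hy a fun ⟨x, hx⟩ => h2 ⟨a, x, ha.symm, hx⟩⟩)
    · rcases h.case_right fun a => hy a fun ⟨x, hx⟩ => hl ⟨a, x, hx⟩ with k | k
      · exact Or.inl k
      · exact Or.inr (Or.inr (Or.inr (Or.inl k)))
  · exact Or.inr (Or.inr (Or.inl (h.case_left fun a y e => hr ⟨a, y, e⟩)))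

end Pool.Agent.MP_92191b_al.K6

end

section

/-! Set families with an exchange property, and the centred theorem. -/

set_option linter.unusedSectionVars false

namespace Pool.Agent.MP_92191b_al.K6

open Finset Function Equiv

variable {ι α : Type} [Fintype ι] [DecidableEq ι] [Fintype α] [DecidableEq α]

namespace Fam

theorem exists_max (F : Finset ι → Prop) (h0 : F ∅) (h1 : ¬F univ) :
    ∃ V l, F V ∧ (∀ r, r ∉ V → ¬F (insert r V)) ∧ l ∉ V := by
  classical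
  obtain ⟨V, hV, hm⟩ := exists_max_image (univ.filter F) card ⟨∅, by simpa using h0⟩
  rw [mem_filter] at hV
  have h2 : ∃ l, l ∉ V := by
    by_contra h
    exact h1 ((eq_univ_iff_forall.2 fun l => not_not.1 fun hl => h ⟨l, hl⟩) ▸ hV.2)
  obtain ⟨l, hl⟩ := h2
  refine ⟨V, l, hV.2, fun r hr h => ?_, hl⟩
  have := hm (insert r V) (by simpa using h)
  rw [card_insert_of_notMem hr] at this
  omega

/-- The data of `KLP` with a given set `P`. -/
structure Dat (F : Finset ι → Prop) (V : Finset ι) (l : ι) (P : Finset ι) (T : α → Finset ι)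
    (a0 : α) : Prop where
  ex : ∀ j ∈ P, F (insert l (V.erase j))
  tt : ∀ a, a ≠ a0 → F (T a) ∧ l ∉ T a ∧ Disjoint (T a) P ∧ (T a \ V).card = P.card
  dj : ∀ a a', a ≠ a0 → a' ≠ a0 → a ≠ a' → Disjoint (T a \ V) (T a' \ V)
  un : ∀ j ∈ V \ P, ∀ a a', a ≠ a0 → a' ≠ a0 → j ∉ T a → j ∉ T a' → a = a'

theorem Dat.pick {F : Finset ι → Prop} {V P : Finset ι} {l : ι} {T : α → Finset ι} {a0 : α}
    (h : Dat F V l P T a0) (hk : 4 ≤ Fintype.card α) (r j : ι) :
    ∃ a, a ≠ a0 ∧ r ∉ T a \ V ∧ (j ∈ V \ P → j ∈ T a) := by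
  by_contra hc
  have key : ∀ a, a ≠ a0 → r ∈ T a \ V ∨ (j ∈ V \ P ∧ j ∉ T a) := by
    intro a ha
    by_contra h1
    exact hc ⟨a, ha, fun h2 => h1 (Or.inl h2), fun h2 => not_not.1 fun h3 => h1 (Or.inr ⟨h2, h3⟩)⟩
  have k1 : ∀ a a', a ≠ a0 → a' ≠ a0 → a ≠ a' → r ∈ T a \ V → r ∈ T a' \ V → False :=
    fun a a' ha ha' hn h1 h2 => disjoint_left.1 (h.dj a a' ha ha' hn) h1 h2
  have k2 : ∀ a a', a ≠ a0 → a' ≠ a0 → a ≠ a' → (j ∈ V \ P ∧ j ∉ T a) →
      (j ∈ V \ P ∧ j ∉ T a') → False :=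
    fun a a' ha ha' hn h1 h2 => hn (h.un j h1.1 a a' ha ha' h1.2 h2.2)
  obtain ⟨x, hx⟩ := exists_ne1 (α := α) (by omega) a0
  obtain ⟨y, hy, hyx⟩ := exists_ne2 (α := α) (by omega) a0 x
  obtain ⟨z, hz, hzx, hzy⟩ := exists_ne3 hk a0 x y
  rcases key x hx with h1 | h1 <;> rcases key y hy with h2 | h2 <;> rcases key z hz with h3 | h3
  · exact k1 _ _ hy hx hyx h2 h1
  · exact k1 _ _ hy hx hyx h2 h1
  · exact k1 _ _ hz hx hzx h3 h1
  · exact k2 _ _ hz hy hzy h3 h2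
  · exact k1 _ _ hz hy hzy h3 h2
  · exact k2 _ _ hz hx hzx h3 h1
  · exact k2 _ _ hy hx hyx h2 h1
  · exact k2 _ _ hy hx hyx h2 h1

theorem Dat.room {F : Finset ι → Prop} {V P : Finset ι} {l : ι} {T : α → Finset ι} {a0 : α}
    (h : Dat F V l P T a0) (hl : l ∉ V) :
    V.card + (Fintype.card α - 1) * P.card + 1 ≤ Fintype.card ι := by
  have h1 : ((univ.erase a0).biUnion fun a => T a \ V).card =
      (Fintype.card α - 1) * P.card := by
    rw [card_biUnion fun a ha a' ha' hn =>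
      h.dj a a' (ne_of_mem_erase ha) (ne_of_mem_erase ha') hn,
      sum_congr rfl fun a ha => (h.tt a (ne_of_mem_erase ha)).2.2.2, sum_const,
      card_erase_of_mem (mem_univ _), card_univ, smul_eq_mul]
  have h2 : Disjoint V ((univ.erase a0).biUnion fun a => T a \ V) := by
    rw [disjoint_biUnion_right]
    exact fun a _ => disjoint_sdiff
  have h3 : l ∉ V ∪ (univ.erase a0).biUnion fun a => T a \ V := by
    simp only [mem_union, mem_biUnion, mem_sdiff, not_or, not_exists, not_and]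
    exact ⟨hl, fun a ha h4 => absurd h4 (h.tt a (ne_of_mem_erase ha)).2.1⟩
  have h4 := card_le_univ (insert l (V ∪ (univ.erase a0).biUnion fun a => T a \ V))
  rwa [card_insert_of_notMem h3, card_union_of_disjoint h2, h1] at h4

/-- The invariant of the exchange argument. -/
structure Phi (F : Finset ι → Prop) (E : Finset ι) (e : ℕ) (P : Finset ι) : Prop where
  dj : Disjoint P E
  cd : P.card = e
  mem : F (E ∪ P)
  wit : ∀ l, l ∉ E ∪ P → ∀ j, ∃ T', F T' ∧ l ∉ T' ∧ (j ∈ E → j ∈ T') ∧ (T' \ (E ∪ P)).card = e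

theorem stepA1 {F : Finset ι → Prop} {E P : Finset ι} {l : ι} {T : α → Finset ι} {a0 : α}
    (h : Dat F (E ∪ P) l P T a0) (hk : 4 ≤ Fintype.card α) (hd : Disjoint P E)
    (hF : F (E ∪ P)) : Phi F E P.card P := by
  refine ⟨hd, rfl, hF, fun r hr j => ?_⟩
  obtain ⟨a, ha, h1, h2⟩ := h.pick hk r j
  refine ⟨T a, (h.tt a ha).1, fun h3 => h1 (mem_sdiff.2 ⟨h3, hr⟩), fun h3 => h2 ?_,
    (h.tt a ha).2.2.2⟩
  exact mem_sdiff.2 ⟨mem_union_left _ h3, disjoint_right.1 hd h3⟩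

theorem stepA2 {F : Finset ι → Prop} {E P : Finset ι} {l : ι} {T : α → Finset ι} {a0 : α}
    (h : Dat F (E ∪ P) l P T a0) (hk : 4 ≤ Fintype.card α) (hd : Disjoint P E)
    (hl : l ∉ E ∪ P) {i : ι} (hi : i ∈ P) : Phi F E P.card (insert l (P.erase i)) := by
  have hiE : i ∉ E := disjoint_left.1 hd hi
  have hlE : l ∉ E := fun h1 => hl (mem_union_left _ h1)
  have hlP : l ∉ P := fun h1 => hl (mem_union_right _ h1)
  have he : E ∪ insert l (P.erase i) = insert l ((E ∪ P).erase i) := by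
    ext x
    simp only [mem_union, mem_insert, mem_erase]
    constructor
    · rintro (h1 | h1 | h1)
      · exact Or.inr ⟨fun h2 => hiE (h2 ▸ h1), Or.inl h1⟩
      · exact Or.inl h1
      · exact Or.inr ⟨h1.1, Or.inr h1.2⟩
    · rintro (h1 | ⟨h1, h2 | h2⟩)
      · exact Or.inr (Or.inl h1)
      · exact Or.inl h2
      · exact Or.inr (Or.inr ⟨h1, h2⟩)
  refine ⟨?_, ?_, he ▸ h.ex i hi, fun r hr j => ?_⟩
  · rw [disjoint_insert_left]
    exact ⟨hlE, hd.mono_left (erase_subset _ _)⟩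
  · rw [card_insert_of_notMem fun h1 => hlP (mem_of_mem_erase h1), card_erase_add_one hi]
  · obtain ⟨a, ha, h1, h2⟩ := h.pick hk r j
    obtain ⟨t1, t2, t3, t4⟩ := h.tt a ha
    have hiT : i ∉ T a := disjoint_right.1 t3 hi
    rw [he] at hr ⊢
    refine ⟨T a, t1, fun h3 => h1 (mem_sdiff.2 ⟨h3, fun h4 => hr ?_⟩), fun h3 => h2 ?_, ?_⟩
    · exact mem_insert_of_mem (mem_erase.2 ⟨fun h5 => hiT (h5 ▸ h3), h4⟩)
    · exact mem_sdiff.2 ⟨mem_union_left _ h3, disjoint_right.1 hd h3⟩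
    · rw [← t4]
      congr 1
      ext x
      simp only [mem_sdiff, mem_insert, mem_erase]
      constructor
      · rintro ⟨h3, h4⟩
        exact ⟨h3, fun h5 => h4 (Or.inr ⟨fun h6 => hiT (h6 ▸ h3), h5⟩)⟩
      · rintro ⟨h3, h4⟩
        refine ⟨h3, ?_⟩
        rintro (h5 | h5)
        · exact t2 (h5 ▸ h3)
        · exact h4 h5.2

theorem Phi.big {F : Finset ι → Prop} {E P T' U : Finset ι} {e : ℕ} {l : ι} (h : Phi F E e P)
    (hl : l ∉ E ∪ P) (h1 : l ∉ T') (h2 : (T' \ (E ∪ P)).card = e)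
    (hU : insert l (E ∪ P) ⊆ U ∪ T') : 2 * e + E.card + 1 ≤ (U ∪ T').card := by
  have h3 : insert l (T' ∪ (E ∪ P)) ⊆ U ∪ T' := by
    intro x hx
    rcases mem_insert.1 hx with h4 | h4
    · exact hU (h4 ▸ mem_insert_self _ _)
    · rcases mem_union.1 h4 with h5 | h5
      · exact mem_union_right _ h5
      · exact hU (mem_insert_of_mem h5)
  have h4 := card_le_card h3
  have h5 : l ∉ T' ∪ (E ∪ P) := fun h6 => (mem_union.1 h6).elim h1 hl
  rw [card_insert_of_notMem h5, ← card_sdiff_add_card, h2, card_union_of_disjoint h.dj.symm,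
    h.cd] at h4
  omega

theorem stepB {F : Finset ι → Prop} {J e : ℕ} {E P : Finset ι} (hk : 4 ≤ Fintype.card α)
    (hJ : ∀ V V', F V → F V' → (V ∪ V').card ≤ J)
    (hK : ∀ V l, F V → (∀ r, r ∉ V → ¬F (insert r V)) → l ∉ V → KLP α F J V l)
    (he : 2 * e + E.card = J) (h : Phi F E e P) {l i : ι} (hl : l ∉ E ∪ P) (hi : i ∈ P) :
    Phi F E e (insert l (P.erase i)) := by
  have hm : ∀ r, r ∉ E ∪ P → ¬F (insert r (E ∪ P)) := by
    intro r hr hF
    obtain ⟨T', t1, t2, -, t4⟩ := h.wit r hr r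
    have h1 := h.big (U := insert r (E ∪ P)) hr t2 t4 subset_union_left
    have h2 := hJ _ _ hF t1
    omega
  obtain ⟨P', T, a0, k1, k2, k3, k4, k5, k6⟩ := hK _ l h.mem hm hl
  have h1 : P' ⊆ P := by
    intro j hj
    rcases mem_union.1 (k1 hj) with h2 | h2
    · exfalso
      obtain ⟨T', t1, t2, t3, t4⟩ := h.wit l hl j
      have h3 := h.big (U := insert l ((E ∪ P).erase j)) hl t2 t4 (by
        intro x hx
        by_cases h4 : x = j
        · exact mem_union_right _ (h4 ▸ t3 h2)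
        · refine mem_union_left _ ?_
          rcases mem_insert.1 hx with h5 | h5
          · exact h5 ▸ mem_insert_self _ _
          · exact mem_insert_of_mem (mem_erase.2 ⟨h4, h5⟩))
      have h4 := hJ _ _ (k3 j hj) t1
      omega
    · exact h2
  have h2 : P' = P := by
    refine eq_of_subset_of_card_le h1 ?_
    rw [card_union_of_disjoint h.dj.symm, h.cd] at k2
    rw [h.cd]
    omega
  subst h2
  have := stepA2 (⟨k3, k4, k5, k6⟩ : Dat F (E ∪ P') l P' T a0) hk h.dj hl hi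
  rwa [h.cd] at this

theorem all {F : Finset ι → Prop} {e : ℕ} {E : Finset ι}
    (hs : ∀ P l i, Phi F E e P → l ∉ E ∪ P → i ∈ P → Phi F E e (insert l (P.erase i)))
    {Q : Finset ι} (hQ : Disjoint Q E) (hc : Q.card = e) (n : ℕ) :
    ∀ P, Phi F E e P → (Q \ P).card = n → Phi F E e Q := by
  induction n with
  | zero =>
    intro P h hn
    rw [card_eq_zero, sdiff_eq_empty_iff_subset] at hn
    rwa [eq_of_subset_of_card_le hn (by rw [hc, h.cd])]
  | succ n ih =>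
    intro P h hn
    obtain ⟨l, hl⟩ : (Q \ P).Nonempty := card_pos.1 (by omega)
    obtain ⟨i, hi⟩ : (P \ Q).Nonempty := by
      refine card_pos.1 ?_
      rw [card_sdiff_comm (h.cd.trans hc.symm)]
      omega
    rw [mem_sdiff] at hi
    have hl' := mem_sdiff.1 hl
    refine ih _ (hs P l i h (fun h1 => (mem_union.1 h1).elim (disjoint_left.1 hQ hl'.1) hl'.2)
      hi.1) ?_
    have h1 : Q \ insert l (P.erase i) = (Q \ P).erase l := by
      ext x
      simp only [mem_sdiff, mem_insert, mem_erase]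
      constructor
      · rintro ⟨h2, h3⟩
        exact ⟨fun h4 => h3 (Or.inl h4), h2,
          fun h4 => h3 (Or.inr ⟨fun h5 => hi.2 (h5 ▸ h2), h4⟩)⟩
      · rintro ⟨h2, h3, h4⟩
        exact ⟨h3, fun h5 => h5.elim h2 fun h6 => h4 h6.2⟩
    rw [h1, card_erase_of_mem hl, hn]
    rfl

end Fam

theorem fam : StmtFam ι α := by
  intro hk F J hd hJ hK h0 h1
  obtain ⟨V, l, hV, hm, hl⟩ := Fam.exists_max F h0 h1
  obtain ⟨P, T, a0, k1, k2, k3, k4, k5, k6⟩ := hK V l hV hm hl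
  have hD : Fam.Dat F V l P T a0 := ⟨k3, k4, k5, k6⟩
  have hr := hD.room hl
  have hVE : V = V \ P ∪ P := (sdiff_union_of_subset k1).symm
  have hc : (V \ P).card + P.card = V.card := card_sdiff_add_card_eq_card k1
  have hdj : Disjoint P (V \ P) := disjoint_sdiff
  generalize V \ P = E at hVE hc hdj
  subst hVE
  have hP := Fam.stepA1 hD hk hdj hV
  generalize P.card = e at hP hr hc k2
  have he : 2 * e + E.card = J := by omega
  obtain ⟨q, hq⟩ : ∃ q, Fintype.card α = q + 4 := ⟨Fintype.card α - 4, by omega⟩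
  have hq' : (Fintype.card α - 1) * e = q * e + 3 * e := by
    rw [hq, show q + 4 - 1 = q + 3 from rfl, add_mul]
  have hall : ∀ Q : Finset ι, Disjoint Q E → Q.card = e → F (E ∪ Q) := fun Q a b =>
    (Fam.all (fun P l i h x y => Fam.stepB hk hJ hK he h x y) a b _ P hP rfl).mem
  refine ⟨E, e, he, by rw [hq, add_mul]; omega, fun W => ⟨fun hW => ?_, fun hW => ?_⟩⟩
  · by_contra hn
    obtain ⟨U, u1, u2⟩ := exists_subset_card_eq (s := W \ E) (n := e + 1) (by omega)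
    have u3 : Disjoint U E := disjoint_of_subset_left u1 sdiff_disjoint
    obtain ⟨Q, q1, q2⟩ := exists_subset_card_eq (s := (U ∪ E)ᶜ) (n := e) (by
      rw [card_compl, card_union_of_disjoint u3]; omega)
    have q3 : Disjoint Q (U ∪ E) := disjoint_of_subset_left q1 disjoint_compl_left
    have q4 := hJ _ _ (hd _ _ (u1.trans sdiff_subset) hW)
      (hall Q (q3.mono_right subset_union_right) q2)
    rw [← union_assoc, card_union_of_disjoint q3.symm, card_union_of_disjoint u3] at q4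
    omega
  · obtain ⟨Q, q1, q2, q3⟩ := exists_subsuperset_card_eq (s := W \ E) (t := Eᶜ) (n := e)
      (fun x hx => mem_compl.2 (mem_sdiff.1 hx).2) hW (by rw [card_compl]; omega)
    refine hd _ _ (fun x hx => ?_)
      (hall Q (disjoint_of_subset_left q2 disjoint_compl_left) q3)
    by_cases h2 : x ∈ E
    · exact mem_union_left _ h2
    · exact mem_union_right _ (q1 (mem_sdiff.2 ⟨hx, h2⟩))

theorem cenA (hD : StmtDown ι α) (hK : StmtKL ι α) (hF : StmtFam ι α) : StmtCenA ι α := by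
  classical
  intro hk C F hC h2
  have hd : ∀ V V', V' ⊆ V → F V → F V' := by
    intro V V' hs hV
    have key : ∀ S : Finset ι, F (S ∪ V') → F V' := by
      intro S
      induction S using Finset.induction_on with
      | empty => simp
      | insert a S _ ih =>
        intro h
        rw [insert_union] at h
        exact ih (hD hk C F hC _ _ h)
    exact key V (by rwa [union_eq_left.2 hs])
  obtain ⟨c, hc, c', hc', hn⟩ := one_lt_card.1 h2
  have h0 : F ∅ := by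
    obtain ⟨_, _, h⟩ := hC.ex c 1
    exact hd _ _ (empty_subset _) h
  have h1 : ¬F univ := fun h => hn (hC.sep c hc c' hc' _ _ h h (by simp)
    (by simpa using hammingDist_le_card_fintype))
  obtain ⟨p, hp, hm⟩ := exists_max_image
    (univ.filter fun p : Finset ι × Finset ι => F p.1 ∧ F p.2) (fun p => (p.1 ∪ p.2).card)
    ⟨(∅, ∅), by simpa using h0⟩
  rw [mem_filter] at hp
  have hJ : ∀ V V', F V → F V' → (V ∪ V').card ≤ (p.1 ∪ p.2).card := fun V V' a b =>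
    hm (V, V') (mem_filter.2 ⟨mem_univ _, a, b⟩)
  have hL := hK (by omega) C F _ hC hd hJ ⟨p.1, p.2, hp.2.1, hp.2.2, rfl⟩
  obtain ⟨E, e, k1, k2, k3⟩ := hF (by omega) F _ hd hJ
    (fun V l a b c => (hL V l a b c).2) h0 h1
  obtain ⟨V, l, hV, hx, hl⟩ := Fam.exists_max F h0 h1
  refine ⟨E, e, k2, k3, ?_⟩
  rw [k1]
  exact (hL V l hV hx hl).1

end Pool.Agent.MP_92191b_al.K6

end

section

/-! No diagonal plane, and the structure of lines. -/

set_option linter.unusedSectionVars false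

namespace Pool.Agent.MP_92191b_al.K6

open Finset Function Equiv

variable {ι α : Type} [Fintype ι] [DecidableEq ι] [Fintype α] [DecidableEq α]

namespace No6

theorem not_inj (hk : 4 ≤ Fintype.card α) {e : α → α} (he : Injective e) (p q w : α)
    (h : ∀ b, b ≠ p → b ≠ q → e b = w) : False := by
  obtain ⟨b, h1, h2⟩ := exists_ne2 (by omega) p q
  obtain ⟨b', g1, g2, g3⟩ := exists_ne3 (by omega) p q b
  exact g3 (he ((h b' g1 g2).trans (h b h1 h2).symm))

theorem two {e : α → α} (h : (∃ μ b0, ∀ b, b ≠ b0 → e b = μ) ∨ Injective e) {p q μ : α}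
    (hpq : p ≠ q) (hp : e p = μ) (hq : e q = μ) : ∃ b0, ∀ b, b ≠ b0 → e b = μ := by
  rcases h with ⟨ν, b0, h⟩ | h
  · refine ⟨b0, ?_⟩
    by_cases h0 : p = b0
    · rwa [← hq, h q fun e => hpq (h0.trans e.symm)]
    · rwa [← hp, h p h0]
  · exact absurd (h (hp.trans hq.symm)) hpq

theorem major (hk : 4 ≤ Fintype.card α) {φ : α → α → α}
    (h : ∀ π : Perm α, (∃ μ b0, ∀ b, b ≠ b0 → φ (π b) b = μ) ∨ Injective fun b => φ (π b) b)
    (h4 : Fintype.card α = 4 → G.Step φ) :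
    (∃ μ, ∀ a a' b b', a ≠ a' → b ≠ b' → φ a b = μ ∨ φ a' b' = μ) ∨
      ∀ π : Perm α, Injective fun b => φ (π b) b := by
  by_cases hall : ∀ π : Perm α, Injective fun b => φ (π b) b
  · exact Or.inr hall
  obtain ⟨π0, h0⟩ := not_forall.1 hall
  obtain ⟨μ, b0, hb0⟩ := (h π0).resolve_right h0
  have sw : ∀ (ρ : Perm α) (x y p q : α), p ≠ q → p ≠ x → p ≠ y → q ≠ x → q ≠ y →
      φ (ρ p) p = μ → φ (ρ q) q = μ → ∃ b0, ∀ b, b ≠ b0 → φ ((ρ * swap x y) b) b = μ :=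
    fun ρ x y p q h1 h2 h3 h4 h5 h6 h7 => two (e := fun b => φ ((ρ * swap x y) b) b) (h _) h1
      (by simpa [Perm.mul_apply, swap_apply_of_ne_of_ne h2 h3] using h6)
      (by simpa [Perm.mul_apply, swap_apply_of_ne_of_ne h4 h5] using h7)
  have step : ∀ (ρ : Perm α) (x y b1 : α), x ≠ y → (∀ b, b ≠ b1 → φ (ρ b) b = μ) →
      ∃ b0, ∀ b, b ≠ b0 → φ ((ρ * swap x y) b) b = μ := by
    intro ρ x y b1 hxy hb1
    obtain ⟨p, p1, p2, p3⟩ := exists_ne3 hk x y b1
    by_cases hq : ∃ q, q ≠ x ∧ q ≠ y ∧ q ≠ p ∧ φ (ρ q) q = μ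
    · obtain ⟨q, q1, q2, q3, q4⟩ := hq
      exact sw ρ x y p q q3.symm p1 p2 q1 q2 (hb1 p p3) q4
    obtain ⟨q, q1, q2, q3⟩ := exists_ne3 hk x y p
    have hq1 : q = b1 := by_contra fun e => hq ⟨q, q1, q2, q3, hb1 q e⟩
    subst hq1
    have hν : φ (ρ q) q ≠ μ := fun e => hq ⟨q, q1, q2, q3, e⟩
    rcases Nat.eq_or_lt_of_le hk with hk4 | hk5
    swap
    · obtain ⟨s, s1, s2, s3, s4⟩ := exists_ne4 hk5 x y p q
      exact absurd ⟨s, s1, s2, s3, hb1 s s4⟩ hq
    obtain ⟨g, hg, g0, g1, g2, g3⟩ := G.exists_En4 hk4.symm q3 q1 p1 q2 p2 hxy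
    obtain ⟨hA, hB⟩ := h4 hk4.symm (fun u => ρ (g u)) g μ (φ (ρ q) q) (hg.perm ρ) hg hν.symm
      (by rw [g0]) (by rw [g1]; exact hb1 p p3) (by rw [g2]; exact hb1 x q1.symm)
      (by rw [g3]; exact hb1 y q2.symm)
    simp only [g0, g2, g3] at hA hB
    have ex : (ρ * swap x y) x = ρ y := by simp
    have ey : (ρ * swap x y) y = ρ x := by simp
    have ep : (ρ * swap x y) p = ρ p := by simp [swap_apply_of_ne_of_ne p1 p2]
    have eq : (ρ * swap x y) q = ρ q := by simp [swap_apply_of_ne_of_ne q1 q2]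
    rcases h (ρ * swap x y) with ⟨ν, b2, hb2⟩ | hi
    · by_cases e : p = b2
      · subst e
        have k1 := hb2 x p1.symm
        have k2 := hb2 y p2.symm
        have k3 := hb2 q q3
        rw [ex] at k1
        rw [ey] at k2
        rw [eq] at k3
        exact absurd ⟨k1.trans k3.symm, k2.trans k3.symm⟩ hA
      · have k := hb2 p e
        rw [ep, hb1 p p3] at k
        exact ⟨b2, k ▸ hb2⟩
    · have ne : ∀ s t, s ≠ t → φ ((ρ * swap x y) s) s ≠ φ ((ρ * swap x y) t) t :=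
        fun s t hst e => hst (hi e)
      have oth : ∀ s t, s ≠ q → t ≠ q → t ≠ p → t ≠ s → p ≠ s →
          φ (ρ s) q = μ ∨ φ (ρ q) s = μ := by
        intro s t a1 a2 a3 a4 a5
        obtain ⟨b2, hb2⟩ := sw ρ s q p t a3.symm a5 p3 a4 a2 (hb1 p p3) (hb1 t a2)
        by_cases e : q = b2
        · exact Or.inr (by simpa using hb2 s fun e' => a1 (e'.trans e.symm))
        · exact Or.inl (by simpa using hb2 q e)
      refine absurd ⟨?_, ?_, ?_, ?_, ?_, oth x y q1.symm q2.symm p2.symm hxy.symm p1,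
        oth y x q2.symm q1.symm p1.symm hxy p2⟩ hB
      · simpa only [ep, ex, hb1 p p3] using ne p x p1
      · simpa only [eq, ex] using ne q x q1
      · simpa only [ep, ey, hb1 p p3] using ne p y p2
      · simpa only [eq, ey] using ne q y q2
      · simpa only [ex, ey] using ne x y hxy
  have key : ∀ f : Perm α, ∃ b0, ∀ b, b ≠ b0 → φ ((π0 * f) b) b = μ := by
    intro f
    induction f using Perm.swap_induction_on' with
    | one => exact ⟨b0, by simpa using hb0⟩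
    | mul_swap f x y hxy ih =>
      obtain ⟨b1, hb1⟩ := ih
      rw [← mul_assoc]
      exact step _ x y b1 hxy hb1
  refine Or.inl ⟨μ, fun a a' b b' ha hb => ?_⟩
  obtain ⟨π, h1, h2⟩ := exists_perm2 hb ha
  obtain ⟨b1, hb1⟩ := key (π0⁻¹ * π)
  rw [mul_inv_cancel_left] at hb1
  by_cases hbb : b = b1
  · exact Or.inr (h2 ▸ hb1 b' fun h' => hb (hbb.trans h'.symm))
  · exact Or.inl (h1 ▸ hb1 b hbb)

theorem rows (h0 : StmtLine0 α) {φ : α → α → α}
    (h : ∀ π : Perm α, Injective fun b => φ (π b) b) {a1 a2 b1 : α} (hne : φ a1 b1 ≠ φ a2 b1) :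
    ∀ a b a' b', φ a b = φ a' b' ↔ a = a' := by
  have cl : ∀ μ, (∃ a0, ∀ a b, φ a b = μ ↔ a = a0) ∨ ∃ b0, ∀ a b, φ a b = μ ↔ b = b0 := by
    intro μ
    refine h0 (fun a b => φ a b = μ) (fun a b a' b' h1 h2 h3 => ?_) fun π => ?_
    · by_cases ha : a = a'
      · exact ⟨ha, h3.1 ha⟩
      · have hb : b ≠ b' := fun e => ha (h3.2 e)
        obtain ⟨π, e1, e2⟩ := exists_perm2 hb ha
        exact (hb (h π (by simp only [e1, e2, h1, h2]))).elim
    · exact (Finite.injective_iff_surjective.1 (h π)) μ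
  obtain ⟨a0, ha0⟩ : ∃ a0, ∀ a b, φ a b = φ a1 b1 ↔ a = a0 := by
    refine (cl _).resolve_right ?_
    rintro ⟨b0, hb0⟩
    exact hne ((hb0 a2 b1).2 ((hb0 a1 b1).1 rfl)).symm
  have cl' : ∀ μ, ∃ a0, ∀ a b, φ a b = μ ↔ a = a0 := by
    intro μ
    rcases cl μ with h1 | ⟨b0, hb0⟩
    · exact h1
    · have : μ = φ a1 b1 := ((hb0 a0 b0).2 rfl).symm.trans ((ha0 a0 b0).2 rfl)
      exact ⟨a0, this ▸ ha0⟩
  intro a b a' b'
  obtain ⟨a3, h3⟩ := cl' (φ a' b')
  rw [h3, (h3 a' b').1 rfl]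

theorem kline {T : Rel2 ι α} {σ : ι → Perm α} {i j : ι} {b0 : α} (ρ : Perm α)
    (h : ∀ a, ∃ y, pl T σ i j (ρ y) a y b0) : ∃ σ' c' d', KLine T σ' j b0 c' d' := by
  choose y c d hc h1 h2 h3 h4 using h
  refine ⟨update σ i ρ, c, d, fun a => ⟨(hc a).1, h2 a, h4 a, fun r hr => ?_⟩⟩
  by_cases hi : r = i
  · subst hi; rw [update_self, h1, h3]
  · rw [update_of_ne hi]; exact (hc a).2 r hi hr

/-- The family of cells of a diagonal plane. -/
def Grid (T : Rel2 ι α) (σ : ι → Perm α) (i j : ι) (τ : Perm α) (x : α)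
    (c d : α → α → ι → α) : Prop :=
  ∀ a b, Cell T σ i j (c a b) (d a b) ∧ c a b i = a ∧ c a b j = x ∧ d a b i = τ b ∧ d a b j = b

variable {T : Rel2 ι α} {σ : ι → Perm α} {i j : ι} {τ : Perm α} {x : α} {c d : α → α → ι → α}

theorem Grid.line (h : Grid T σ i j τ x c d) (π : Perm α) :
    RLine T (update σ i (π * τ⁻¹)) j x (fun b => c (π b) b) fun b => d (π b) b := by
  intro b
  obtain ⟨h1, h2, h3, h4, h5⟩ := h (π b) b
  refine ⟨h1.1, h3, h5, fun r hr => ?_⟩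
  by_cases hi : r = i
  · subst hi; simp [h2, h4]
  · rw [update_of_ne hi]; exact h1.2 r hi hr

theorem Grid.norow (hS : StmtSec ι α) (hRL : StmtRL α) (hR : StmtGRL ι α)
    (hk : 4 ≤ Fintype.card α) (hT : Good T) (hij : i ≠ j) (h : Grid T σ i j τ x c d) {r : ι}
    (hi : r ≠ i) (hj : r ≠ j) (hr : ∀ a b a' b', d a b r = d a' b' r ↔ a = a') : False := by
  obtain ⟨ρ, hρ⟩ := exists_perm1 x x
  have hP := (hS T hT.tight (update σ j ρ) r i hi).1
  have he : Injective fun a => σ r (d a x r) := fun a a' e =>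
    (hr a x a' x).1 ((σ r).injective e)
  have hl : ∀ y, dual (pl T (update σ j ρ) r i) ((σ r)⁻¹ (σ r (d y x r))) (τ x)
      (σ r (d y x r)) y := by
    intro y
    obtain ⟨h1, h2, h3, h4, h5⟩ := h y x
    refine ⟨c y x, d y x, ⟨h1.1, fun s hs hs' => ?_⟩, h1.2 r hi hj, h2, by simp, h4⟩
    by_cases e : s = j
    · subst e; rw [update_self, h3, h5, hρ]
    · rw [update_of_ne e]; exact h1.2 s hs' e
  rcases hRL (by omega) _ (σ r)⁻¹ (τ x) (fun a => σ r (d a x r)) hP.dual hl with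
    ⟨w, hw⟩ | ⟨y0, w, hw, -⟩ | ⟨y0, y1, w, -, hw, -⟩ | ⟨τ', -, h6⟩
  · exact not_inj hk he x x w fun b _ _ => hw b
  · exact not_inj hk he y0 y0 w fun b hb _ => hw.1 b hb
  · exact not_inj hk he y0 y1 w fun b hb hb' => hw b hb hb'
  obtain ⟨w, hw⟩ := exists_ne1 (by omega) (d x x r)
  obtain ⟨c', d', hc, -, e2, e3, e4⟩ := (h6 w (τ x) (τ' x) x).2 ⟨rfl, rfl⟩
  have he' : Injective fun b => d ((1 : Perm α) b) b r := fun a a' e => (hr a a a' a').1 e
  rcases hR hk T hT _ r j x _ _ hj (h.line 1) with ⟨w, hw⟩ | ⟨b0, w, hw, -⟩ | ⟨τ2, ht, h6'⟩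
  · exact not_inj hk he' x x w fun b _ _ => hw b
  · exact not_inj hk he' b0 b0 w fun b hb _ => hw.1 b hb
  have hc' : Cell T (update σ i (1 * τ⁻¹)) r j c' d' := by
    refine ⟨hc.1, fun s hs hs' => ?_⟩
    by_cases e : s = i
    · subst e; simp [e2, e4]
    · rw [update_of_ne e, hc.2 s hs e, update_of_ne hs']
  obtain ⟨f1, f2⟩ := (h6' _ _ _ _).1 ⟨c', d', hc', rfl, rfl, rfl, rfl⟩
  have f3 := hc.2 j hj.symm hij.symm
  rw [update_self, f2] at f3
  have f4 : d' j = x := ρ.injective (f3.symm.trans hρ.symm)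
  exact hw (by rw [← e3, f1, f4, ← ht x]; rfl)

theorem Grid.kind (h0 : StmtLine0 α) (hS : StmtSec ι α) (hRL : StmtRL α) (hR : StmtGRL ι α)
    (hk : 4 ≤ Fintype.card α) (hT : Good T) (hij : i ≠ j) (h : Grid T σ i j τ x c d) {r : ι}
    (hi : r ≠ i) (hj : r ≠ j) {a1 a2 b1 : α} (hne : d a1 b1 r ≠ d a2 b1 r) :
    ∃ μ, ∀ a a' b b', a ≠ a' → b ≠ b' → d a b r = μ ∨ d a' b' r = μ := by
  refine (major hk (φ := fun a b => d a b r) (fun π => ?_)
    fun h4 => G.step4 h4 hT.tight hij hi hj h).resolve_right fun hall => ?_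
  · rcases hR hk T hT _ r j x _ _ hj (h.line π) with ⟨w, hw⟩ | ⟨b0, w, hw, -⟩ | ⟨τ2, ht, -⟩
    · exact Or.inl ⟨w, x, fun b _ => hw b⟩
    · exact Or.inl ⟨w, b0, hw.1⟩
    · exact Or.inr fun b b' e => τ2.injective (by rw [← ht, ← ht]; exact e)
  · exact h.norow hS hRL hR hk hT hij hi hj (rows h0 (φ := fun a b => d a b r) hall hne)

theorem Grid.differ (hT : Good T) (h : Grid T σ i j τ x c d) {a a' : α} (ha : a ≠ a') (b : α) :
    ∃ r, r ≠ i ∧ r ≠ j ∧ d a b r ≠ d a' b r := by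
  by_contra! hc
  obtain ⟨h1, h2, h3, h4, h5⟩ := h a b
  obtain ⟨g1, g2, g3, g4, g5⟩ := h a' b
  have hd : d a b = d a' b := by
    funext r
    by_cases hi : r = i
    · rw [hi, h4, g4]
    by_cases hj : r = j
    · rw [hj, h5, g5]
    exact hc r hi hj
  refine hT.no1 _ _ _ h1.1 (hd ▸ g1.1) ?_
  have : ({r | c a b r ≠ c a' b r} : Finset ι) = {i} := by
    ext r
    simp only [mem_filter, mem_univ, true_and, mem_singleton]
    refine ⟨fun hr => ?_, fun hr => by rw [hr, h2, g2]; exact ha⟩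
    by_contra hi
    by_cases hj : r = j
    · exact hr (by rw [hj, h3, g3])
    · exact hr (by rw [h1.2 r hi hj, g1.2 r hi hj, hd])
  rw [hammingDist, this, card_singleton]

end No6

theorem no6 (h0 : StmtLine0 α) (hS : StmtSec ι α) (hRL : StmtRL α) (hR : StmtGRL ι α)
    (hD : StmtDS ι α) : StmtNo6 ι α := by
  intro hk T hT σ i j τ x hij H
  obtain ⟨c, d, h⟩ : ∃ c d, No6.Grid T σ i j τ x c d := by
    choose c d h using fun a b => (H a x (τ b) b).2 ⟨rfl, rfl⟩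
    exact ⟨c, d, h⟩
  have bad : ∀ b p, ∃ a, a ≠ p ∧ ∃ r μ, r ≠ j ∧ d a b r ≠ μ ∧
      ∀ a' b', a ≠ a' → b ≠ b' → d a' b' r = μ := by
    intro b p
    obtain ⟨a, ha⟩ := exists_ne1 (by omega) p
    obtain ⟨a', h1, h2⟩ := exists_ne2 (by omega) p a
    obtain ⟨r, hi, hj, hne⟩ := h.differ hT h2 b
    obtain ⟨μ, hμ⟩ := h.kind h0 hS hRL hR hk hT hij hi hj hne
    by_cases e : d a b r = μ
    · have e' : d a' b r ≠ μ := fun e' => hne (e'.trans e.symm)
      exact ⟨a', h1, r, μ, hj, e', fun s t hs ht => (hμ a' s b t hs ht).resolve_left e'⟩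
    · exact ⟨a, ha, r, μ, hj, e, fun s t hs ht => (hμ a s b t hs ht).resolve_left e⟩
  obtain ⟨b', hb⟩ := exists_ne1 (by omega) x
  obtain ⟨a, -, r, μ, hr, e1, e2⟩ := bad x x
  obtain ⟨a', ha, r', μ', hr', e1', e2'⟩ := bad b' a
  obtain ⟨π, p1, p2⟩ := exists_perm2 hb ha
  refine hb (hD hk T hT _ r' j r x b' x μ' μ _ _ hr' hr (h.line π) ⟨fun s hs => ?_, ?_⟩
    ⟨fun s hs => ?_, ?_⟩)
  · exact e2' _ _ (fun e => hs (π.injective (e.symm.trans p1.symm))) hs.symm
  · simpa [p1] using e1'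
  · exact e2 _ _ (fun e => hs (π.injective (e.symm.trans p2.symm))) hs.symm
  · simpa [p2] using e1

theorem lineThm (h0 : StmtLine0 α) (hR : StmtGRL ι α) (hD : StmtDS ι α) (h6 : StmtNo6 ι α) :
    StmtLine ι α := by
  intro hk T hT σ j
  rcases h0 (fun a b => ∃ c d, T c d ∧ (∀ r, r ≠ j → c r = σ r (d r)) ∧ c j = a ∧ d j = b)
    (by
      rintro a b a' b' ⟨c, d, h1, h2, rfl, rfl⟩ ⟨c', d', g1, g2, rfl, rfl⟩ he
      have : hammingDist c c' = hammingDist d d' := by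
        unfold hammingDist
        congr 1
        ext r
        simp only [mem_filter, mem_univ, true_and]
        by_cases hr : r = j
        · rw [hr]; exact not_congr he
        · rw [h2 r hr, g2 r hr]; exact not_congr (σ r).apply_eq_iff_eq
      obtain ⟨e1, e2⟩ := hT.tight.sep _ _ _ _ h1 g1 this
      rw [e1, e2]; exact ⟨rfl, rfl⟩)
    (by
      intro ρ
      obtain ⟨c, d, h1, h2⟩ := hT.tight.ex (update σ j ρ) 1
      refine ⟨d j, c, d, h1, fun r hr => ?_, by simpa using h2 j, rfl⟩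
      simpa [update_of_ne hr] using h2 r) with ⟨x, hx⟩ | ⟨y, hy⟩
  · choose c d h1 h2 h3 h4 using fun b => (hx x b).2 rfl
    have hl : RLine T σ j x c d := fun b => ⟨h1 b, h3 b, h4 b, h2 b⟩
    refine Or.inr ⟨x, c, d, ?_⟩
    by_cases hall : ∀ b b' r, r ≠ j → d b r = d b' r
    · exact ⟨x, hl, fun b b' _ _ r hr => hall b b' r hr, Or.inl hall⟩
    push Not at hall
    obtain ⟨b1, b2, i, hi, hne⟩ := hall
    rcases hR hk T hT σ i j x c d hi hl with ⟨w, hw⟩ | ⟨b0, w, hw, hP⟩ | ⟨τ, -, ht⟩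
    · exact (hne ((hw b1).trans (hw b2).symm)).elim
    · refine ⟨b0, hl, fun b b' hb hb' r hr => ?_, Or.inr ?_⟩
      · rcases hR hk T hT σ r j x c d hr hl with ⟨v, hv⟩ | ⟨b3, v, hv, -⟩ | ⟨τ, -, ht⟩
        · rw [hv, hv]
        · have : b0 = b3 := hD hk T hT σ i j r x b0 b3 w v c d hi hr hl hw hv
          subst this
          exact (hv.1 b hb).trans (hv.1 b' hb').symm
        · exact (h6 hk T hT σ r j τ x hr ht).elim
      · rcases hP with hP | ⟨x1, -, -, hP⟩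
        · obtain ⟨ρ, hρ⟩ := exists_perm1 (d b0 i) (σ i w)
          exact No6.kline ρ fun a => ⟨d b0 i, (hP _ _ _ _).2 (Or.inr ⟨Or.inl hρ, rfl, rfl⟩)⟩
        · obtain ⟨t, t1, t2⟩ := exists_ne2 (by omega) (σ i w) (σ i (d b0 i))
          obtain ⟨ρ, hρ⟩ := exists_perm1 w t
          have hn : ∀ s, t ≠ s → ρ⁻¹ s ≠ w := fun s hs e => hs (by rw [← hρ, ← e]; simp)
          refine No6.kline (σ := σ) (i := i) ρ fun a => ?_
          by_cases a1 : a = x1
          · exact ⟨ρ⁻¹ (σ i w), (hP _ _ _ _).2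
              (Or.inr (Or.inl ⟨Or.inl ⟨by simp, a1⟩, hn _ t1, rfl⟩))⟩
          by_cases a0 : a = x
          · exact ⟨ρ⁻¹ (σ i (d b0 i)), (hP _ _ _ _).2
              (Or.inr (Or.inl ⟨Or.inr ⟨by simp, a0⟩, hn _ t2, rfl⟩))⟩
          · exact ⟨w, (hP _ _ _ _).2 (Or.inr (Or.inr ⟨hρ ▸ t1, hρ ▸ t2, a0, a1, rfl, rfl⟩))⟩
    · exact (h6 hk T hT σ i j τ x hi ht).elim
  · choose c d h1 h2 h3 h4 using fun a => (hy a y).2 rfl
    exact Or.inl ⟨y, c, d, fun a => ⟨h1 a, h3 a, h4 a, h2 a⟩⟩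

end Pool.Agent.MP_92191b_al.K6

end

section

/-! The structure theorem: centring and unswitching. -/

set_option linter.unusedSectionVars false

namespace Pool.Agent.MP_92191b_al.K6

open Finset Function Equiv

variable {ι α : Type} [Fintype ι] [DecidableEq ι] [Fintype α] [DecidableEq α]

namespace ThmA

theorem mem_df {c z : ι → α} {l : ι} : l ∈ df c z ↔ c l ≠ z l := by simp [df]

theorem dist_eq (c d : ι → α) : hammingDist c d = (df c d).card := rfl

theorem closure {D : Finset (ι → α)} {ζ : ι → α}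
    (H : ∀ d ∈ D, ∀ j v, d j ≠ ζ j → v ≠ ζ j → update d j v ∈ D) {d x : ι → α} (hd : d ∈ D)
    (h : df x ζ = df d ζ) : x ∈ D := by
  have h' : ∀ i, x i ≠ ζ i ↔ d i ≠ ζ i := fun i => by rw [← mem_df, ← mem_df, h]
  have key : ∀ S : Finset ι, (fun i => if i ∈ S then x i else d i) ∈ D := by
    intro S
    induction S using Finset.induction_on with
    | empty => simpa using hd
    | insert i S hi ih =>
      by_cases hx : x i = ζ i
      · have hd' : d i = ζ i := by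
          by_contra h2
          exact (h' i).2 h2 hx
        convert ih using 1
        funext r
        by_cases hr : r = i
        · subst hr
          simp [hi, hx, hd']
        · simp [hr]
      · have := H _ ih i (x i) (by simpa [hi] using (h' i).1 hx) hx
        convert this using 1
        funext r
        by_cases hr : r = i
        · subst hr
          simp
        · simp [hr]
  simpa using key univ

theorem dev_eq (ζ : ι → α) (E : Finset ι) (x : ι → α) : dev ζ E x = (df x ζ \ E).card := by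
  unfold dev
  congr 1
  ext i
  simp [df, and_comm]

theorem mem_AK {ζ : ι → α} {E : Finset ι} {e : ℕ} {x : ι → α} :
    x ∈ AK ζ E e ↔ dev ζ E x ≤ e := by simp [AK]

theorem dev_insert (ζ : ι → α) {E : Finset ι} {j : ι} (hj : j ∉ E) (x : ι → α) :
    dev ζ E x = dev ζ (insert j E) x + nq (x j) (ζ j) := by
  unfold dev
  by_cases h : x j = ζ j
  · rw [h, nq_self, add_zero]
    congr 1
    ext i
    by_cases hi : i = j
    · subst hi
      simp [h]
    · simp [hi]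
  · rw [nq_of_ne h, ← card_insert_of_notMem (a := j) (by simp)]
    congr 1
    ext i
    by_cases hi : i = j
    · subst hi
      simp [h, hj]
    · simp [hi]

theorem dev_congr {ζ ζ' x x' : ι → α} {E : Finset ι} (h1 : ∀ i, i ∉ E → ζ i = ζ' i)
    (h2 : ∀ i, i ∉ E → x i = x' i) : dev ζ E x = dev ζ' E x' := by
  unfold dev
  congr 1
  ext i
  by_cases hi : i ∈ E
  · simp [hi]
  · simp [hi, h1 i hi, h2 i hi]

theorem upd_off {x : ι → α} {j : ι} {v : α} {E : Finset ι} (hj : j ∈ E) (i : ι) (hi : i ∉ E) :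
    update x j v i = x i :=
  update_of_ne (fun h : i = j => hi (h ▸ hj)) _ _

theorem mem_fib_AK {ζ : ι → α} {E : Finset ι} {j : ι} (hj : j ∉ E) (e : ℕ) (x : ι → α) (v : α) :
    v ∈ Fib (AK ζ E e) j x ↔ dev ζ (insert j E) x + nq v (ζ j) ≤ e := by
  show update x j v ∈ AK ζ E e ↔ _
  rw [mem_AK, dev_insert ζ hj, update_self,
    dev_congr (fun _ _ => rfl) (upd_off (mem_insert_self j E))]

theorem four (hL : StmtLab ι α) (hk : 4 ≤ Fintype.card α) {C D : Finset (ι → α)} (hG : GP C D)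
    (hC : C.Nonempty) (j : ι) (x : ι → α) :
    Fib D j x = ∅ ∨ Fib D j x = Set.univ ∨ ∃ b, Fib D j x = {b} ∨ Fib D j x = {b}ᶜ := by
  rcases (Fib D j x).eq_empty_or_nonempty with h | ⟨v, hv⟩
  · exact Or.inl h
  right
  obtain ⟨c, hc⟩ := hC
  have he : Fib D j (update x j v) = Fib D j x := by
    ext w
    simp [Fib]
  have hs : ∀ r, r ≠ j → c r = swap (update x j v r) (c r) (update x j v r) := fun r _ =>
    (swap_apply_left _ _).symm
  rcases hL hk C D hG (fun r => swap (update x j v r) (c r)) j with h | ⟨b, h⟩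
  · exact Or.inl (he ▸ h c hc _ hv hs)
  · exact Or.inr ⟨b, he ▸ h c hc _ hv hs⟩

theorem far_dist {ζ x y : ι → α} {E : Finset ι} {j : ι} (hj : j ∉ E) {b b' : α} (hb : b ≠ b')
    (hE : ∀ r ∈ E, x r ≠ y r) (hd : ∀ r, r ∉ insert j E → x r = ζ r ∨ y r = ζ r) :
    hammingDist (update x j b) (update y j b') =
      dev ζ (insert j E) x + dev ζ (insert j E) y + E.card + 1 := by
  have h1 : df (update x j b) (update y j b') =
      (df x ζ \ insert j E) ∪ (df y ζ \ insert j E) ∪ insert j E := by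
    ext r
    simp only [mem_df, mem_union, mem_sdiff]
    by_cases hr : r ∈ insert j E
    · simp only [hr, or_true, iff_true]
      rcases mem_insert.1 hr with rfl | hr'
      · simpa using hb
      · have : r ≠ j := fun h => hj (h ▸ hr')
        simpa [update_of_ne this] using hE r hr'
    · rw [upd_off (mem_insert_self j E) r hr, upd_off (mem_insert_self j E) r hr]
      simp only [hr, not_false_eq_true, and_true, or_false]
      rcases hd r hr with h | h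
      · rw [h]
        simp [eq_comm]
      · rw [h]
        simp
  rw [dist_eq, h1, card_union_of_disjoint, card_union_of_disjoint, card_insert_of_notMem hj,
    dev_eq, dev_eq]
  · omega
  · rw [disjoint_left]
    intro r h2 h3
    rw [mem_sdiff, mem_df] at h2 h3
    rcases hd r h2.2 with h | h
    · exact h2.1 h
    · exact h3.1 h
  · rw [disjoint_left]
    intro r h2 h3
    rcases mem_union.1 h2 with h | h <;> exact (mem_sdiff.1 h).2 h3

theorem exists_far (hk : 4 ≤ Fintype.card α) {ζ x x' : ι → α} {E : Finset ι} {j : ι} {e : ℕ}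
    (hj : j ∉ E) (room : E.card + Fintype.card α * e + 1 ≤ Fintype.card ι)
    (hx : dev ζ (insert j E) x = e) (hx' : dev ζ (insert j E) x' = e) :
    ∃ y, dev ζ (insert j E) y = e ∧ (∀ r ∈ E, x r ≠ y r ∧ x' r ≠ y r) ∧
      ∀ r, r ∉ insert j E → (x r = ζ r ∨ y r = ζ r) ∧ (x' r = ζ r ∨ y r = ζ r) := by
  set B := (df x ζ \ insert j E) ∪ (df x' ζ \ insert j E) ∪ insert j E with hB
  have hc : B.card ≤ e + e + (E.card + 1) := by
    rw [dev_eq] at hx hx'
    refine (card_union_le _ _).trans (Nat.add_le_add ((card_union_le _ _).trans ?_) ?_)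
    · omega
    · rw [card_insert_of_notMem hj]
  have hc' : e ≤ (univ \ B).card := by
    rw [card_univ_sdiff]
    have : 4 * e ≤ Fintype.card α * e := Nat.mul_le_mul_right _ hk
    omega
  obtain ⟨R, hR, hRc⟩ := exists_subset_card_eq hc'
  have hRB : ∀ r ∈ R, r ∉ B := fun r hr => (mem_sdiff.1 (hR hr)).2
  choose a ha using fun r => exists_ne1 (by omega) (ζ r)
  choose w hw using fun r => exists_ne2 (by omega) (x r) (x' r)
  refine ⟨fun r => if r ∈ R then a r else if r ∈ E then w r else ζ r, ?_, ?_, ?_⟩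
  · rw [dev_eq, ← hRc]
    congr 1
    ext r
    rw [mem_sdiff, mem_df]
    by_cases hr : r ∈ R
    · have := hRB r hr
      simp only [hr, if_true, iff_true]
      exact ⟨ha r, fun h => this (mem_union_right _ h)⟩
    · simp only [hr, if_false, iff_false, not_and, not_not]
      intro h
      by_cases hE : r ∈ E
      · exact mem_insert_of_mem hE
      · simp [hE] at h
  · intro r hr
    have hr' : r ∉ R := fun h => hRB r h (mem_union_right _ (mem_insert_of_mem hr))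
    simp only [hr', hr, if_true, if_false]
    exact ⟨(hw r).1.symm, (hw r).2.symm⟩
  · intro r hr
    by_cases hR' : r ∈ R
    · have := hRB r hR'
      simp only [hB, mem_union, mem_sdiff, mem_df, hr, not_false_eq_true, and_true, or_false,
        not_or, not_not] at this
      exact ⟨Or.inl this.1, Or.inl this.2⟩
    · have hE : r ∉ E := fun h => hr (mem_insert_of_mem h)
      simp only [hR', hE, if_false, or_true, and_self]

theorem unswitch (hL : StmtLab ι α) (hk : 4 ≤ Fintype.card α) {C D D' : Finset (ι → α)}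
    (hG : GP C D) {j : ι} {z : α} (hS : SwRel D D' j z) {d : ι → α} {b : α}
    (hd : Fib D j d = {b} ∨ Fib D j d = {b}ᶜ) (hc : Concl C D') : Concl C D := by
  obtain ⟨ζ, E, e, rfl, room, c, hc, c', hc', hcc⟩ := hc
  obtain ⟨z1, hz1⟩ := exists_ne1 (by omega) z
  have hne : ∀ x, Fib (AK ζ E e) j x = {z} ∨ Fib (AK ζ E e) j x = {z}ᶜ →
      ¬(z ∈ Fib (AK ζ E e) j x ↔ z1 ∈ Fib (AK ζ E e) j x) := by
    rintro x (h | h) <;> rw [h] <;> simp [hz1]
  have hd' : Fib (AK ζ E e) j d = {z} ∨ Fib (AK ζ E e) j d = {z}ᶜ :=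
    hd.imp ((hS d).2.2.1 b) ((hS d).2.2.2 b)
  have hj : j ∉ E := by
    intro hj
    refine hne d hd' ?_
    show update d j z ∈ AK ζ E e ↔ update d j z1 ∈ AK ζ E e
    rw [mem_AK, mem_AK, dev_congr (fun _ _ => rfl) (upd_off hj),
      dev_congr (fun _ _ => rfl) (upd_off hj)]
  have h4 := four hL hk hG ⟨c, hc⟩ j
  have hlt : ∀ x, dev ζ (insert j E) x < e → Fib D j x = Set.univ := by
    intro x hx
    have hu : ∀ v, v ∈ Fib (AK ζ E e) j x := fun v => by
      rw [mem_fib_AK hj]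
      have := nq_le v (ζ j)
      omega
    rcases h4 x with h | h | ⟨b, h⟩
    · have := hu z
      rw [(hS x).1 h] at this
      exact this.elim
    · exact h
    · exact (hne x (h.imp ((hS x).2.2.1 b) ((hS x).2.2.2 b)) (iff_of_true (hu _) (hu _))).elim
  have hgt : ∀ x, e < dev ζ (insert j E) x → Fib D j x = ∅ := by
    intro x hx
    have hu : ∀ v, v ∉ Fib (AK ζ E e) j x := fun v => by
      rw [mem_fib_AK hj]
      omega
    rcases h4 x with h | h | ⟨b, h⟩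
    · exact h
    · have := hu z
      rw [(hS x).2.1 h] at this
      exact (this trivial).elim
    · exact (hne x (h.imp ((hS x).2.2.1 b) ((hS x).2.2.2 b)) (iff_of_false (hu _) (hu _))).elim
  have heq : ∀ x, dev ζ (insert j E) x = e → ∃ b, Fib D j x = {b} := by
    intro x hx
    obtain ⟨v, hv1, hv2⟩ := exists_ne2 (by omega) z (ζ j)
    have h1 : ζ j ∈ Fib (AK ζ E e) j x := by
      rw [mem_fib_AK hj, nq_self]
      omega
    have h2 : v ∉ Fib (AK ζ E e) j x := by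
      rw [mem_fib_AK hj, nq_of_ne hv2]
      omega
    rcases h4 x with h | h | ⟨b, h | h⟩
    · rw [(hS x).1 h] at h1
      exact h1.elim
    · rw [(hS x).2.1 h] at h2
      exact (h2 trivial).elim
    · exact ⟨b, h⟩
    · rw [(hS x).2.2.2 b h] at h2
      exact (h2 hv1).elim
  have hpair : ∀ x y b b', dev ζ (insert j E) x = e → dev ζ (insert j E) y = e →
      Fib D j x = {b} → Fib D j y = {b'} → (∀ r ∈ E, x r ≠ y r) →
      (∀ r, r ∉ insert j E → x r = ζ r ∨ y r = ζ r) → b = b' := by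
    intro x y b b' hx hy h1 h2 hE hr
    by_contra hb
    have m1 : b ∈ Fib D j x := h1 ▸ rfl
    have m2 : b' ∈ Fib D j y := h2 ▸ rfl
    have h3 := far_dist hj hb hE hr
    have h5 := hG.sep c hc c' hc' _ m1 _ m2 (by omega)
    rw [h5, hammingDist_self] at hcc
    omega
  have hde : dev ζ (insert j E) d = e := by
    rcases lt_trichotomy (dev ζ (insert j E) d) e with h | h | h
    · exact (hne d hd' (by rw [(hS d).2.1 (hlt d h)]; simp)).elim
    · exact h
    · exact (hne d hd' (by rw [(hS d).1 (hgt d h)]; simp)).elim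
  obtain ⟨b0, hb0⟩ := heq d hde
  have hall : ∀ x, dev ζ (insert j E) x = e → Fib D j x = {b0} := by
    intro x hx
    obtain ⟨b1, hb1⟩ := heq x hx
    obtain ⟨y, hy, hE, hr⟩ := exists_far hk hj room hx hde
    obtain ⟨b2, hb2⟩ := heq y hy
    have e1 := hpair x y b1 b2 hx hy hb1 hb2 (fun r h => (hE r h).1) fun r h => (hr r h).1
    have e2 := hpair d y b0 b2 hde hy hb0 hb2 (fun r h => (hE r h).2) fun r h => (hr r h).2
    rw [hb1, e1, e2]
  refine ⟨update ζ j b0, E, e, ?_, room, c, hc, c', hc', hcc⟩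
  ext x
  have h1 : x ∈ D ↔ x j ∈ Fib D j x := by simp [Fib]
  rw [h1, mem_AK, dev_insert _ hj, update_self,
    dev_congr (upd_off (mem_insert_self j E)) fun _ _ => rfl]
  have h2 := nq_le (x j) b0
  rcases lt_trichotomy (dev ζ (insert j E) x) e with h | h | h
  · rw [hlt x h]
    exact iff_of_true trivial (by omega)
  · rw [hall x h, Set.mem_singleton_iff]
    by_cases h3 : x j = b0
    · rw [h3, nq_self]
      exact iff_of_true rfl (by omega)
    · rw [nq_of_ne h3]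
      exact iff_of_false h3 (by omega)
  · rw [hgt x h]
    exact iff_of_false id (by omega)

end ThmA

open ThmA

theorem toCen (hC : StmtCnt ι α) (hA : StmtCenA ι α) : StmtToCen ι α := by
  intro hk C D hG h2 ζ H
  have hcen : Cen C fun V => ∃ d ∈ D, df d ζ = V := by
    constructor
    · rintro c hc c' hc' V V' ⟨d, hd, hV⟩ ⟨d', hd', hV'⟩ h1 h3
      have hu : (V ∪ V').card = (symmDiff V V').card + (V ∩ V').card := by
        rw [← card_union_of_disjoint]
        · congr 1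
          ext i
          simp only [mem_union, mem_symmDiff, mem_inter]
          tauto
        · rw [disjoint_left]
          intro i
          simp only [mem_symmDiff, mem_inter]
          tauto
      obtain ⟨S, hS, hSc⟩ := exists_subset_card_eq (s := V ∩ V')
        (n := hammingDist c c' - (symmDiff V V').card) (by omega)
      choose a ha using fun r => exists_ne1 (by omega) (ζ r)
      choose a' ha' using fun r => exists_ne2 (by omega) (ζ r) (a r)
      have m1 : (fun i => if i ∈ V then a i else ζ i) ∈ D := by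
        refine closure H hd ?_
        rw [hV]
        ext i
        rw [mem_df]
        by_cases hi : i ∈ V <;> simp [hi, ha i]
      have m2 : (fun i => if i ∈ V' then (if i ∈ S then a' i else a i) else ζ i) ∈ D := by
        refine closure H hd' ?_
        rw [hV']
        ext i
        rw [mem_df]
        by_cases hi : i ∈ V' <;> by_cases hs : i ∈ S <;> simp [hi, hs, ha i, (ha' i).1]
      refine hG.sep c hc c' hc' _ m1 _ m2 ?_
      have h4 : df (fun i => if i ∈ V then a i else ζ i)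
          (fun i => if i ∈ V' then (if i ∈ S then a' i else a i) else ζ i) =
          symmDiff V V' ∪ S := by
        ext i
        have h5 : i ∈ S → i ∈ V ∧ i ∈ V' := fun h => mem_inter.1 (hS h)
        rw [mem_df, mem_union, mem_symmDiff]
        by_cases hi : i ∈ V <;> by_cases hi' : i ∈ V' <;> by_cases hs : i ∈ S <;>
          simp_all [(ha i).symm, (ha' i).2.symm]
      rw [dist_eq (fun i => if i ∈ V then a i else ζ i), h4, card_union_of_disjoint]
      · omega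
      · rw [disjoint_left]
        intro i h6 h7
        have := mem_inter.1 (hS h7)
        rw [mem_symmDiff] at h6
        tauto
    · intro z π
      have hne : Nonempty α := Fintype.card_pos_iff.1 (by omega)
      obtain ⟨c, d, ⟨hc, hd⟩, h⟩ := (hC.2.2.1 C D hne hG.sep hG.big).ex
        (fun l => swap (ζ (π l)) (z l)) π
      refine ⟨c, hc, d, hd, ?_⟩
      ext r
      obtain ⟨l, rfl⟩ := π.surjective r
      have h1 : π l ∈ (df c z).map π.toEmbedding ↔ l ∈ df c z := mem_map' π.toEmbedding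
      rw [h1, mem_df, mem_df, h l, Ne, Ne, swap_apply_eq_iff, swap_apply_right]
  obtain ⟨E, e, room, hF, hcc⟩ := hA hk C _ hcen h2
  refine ⟨ζ, E, e, ?_, room, hcc⟩
  ext x
  rw [mem_AK, dev_eq, ← hF]
  exact ⟨fun hx => ⟨x, hx, rfl⟩, fun ⟨d, hd, h⟩ => closure H hd h.symm⟩

theorem thmA (hL : StmtLab ι α) (hS : StmtSw ι α) (hT : StmtToCen ι α) : StmtA ι α := by
  intro hk C D hG h2
  obtain ⟨ζ⟩ : Nonempty (ι → α) := by
    have hne : Nonempty α := Fintype.card_pos_iff.1 (by omega)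
    infer_instance
  have hb : ∀ D : Finset (ι → α), ∑ j, (D.filter fun d => d j = ζ j).card ≤
      ∑ _j : ι, Fintype.card (ι → α) := fun D =>
    sum_le_sum fun j _ => card_le_univ _
  have key : ∀ n, ∀ D : Finset (ι → α), GP C D →
      ∑ _j : ι, Fintype.card (ι → α) < ∑ j, (D.filter fun d => d j = ζ j).card + n →
      Concl C D := by
    intro n
    induction n with
    | zero => exact fun D _ h => absurd (hb D) (by omega)
    | succ n ih =>
      intro D hG hn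
      by_cases H : ∀ d ∈ D, ∀ j v, d j ≠ ζ j → v ≠ ζ j → update d j v ∈ D
      · exact hT hk C D hG h2 ζ H
      push Not at H
      obtain ⟨d, hd, j, v, h1, h3, h4⟩ := H
      have m1 : d j ∈ Fib D j d := by simpa [Fib] using hd
      have m2 : v ∉ Fib D j d := h4
      obtain ⟨b, hb1, hb2⟩ : ∃ b, b ≠ ζ j ∧ (Fib D j d = {b} ∨ Fib D j d = {b}ᶜ) := by
        rcases four hL (Nat.le_of_succ_le hk) hG (card_pos.1 (by omega)) j d with h | h | ⟨b, h | h⟩
        · rw [h] at m1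
          exact m1.elim
        · rw [h] at m2
          exact (m2 trivial).elim
        · refine ⟨b, ?_, Or.inl h⟩
          rw [h, Set.mem_singleton_iff] at m1
          exact m1 ▸ h1
        · refine ⟨b, ?_, Or.inr h⟩
          rw [h, Set.mem_compl_iff, not_not, Set.mem_singleton_iff] at m2
          exact m2 ▸ h3
      obtain ⟨D', hG', hsw, he, hlt⟩ := hS (Nat.le_of_succ_le hk) C D hG j (ζ j) ⟨d, b, hb1, hb2⟩
      refine unswitch hL (Nat.le_of_succ_le hk) hG hsw hb2 (ih D' hG' ?_)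
      have : ∑ r, (D.filter fun d => d r = ζ r).card < ∑ r, (D'.filter fun d => d r = ζ r).card := by
        refine sum_lt_sum (fun r _ => ?_) ⟨j, mem_univ _, hlt⟩
        by_cases hr : r = j
        · subst hr
          exact hlt.le
        · exact (he r _ hr).ge
      omega
  exact key (∑ _j : ι, Fintype.card (ι → α) + 1) D hG (by omega)

end Pool.Agent.MP_92191b_al.K6

end

section

/-! The listed exceptional pairs are harmless. -/

set_option linter.unusedSectionVars false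

namespace Pool.Agent.MP_92191b_al.X

open Finset Function Equiv K6

variable {ι α : Type} [Fintype ι] [DecidableEq ι] [Fintype α] [DecidableEq α]

namespace Harm

lemma mem_of {S : Set ℕ} {C : Finset (ι → α)} {s : ℕ} (hc : Cl S C) (h : HasD C s)
    (hs : s ≠ 0) : s ∈ S := by
  obtain ⟨x, hx, y, hy, rfl⟩ := h
  refine hc x hx y hy ?_
  rintro rfl
  exact hs (hammingDist_self x)

lemma gap_of {C D : Finset (ι → α)} {s t : ℕ} (h : HasD C s) (h' : HasD D t) (hs : s ≠ 0)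
    (hst : s ≤ t) : ∃ c ∈ C, ∃ c' ∈ C, ∃ d ∈ D, ∃ d' ∈ D, c ≠ c' ∧
      hammingDist c c' ≤ hammingDist d d' := by
  obtain ⟨x, hx, y, hy, rfl⟩ := h
  obtain ⟨z, hz, w, hw, rfl⟩ := h'
  refine ⟨x, hx, y, hy, z, hz, w, hw, ?_, hst⟩
  rintro rfl
  exact hs (hammingDist_self x)

lemma hom_of {S T : Set ℕ} {f : (ι → α) → ι → α} (hf : Hom S f)
    (h : ∀ s, s ≤ Fintype.card ι → (s ∈ S ↔ s ∈ T)) : Hom T f := by
  intro x y hxy
  exact (h _ hammingDist_le_card_fintype).1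
    (hf x y ((h _ hammingDist_le_card_fintype).2 hxy))

end Harm

open Harm

theorem harm (h3 : StmtE3) (h7 : StmtE7) (h8 : StmtE8) : StmtHarm := by
  intro k m f
  refine ⟨?_, ?_⟩
  · intro C D h
    rcases h with ⟨-, -, a, -, b⟩ | ⟨-, -, a, -, b⟩ | ⟨-, -, a, -, b, -⟩ | ⟨-, -, a, -, -, -, b⟩
    · exact gap_of a b (by norm_num) (by norm_num)
    · exact gap_of a b (by norm_num) (by norm_num)
    · exact gap_of a b (by norm_num) (by norm_num)
    · exact gap_of a b (by norm_num) (by norm_num)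
  · intro C D _ h S h0 hf hS
    rcases h with ⟨hk, hm, a3, b2, b4⟩ | ⟨hk, hm, a2, a4, b3⟩ | ⟨hk, hm, a3, b2, b4, b5⟩ |
      ⟨hk, hm, a4, a6, b2, b3, b5⟩
    all_goals
      rw [Fintype.card_fin] at hk hm
      subst hk
      subst hm
    · rcases hS with ⟨h1, hC, hD⟩ | ⟨h1, hC, hD⟩
      · have e3 := mem_of hC a3 (by norm_num)
        have e2 : 2 ∉ S := mem_of hD b2 (by norm_num)
        have e4 : 4 ∉ S := mem_of hD b4 (by norm_num)
        refine h3.1 f (Or.inl (hom_of hf ?_))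
        intro s hs
        rw [Fintype.card_fin] at hs
        interval_cases s <;> simp [*]
      · have e3 : 3 ∉ S := mem_of hC a3 (by norm_num)
        have e2 := mem_of hD b2 (by norm_num)
        have e4 := mem_of hD b4 (by norm_num)
        refine h3.1 f (Or.inr (Or.inl (hom_of hf ?_)))
        intro s hs
        rw [Fintype.card_fin] at hs
        interval_cases s <;> simp [*]
    · rcases hS with ⟨h1, hC, hD⟩ | ⟨h1, hC, hD⟩
      · have e2 := mem_of hC a2 (by norm_num)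
        have e4 := mem_of hC a4 (by norm_num)
        have e3 : 3 ∉ S := mem_of hD b3 (by norm_num)
        refine h3.1 f (Or.inr (Or.inr (Or.inr (hom_of hf ?_))))
        intro s hs
        rw [Fintype.card_fin] at hs
        interval_cases s <;> simp [*]
      · have e2 : 2 ∉ S := mem_of hC a2 (by norm_num)
        have e4 : 4 ∉ S := mem_of hC a4 (by norm_num)
        have e3 := mem_of hD b3 (by norm_num)
        refine h3.1 f (Or.inr (Or.inr (Or.inl (hom_of hf ?_))))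
        intro s hs
        rw [Fintype.card_fin] at hs
        interval_cases s <;> simp [*]
    · rcases hS with ⟨h1, hC, hD⟩ | ⟨h1, hC, hD⟩
      · have e3 := mem_of hC a3 (by norm_num)
        have e2 : 2 ∉ S := mem_of hD b2 (by norm_num)
        have e4 : 4 ∉ S := mem_of hD b4 (by norm_num)
        have e5 : 5 ∉ S := mem_of hD b5 (by norm_num)
        refine h3.2 f (Or.inl (hom_of hf ?_))
        intro s hs
        rw [Fintype.card_fin] at hs
        interval_cases s <;> simp [*]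
      · have e3 : 3 ∉ S := mem_of hC a3 (by norm_num)
        have e2 := mem_of hD b2 (by norm_num)
        have e4 := mem_of hD b4 (by norm_num)
        have e5 := mem_of hD b5 (by norm_num)
        refine h3.2 f (Or.inr (hom_of hf ?_))
        intro s hs
        rw [Fintype.card_fin] at hs
        interval_cases s <;> simp [*]
    · rcases hS with ⟨h1, hC, hD⟩ | ⟨h1, hC, hD⟩
      · have e4 := mem_of hC a4 (by norm_num)
        have e6 := mem_of hC a6 (by norm_num)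
        have e2 : 2 ∉ S := mem_of hD b2 (by norm_num)
        have e3 : 3 ∉ S := mem_of hD b3 (by norm_num)
        have e5 : 5 ∉ S := mem_of hD b5 (by norm_num)
        refine h7 f (hom_of hf ?_)
        intro s hs
        rw [Fintype.card_fin] at hs
        interval_cases s <;> simp [*]
      · have e4 : 4 ∉ S := mem_of hC a4 (by norm_num)
        have e6 : 6 ∉ S := mem_of hC a6 (by norm_num)
        have e2 := mem_of hD b2 (by norm_num)
        have e3 := mem_of hD b3 (by norm_num)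
        have e5 := mem_of hD b5 (by norm_num)
        refine h8 f (hom_of hf ?_)
        intro s hs
        rw [Fintype.card_fin] at hs
        interval_cases s <;> simp [*]

end Pool.Agent.MP_92191b_al.X

end
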