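import Pool.Agent.MP_92191b_al.K6.Basic
import Pool.Agent.MP_92191b_al.K5.Arms
import Pool.Agent.MP_92191b_al.X.Defs
import Pool.Agent.MP_92191b_al.X4.Cert
import Pool.Agent.MP_92191b_al.K6.CSec
import Mathlib
import Pool.Agent.MP_92191b_al.X4.Pw

section

/-! The centred family is down-closed. -/

set_option linter.unusedSectionVars false

namespace Pool.Agent.MP_92191b_al.K6

open Finset Function Equiv

variable {ι α : Type} [Fintype ι] [DecidableEq ι] [Fintype α] [DecidableEq α]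

namespace Down

theorem mem_df {c z : ι → α} {r : ι} : r ∈ df c z ↔ c r ≠ z r := by simp [df]

theorem nz_iff {a b : α} : nz a b = true ↔ a ≠ b := by simp [nz]

theorem dist_le {c c' : ι → α} {S : Finset ι} (h : ∀ r, c r ≠ c' r → r ∈ S) :
    hammingDist c c' ≤ S.card :=
  card_le_card fun r hr => h r (mem_filter.1 hr).2

theorem far {C : Finset (ι → α)} {F : Finset ι → Prop} (hC : Cen C F) {V : Finset ι}
    (hV : F V) {c c' : ι → α} (hc : c ∈ C) (hc' : c' ∈ C) (hne : c ≠ c') :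
    V.card < hammingDist c c' := by
  by_contra h
  exact hne (hC.sep c hc c' hc' V V hV hV (by simp) (by rw [union_self]; omega))

theorem two {C : Finset (ι → α)} {F : Finset ι → Prop} (hC : Cen C F) {V U : Finset ι}
    (hV : F V) (hU : F U) {c u : ι → α} (hc : c ∈ C) (hu : u ∈ C) (hne : c ≠ u)
    (hd : ∀ r, c r ≠ u r → r ∈ V ∪ U) : ∃ r1 ∈ U \ V, ∃ r2 ∈ U \ V, r1 ≠ r2 := by
  have h1 := far hC hV hc hu hne
  have h2 : hammingDist c u < (symmDiff V U).card := by
    by_contra h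
    exact hne (hC.sep c hc u hu V U hV hU (by omega) (dist_le hd))
  have h3 : (symmDiff V U).card ≤ V.card + (U \ V).card := by
    refine le_trans (card_le_card ?_) (card_union_le _ _)
    intro r hr
    rw [mem_symmDiff] at hr
    rw [mem_union, mem_sdiff]
    tauto
  exact one_lt_card.1 (by omega)

end Down

open K6.Down in
theorem down (hS : StmtCSec ι α) (hCP : StmtCP α) (hT : StmtT23 α) : StmtDown ι α := by
  intro hk C F hC T l hV
  by_contra hT0
  have hl : l ∉ T := fun h => hT0 (by rwa [insert_eq_of_mem h] at hV)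
  obtain ⟨a0⟩ : Nonempty α := Fintype.card_pos_iff.1 (by omega)
  obtain ⟨c, hc, -⟩ := hC.ex (fun _ => a0) 1
  choose o ho using exists_ne1 (α := α) (by omega)
  let z : ι → α := fun r => if r ∈ T then o (c r) else c r
  have hz : ∀ r, r ∈ T ↔ c r ≠ z r := by
    intro r
    by_cases h : r ∈ T
    · simp only [z, if_pos h, h, true_iff]
      exact (ho _).symm
    · simp [z, h]
  have hz0 : ∀ r, r ∉ T → c r = z r := fun r hr => by_contra fun h => hr ((hz r).2 h)
  have hdf : df c z = T := by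
    ext r
    rw [mem_df, hz]
  obtain ⟨c', hc', hT'⟩ := hC.ex z 1
  have hmap : (df c' z).map (1 : Perm ι).toEmbedding = df c' z := by
    ext r
    rw [mem_map_equiv]
    rfl
  rw [hmap] at hT'
  have hcc : c ≠ c' := fun h => hT0 (by rwa [← h, hdf] at hT')
  have hll : c' l = c l := by
    by_contra h
    obtain ⟨a, ha, ha'⟩ := exists_ne2 (α := α) (by omega) (c l) (c' l)
    refine hcc ((hS C F hC (update z l a)).1 c hc c' hc' ?_ ?_)
    · have : df c (update z l a) = insert l T := by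
        ext r
        rw [mem_df, mem_insert]
        by_cases hr : r = l
        · subst hr
          simp [ha.symm]
        · rw [update_of_ne hr, ← hz]
          simp [hr]
      rwa [this]
    · have : df c' (update z l a) = df c' z := by
        ext r
        rw [mem_df, mem_df]
        by_cases hr : r = l
        · subst hr
          rw [update_self, ← hz0 r hl]
          simp [ha'.symm, h]
        · rw [update_of_ne hr]
      rwa [this]
  obtain ⟨i, hi, hi'⟩ : ∃ i ∈ T, i ∉ df c' z := by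
    by_contra! h
    have h1 := far hC hT' hc hc' hcc
    have h2 : hammingDist c c' ≤ (df c' z).card := by
      refine dist_le fun r hr => ?_
      by_cases hrT : r ∈ T
      · exact h r hrT
      · rw [mem_df, ← hz0 r hrT]
        exact hr.symm
    omega
  have hil : i ≠ l := fun h => hl (h ▸ hi)
  have hV' : ∀ r, r ≠ l → (r ∈ insert l T ↔ c r ≠ z r) := fun r hr => by
    rw [mem_insert, ← hz]
    simp [hr]
  have hW1 : cpl C F z i l (c i) (c l) true true :=
    ⟨c, hc, insert l T, hV, rfl, rfl, by simp [hi], by simp, fun r _ hr => hV' r hr⟩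
  have hW2 : cpl C F z i l (c' i) (c l) false false := by
    refine ⟨c', hc', df c' z, hT', rfl, hll, by simpa using hi', ?_, fun r _ _ => mem_df⟩
    rw [mem_df, hll, hz0 l hl]
    simp
  have hci : c' i ≠ c i := by
    rw [mem_df, not_not] at hi'
    rw [hi']
    exact ((hz i).1 hi).symm
  have hQ : Q4 (cpl C F z i l) (c i) (c l) := by
    rcases hCP (by omega) _ ((hS C F hC z).2.1 i l hil) with
      ⟨y1, y2, h⟩ | h | ⟨y1, y2, h⟩ | ⟨y1, y2, h⟩ | ⟨τ, h⟩ | ⟨τ, h⟩ | ⟨b0, b1, y0, y1, -, -, h⟩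
    · exact absurd (((h _ _ _ _).1 hW2).1.trans ((h _ _ _ _).1 hW1).1.symm) hci
    · simpa using (h _ _ _ _).1 hW1
    · simpa using (h _ _ _ _).1 hW1
    · have h1 := (h _ _ _ _).1 hW1
      simp only [and_true, Bool.true_eq_false, and_false, or_false] at h1
      rw [h1.1, h1.2]
      exact h
    · simpa using (h _ _ _ _).1 hW1
    · simpa using (h _ _ _ _).1 hW1
    · simpa using (h _ _ _ _).1 hW1
  have hA : ∀ b, cpl C F z i l (c i) b false false := fun b =>
    (hQ _ _ _ _).2 (Or.inr ⟨Or.inl rfl, rfl, rfl⟩)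
  have hB : ∀ b, cpl C F z i l b (c l) false false := fun b =>
    (hQ _ _ _ _).2 (Or.inr ⟨Or.inr rfl, rfl, rfl⟩)
  choose A hAC VA hAF hAi hAl hAi' hAl' hAr using hA
  choose B hBC VB hBF hBi hBl hBi' hBl' hBr using hB
  have hiV : i ∈ insert l T := mem_insert_of_mem hi
  have hlV : l ∈ insert l T := mem_insert_self _ _
  have hG : ∀ u ∈ C, ∀ U, F U → (∀ r, r ≠ i → r ≠ l → (r ∈ U ↔ u r ≠ z r)) → c ≠ u →
      ∃ r1 r2, r1 ≠ r2 ∧ r1 ∉ insert l T ∧ r2 ∉ insert l T ∧ u r1 ≠ z r1 ∧ u r2 ≠ z r2 := by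
    intro u hu U hU hr hne
    obtain ⟨r1, h1, r2, h2, h12⟩ := two hC hV hU hc hu hne fun r hcu => by
      by_cases hrV : r ∈ insert l T
      · exact mem_union_left _ hrV
      · have hri : r ≠ i := fun h => hrV (h ▸ hiV)
        have hrl : r ≠ l := fun h => hrV (h ▸ hlV)
        refine mem_union_right _ ((hr r hri hrl).2 ?_)
        rw [← hz0 r fun h => hrV (mem_insert_of_mem h)]
        exact hcu.symm
    rw [mem_sdiff] at h1 h2
    exact ⟨r1, r2, h12, h1.2, h2.2,
      (hr r1 (fun h => h1.2 (h ▸ hiV)) fun h => h1.2 (h ▸ hlV)).1 h1.1,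
      (hr r2 (fun h => h2.2 (h ▸ hiV)) fun h => h2.2 (h ▸ hlV)).1 h2.1⟩
  have hD : ∀ r r', r ≠ r' → r ∉ insert l T → r' ∉ insert l T →
      K5.Dat (c i) (c l) z A B r r' ∧ K5.Dat (c l) (c i) z B A r r' := by
    intro r r' hrr hr hr'
    have hri : r ≠ i := fun h => hr (h ▸ hiV)
    have hrl : r ≠ l := fun h => hr (h ▸ hlV)
    have hri' : r' ≠ i := fun h => hr' (h ▸ hiV)
    have hrl' : r' ≠ l := fun h => hr' (h ▸ hlV)
    refine ⟨⟨csec4 C F z i r l r',
      (hS C F hC z).2.2 i r l r' hri.symm hil hri'.symm hrl hrr hrl'.symm, ?_, fun b => ?_,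
      fun b => ?_⟩, ⟨csec4 C F z l r i r',
      (hS C F hC z).2.2 l r i r' hrl.symm hil.symm hrl'.symm hri hrr hri'.symm, ?_, fun b => ?_,
      fun b => ?_⟩⟩
    · exact ⟨c, hc, insert l T, hV, rfl, hz0 r fun h => hr (mem_insert_of_mem h), rfl,
        hz0 r' fun h => hr' (mem_insert_of_mem h), by simp [hi], by simpa using hr, by simp,
        by simpa using hr', fun s _ _ hs _ => hV' s hs⟩
    · exact ⟨A b, hAC b, VA b, hAF b, hAi b, rfl, hAl b, rfl, hAi' b,
        (hAr b r hri hrl).trans nz_iff.symm, hAl' b, (hAr b r' hri' hrl').trans nz_iff.symm,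
        fun s h4 _ h5 _ => hAr b s h4 h5⟩
    · exact ⟨B b, hBC b, VB b, hBF b, hBi b, rfl, hBl b, rfl, hBi' b,
        (hBr b r hri hrl).trans nz_iff.symm, hBl' b, (hBr b r' hri' hrl').trans nz_iff.symm,
        fun s h4 _ h5 _ => hBr b s h4 h5⟩
    · exact ⟨c, hc, insert l T, hV, rfl, hz0 r fun h => hr (mem_insert_of_mem h), rfl,
        hz0 r' fun h => hr' (mem_insert_of_mem h), by simp, by simpa using hr, by simp [hi],
        by simpa using hr', fun s hs _ _ _ => hV' s hs⟩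
    · exact ⟨B b, hBC b, VB b, hBF b, hBl b, rfl, hBi b, rfl, hBl' b,
        (hBr b r hri hrl).trans nz_iff.symm, hBi' b, (hBr b r' hri' hrl').trans nz_iff.symm,
        fun s h4 _ h5 _ => hBr b s h5 h4⟩
    · exact ⟨A b, hAC b, VA b, hAF b, hAl b, rfl, hAi b, rfl, hAl' b,
        (hAr b r hri hrl).trans nz_iff.symm, hAi' b, (hAr b r' hri' hrl').trans nz_iff.symm,
        fun s h4 _ h5 _ => hAr b s h5 h4⟩
  rcases Nat.eq_or_lt_of_le hk with hk5 | hk6
  · exact K5.arms5 hk5.symm (X := fun r => r ∉ insert l T) (fun r r' h h1 h2 => (hD r r' h h1 h2).1)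
      (fun r r' h h1 h2 => (hD r r' h h1 h2).2)
      (fun b hb => hG (A b) (hAC b) _ (hAF b) (hAr b)
        fun h => hb ((hAl b).symm.trans (congrFun h l).symm))
      fun b hb => hG (B b) (hBC b) _ (hBF b) (hBr b)
        fun h => hb ((hBi b).symm.trans (congrFun h i).symm)
  have hK : ∀ r r', r ≠ r' → r ∉ insert l T → r' ∉ insert l T →
      (∃ b, b ≠ c l ∧ A b r ≠ z r) → (∃ b, b ≠ c i ∧ B b r' ≠ z r') →
      ((∃ b, b ≠ c i ∧ B b r ≠ z r) ↔ ∃ b, b ≠ c l ∧ A b r' ≠ z r') → False := by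
    intro r r' hrr hr hr' h1 h2 h3
    obtain ⟨W, hW, w0, wA, wB⟩ := (hD r r' hrr hr hr').1
    exact hT hk6 W (c i) (z r) (c l) (z r') (fun b => A b r) (fun b => A b r') (fun b => B b r)
      (fun b => B b r') hW w0 wA wB h1 h2 h3
  obtain ⟨r1, r2, h12, h1, h2, h1', h2'⟩ := hG (A (o (c l))) (hAC _) _ (hAF _) (hAr _)
    fun h => ho (c l) ((hAl _).symm.trans (congrFun h l).symm)
  obtain ⟨r3, r4, h34, h3, h4, h3', h4'⟩ := hG (B (o (c i))) (hBC _) _ (hBF _) (hBr _)
    fun h => ho (c i) ((hBi _).symm.trans (congrFun h i).symm)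
  have a1 : ∃ b, b ≠ c l ∧ A b r1 ≠ z r1 := ⟨_, ho _, h1'⟩
  have a2 : ∃ b, b ≠ c l ∧ A b r2 ≠ z r2 := ⟨_, ho _, h2'⟩
  have b3 : ∃ b, b ≠ c i ∧ B b r3 ≠ z r3 := ⟨_, ho _, h3'⟩
  have b4 : ∃ b, b ≠ c i ∧ B b r4 ≠ z r4 := ⟨_, ho _, h4'⟩
  obtain ⟨r, hr, ar, br⟩ : ∃ r, r ∉ insert l T ∧ (∃ b, b ≠ c l ∧ A b r ≠ z r) ∧
      ¬∃ b, b ≠ c i ∧ B b r ≠ z r := by
    by_cases b1 : ∃ b, b ≠ c i ∧ B b r1 ≠ z r1
    · exact ⟨r2, h2, a2, fun b2 => hK r1 r2 h12 h1 h2 a1 b2 (iff_of_true b1 a2)⟩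
    · exact ⟨r1, h1, a1, b1⟩
  obtain ⟨r', hr', br', ar'⟩ : ∃ r, r ∉ insert l T ∧ (∃ b, b ≠ c i ∧ B b r ≠ z r) ∧
      ¬∃ b, b ≠ c l ∧ A b r ≠ z r := by
    by_cases a3 : ∃ b, b ≠ c l ∧ A b r3 ≠ z r3
    · exact ⟨r4, h4, b4, fun a4 => hK r3 r4 h34 h3 h4 a3 b4 (iff_of_true b3 a4)⟩
    · exact ⟨r3, h3, b3, a3⟩
  exact hK r r' (fun h => ar' (h ▸ ar)) hr hr' ar br' (iff_of_false br ar')

end Pool.Agent.MP_92191b_al.K6

end

section

/-! Definitions and statements for an alphabet with four letters. -/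

set_option linter.unusedSectionVars false

namespace Pool.Agent.MP_92191b_al.X4

open Finset Function Equiv K6 X

variable {ι α : Type} [Fintype ι] [DecidableEq ι] [Fintype α] [DecidableEq α]

/-- One arm of a centred cross. -/
structure ArmD (C : Finset (ι → α)) (F : Finset ι → Prop) (c z : ι → α) (i l : ι)
    (A : α → ι → α) (U : α → Finset ι) : Prop where
  mem : ∀ b, A b ∈ C
  fam : ∀ b, F (U b)
  ai : ∀ b, A b i = c i
  al : ∀ b, A b l = b
  ni : ∀ b, i ∉ U b
  nl : ∀ b, l ∉ U b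
  off : ∀ b r, r ≠ i → r ≠ l → (r ∈ U b ↔ A b r ≠ z r)

/-- The centre of a centred cross. -/
structure Ctr (C : Finset (ι → α)) (F : Finset ι → Prop) (c z : ι → α) (V : Finset ι)
    (i l : ι) : Prop where
  ne : i ≠ l
  mem : c ∈ C
  fam : F V
  hi : i ∈ V
  hl : l ∈ V
  off : ∀ r, r ≠ i → r ≠ l → (r ∈ V ↔ c r ≠ z r)

variable (ι α) in
/-- A gap in the family gives a cross. -/
def StmtCross : Prop :=
  4 ≤ Fintype.card α → ∀ (C : Finset (ι → α)) (F : Finset ι → Prop), Cen C F →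
    ∀ T l, F (insert l T) → ¬F T → ∃ c z i A B U W, Ctr C F c z (insert l T) i l ∧
      ArmD C F c z i l A U ∧ ArmD C F c z l i B W

/-- A triple and the three pairs of a disjoint triple. -/
def Alp (F : Finset ι → Prop) (T : Finset ι) : Prop :=
  T.card = 3 ∧ ∃ T' : Finset ι, T'.card = 3 ∧ Disjoint T T' ∧ ∀ r ∈ T', F (T'.erase r)

/-- A pair and a disjoint triple. -/
def Bet (F : Finset ι → Prop) (V : Finset ι) : Prop :=
  V.card = 2 ∧ ∃ Y : Finset ι, F Y ∧ Y.card = 3 ∧ Disjoint V Y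

variable (ι) in
def StmtHole : Prop :=
  ∀ (C : Finset (ι → Fin 4)) (F : Finset ι → Prop), Cen C F → ∀ c z V i l A B U W,
    Ctr C F c z V i l → ArmD C F c z i l A U → ArmD C F c z l i B W →
    HasD C 4 ∧ (Alp F V ∨ Bet F V)

/-- The centred exception. -/
def CEx (C : Finset (ι → α)) (F : Finset ι → Prop) : Prop :=
  Fintype.card ι = 6 ∧ Cl {4, 6} C ∧ HasD C 4 ∧ (∀ V V', F V → F V' → (V ∪ V').card ≤ 5) ∧
    ∃ V V', F V ∧ F V' ∧ (symmDiff V V').card = 5

variable (ι) in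
def StmtAlp : Prop :=
  ∀ (C : Finset (ι → Fin 4)) (F : Finset ι → Prop), Cen C F → HasD C 4 → ∀ T, F T → Alp F T →
    CEx C F

variable (ι) in
def StmtDown4 : Prop :=
  ∀ (C : Finset (ι → Fin 4)) (F : Finset ι → Prop), Cen C F →
    (∀ V l, F (insert l V) → F V) ∨ CEx C F

/-- The exception carried through the switches. -/
def Ex0 (C D : Finset (ι → α)) : Prop :=
  Fintype.card ι = 6 ∧ C.card = 64 ∧ Cl {4, 6} C ∧ HasD C 4 ∧ HasD D 5

/-- Distances of the exceptional pair. -/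
def StmtHexD : Prop :=
  ∀ C D : Finset (Fin 6 → Fin 4), GP C D → C.card = 64 → Cl {4, 6} C → HasD C 4 →
    HasD C 6 ∧ HasD D 2 ∧ (HasD D 3)

end Pool.Agent.MP_92191b_al.X4

end

section

/-! Local structure of a cross over four letters. -/

set_option linter.unusedSectionVars false

namespace Pool.Agent.MP_92191b_al.X4

open Finset Function Equiv K6

variable {ι : Type} [Fintype ι] [DecidableEq ι]
variable {C : Finset (ι → Fin 4)} {F : Finset ι → Prop} {c z : ι → Fin 4} {V : Finset ι}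
  {i l : ι} {A B : Fin 4 → ι → Fin 4} {U W : Fin 4 → Finset ι}

theorem Ctr.symm (h : Ctr C F c z V i l) : Ctr C F c z V l i :=
  ⟨h.ne.symm, h.mem, h.fam, h.hl, h.hi, fun r h1 h2 => h.off r h2 h1⟩

theorem Ctr.ni (h : Ctr C F c z V i l) {r : ι} (hr : r ∉ V) : r ≠ i := fun e => hr (e ▸ h.hi)

theorem Ctr.nl (h : Ctr C F c z V i l) {r : ι} (hr : r ∉ V) : r ≠ l := fun e => hr (e ▸ h.hl)

theorem Ctr.zero (h : Ctr C F c z V i l) {r : ι} (hr : r ∉ V) : c r = z r :=
  by_contra fun e => hr ((h.off r (h.ni hr) (h.nl hr)).2 e)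

theorem ArmD.ne (h : ArmD C F c z i l A U) {b : Fin 4} (hb : b ≠ c l) : c ≠ A b :=
  fun e => hb ((h.al b).symm.trans (congrFun e l).symm)

theorem ArmD.off' (h : ArmD C F c z i l A U) {b : Fin 4} {r : ι} (hr : r ∈ U b) :
    r ≠ i ∧ r ≠ l ∧ A b r ≠ z r := by
  have h1 : r ≠ i := fun e => h.ni b (e ▸ hr)
  have h2 : r ≠ l := fun e => h.nl b (e ▸ hr)
  exact ⟨h1, h2, (h.off b r h1 h2).1 hr⟩

theorem two (hC : Cen C F) (h : Ctr C F c z V i l) (hA : ArmD C F c z i l A U) {b : Fin 4}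
    (hb : b ≠ c l) : ∃ r1 ∈ U b \ V, ∃ r2 ∈ U b \ V, r1 ≠ r2 := by
  refine Down.two hC h.fam (hA.fam b) h.mem (hA.mem b) (hA.ne hb) fun r hr => ?_
  by_cases hV : r ∈ V
  · exact mem_union_left _ hV
  · refine mem_union_right _ ((hA.off b r (h.ni hV) (h.nl hV)).2 ?_)
    rw [← h.zero hV]
    exact hr.symm

theorem disj (hC : Cen C F) (h : Ctr C F c z V i l) (hA : ArmD C F c z i l A U) {b : Fin 4}
    (hb : b ≠ c l) {r : ι} (hr : r ∈ U b) : r ∉ V := by
  intro hV
  obtain ⟨j, hj, -⟩ := two hC h hA hb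
  rw [mem_sdiff] at hj
  obtain ⟨ri, rl, -⟩ := hA.off' hr
  obtain ⟨ji, jl, jz⟩ := hA.off' hj.1
  have rj : r ≠ j := fun e => hj.2 (e ▸ hV)
  refine l1 ((cSec C F hC z).2.2 i l r j h.ne ri.symm ji.symm rl.symm jl.symm rj)
    (x1 := c i) (x2 := c l) (x3 := c r) (x4 := c j) (y2 := b) (y3 := A b r) (y4 := A b j)
    ⟨c, h.mem, V, h.fam, rfl, rfl, rfl, rfl, by simpa using h.hi, by simpa using h.hl,
      by simpa using hV, by simpa using hj.2, fun s h1 h2 _ _ => h.off s h1 h2⟩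
    ⟨A b, hA.mem b, U b, hA.fam b, hA.ai b, hA.al b, rfl, rfl, by simpa using hA.ni b,
      by simpa using hA.nl b, by simpa using hr, by simpa using hj.1,
      fun s h1 h2 _ _ => hA.off b s h1 h2⟩ hb ?_
  rwa [h.zero hj.2]

theorem dat (h : Ctr C F c z V i l) (hA : ArmD C F c z i l A U) (hB : ArmD C F c z l i B W)
    {r r' : ι} (hr : r ∉ V) (hr' : r' ∉ V) :
    csec4 C F z i r l r' (c i) (z r) (c l) (z r') true false true false ∧
    (∀ b, csec4 C F z i r l r' (c i) (A b r) b (A b r') false (nz (A b r) (z r)) false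
      (nz (A b r') (z r'))) ∧
    ∀ b, csec4 C F z i r l r' b (B b r) (c l) (B b r') false (nz (B b r) (z r)) false
      (nz (B b r') (z r')) :=
  ⟨⟨c, h.mem, V, h.fam, rfl, h.zero hr, rfl, h.zero hr', by simpa using h.hi, by simpa using hr,
      by simpa using h.hl, by simpa using hr', fun s h1 _ h2 _ => h.off s h1 h2⟩,
    fun b => ⟨A b, hA.mem b, U b, hA.fam b, hA.ai b, rfl, hA.al b, rfl, by simpa using hA.ni b,
      (hA.off b r (h.ni hr) (h.nl hr)).trans Down.nz_iff.symm, by simpa using hA.nl b,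
      (hA.off b r' (h.ni hr') (h.nl hr')).trans Down.nz_iff.symm,
      fun s h1 _ h2 _ => hA.off b s h1 h2⟩,
    fun b => ⟨B b, hB.mem b, W b, hB.fam b, hB.al b, rfl, hB.ai b, rfl, by simpa using hB.nl b,
      (hB.off b r (h.nl hr) (h.ni hr)).trans Down.nz_iff.symm, by simpa using hB.ni b,
      (hB.off b r' (h.nl hr') (h.ni hr')).trans Down.nz_iff.symm,
      fun s h1 _ h2 _ => hB.off b s h2 h1⟩⟩

theorem d3 (hC : Cen C F) (h : Ctr C F c z V i l) (hA : ArmD C F c z i l A U)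
    (hB : ArmD C F c z l i B W) {r : ι} (hr : r ∉ V) :
    ∃ Q, D3 Q (c i) (z r) (c l) (fun b => A b r) fun a => B a r := by
  obtain ⟨b, hb⟩ := exists_ne (c l)
  obtain ⟨r', hr', n⟩ : ∃ r', r' ∉ V ∧ r ≠ r' := by
    obtain ⟨r1, h1, r2, h2, n⟩ := two hC h hA hb
    by_cases e : r = r1
    · exact ⟨r2, (mem_sdiff.1 h2).2, e ▸ n⟩
    · exact ⟨r1, (mem_sdiff.1 h1).2, e⟩
  obtain ⟨w0, wA, wB⟩ := dat h hA hB hr hr'
  exact ⟨T23.S123 (csec4 C F z i r l r') (z r'),
    T23.s123 ((cSec C F hC z).2.2 i r l r' (h.ni hr).symm h.ne (h.ni hr').symm (h.nl hr) n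
      (h.nl hr').symm) _, ⟨z r', by rwa [nz_self]⟩, fun b => ⟨_, wA b⟩, fun a => ⟨_, wB a⟩⟩

/-- All arms of the first kind, and no arm of the second kind, deviate at `r`. -/
def Pure (c z : ι → Fin 4) (V : Finset ι) (i l : ι) (A B : Fin 4 → ι → Fin 4) (r : ι) : Prop :=
  r ∉ V ∧ (∀ b, b ≠ c l → A b r ≠ z r) ∧ ∀ a, a ≠ c i → B a r = z r

theorem pure_not (hC : Cen C F) (h : Ctr C F c z V i l) (hA : ArmD C F c z i l A U)
    (hB : ArmD C F c z l i B W) {r r' : ι} (p : Pure c z V i l A B r)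
    (p' : Pure c z V l i B A r') : False := by
  by_cases n : r = r'
  · subst n
    obtain ⟨b, hb⟩ := exists_ne (c l)
    exact p.2.1 b hb (p'.2.2 b hb)
  obtain ⟨w0, wA, wB⟩ := dat h hA hB p.1 p'.1
  refine pab ((cSec C F hC z).2.2 i r l r' (h.ni p.1).symm h.ne (h.ni p'.1).symm (h.nl p.1) n
    (h.nl p'.1).symm) (φ := fun b => A b r) (ψ := fun a => B a r') w0
    (fun b hb => ⟨p.2.1 b hb, ?_⟩) fun a ha => ⟨p'.2.1 a ha, ?_⟩
  · simpa only [nz_of_ne (p.2.1 b hb), p'.2.2 b hb, nz_self] using wA b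
  · simpa only [nz_of_ne (p'.2.1 a ha), p.2.2 a ha, nz_self] using wB a

theorem mat (hC : Cen C F) (h : Ctr C F c z V i l) (hA : ArmD C F c z i l A U)
    (hB : ArmD C F c z l i B W) {r : ι} (hr : r ∉ V) {b : Fin 4} (hb : b ≠ c l)
    (e : A b r ≠ z r) : (∃ a, a ≠ c i ∧ B a r = A b r) ∨ Pure c z V i l A B r := by
  obtain ⟨Q, hQ⟩ := d3 hC h hA hB hr
  by_cases h0 : ∀ a, a ≠ c i → B a r = z r
  · exact Or.inr ⟨hr, fun b' hb' => hQ.all hb hb' e h0, h0⟩
  · push Not at h0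
    obtain ⟨a, ha, e'⟩ := h0
    exact Or.inl (hQ.mat hb e ha e')

end Pool.Agent.MP_92191b_al.X4

end

section

/-! The arithmetic of the arms of a cross over four letters. -/

namespace Pool.Agent.MP_92191b_al.X4

/-- The numerical data of a cross.  `S` is the set of distances of the code. -/
structure Num (S : ℕ → Prop) (t N τ : ℕ) (al be μ : Fin 3 → ℕ) (p q m : Fin 3 → Fin 3 → ℕ) :
    Prop where
  sa : ∀ b, S (t + 1 + al b)
  sb : ∀ a, S (t + 1 + be a)
  ga : ∀ b, ¬S (t + 2 + al b)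
  gb : ∀ a, ¬S (t + 2 + be a)
  gv : ∀ d, S d → t + 2 < d
  gu : ∀ b d, S d → al b < d
  sp : ∀ a a', a ≠ a' → ∀ d, d + p a a' = 1 + be a + be a' → S d
  gp : ∀ a a' d, S d → d + 2 * p a a' < be a + be a' ∨ be a + be a' < d + p a a'
  sq : ∀ b a d, d + q b a + m b a = 2 + al b + be a → S d
  gq : ∀ b a d, S d → d + 2 * q b a < al b + be a ∨ al b + be a < d + q b a
  r1 : ∀ a, be a = m 0 a + m 1 a + m 2 a
  r2 : ∀ b, al b = N + m b 0 + m b 1 + m b 2
  r3 : ∀ b a, m b a ≤ q b a ∧ q b a ≤ be a ∧ q b a ≤ al b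
  r6 : ∀ a, 2 ≤ be a ∧ 2 ≤ al a
  r7 : ∀ a, q 0 a + q 1 a + q 2 a = p a 0 + p a 1 + p a 2
  r8 : ∀ a a', p a a' = p a' a ∧ p a a = be a ∧ p a a' ≤ be a
  r9 : μ 0 + μ 1 + μ 2 + τ = be 0 ∧ ∀ b, μ b + τ ≤ q b 0 ∧ μ b ≤ m b 0

variable {S : ℕ → Prop} {t N τ : ℕ} {al be μ : Fin 3 → ℕ} {p q m : Fin 3 → Fin 3 → ℕ}

theorem Num.m1 (h : Num S t N τ al be μ p q m) (b a : Fin 3) : m b a ≤ 1 := by
  have h3 := h.r3 b a
  have := h.gq b a _ (h.sq b a (2 + al b + be a - q b a - m b a) (by omega))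
  omega

theorem Num.ne (_h : Num S t N τ al be μ p q m) {x y : ℕ} (hx : S x) (hy : ¬S y) : x ≠ y :=
  fun e => hy (e ▸ hx)

theorem Num.beq (h : Num S t N τ al be μ p q m) :
    (∀ a, be a = 2) ∨ ∀ a, be a = 3 := by
  have k : ∀ a, 2 ≤ be a ∧ be a ≤ 3 := fun a => by
    have := h.r1 a
    have := h.m1 0 a
    have := h.m1 1 a
    have := h.m1 2 a
    have := h.r6 a
    omega
  have e : ∀ a a', be a ≠ be a' + 1 := fun a a' e => h.ne (h.sb a) (h.gb a') (by omega)
  have k0 := k 0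
  by_cases h0 : be 0 = 2
  · exact Or.inl fun a => by
      have := k a
      have := e a 0
      omega
  · exact Or.inr fun a => by
      have := k a
      have := e 0 a
      omega

theorem Num.sp' (h : Num S t N τ al be μ p q m) {a a' : Fin 3} (n : a ≠ a') :
    S (1 + be a + be a' - p a a') := h.sp a a' n _ (by have := h.r8 a a'; omega)

theorem Num.sq' (h : Num S t N τ al be μ p q m) (b a : Fin 3) :
    S (2 + al b + be a - q b a - m b a) := h.sq b a _ (by have := h.r3 b a; omega)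

theorem Num.two (h : Num S t N τ al be μ p q m) (hb : ∀ a, be a = 2) :
    t = 1 ∧ τ = 0 ∧ ∀ a a', a ≠ a' → p a a' = 1 := by
  have s0 := h.sb 0
  have g0 := h.gb 0
  rw [hb] at s0 g0
  have ht : t ≤ 2 := by
    have := h.gv _ (h.sp' (a := 0) (a' := 1) (by decide))
    rw [hb, hb] at this
    omega
  have ha : ∀ b, al b ≠ 3 ∧ al b < t + 3 ∧ 2 ≤ al b := fun b =>
    ⟨fun e => h.ne (h.sa b) g0 (by omega), by have := h.gu b _ s0; omega, (h.r6 b).2⟩
  have hs : al 0 + al 1 + al 2 = 3 * N + 6 := by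
    have := h.r1 0
    have := h.r1 1
    have := h.r1 2
    have := h.r2 0
    have := h.r2 1
    have := h.r2 2
    have := hb 0
    have := hb 1
    have := hb 2
    omega
  have r7 := h.r7
  have r8 := h.r8
  have r1 := h.r1
  simp only [hb] at r8 r1
  interval_cases t
  · exfalso
    have hq : ∀ b a, q b a = 2 * m b a := fun b a => by
      have := ha b
      have := h.gq b a _ s0
      have := h.ne (h.sq' b a) g0
      have := h.r3 b a
      have := h.m1 b a
      have := hb a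
      omega
    have hp : ∀ a a', p a a' ≠ 1 := fun a a' => by
      have := h.gp a a' _ s0
      have := hb a
      have := hb a'
      omega
    simp only [hq] at r7
    have := r7 0
    have := r7 1
    have := r7 2
    have := r1 0
    have := r1 1
    have := r1 2
    have := r8 0 1
    have := r8 0 2
    have := r8 1 2
    have := r8 1 1
    have := r8 2 2
    have := hp 0 1
    omega
  · refine ⟨rfl, ?_, fun a a' n => ?_⟩
    · have hq : ∀ b, q b 0 + m b 0 = 2 := fun b => by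
        have := ha b
        have := h.gq b 0 _ s0
        have := h.ne (h.sq' b 0) g0
        have := h.gv _ (h.sq' b 0)
        have := h.r3 b 0
        have := h.m1 b 0
        have := hb 0
        omega
      have hp : p 0 1 = 1 := by
        have := h.gp 0 1 _ s0
        have := h.gv _ (h.sp' (a := 0) (a' := 1) (by decide))
        have := hb 0
        have := hb 1
        have := r8 0 1
        omega
      have := h.r9.1
      have := h.r9.2 0
      have := h.r9.2 1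
      have := h.r9.2 2
      have := hq 0
      have := hq 1
      have := hq 2
      have := r1 0
      have := hb 0
      have := h.m1 0 0
      have := h.m1 1 0
      have := h.m1 2 0
      omega
    · have := h.gp a a' _ s0
      have := h.gv _ (h.sp' n)
      have := hb a
      have := hb a'
      have := r8 a a'
      omega
  · exfalso
    have hp : ∀ a, (0 : Fin 3) ≠ a → p 0 a = 0 := fun a n => by
      have := h.gv _ (h.sp' n)
      have := hb a
      have := hb 0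
      omega
    have hq : ∀ b, q b 0 ≠ 1 ∨ m b 0 ≠ 1 := fun b => by
      have := ha b
      have := h.gq b 0 _ s0
      have := h.gv _ (h.sq' b 0)
      have := hb 0
      omega
    have := hp 1 (by decide)
    have := hp 2 (by decide)
    have := r7 0
    have := r8 0 0
    have := r1 0
    have := hq 0
    have := hq 1
    have := hq 2
    have := h.r3 0 0
    have := h.r3 1 0
    have := h.r3 2 0
    have := h.m1 0 0
    have := h.m1 1 0
    have := h.m1 2 0
    omega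

theorem Num.three (h : Num S t N τ al be μ p q m) (hb : ∀ a, be a = 3) :
    t = 0 ∨ (t = 1 ∧ S 4 ∧ ∀ b, al b = 3 ∧ q b 0 = 3) := by
  have s0 := h.sb 0
  have g0 := h.gb 0
  rw [hb] at s0 g0
  have hm : ∀ b a, m b a = 1 := fun b a => by
    have := h.r1 a
    have := h.m1 0 a
    have := h.m1 1 a
    have := h.m1 2 a
    have := hb a
    fin_cases b <;> simp only [Fin.zero_eta, Fin.mk_one, Fin.reduceFinMk] <;> omega
  have ha : ∀ b, al b = N + 3 := fun b => by
    have := h.r2 b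
    simp only [hm] at this
    omega
  have s1 := h.sa 0
  have g1 := h.ga 0
  have u1 := h.gu 0
  rw [ha] at s1 g1 u1
  have n1 : N ≠ 1 := fun e => h.ne s1 g0 (by omega)
  have n2 := u1 _ s0
  have sp : ∀ a, (0 : Fin 3) ≠ a → S (7 - p 0 a) := fun a n => by
    simpa only [hb] using h.sp' n
  have gp : ∀ a d, S d → d + 2 * p 0 a < 6 ∨ 6 < d + p 0 a := fun a d hd => by
    simpa only [hb] using h.gp 0 a d hd
  have r3 : ∀ b, 1 ≤ q b 0 ∧ q b 0 ≤ 3 := fun b => by
    have := h.r3 b 0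
    have := hm b 0
    have := hb 0
    omega
  have sq : ∀ b, S (N + 7 - q b 0) := fun b => by
    have := r3 b
    exact h.sq b 0 _ (by rw [hm, ha, hb]; omega)
  have gq : ∀ b d, S d → d + 2 * q b 0 < N + 6 ∨ N + 6 < d + q b 0 := fun b d hd => by
    have := h.gq b 0 d hd
    rw [ha, hb] at this
    omega
  have r7 : q 0 0 + q 1 0 + q 2 0 = 3 + p 0 1 + p 0 2 := by
    have := h.r7 0
    have := h.r8 0 0
    have := hb 0
    omega
  have p1 := sp 1 (by decide)
  have p2 := sp 2 (by decide)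
  have l1 : p 0 1 ≤ 3 := (h.r8 0 1).2.2.trans (hb 0).le
  have l2 : p 0 2 ≤ 3 := (h.r8 0 2).2.2.trans (hb 0).le
  have a0 := r3 0
  have a1 := r3 1
  have a2 := r3 2
  have b0 := h.gv _ p1
  have b1 := h.gv _ p2
  have b2 := h.ne p1 g0
  have b3 := h.ne p2 g0
  have b4 := u1 _ p1
  have b5 := u1 _ p2
  have c0 := h.gv _ (sq 0)
  have c1 := h.gv _ (sq 1)
  have c2 := h.gv _ (sq 2)
  have d0 := h.ne (sq 0) g0
  have d1 := h.ne (sq 1) g0
  have d2 := h.ne (sq 2) g0
  have e0 := gq 0 _ s0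
  have e1 := gq 1 _ s0
  have e2 := gq 2 _ s0
  have f0 := gq 0 _ p1
  have f1 := gq 1 _ p1
  have f2 := gq 2 _ p1
  have f3 := gq 0 _ p2
  have i0 := gp 1 _ (sq 0)
  have i1 := gp 1 _ (sq 1)
  have i2 := gp 1 _ (sq 2)
  have j0 := gp 2 _ (sq 0)
  have j3 := gp 1 _ p2
  have j4 := gp 2 _ p1
  have k1 := gq 1 _ (sq 0)
  have k2 := gq 2 _ (sq 0)
  have k3 := gq 0 _ (sq 1)
  have k4 := gq 0 _ (sq 2)
  have ht : t ≤ 4 := by omega
  interval_cases t
  · exact Or.inl rfl
  · right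
    have hN : N = 0 := by omega
    subst hN
    have hq0 : q 0 0 = 3 := by omega
    have hq : q 0 0 = 3 ∧ q 1 0 = 3 ∧ q 2 0 = 3 := ⟨hq0, by omega, by omega⟩
    refine ⟨rfl, by simpa only [hq.1] using sq 0, fun b => ⟨ha b, ?_⟩⟩
    fin_cases b
    · exact hq.1
    · exact hq.2.1
    · exact hq.2.2
  · exfalso
    have hN : N = 0 ∨ N = 2 := by omega
    rcases hN with rfl | rfl <;> omega
  · exfalso
    have hN : N = 0 ∨ N = 2 ∨ N = 3 := by omega
    rcases hN with rfl | rfl | rfl <;> omega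
  · exfalso
    omega

end Pool.Agent.MP_92191b_al.X4

end

section

/-! The two possible shapes of a cross over four letters. -/

set_option linter.unusedSectionVars false

namespace Pool.Agent.MP_92191b_al.X4

open Finset Function Equiv K6 X

variable {ι : Type} [Fintype ι] [DecidableEq ι]
variable {C : Finset (ι → Fin 4)} {F : Finset ι → Prop} {c z : ι → Fin 4} {V : Finset ι}
  {i l : ι} {A B : Fin 4 → ι → Fin 4} {U W : Fin 4 → Finset ι}

/-- Distances between different words. -/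
def SD (C : Finset (ι → Fin 4)) (d : ℕ) : Prop :=
  ∃ x ∈ C, ∃ y ∈ C, x ≠ y ∧ hammingDist x y = d

theorem card_symm (P Q : Finset ι) : (symmDiff P Q).card + 2 * (P ∩ Q).card = P.card + Q.card := by
  have h1 := card_sdiff_add_card_inter P Q
  have h2 := card_sdiff_add_card_inter Q P
  rw [inter_comm] at h2
  rw [symmDiff_def, sup_eq_union, card_union_of_disjoint disjoint_sdiff_sdiff]
  omega

theorem gap (hC : Cen C F) {P Q : Finset ι} (hP : F P) (hQ : F Q) {d : ℕ} (h : SD C d) :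
    d + 2 * (P ∩ Q).card < P.card + Q.card ∨ P.card + Q.card < d + (P ∩ Q).card := by
  obtain ⟨x, hx, y, hy, n, rfl⟩ := h
  have h1 := card_symm P Q
  have h2 := card_union_add_card_inter P Q
  by_contra h3
  exact n (hC.sep x hx y hy P Q hP hQ (by omega) (by omega))

theorem gap0 (hC : Cen C F) {P : Finset ι} (hP : F P) {d : ℕ} (h : SD C d) : P.card < d := by
  have := gap hC hP hP h
  rw [inter_self] at this
  omega

theorem gap1 (hC : Cen C F) {P Q : Finset ι} (hP : F P) (hQ : F Q) (hd : Disjoint P Q) :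
    ¬SD C (P.card + Q.card) := fun h => by
  have := gap hC hP hQ h
  rw [disjoint_iff_inter_eq_empty.1 hd, card_empty] at this
  omega

theorem card_eq_sum {Y X : Finset ι} {f : ι → ℕ} (h1 : ∀ r ∈ Y, r ∈ X ∧ f r = 1)
    (h2 : ∀ r ∈ X, r ∉ Y → f r = 0) : Y.card = ∑ r ∈ X, f r := by
  rw [← sum_subset (fun r hr => (h1 r hr).1) h2, card_eq_sum_ones]
  exact sum_congr rfl fun r hr => (h1 r hr).2.symm

theorem dist_split {x y : ι → Fin 4} {V P : Finset ι} (h1 : ∀ r ∈ P, r ∈ V ∧ x r ≠ y r)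
    (h2 : ∀ r ∈ V, r ∉ P → x r = y r) :
    hammingDist x y = P.card + ∑ r ∈ Vᶜ, nq (x r) (y r) := by
  rw [CSec.ham, ← sum_add_sum_compl V, card_eq_sum (X := V) (f := fun r => nq (x r) (y r))
    (fun r hr => ⟨(h1 r hr).1, nq_of_ne (h1 r hr).2⟩) fun r hr hr' => by rw [h2 r hr hr', nq_self]]

section
variable (hC : Cen C F) (h : Ctr C F c z V i l) (hA : ArmD C F c z i l A U)
include hC h hA

theorem armV {b : Fin 4} (hb : b ≠ c l) {r : ι} (hr : r ∈ V) (ri : r ≠ i) (rl : r ≠ l) :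
    A b r = z r := by_contra fun e => disj hC h hA hb ((hA.off b r ri rl).2 e) hr

theorem arm1 {b : Fin 4} (hb : b ≠ c l) {r : ι} (hr : r ∈ U b) :
    r ∈ Vᶜ ∧ nq (A b r) (z r) = 1 :=
  ⟨mem_compl.2 (disj hC h hA hb hr), nq_of_ne (hA.off' hr).2.2⟩

theorem arm0 {b : Fin 4} {r : ι} (hr : r ∈ Vᶜ) (hr' : r ∉ U b) : nq (A b r) (z r) = 0 := by
  have hV := mem_compl.1 hr
  rw [by_contra fun e => hr' ((hA.off b r (h.ni hV) (h.nl hV)).2 e), nq_self]

theorem cardU {b : Fin 4} (hb : b ≠ c l) : (U b).card = ∑ r ∈ Vᶜ, nq (A b r) (z r) :=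
  card_eq_sum (fun _ hr => arm1 hC h hA hb hr) fun _ hr hr' => arm0 hC h hA hr hr'

theorem distC {b : Fin 4} (hb : b ≠ c l) : hammingDist c (A b) + 1 = V.card + (U b).card := by
  rw [dist_split (V := V) (P := V.erase i), cardU hC h hA hb, card_erase_of_mem h.hi]
  · have := card_pos.2 ⟨i, h.hi⟩
    have e : ∑ r ∈ Vᶜ, nq (c r) (A b r) = ∑ r ∈ Vᶜ, nq (A b r) (z r) :=
      sum_congr rfl fun r hr => by rw [h.zero (mem_compl.1 hr), nq_comm]
    omega
  · intro r hr
    rw [mem_erase] at hr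
    refine ⟨hr.2, ?_⟩
    by_cases rl : r = l
    · rw [rl, hA.al]
      exact hb.symm
    · rw [armV hC h hA hb hr.2 hr.1 rl]
      exact (h.off r hr.1 rl).1 hr.2
  · intro r hr hr'
    rw [by_contra fun e => hr' (mem_erase.2 ⟨e, hr⟩), hA.ai]

theorem distA {b b' : Fin 4} (hb : b ≠ c l) (hb' : b' ≠ c l) (n : b ≠ b') :
    hammingDist (A b) (A b') = 1 + ∑ r ∈ Vᶜ, nq (A b r) (A b' r) := by
  rw [dist_split (V := V) (P := {l}), card_singleton]
  · intro r hr
    rw [mem_singleton.1 hr, hA.al, hA.al]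
    exact ⟨h.hl, n⟩
  · intro r hr hr'
    by_cases ri : r = i
    · rw [ri, hA.ai, hA.ai]
    · rw [mem_singleton] at hr'
      rw [armV hC h hA hb hr ri hr', armV hC h hA hb' hr ri hr']

theorem distB (hB : ArmD C F c z l i B W) {b a : Fin 4} (hb : b ≠ c l) (ha : a ≠ c i) :
    hammingDist (A b) (B a) = 2 + ∑ r ∈ Vᶜ, nq (A b r) (B a r) := by
  rw [dist_split (V := V) (P := {i, l}), card_pair h.ne]
  · intro r hr
    rcases mem_insert.1 hr with e | e
    · rw [e, hA.ai, hB.al]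
      exact ⟨h.hi, ha.symm⟩
    · rw [mem_singleton.1 e, hA.al, hB.ai]
      exact ⟨h.hl, hb⟩
  · intro r hr hr'
    rw [mem_insert, mem_singleton, not_or] at hr'
    rw [armV hC h hA hb hr hr'.1 hr'.2, armV hC h.symm hB ha hr hr'.2 hr'.1]

end

theorem card_int {P Q X : Finset ι} {f g : ι → ℕ} (p1 : ∀ r ∈ P, r ∈ X ∧ f r = 1)
    (p0 : ∀ r ∈ X, r ∉ P → f r = 0) (q1 : ∀ r ∈ Q, r ∈ X ∧ g r = 1)
    (q0 : ∀ r ∈ X, r ∉ Q → g r = 0) : (P ∩ Q).card = ∑ r ∈ X, f r * g r := by
  refine card_eq_sum (fun r hr => ?_) fun r hr hr' => ?_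
  · rw [mem_inter] at hr
    rw [(p1 r hr.1).2, (q1 r hr.2).2]
    exact ⟨(p1 r hr.1).1, rfl⟩
  · by_cases hp : r ∈ P
    · rw [q0 r hr fun hq => hr' (mem_inter.2 ⟨hp, hq⟩), mul_zero]
    · rw [p0 r hr hp, zero_mul]

theorem num (hC : Cen C F) (h : Ctr C F c z V i l) (hA : ArmD C F c z i l A U)
    (hB : ArmD C F c z l i B W) (hP : ∀ r, ¬Pure c z V l i B A r) :
    ∃ N μ m, Num (SD C) (V.card - 2) N
      (W ((c i).succAbove 0) ∩ W ((c i).succAbove 1) ∩ W ((c i).succAbove 2)).card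
      (fun b => (U ((c l).succAbove b)).card) (fun a => (W ((c i).succAbove a)).card) μ
      (fun a a' => (W ((c i).succAbove a) ∩ W ((c i).succAbove a')).card)
      (fun b a => (U ((c l).succAbove b) ∩ W ((c i).succAbove a)).card) m := by
  have nA : ∀ b, (c l).succAbove b ≠ c l := Fin.succAbove_ne _
  have nB : ∀ a, (c i).succAbove a ≠ c i := Fin.succAbove_ne _
  set x : ι → Fin 3 → Fin 4 := fun r b => A ((c l).succAbove b) r with hx
  set y : ι → Fin 3 → Fin 4 := fun r a => B ((c i).succAbove a) r with hy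
  have hG : ∀ r ∈ Vᶜ, PW (z r) (x r) (y r) := by
    intro r hr
    have hV := mem_compl.1 hr
    obtain ⟨Q, hQ⟩ := d3 hC h hA hB hV
    refine pw ⟨fun b b' n e => hQ.inj (fun q => n (Fin.succAbove_right_injective q)) e,
      fun a a' n e => hQ.injB (fun q => n (Fin.succAbove_right_injective q)) e,
      fun a e => ?_, fun b e => ?_⟩
    · rcases mat hC h.symm hB hA hV (nB a) e with ⟨b, hb, e'⟩ | p
      · obtain ⟨b', rfl⟩ := Fin.exists_succAbove_eq hb
        exact ⟨b', e'⟩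
      · exact (hP r p).elim
    · rcases mat hC h hA hB hV (nA b) e with ⟨a, ha, e'⟩ | p
      · obtain ⟨a', rfl⟩ := Fin.exists_succAbove_eq ha
        exact Or.inl ⟨a', e'⟩
      · exact Or.inr ⟨fun b' => p.2.1 _ (nA b'), fun a => p.2.2 _ (nB a)⟩
  have u1 : ∀ b, ∀ r ∈ U ((c l).succAbove b), r ∈ Vᶜ ∧ nq (x r b) (z r) = 1 :=
    fun b r hr => arm1 hC h hA (nA b) hr
  have u0 : ∀ b, ∀ r ∈ Vᶜ, r ∉ U ((c l).succAbove b) → nq (x r b) (z r) = 0 :=
    fun b r hr hr' => arm0 hC h hA hr hr'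
  have w1 : ∀ a, ∀ r ∈ W ((c i).succAbove a), r ∈ Vᶜ ∧ nq (y r a) (z r) = 1 :=
    fun a r hr => arm1 hC h.symm hB (nB a) hr
  have w0 : ∀ a, ∀ r ∈ Vᶜ, r ∉ W ((c i).succAbove a) → nq (y r a) (z r) = 0 :=
    fun a r hr hr' => arm0 hC h.symm hB hr hr'
  have cU := fun b => card_eq_sum (u1 b) (u0 b)
  have cW := fun a => card_eq_sum (w1 a) (w0 a)
  have cP := fun a a' => card_int (w1 a) (w0 a) (w1 a') (w0 a')
  have cQ := fun b a => card_int (u1 b) (u0 b) (w1 a) (w0 a)
  have cT : (W ((c i).succAbove 0) ∩ W ((c i).succAbove 1) ∩ W ((c i).succAbove 2)).card =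
      ∑ r ∈ Vᶜ, tt (z r) (y r) := by
    refine card_int (f := fun r => nq (y r 0) (z r) * nq (y r 1) (z r)) (fun r hr => ?_)
      (fun r hr hr' => ?_) (w1 2) (w0 2)
    · rw [mem_inter] at hr
      rw [(w1 0 r hr.1).2, (w1 1 r hr.2).2]
      exact ⟨(w1 0 r hr.1).1, rfl⟩
    · by_cases hp : r ∈ W ((c i).succAbove 0)
      · rw [w0 1 r hr fun hq => hr' (mem_inter.2 ⟨hp, hq⟩), mul_zero]
      · rw [w0 0 r hr hp, zero_mul]
  have hV : 2 ≤ V.card := one_lt_card.2 ⟨i, h.hi, l, h.hl, h.ne⟩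
  have dU : ∀ b, Disjoint V (U ((c l).succAbove b)) := fun b =>
    disjoint_right.2 fun r hr => disj hC h hA (nA b) hr
  have dW : ∀ a, Disjoint V (W ((c i).succAbove a)) := fun a =>
    disjoint_right.2 fun r hr => disj hC h.symm hB (nB a) hr
  have two' : ∀ {P : Finset ι}, (∃ r1 ∈ P \ V, ∃ r2 ∈ P \ V, r1 ≠ r2) → 2 ≤ P.card :=
    fun ⟨r1, h1, r2, h2, n⟩ => one_lt_card.2 ⟨r1, (mem_sdiff.1 h1).1, r2, (mem_sdiff.1 h2).1, n⟩
  refine ⟨∑ r ∈ Vᶜ, nn (z r) (x r) (y r),
    fun b => ∑ r ∈ Vᶜ, ee (z r) (x r b) (y r 0) * (1 - tt (z r) (y r)),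
    fun b a => ∑ r ∈ Vᶜ, ee (z r) (x r b) (y r a), fun b => ?_, fun a => ?_, fun b => ?_,
    fun a => ?_, fun d hd => ?_, fun b d hd => gap0 hC (hA.fam _) hd, fun a a' n d hd => ?_,
    fun a a' d hd => gap hC (hB.fam _) (hB.fam _) hd, fun b a d hd => ?_,
    fun b a d hd => gap hC (hA.fam _) (hB.fam _) hd, fun a => ?_, fun b => ?_,
    fun b a => ⟨?_, card_le_card inter_subset_right, card_le_card inter_subset_left⟩,
    fun a => ⟨two' (two hC h.symm hB (nB a)), two' (two hC h hA (nA a))⟩, fun a => ?_,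
    fun a a' => ⟨by rw [inter_comm], by rw [inter_self], card_le_card inter_subset_left⟩,
    ?_, fun b => ⟨?_, ?_⟩⟩
  · have := distC hC h hA (nA b)
    exact ⟨c, h.mem, _, hA.mem _, hA.ne (nA b), by omega⟩
  · have := distC hC h.symm hB (nB a)
    exact ⟨c, h.mem, _, hB.mem _, hB.ne (nB a), by omega⟩
  · rw [Nat.sub_add_cancel hV]
    exact gap1 hC h.fam (hA.fam _) (dU b)
  · rw [Nat.sub_add_cancel hV]
    exact gap1 hC h.fam (hB.fam _) (dW a)
  · rw [Nat.sub_add_cancel hV]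
    exact gap0 hC h.fam hd
  · have n' : (c i).succAbove a ≠ (c i).succAbove a' := fun q => n (Fin.succAbove_right_injective q)
    have e := distA hC h.symm hB (nB a) (nB a') n'
    have e' : ∑ r ∈ Vᶜ, nq (y r a) (y r a') + ∑ r ∈ Vᶜ, nq (y r a) (z r) * nq (y r a') (z r) =
        ∑ r ∈ Vᶜ, nq (y r a) (z r) + ∑ r ∈ Vᶜ, nq (y r a') (z r) := by
      rw [← sum_add_distrib, ← sum_add_distrib]
      exact sum_congr rfl fun r hr => (hG r hr).2.2.2.2.2 a a' n
    refine ⟨_, hB.mem _, _, hB.mem _, fun q => n' ?_, e.trans ?_⟩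
    · exact (hB.al _).symm.trans ((congrFun q i).trans (hB.al _))
    · simp only [cP, cW] at hd
      change 1 + ∑ r ∈ Vᶜ, nq (y r a) (y r a') = d
      omega
  · have e := distB hC h hA hB (nA b) (nB a)
    have e' : ∑ r ∈ Vᶜ, nq (x r b) (y r a) + ∑ r ∈ Vᶜ, nq (x r b) (z r) * nq (y r a) (z r) +
        ∑ r ∈ Vᶜ, ee (z r) (x r b) (y r a) =
        ∑ r ∈ Vᶜ, nq (x r b) (z r) + ∑ r ∈ Vᶜ, nq (y r a) (z r) := by
      rw [← sum_add_distrib, ← sum_add_distrib, ← sum_add_distrib]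
      exact sum_congr rfl fun r _ => (pw2 _ _ _).1
    refine ⟨_, hA.mem _, _, hB.mem _, fun q => nA b ?_, e.trans ?_⟩
    · exact (hA.al _).symm.trans ((congrFun q l).trans (hB.ai _))
    · simp only [cQ, cW, cU] at hd
      change 2 + ∑ r ∈ Vᶜ, nq (x r b) (y r a) = d
      omega
  · simp only [cW, ← sum_add_distrib]
    exact sum_congr rfl fun r hr => (hG r hr).1 a
  · simp only [cU, ← sum_add_distrib]
    exact sum_congr rfl fun r hr => (hG r hr).2.1 b
  · simp only [cQ]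
    exact sum_le_sum fun r _ => (pw2 _ _ _).2.1
  · simp only [cQ, cP, ← sum_add_distrib]
    exact sum_congr rfl fun r hr => (hG r hr).2.2.1 a
  · simp only [cT, cW, ← sum_add_distrib]
    exact sum_congr rfl fun r hr => (hG r hr).2.2.2.1
  · simp only [cT, cQ, ← sum_add_distrib]
    exact sum_le_sum fun r hr => (hG r hr).2.2.2.2.1 b
  · exact sum_le_sum fun r _ => (Nat.mul_le_mul_left _ (Nat.sub_le 1 _)).trans (mul_one _).le

theorem SD.has {d : ℕ} (h : SD C d) : HasD C d := by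
  obtain ⟨x, hx, y, hy, -, e⟩ := h
  exact ⟨x, hx, y, hy, e⟩

theorem tri {P : Fin 3 → Finset ι} (h2 : ∀ a, (P a).card = 2)
    (h1 : ∀ a a', a ≠ a' → (P a ∩ P a').card = 1) (h0 : (P 0 ∩ P 1 ∩ P 2).card = 0) :
    (P 0 ∪ P 1).card = 3 ∧ ∀ r, ∃ a, r ∈ P 0 ∪ P 1 → (P 0 ∪ P 1).erase r = P a := by
  have e1 := card_union_add_card_inter (P 0) (P 1)
  have e2 := card_union_add_card_inter (P 0 ∩ P 2) (P 1 ∩ P 2)
  rw [h2, h2, h1 0 1 (by decide)] at e1
  rw [h1 0 2 (by decide), h1 1 2 (by decide), ← union_inter_distrib_right,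
    ← inter_inter_distrib_right, h0] at e2
  have s2 : P 2 ⊆ P 0 ∪ P 1 := by
    rw [← inter_eq_right]
    exact eq_of_subset_of_card_le inter_subset_right (by rw [h2]; omega)
  have k : ∀ r a, P a ⊆ P 0 ∪ P 1 → r ∉ P a → r ∈ P 0 ∪ P 1 → (P 0 ∪ P 1).erase r = P a :=
    fun r a s n hr => (eq_of_subset_of_card_le (subset_erase.2 ⟨s, n⟩)
      (by rw [card_erase_of_mem hr, h2]; omega)).symm
  refine ⟨by omega, fun r => ?_⟩
  by_cases m0 : r ∈ P 0
  · by_cases m1 : r ∈ P 1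
    · refine ⟨2, k r 2 s2 fun m2 => ?_⟩
      have := card_pos.2 ⟨r, mem_inter.2 ⟨mem_inter.2 ⟨m0, m1⟩, m2⟩⟩
      omega
    · exact ⟨1, k r 1 subset_union_right m1⟩
  · exact ⟨0, k r 0 subset_union_left m0⟩

theorem half (hC : Cen C F) (h : Ctr C F c z V i l) (hA : ArmD C F c z i l A U)
    (hB : ArmD C F c z l i B W) (hP : ∀ r, ¬Pure c z V l i B A r) :
    HasD C 4 ∧ (Alp F V ∨ Bet F V) := by
  obtain ⟨N, μ, m, hN⟩ := num hC h hA hB hP
  have nA : ∀ b, (c l).succAbove b ≠ c l := Fin.succAbove_ne _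
  have nB : ∀ a, (c i).succAbove a ≠ c i := Fin.succAbove_ne _
  have hV : 2 ≤ V.card := one_lt_card.2 ⟨i, h.hi, l, h.hl, h.ne⟩
  have dW : ∀ a, Disjoint V (W ((c i).succAbove a)) := fun a =>
    disjoint_right.2 fun r hr => disj hC h.symm hB (nB a) hr
  have s0 := hN.sb 0
  rcases hN.beq with hb | hb
  · obtain ⟨h1, h0, hp⟩ := hN.two hb
    obtain ⟨k1, k2⟩ := tri (P := fun a => W ((c i).succAbove a)) hb hp h0
    rw [h1, hb] at s0
    refine ⟨s0.has, Or.inl ⟨by omega, _, k1, disjoint_union_right.2 ⟨dW 0, dW 1⟩, fun r hr => ?_⟩⟩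
    obtain ⟨a, ha⟩ := k2 r
    rw [ha hr]
    exact hB.fam _
  rcases hN.three hb with h0 | ⟨h1, s4, hq⟩
  · rw [h0, hb] at s0
    exact ⟨s0.has, Or.inr ⟨by omega, _, hB.fam _, hb 0, dW 0⟩⟩
  exfalso
  have eU : ∀ b, U ((c l).succAbove b) = W ((c i).succAbove 0) := fun b => by
    have e1 := (hq b).1
    have e2 := (hq b).2
    have e3 := hb 0
    rw [← eq_of_subset_of_card_le (s := U ((c l).succAbove b) ∩ W ((c i).succAbove 0))
      inter_subset_left (by omega)]
    exact eq_of_subset_of_card_le inter_subset_right (by omega)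
  have sub : ∀ r, r ∉ V → A (c l) r = z r := by
    intro r hr
    by_contra e
    obtain ⟨Q, hQ⟩ := d3 hC h hA hB hr
    obtain ⟨b, hb1, hb2⟩ := hQ.mid e
    obtain ⟨b', rfl⟩ := Fin.exists_succAbove_eq hb1
    have m0 : r ∈ W ((c i).succAbove 0) := eU b' ▸ (hA.off _ r (h.ni hr) (h.nl hr)).2 hb2
    have all : ∀ b, A b r ≠ z r := fun b => by
      by_cases q : b = c l
      · rwa [q]
      · obtain ⟨b', rfl⟩ := Fin.exists_succAbove_eq q
        exact (hA.off' (eU b' ▸ m0)).2.2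
    have inj : Injective fun b => A b r := fun b b' q => by_contra fun n => all b (hQ.inj n q)
    obtain ⟨b, q⟩ := Finite.injective_iff_surjective.1 inj (z r)
    exact all b q
  have cT : ((V.erase i).erase l).card = 1 := by
    rw [card_erase_of_mem (mem_erase.2 ⟨h.ne.symm, h.hl⟩), card_erase_of_mem h.hi]
    omega
  have ec : c = A (c l) := by
    by_contra n
    have e1 := Down.far hC h.fam h.mem (hA.mem _) n
    have e2 : hammingDist c (A (c l)) ≤ ((V.erase i).erase l).card := Down.dist_le fun r hr => by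
      refine mem_erase.2 ⟨fun q => hr ?_, mem_erase.2 ⟨fun q => hr ?_, by_contra fun q => hr ?_⟩⟩
      · rw [q, hA.al]
      · rw [q, hA.ai]
      · rw [h.zero q, sub r q]
    omega
  have eT : U (c l) = (V.erase i).erase l := by
    ext r
    rw [mem_erase, mem_erase]
    refine ⟨fun hr => ?_, fun hr => ?_⟩
    · obtain ⟨ri, rl, q⟩ := hA.off' hr
      exact ⟨rl, ri, (h.off r ri rl).2 (by rwa [ec])⟩
    · refine (hA.off _ r hr.2.1 hr.1).2 ?_
      rw [← ec]
      exact (h.off r hr.2.1 hr.1).1 hr.2.2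
  refine gap1 hC (hA.fam (c l)) (hB.fam ((c i).succAbove 0)) ?_ ?_
  · rw [eT]
    exact (dW 0).mono_left ((erase_subset _ _).trans (erase_subset _ _))
  · rw [eT, cT, hb 0]
    exact s4

variable (ι) in
theorem hole : StmtHole ι := by
  intro C F hC c z V i l A B U W h hA hB
  by_cases hP : ∀ r, ¬Pure c z V l i B A r
  · exact half hC h hA hB hP
  · push Not at hP
    obtain ⟨r', p'⟩ := hP
    exact half hC h.symm hB hA fun r p => pure_not hC h hA hB p p'

end Pool.Agent.MP_92191b_al.X4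

end

section

/-! A gap in the centred family gives a cross. -/

set_option linter.unusedSectionVars false

namespace Pool.Agent.MP_92191b_al.X4

open Finset Function Equiv K6

variable {ι α : Type} [Fintype ι] [DecidableEq ι] [Fintype α] [DecidableEq α]

open K6.Down in
theorem cross (hS : StmtCSec ι α) (hCP : StmtCP α) : StmtCross ι α := by
  intro hk C F hC T l hV hT0
  have hl : l ∉ T := fun h => hT0 (by rwa [insert_eq_of_mem h] at hV)
  obtain ⟨a0⟩ : Nonempty α := Fintype.card_pos_iff.1 (by omega)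
  obtain ⟨c, hc, -⟩ := hC.ex (fun _ => a0) 1
  choose o ho using exists_ne1 (α := α) (by omega)
  let z : ι → α := fun r => if r ∈ T then o (c r) else c r
  have hz : ∀ r, r ∈ T ↔ c r ≠ z r := by
    intro r
    by_cases h : r ∈ T
    · simp only [z, if_pos h, h, true_iff]
      exact (ho _).symm
    · simp [z, h]
  have hz0 : ∀ r, r ∉ T → c r = z r := fun r hr => by_contra fun h => hr ((hz r).2 h)
  have hdf : df c z = T := by
    ext r
    rw [mem_df, hz]
  obtain ⟨c', hc', hT'⟩ := hC.ex z 1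
  have hmap : (df c' z).map (1 : Perm ι).toEmbedding = df c' z := by
    ext r
    rw [mem_map_equiv]
    rfl
  rw [hmap] at hT'
  have hcc : c ≠ c' := fun h => hT0 (by rwa [← h, hdf] at hT')
  have hll : c' l = c l := by
    by_contra h
    obtain ⟨a, ha, ha'⟩ := exists_ne2 (α := α) (by omega) (c l) (c' l)
    refine hcc ((hS C F hC (update z l a)).1 c hc c' hc' ?_ ?_)
    · have : df c (update z l a) = insert l T := by
        ext r
        rw [mem_df, mem_insert]
        by_cases hr : r = l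
        · subst hr
          simp [ha.symm]
        · rw [update_of_ne hr, ← hz]
          simp [hr]
      rwa [this]
    · have : df c' (update z l a) = df c' z := by
        ext r
        rw [mem_df, mem_df]
        by_cases hr : r = l
        · subst hr
          rw [update_self, ← hz0 r hl]
          simp [ha'.symm, h]
        · rw [update_of_ne hr]
      rwa [this]
  obtain ⟨i, hi, hi'⟩ : ∃ i ∈ T, i ∉ df c' z := by
    by_contra! h
    have h1 := far hC hT' hc hc' hcc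
    have h2 : hammingDist c c' ≤ (df c' z).card := by
      refine dist_le fun r hr => ?_
      by_cases hrT : r ∈ T
      · exact h r hrT
      · rw [mem_df, ← hz0 r hrT]
        exact hr.symm
    omega
  have hil : i ≠ l := fun h => hl (h ▸ hi)
  have hV' : ∀ r, r ≠ l → (r ∈ insert l T ↔ c r ≠ z r) := fun r hr => by
    rw [mem_insert, ← hz]
    simp [hr]
  have hW1 : cpl C F z i l (c i) (c l) true true :=
    ⟨c, hc, insert l T, hV, rfl, rfl, by simp [hi], by simp, fun r _ hr => hV' r hr⟩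
  have hW2 : cpl C F z i l (c' i) (c l) false false := by
    refine ⟨c', hc', df c' z, hT', rfl, hll, by simpa using hi', ?_, fun r _ _ => mem_df⟩
    rw [mem_df, hll, hz0 l hl]
    simp
  have hci : c' i ≠ c i := by
    rw [mem_df, not_not] at hi'
    rw [hi']
    exact ((hz i).1 hi).symm
  have hQ : Q4 (cpl C F z i l) (c i) (c l) := by
    rcases hCP (by omega) _ ((hS C F hC z).2.1 i l hil) with
      ⟨y1, y2, h⟩ | h | ⟨y1, y2, h⟩ | ⟨y1, y2, h⟩ | ⟨τ, h⟩ | ⟨τ, h⟩ | ⟨b0, b1, y0, y1, -, -, h⟩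
    · exact absurd (((h _ _ _ _).1 hW2).1.trans ((h _ _ _ _).1 hW1).1.symm) hci
    · simpa using (h _ _ _ _).1 hW1
    · simpa using (h _ _ _ _).1 hW1
    · have h1 := (h _ _ _ _).1 hW1
      simp only [and_true, Bool.true_eq_false, and_false, or_false] at h1
      rw [h1.1, h1.2]
      exact h
    · simpa using (h _ _ _ _).1 hW1
    · simpa using (h _ _ _ _).1 hW1
    · simpa using (h _ _ _ _).1 hW1
  have hA : ∀ b, cpl C F z i l (c i) b false false := fun b =>
    (hQ _ _ _ _).2 (Or.inr ⟨Or.inl rfl, rfl, rfl⟩)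
  have hB : ∀ b, cpl C F z i l b (c l) false false := fun b =>
    (hQ _ _ _ _).2 (Or.inr ⟨Or.inr rfl, rfl, rfl⟩)
  choose A hAC VA hAF hAi hAl hAi' hAl' hAr using hA
  choose B hBC VB hBF hBi hBl hBi' hBl' hBr using hB
  exact ⟨c, z, i, A, B, VA, VB, ⟨hil, hc, hV, mem_insert_of_mem hi, mem_insert_self _ _,
    fun r _ hr => hV' r hr⟩,
    ⟨hAC, hAF, hAi, hAl, fun b => by simpa using hAi' b, fun b => by simpa using hAl' b, hAr⟩,
    ⟨hBC, hBF, hBl, hBi, fun b => by simpa using hBl' b, fun b => by simpa using hBi' b,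
      fun b r h1 h2 => hBr b r h2 h1⟩⟩

end Pool.Agent.MP_92191b_al.X4

end
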