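import Pool.Agent.MP_92191b_al.K6.Basic
import Pool.Agent.MP_92191b_al.K5.M8five
import Pool.Agent.MP_92191b_al.Main

section

/-! The hybrid plane is monochrome. -/

set_option linter.unusedSectionVars false

namespace Pool.Agent.MP_92191b_al.K6

open Finset Function Equiv

variable {ι α : Type} [Fintype ι] [DecidableEq ι] [Fintype α] [DecidableEq α]

namespace M8

/-- The colour determined by `g`: its majority value, or the value it misses. -/
def Det (g : α → α) (y w : α) : Prop :=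
  (∃ b0 b1, ∀ b, b ≠ y → b ≠ b0 → b ≠ b1 → g b = w) ∨
    ∃ τ : Perm α, τ y = w ∧ ∀ b, b ≠ y → g b = τ b

theorem det_aux (hk : 6 ≤ Fintype.card α) {g : α → α} {y w b0 b1 : α} {τ : Perm α}
    (h : ∀ b, b ≠ y → b ≠ b0 → b ≠ b1 → g b = w) (h' : ∀ b, b ≠ y → g b = τ b) : False := by
  obtain ⟨b, h1, h2, h3⟩ := exists_ne3 (by omega) y b0 b1
  obtain ⟨c, k1, k2, k3, k4⟩ := exists_ne4 (by omega) y b0 b1 b
  refine k4 (τ.injective ?_)
  rw [← h' c k1, ← h' b h1, h c k1 k2 k3, h b h1 h2 h3]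

theorem det_unique (hk : 6 ≤ Fintype.card α) {g : α → α} {y w w' : α} (h : Det g y w)
    (h' : Det g y w') : w = w' := by
  rcases h with ⟨b0, b1, h⟩ | ⟨τ, ht, h⟩ <;> rcases h' with ⟨c0, c1, h'⟩ | ⟨τ', ht', h'⟩
  · obtain ⟨b, h1, h2, h3, h4, h5⟩ := exists_ne5 hk y b0 b1 c0 c1
    rw [← h b h1 h2 h3, h' b h1 h4 h5]
  · exact (det_aux hk h h').elim
  · exact (det_aux hk h' h).elim
  · by_contra hne
    have hb : τ.symm w' ≠ y := by
      intro e
      apply hne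
      rw [← ht, ← e, apply_symm_apply]
    apply hb
    apply τ'.injective
    rw [← h' _ hb, h _ hb, apply_symm_apply, ht']

/-- The three possible shapes of the plane through a line with majority colour `w`. -/
def Shape (P : R4 α) (σ : Perm α) (x y w : α) : Prop :=
  (∃ y0 z, y0 ≠ y ∧ z ≠ w ∧ (Is4 P (σ w) x z y0 ∨ ∃ x', Is8 P (σ w) (σ z) x x' w y0)) ∨
  (∃ u0 u1 z0 z1, u1 ≠ y ∧ z0 ≠ w ∧ Is8 (dual P) z0 z1 u1 u0 (σ w) x) ∨
  ∃ τ : Perm α, τ y = w ∧ Is6b P τ x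

theorem step1 (hRL : StmtRL α) (hb : StmtM8b α) (hk : 6 ≤ Fintype.card α) {Q : R6 α}
    {σ ρ : Perm α} {a0 a1 x0 x1 y1 y2 t b' : α} {g : α → α} (hS : Sec Q)
    (h8 : Is8 (p12 Q σ) a0 a1 x0 x1 y1 y2)
    (hg : ∀ b, b ≠ y2 → Q a0 x0 (σ (g b)) y1 b (g b))
    (hn : ¬∃ w, ∀ b, b ≠ y2 → g b = w) (hb' : b' ≠ y1) (ht : Q a1 x0 (σ t) b' y2 t)
    (r0 : ρ y1 = a0) (r1 : ρ b' = a1) : Det g y2 t ∧ Shape (p32 Q ρ) σ x0 y2 t := by
  set e : α → α := update g y2 t with he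
  have e0 : e y2 = t := update_self _ _ _
  have e1 : ∀ b, b ≠ y2 → e b = g b := fun b h => update_of_ne h _ _
  have hline : ∀ y, p32 Q ρ (σ (e y)) x0 (e y) y := by
    intro y
    by_cases h : y = y2
    · rw [h, e0]
      exact ⟨b', by rw [r1]; exact ht⟩
    · rw [e1 y h]
      exact ⟨y1, by rw [r0]; exact hg y h⟩
  have key : ∀ u w, u ≠ y2 → (∀ y, y ≠ y2 → y ≠ u → e y = w) → e y2 ≠ w → e u ≠ w →
      e y2 ≠ e u → False := by
    intro u w hu h1 h2 h3 h4
    rw [e0] at h2 h4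
    rw [e1 u hu] at h3 h4
    refine hb hk Q σ a0 a1 x0 x1 y1 y2 w (g u) t u b' hS h8 hu h3 h2 h4 hb' ?_ (hg u hu) ht
    intro b k1 k2
    have := hg b k1
    rwa [← e1 b k1, h1 b k1 k2] at this
  rcases hRL (by omega) _ σ x0 e (hS.plane32 ρ) hline with ⟨w, h⟩ | ⟨y0, w, hs, h⟩ |
    ⟨u0, u1, w, hu, h, k0, k1, k8⟩ | ⟨τ, h, k6⟩
  · exact (hn ⟨w, fun b k => by rw [← e1 b k, h]⟩).elim
  · have hy : y0 ≠ y2 := by
      rintro rfl
      exact hn ⟨w, fun b k => by rw [← e1 b k, hs.1 b k]⟩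
    have hw : t = w := by rw [← e0, hs.1 y2 hy.symm]
    subst hw
    exact ⟨Or.inl ⟨y0, y0, fun b k k' _ => by rw [← e1 b k, hs.1 b k']⟩,
      Or.inl ⟨y0, e y0, hy, hs.2, h⟩⟩
  · have h0 : u0 ≠ y2 := by
      rintro rfl
      exact key u1 w hu.symm h k0 k1 k8.1
    have h1 : u1 ≠ y2 := by
      rintro rfl
      exact key u0 w hu (fun y a b => h y b a) k1 k0 k8.1.symm
    have hw : t = w := by rw [← e0, h y2 h0.symm h1.symm]
    subst hw
    exact ⟨Or.inl ⟨u0, u1, fun b k k' k'' => by rw [← e1 b k, h b k' k'']⟩,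
      Or.inr (Or.inl ⟨u0, u1, e u0, e u1, h1, k0, k8⟩)⟩
  · have hw : τ y2 = t := by rw [← e0, h]
    exact ⟨Or.inr ⟨τ, hw, fun b k => by rw [← e1 b k, h]⟩, Or.inr (Or.inr ⟨τ, hw, k6⟩)⟩

theorem maj_of_two (hRL : StmtRL α) (hk : 4 ≤ Fintype.card α) {P : R4 α} {σ : Perm α}
    {x x0 x1 : α} {e : α → α} (hP : Plane P) (hl : ∀ y, P (σ (e y)) x (e y) y) (hx : x0 ≠ x1)
    (he : e x0 = e x1) : ∃ u0 u1, ∀ y, y ≠ u0 → y ≠ u1 → e y = e x0 := by
  rcases hRL hk P σ x e hP hl with ⟨w, h⟩ | ⟨y0, w, hs, -⟩ |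
    ⟨u0, u1, w, hu, h, k0, k1, k8⟩ | ⟨τ, h, -⟩
  · exact ⟨x, x, fun y _ _ => by rw [h, h]⟩
  · refine ⟨y0, y0, fun y k _ => ?_⟩
    rw [hs.1 y k]
    by_cases k0 : x0 = y0
    · rw [he, hs.1 x1 (fun k1 => hx (k0.trans k1.symm))]
    · rw [hs.1 x0 k0]
  · refine ⟨u0, u1, fun y k k' => ?_⟩
    rw [h y k k']
    by_contra hne
    have m0 : x0 = u0 ∨ x0 = u1 := by
      by_contra! m
      exact hne (h x0 m.1 m.2).symm
    have m1 : x1 = u0 ∨ x1 = u1 := by
      by_contra! m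
      exact hne (he.trans (h x1 m.1 m.2)).symm
    rcases m0 with m0 | m0 <;> rcases m1 with m1 | m1
    · exact hx (m0.trans m1.symm)
    · exact k8.1 (by rw [← m0, ← m1, he])
    · exact k8.1 (by rw [← m0, ← m1, he])
    · exact hx (m0.trans m1.symm)
  · exact (hx (τ.injective (by rw [← h, ← h, he]))).elim

theorem step2 (hRL : StmtRL α) (hk : 6 ≤ Fintype.card α) {Q : R6 α}
    {σ : Perm α} {a0 a1 x0 x1 y1 y2 w : α} (hS : Sec Q)
    (h8 : Is8 (p12 Q σ) a0 a1 x0 x1 y1 y2)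
    (h3 : ∀ b, b ≠ y1 → Q a0 x1 (σ w) b y2 w) (h4 : ∀ b, b ≠ y1 → Q a1 x0 (σ w) b y2 w)
    (a s : α) (ha0 : a ≠ a0) (ha1 : a ≠ a1) : ∃ x, x ≠ s ∧ Q a x (σ w) y1 y2 w := by
  obtain ⟨b, hb⟩ := exists_ne1 (by omega) y1
  obtain ⟨c, hc, hcb⟩ := exists_ne2 (by omega) y1 b
  obtain ⟨ρ, r0, r1, r2⟩ := exists_perm3 hb.symm hc.symm hcb.symm ha0 ha1 h8.1
  have hex : ∀ x, ∃ v, p32 Q ρ (σ v) x v y2 ∧ (x = x0 ∨ x = x1 → v = w) ∧
      (x ≠ x0 → x ≠ x1 → Q a x (σ v) y1 y2 v) := by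
    intro x
    by_cases k0 : x = x0
    · exact ⟨w, ⟨c, by rw [r2, k0]; exact h4 c hc⟩, fun _ => rfl, fun k => (k k0).elim⟩
    by_cases k1 : x = x1
    · exact ⟨w, ⟨b, by rw [r1, k1]; exact h3 b hb⟩, fun _ => rfl, fun _ k => (k k1).elim⟩
    obtain ⟨v, hv⟩ := (h8.2.2 a x y1 y2).2 (Or.inr (Or.inr ⟨ha0, ha1, k0, k1, rfl, rfl⟩))
    exact ⟨v, ⟨y1, by rw [r0]; exact hv⟩, fun k => (k.elim k0 k1).elim, fun _ _ => hv⟩
  choose col c1 c2 c3 using hex
  have f0 : col x0 = w := c2 x0 (Or.inl rfl)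
  have f1 : col x1 = w := c2 x1 (Or.inr rfl)
  obtain ⟨u0, u1, hu⟩ := maj_of_two hRL (by omega) (σ := σ⁻¹) (x := y2) (x0 := x0) (x1 := x1)
    (e := fun x => σ (col x)) (hS.plane32 ρ).dual
    (fun y => by simpa [dual] using c1 y) h8.2.1 (by simp only [f0, f1])
  obtain ⟨x, k0, k1, k2, k3, k4⟩ := exists_ne5 hk x0 x1 s u0 u1
  have hx : col x = w := by
    have := hu x k3 k4
    simp only [f0] at this
    exact σ.injective this
  exact ⟨x, k2, hx ▸ c3 x k0 k1⟩

theorem lemX (hk : 6 ≤ Fintype.card α) {Q : R6 α} {σ ρ : Perm α} {a0 a1 x1 y1 y2 w : α}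
    (hS : Sec Q) (h3 : ∀ b, b ≠ y1 → Q a0 x1 (σ w) b y2 w)
    (h5 : ∀ a s, a ≠ a0 → a ≠ a1 → ∃ x, x ≠ s ∧ Q a x (σ w) y1 y2 w) (r0 : ρ y1 = a0)
    {a2 b y : α} (ha : a2 ≠ x1) (hb : b ≠ y2) (hy : y ≠ w) (h : p32 Q ρ (σ w) a2 y b) : False := by
  obtain ⟨δ, h⟩ := h
  by_cases hδ : δ = y1
  · obtain ⟨a, k0, k1⟩ := exists_ne2 (by omega) a0 a1
    obtain ⟨x, hx, hq⟩ := h5 a a2 k0 k1
    rw [hδ, r0] at h
    have := hS.sep _ _ _ _ _ _ _ _ _ _ _ _ h hq (by
      rw [nq_of_ne k0.symm, nq_of_ne hx.symm, nq_self, nq_self, nq_of_ne hb, nq_of_ne hy])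
    exact hb this.2.2.2.2.1
  · have k : ρ δ ≠ a0 := fun e => hδ (ρ.injective (e.trans r0.symm))
    have := hS.sep _ _ _ _ _ _ _ _ _ _ _ _ h (h3 δ hδ) (by
      rw [nq_of_ne k, nq_of_ne ha, nq_self, nq_self, nq_of_ne hb, nq_of_ne hy])
    exact hb this.2.2.2.2.1

theorem step3 (hk : 6 ≤ Fintype.card α) {Q : R6 α} {σ ρ : Perm α} {a0 a1 x0 x1 y1 y2 w : α}
    (hS : Sec Q) (hx : x0 ≠ x1) (h3 : ∀ b, b ≠ y1 → Q a0 x1 (σ w) b y2 w)
    (h4 : ∀ b, b ≠ y1 → Q a1 x0 (σ w) b y2 w)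
    (h5 : ∀ a s, a ≠ a0 → a ≠ a1 → ∃ x, x ≠ s ∧ Q a x (σ w) y1 y2 w) (r0 : ρ y1 = a0)
    (hsh : Shape (p32 Q ρ) σ x0 y2 w) : False := by
  rcases hsh with ⟨y0, z, hy, hz, h | ⟨x', h⟩⟩ | ⟨u0, u1, z0, z1, hu, hz, h⟩ | ⟨τ, ht, h⟩
  · exact lemX hk hS h3 h5 r0 hx hy hz ((h _ _ _ _).2 (Or.inr ⟨Or.inl rfl, rfl, rfl⟩))
  · obtain ⟨a, k0, k1, k2⟩ := exists_ne3 (by omega) x0 x1 x'
    obtain ⟨a3, l0, l1⟩ := exists_ne2 (by omega) (σ w) (σ z)
    obtain ⟨δ, hq⟩ := (h.2.2 a3 a w y0).2 (Or.inr (Or.inr ⟨l0, l1, k0, k2, rfl, rfl⟩))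
    obtain ⟨b, m0, m1⟩ := exists_ne2 (by omega) y1 δ
    by_cases e0 : ρ δ = a0
    · rw [e0] at hq
      have := hS.sep _ _ _ _ _ _ _ _ _ _ _ _ hq (h3 b m0) (by
        rw [nq_self, nq_of_ne k1, nq_of_ne l0, nq_of_ne m1.symm, nq_of_ne hy, nq_self])
      exact hy this.2.2.2.2.1
    by_cases e1 : ρ δ = a1
    · rw [e1] at hq
      have := hS.sep _ _ _ _ _ _ _ _ _ _ _ _ hq (h4 b m0) (by
        rw [nq_self, nq_of_ne k0, nq_of_ne l0, nq_of_ne m1.symm, nq_of_ne hy, nq_self])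
      exact hy this.2.2.2.2.1
    · obtain ⟨x, n0, n1⟩ := h5 (ρ δ) a e0 e1
      have hδ : δ ≠ y1 := fun e => e0 (by rw [e, r0])
      have := hS.sep _ _ _ _ _ _ _ _ _ _ _ _ hq n1 (by
        rw [nq_self, nq_of_ne n0.symm, nq_of_ne l0, nq_of_ne hδ, nq_of_ne hy, nq_self])
      exact hy this.2.2.2.2.1
  · obtain ⟨a, k0, k1⟩ := exists_ne2 (by omega) x0 x1
    exact lemX hk hS h3 h5 r0 k1 hu hz
      ((h.2.2 z0 u1 (σ w) a).2 (Or.inl ⟨Or.inl ⟨rfl, rfl⟩, rfl, k0⟩))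
  · obtain ⟨b, hb⟩ := exists_ne1 (by omega) y2
    have hy : τ b ≠ w := fun e => hb (τ.injective (e.trans ht.symm))
    exact lemX hk hS h3 h5 r0 hx hb hy ((h (σ w) x0 (τ b) b).2 ⟨rfl, rfl⟩)

theorem is8_c12 {Q : R6 α} {σ : Perm α} {a0 a1 x0 x1 y1 y2 : α}
    (h8 : Is8 (p12 Q σ) a0 a1 x0 x1 y1 y2) : Is8 (p12 (c12 Q) σ) x0 x1 a0 a1 y1 y2 :=
  ⟨h8.2.1, h8.1, fun c1 c2 d1 d2 => (h8.2.2 c2 c1 d1 d2).trans (by tauto)⟩

end M8

open M8 in
theorem m8 (hRL : StmtRL α) (hb : StmtM8b α) : StmtM8 α := by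
  intro hk5 Q σ a0 a1 x0 x1 y1 y2 hS h8 b c w w' hw hw'
  rcases Nat.eq_or_lt_of_le hk5 with hk | hk
  · exact K5.m8five hk.symm Q σ a0 a1 x0 x1 y1 y2 hS h8 b c w w' hw hw'
  replace hk : 6 ≤ Fintype.card α := hk
  have hex : ∀ b, ∃ v, b ≠ y2 → Q a0 x0 (σ v) y1 b v := by
    intro b
    by_cases h : b = y2
    · exact ⟨b, fun k => (k h).elim⟩
    · obtain ⟨v, hv⟩ := (h8.2.2 a0 x0 y1 b).2 (Or.inl ⟨Or.inl ⟨rfl, rfl⟩, rfl, h⟩)
      exact ⟨v, fun _ => hv⟩
  choose g hg using hex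
  have hcol : ∀ b w, Q a0 x0 (σ w) y1 b w → b ≠ y2 ∧ w = g b := by
    intro b w h
    have h1 : b ≠ y2 := by
      rcases (h8.2.2 a0 x0 y1 b).1 ⟨w, h⟩ with k | k | k
      · exact k.2.2
      · exact (k.2.1 rfl).elim
      · exact (k.1 rfl).elim
    have := hS.sep _ _ _ _ _ _ _ _ _ _ _ _ h (hg b h1) (by simp)
    exact ⟨h1, this.2.2.2.2.2⟩
  by_cases hn : ∃ v, ∀ b, b ≠ y2 → g b = v
  · obtain ⟨v, hv⟩ := hn
    obtain ⟨k1, k2⟩ := hcol b w hw
    obtain ⟨k3, k4⟩ := hcol c w' hw'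
    rw [k2, k4, hv b k1, hv c k3]
  exfalso
  have g4 : ∀ b', b' ≠ y1 → ∃ t, Q a1 x0 (σ t) b' y2 t ∧ Det g y2 t ∧
      ∃ ρ : Perm α, ρ y1 = a0 ∧ Shape (p32 Q ρ) σ x0 y2 t := by
    intro b' hb'
    obtain ⟨t, ht⟩ := (h8.2.2 a1 x0 b' y2).2 (Or.inr (Or.inl ⟨Or.inr ⟨rfl, rfl⟩, hb', rfl⟩))
    obtain ⟨ρ, r0, r1⟩ := exists_perm2 hb'.symm h8.1
    obtain ⟨k1, k2⟩ := step1 hRL hb hk hS h8 hg hn hb' ht r0 r1
    exact ⟨t, ht, k1, ρ, r0, k2⟩
  have g3 : ∀ b', b' ≠ y1 → ∃ t, Q a0 x1 (σ t) b' y2 t ∧ Det g y2 t := by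
    intro b' hb'
    obtain ⟨t, ht⟩ := (h8.2.2 a0 x1 b' y2).2 (Or.inr (Or.inl ⟨Or.inl ⟨rfl, rfl⟩, hb', rfl⟩))
    obtain ⟨ρ, r0, r1⟩ := exists_perm2 hb'.symm h8.2.1
    exact ⟨t, ht, (step1 hRL hb hk (hS.orb Orb.refl.c12) (is8_c12 h8) hg hn hb' ht r0 r1).1⟩
  obtain ⟨b0, hb0⟩ := exists_ne1 (by omega) y1
  obtain ⟨t, -, ht, ρ, r0, hsh⟩ := g4 b0 hb0
  have h3 : ∀ b, b ≠ y1 → Q a0 x1 (σ t) b y2 t := by
    intro b h
    obtain ⟨s, k1, k2⟩ := g3 b h
    rwa [det_unique hk k2 ht] at k1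
  have h4 : ∀ b, b ≠ y1 → Q a1 x0 (σ t) b y2 t := by
    intro b h
    obtain ⟨s, k1, k2, -⟩ := g4 b h
    rwa [det_unique hk k2 ht] at k1
  exact step3 hk hS h8.2.1 h3 h4 (step2 hRL hk hS h8 h3 h4) r0 hsh

end Pool.Agent.MP_92191b_al.K6

end

section

/-! The classification of planes, lines in planes and blocks. -/

set_option linter.unusedSectionVars false

namespace Pool.Agent.MP_92191b_al.K6

open Finset Function Equiv

variable {ι α : Type} [Fintype ι] [DecidableEq ι] [Fintype α] [DecidableEq α]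

namespace RL

theorem is8 (hk : 4 ≤ Fintype.card α) {P : R4 α} {σ : Perm α} {x : α} {e : α → α}
    (he : ∀ y, P (σ (e y)) x (e y) y) {a0 a1 x1 y1 y2 : α} (h : Is8 P a0 a1 x x1 y1 y2) :
    Single e y2 y1 ∧ Is8 P (σ y1) (σ (e y2)) x x1 y1 y2 := by
  have hx := h.2.1
  have h1 : ∀ y, y ≠ y2 → σ (e y) = a0 ∧ e y = y1 := fun y hy => by
    have := (h.2.2 _ _ _ _).1 (he y)
    tauto
  have h2 : σ (e y2) = a1 ∧ e y2 ≠ y1 := by
    have := (h.2.2 _ _ _ _).1 (he y2)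
    tauto
  obtain ⟨y, hy⟩ := exists_ne1 (by omega) y2
  have h3 : σ y1 = a0 := (h1 y hy).2 ▸ (h1 y hy).1
  rw [h3, h2.1]
  exact ⟨⟨fun b hb => (h1 b hb).2, h2.2⟩, h⟩

end RL

theorem cls (h1 : StmtPiv α) (h2 : StmtEnumA α) (h3 : StmtEnumB α) : StmtCls α := by
  intro hk P hP
  obtain ⟨w, lab, h⟩ := h1 hk P hP
  by_cases hl : ∃ x a a', a ≠ a' ∧ lab a = .inl x ∧ lab a' = .inl x
  · rcases h with h | h
    · rcases h2 hk P w lab hP h hl with k | k | k
      · exact Or.inl k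
      · exact Or.inr (Or.inr (Or.inr (Or.inl k)))
      · exact Or.inr (Or.inr (Or.inr (Or.inr (Or.inr (Or.inr (Or.inr (Or.inl k)))))))
    · rcases h2 hk _ w lab hP.dual h hl with ⟨x1, x2, k⟩ | ⟨x1, x2, y1, y2, k⟩ | ⟨τ, x, k⟩
      · exact Or.inr (Or.inl ⟨x1, x2, fun c1 c2 d1 d2 => k d1 d2 c1 c2⟩)
      · exact Or.inr (Or.inr (Or.inl ⟨y1, y2, x1, x2, fun c1 c2 d1 d2 =>
          (k d1 d2 c1 c2).trans (by tauto)⟩))
      · exact Or.inr (Or.inr (Or.inr (Or.inr (Or.inr (Or.inl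
          ⟨τ, x, fun c1 c2 d1 d2 => k d1 d2 c1 c2⟩)))))
  · have hl' : ∀ x a a', lab a = .inl x → lab a' = .inl x → a = a' := fun x a a' k k' => by
      by_contra hne
      exact hl ⟨x, a, a', hne, k, k'⟩
    rcases h with h | h
    · rcases h3 hk P w lab hP h hl' with k | k | k | k | k
      · exact Or.inr (Or.inl k)
      · exact Or.inr (Or.inr (Or.inl k))
      · exact Or.inr (Or.inr (Or.inr (Or.inr (Or.inl k))))
      · exact Or.inr (Or.inr (Or.inr (Or.inr (Or.inr (Or.inl k)))))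
      · exact Or.inr (Or.inr (Or.inr (Or.inr (Or.inr (Or.inr (Or.inr (Or.inr (Or.inr k))))))))
    · rcases h3 hk _ w lab hP.dual h hl' with
        ⟨x1, x2, k⟩ | ⟨x1, x2, y1, y2, k⟩ | ⟨τ, x, k⟩ | ⟨τ, x, k⟩ | k
      · exact Or.inl ⟨x1, x2, fun c1 c2 d1 d2 => k d1 d2 c1 c2⟩
      · exact Or.inr (Or.inr (Or.inr (Or.inl ⟨y1, y2, x1, x2, fun c1 c2 d1 d2 =>
          (k d1 d2 c1 c2).trans (by tauto)⟩)))
      · exact Or.inr (Or.inr (Or.inr (Or.inr (Or.inr (Or.inr (Or.inl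
          ⟨τ, x, fun c1 c2 d1 d2 => k d1 d2 c1 c2⟩))))))
      · exact Or.inr (Or.inr (Or.inr (Or.inr (Or.inr (Or.inr (Or.inr (Or.inl
          ⟨τ, x, fun c1 c2 d1 d2 => k d1 d2 c1 c2⟩)))))))
      · exact Or.inr (Or.inr (Or.inr (Or.inr (Or.inr (Or.inr (Or.inr (Or.inr (Or.inl k))))))))

theorem rl (h : StmtCls α) : StmtRL α := by
  intro hk P σ x e hP he
  have two : ∀ a : α, ∃ b, b ≠ a := exists_ne1 (by omega)
  rcases h hk P hP with ⟨x1, x2, k⟩ | ⟨y1, y2, k⟩ | ⟨x1, x2, y1, y2, k⟩ | ⟨x1, x2, y1, y2, k⟩ |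
    ⟨τ, y1, k⟩ | ⟨τ, y2, k⟩ | ⟨τ, x1, k⟩ | ⟨τ, x2, k⟩ | ⟨a0, a1, x0, x1, y1, y2, k⟩ |
    ⟨a0, a1, x0, x1, y1, y2, k⟩
  · exact Or.inl ⟨σ.symm x1, fun y => σ.eq_symm_apply.2 ((k _ _ _ _).1 (he y)).1⟩
  · obtain ⟨y, hy⟩ := two y2
    exact absurd ((k _ _ _ _).1 (he y)).2 hy
  · have h1 : ∀ y, y ≠ y2 → σ (e y) = x1 ∧ e y = y1 := fun y hy => by
      have := (k _ _ _ _).1 (he y)
      tauto
    obtain ⟨b, hb⟩ := two y2
    have h3 : σ y1 = x1 := (h1 b hb).2 ▸ (h1 b hb).1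
    refine Or.inl ⟨y1, fun y => ?_⟩
    rcases (k _ _ _ _).1 (he y) with k' | k'
    · exact σ.injective (k'.1.trans h3.symm)
    · exact k'.2.2.1
  · have h1 : ∀ y, y ≠ y2 → σ (e y) = x1 ∧ x = x2 ∧ e y ≠ y1 := fun y hy => by
      have := (k _ _ _ _).1 (he y)
      tauto
    have h2 : e y2 = y1 := by
      have := (k _ _ _ _).1 (he y2)
      tauto
    obtain ⟨b, hb⟩ := two y2
    refine Or.inr (Or.inl ⟨y2, e b, ⟨fun y hy => σ.injective ((h1 y hy).1.trans (h1 b hb).1.symm),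
      h2 ▸ (h1 b hb).2.2.symm⟩, Or.inl ?_⟩)
    rw [(h1 b hb).1, (h1 b hb).2.1, h2]
    exact k
  · exact Or.inl ⟨y1, fun y => ((k _ _ _ _).1 (he y)).2⟩
  · obtain ⟨y, hy⟩ := two y2
    exact absurd ((k _ _ _ _).1 (he y)).2 hy
  · obtain ⟨y, hy⟩ := two x
    have h1 := (k _ _ _ _).1 (he y)
    have h2 := (k _ _ _ _).1 (he x)
    exact absurd (τ.injective (h1.1.symm.trans ((σ.injective (h1.2.trans h2.2.symm)).trans h2.1)))
      hy
  · refine Or.inr (Or.inr (Or.inr ⟨τ, fun y => ((k _ _ _ _).1 (he y)).1, ?_⟩))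
    rw [((k _ _ _ _).1 (he x)).2]
    exact k
  · have hx := k.2.1
    have h0 := fun y => (k.2.2 (e y) y (σ (e y)) x).1 (he y)
    have h1 : ∀ y, y ≠ x1 → y ≠ x0 → e y ≠ a0 ∧ e y ≠ a1 ∧ σ (e y) = y1 ∧ x = y2 :=
      fun y hy hy' => by
        have := h0 y
        tauto
    obtain ⟨b, hb, hb'⟩ := exists_ne2 (by omega) x1 x0
    obtain ⟨k1, k2, k3, k4⟩ := h1 b hb hb'
    have h2 : e x0 = a1 := by
      have := h0 x0
      tauto
    have h3 : e x1 = a0 := by
      have := h0 x1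
      have := hx.symm
      tauto
    refine Or.inr (Or.inr (Or.inl ⟨x1, x0, e b, hx.symm,
      fun y hy hy' => σ.injective ((h1 y hy hy').2.2.1.trans k3.symm), h3 ▸ k1.symm,
      h2 ▸ k2.symm, ?_⟩))
    rw [h2, h3, k3, k4]
    exact k
  · obtain ⟨b, hb⟩ := two y2
    have h1 : x = x0 ∨ x = x1 := by
      have := (k.2.2 _ _ _ _).1 (he b)
      tauto
    rcases h1 with rfl | rfl
    · exact Or.inr (Or.inl ⟨y2, y1, (RL.is8 hk he k).1, Or.inr ⟨_, (RL.is8 hk he k).2⟩⟩)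
    · exact Or.inr (Or.inl ⟨y2, y1, (RL.is8 hk he k.swap).1,
        Or.inr ⟨_, (RL.is8 hk he k.swap).2⟩⟩)

theorem block (h : StmtCls α) : StmtBlock α := by
  intro hk P x1 x2 y1 y2 hP hb
  have two : ∀ a a' : α, ∃ b, b ≠ a ∧ b ≠ a' := exists_ne2 (by omega)
  rcases h hk P hP with ⟨u1, u2, k⟩ | ⟨v1, v2, k⟩ | ⟨u1, u2, v1, v2, k⟩ | ⟨u1, u2, v1, v2, k⟩ |
    ⟨τ, v1, k⟩ | ⟨τ, v2, k⟩ | ⟨τ, u1, k⟩ | ⟨τ, u2, k⟩ | ⟨a0, a1, u0, u1, v1, v2, k⟩ |
    ⟨a0, a1, u0, u1, v1, v2, k⟩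
  · obtain ⟨b1, h1, -⟩ := two y1 y1
    obtain ⟨b2, h2, -⟩ := two y2 y2
    obtain ⟨rfl, rfl⟩ := (k _ _ _ _).1 (hb b1 b2 h1 h2)
    exact Or.inl k
  · obtain ⟨b1, h1, h1'⟩ := two y1 v1
    obtain ⟨b2, h2, -⟩ := two y2 y2
    exact absurd ((k _ _ _ _).1 (hb b1 b2 h1 h2)).1 h1'
  · obtain ⟨b1, h1, h1'⟩ := two y1 v1
    obtain ⟨b2, h2, h2'⟩ := two y2 v2
    have := (k _ _ _ _).1 (hb b1 b2 h1 h2)
    tauto
  · obtain ⟨b1, h1, h1'⟩ := two y1 v1
    obtain ⟨b2, h2, h2'⟩ := two y2 v2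
    obtain ⟨rfl, rfl⟩ : x1 = u1 ∧ x2 = u2 := by
      have := (k _ _ _ _).1 (hb b1 b2 h1 h2)
      tauto
    obtain rfl : v1 = y1 := by
      by_contra hne
      have := (k _ _ _ _).1 (hb v1 b2 hne h2)
      tauto
    obtain rfl : v2 = y2 := by
      by_contra hne
      have := (k _ _ _ _).1 (hb b1 v2 h1 hne)
      tauto
    exact Or.inr k
  · obtain ⟨b1, h1, h1'⟩ := two y1 v1
    obtain ⟨b2, h2, -⟩ := two y2 y2
    exact absurd ((k _ _ _ _).1 (hb b1 b2 h1 h2)).2 h1'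
  · obtain ⟨b1, h1, -⟩ := two y1 y1
    obtain ⟨b2, h2, h2'⟩ := two y2 v2
    exact absurd ((k _ _ _ _).1 (hb b1 b2 h1 h2)).2 h2'
  · obtain ⟨b2, h2, -⟩ := two y2 y2
    obtain ⟨b1, h1, h1'⟩ := two y1 (τ b2)
    exact absurd ((k _ _ _ _).1 (hb b1 b2 h1 h2)).1 h1'
  · obtain ⟨b2, h2, -⟩ := two y2 y2
    obtain ⟨b1, h1, h1'⟩ := two y1 (τ b2)
    exact absurd ((k _ _ _ _).1 (hb b1 b2 h1 h2)).1 h1'
  · obtain ⟨b1, h1, h1', h1''⟩ := exists_ne3 hk y1 a0 a1
    by_cases h2 : u0 = y2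
    · have := (k.2.2 b1 u1 x1 x2).1 (hb b1 u1 h1 fun e => k.2.1 (h2.trans e.symm))
      tauto
    · have := (k.2.2 b1 u0 x1 x2).1 (hb b1 u0 h1 h2)
      tauto
  · obtain ⟨b1, h1, h1'⟩ := two y1 v1
    obtain ⟨b2, h2, h2'⟩ := two y2 v2
    have := (k.2.2 _ _ _ _).1 (hb b1 b2 h1 h2)
    tauto

end Pool.Agent.MP_92191b_al.K6

end

section

/-! Switching a coordinate. -/

set_option linter.unusedSectionVars false

namespace Pool.Agent.MP_92191b_al.K6

open Finset Function Equiv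

variable {ι α : Type} [Fintype ι] [DecidableEq ι] [Fintype α] [DecidableEq α]

namespace Sw

open Classical in
/-- The label of a fibre. -/
noncomputable def lab (S : Set α) (z : α) : α :=
  if h : ∃ b, S = {b} ∨ S = {b}ᶜ then h.choose else z

theorem lab_unique (hk : 3 ≤ Fintype.card α) {S : Set α} {b b' : α} (h : S = {b} ∨ S = {b}ᶜ)
    (h' : S = {b'} ∨ S = {b'}ᶜ) : b = b' := by
  obtain ⟨x, hx, hx'⟩ := exists_ne2 hk b b'
  rcases h with rfl | rfl <;> rcases h' with h' | h'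
  · exact Set.singleton_injective h'
  · have : x ∈ ({b} : Set α) := by rw [h']; exact hx'
    exact absurd this hx
  · have : x ∈ ({b'} : Set α) := by rw [← h']; exact hx
    exact absurd this hx'
  · exact Set.singleton_injective (compl_injective h')

theorem lab_eq (hk : 3 ≤ Fintype.card α) {S : Set α} {b : α} (z : α) (h : S = {b} ∨ S = {b}ᶜ) :
    lab S z = b := by
  have h0 : ∃ b, S = {b} ∨ S = {b}ᶜ := ⟨b, h⟩
  rw [lab, dif_pos h0]
  exact lab_unique hk h0.choose_spec h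

theorem fib_update (D : Finset (ι → α)) (j : ι) (x : ι → α) (v : α) :
    Fib D j (update x j v) = Fib D j x := by
  ext w; simp [Fib]

/-- The switching map. -/
noncomputable def sm (D : Finset (ι → α)) (j : ι) (z : α) (x : ι → α) : ι → α :=
  update x j (swap (lab (Fib D j x) z) z (x j))

theorem sm_update (D : Finset (ι → α)) (j : ι) (z : α) (x : ι → α) (v : α) :
    sm D j z (update x j v) = update x j (swap (lab (Fib D j x) z) z v) := by
  simp [sm, fib_update]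

theorem sm_sm (D : Finset (ι → α)) (j : ι) (z : α) (x : ι → α) : sm D j z (sm D j z x) = x := by
  conv_lhs => rw [sm.eq_1 D j z x, sm_update]
  simp

theorem sm_inj (D : Finset (ι → α)) (j : ι) (z : α) : Injective (sm D j z) :=
  Function.LeftInverse.injective (sm_sm D j z)

theorem sm_ne (D : Finset (ι → α)) {j r : ι} (z : α) (x : ι → α) (h : r ≠ j) :
    sm D j z x r = x r := by
  simp [sm, h]

theorem fib_sm (D : Finset (ι → α)) (j : ι) (z : α) (x : ι → α) :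
    Fib D j (sm D j z x) = Fib D j x := fib_update _ _ _ _

theorem mem_sw {D : Finset (ι → α)} {j : ι} {z : α} {x : ι → α} :
    x ∈ D.image (sm D j z) ↔ sm D j z x ∈ D := by
  rw [mem_image]
  constructor
  · rintro ⟨y, hy, rfl⟩; rwa [sm_sm]
  · exact fun h => ⟨_, h, sm_sm _ _ _ _⟩

theorem mem_fib_sw {D : Finset (ι → α)} {j : ι} {z : α} {x : ι → α} {v : α} :
    v ∈ Fib (D.image (sm D j z)) j x ↔ swap (lab (Fib D j x) z) z v ∈ Fib D j x := by
  change update x j v ∈ D.image (sm D j z) ↔ _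
  rw [mem_sw, sm_update]; rfl

theorem swRel (hk : 3 ≤ Fintype.card α) (D : Finset (ι → α)) (j : ι) (z : α) :
    SwRel D (D.image (sm D j z)) j z := by
  intro x
  refine ⟨fun h => ?_, fun h => ?_, fun b h => ?_, fun b h => ?_⟩ <;> ext v <;> rw [mem_fib_sw]
  · rw [h]; simp
  · rw [h]; simp
  · rw [lab_eq hk z (Or.inl h), h]; simp [swap_apply_eq_iff]
  · rw [lab_eq hk z (Or.inr h), h]; simp [swap_apply_eq_iff]

theorem dist_comp (π : Perm ι) (d d' : ι → α) :
    hammingDist (d ∘ π) (d' ∘ π) = hammingDist d d' := by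
  unfold hammingDist
  refine card_bij (fun i _ => π i) (by simp) (by simp) fun b hb => ⟨π.symm b, ?_, by simp⟩
  simpa using hb

theorem comp_inj (π : Perm ι) : Injective fun d : ι → α => d ∘ π := fun _ _ h =>
  π.surjective.injective_comp_right h

theorem gp_comp {C D : Finset (ι → α)} (h : GP C D) (π : Perm ι) :
    GP C (D.image fun d => d ∘ π) where
  sep c hc c' hc' d hd d' hd' he := by
    obtain ⟨e, he1, rfl⟩ := mem_image.1 hd
    obtain ⟨e', he2, rfl⟩ := mem_image.1 hd'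
    exact h.sep c hc c' hc' e he1 e' he2 (he.trans (dist_comp π e e'))
  big := by rw [card_image_of_injective _ (comp_inj π)]; exact h.big
  no1 := h.no1

theorem fib_comp (D : Finset (ι → α)) (π : Perm ι) (j : ι) (d : ι → α) :
    Fib (D.image fun d => d ∘ π) (π.symm j) (d ∘ π) = Fib D j d := by
  ext v
  change update (d ∘ π) (π.symm j) v ∈ D.image (fun d => d ∘ π) ↔ update d j v ∈ D
  rw [← update_comp_equiv]
  exact (comp_inj π).mem_finset_image

theorem sep_sw (hL : StmtLab ι α) (hk : 4 ≤ Fintype.card α) {C D : Finset (ι → α)} (h : GP C D)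
    (j : ι) (z : α) : Sep C (D.image (sm D j z)) := by
  intro c hc c' hc' x hx x' hx' he
  rw [mem_sw] at hx hx'
  obtain ⟨σ, π, h1, h2⟩ := exists_wreath he
  have key : ∀ c y : ι → α, (fun i => σ i (y (π i))) = c →
      ∀ r, r ≠ π.symm j → c r = σ r ((sm D j z y ∘ π) r) := by
    rintro c y rfl r hr
    have : π r ≠ j := fun e => hr (by rw [← e]; simp)
    simp [sm_ne D z y this]
  have hlab : lab (Fib D j x) z = lab (Fib D j x') z := by
    have m1 := mem_image_of_mem (fun d : ι → α => d ∘ π) hx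
    have m2 := mem_image_of_mem (fun d : ι → α => d ∘ π) hx'
    rcases hL hk C _ (gp_comp h π) σ (π.symm j) with H | ⟨b, H⟩
    · have a1 := H c hc _ m1 (key c x h1)
      have a2 := H c' hc' _ m2 (key c' x' h2)
      rw [fib_comp, fib_sm] at a1 a2
      rw [a1, a2]
    · have a1 := H c hc _ m1 (key c x h1)
      have a2 := H c' hc' _ m2 (key c' x' h2)
      rw [fib_comp, fib_sm] at a1 a2
      rw [lab_eq (by omega) z a1, lab_eq (by omega) z a2]
  refine h.sep c hc c' hc' _ hx _ hx' (he.trans ?_)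
  unfold hammingDist
  congr 1
  refine filter_congr fun i _ => ?_
  by_cases hi : i = j
  · subst hi; simp [sm, hlab]
  · rw [sm_ne D z x hi, sm_ne D z x' hi]

theorem mem_iff_fib {D : Finset (ι → α)} {j : ι} {z : α} {x : ι → α} (h : x j = z) :
    x ∈ D ↔ z ∈ Fib D j x := by
  subst h; simp [Fib]

end Sw

open Sw in
theorem sw (hL : StmtLab ι α) (h2 : StmtSw2 ι α) : StmtSw ι α := by
  classical
  intro hk C D h j z hex
  have hk3 : 3 ≤ Fintype.card α := by omega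
  have hR := swRel hk3 D j z
  refine ⟨D.image (sm D j z), ⟨sep_sw hL hk h j z, ?_, h.no1⟩, hR, fun r v hr => ?_, ?_⟩
  · rw [card_image_of_injective _ (sm_inj D j z)]; exact h.big
  · rw [filter_image, card_image_of_injective _ (sm_inj D j z)]
    congr 1
    exact filter_congr fun x _ => by rw [sm_ne D z x hr]
  · have hlt := h2 hk C D h j z hex
    obtain ⟨c, hc⟩ : C.Nonempty := by
      rw [← card_pos]
      have h1 : 0 < Fintype.card α ^ Fintype.card ι := pow_pos (by omega) _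
      exact Nat.pos_of_mul_pos_right (h1.trans_le h.big)
    set A := D.filter fun d => d j = z with hA
    set B := (D.image (sm D j z)).filter fun d => d j = z with hB
    have e1 : (A \ B).card ≤ (univ.filter fun x : ι → α =>
        x j = z ∧ ∃ b, b ≠ z ∧ Fib D j x = {b}ᶜ).card := by
      refine card_le_card fun x hx => ?_
      simp only [hA, hB, mem_sdiff, mem_filter, not_and] at hx
      obtain ⟨⟨hxD, hxj⟩, hx'⟩ := hx
      have hn : z ∉ Fib (D.image (sm D j z)) j x := fun e => hx' ((mem_iff_fib hxj).2 e) hxj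
      have hz := (mem_iff_fib hxj).1 hxD
      refine mem_filter.2 ⟨mem_univ _, hxj, ?_⟩
      rcases hL hk C D h (fun r => swap (x r) (c r)) j with H | ⟨b, H⟩
      · have := H c hc x hxD (by simp)
        exact absurd (by rw [(hR x).2.1 this]; trivial) hn
      · rcases H c hc x hxD (by simp) with H | H
        · exact absurd (by rw [(hR x).2.2.1 b H]; rfl) hn
        · refine ⟨b, fun e => ?_, H⟩
          rw [H] at hz; exact hz e.symm
    have e2 : (univ.filter fun x : ι → α =>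
        x j = z ∧ ∃ b, b ≠ z ∧ Fib D j x = {b}).card ≤ (B \ A).card := by
      refine card_le_card fun x hx => ?_
      obtain ⟨-, hxj, b, hb, H⟩ := mem_filter.1 hx
      simp only [hA, hB, mem_sdiff, mem_filter, not_and]
      refine ⟨⟨(mem_iff_fib hxj).2 (by rw [(hR x).2.2.1 b H]; rfl), hxj⟩, fun hxD _ => ?_⟩
      have hz := (mem_iff_fib hxj).1 hxD
      rw [H] at hz; exact hb hz.symm
    have e3 := card_sdiff_add_card_inter A B
    have e4 := card_sdiff_add_card_inter B A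
    rw [inter_comm] at e4
    have e5 : (A \ B).card < (B \ A).card := e1.trans_lt (lt_of_lt_of_le (by convert hlt) e2)
    omega

end Pool.Agent.MP_92191b_al.K6

end

section

/-! Images of lines. -/

set_option linter.unusedSectionVars false

namespace Pool.Agent.MP_92191b_al.K6

open Finset Function Equiv

variable {ι α : Type} [Fintype ι] [DecidableEq ι] [Fintype α] [DecidableEq α]

namespace Tri

/-- The two closure properties of the sets `AK`. -/
structure Cvx (A : (ι → α) → Prop) : Prop where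
  l1 : ∀ x i a a' b, a ≠ a' → A (update x i a) → A (update x i a') → A (update x i b)
  l2 : ∀ x i i' a b c, i ≠ i' → ¬A x → A (update x i a) → A (update x i' b) →
    A (update (update x i a) i' c)

theorem dev_update (ζ : ι → α) (E : Finset ι) (x : ι → α) (i : ι) (a : α) :
    dev ζ E (update x i a) + (if i ∉ E ∧ x i ≠ ζ i then 1 else 0) =
      dev ζ E x + if i ∉ E ∧ a ≠ ζ i then 1 else 0 := by
  simp only [dev, card_filter]
  rw [← add_sum_erase _ _ (mem_univ i), ← add_sum_erase _ _ (mem_univ i), update_self,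
    sum_congr rfl fun r hr => by rw [update_of_ne (ne_of_mem_erase hr)]]
  omega

theorem cvx_AK (ζ : ι → α) (E : Finset ι) (e : ℕ) : Cvx fun x => x ∈ AK ζ E e where
  l1 x i a a' b h := by
    have h1 := dev_update ζ E x i a
    have h2 := dev_update ζ E x i a'
    have h3 := dev_update ζ E x i b
    simp only [AK, mem_filter, mem_univ, true_and]
    by_cases hi : i ∈ E
    · simp only [hi, not_true, false_and, if_false] at h1 h2 h3
      omega
    · simp only [hi, not_false_iff, true_and] at h1 h2 h3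
      by_cases ha : a = ζ i
      · rw [if_pos (show a' ≠ ζ i from fun e => h (ha.trans e.symm))] at h2
        split_ifs at h2 h3 <;> omega
      · rw [if_pos ha] at h1
        split_ifs at h1 h3 <;> omega
  l2 x i i' a b c h := by
    have h1 := dev_update ζ E x i a
    have h2 := dev_update ζ E x i' b
    have h3 := dev_update ζ E (update x i a) i' c
    rw [update_of_ne h.symm] at h3
    simp only [AK, mem_filter, mem_univ, true_and]
    split_ifs at h1 h2 h3 <;> omega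

theorem ham_le {x y : ι → α} (S : Finset ι) (h : ∀ r, r ∉ S → x r = y r) :
    hammingDist x y ≤ S.card :=
  card_le_card fun r hr => by
    by_contra e
    exact (mem_filter.1 hr).2 (h r e)

theorem ham_two (u : ι → α) (l l' : ι) (s t : α) :
    hammingDist (update u l s) (update u l' t) ≤ 2 := by
  refine (ham_le {l, l'} fun r hr => ?_).trans card_le_two
  simp only [mem_insert, mem_singleton, not_or] at hr
  rw [update_of_ne hr.1, update_of_ne hr.2]

theorem diam_AK {ζ x y : ι → α} {E : Finset ι} {e : ℕ} (hx : x ∈ AK ζ E e) (hy : y ∈ AK ζ E e) :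
    hammingDist x y ≤ 2 * e + E.card := by
  simp only [AK, mem_filter, mem_univ, true_and, dev] at hx hy
  have h := ham_le (x := x) (y := y) (((univ.filter fun i => i ∉ E ∧ x i ≠ ζ i) ∪
    univ.filter fun i => i ∉ E ∧ y i ≠ ζ i) ∪ E) fun r hr => by
      simp only [mem_union, mem_filter, mem_univ, true_and, not_or, not_and, not_not] at hr
      rw [hr.1.1 hr.2, hr.1.2 hr.2]
  have h1 := card_union_le ((univ.filter fun i => i ∉ E ∧ x i ≠ ζ i) ∪
    univ.filter fun i => i ∉ E ∧ y i ≠ ζ i) E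
  have h2 := card_union_le (univ.filter fun i => i ∉ E ∧ x i ≠ ζ i)
    (univ.filter fun i => i ∉ E ∧ y i ≠ ζ i)
  omega

/-- The facts used below. -/
structure Ctx (f : (ι → α) → ι → α) (J : ℕ) : Prop where
  card : 3 ≤ Fintype.card α
  two : 2 ≤ J
  sep : ∀ u v w : ι → α, hammingDist u v ≤ J → w ≠ u → w ≠ v →
    (u ≠ v → ¬∃ i, ∀ r, r ≠ i → u r = v r ∧ w r = u r) →
    ∃ B : (ι → α) → Prop, Cvx B ∧ (Cvx fun x => B (f x)) ∧
      (∀ p q, B p → B q → hammingDist p q ≤ J) ∧ B u ∧ B v ∧ ¬B w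

variable {f : (ι → α) → ι → α} {J : ℕ}

theorem Ctx.sep1 (h : Ctx f J) {v u : ι → α} (huv : u ≠ v) :
    ∃ B : (ι → α) → Prop, Cvx B ∧ (Cvx fun x => B (f x)) ∧
      (∀ p q, B p → B q → hammingDist p q ≤ J) ∧ B v ∧ ¬B u := by
  obtain ⟨B, h1, h2, h3, h4, -, h5⟩ := h.sep v v u (by simp) huv huv fun e => absurd rfl e
  exact ⟨B, h1, h2, h3, h4, h5⟩

theorem Ctx.third (h : Ctx f J) {x : ι → α} {i : ι} {a a' : α} (ha : a ≠ a')
    (hd : hammingDist (f (update x i a)) (f (update x i a')) ≤ J) (c : α) :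
    f (update x i c) = f (update x i a) ∨ f (update x i c) = f (update x i a') ∨
      (f (update x i a) ≠ f (update x i a') ∧ ∃ l, ∀ r, r ≠ l →
        f (update x i a) r = f (update x i a') r ∧ f (update x i c) r = f (update x i a) r) := by
  by_contra hc
  simp only [not_or, not_and] at hc
  obtain ⟨B, -, h2, -, h4, h5, h6⟩ := h.sep _ _ _ hd hc.1 hc.2.1 hc.2.2
  exact h6 (h2.l1 x i a a' c ha h4 h5)

theorem Ctx.tri (h : Ctx f J) (x : ι → α) (i : ι) :
    Col f x i ∨ (∃ l, Lin f x i l) ∨ Clq f J x i := by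
  by_cases hq : Clq f J x i
  · exact Or.inr (Or.inr hq)
  by_cases hi : ∃ b b', b ≠ b' ∧ f (update x i b) = f (update x i b')
  · obtain ⟨b, b', hb, e⟩ := hi
    have : ∀ c, f (update x i c) = f (update x i b) := fun c => by
      rcases h.third (x := x) (i := i) hb (by simp [e]) c with k | k | k
      · exact k
      · exact k.trans e.symm
      · exact absurd e k.1
    exact Or.inl fun a => by rw [this a, ← this (x i), update_eq_self]
  have hinj : ∀ b b', f (update x i b) = f (update x i b') → b = b' := fun b b' e => by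
    by_contra hb
    exact hi ⟨b, b', hb, e⟩
  simp only [Clq, not_forall, not_lt] at hq
  obtain ⟨a, a', ha, hd⟩ := hq
  have key : ∀ c, c ≠ a → c ≠ a' → ∃ l, ∀ r, r ≠ l →
      f (update x i a) r = f (update x i a') r ∧ f (update x i c) r = f (update x i a) r :=
    fun c h1 h2 => (((h.third ha hd c).resolve_left fun e => h1 (hinj _ _ e)).resolve_left
      fun e => h2 (hinj _ _ e)).2
  obtain ⟨c0, h1, h2⟩ := exists_ne2 h.card a a'
  obtain ⟨l, hl⟩ := key c0 h1 h2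
  have hne : f (update x i a) l ≠ f (update x i a') l := fun e => ha (hinj _ _ (funext fun r => by
    by_cases hr : r = l
    · rw [hr, e]
    · exact (hl r hr).1))
  have all : ∀ c r, r ≠ l → f (update x i c) r = f (update x i a) r := fun c r hr => by
    by_cases e : c = a
    · rw [e]
    by_cases e' : c = a'
    · rw [e', (hl r hr).1]
    obtain ⟨l', hl'⟩ := key c e e'
    obtain rfl : l = l' := by
      by_contra k
      exact hne (hl' l k).1
    exact (hl' r hr).2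
  have hτ : Injective fun c => f (update x i c) l := fun c c' e => hinj _ _ (funext fun r => by
    by_cases hr : r = l
    · rw [hr]; exact e
    · rw [all c r hr, all c' r hr])
  refine Or.inr (Or.inl ⟨l, Equiv.ofBijective _ (Finite.injective_iff_bijective.1 hτ),
    fun c => funext fun r => ?_⟩)
  by_cases hr : r = l
  · rw [hr, update_self]; rfl
  · rw [update_of_ne hr, all c r hr, ← all (x i) r hr, update_eq_self]

theorem base {x : ι → α} {i l : ι} {τ : Perm α}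
    (h : ∀ a, f (update x i a) = update (f x) l (τ a)) : τ (x i) = f x l := by
  have := congrFun (h (x i)) l
  rw [update_eq_self, update_self] at this
  exact this.symm

/-- a full line in the preimage of a set of small diameter -/
theorem Ctx.lin (h : Ctx f J) {B : (ι → α) → Prop} (hB : ∀ p q, B p → B q → hammingDist p q ≤ J)
    {y : ι → α} {i : ι} {b : α} (hl : ∀ c, B (f (update y i c))) (hne : f (update y i b) ≠ f y) :
    ∃ l t, f (update y i b) = update (f y) l t := by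
  rcases h.tri y i with k | ⟨l, τ, k⟩ | k
  · exact absurd (k b) hne
  · exact ⟨l, _, k b⟩
  · obtain ⟨c, hc⟩ := exists_ne1 (by have := h.card; omega) b
    exact absurd (k c b hc) (not_lt.2 (hB _ _ (hl c) (hl b)))

theorem Cvx.mid {B : (ι → α) → Prop} (h : Cvx B) {u : ι → α} {l : ι} {s t : α} (hst : s ≠ t)
    (hs : B (update u l s)) (ht : B (update u l t)) : B u := by
  have := h.l1 u l s t (u l) hst hs ht
  rwa [update_eq_self] at this

theorem Ctx.inj (h : Ctx f J) {x : ι → α} {i i' l : ι} (h1 : Lin f x i l) (h2 : Lin f x i' l) :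
    i = i' := by
  by_contra hi
  obtain ⟨τ, hτ⟩ := h1
  obtain ⟨τ', hτ'⟩ := h2
  obtain ⟨s, hs⟩ := exists_ne1 (by have := h.card; omega) (f x l)
  obtain ⟨s', hs', hss⟩ := exists_ne2 h.card (f x l) s
  have e1 : ∀ t, f (update x i (τ.symm t)) = update (f x) l t := fun t => by
    rw [hτ, apply_symm_apply]
  have e2 : ∀ t, f (update x i' (τ'.symm t)) = update (f x) l t := fun t => by
    rw [hτ', apply_symm_apply]
  have hn : ∀ t, t ≠ f x l → f x ≠ update (f x) l t := fun t ht e =>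
    ht (by simpa using (congrFun e l).symm)
  obtain ⟨B, b1, b2, b3, b4, b5⟩ := h.sep1 (hn s hs)
  obtain ⟨B', c1, c2, c3, c4, c5⟩ := h.sep1 (hn s' hs')
  have k1 := fun c => b2.l2 x i i' (τ.symm s) (τ'.symm s) c hi b5 (by rwa [e1]) (by rwa [e2])
  have k2 := fun c => c2.l2 x i' i (τ'.symm s') (τ.symm s') c (Ne.symm hi) c5 (by rwa [e2])
    (by rwa [e1])
  have hw := k1 (τ'.symm s')
  have hw' := k2 (τ.symm s)
  have n1 : f (update (update x i (τ.symm s)) i' (τ'.symm s')) ≠ f (update x i (τ.symm s)) := by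
    intro e
    rw [← update_comm hi, e, e1] at hw'
    exact c5 (c1.mid hss c4 hw')
  have n2 : f (update (update x i' (τ'.symm s')) i (τ.symm s)) ≠
      f (update x i' (τ'.symm s')) := by
    intro e
    rw [update_comm hi, e, e2] at hw
    exact b5 (b1.mid hss hw b4)
  obtain ⟨l1, t1, q1⟩ := h.lin b3 k1 n1
  obtain ⟨l2, t2, q2⟩ := h.lin c3 k2 n2
  rw [← update_comm hi, e2] at q2
  rw [e1] at q1 n1
  obtain ⟨t, ht⟩ : ∃ t, f (update (update x i (τ.symm s)) i' (τ'.symm s')) =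
      update (f x) l t := by
    by_cases k : l = l1
    · exact ⟨t1, by rw [q1, ← k, update_idem]⟩
    by_cases k' : l = l2
    · exact ⟨t2, by rw [q2, ← k', update_idem]⟩
    have := congrFun (q1.symm.trans q2) l
    rw [update_of_ne k, update_of_ne k', update_self, update_self] at this
    exact absurd this.symm hss
  rw [ht] at hw n1
  exact b5 (b1.mid (fun e => n1 (by rw [e])) hw b4)

theorem Ctx.move (h : Ctx f J) {x : ι → α} {i j l : ι} (b : α) (hc : Col f x j)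
    (hl : Lin f x i l) : Lin f (update x j b) i l ∨ Clq f J (update x j b) i := by
  by_cases hb : b = x j
  · rw [hb, update_eq_self]; exact Or.inl hl
  obtain ⟨τ, hτ⟩ := hl
  have hτ0 := base hτ
  obtain ⟨a, ha⟩ := exists_ne1 (by have := h.card; omega) (x i)
  obtain ⟨a', ha', haa⟩ := exists_ne2 h.card (x i) a
  have hne : ∀ c, c ≠ x i → τ c ≠ f x l := fun c k e => k (τ.injective (e.trans hτ0.symm))
  have hij : i ≠ j := by
    rintro rfl
    have := congrFun ((hc a).symm.trans (hτ a)) l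
    rw [update_self] at this
    exact hne a ha this.symm
  have hq : ∀ c l' t, f (update (update x i c) j b) = update (f x) l' t →
      ¬Clq f J (update x i c) j := fun c l' t e k => by
    have := k b (x j) hb
    rw [e, ← update_of_ne hij.symm c x, update_eq_self, hτ] at this
    have h2 := ham_two (f x) l' l t (τ c)
    have := h.two
    omega
  rcases h.tri (update x j b) i with k | ⟨l', τ', k⟩ | k
  · exfalso
    have k' : ∀ c, f (update (update x i c) j b) = f x := fun c => by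
      rw [update_comm hij, k, hc]
    rcases h.tri (update x i a') j with m | ⟨l1, τ1, m⟩ | m
    · have := congrFun ((k' a').symm.trans ((m b).trans (hτ a'))) l
      rw [update_self] at this
      exact hne a' ha' this.symm
    · obtain rfl : l = l1 := by
        by_contra e
        have := congrFun ((k' a').symm.trans (m b)) l
        rw [update_of_ne e, hτ, update_self] at this
        exact hne a' ha' this.symm
      obtain ⟨B, b1, b2, -, b4, b5⟩ := h.sep1 (u := f x) (v := update (f x) l (τ a)) fun e =>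
        hne a ha (by simpa using (congrFun e l).symm)
      have := b2.l2 (update x i a') i j a (τ1.symm (τ a)) b hij
        (fun e => b5 (b1.mid (fun e' => haa (τ.injective e')) (by rwa [hτ] at e) b4))
        (by rwa [update_idem, hτ]) (by rwa [m, apply_symm_apply, hτ, update_idem])
      rw [update_idem, k'] at this
      exact b5 this
    · exact hq a' l (f x l) (by rw [k', update_eq_self]) m
  · by_cases e : l' = l
    · exact Or.inl ⟨τ', e ▸ k⟩
    exfalso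
    have hτ0' := base k
    rw [update_of_ne hij, hc] at hτ0'
    have k' : f (update (update x i a) j b) = update (f x) l' (τ' a) := by
      rw [update_comm hij, k, hc]
    rcases h.tri (update x i a) j with m | ⟨l1, τ1, m⟩ | m
    · have := congrFun (k'.symm.trans ((m b).trans (hτ a))) l
      rw [update_self, update_of_ne (Ne.symm e)] at this
      exact hne a ha this.symm
    · have q := k'.symm.trans (m b)
      obtain rfl : l = l1 := by
        by_contra e'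
        have := congrFun q l
        rw [update_of_ne (Ne.symm e), update_of_ne e', hτ, update_self] at this
        exact hne a ha this.symm
      have := congrFun q l'
      rw [update_self, update_of_ne e, hτ, update_of_ne e] at this
      exact ha (τ'.injective (this.trans hτ0'.symm))
    · exact hq a l' _ k' m
  · exact Or.inr k

end Tri

theorem tri (hS : StmtSepB ι α) : StmtTri ι α := by
  intro hc J N e f hP hT he
  have h : Tri.Ctx f J := by
    refine ⟨hc, by have := hT.1; omega, fun u v w h1 h2 h3 h4 => ?_⟩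
    obtain ⟨ζ, E, hE, k1, k2, k3⟩ := hS hc J e he hT.1 hT.2.1 u v w h1 h2 h3 h4
    obtain ⟨ζ', E', e', -, -, k⟩ := hP ζ E e hT hE
    refine ⟨fun x => x ∈ AK ζ E e, Tri.cvx_AK ζ E e, ?_,
      fun p q hp hq => hE ▸ Tri.diam_AK hp hq, k1, k2, k3⟩
    simp only [k]
    exact Tri.cvx_AK ζ' E' e'
  exact ⟨h.tri, fun _ _ _ _ => h.inj, fun _ _ _ _ b => h.move b⟩

end Pool.Agent.MP_92191b_al.K6

end
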