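import Pool.Agent.MP_92191b_al.K6.Basic

section

/-! The colouring of the far cells and of the arm cells of a plane of the fourth type. -/

set_option linter.unusedSectionVars false

namespace Pool.Agent.MP_92191b_al.K6

open Finset Function Equiv

variable {ι α : Type} [Fintype ι] [DecidableEq ι] [Fintype α] [DecidableEq α]

namespace FLem

/-- Constant off `y`. -/
def Cst (h : α → α) (y : α) : Prop := ∃ w, ∀ b, b ≠ y → h b = w

/-- Equal to `m` off `y`, except exactly at `b0`. -/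
def Sg (h : α → α) (y m b0 : α) : Prop :=
  b0 ≠ y ∧ h b0 ≠ m ∧ ∀ b, b ≠ y → b ≠ b0 → h b = m

/-- Injective off `y` and avoiding `m`. -/
def DD (h : α → α) (y m : α) : Prop :=
  (∀ b, b ≠ y → h b ≠ m) ∧ ∀ b b', b ≠ y → b' ≠ y → h b = h b' → b = b'

/-- The three types of a line. -/
def LTy (h : α → α) (y m : α) : Prop := Cst h y ∨ (∃ b0, Sg h y m b0) ∨ DD h y m

theorem LTy.uniq (hk : 4 ≤ Fintype.card α) {h : α → α} {y m m' : α} (hc : ¬Cst h y)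
    (h1 : LTy h y m) (h2 : LTy h y m') : m = m' := by
  have key : ∀ m m' b0, Sg h y m b0 → DD h y m' → False := by
    intro m m' b0 hs hd
    obtain ⟨b, hb1, hb2⟩ := exists_ne2 (by omega) y b0
    obtain ⟨b', hb1', hb2', hb3'⟩ := exists_ne3 (by omega) y b0 b
    exact hb3' (hd.2 _ _ hb1' hb1 ((hs.2.2 _ hb1' hb2').trans (hs.2.2 _ hb1 hb2).symm))
  rcases h1 with h1 | ⟨b0, h1⟩ | h1
  · exact absurd h1 hc
  · rcases h2 with h2 | ⟨b1, h2⟩ | h2
    · exact absurd h2 hc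
    · obtain ⟨b, hb1, hb2, hb3⟩ := exists_ne3 (by omega) y b0 b1
      exact (h1.2.2 _ hb1 hb2).symm.trans (h2.2.2 _ hb1 hb3)
    · exact (key _ _ _ h1 h2).elim
  · rcases h2 with h2 | ⟨b1, h2⟩ | h2
    · exact absurd h2 hc
    · exact (key _ _ _ h2 h1).elim
    · have hinj : Injective (fun b => if b = y then m else h b) := by
        intro b b' hb
        by_cases e1 : b = y <;> by_cases e2 : b' = y
        · rw [e1, e2]
        · simp only [e1, e2, if_true, if_false] at hb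
          exact absurd hb.symm (h1.1 _ e2)
        · simp only [e1, e2, if_true, if_false] at hb
          exact absurd hb (h1.1 _ e1)
        · simp only [e1, e2, if_false] at hb
          exact h1.2 _ _ e1 e2 hb
      obtain ⟨b, hb⟩ := Finite.injective_iff_surjective.1 hinj m'
      by_cases e1 : b = y
      · simpa only [e1, if_true] using hb
      · simp only [e1, if_false] at hb
        exact absurd hb (h2.1 _ e1)

/-- A plane of the fourth type with the colours of its cells. -/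
structure Ctx (Q : R6 α) (σ : Perm α) (x1 x2 y1 y2 : α) (f : α → α → α) (g1 g2 : α → α) :
    Prop where
  nice : Nice Q
  far : ∀ b1 b2, b1 ≠ y1 → b2 ≠ y2 → Q x1 x2 (σ (f b1 b2)) b1 b2 (f b1 b2)
  arm1 : ∀ a, a ≠ x1 → Q a x2 (σ (g1 a)) y1 y2 (g1 a)
  arm2 : ∀ a, a ≠ x2 → Q x1 a (σ (g2 a)) y1 y2 (g2 a)

variable {Q : R6 α} {σ : Perm α} {x1 x2 y1 y2 m : α} {f : α → α → α} {g1 g2 : α → α}

theorem Ctx.c12 (h : Ctx Q σ x1 x2 y1 y2 f g1 g2) : Ctx (K6.c12 Q) σ x2 x1 y1 y2 f g2 g1 :=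
  ⟨h.nice.orb Orb.refl.c12, h.far, h.arm2, h.arm1⟩

theorem Ctx.s12 (h : Ctx Q σ x1 x2 y1 y2 f g1 g2) :
    Ctx (K6.s12 Q) σ x2 x1 y2 y1 (fun b r => f r b) g2 g1 :=
  ⟨h.nice.orb Orb.refl.s12, fun b1 b2 h1 h2 => h.far b2 b1 h2 h1, h.arm2, h.arm1⟩

theorem Ctx.row (hRL : StmtRL α) (hk : 4 ≤ Fintype.card α) (h : Ctx Q σ x1 x2 y1 y2 f g1 g2)
    {r : α} (hr : r ≠ y1) {ρ : Perm α} (hρ : ρ r = x1) :
    ∃ e : α → α, e y2 = g1 (ρ y1) ∧ (∀ b, b ≠ y2 → e b = f r b) ∧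
      ((∃ w, ∀ y, e y = w) ∨
      (∃ y0 w, Single e y0 w ∧
        (Is4 (p32 Q ρ) (σ w) x2 (e y0) y0 ∨
          ∃ x', Is8 (p32 Q ρ) (σ w) (σ (e y0)) x2 x' w y0)) ∨
      ∃ τ : Perm α, (∀ y, e y = τ y) ∧ Is6b (p32 Q ρ) τ x2) := by
  refine ⟨fun b => if b = y2 then g1 (ρ y1) else f r b, if_pos rfl, fun b hb => if_neg hb, ?_⟩
  have hne : ρ y1 ≠ x1 := fun e => hr (ρ.injective (hρ.trans e.symm))
  have := hRL (by omega) (p32 Q ρ) σ x2 (fun b => if b = y2 then g1 (ρ y1) else f r b)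
    (h.nice.sec.plane32 ρ) (fun y => by
      by_cases e : y = y2
      · simp only [e, if_true]
        exact ⟨y1, h.arm1 _ hne⟩
      · simp only [e, if_false]
        exact ⟨r, by rw [hρ]; exact h.far _ _ hr e⟩)
  rcases this with h1 | h1 | ⟨y0, y1', w, -, -, -, -, h1⟩ | h1
  · exact Or.inl h1
  · exact Or.inr (Or.inl h1)
  · exact (h.nice.no7 _ Orb.refl.s13 ρ _ _ _ _ _ _ h1).elim
  · exact Or.inr (Or.inr h1)

theorem Ctx.rowTy (hRL : StmtRL α) (hk : 4 ≤ Fintype.card α) (h : Ctx Q σ x1 x2 y1 y2 f g1 g2)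
    {r : α} (hr : r ≠ y1) {a : α} (ha : a ≠ x1) : LTy (f r) y2 (g1 a) := by
  obtain ⟨ρ, hρ, hρ'⟩ := exists_perm2 hr ha.symm
  obtain ⟨e, e1, e2, h1⟩ := h.row hRL hk hr hρ
  rw [hρ'] at e1
  rcases h1 with ⟨w, hw⟩ | ⟨y0, w, hs, -⟩ | ⟨τ, hτ, -⟩
  · exact Or.inl ⟨w, fun b hb => (e2 b hb).symm.trans (hw b)⟩
  · by_cases hy : y0 = y2
    · exact Or.inl ⟨w, fun b hb => (e2 b hb).symm.trans (hs.1 b (hy ▸ hb))⟩
    · have hw : g1 a = w := e1.symm.trans (hs.1 y2 (Ne.symm hy))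
      refine Or.inr (Or.inl ⟨y0, hy, ?_, fun b hb hb' => ?_⟩)
      · rw [hw, ← e2 y0 hy]; exact hs.2
      · rw [hw, ← e2 b hb]; exact hs.1 b hb'
  · refine Or.inr (Or.inr ⟨fun b hb he => hb (τ.injective ?_), fun b b' hb hb' he => τ.injective ?_⟩)
    · rw [← hτ, ← hτ, e1, e2 b hb, he]
    · rw [← hτ, ← hτ, e2 b hb, e2 b' hb', he]

/-- A non-constant row forces all arm cells to have the same colour. -/
theorem Ctx.arms (hRL : StmtRL α) (hk : 4 ≤ Fintype.card α) (h : Ctx Q σ x1 x2 y1 y2 f g1 g2)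
    {r : α} (hr : r ≠ y1) (hc : ¬Cst (f r) y2) :
    ∃ m, (∀ a, a ≠ x1 → g1 a = m) ∧ ∀ a, a ≠ x2 → g2 a = m := by
  obtain ⟨a0, ha0⟩ := exists_ne1 (by omega) x1
  exact ⟨g1 a0, fun a ha => (h.rowTy hRL hk hr ha).uniq hk hc (h.rowTy hRL hk hr ha0),
    fun a ha => (h.c12.rowTy hRL hk hr ha).uniq hk hc (h.rowTy hRL hk hr ha0)⟩

/-- The context in which all arm cells have the colour `m`. -/
abbrev CM (Q : R6 α) (σ : Perm α) (x1 x2 y1 y2 : α) (f : α → α → α) (m : α) : Prop :=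
  Ctx Q σ x1 x2 y1 y2 f (fun _ => m) (fun _ => m)

theorem CM.rowTy (hRL : StmtRL α) (hk : 4 ≤ Fintype.card α) (h : CM Q σ x1 x2 y1 y2 f m)
    {r : α} (hr : r ≠ y1) : LTy (f r) y2 m := by
  obtain ⟨a0, ha0⟩ := exists_ne1 (by omega) x1
  exact Ctx.rowTy hRL hk h hr ha0

theorem CM.keyS (hRL : StmtRL α) (hk : 4 ≤ Fintype.card α)
    (h : CM Q σ x1 x2 y1 y2 f m) {r : α} (hr : r ≠ y1) {ρ : Perm α} (hρ : ρ r = x1) {b0 : α}
    (hs : Sg (f r) y2 m b0) : Is4 (p32 Q ρ) (σ m) x2 (f r b0) b0 := by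
  obtain ⟨e, e1, e2, h1⟩ := Ctx.row hRL hk h hr hρ
  have hne : ρ y1 ≠ x1 := fun e => hr (ρ.injective (hρ.trans e.symm))
  have e0 : e b0 = f r b0 := e2 _ hs.1
  rcases h1 with ⟨w, hw⟩ | ⟨y0, w, hs', h1⟩ | ⟨τ, hτ, -⟩
  · exact absurd (e0.symm.trans ((hw b0).trans ((hw y2).symm.trans e1))) hs.2.1
  · obtain ⟨b, hb1, hb2, hb3⟩ := exists_ne3 (by omega) y2 b0 y0
    have hb : f r b = m := hs.2.2 b hb1 hb2
    have hw : w = m := (hs'.1 b hb3).symm.trans ((e2 b hb1).trans hb)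
    have hy : b0 = y0 := by
      by_contra hy
      exact hs.2.1 (e0.symm.trans ((hs'.1 b0 hy).trans hw))
    subst hw hy
    rw [e0] at h1
    rcases h1 with h1 | ⟨x', h1⟩
    · exact h1
    · refine absurd (h.nice.mono (s13 Q) Orb.refl.s13 ρ _ _ _ _ _ _ h1 b y2 r y1 ?_ ?_) hr
      · have := h.far r b hr hb1
        rw [hb, ← hρ] at this
        exact this
      · exact h.arm1 _ hne
  · obtain ⟨b, hb1, hb2⟩ := exists_ne2 (by omega) y2 b0
    refine absurd (τ.injective ?_) hb1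
    rw [← hτ, ← hτ, e1, e2 b hb1, hs.2.2 b hb1 hb2]

theorem CM.keyD (hRL : StmtRL α) (hk : 4 ≤ Fintype.card α)
    (h : CM Q σ x1 x2 y1 y2 f m) {r : α} (hr : r ≠ y1) {ρ : Perm α} (hρ : ρ r = x1)
    (hd : DD (f r) y2 m) :
    ∃ τ : Perm α, (∀ b, b ≠ y2 → τ b = f r b) ∧ Is6b (p32 Q ρ) τ x2 := by
  obtain ⟨e, e1, e2, h1⟩ := Ctx.row hRL hk h hr hρ
  rcases h1 with ⟨w, hw⟩ | ⟨y0, w, hs', -⟩ | ⟨τ, hτ, h1⟩
  · obtain ⟨b, hb⟩ := exists_ne1 (by omega) y2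
    exact absurd ((e2 b hb).symm.trans ((hw b).trans ((hw y2).symm.trans e1))) (hd.1 b hb)
  · obtain ⟨b, hb1, hb2⟩ := exists_ne2 (by omega) y2 y0
    obtain ⟨b', hb1', hb2', hb3'⟩ := exists_ne3 (by omega) y2 y0 b
    refine absurd (hd.2 _ _ hb1' hb1 ?_) hb3'
    rw [← e2 b hb1, ← e2 b' hb1', hs'.1 b hb2, hs'.1 b' hb2']
  · exact ⟨τ, fun b hb => (hτ b).symm.trans (e2 b hb), h1⟩

theorem CM.star (hRL : StmtRL α) (hk : 4 ≤ Fintype.card α)
    (h : CM Q σ x1 x2 y1 y2 f m) {r : α} (hr : r ≠ y1) {ρ : Perm α} (hρ : ρ r = x1) {b0 : α}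
    (hb : b0 ≠ y2) (hs : Sg (f r) y2 m b0 ∨ DD (f r) y2 m) (c3 : α) :
    ∃ d1, Q (ρ d1) x2 c3 d1 b0 (f r b0) := by
  rcases hs with hs | hs
  · exact (h.keyS hRL hk hr hρ hs c3 x2 (f r b0) b0).2 (Or.inr ⟨Or.inr rfl, rfl, rfl⟩)
  · obtain ⟨τ, hτ, h1⟩ := h.keyD hRL hk hr hρ hs
    exact (h1 c3 x2 (f r b0) b0).2 ⟨(hτ b0 hb).symm, rfl⟩

/-- A constant row of a colour other than `m` makes all far cells of that colour. -/
theorem CM.f3 (hRL : StmtRL α) (hk : 4 ≤ Fintype.card α)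
    (h : CM Q σ x1 x2 y1 y2 f m) {r m' : α} (hr : r ≠ y1) (hm : m' ≠ m)
    (hc : ∀ b, b ≠ y2 → f r b = m') (r' b : α) (hr' : r' ≠ y1) (hb : b ≠ y2) : f r' b = m' := by
  have hty := CM.rowTy hRL hk h.s12 hb
  have hsd : Cst (fun r => f r b) y1 ∨
      (Sg (fun r => f r b) y1 m r ∨ DD (fun r => f r b) y1 m) := by
    rcases hty with h1 | ⟨r0, h1⟩ | h1
    · exact Or.inl h1
    · by_cases e : r = r0
      · exact Or.inr (Or.inl (e ▸ h1))
      · exact absurd ((hc b hb).symm.trans (h1.2.2 r hr e)) hm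
    · exact Or.inr (Or.inr h1)
  rcases hsd with ⟨w, hw⟩ | hsd
  · exact (hw r' hr').trans ((hw r hr).symm.trans (hc b hb))
  exfalso
  obtain ⟨ρ1, hρ1⟩ := exists_perm1 r x1
  have hst : ∀ ρ2 : Perm α, ρ2 b = x2 → ∀ c3, ∃ d2, p32 Q ρ1 c3 (ρ2 d2) m' d2 := by
    intro ρ2 hρ2 c3
    obtain ⟨d2, hd⟩ := CM.star hRL hk h.s12 hb hρ2 hr hsd c3
    refine ⟨d2, r, ?_⟩
    rw [hρ1, ← hc b hb]
    exact hd
  obtain ⟨e, e1, e2, h1⟩ := Ctx.row hRL hk h hr hρ1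
  rcases h1 with ⟨w, hw⟩ | ⟨y0, w, hs', h1⟩ | ⟨τ, hτ, -⟩
  · exact hm ((hc b hb).symm.trans ((e2 b hb).symm.trans ((hw b).trans ((hw y2).symm.trans e1))))
  · obtain ⟨b', hb1, hb2⟩ := exists_ne2 (by omega) y2 y0
    have hw : w = m' := (hs'.1 b' hb2).symm.trans ((e2 b' hb1).trans (hc b' hb1))
    have hy : y2 = y0 := by
      by_contra hy
      exact hm (hw.symm.trans ((hs'.1 y2 hy).symm.trans e1))
    subst hw hy
    rw [e1] at h1
    rcases h1 with h1 | ⟨x', h1⟩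
    · obtain ⟨ρ2, hρ2⟩ := exists_perm1 b x2
      obtain ⟨c3, hc3⟩ := exists_ne1 (by omega) (σ w)
      obtain ⟨d2, hd⟩ := hst ρ2 hρ2 c3
      rcases (h1 _ _ _ _).1 hd with h2 | h2
      · exact hc3 h2.1
      · exact hm h2.2.1
    · obtain ⟨ρ2, hρ2, hρ2'⟩ := exists_perm2 hb h1.2.1
      obtain ⟨c3, hc3, hc3'⟩ := exists_ne2 (by omega) (σ w) (σ m)
      obtain ⟨d2, hd⟩ := hst ρ2 hρ2 c3
      rcases (h1.2.2 _ _ _ _).1 hd with h2 | h2 | h2
      · exact h2.1.elim (fun h3 => hc3 h3.1) fun h3 => hc3' h3.1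
      · exact h2.1.elim (fun h3 => hc3 h3.1) fun h3 => hc3' h3.1
      · exact h2.2.2.2.1 (h2.2.2.2.2.2 ▸ hρ2')
  · obtain ⟨b', hb1, hb2⟩ := exists_ne2 (by omega) y2 b
    refine hb2 (τ.injective ?_)
    rw [← hτ, ← hτ, e2 b hb, e2 b' hb1, hc b hb, hc b' hb1]

/-- Two single columns cannot cross an injective row. -/
theorem CM.two (hRL : StmtRL α) (hk : 4 ≤ Fintype.card α)
    (h : CM Q σ x1 x2 y1 y2 f m) {r b b' : α} (hr : r ≠ y1) (hd : DD (f r) y2 m)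
    (hb : b ≠ y2) (hb' : b' ≠ y2) (hbb : b ≠ b') (hs : Sg (fun r => f r b) y1 m r)
    (hs' : Sg (fun r => f r b') y1 m r) : False := by
  obtain ⟨ρ1, hρ1⟩ := exists_perm1 r x1
  obtain ⟨τ, hτ, h6⟩ := h.keyD hRL hk hr hρ1 hd
  have hff : f r b ≠ f r b' := fun e => hbb (hd.2 _ _ hb hb' e)
  have hA : ∀ a3, Q x1 x2 a3 r b' (f r b') := by
    intro a3
    obtain ⟨ρ2, hρ2⟩ := exists_perm1 b' x2
    obtain ⟨d2, hd2⟩ := CM.star hRL hk h.s12 hb' hρ2 hr (Or.inl hs') a3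
    have h1 : Q x1 (ρ2 d2) a3 r d2 (f r b') := hd2
    have h2 := (h6 a3 (ρ2 d2) (f r b') d2).1 ⟨r, by rw [hρ1]; exact h1⟩
    have h3 : b' = d2 := τ.injective ((hτ b' hb').trans h2.1)
    rw [h2.2, ← h3] at h1
    exact h1
  obtain ⟨ρ2, hρ2⟩ := exists_perm1 b x2
  have h4 := CM.keyS hRL hk h.s12 hb hρ2 hs
  obtain ⟨a1, ha1⟩ := exists_ne1 (by omega) x1
  obtain ⟨d2, hu⟩ := (h4 (σ m) a1 (f r b) r).2 (Or.inr ⟨Or.inl rfl, rfl, rfl⟩)
  have hu : Q a1 (ρ2 d2) (σ m) r d2 (f r b) := hu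
  have sep := h.nice.sec.sep
  by_cases hc : ρ2 d2 = x2
  · have e : d2 = b := ρ2.injective (hc.trans hρ2.symm)
    rw [hc, e] at hu
    obtain ⟨a3, ha3⟩ := exists_ne1 (by omega) (σ m)
    exact ha1 (sep _ _ _ _ _ _ _ _ _ _ _ _ hu (hA a3) (by
      rw [nq_of_ne ha1, nq_self, nq_of_ne ha3.symm, nq_self, nq_of_ne hbb, nq_of_ne hff])).1
  · by_cases e : d2 = b'
    · obtain ⟨r', hr1, hr2⟩ := exists_ne2 (by omega) y1 r
      have hv := h.far r' b' hr1 hb'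
      have hf : f r' b' = m := hs'.2.2 r' hr1 hr2
      rw [hf, ← e] at hv
      exact ha1 (sep _ _ _ _ _ _ _ _ _ _ _ _ hu hv (by
        rw [nq_of_ne ha1, nq_of_ne hc, nq_self, nq_of_ne hr2.symm, nq_self,
          nq_of_ne (hd.1 b hb)])).1
    · exact ha1 (sep _ _ _ _ _ _ _ _ _ _ _ _ hu (hA (σ m)) (by
        rw [nq_of_ne ha1, nq_of_ne hc, nq_self, nq_self, nq_of_ne e, nq_of_ne hff])).1

/-- An injective row makes all rows and columns injective. -/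
theorem CM.f4 (hRL : StmtRL α) (hk : 4 ≤ Fintype.card α)
    (h : CM Q σ x1 x2 y1 y2 f m) {r : α} (hr : r ≠ y1) (hd : DD (f r) y2 m)
    (hnc : ¬∃ μ, ∀ b1 b2, b1 ≠ y1 → b2 ≠ y2 → f b1 b2 = μ) :
    (∀ r', r' ≠ y1 → DD (f r') y2 m) ∧ ∀ b, b ≠ y2 → DD (fun r => f r b) y1 m := by
  have hcol : ∀ b, b ≠ y2 → Sg (fun r => f r b) y1 m r ∨ DD (fun r => f r b) y1 m := by
    intro b hb
    rcases CM.rowTy hRL hk h.s12 hb with ⟨w, hw⟩ | ⟨r0, h1⟩ | h1
    · refine absurd ⟨w, fun b1 b2 h1 h2 => CM.f3 hRL hk h.s12 hb ?_ hw b2 b1 h2 h1⟩ hnc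
      rw [← hw r hr]
      exact hd.1 b hb
    · by_cases e : r = r0
      · exact Or.inl (e ▸ h1)
      · exact absurd (h1.2.2 r hr e) (hd.1 b hb)
    · exact Or.inr h1
  have hD : ∀ b, b ≠ y2 → DD (fun r => f r b) y1 m := by
    intro b hb
    rcases hcol b hb with hs | hs
    · exfalso
      have ho : ∀ b', b' ≠ y2 → b' ≠ b → DD (fun r => f r b') y1 m := fun b' h1 h2 =>
        (hcol b' h1).resolve_left fun hs' => h.two hRL hk hr hd hb h1 h2.symm hs hs'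
      obtain ⟨r', hr1, hr2⟩ := exists_ne2 (by omega) y1 r
      have hf : f r' b = m := hs.2.2 r' hr1 hr2
      rcases h.rowTy hRL hk hr1 with ⟨w, hw⟩ | ⟨b0, h1⟩ | h1
      · obtain ⟨b', h2, h3⟩ := exists_ne2 (by omega) y2 b
        exact (ho b' h2 h3).1 r' hr1 ((hw b' h2).trans ((hw b hb).symm.trans hf))
      · obtain ⟨b', h2, h3, h4⟩ := exists_ne3 (by omega) y2 b b0
        exact (ho b' h2 h3).1 r' hr1 (h1.2.2 b' h2 h4)
      · exact h1.1 b hb hf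
    · exact hs
  refine ⟨fun r' hr' => ?_, hD⟩
  rcases h.rowTy hRL hk hr' with ⟨w, hw⟩ | ⟨b0, h1⟩ | h1
  · refine absurd ⟨w, h.f3 hRL hk hr' ?_ hw⟩ hnc
    obtain ⟨b, hb⟩ := exists_ne1 (by omega) y2
    rw [← hw b hb]
    exact (hD b hb).1 r' hr'
  · obtain ⟨b, h2, h3⟩ := exists_ne2 (by omega) y2 b0
    exact absurd (h1.2.2 b h2 h3) ((hD b h2).1 r' hr')
  · exact h1

/-- Without injective rows every row has at most one entry other than `m`. -/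
theorem CM.atMost (hRL : StmtRL α) (hk : 4 ≤ Fintype.card α)
    (h : CM Q σ x1 x2 y1 y2 f m) {r : α} (hr : r ≠ y1) (hd : ¬DD (f r) y2 m)
    (hnc : ¬∃ μ, ∀ b1 b2, b1 ≠ y1 → b2 ≠ y2 → f b1 b2 = μ) {b b' : α} (hb : b ≠ y2)
    (hb' : b' ≠ y2) (h1 : f r b ≠ m) (h2 : f r b' ≠ m) : b = b' := by
  rcases h.rowTy hRL hk hr with ⟨w, hw⟩ | ⟨b0, h3⟩ | h3
  · refine absurd ⟨w, h.f3 hRL hk hr ?_ hw⟩ hnc
    rw [← hw b hb]
    exact h1
  · have e1 : b = b0 := by_contra fun e => h1 (h3.2.2 b hb e)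
    have e2 : b' = b0 := by_contra fun e => h2 (h3.2.2 b' hb' e)
    rw [e1, e2]
  · exact absurd h3 hd

theorem CM.main (hRL : StmtRL α) (hk : 4 ≤ Fintype.card α)
    (h : CM Q σ x1 x2 y1 y2 f m) (hnc : ¬∃ μ, ∀ b1 b2, b1 ≠ y1 → b2 ≠ y2 → f b1 b2 = μ) :
    (∀ b1 b2 b1' b2', b1 ≠ y1 → b2 ≠ y2 → b1' ≠ y1 → b2' ≠ y2 → b1 = b1' ∨ b2 = b2' →
      f b1 b2 ≠ m → f b1' b2' ≠ m → b1 = b1' ∧ b2 = b2') ∨
    ∀ b1 b2 b1' b2', b1 ≠ y1 → b2 ≠ y2 → b1' ≠ y1 → b2' ≠ y2 → b1 = b1' ∨ b2 = b2' →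
      f b1 b2 = f b1' b2' → b1 = b1' ∧ b2 = b2' := by
  have hnc' : ¬∃ μ, ∀ b1 b2, b1 ≠ y2 → b2 ≠ y1 → f b2 b1 = μ := fun ⟨μ, hμ⟩ =>
    hnc ⟨μ, fun b1 b2 h1 h2 => hμ b2 b1 h2 h1⟩
  have fin : ((∀ r', r' ≠ y1 → DD (f r') y2 m) ∧ ∀ b, b ≠ y2 → DD (fun r => f r b) y1 m) →
      ∀ b1 b2 b1' b2', b1 ≠ y1 → b2 ≠ y2 → b1' ≠ y1 → b2' ≠ y2 → b1 = b1' ∨ b2 = b2' →
      f b1 b2 = f b1' b2' → b1 = b1' ∧ b2 = b2' := by
    rintro ⟨hR, hC⟩ b1 b2 b1' b2' h1 h2 h1' h2' (rfl | rfl) he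
    · exact ⟨rfl, (hR b1 h1).2 _ _ h2 h2' he⟩
    · exact ⟨(hC b2 h2).2 _ _ h1 h1' he, rfl⟩
  by_cases hR : ∃ r, r ≠ y1 ∧ DD (f r) y2 m
  · obtain ⟨r, hr, hd⟩ := hR
    exact Or.inr (fin (h.f4 hRL hk hr hd hnc))
  by_cases hC : ∃ b, b ≠ y2 ∧ DD (fun r => f r b) y1 m
  · obtain ⟨b, hb, hd⟩ := hC
    exact Or.inr (fin (CM.f4 hRL hk h.s12 hb hd hnc').symm)
  left
  rintro b1 b2 b1' b2' h1 h2 h1' h2' (rfl | rfl) e1 e2
  · exact ⟨rfl, h.atMost hRL hk h1 (fun hd => hR ⟨b1, h1, hd⟩) hnc h2 h2' e1 e2⟩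
  · exact ⟨CM.atMost hRL hk h.s12 h2 (fun hd => hC ⟨b2, h2, hd⟩) hnc' h1 h1' e1 e2, rfl⟩

theorem col_uniq (h : Sep3 Q) {c1 c2 d1 d2 w w' : α} (h1 : Q c1 c2 (σ w) d1 d2 w)
    (h2 : Q c1 c2 (σ w') d1 d2 w') : w = w' :=
  (h _ _ _ _ _ _ _ _ _ _ _ _ h1 h2 (by simp)).2.2.2.2.2

end FLem

open FLem in
theorem fLem (hRL : StmtRL α) : StmtF α := by
  intro hk Q σ x1 x2 y1 y2 hN h4
  have hf : ∀ b1 b2, ∃ w, b1 ≠ y1 → b2 ≠ y2 → Q x1 x2 (σ w) b1 b2 w := by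
    intro b1 b2
    by_cases h : b1 ≠ y1 ∧ b2 ≠ y2
    · obtain ⟨w, hw⟩ := (h4 x1 x2 b1 b2).2 (Or.inl ⟨rfl, rfl, h⟩)
      exact ⟨w, fun _ _ => hw⟩
    · exact ⟨x1, fun h1 h2 => absurd ⟨h1, h2⟩ h⟩
  have hg1 : ∀ a, ∃ w, Q a x2 (σ w) y1 y2 w := fun a =>
    (h4 a x2 y1 y2).2 (Or.inr ⟨Or.inr rfl, rfl, rfl⟩)
  have hg2 : ∀ a, ∃ w, Q x1 a (σ w) y1 y2 w := fun a =>
    (h4 x1 a y1 y2).2 (Or.inr ⟨Or.inl rfl, rfl, rfl⟩)
  choose f hf using hf
  choose g1 hg1 using hg1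
  choose g2 hg2 using hg2
  have hC : Ctx Q σ x1 x2 y1 y2 f g1 g2 := ⟨hN, hf, fun a _ => hg1 a, fun a _ => hg2 a⟩
  have hu : ∀ b1 b2 w, b1 ≠ y1 → b2 ≠ y2 → Q x1 x2 (σ w) b1 b2 w → w = f b1 b2 :=
    fun b1 b2 w h1 h2 h => col_uniq hN.sec.sep h (hf b1 b2 h1 h2)
  by_cases hnc : ∃ μ, ∀ b1 b2, b1 ≠ y1 → b2 ≠ y2 → f b1 b2 = μ
  · obtain ⟨μ, hμ⟩ := hnc
    exact Or.inl ⟨μ, fun b1 b2 w h1 h2 h => (hu b1 b2 w h1 h2 h).trans (hμ b1 b2 h1 h2)⟩
  have hm : ∃ m, (∀ a, a ≠ x1 → g1 a = m) ∧ ∀ a, a ≠ x2 → g2 a = m := by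
    by_cases hR : ∃ r, r ≠ y1 ∧ ¬Cst (f r) y2
    · obtain ⟨r, hr, hc⟩ := hR
      exact hC.arms hRL hk hr hc
    by_cases hS : ∃ b, b ≠ y2 ∧ ¬Cst (fun r => f r b) y1
    · obtain ⟨b, hb, hc⟩ := hS
      obtain ⟨m, h1, h2⟩ := hC.s12.arms hRL hk hb hc
      exact ⟨m, h2, h1⟩
    exfalso
    obtain ⟨b0, hb0⟩ := exists_ne1 (by omega) y2
    obtain ⟨μ, hμ⟩ : Cst (fun r => f r b0) y1 := by_contra fun hc => hS ⟨b0, hb0, hc⟩
    refine hnc ⟨μ, fun b1 b2 h1 h2 => ?_⟩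
    obtain ⟨w, hw⟩ : Cst (f b1) y2 := by_contra fun hc => hR ⟨b1, h1, hc⟩
    exact (hw b2 h2).trans ((hw b0 hb0).symm.trans (hμ b1 h1))
  obtain ⟨m, hm1, hm2⟩ := hm
  have hM : CM Q σ x1 x2 y1 y2 f m :=
    ⟨hN, hf, fun a ha => hm1 a ha ▸ hg1 a, fun a ha => hm2 a ha ▸ hg2 a⟩
  refine Or.inr ⟨m, fun a1 a2 w hne h => ?_, ?_⟩
  · rcases (h4 a1 a2 y1 y2).1 ⟨w, h⟩ with h1 | ⟨h1 | h1, -⟩
    · exact absurd rfl h1.2.2.1
    · subst h1
      exact col_uniq hN.sec.sep h (hM.arm2 a2 (hne.resolve_left fun e => e rfl))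
    · subst h1
      exact col_uniq hN.sec.sep h (hM.arm1 a1 (hne.resolve_right fun e => e rfl))
  · rcases hM.main hRL hk hnc with h1 | h1
    · refine Or.inl fun b1 b2 w b1' b2' w' e1 e2 e1' e2' q q' ho n n' => ?_
      rw [hu _ _ _ e1 e2 q] at n
      rw [hu _ _ _ e1' e2' q'] at n'
      exact h1 _ _ _ _ e1 e2 e1' e2' ho n n'
    · refine Or.inr fun b1 b2 w b1' b2' w' e1 e2 e1' e2' q q' ho n => ?_
      rw [hu _ _ _ e1 e2 q, hu _ _ _ e1' e2' q'] at n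
      exact h1 _ _ _ _ e1 e2 e1' e2' ho n

end Pool.Agent.MP_92191b_al.K6

end

section

/-! Global forms of two lemmas on sections in three coordinates. -/

set_option linter.unusedSectionVars false

namespace Pool.Agent.MP_92191b_al.K6

open Finset Function Equiv

variable {ι α : Type} [Fintype ι] [DecidableEq ι] [Fintype α] [DecidableEq α]

namespace GFL

variable {T : Rel2 ι α} {σ : ι → Perm α} {i j r : ι} {x1 x2 y1 y2 : α} {c d : ι → α}

theorem cell_sec (hri : r ≠ i) (hrj : r ≠ j) (h : Cell T σ i j c d) :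
    sec T σ i j r (c i) (c j) (σ r (d r)) (d i) (d j) (d r) :=
  ⟨c, d, h.1, fun s hi hj _ => h.2 s hi hj, rfl, rfl, h.2 r hri hrj, rfl, rfl, rfl⟩

theorem far_c (h4 : Is4 (pl T σ i j) x1 x2 y1 y2) (h : Far T σ i j y1 y2 c d) :
    c i = x1 ∧ c j = x2 := by
  rcases (h4 (c i) (c j) (d i) (d j)).1 ⟨c, d, h.1, rfl, rfl, rfl, rfl⟩ with
    ⟨a, b, _, _⟩ | ⟨_, a, _⟩
  · exact ⟨a, b⟩
  · exact absurd a h.2.1

theorem far_ex (h4 : Is4 (pl T σ i j) x1 x2 y1 y2) {b1 b2 : α} (h1 : b1 ≠ y1) (h2 : b2 ≠ y2) :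
    ∃ c d, Far T σ i j y1 y2 c d ∧ d i = b1 ∧ d j = b2 := by
  obtain ⟨c, d, hc, -, -, e1, e2⟩ := (h4 x1 x2 b1 b2).2 (Or.inl ⟨rfl, rfl, h1, h2⟩)
  exact ⟨c, d, ⟨hc, e1 ▸ h1, e2 ▸ h2⟩, e1, e2⟩

theorem far_sec (hri : r ≠ i) (hrj : r ≠ j) (h4 : Is4 (pl T σ i j) x1 x2 y1 y2)
    (h : Far T σ i j y1 y2 c d) : sec T σ i j r x1 x2 (σ r (d r)) (d i) (d j) (d r) := by
  have := cell_sec hri hrj h.1
  rwa [(far_c h4 h).1, (far_c h4 h).2] at this

theorem arm_sec (hri : r ≠ i) (hrj : r ≠ j) (h : Arm T σ i j x1 x2 y1 y2 c d) :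
    sec T σ i j r (c i) (c j) (σ r (d r)) y1 y2 (d r) := by
  have := cell_sec hri hrj h.1
  rwa [h.2.1, h.2.2.1] at this

/-- A cell of the plane `i, j` is a cell of the plane `r, i` for a suitable permutation. -/
theorem cell_col {ρ : Perm α} (h : Cell T σ i j c d) (hρ : ρ (d j) = c j) :
    Cell T (update σ j ρ) r i c d := by
  refine ⟨h.1, fun s _ hi => ?_⟩
  by_cases hs : s = j
  · subst hs
    rw [update_self, hρ]
  · rw [update_of_ne hs]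
    exact h.2 s hi hs

theorem cell_row {ρ : Perm α} (h : Cell T σ i j c d) (hρ : ρ (d i) = c i) :
    Cell T (update σ i ρ) r j c d :=
  cell_col (i := j) (j := i) ⟨h.1, fun s hj hi => h.2 s hi hj⟩ hρ

end GFL

open GFL

theorem gF (hS : StmtSec ι α) (hN : StmtNice ι α) (hF : StmtF α) : StmtGF ι α := by
  intro hk T hT σ i j r x1 x2 y1 y2 hij hri hrj h4
  obtain ⟨-, hsep, hl⟩ := hS T hT.tight σ i j hij
  obtain ⟨-, hp12, -, -⟩ := hl r hri hrj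
  have hn := hN hk T hT σ i j r hij hri hrj
  have key : ∀ c d c' d', Far T σ i j y1 y2 c d → Far T σ i j y1 y2 c' d' →
      d i = d' i ∧ d j = d' j → d = d' := fun c d c' d' hf hf' e =>
    (hsep c d c' d' hf.1 hf'.1 (by
      rw [(far_c h4 hf).1, (far_c h4 hf).2, (far_c h4 hf').1, (far_c h4 hf').2, e.1, e.2]
      simp)).2
  rcases hF hk _ (σ r) x1 x2 y1 y2 hn (by rw [hp12]; exact h4) with ⟨μ, hμ⟩ | ⟨m, hm, hh⟩
  · exact Or.inl ⟨μ, fun c d hf => hμ _ _ _ hf.2.1 hf.2.2 (far_sec hri hrj h4 hf)⟩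
  · refine Or.inr ⟨m, fun c d ha => hm _ _ _ ha.2.2.2 (arm_sec hri hrj ha), ?_⟩
    rcases hh with hh | hh
    · exact Or.inl fun c d c' d' hf hf' hor hw hw' => key c d c' d' hf hf'
        (hh _ _ _ _ _ _ hf.2.1 hf.2.2 hf'.2.1 hf'.2.2 (far_sec hri hrj h4 hf)
          (far_sec hri hrj h4 hf') hor hw hw')
    · exact Or.inr fun c d c' d' hf hf' hor hw => key c d c' d' hf hf'
        (hh _ _ _ _ _ _ hf.2.1 hf.2.2 hf'.2.1 hf'.2.2 (far_sec hri hrj h4 hf)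
          (far_sec hri hrj h4 hf') hor hw)

theorem gLam (hS : StmtSec ι α) (hN : StmtNice ι α) (h1 : StmtM1 ι α) (hF : StmtGF ι α)
    (hL : StmtLam α) : StmtGLam ι α := by
  rintro hk T hT σ i j r x1 x2 y1 y2 hij hri hrj h4 ⟨r0, c0, d0, c0', d0', hr0i, hr0j, hf0, hf0', hne⟩
  rcases hF hk T hT σ i j r x1 x2 y1 y2 hij hri hrj h4 with ⟨μ, hμ⟩ | ⟨m, hm, -⟩
  swap
  · exact Or.inl ⟨m, hm⟩
  have hrr : r0 ≠ r := by
    rintro rfl
    exact hne ((hμ _ _ hf0).trans (hμ _ _ hf0').symm)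
  obtain ⟨c, d, hf, hd⟩ : ∃ c d, Far T σ i j y1 y2 c d ∧ ∀ c' d', Far T σ i j y1 y2 c' d' →
      d i = d' i ∨ d j = d' j → d r0 = d' r0 → d = d' := by
    rcases hF hk T hT σ i j r0 x1 x2 y1 y2 hij hr0i hr0j h4 with ⟨ν, hν⟩ | ⟨m, -, hh | hh⟩
    · exact absurd ((hν _ _ hf0).trans (hν _ _ hf0').symm) hne
    · by_cases h0 : d0 r0 = m
      · have h0' : d0' r0 ≠ m := fun h => hne (h0.trans h.symm)
        exact ⟨c0', d0', hf0', fun c' d' hf' hor e => hh _ _ _ _ hf0' hf' hor h0' (e ▸ h0')⟩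
      · exact ⟨c0, d0, hf0, fun c' d' hf' hor e => hh _ _ _ _ hf0 hf' hor h0 (e ▸ h0)⟩
    · exact ⟨c0, d0, hf0, fun c' d' hf' hor e => hh _ _ _ _ hf0 hf' hor e⟩
  obtain ⟨-, hsep, hl⟩ := hS T hT.tight σ i j hij
  obtain ⟨-, hp12, hp31, hp32⟩ := hl r hri hrj
  have hn := hN hk T hT σ i j r hij hri hrj
  have hcr : ∀ c d, Far T σ i j y1 y2 c d → c r = σ r μ := fun c d hf => by
    rw [hf.1.2 r hri hrj, hμ _ _ hf]
  have hall : ∀ b1 b2, b1 ≠ y1 → b2 ≠ y2 → sec T σ i j r x1 x2 (σ r μ) b1 b2 μ := by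
    intro b1 b2 hb1 hb2
    obtain ⟨c', d', hf', e1, e2⟩ := far_ex h4 hb1 hb2
    have := far_sec hri hrj h4 hf'
    rwa [hμ _ _ hf', e1, e2] at this
  have hcol : ∃ b2, b2 ≠ y2 ∧ ∀ (ρ : Perm α) p a, ρ b2 = x2 →
      ¬Is8 (p31 (sec T σ i j r) ρ) (σ r μ) (σ r p) x1 a μ y1 := by
    refine ⟨d j, hf.2.2, fun ρ p a hρ h8 => ?_⟩
    rw [hp31 ρ] at h8
    obtain ⟨b, hb1, hb2⟩ := exists_ne2 (α := α) (by omega) y1 (d i)
    obtain ⟨c', d', hf', e1, e2⟩ := far_ex h4 hb1 hf.2.2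
    have e := h1 hk T hT.tight hT.prod _ r i hri _ _ _ _ _ _ h8 c d c' d'
      (cell_col hf.1 (hρ.trans (far_c h4 hf).2.symm))
      (cell_col hf'.1 (by rw [e2, hρ, (far_c h4 hf').2]))
      (hcr _ _ hf) (far_c h4 hf).1 (hcr _ _ hf') (far_c h4 hf').1 r0 hrr hr0i
    have := hd c' d' hf' (Or.inr e2.symm) e
    exact hb2 (by rw [← e1, this])
  have hrow : ∃ b1, b1 ≠ y1 ∧ ∀ (ρ : Perm α) p a, ρ b1 = x1 →
      ¬Is8 (p32 (sec T σ i j r) ρ) (σ r μ) (σ r p) x2 a μ y2 := by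
    refine ⟨d i, hf.2.1, fun ρ p a hρ h8 => ?_⟩
    rw [hp32 ρ] at h8
    obtain ⟨b, hb1, hb2⟩ := exists_ne2 (α := α) (by omega) y2 (d j)
    obtain ⟨c', d', hf', e1, e2⟩ := far_ex h4 hf.2.1 hb1
    have e := h1 hk T hT.tight hT.prod _ r j hrj _ _ _ _ _ _ h8 c d c' d'
      (cell_row hf.1 (hρ.trans (far_c h4 hf).1.symm))
      (cell_row hf'.1 (by rw [e1, hρ, (far_c h4 hf').1]))
      (hcr _ _ hf) (far_c h4 hf).2 (hcr _ _ hf') (far_c h4 hf').2 r0 hrr hr0j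
    have := hd c' d' hf' (Or.inl e1.symm) e
    exact hb2 (by rw [← e2, this])
  rcases hL hk _ (σ r) x1 x2 y1 y2 μ hn (by rw [hp12]; exact h4) hall hcol hrow with
    hA | ⟨p, hp, hA, hB⟩
  · exact Or.inl ⟨μ, fun c d ha => hA _ _ _ ha.2.2.2 (arm_sec hri hrj ha)⟩
  · refine Or.inr ⟨p, μ, hp, hμ, fun c d ha => hA _ _ _ ha.2.2.2 (arm_sec hri hrj ha), ?_⟩
    intro c1 d1 c2 d2 ha1 ha2 e1 e2
    have s1 := arm_sec hri hrj ha1
    have s2 := arm_sec hri hrj ha2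
    rw [e1] at s1
    rw [e2] at s2
    have e := hB _ _ _ _ ha1.2.2.2 ha2.2.2.2 s1 s2
    exact (hsep c1 d1 c2 d2 ha1.1 ha2.1 (by
      rw [e.1, e.2, ha1.2.1, ha1.2.2.1, ha2.2.1, ha2.2.2.1]
      simp)).1

end Pool.Agent.MP_92191b_al.K6

end

section

/-! The structure of a centred family at a maximal set. -/

set_option linter.unusedSectionVars false

namespace Pool.Agent.MP_92191b_al.K6

open Finset Function Equiv

variable {ι α : Type} [Fintype ι] [DecidableEq ι] [Fintype α] [DecidableEq α]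

namespace KL

variable {C : Finset (ι → α)} {F : Finset ι → Prop} {J : ℕ}

theorem mem_df {c z : ι → α} {r : ι} : r ∈ df c z ↔ c r ≠ z r := by simp [df]

theorem far (hC : Cen C F) (down : ∀ V V', V' ⊆ V → F V → F V')
    (hJ : ∃ V V', F V ∧ F V' ∧ (V ∪ V').card = J) {c c' : ι → α} (hc : c ∈ C) (hc' : c' ∈ C)
    (h : hammingDist c c' ≤ J) : c = c' := by
  obtain ⟨V, V', hV, hV', hJ⟩ := hJ
  obtain ⟨U, hU, hcard⟩ := exists_subset_card_eq (hJ ▸ h : hammingDist c c' ≤ (V ∪ V').card)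
  have e : U ∩ V ∪ U \ V = U := by
    ext r
    simp only [mem_union, mem_inter, mem_sdiff]
    tauto
  refine hC.sep c hc c' hc' (U ∩ V) (U \ V) (down _ _ inter_subset_right hV)
    (down _ _ ?_ hV') ?_ (by rw [e, hcard])
  · intro r hr
    rw [mem_sdiff] at hr
    exact (mem_union.1 (hU hr.1)).resolve_left hr.2
  · rw [← hcard]
    refine card_le_card fun r hr => ?_
    simp only [mem_symmDiff, mem_inter, mem_sdiff] at hr
    tauto

theorem cover (hC : Cen C F) (z : ι → α) : ∃ c ∈ C, F (df c z) := by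
  obtain ⟨c, hc, h⟩ := hC.ex z (Equiv.refl ι)
  exact ⟨c, hc, by simpa using h⟩

end KL

open KL in
theorem kl (hS : StmtCSec ι α) (hCK : StmtCK α) : StmtKL ι α := by
  intro hk C F J hC down hle hJ V l hV hmax hl
  have uniq := fun z => (hS C F hC z).1
  obtain ⟨w⟩ : Nonempty α := Fintype.card_pos_iff.1 (by omega)
  obtain ⟨c0, hc0, -⟩ := cover hC fun _ => w
  choose o ho using exists_ne1 (α := α) (by omega)
  obtain ⟨z, hz⟩ : ∃ z : ι → α, df c0 z = V := by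
    refine ⟨fun r => if r ∈ V then o (c0 r) else c0 r, ?_⟩
    ext r
    by_cases hr : r ∈ V <;> simp [mem_df, hr, (ho _).symm]
  have hzl : c0 l = z l := by
    by_contra h
    exact hl (hz ▸ mem_df.2 h)
  choose c hc hF using fun a => cover hC (update z l a)
  obtain ⟨T, hT⟩ : ∃ T : α → Finset ι, ∀ a r, r ∈ T a ↔ r ≠ l ∧ c a r ≠ z r :=
    ⟨fun a => (df (c a) z).erase l, fun a r => by simp [mem_df]⟩
  have hFT : ∀ a, F (T a) := fun a => down _ _ (fun r hr => by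
    rw [hT] at hr
    rw [mem_df, update_of_ne hr.1]
    exact hr.2) (hF a)
  have hlT : ∀ a, l ∉ T a := fun a h => ((hT a l).1 h).1 rfl
  have hcl : ∀ a, c a l = a := by
    intro a
    by_contra h
    have sub : ∀ r, r = l ∨ c a r ≠ z r → r ∈ df (c a) (update z l a) := by
      intro r hr
      by_cases e : r = l
      · rw [e, mem_df, update_self]
        exact h
      · rw [mem_df, update_of_ne e]
        exact hr.resolve_left e
    have e : c a = c0 := uniq z _ (hc a) _ hc0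
      (down _ _ (fun r hr => sub r (Or.inr (mem_df.1 hr))) (hF a)) (hz ▸ hV)
    refine hmax l hl (down _ _ (fun r hr => sub r ?_) (hF a))
    rw [mem_insert, ← hz, mem_df, ← e] at hr
    exact hr
  have hca0 : c (z l) = c0 := uniq z _ (hc _) _ hc0 (by simpa using hF (z l)) (hz ▸ hV)
  have hT0 : T (z l) = V := by
    ext r
    rw [hT, hca0, ← mem_df, hz]
    exact ⟨fun h => h.2, fun h => ⟨fun e => hl (e ▸ h), h⟩⟩
  have two : ∀ a a', a ≠ a' → hammingDist (c a) (c a') = J + 1 ∧ (T a ∪ T a').card = J := by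
    intro a a' h
    have h1 : ¬hammingDist (c a) (c a') ≤ J := fun h' =>
      h (by rw [← hcl a, far hC down hJ (hc a) (hc a') h', hcl])
    have h2 : hammingDist (c a) (c a') ≤ (insert l (T a ∪ T a')).card := by
      refine card_le_card fun r hr => ?_
      simp only [mem_filter, mem_univ, true_and] at hr
      simp only [mem_insert, mem_union, hT]
      by_cases e : r = l
      · exact Or.inl e
      · by_cases e' : c a r = z r
        · exact Or.inr (Or.inr ⟨e, fun h => hr (e'.trans h.symm)⟩)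
        · exact Or.inr (Or.inl ⟨e, e'⟩)
    have h3 := card_insert_le l (T a ∪ T a')
    have h4 := hle _ _ (hFT a) (hFT a')
    omega
  have tri : ∀ r, r ≠ l → (∀ a, r ∉ T a) ∨
      (∃ a1, (∀ b, b ≠ a1 → r ∉ T b) ∧ Q3 (cpl C F z r l) (c a1 r) a1) ∨
      (r ∈ V ∧ ∀ a a', r ∉ T a → r ∉ T a' → a = a') := by
    intro r hr
    have hW : ∀ a, cpl C F z r l (c a r) a (nz (c a r) (z r)) false := fun a =>
      ⟨c a, hc a, T a, hFT a, rfl, hcl a, by simp [hT, nz, hr], by simp [hlT],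
        fun r' _ h => by simp [hT, h]⟩
    rcases hCK hk _ (z r) (fun a => c a r) ((hS C F hC z).2.1 r l hr) hW with
      h | ⟨a1, h, h'⟩ | ⟨a0, a1, -, -, -, -, -, -, h⟩ | ⟨τ, h, h'⟩
    · exact Or.inl fun a ha => ((hT a r).1 ha).2 (h a)
    · exact Or.inr (Or.inl ⟨a1, fun b hb hb' => ((hT b r).1 hb').2 (h.1 b hb), h'⟩)
    · have u : cpl C F z r l (c a0 r) a0 false false :=
        ⟨c a0, hc a0, (T a0).erase r, down _ _ (erase_subset _ _) (hFT a0), rfl, hcl a0,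
          by simp, by simp [hlT], fun r' h h' => by simp [hT, h, h']⟩
      simpa using (h _ _ _ _).1 u
    · have hm : ∀ a, r ∉ T a → τ a = z r := fun a ha => by
        by_contra e
        exact ha ((hT a r).2 ⟨hr, fun e' => e ((h a).symm.trans e')⟩)
      refine Or.inr (Or.inr ⟨?_, fun a a' ha ha' =>
        τ.injective ((hm a ha).trans (hm a' ha').symm)⟩)
      by_contra hrV
      obtain ⟨c', hc', V', hV', e1, e2, e3, -, e5⟩ :
        cpl C F z r l (z r) (z l) true false := (h' _ _ _ _).2 ⟨(hm _ (hT0 ▸ hrV)).symm, rfl⟩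
      have sub : df c' z ⊆ V' := fun r' hr' => by
        rw [mem_df] at hr'
        exact (e5 r' (fun e => hr' (e ▸ e1)) fun e => hr' (e ▸ e2)).2 hr'
      have e : c' = c0 := uniq z _ hc' _ hc0 (down _ _ sub hV') (hz ▸ hV)
      rw [e, hz] at sub
      exact hmax r hrV (down _ _ (insert_subset (e3.2 rfl) sub) hV')
  obtain ⟨P, hP⟩ : ∃ P : Finset ι, ∀ r, r ∈ P ↔ r ∈ V ∧ ∀ a, a ≠ z l → r ∉ T a :=
    ⟨V.filter fun r => ∀ a, a ≠ z l → r ∉ T a, fun r => by simp⟩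
  have hPV : P ⊆ V := fun r hr => ((hP r).1 hr).1
  have hne : ∀ r ∈ V, r ≠ l := fun r hr e => hl (e ▸ hr)
  have dis : ∀ a a', a ≠ a' → Disjoint (T a \ V) (T a' \ V) := by
    intro a a' h
    rw [Finset.disjoint_left]
    intro r h1 h2
    rw [mem_sdiff] at h1 h2
    rcases tri r ((hT a r).1 h1.1).1 with h3 | ⟨a1, h3, -⟩ | ⟨h3, -⟩
    · exact h3 a h1.1
    · by_cases e : a = a1
      · exact h3 a' (fun e' => h (e.trans e'.symm)) h2.1
      · exact h3 a e h1.1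
    · exact h1.2 h3
  have hN : ∀ j ∈ V \ P, ∀ a a', j ∉ T a → j ∉ T a' → a = a' := by
    intro j hj
    rw [mem_sdiff, hP] at hj
    have hj0 : j ∈ T (z l) := hT0 ▸ hj.1
    rcases tri j (hne j hj.1) with h3 | ⟨a1, h3, -⟩ | ⟨-, h3⟩
    · exact absurd hj0 (h3 _)
    · refine absurd ⟨hj.1, fun a ha => h3 a fun e => ?_⟩ hj.2
      exact h3 (z l) (fun e' => ha (e.trans e'.symm)) hj0
    · exact h3
  have hn : ∀ a, a ≠ z l → V.card + (T a \ V).card = J := by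
    intro a ha
    have := (two a (z l) ha).2
    rw [hT0, ← card_sdiff_add_card] at this
    omega
  have hn' : ∀ a, a ≠ z l → (T a \ V).card = P.card := by
    intro a ha
    obtain ⟨a', e1, e2⟩ := exists_ne2 (by omega) (z l) a
    have e : T a ∪ T a' = (V \ P) ∪ ((T a \ V) ∪ (T a' \ V)) := by
      ext r
      have k1 := hN r
      have k2 := hP r
      simp only [mem_union, mem_sdiff] at k1 ⊢
      constructor
      · rintro (h | h) <;> by_cases hr : r ∈ V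
        · exact Or.inl ⟨hr, fun hp => (k2.1 hp).2 a ha h⟩
        · exact Or.inr (Or.inl ⟨h, hr⟩)
        · exact Or.inl ⟨hr, fun hp => (k2.1 hp).2 a' e1 h⟩
        · exact Or.inr (Or.inr ⟨h, hr⟩)
      · rintro (h | h | h)
        · by_contra! h'
          exact e2 (k1 h a' a h'.2 h'.1)
        · exact Or.inl h.1
        · exact Or.inr h.1
    have d : Disjoint (V \ P) ((T a \ V) ∪ (T a' \ V)) := by
      rw [Finset.disjoint_left]
      intro r h1 h2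
      simp only [mem_union, mem_sdiff] at h1 h2
      tauto
    have h1 := (two a a' e2.symm).2
    rw [e, card_union_of_disjoint d, card_union_of_disjoint (dis a a' e2.symm)] at h1
    have h2 := hn a ha
    have h3 := hn a' e1
    have h4 := card_sdiff_add_card_eq_card hPV
    omega
  obtain ⟨a, ha⟩ := exists_ne1 (by omega) (z l)
  refine ⟨⟨_, hc a, _, hc (z l), (two a _ ha).1⟩, P, T, z l, hPV, by rw [← hn' a ha, hn a ha],
    fun j hj => ?_, fun a ha => ⟨hFT a, hlT a, ?_, hn' a ha⟩, fun a a' _ _ h => dis a a' h,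
    fun j hj a a' _ _ => hN j hj a a'⟩
  · rw [hP] at hj
    have hjl := hne j hj.1
    have hj0 : j ∈ T (z l) := hT0 ▸ hj.1
    rcases tri j hjl with h3 | ⟨a1, h3, h4⟩ | ⟨-, h3⟩
    · exact absurd hj0 (h3 _)
    · obtain rfl : z l = a1 := by
        by_contra e
        exact h3 _ e hj0
      rw [hca0] at h4
      obtain ⟨c', hc', V', hV', e1, e2, -, e4, e5⟩ :
        cpl C F z j l (c0 j) (z l) false true := (h4 _ _ _ _).2 (by simp)
      have e : c' = c0 := by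
        refine uniq (update z j (c0 j)) _ hc' _ hc0 (down _ _ (fun r hr => ?_) hV')
          (down _ _ (fun r hr => ?_) hV)
        · rw [mem_df] at hr
          have h1 : r ≠ j := by
            rintro rfl
            exact hr (by rw [update_self, e1])
          rw [update_of_ne h1] at hr
          exact (e5 r h1 fun e => hr (e ▸ e2)).2 hr
        · rw [mem_df] at hr
          have h1 : r ≠ j := by
            rintro rfl
            exact hr (by rw [update_self])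
          rw [update_of_ne h1] at hr
          exact hz ▸ mem_df.2 hr
      refine down _ _ (insert_subset (e4.2 rfl) fun r hr => ?_) hV'
      rw [mem_erase] at hr
      refine (e5 r hr.1 (hne r hr.2)).2 ?_
      rw [e, ← mem_df, hz]
      exact hr.2
    · obtain ⟨b, b1, b2⟩ := exists_ne2 (by omega) (z l) a
      exact absurd (h3 b a (hj.2 b b1) (hj.2 a ha)) b2
  · rw [Finset.disjoint_left]
    exact fun r h1 h2 => ((hP r).1 h2).2 a ha h1

end Pool.Agent.MP_92191b_al.K6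

end

section

/-! Fibres of the second code along a coordinate. -/

set_option linter.unusedSectionVars false

namespace Pool.Agent.MP_92191b_al.K6

open Finset Function Equiv

variable {ι α : Type} [Fintype ι] [DecidableEq ι] [Fintype α] [DecidableEq α]

namespace Lab

/-- The pairs matched by `σ` outside the coordinate `j`. -/
def Mt (C D : Finset (ι → α)) (σ : ι → Perm α) (j : ι) (c d : ι → α) : Prop :=
  c ∈ C ∧ d ∈ D ∧ ∀ r, r ≠ j → c r = σ r (d r)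

variable {C D : Finset (ι → α)} {σ : ι → Perm α} {j : ι}

theorem good (hC : StmtCnt ι α) (hk : 4 ≤ Fintype.card α) (h : GP C D) :
    Good fun c d => c ∈ C ∧ d ∈ D :=
  ⟨hC.2.2.1 C D (Fintype.card_pos_iff.1 (by omega)) h.sep h.big,
    fun c c' _ h1 h2 => h.no1 c h1.1 c' h2.1, fun _ _ _ _ h1 h2 => ⟨h1.1, h2.2⟩⟩

theorem key (hT : Tight fun c d => c ∈ C ∧ d ∈ D) {c d c' d' : ι → α} (h : Mt C D σ j c d)
    (h' : Mt C D σ j c' d') (he : c j = c' j ↔ d j = d' j) : c = c' ∧ d = d' := by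
  refine hT.sep c d c' d' ⟨h.1, h.2.1⟩ ⟨h'.1, h'.2.1⟩ ?_
  unfold hammingDist
  congr 1
  refine filter_congr fun r _ => ?_
  by_cases hr : r = j
  · rw [hr]; exact he.not
  · rw [h.2.2 r hr, h'.2.2 r hr]
    exact (σ r).apply_eq_iff_eq.not

theorem Mt.upd {c d : ι → α} (h : Mt C D σ j c d) {v : α} (hv : v ∈ Fib D j d) :
    Mt C D σ j c (update d j v) :=
  ⟨h.1, hv, fun r hr => by rw [update_of_ne hr]; exact h.2.2 r hr⟩

theorem fib_upd (x : ι → α) (v : α) : Fib D j (update x j v) = Fib D j x := by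
  ext w
  simp only [Fib, Set.mem_ofPred_eq, update_idem]

theorem self_mem {d : ι → α} (h : d ∈ D) : d j ∈ Fib D j d := by
  simpa [Fib] using h

theorem kline (hk : 4 ≤ Fintype.card α) (hT : Tight fun c d => c ∈ C ∧ d ∈ D) {y : α}
    {c d : α → ι → α} (h : KLine (fun c d => c ∈ C ∧ d ∈ D) σ j y c d) {c' d' : ι → α}
    (h' : Mt C D σ j c' d') : Fib D j d' = {y} := by
  have h1 : ∀ c' d', Mt C D σ j c' d' → d' j = y := by
    intro c' d' h'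
    by_contra hne
    obtain ⟨a, ha⟩ := exists_ne1 (by omega) (c' j)
    obtain ⟨⟨a1, a2⟩, a3, a4, a5⟩ := h a
    have := (key hT h' ⟨a1, a2, a5⟩ (by
      rw [a3, a4]; exact iff_of_false (Ne.symm ha) hne)).1
    exact ha (by rw [this, a3])
  ext v
  refine ⟨fun hv => ?_, fun hv => ?_⟩
  · simpa using h1 _ _ (h'.upd hv)
  · rw [Set.mem_singleton_iff.1 hv, ← h1 _ _ h']
    exact self_mem h'.2.1

theorem rline (hk : 4 ≤ Fintype.card α) (hT : Tight fun c d => c ∈ C ∧ d ∈ D) {x : α}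
    {c d : α → ι → α} (h : RLine (fun c d => c ∈ C ∧ d ∈ D) σ j x c d) {c' d' : ι → α}
    (h' : Mt C D σ j c' d') : c' = c (d' j) ∧ d' = d (d' j) := by
  have h1 : c' j = x := by
    by_contra hne
    obtain ⟨b, hb⟩ := exists_ne1 (by omega) (d' j)
    obtain ⟨⟨a1, a2⟩, a3, a4, a5⟩ := h b
    have := (key hT h' ⟨a1, a2, a5⟩ (by
      rw [a3, a4]; exact iff_of_false hne (Ne.symm hb))).1
    exact hne (by rw [this, a3])
  obtain ⟨⟨a1, a2⟩, a3, a4, a5⟩ := h (d' j)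
  exact key hT h' ⟨a1, a2, a5⟩ (by rw [a3, a4]; exact iff_of_true h1 rfl)

theorem rfib (hk : 4 ≤ Fintype.card α) (hT : Tight fun c d => c ∈ C ∧ d ∈ D) {x : α}
    {c d : α → ι → α} (h : RLine (fun c d => c ∈ C ∧ d ∈ D) σ j x c d) (b v : α) :
    v ∈ Fib D j (d b) ↔ ∀ r, r ≠ j → d b r = d v r := by
  refine ⟨fun hv r hr => ?_, fun hv => ?_⟩
  · obtain ⟨⟨a1, a2⟩, -, -, a5⟩ := h b
    have h1 := (rline hk hT h (Mt.upd ⟨a1, a2, a5⟩ hv)).2
    rw [update_self] at h1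
    rw [← h1, update_of_ne hr]
  · have e : update (d b) j v = d v := by
      funext r
      by_cases hr : r = j
      · rw [hr, update_self, (h v).2.2.1]
      · rw [update_of_ne hr, hv r hr]
    show update (d b) j v ∈ D
    rw [e]
    exact (h v).1.2

/-- The three possible states of a line. -/
theorem state (hC : StmtCnt ι α) (hL : StmtLine ι α) (hk : 4 ≤ Fintype.card α) (h : GP C D)
    (σ : ι → Perm α) (j : ι) :
    (∃ y c d, KLine (fun c d => c ∈ C ∧ d ∈ D) σ j y c d) ∨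
    (∀ c d, Mt C D σ j c d → Fib D j d = Set.univ) ∨
    ∃ (b0 : α) (c d : α → ι → α), (∀ b, Mt C D σ j (c b) (d b)) ∧
      (∀ c' d', Mt C D σ j c' d' → c' = c (d' j) ∧ d' = d (d' j)) ∧
      (∀ b, b ≠ b0 → Fib D j (d b) = {b0}ᶜ) ∧ Fib D j (d b0) = {b0} ∧
      ∃ σ' c' d', KLine (fun c d => c ∈ C ∧ d ∈ D) σ' j b0 c' d' := by
  have hG := good hC hk h
  have hT := hG.tight
  rcases hL hk _ hG σ j with h1 | ⟨x, c, d, b0, h1, h2, h3⟩
  · exact Or.inl h1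
  by_cases hg : ∀ b b' r, r ≠ j → d b r = d b' r
  · refine Or.inr (Or.inl fun c' d' h' => ?_)
    rw [(rline hk hT h1 h').2]
    exact Set.eq_univ_of_forall fun v => (rfib hk hT h1 _ v).2 (hg _ _)
  have h4 : ∀ b, b ≠ b0 → ¬∀ r, r ≠ j → d b r = d b0 r := by
    intro b hb hh
    have h5 : ∀ b' r, r ≠ j → d b' r = d b0 r := by
      intro b' r hr
      by_cases hb' : b' = b0
      · rw [hb']
      · rw [h2 b' b hb' hb r hr, hh r hr]
    exact hg fun b1 b2 r hr => (h5 b1 r hr).trans (h5 b2 r hr).symm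
  refine Or.inr (Or.inr ⟨b0, c, d, fun b => ⟨(h1 b).1.1, (h1 b).1.2, (h1 b).2.2.2⟩,
    fun c' d' h' => rline hk hT h1 h', fun b hb => ?_, ?_, h3.resolve_left hg⟩)
  · ext v
    rw [rfib hk hT h1, Set.mem_compl_singleton_iff]
    exact ⟨fun hh hv => h4 b hb (hv ▸ hh), fun hv => h2 b v hb hv⟩
  · ext v
    rw [rfib hk hT h1, Set.mem_singleton_iff]
    refine ⟨fun hh => ?_, fun hv r _ => by rw [hv]⟩
    by_contra hv
    exact h4 v hv fun r hr => (hh r hr).symm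

theorem sing_ne (hk : 4 ≤ Fintype.card α) (a b : α) : ({a} : Set α) ≠ {b}ᶜ := by
  intro h
  obtain ⟨x, h1, h2⟩ := exists_ne2 (by omega) a b
  have h3 : x ∈ ({b}ᶜ : Set α) := h2
  rw [← h] at h3
  exact h1 h3

theorem univ_ne (hk : 4 ≤ Fintype.card α) (b : α) :
    (Set.univ : Set α) ≠ {b} ∧ (Set.univ : Set α) ≠ {b}ᶜ := by
  refine ⟨fun h => ?_, fun h => ?_⟩
  · obtain ⟨x, h1⟩ := exists_ne1 (by omega) b
    have h3 : x ∈ (Set.univ : Set α) := trivial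
    rw [h] at h3
    exact h1 h3
  · have h3 : b ∈ (Set.univ : Set α) := trivial
    rw [h] at h3
    exact h3 rfl

/-- The pairs of `C × X` matched by `σ` outside `j`. -/
def cnt (C X : Finset (ι → α)) (σ : ι → Perm α) (j : ι) : Finset ((ι → α) × (ι → α)) :=
  (C ×ˢ X).filter fun p => ∀ r ∈ univ.erase j, p.1 r = σ r (p.2 r)

theorem mem_cnt {X : Finset (ι → α)} {p : (ι → α) × (ι → α)} :
    p ∈ cnt C X σ j ↔ p.1 ∈ C ∧ p.2 ∈ X ∧ ∀ r, r ≠ j → p.1 r = σ r (p.2 r) := by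
  simp only [cnt, mem_filter, mem_product, mem_erase, mem_univ, and_true, and_assoc]

theorem sum_cnt {n : ℕ} (hn : ∀ c d : ι → α,
    (univ.filter fun σ : ι → Perm α => ∀ r ∈ univ.erase j, c r = σ r (d r)).card = n)
    (C X : Finset (ι → α)) : ∑ σ, (cnt C X σ j).card = C.card * n * X.card := by
  simp only [cnt, card_filter]
  rw [sum_comm]
  simp only [card_filter] at hn
  rw [sum_congr rfl fun p _ => hn p.1 p.2, sum_const, card_product, smul_eq_mul]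
  ring

end Lab

open Lab

theorem lab (hC : StmtCnt ι α) (hL : StmtLine ι α) : StmtLab ι α := by
  intro hk C D h σ j
  rcases state hC hL hk h σ j with ⟨y, c, d, h1⟩ | h1 | ⟨b0, c, d, -, h2, h3, h4, -⟩
  · exact Or.inr ⟨y, fun c' hc d' hd hm =>
      Or.inl (kline hk (good hC hk h).tight h1 ⟨hc, hd, hm⟩)⟩
  · exact Or.inl fun c' hc d' hd hm => h1 c' d' ⟨hc, hd, hm⟩
  · refine Or.inr ⟨b0, fun c' hc d' hd hm => ?_⟩
    rw [(h2 c' d' ⟨hc, hd, hm⟩).2]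
    by_cases hb : d' j = b0
    · rw [hb]; exact Or.inl h4
    · exact Or.inr (h3 _ hb)

theorem sw2 (hC : StmtCnt ι α) (hL : StmtLine ι α) : StmtSw2 ι α := by
  classical
  intro hk C D h j z hx
  have hT := (good hC hk h).tight
  obtain ⟨n, hn0, hn⟩ := hC.1 (univ.erase j)
  have hCp : 0 < C.card := by
    have h1 : 0 < Fintype.card α ^ Fintype.card ι := pow_pos (by omega) _
    exact Nat.pos_of_mul_pos_right (h1.trans_le h.big)
  generalize hX2 : (univ.filter fun x : ι → α => x j = z ∧ ∃ b, b ≠ z ∧ Fib D j x = {b}ᶜ) = X2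
  generalize hX1 : (univ.filter fun x : ι → α => x j = z ∧ ∃ b, b ≠ z ∧ Fib D j x = {b}) = X1
  have m2 : ∀ x, x ∈ X2 ↔ x j = z ∧ ∃ b, b ≠ z ∧ Fib D j x = {b}ᶜ := fun x => by
    rw [← hX2, mem_filter]; exact and_iff_right (mem_univ _)
  have m1 : ∀ x, x ∈ X1 ↔ x j = z ∧ ∃ b, b ≠ z ∧ Fib D j x = {b} := fun x => by
    rw [← hX1, mem_filter]; exact and_iff_right (mem_univ _)
  have k2 : ∀ σ p, p ∈ cnt C X2 σ j →
      Mt C D σ j p.1 p.2 ∧ p.2 j = z ∧ ∃ b, Fib D j p.2 = {b}ᶜ := by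
    intro σ p hp
    obtain ⟨a1, a2, a3⟩ := mem_cnt.1 hp
    obtain ⟨a4, b, a5, a6⟩ := (m2 _).1 a2
    have a7 : z ∈ Fib D j p.2 := by rw [a6]; exact a5.symm
    have a8 : update p.2 j z ∈ D := a7
    rw [← a4, update_eq_self] at a8
    exact ⟨⟨a1, a8, a3⟩, a4, b, a6⟩
  have k1 : ∀ σ c d b, Mt C D σ j c d → b ≠ z → Fib D j d = {b} → 0 < (cnt C X1 σ j).card := by
    intro σ c d b hm hb hf
    refine card_pos.2 ⟨(c, update d j z), mem_cnt.2 ⟨hm.1, (m1 _).2 ⟨update_self _ _ _, b, hb,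
      (fib_upd d z).trans hf⟩, fun r hr => ?_⟩⟩
    show c r = σ r (update d j z r)
    rw [update_of_ne hr]
    exact hm.2.2 r hr
  have kK : ∀ σ y c d, KLine (fun c d => c ∈ C ∧ d ∈ D) σ j y c d →
      (cnt C X2 σ j).card = 0 := by
    intro σ y c d hl
    refine card_eq_zero.2 (eq_empty_of_forall_notMem fun p hp => ?_)
    obtain ⟨a1, -, b, a3⟩ := k2 σ p hp
    exact sing_ne hk y b ((kline hk hT hl a1).symm.trans a3)
  have hle : ∀ σ, (cnt C X2 σ j).card ≤ (cnt C X1 σ j).card := by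
    intro σ
    rcases state hC hL hk h σ j with ⟨y, c, d, h1⟩ | h1 | ⟨b0, c, d, h1, h2, h3, h4, -⟩
    · rw [kK σ y c d h1]; exact Nat.zero_le _
    · rw [card_eq_zero.2 (eq_empty_of_forall_notMem fun p hp => ?_)]
      · exact Nat.zero_le _
      obtain ⟨a1, -, b, a3⟩ := k2 σ p hp
      exact (univ_ne hk b).2 ((h1 _ _ a1).symm.trans a3)
    · rcases (cnt C X2 σ j).eq_empty_or_nonempty with he | ⟨p, hp⟩
      · rw [he]; exact Nat.zero_le _
      have h5 : (cnt C X2 σ j).card ≤ 1 := by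
        refine (card_le_card fun q hq => ?_).trans (card_singleton (c z, d z)).le
        obtain ⟨a1, a2, -⟩ := k2 σ q hq
        have a3 := h2 _ _ a1
        rw [a2] at a3
        exact mem_singleton.2 (Prod.ext a3.1 a3.2)
      obtain ⟨a1, a2, b, a3⟩ := k2 σ p hp
      have a4 := (h2 _ _ a1).2
      rw [a2] at a4
      have h6 : b0 ≠ z := fun e => by
        rw [a4, ← e, h4] at a3
        exact sing_ne hk _ _ a3
      exact h5.trans (k1 σ _ _ b0 (h1 b0) h6 h4)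
  have hK : ∃ σ b c d, b ≠ z ∧ KLine (fun c d => c ∈ C ∧ d ∈ D) σ j b c d := by
    obtain ⟨x, b, hb, hf⟩ := hx
    obtain ⟨v, hv⟩ : ∃ v, v ∈ Fib D j x := by
      rcases hf with hf | hf
      · exact ⟨b, by rw [hf]; rfl⟩
      · obtain ⟨v, hv⟩ := exists_ne1 (by omega) b
        exact ⟨v, by rw [hf]; exact hv⟩
    obtain ⟨c0, hc0⟩ := card_pos.1 hCp
    have hm : Mt C D (fun r => swap (update x j v r) (c0 r)) j c0 (update x j v) :=
      ⟨hc0, hv, fun r _ => (swap_apply_left _ _).symm⟩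
    rw [← fib_upd x v] at hf
    rcases state hC hL hk h (fun r => swap (update x j v r) (c0 r)) j with
      ⟨y, c, d, h1⟩ | h1 | ⟨b0, c, d, -, h2, h3, h4, σ', c', d', h5⟩
    · rw [kline hk hT h1 hm] at hf
      rcases hf with hf | hf
      · exact ⟨_, y, c, d, by rw [Set.singleton_injective hf]; exact hb, h1⟩
      · exact absurd hf (sing_ne hk _ _)
    · rw [h1 _ _ hm] at hf
      exact absurd hf (not_or.2 (univ_ne hk b))
    · refine ⟨σ', b0, c', d', ?_, h5⟩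
      rw [(h2 _ _ hm).2, update_self] at hf
      by_cases hv0 : v = b0
      · rw [hv0, h4] at hf
        rcases hf with hf | hf
        · rw [Set.singleton_injective hf]; exact hb
        · exact absurd hf (sing_ne hk _ _)
      · rw [h3 v hv0] at hf
        rcases hf with hf | hf
        · exact absurd hf.symm (sing_ne hk _ _)
        · rw [Set.singleton_injective (compl_injective hf)]; exact hb
  obtain ⟨σ, b, c, d, hb, hl⟩ := hK
  have hlt : (cnt C X2 σ j).card < (cnt C X1 σ j).card := by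
    have hm : Mt C D σ j (c b) (d b) := ⟨(hl b).1.1, (hl b).1.2, (hl b).2.2.2⟩
    rw [kK σ b c d hl]
    exact k1 σ _ _ b hm hb (kline hk hT hl hm)
  have hs : ∑ σ, (cnt C X2 σ j).card < ∑ σ, (cnt C X1 σ j).card :=
    sum_lt_sum (fun σ _ => hle σ) ⟨σ, mem_univ _, hlt⟩
  rw [sum_cnt hn, sum_cnt hn] at hs
  exact lt_of_mul_lt_mul_left hs (Nat.zero_le _)

end Pool.Agent.MP_92191b_al.K6

end

section

/-! The colours of the arms of a cross plane. -/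

set_option linter.unusedSectionVars false

namespace Pool.Agent.MP_92191b_al.K6

open Finset Function Equiv

variable {ι α : Type} [Fintype ι] [DecidableEq ι] [Fintype α] [DecidableEq α]

namespace Lam

theorem is8_swap {P : R4 α} {a0 a1 x0 x1 y1 y2 : α} (h : Is8 P a0 a1 x0 x1 y1 y2) :
    Is8 (fun c1 c2 d1 d2 => P c1 c2 d2 d1) a1 a0 x0 x1 y2 y1 :=
  ⟨h.1.symm, h.2.1, fun c1 c2 d1 d2 => (h.2.2 c1 c2 d2 d1).trans (by tauto)⟩

/-- A line with one exceptional value. -/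
theorem line (hRL : StmtRL α) (hk : 4 ≤ Fintype.card α) {P : R4 α} (hP : Plane P) {σ : Perm α}
    {x y μ p : α} (hp : p ≠ μ) (h1 : ∀ b, b ≠ y → P (σ μ) x μ b) (h2 : P (σ p) x p y) :
    Is4 P (σ μ) x p y ∨ ∃ x', Is8 P (σ μ) (σ p) x x' μ y := by
  have e1 : ∀ b, b ≠ y → update (fun _ => μ) y p b = μ := fun b hb => update_of_ne hb _ _
  have e2 : update (fun _ => μ) y p y = p := update_self _ _ _
  have e3 : ∀ b, update (fun _ => μ) y p b ≠ μ → b = y := fun b hb => by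
    by_contra h
    exact hb (e1 b h)
  have hl : ∀ b, P (σ (update (fun _ => μ) y p b)) x (update (fun _ => μ) y p b) b := by
    intro b
    by_cases hb : b = y
    · rw [hb, e2]; exact h2
    · rw [e1 b hb]; exact h1 b hb
  generalize update (fun _ => μ) y p = e at e1 e2 e3 hl
  rcases hRL (by omega) P σ x e hP hl with ⟨w, hw⟩ | ⟨y0, w, hs, h⟩ |
    ⟨y0, y1, w, hne, hw, h0, h1', -⟩ | ⟨τ, hτ, -⟩
  · obtain ⟨z, hz⟩ := exists_ne1 (by omega) y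
    exact absurd (e2.symm.trans ((hw y).trans ((hw z).symm.trans (e1 z hz)))) hp
  · obtain ⟨z, hz, hz'⟩ := exists_ne2 (by omega) y y0
    have hw : w = μ := (hs.1 z hz').symm.trans (e1 z hz)
    subst hw
    have hy : y0 = y := e3 y0 hs.2
    subst hy
    rwa [e2] at h
  · obtain ⟨z, hz, hz0, hz1⟩ := exists_ne3 (by omega) y y0 y1
    have hw' : w = μ := (hw z hz0 hz1).symm.trans (e1 z hz)
    subst hw'
    exact absurd ((e3 y0 h0).trans (e3 y1 h1').symm) hne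
  · obtain ⟨z, hz⟩ := exists_ne1 (by omega) y
    obtain ⟨z', hz', hzz⟩ := exists_ne2 (by omega) y z
    exact absurd (τ.injective ((hτ z').symm.trans ((e1 z' hz').trans
      ((e1 z hz).symm.trans (hτ z))))) hzz

variable {Q : R6 α} {σ : Perm α} {x1 x2 y1 y2 μ a p : α}

/-- The planes through a column and the exceptional arm cell are crosses. -/
theorem cross (hRL : StmtRL α) (hk : 4 ≤ Fintype.card α) (hQ : Nice Q)
    (hfar : ∀ b1 b2, b1 ≠ y1 → b2 ≠ y2 → Q x1 x2 (σ μ) b1 b2 μ)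
    (hno : ∃ b2, b2 ≠ y2 ∧
      ∀ (ρ : Perm α) p a, ρ b2 = x2 → ¬Is8 (p31 Q ρ) (σ μ) (σ p) x1 a μ y1)
    (ha : a ≠ x2) (hp : p ≠ μ) (hu : Q x1 a (σ p) y1 y2 p) {b : α} (hb : b ≠ y2) {ρ : Perm α}
    (r1 : ρ b = x2) (r2 : ρ y2 = a) : Is4 (p31 Q ρ) (σ μ) x1 p y1 := by
  have key : ∀ (b : α) (ρ : Perm α), b ≠ y2 → ρ b = x2 → ρ y2 = a →
      Is4 (p31 Q ρ) (σ μ) x1 p y1 ∨ ∃ x', Is8 (p31 Q ρ) (σ μ) (σ p) x1 x' μ y1 :=
    fun b ρ hb r1 r2 => line hRL hk (hQ.sec.plane31 ρ) hp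
      (fun b1 hb1 => ⟨b, r1 ▸ hfar b1 b hb1 hb⟩) ⟨y2, r2 ▸ hu⟩
  refine (key b ρ hb r1 r2).resolve_right ?_
  rintro ⟨x', hx⟩
  obtain ⟨b2, hb2, hno⟩ := hno
  obtain ⟨ρ0, s1, s2⟩ := exists_perm2 hb2 ha.symm
  have h4 := (key b2 ρ0 hb2 s1 s2).resolve_right fun ⟨x'', h⟩ => hno ρ0 p x'' s1 h
  obtain ⟨d3, hd, hd'⟩ := exists_ne2 (by omega) μ p
  obtain ⟨d2, hc⟩ := (hx.2.2 (σ p) x1 d3 y1).2 (Or.inr (Or.inl ⟨Or.inr ⟨rfl, rfl⟩, hd, rfl⟩))
  have hm : d2 = y2 := hQ.mono (d12 (s13 (s12 Q))) Orb.refl.s12.s13.d12 ρ _ _ _ _ _ _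
    (is8_swap hx) d3 p d2 y2 hc (by rw [r2]; exact hu)
  rw [hm, r2, ← s2] at hc
  rcases (h4 (σ p) x1 d3 y1).1 ⟨y2, hc⟩ with h | h
  · exact hp (σ.injective h.1)
  · exact hd' h.2.1

/-- The block of far cells. -/
theorem block (hF : StmtF α) (hk : 4 ≤ Fintype.card α) (hQ : Nice Q)
    (hfar : ∀ b1 b2, b1 ≠ y1 → b2 ≠ y2 → Q x1 x2 (σ μ) b1 b2 μ)
    (hp : p ≠ μ) (hu : Q x1 a (σ p) y1 y2 p) {b : α} (hb : b ≠ y2) {ρ : Perm α}
    (r1 : ρ b = x2) (r2 : ρ y2 = a) (h4 : Is4 (p31 Q ρ) (σ μ) x1 p y1) {b1 b3 : α}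
    (h1 : b1 ≠ y1) (h3 : b3 ≠ p) : Q x1 x2 (σ μ) b1 b b3 := by
  have hf : ∀ b1, b1 ≠ y1 → s13 (s12 Q) (σ μ) x1 (ρ b) μ b1 b := fun b1 h => by
    rw [r1]; exact hfar b1 b h hb
  obtain ⟨z, hz, hz'⟩ := exists_ne2 (by omega) y1 b1
  rcases hF hk (s13 (s12 Q)) ρ _ _ _ _ (hQ.orb Orb.refl.s12.s13) h4 with
    ⟨ν, hν⟩ | ⟨m, hm, h | h⟩
  · obtain ⟨w, hw⟩ := (h4 (σ μ) x1 b3 b1).2 (Or.inl ⟨rfl, rfl, h3, h1⟩)
    have e : w = b := (hν b3 b1 w h3 h1 hw).trans (hν μ b1 b hp.symm h1 (hf b1 h1)).symm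
    rwa [e, r1] at hw
  · have e : y2 = m := hm (σ p) x1 y2 (Or.inl fun h => hp (σ.injective h))
      (by rw [r2]; exact hu)
    exact absurd (h μ z b μ b1 b hp.symm hz hp.symm h1 (hf z hz) (hf b1 h1) (Or.inl rfl)
      (e ▸ hb) (e ▸ hb)).2 hz'
  · exact absurd (h μ z b μ b1 b hp.symm hz hp.symm h1 (hf z hz) (hf b1 h1) (Or.inl rfl)
      rfl).2 hz'

/-- The main lemma on the other arm. -/
theorem arm (hRL : StmtRL α) (hB : StmtBlock α) (hF : StmtF α)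
    (hk : 4 ≤ Fintype.card α) (hQ : Nice Q)
    (hfar : ∀ b1 b2, b1 ≠ y1 → b2 ≠ y2 → Q x1 x2 (σ μ) b1 b2 μ)
    (hno : ∃ b2, b2 ≠ y2 ∧
      ∀ (ρ : Perm α) p a, ρ b2 = x2 → ¬Is8 (p31 Q ρ) (σ μ) (σ p) x1 a μ y1)
    (ha : a ≠ x2) (hp : p ≠ μ) (hu : Q x1 a (σ p) y1 y2 p) {a1 w : α} (h1 : a1 ≠ x1)
    (hw : Q a1 x2 (σ w) y1 y2 w) :
    w = p ∨ (w = μ ∧ ∀ b, b ≠ y2 → Q a1 x2 (σ μ) y1 b p) := by
  obtain ⟨b1, hb1⟩ := exists_ne1 (by omega) y1
  obtain ⟨ρ1, s1, s2⟩ := exists_perm2 hb1 h1.symm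
  have hc : p23 Q ρ1 x2 (σ w) y2 w := ⟨y1, s2 ▸ hw⟩
  rcases hB (by omega) (p23 Q ρ1) x2 (σ μ) y2 p (hQ.sec.plane23 ρ1) (fun b b3 hb h3 => by
    obtain ⟨ρ, r1, r2⟩ := exists_perm2 hb ha.symm
    exact ⟨b1, s1 ▸ block hF hk hQ hfar hp hu hb r1 r2
      (cross hRL hk hQ hfar hno ha hp hu hb r1 r2) hb1 h3⟩) with h | h
  · refine Or.inr ⟨σ.injective ((h _ _ _ _).1 hc).2, fun b hb => ?_⟩
    obtain ⟨δ, hδ⟩ := (h x2 (σ μ) b p).2 ⟨rfl, rfl⟩
    obtain ⟨ρ, r1, r2⟩ := exists_perm2 hb ha.symm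
    rcases (cross hRL hk hQ hfar hno ha hp hu hb r1 r2 (σ μ) (ρ1 δ) p δ).1
      ⟨b, r1 ▸ hδ⟩ with h' | h'
    · exact absurd rfl h'.2.2.1
    · rwa [h'.2.2, s2] at hδ
  · rcases (h _ _ _ _).1 hc with h' | h'
    · exact absurd rfl h'.2.2.1
    · exact Or.inl h'.2.2

theorem conf1 (hk : 4 ≤ Fintype.card α) (hQ : Sec Q) {a1 a1' c : α}
    (h : ∀ b, b ≠ y2 → Q a1 x2 c y1 b p) (h' : ∀ b, b ≠ y2 → Q a1' x2 c y1 b p) : a1 = a1' := by
  by_contra hne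
  obtain ⟨b, hb⟩ := exists_ne1 (by omega) y2
  obtain ⟨b', hb', hbb⟩ := exists_ne2 (by omega) y2 b
  exact hne (hQ.sep _ _ _ _ _ _ _ _ _ _ _ _ (h b hb) (h' b' hb')
    (by simp [nq_of_ne hne, nq_of_ne hbb.symm])).1

theorem main (hRL : StmtRL α) (hB : StmtBlock α) (hF : StmtF α)
    (hk : 4 ≤ Fintype.card α) (hQ : Nice Q) (h4 : Is4 (p12 Q σ) x1 x2 y1 y2)
    (hfar : ∀ b1 b2, b1 ≠ y1 → b2 ≠ y2 → Q x1 x2 (σ μ) b1 b2 μ)
    (hno : ∃ b2, b2 ≠ y2 ∧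
      ∀ (ρ : Perm α) p a, ρ b2 = x2 → ¬Is8 (p31 Q ρ) (σ μ) (σ p) x1 a μ y1)
    (hno' : ∃ b1, b1 ≠ y1 ∧
      ∀ (ρ : Perm α) p a, ρ b1 = x1 → ¬Is8 (p32 Q ρ) (σ μ) (σ p) x2 a μ y2)
    (ha : a ≠ x2) (hp : p ≠ μ) (hu : Q x1 a (σ p) y1 y2 p) :
    (∀ a1 a2 w, a1 ≠ x1 ∨ a2 ≠ x2 → Q a1 a2 (σ w) y1 y2 w → w = p ∨ w = μ) ∧
      ∀ a1 a2 a1' a2', a1 ≠ x1 ∨ a2 ≠ x2 → a1' ≠ x1 ∨ a2' ≠ x2 →
        Q a1 a2 (σ μ) y1 y2 μ → Q a1' a2' (σ μ) y1 y2 μ → a1 = a1' ∧ a2 = a2' := by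
  have A : ∀ {a1 w : α}, a1 ≠ x1 → Q a1 x2 (σ w) y1 y2 w →
      w = p ∨ (w = μ ∧ ∀ b, b ≠ y2 → Q a1 x2 (σ μ) y1 b p) :=
    arm hRL hB hF hk hQ hfar hno ha hp hu
  have ex : ∃ a1, a1 ≠ x1 ∧ Q a1 x2 (σ p) y1 y2 p := by
    obtain ⟨a1, h1⟩ := exists_ne1 (by omega) x1
    obtain ⟨a1', h1', hne⟩ := exists_ne2 (by omega) x1 a1
    obtain ⟨w, hw⟩ := (h4 a1 x2 y1 y2).2 (Or.inr ⟨Or.inr rfl, rfl, rfl⟩)
    obtain ⟨w', hw'⟩ := (h4 a1' x2 y1 y2).2 (Or.inr ⟨Or.inr rfl, rfl, rfl⟩)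
    rcases A h1 hw with e | ⟨-, e⟩
    · exact ⟨a1, h1, e ▸ hw⟩
    · rcases A h1' hw' with e' | ⟨-, e'⟩
      · exact ⟨a1', h1', e' ▸ hw'⟩
      · exact absurd (conf1 hk hQ.sec e' e) hne
  obtain ⟨a', ha', hu'⟩ := ex
  have B : ∀ {a2 w : α}, a2 ≠ x2 → Q x1 a2 (σ w) y1 y2 w →
      w = p ∨ (w = μ ∧ ∀ b, b ≠ y1 → Q x1 a2 (σ μ) b y2 p) :=
    arm (Q := s12 Q) hRL hB hF hk (hQ.orb Orb.refl.s12) (fun b2 b1 h2 h1 => hfar b1 b2 h1 h2)
      hno' ha' hp hu'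
  have cs : ∀ {a1 a2 w : α}, a1 ≠ x1 ∨ a2 ≠ x2 → Q a1 a2 (σ w) y1 y2 w →
      (a1 ≠ x1 ∧ a2 = x2) ∨ (a1 = x1 ∧ a2 ≠ x2) := by
    intro a1 a2 w h hw
    have := (h4 a1 a2 y1 y2).1 ⟨w, hw⟩
    tauto
  have mix : ∀ {a1 a2 : α}, a1 ≠ x1 → a2 ≠ x2 → Q a1 x2 (σ μ) y1 y2 μ →
      Q x1 a2 (σ μ) y1 y2 μ → False := by
    intro a1 a2 h1 h2 c1 c2
    obtain ⟨b, hb⟩ := exists_ne1 (by omega) y2
    obtain ⟨b', hb'⟩ := exists_ne1 (by omega) y1
    exact h1 (hQ.sec.sep _ _ _ _ _ _ _ _ _ _ _ _ (((A h1 c1).resolve_left hp.symm).2 b hb)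
      (((B h2 c2).resolve_left hp.symm).2 b' hb')
      (by simp [nq_of_ne h1, nq_of_ne h2.symm, nq_of_ne hb, nq_of_ne hb'.symm])).1
  refine ⟨fun a1 a2 w h hw => ?_, fun a1 a2 a1' a2' h h' c c' => ?_⟩
  · rcases cs h hw with ⟨h1, rfl⟩ | ⟨rfl, h2⟩
    · exact (A h1 hw).imp_right And.left
    · exact (B h2 hw).imp_right And.left
  · rcases cs h c with ⟨h1, rfl⟩ | ⟨rfl, h2⟩ <;> rcases cs h' c' with ⟨h1', e⟩ | ⟨e, h2'⟩ <;>
      rw [e] at c'
    · exact ⟨conf1 hk hQ.sec ((A h1 c).resolve_left hp.symm).2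
        ((A h1' c').resolve_left hp.symm).2, e.symm⟩
    · exact (mix h1 h2' c c').elim
    · exact (mix h1' h2 c' c).elim
    · exact ⟨e.symm, conf1 (Q := s12 Q) hk (hQ.sec.orb Orb.refl.s12)
        ((B h2 c).resolve_left hp.symm).2 ((B h2' c').resolve_left hp.symm).2⟩

end Lam

theorem lam (hRL : StmtRL α) (hB : StmtBlock α) (hF : StmtF α) : StmtLam α := by
  intro hk Q σ x1 x2 y1 y2 μ hQ h4 hfar hno hno'
  by_cases hall : ∀ a1 a2 w, a1 ≠ x1 ∨ a2 ≠ x2 → Q a1 a2 (σ w) y1 y2 w → w = μ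
  · exact Or.inl hall
  push Not at hall
  obtain ⟨a1, a2, p, h, hu, hp⟩ := hall
  refine Or.inr ⟨p, hp, ?_⟩
  by_cases e : a1 = x1
  · subst e
    exact Lam.main hRL hB hF hk hQ h4 hfar hno hno' (h.resolve_left fun h => h rfl) hp hu
  · have e2 : a2 = x2 := by
      have := (h4 a1 a2 y1 y2).1 ⟨p, hu⟩
      tauto
    subst e2
    have := Lam.main (Q := s12 Q) hRL hB hF hk (hQ.orb Orb.refl.s12) h4.flp
      (fun b2 b1 h2 h1 => hfar b1 b2 h1 h2) hno' hno e hp hu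
    exact ⟨fun c1 c2 w hc hw => this.1 c2 c1 w hc.symm hw,
      fun c1 c2 c1' c2' hc hc' hw hw' => (this.2 c2 c1 c2' c1' hc.symm hc'.symm hw hw').symm⟩

end Pool.Agent.MP_92191b_al.K6

end

section

/-! The hybrid plane with two exceptional colours does not occur. -/

set_option linter.unusedSectionVars false

namespace Pool.Agent.MP_92191b_al.K6

open Finset Function Equiv

variable {ι α : Type} [Fintype ι] [DecidableEq ι] [Fintype α] [DecidableEq α]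

namespace M8b

/-- A line with a repeated colour has that colour off two positions. -/
theorem pat (hRL : StmtRL α) (hk : 4 ≤ Fintype.card α) {P : R4 α} {σ : Perm α} {x : α}
    {e : α → α} (hP : Plane P) (he : ∀ y, P (σ (e y)) x (e y) y) {p p' : α} (hp : p ≠ p')
    (hpp : e p = e p') :
    ∃ y0 y1, (∀ y, y ≠ y0 → y ≠ y1 → e y = e p) ∧ (e y0 = e y1 → e y0 = e p) := by
  rcases hRL hk P σ x e hP he with ⟨w, hw⟩ | ⟨y0, w, ⟨h1, h2⟩, -⟩ |
    ⟨y0, y1, w, h0, h1, h2, h3, h4⟩ | ⟨τ, h1, -⟩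
  · exact ⟨p, p, fun y _ _ => (hw y).trans (hw p).symm, fun _ => rfl⟩
  · have hw : e p = w := by
      by_cases h : p = y0
      · exact hpp.trans (h1 p' fun h' => hp (h.trans h'.symm))
      · exact h1 p h
    exact ⟨y0, p, fun y hy _ => (h1 y hy).trans hw.symm, fun h => h⟩
  · have hne : e y0 ≠ e y1 := h4.1
    have hw : e p = w := by
      by_contra hc
      have hc' : e p' ≠ w := fun h => hc (hpp.trans h)
      have q1 : p = y0 ∨ p = y1 := by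
        by_contra! q
        exact hc (h1 p q.1 q.2)
      have q2 : p' = y0 ∨ p' = y1 := by
        by_contra! q
        exact hc' (h1 p' q.1 q.2)
      rcases q1 with rfl | rfl <;> rcases q2 with rfl | rfl
      · exact hp rfl
      · exact hne hpp
      · exact hne hpp.symm
      · exact hp rfl
    exact ⟨y0, y1, fun y hy hy' => (h1 y hy hy').trans hw.symm, fun h => absurd h hne⟩
  · rw [h1, h1] at hpp
    exact absurd (τ.injective hpp) hp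

theorem pat2 (hRL : StmtRL α) (hk : 4 ≤ Fintype.card α) {P : R4 α} {σ : Perm α} {x : α}
    {e : α → α} (hP : Plane P) (he : ∀ y, P (σ (e y)) x (e y) y) {p p' r r' : α} (hp : p ≠ p')
    (hpp : e p = e p') (hr : r ≠ r') (h1 : e r ≠ e p) (h2 : e r' ≠ e p) :
    (∀ y, y ≠ r → y ≠ r' → e y = e p) ∧ e r ≠ e r' := by
  obtain ⟨y0, y1, h3, h4⟩ := pat hRL hk hP he hp hpp
  have q1 : r = y0 ∨ r = y1 := by
    by_contra! q
    exact h1 (h3 r q.1 q.2)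
  have q2 : r' = y0 ∨ r' = y1 := by
    by_contra! q
    exact h2 (h3 r' q.1 q.2)
  rcases q1 with rfl | rfl <;> rcases q2 with rfl | rfl
  · exact absurd rfl hr
  · exact ⟨h3, fun h => h1 (h4 h)⟩
  · exact ⟨fun y hy hy' => h3 y hy' hy, fun h => h2 (h4 h.symm)⟩
  · exact absurd rfl hr

/-- The common data. -/
structure D (Q : R6 α) (σ : Perm α) (a0 a1 x0 x1 y1 y2 v z b0 : α) : Prop where
  rl : StmtRL α
  card : 6 ≤ Fintype.card α
  sec : Sec Q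
  is8 : Is8 (p12 Q σ) a0 a1 x0 x1 y1 y2
  hb : b0 ≠ y2
  hz : z ≠ v
  gv : ∀ b, b ≠ y2 → b ≠ b0 → Q a0 x0 (σ v) y1 b v
  gz : Q a0 x0 (σ z) y1 b0 z

variable {Q : R6 α} {σ : Perm α} {a0 a1 x0 x1 y1 y2 v z b0 : α}

theorem D.sw (h : D Q σ a0 a1 x0 x1 y1 y2 v z b0) : D (c12 Q) σ x0 x1 a0 a1 y1 y2 v z b0 where
  rl := h.rl
  card := h.card
  sec := h.sec.orb Orb.refl.c12
  is8 := ⟨h.is8.2.1, h.is8.1, fun c1 c2 d1 d2 => (h.is8.2.2 c2 c1 d1 d2).trans (by tauto)⟩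
  hb := h.hb
  hz := h.hz
  gv := h.gv
  gz := h.gz

theorem D.g3 (h : D Q σ a0 a1 x0 x1 y1 y2 v z b0) (b : α) (hb : b ≠ y1) :
    ∃ s, Q a0 x1 (σ s) b y2 s :=
  (h.is8.2.2 a0 x1 b y2).2 (Or.inr (Or.inl ⟨Or.inl ⟨rfl, rfl⟩, hb, rfl⟩))

theorem D.g4 (h : D Q σ a0 a1 x0 x1 y1 y2 v z b0) (b : α) (hb : b ≠ y1) :
    ∃ s, Q a1 x0 (σ s) b y2 s :=
  (h.is8.2.2 a1 x0 b y2).2 (Or.inr (Or.inl ⟨Or.inr ⟨rfl, rfl⟩, hb, rfl⟩))

theorem D.g5 (h : D Q σ a0 a1 x0 x1 y1 y2 v z b0) (a x : α) (h1 : a ≠ a0) (h2 : a ≠ a1)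
    (h3 : x ≠ x0) (h4 : x ≠ x1) : ∃ s, Q a x (σ s) y1 y2 s :=
  (h.is8.2.2 a x y1 y2).2 (Or.inr (Or.inr ⟨h1, h2, h3, h4, rfl, rfl⟩))

/-- Colours on the main line. -/
def col (y2 b0 t z v y : α) : α := if y = y2 then t else if y = b0 then z else v

theorem col_a (y2 b0 t z v : α) : col y2 b0 t z v y2 = t := by simp [col]

theorem col_b {y2 b0 : α} (h : b0 ≠ y2) (t z v : α) : col y2 b0 t z v b0 = z := by simp [col, h]

theorem col_c {y2 b0 y : α} (h : y ≠ y2) (h' : y ≠ b0) (t z v : α) : col y2 b0 t z v y = v := by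
  simp [col, h, h']

theorem D.line (h : D Q σ a0 a1 x0 x1 y1 y2 v z b0) {b t : α} {ρ : Perm α} (h1 : ρ y1 = a0)
    (h2 : ρ b = a1) (ht : Q a1 x0 (σ t) b y2 t) (y : α) :
    p32 Q ρ (σ (col y2 b0 t z v y)) x0 (col y2 b0 t z v y) y := by
  by_cases q1 : y = y2
  · subst q1
    rw [col_a]
    exact ⟨b, h2 ▸ ht⟩
  · by_cases q2 : y = b0
    · subst q2
      rw [col_b q1]
      exact ⟨y1, h1 ▸ h.gz⟩
    · rw [col_c q1 q2]
      exact ⟨y1, h1 ▸ h.gv y q1 q2⟩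

theorem D.noz4 (h : D Q σ a0 a1 x0 x1 y1 y2 v z b0) {b : α} (hb : b ≠ y1) :
    ¬Q a1 x0 (σ z) b y2 z := by
  intro ht
  have hk := h.card
  obtain ⟨ρ, h1, h2⟩ := exists_perm2 hb.symm h.is8.1
  obtain ⟨p, p1, p2⟩ := exists_ne2 (by omega) y2 b0
  obtain ⟨p', q1, q2, q3⟩ := exists_ne3 (by omega) y2 b0 p
  have := (pat2 h.rl (by omega) (h.sec.plane32 ρ) (h.line h1 h2 ht) q3.symm
    (by rw [col_c p1 p2, col_c q1 q2]) h.hb (by rw [col_c p1 p2, col_b h.hb]; exact h.hz)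
    (by rw [col_c p1 p2, col_a]; exact h.hz)).2
  rw [col_a, col_b h.hb] at this
  exact this rfl

theorem D.noz3 (h : D Q σ a0 a1 x0 x1 y1 y2 v z b0) {b : α} (hb : b ≠ y1) :
    ¬Q a0 x1 (σ z) b y2 z := h.sw.noz4 hb

/-- If the third group contains the colour `v`, it does so away from any given position. -/
theorem D.many3 (h : D Q σ a0 a1 x0 x1 y1 y2 v z b0) {β : α} (hβ : β ≠ y1)
    (hv : Q a0 x1 (σ v) β y2 v) (δ : α) : ∃ b, b ≠ y1 ∧ b ≠ δ ∧ Q a0 x1 (σ v) b y2 v := by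
  have hk := h.card
  obtain ⟨b, b1, b2⟩ := exists_ne2 (by omega) y2 b0
  obtain ⟨ρ, h1, h2⟩ := exists_perm2 b1 h.is8.2.1
  have hex : ∀ y, ∃ s, (y = y1 → s = v) ∧ (y = β → s = v) ∧
      (y ≠ y1 → Q a0 x1 (σ s) y y2 s) := by
    intro y
    by_cases q1 : y = y1
    · exact ⟨v, fun _ => rfl, fun _ => rfl, fun q => absurd q1 q⟩
    · by_cases q2 : y = β
      · exact ⟨v, fun _ => rfl, fun _ => rfl, fun _ => q2 ▸ hv⟩
      · obtain ⟨s, hs⟩ := h.g3 y q1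
        exact ⟨s, fun q => absurd q q1, fun q => absurd q q2, fun _ => hs⟩
  choose e e1 e2 e3 using hex
  have he : ∀ y, p31 Q ρ (σ (e y)) a0 (e y) y := by
    intro y
    by_cases q1 : y = y1
    · rw [e1 y q1, q1]
      exact ⟨b, h1 ▸ h.gv b b1 b2⟩
    · exact ⟨y2, h2 ▸ e3 y q1⟩
  obtain ⟨u0, u1, h3, -⟩ := pat h.rl (by omega) (h.sec.plane31 ρ) he hβ
    ((e2 β rfl).trans (e1 y1 rfl).symm)
  obtain ⟨c, c1, c2, c3, c4⟩ := exists_ne4 (by omega) y1 δ u0 u1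
  refine ⟨c, c1, c2, ?_⟩
  have := e3 c c1
  rwa [h3 c c3 c4, e2 β rfl] at this

/-- The cells given by the main plane. -/
theorem D.main (h : D Q σ a0 a1 x0 x1 y1 y2 v z b0) {b' t : α} (hb : b' ≠ y1) (htv : t ≠ v)
    (htz : t ≠ z) (ht : Q a1 x0 (σ t) b' y2 t) : ∃ ρ : Perm α, ρ y1 = a0 ∧ ρ b' = a1 ∧
      (∀ a3, a3 ≠ σ v → ∃ δ, Q (ρ δ) x0 a3 δ b0 z) ∧
      (∀ a3, a3 ≠ σ v → ∃ δ, Q (ρ δ) x0 a3 δ y2 t) ∧
      ∀ a2, a2 ≠ x0 → ∃ δ, Q (ρ δ) a2 (σ v) δ y2 z := by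
  have hk := h.card
  obtain ⟨ρ, h1, h2⟩ := exists_perm2 hb.symm h.is8.1
  obtain ⟨p, p1, p2⟩ := exists_ne2 (by omega) y2 b0
  have ea := col_a y2 b0 t z v
  have eb := col_b h.hb t z v
  have ec := col_c p1 p2 t z v
  have hzv := h.hz
  have hb0 := h.hb
  have key : Is8 (dual (p32 Q ρ)) z t y2 b0 (σ v) x0 := by
    rcases h.rl (by omega) _ σ x0 _ (h.sec.plane32 ρ) (h.line h1 h2 ht) with ⟨w, hw⟩ |
      ⟨u0, w, ⟨q1, -⟩, -⟩ | ⟨u0, u1, w, q0, q1, q2, q3, q4⟩ | ⟨τ, q1, -⟩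
    · exact absurd (ea.symm.trans ((hw y2).trans ((hw b0).symm.trans eb))) htz
    · exfalso
      by_cases r1 : y2 = u0
      · exact hzv (eb.symm.trans ((q1 b0 (r1 ▸ hb0)).trans ((q1 p (r1 ▸ p1)).symm.trans ec)))
      · by_cases r2 : b0 = u0
        · exact htv (ea.symm.trans ((q1 y2 r1).trans ((q1 p (r2 ▸ p2)).symm.trans ec)))
        · exact htz (ea.symm.trans ((q1 y2 r1).trans ((q1 b0 r2).symm.trans eb)))
    · obtain ⟨c, c1, c2, c3, c4⟩ := exists_ne4 (by omega) y2 b0 u0 u1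
      have hw : w = v := (q1 c c3 c4).symm.trans (col_c c1 c2 t z v)
      subst hw
      have r1 : y2 = u0 ∨ y2 = u1 := by
        by_contra! r
        exact htv (ea.symm.trans (q1 y2 r.1 r.2))
      have r2 : b0 = u0 ∨ b0 = u1 := by
        by_contra! r
        exact hzv (eb.symm.trans (q1 b0 r.1 r.2))
      rcases r1 with r1 | r1 <;> rcases r2 with r2 | r2
      · exact absurd (r2.trans r1.symm) hb0
      · rw [← r1, ← r2, ea, eb] at q4
        exact q4.swap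
      · rw [← r1, ← r2, ea, eb] at q4
        exact q4
      · exact absurd (r2.trans r1.symm) hb0
    · obtain ⟨p', s1, s2, s3⟩ := exists_ne3 (by omega) y2 b0 p
      exact absurd (τ.injective ((q1 p').symm.trans ((col_c s1 s2 t z v).trans
        (ec.symm.trans (q1 p))))) s3
  refine ⟨ρ, h1, h2, fun a3 h3 => ?_, fun a3 h3 => ?_, fun a2 h3 => ?_⟩
  · exact (key.2.2 z b0 a3 x0).2 (Or.inr (Or.inl ⟨Or.inl ⟨rfl, rfl⟩, h3, rfl⟩))
  · exact (key.2.2 t y2 a3 x0).2 (Or.inr (Or.inl ⟨Or.inr ⟨rfl, rfl⟩, h3, rfl⟩))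
  · exact (key.2.2 z y2 (σ v) a2).2 (Or.inl ⟨Or.inl ⟨rfl, rfl⟩, rfl, h3⟩)

/-- The third group does not contain the colour `v`. -/
theorem D.lemB (h : D Q σ a0 a1 x0 x1 y1 y2 v z b0) {b' t : α} (hb : b' ≠ y1) (htv : t ≠ v)
    (htz : t ≠ z) (ht : Q a1 x0 (σ t) b' y2 t) {β : α} (hβ : β ≠ y1) :
    ¬Q a0 x1 (σ v) β y2 v := by
  intro hv
  have hk := h.card
  obtain ⟨ρ, h1, -, H1, H2, H4⟩ := h.main hb htv htz ht
  have hzv := h.hz
  have hb0 := h.hb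
  have hx := h.is8.2.1
  have hρ : ∀ δ, δ ≠ y1 → ρ δ ≠ a0 := fun δ hδ q => hδ (ρ.injective (q.trans h1.symm))
  have five : ∀ a x, a ≠ a0 → a ≠ a1 → x ≠ x0 → x ≠ x1 → Q a x (σ z) y1 y2 z := by
    intro a x r1 r2 r3 r4
    obtain ⟨s, hs⟩ := h.g5 a x r1 r2 r3 r4
    have hsv : s ≠ v := by
      rintro rfl
      obtain ⟨δ, hδ⟩ := H4 x r3
      by_cases q : δ = y1
      · rw [q, h1] at hδ
        exact r1 (h.sec.sep _ _ _ _ _ _ _ _ _ _ _ _ hs hδ (by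
          simp [nq_of_ne r1, nq_of_ne hzv.symm])).1
      · obtain ⟨b, -, b2, b3⟩ := h.many3 hβ hv δ
        exact r4 (h.sec.sep _ _ _ _ _ _ _ _ _ _ _ _ hδ b3 (by
          simp [nq_of_ne (hρ δ q), nq_of_ne r4, nq_of_ne b2.symm, nq_of_ne hzv])).2.1
    by_cases hsz : s = z
    · exact hsz ▸ hs
    · exfalso
      have hs' : σ s ≠ σ v := fun q => hsv (σ.injective q)
      obtain ⟨δ, hδ⟩ := H1 (σ s) hs'
      by_cases q : δ = y1
      · rw [q, h1] at hδ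
        exact r1 (h.sec.sep _ _ _ _ _ _ _ _ _ _ _ _ hs hδ (by
          simp [nq_of_ne r1, nq_of_ne r3, nq_of_ne hb0.symm, nq_of_ne hsz])).1
      · obtain ⟨b, -, b2, b3⟩ := h.many3 hβ hv δ
        exact hx (h.sec.sep _ _ _ _ _ _ _ _ _ _ _ _ hδ b3 (by
          simp [nq_of_ne (hρ δ q), nq_of_ne hx, nq_of_ne b2.symm, nq_of_ne hzv, nq_of_ne hsv,
            nq_of_ne hb0])).2.1
  obtain ⟨δ, hδ⟩ := H2 (σ z) fun q => hzv (σ.injective q)
  by_cases q : δ = y1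
  · rw [q, h1] at hδ
    exact hx (h.sec.sep _ _ _ _ _ _ _ _ _ _ _ _ hδ hv (by
      simp [nq_of_ne hx, nq_of_ne hzv, nq_of_ne hβ.symm, nq_of_ne htv])).2.1
  · obtain ⟨a, r1, r2, r3⟩ := exists_ne3 (by omega) a0 a1 (ρ δ)
    obtain ⟨x, r4, r5⟩ := exists_ne2 (by omega) x0 x1
    exact r3 (h.sec.sep _ _ _ _ _ _ _ _ _ _ _ _ (five a x r1 r2 r4 r5) hδ (by
      simp [nq_of_ne r3, nq_of_ne r4, nq_of_ne (Ne.symm q), nq_of_ne htz.symm])).1

/-- A column of the fifth group with a repeated colour that does not occur in the third and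
fourth groups is constant. -/
theorem D.column (h : D Q σ a0 a1 x0 x1 y1 y2 v z b0) {x u : α} (r3 : x ≠ x0) (r4 : x ≠ x1)
    (n3 : ∀ b, b ≠ y1 → ¬Q a0 x1 (σ u) b y2 u) (n4 : ∀ b, b ≠ y1 → ¬Q a1 x0 (σ u) b y2 u)
    {p p' : α} (hp : p ≠ p') (p0 : p ≠ a0) (p1 : p ≠ a1) (p0' : p' ≠ a0) (p1' : p' ≠ a1)
    (hu : Q p x (σ u) y1 y2 u) (hu' : Q p' x (σ u) y1 y2 u) (a : α) (r1 : a ≠ a0)
    (r2 : a ≠ a1) : Q a x (σ u) y1 y2 u := by
  have hk := h.card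
  have ha := h.is8.1
  obtain ⟨β, hβ⟩ := exists_ne1 (by omega) y1
  obtain ⟨β', hβ1, hβ2⟩ := exists_ne2 (by omega) y1 β
  obtain ⟨ρ, h1, h2, h3⟩ := exists_perm3 hβ.symm hβ1.symm hβ2.symm r4 r3 h.is8.2.1.symm
  have hex : ∀ c, ∃ s, (c = p → s = u) ∧ (c = p' → s = u) ∧ (c = a0 → Q a0 x1 (σ s) β y2 s) ∧
      (c = a1 → Q a1 x0 (σ s) β' y2 s) ∧ (c ≠ a0 → c ≠ a1 → Q c x (σ s) y1 y2 s) := by
    intro c
    by_cases q0 : c = a0
    · obtain ⟨s, hs⟩ := h.g3 β hβ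
      exact ⟨s, fun q => absurd (q.symm.trans q0) p0, fun q => absurd (q.symm.trans q0) p0',
        fun _ => hs, fun q => absurd (q0.symm.trans q) ha, fun q => absurd q0 q⟩
    by_cases q1 : c = a1
    · obtain ⟨s, hs⟩ := h.g4 β' hβ1
      exact ⟨s, fun q => absurd (q.symm.trans q1) p1, fun q => absurd (q.symm.trans q1) p1',
        fun q => absurd q q0, fun _ => hs, fun _ q => absurd q1 q⟩
    by_cases q2 : c = p
    · exact ⟨u, fun _ => rfl, fun _ => rfl, fun q => absurd q q0, fun q => absurd q q1,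
        fun _ _ => q2 ▸ hu⟩
    by_cases q3 : c = p'
    · exact ⟨u, fun _ => rfl, fun _ => rfl, fun q => absurd q q0, fun q => absurd q q1,
        fun _ _ => q3 ▸ hu'⟩
    obtain ⟨s, hs⟩ := h.g5 c x q0 q1 r3 r4
    exact ⟨s, fun q => absurd q q2, fun q => absurd q q3, fun q => absurd q q0,
      fun q => absurd q q1, fun _ _ => hs⟩
  choose e e1 e2 e3 e4 e5 using hex
  have hP : Plane (dual (p31 (d12 Q) ρ)) := ((h.sec.orb Orb.refl.d12).plane31 ρ).dual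
  have he : ∀ c, dual (p31 (d12 Q) ρ) (σ⁻¹ (σ (e c))) y2 (σ (e c)) c := by
    intro c
    rw [show σ⁻¹ (σ (e c)) = e c by simp]
    by_cases q0 : c = a0
    · have := e3 c q0
      rw [← h2, ← q0] at this
      exact ⟨β, this⟩
    by_cases q1 : c = a1
    · have := e4 c q1
      rw [← h3, ← q1] at this
      exact ⟨β', this⟩
    have := e5 c q0 q1
    rw [← h1] at this
    exact ⟨y1, this⟩
  have k0 : σ (e a0) ≠ σ (e p) := by
    intro q
    have := e3 a0 rfl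
    rw [σ.injective q, e1 p rfl] at this
    exact n3 β hβ this
  have k1 : σ (e a1) ≠ σ (e p) := by
    intro q
    have := e4 a1 rfl
    rw [σ.injective q, e1 p rfl] at this
    exact n4 β' hβ1 this
  have k2 := (pat2 (e := fun c => σ (e c)) h.rl (by omega) hP he hp
    (by show σ (e p) = σ (e p'); rw [e1 p rfl, e2 p' rfl]) ha k0 k1).1 a r1 r2
  have := e5 a r1 r2
  rwa [σ.injective k2, e1 p rfl] at this

theorem D.lemD (h : D Q σ a0 a1 x0 x1 y1 y2 v z b0) {b' t : α} (hb : b' ≠ y1) (htv : t ≠ v)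
    (htz : t ≠ z) (ht : Q a1 x0 (σ t) b' y2 t) (n3 : ∀ b, b ≠ y1 → ¬Q a0 x1 (σ v) b y2 v)
    (n4 : ∀ b, b ≠ y1 → ¬Q a1 x0 (σ v) b y2 v) : False := by
  have hk := h.card
  obtain ⟨ρ, h1, h2, -, -, H4⟩ := h.main hb htv htz ht
  have hzv := h.hz
  have hx := h.is8.2.1
  have H : ∀ x, x ≠ x0 → x ≠ x1 → ∃ χ δ, χ ≠ a0 ∧ χ ≠ a1 ∧ δ ≠ y1 ∧ Q χ x (σ v) δ y2 z := by
    intro x r3 r4
    obtain ⟨δ, hδ⟩ := H4 x r3
    have q1 : δ ≠ y1 := by
      intro q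
      rw [q, h1] at hδ
      obtain ⟨s, hs⟩ := h.g3 b' hb
      have s1 : v ≠ s := fun q => n3 b' hb (q ▸ hs)
      have s2 : z ≠ s := fun q => h.noz3 hb (q ▸ hs)
      exact r4 (h.sec.sep _ _ _ _ _ _ _ _ _ _ _ _ hδ hs (by
        simp [nq_of_ne r4, nq_of_ne s1, nq_of_ne s2, nq_of_ne hb.symm])).2.1
    have q2 : δ ≠ b' := by
      intro q
      rw [q, h2] at hδ
      obtain ⟨b, b1, b2⟩ := exists_ne2 (by omega) y1 b'
      obtain ⟨s, hs⟩ := h.g4 b b1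
      have s1 : v ≠ s := fun q => n4 b b1 (q ▸ hs)
      have s2 : z ≠ s := fun q => h.noz4 b1 (q ▸ hs)
      exact r3 (h.sec.sep _ _ _ _ _ _ _ _ _ _ _ _ hδ hs (by
        simp [nq_of_ne r3, nq_of_ne s1, nq_of_ne s2, nq_of_ne b2.symm])).2.1
    exact ⟨ρ δ, δ, fun q => q1 (ρ.injective (q.trans h1.symm)),
      fun q => q2 (ρ.injective (q.trans h2.symm)), q1, hδ⟩
  have colv : ∀ x, x ≠ x0 → x ≠ x1 → ∀ a, a ≠ a0 → a ≠ a1 → Q a x (σ v) y1 y2 v := by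
    intro x r3 r4
    obtain ⟨χ, δ, c0, c1, hδ, hc⟩ := H x r3 r4
    have two : ∀ a, a ≠ a0 → a ≠ a1 → a ≠ χ → Q a x (σ v) y1 y2 v ∨ Q a x (σ z) y1 y2 z := by
      intro a r1 r2 r5
      obtain ⟨s, hs⟩ := h.g5 a x r1 r2 r3 r4
      by_cases s1 : s = v
      · exact Or.inl (s1 ▸ hs)
      by_cases s2 : s = z
      · exact Or.inr (s2 ▸ hs)
      exact absurd (h.sec.sep _ _ _ _ _ _ _ _ _ _ _ _ hs hc (by
        simp [nq_of_ne r5, nq_of_ne s1, nq_of_ne s2, nq_of_ne hδ.symm])).1 r5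
    have nz2 : ∀ p p', p ≠ p' → p ≠ a0 → p ≠ a1 → p' ≠ a0 → p' ≠ a1 →
        Q p x (σ z) y1 y2 z → Q p' x (σ z) y1 y2 z → False := by
      intro p p' hp p0 p1 p0' p1' hu hu'
      have := h.column r3 r4 (fun b q => h.noz3 q) (fun b q => h.noz4 q) hp p0 p1 p0' p1' hu hu'
        χ c0 c1
      exact hδ (h.sec.sep _ _ _ _ _ _ _ _ _ _ _ _ hc this (by
        simp [nq_of_ne hzv.symm, nq_of_ne hδ])).2.2.2.1
    obtain ⟨p, p0, p1, p2⟩ := exists_ne3 (by omega) a0 a1 χ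
    obtain ⟨q, q0, q1, q2, q3⟩ := exists_ne4 (by omega) a0 a1 χ p
    obtain ⟨r, r0, r1, r2, r5, r6⟩ := exists_ne5 (by omega) a0 a1 χ p q
    rcases two p p0 p1 p2 with hp | hp <;> rcases two q q0 q1 q2 with hq | hq
    · exact h.column r3 r4 n3 n4 q3 q0 q1 p0 p1 hq hp
    · rcases two r r0 r1 r2 with hr | hr
      · exact h.column r3 r4 n3 n4 r5 r0 r1 p0 p1 hr hp
      · exact (nz2 r q r6 r0 r1 q0 q1 hr hq).elim
    · rcases two r r0 r1 r2 with hr | hr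
      · exact h.column r3 r4 n3 n4 r6 r0 r1 q0 q1 hr hq
      · exact (nz2 r p r5 r0 r1 p0 p1 hr hp).elim
    · exact (nz2 q p q3 q0 q1 p0 p1 hq hp).elim
  obtain ⟨x, r3, r4⟩ := exists_ne2 (by omega) x0 x1
  obtain ⟨x', s3, s4, s5⟩ := exists_ne3 (by omega) x0 x1 x
  obtain ⟨χ, δ, -, -, hδ, hc⟩ := H x r3 r4
  obtain ⟨a, r0, r1, r2⟩ := exists_ne3 (by omega) a0 a1 χ
  exact r2 (h.sec.sep _ _ _ _ _ _ _ _ _ _ _ _ (colv x' s3 s4 a r0 r1) hc (by
    simp [nq_of_ne r2, nq_of_ne s5, nq_of_ne hδ.symm, nq_of_ne hzv.symm])).1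

end M8b

theorem m8b (hRL : StmtRL α) : StmtM8b α := by
  intro hk Q σ a0 a1 x0 x1 y1 y2 v z t b0 b' hQ h8 hb0 hzv htv htz hb' gv gz ht
  have h : M8b.D Q σ a0 a1 x0 x1 y1 y2 v z b0 := ⟨hRL, hk, hQ, h8, hb0, hzv, gv, gz⟩
  have n3 : ∀ b, b ≠ y1 → ¬Q a0 x1 (σ v) b y2 v := fun b hb => h.lemB hb' htv htz ht hb
  refine h.lemD hb' htv htz ht n3 fun b hb => ?_
  obtain ⟨s, hs⟩ := h.g3 b' hb'
  have s1 : s ≠ v := fun q => n3 b' hb' (q ▸ hs)
  have s2 : s ≠ z := fun q => h.noz3 hb' (q ▸ hs)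
  exact h.sw.lemB hb' s1 s2 hs hb

end Pool.Agent.MP_92191b_al.K6

end

section

/-! Separating a point from two points by a product of a cube and a ball. -/

set_option linter.unusedSectionVars false

namespace Pool.Agent.MP_92191b_al.K6

open Finset Function Equiv

variable {ι α : Type} [Fintype ι] [DecidableEq ι] [Fintype α] [DecidableEq α]

namespace SepB

def cnt (R E : Finset ι) (ζ x : ι → α) : ℕ := ∑ i ∈ R \ E, nq (x i) (ζ i)

theorem cnt_erase {R E : Finset ι} {i : ι} (hi : i ∈ R) (hE : E ⊆ R.erase i) (ζ x : ι → α)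
    (a : α) : cnt R E (update ζ i a) x = nq (x i) a + cnt (R.erase i) E ζ x := by
  have hiE : i ∉ E := fun h => by simpa using hE h
  have h1 : R \ E = insert i (R.erase i \ E) := by
    ext r
    simp only [mem_sdiff, mem_insert, mem_erase]
    constructor
    · rintro ⟨h, h'⟩
      by_cases hr : r = i
      · exact Or.inl hr
      · exact Or.inr ⟨⟨hr, h⟩, h'⟩
    · rintro (rfl | ⟨⟨_, h⟩, h'⟩)
      · exact ⟨hi, hiE⟩
      · exact ⟨h, h'⟩
  unfold cnt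
  rw [h1, sum_insert (by simp), update_self]
  congr 1
  refine sum_congr rfl fun r hr => ?_
  rw [update_of_ne]
  exact (mem_erase.1 (mem_sdiff.1 hr).1).1

theorem dev_eq (ζ : ι → α) (E : Finset ι) (x : ι → α) : dev ζ E x = cnt univ E ζ x := by
  unfold dev cnt
  rw [card_eq_sum_ones, sum_filter, ← sum_subset (subset_univ (univ \ E))]
  · refine sum_congr rfl fun r hr => ?_
    have := (mem_sdiff.1 hr).2
    by_cases h : x r = ζ r <;> simp [nq, h, this]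
  · intro r _ hr
    have : r ∈ E := by simpa using hr
    simp [this]

theorem card_filter_erase {R : Finset ι} (p : ι → Prop) [DecidablePred p] {i : ι} (hi : i ∈ R)
    (hp : p i) : ((R.erase i).filter p).card + 1 = (R.filter p).card := by
  rw [filter_erase, card_erase_add_one (mem_filter.2 ⟨hi, hp⟩)]

theorem fill (h2 : 2 ≤ Fintype.card α) (u v w : ι → α) (ε n : ℕ) : ∀ R : Finset ι,
    (R.filter fun i => u i ≠ v i).card ≤ ε + 2 * n → ε + 2 * n ≤ R.card →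
    ∃ E ⊆ R, E.card = ε ∧ ∃ ζ, cnt R E ζ u ≤ n ∧ cnt R E ζ v ≤ n ∧ n ≤ cnt R E ζ w := by
  induction n with
  | zero =>
    intro R h1 h3
    obtain ⟨E, hE1, hE2, hE3⟩ := exists_subsuperset_card_eq (filter_subset _ R) h1 h3
    refine ⟨E, hE2, by simpa using hE3, u, ?_, ?_, Nat.zero_le _⟩
    · simp [cnt]
    · refine le_of_eq (sum_eq_zero fun r hr => ?_)
      obtain ⟨hr1, hr2⟩ := mem_sdiff.1 hr
      have : u r = v r := by
        by_contra h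
        exact hr2 (hE1 (mem_filter.2 ⟨hr1, h⟩))
      simp [this]
  | succ n ih =>
    intro R h1 h3
    by_cases hV : 1 < (R.filter fun i => u i ≠ v i).card
    · obtain ⟨i, hi, j, hj, hij⟩ := one_lt_card.1 hV
      obtain ⟨hiR, hiV⟩ := mem_filter.1 hi
      obtain ⟨hjR, hjV⟩ := mem_filter.1 hj
      have hjR' : j ∈ R.erase i := mem_erase.2 ⟨hij.symm, hjR⟩
      have e1 := card_filter_erase (fun i => u i ≠ v i) hiR hiV
      have e2 := card_filter_erase (fun i => u i ≠ v i) hjR' hjV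
      have e3 := card_erase_add_one hiR
      have e4 := card_erase_add_one hjR'
      obtain ⟨E, hE, hEc, ζ, hu, hv, hw⟩ := ih ((R.erase i).erase j) (by omega) (by omega)
      have hE' : E ⊆ R.erase i := hE.trans (erase_subset _ _)
      have key : ∀ a b x, cnt R E (update (update ζ j b) i a) x =
          nq (x i) a + (nq (x j) b + cnt ((R.erase i).erase j) E ζ x) := fun a b x => by
        rw [cnt_erase hiR hE', cnt_erase hjR' hE]
      refine ⟨E, hE'.trans (erase_subset _ _), hEc, ?_⟩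
      by_cases hc : w i = v i ∧ w j = u j
      · refine ⟨update (update ζ j (v j)) i (u i), ?_, ?_, ?_⟩ <;> rw [key]
        · rw [nq_self, nq_of_ne hjV]; omega
        · rw [nq_self, nq_of_ne (Ne.symm hiV)]; omega
        · rw [hc.1, nq_of_ne (Ne.symm hiV)]; omega
      · refine ⟨update (update ζ j (u j)) i (v i), ?_, ?_, ?_⟩ <;> rw [key]
        · rw [nq_self, nq_of_ne hiV]; omega
        · rw [nq_self, nq_of_ne (Ne.symm hjV)]; omega
        · rcases not_and_or.1 hc with h | h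
          · rw [nq_of_ne h]; omega
          · rw [nq_of_ne h]; omega
    · obtain ⟨i, hi⟩ : R.Nonempty := card_pos.1 (by omega)
      have e3 := card_erase_add_one hi
      by_cases hV0 : (R.filter fun i => u i ≠ v i).card = 0
      · have e1 : ((R.erase i).filter fun i => u i ≠ v i).card ≤
            (R.filter fun i => u i ≠ v i).card :=
          card_le_card (filter_subset_filter _ (erase_subset _ _))
        obtain ⟨E, hE, hEc, ζ, hu, hv, hw⟩ := ih (R.erase i) (by omega) (by omega)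
        obtain ⟨a, ha⟩ := exists_ne1 h2 (w i)
        refine ⟨E, hE.trans (erase_subset _ _), hEc, update ζ i a, ?_, ?_, ?_⟩ <;>
          rw [cnt_erase hi hE]
        · have := nq_le (u i) a; omega
        · have := nq_le (v i) a; omega
        · rw [nq_of_ne ha.symm]; omega
      · obtain ⟨j, hj⟩ : (R.filter fun i => u i ≠ v i).Nonempty := card_pos.1 (by omega)
        obtain ⟨hjR, hjV⟩ := mem_filter.1 hj
        have e1 := card_filter_erase (fun i => u i ≠ v i) hjR hjV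
        have e4 := card_erase_add_one hjR
        obtain ⟨E, hE, hEc, ζ, hu, hv, hw⟩ := ih (R.erase j) (by omega) (by omega)
        obtain ⟨a, ha⟩ := exists_ne1 h2 (w j)
        refine ⟨E, hE.trans (erase_subset _ _), hEc, update ζ j a, ?_, ?_, ?_⟩ <;>
          rw [cnt_erase hjR hE]
        · have := nq_le (u j) a; omega
        · have := nq_le (v j) a; omega
        · rw [nq_of_ne ha.symm]; omega

end SepB

open SepB in
theorem sepB : StmtSepB ι α := by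
  intro h3 J e he hJ hm u v w huv hwu hwv hyp
  have hm' : J + 1 ≤ Fintype.card ι := by
    have : 3 * e ≤ Fintype.card α * e := Nat.mul_le_mul_right e h3
    omega
  have hV : (univ.filter fun i => u i ≠ v i).card ≤ J := huv
  have hcu : (univ : Finset ι).card = Fintype.card ι := card_univ
  have mem : ∀ (ζ : ι → α) (E : Finset ι) (x : ι → α), x ∈ AK ζ E e ↔ cnt univ E ζ x ≤ e := by
    intro ζ E x
    simp [AK, dev_eq]
  by_cases hA : ∃ i0, u i0 = v i0 ∧ w i0 ≠ u i0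
  · obtain ⟨i, hi1, hi2⟩ := hA
    have e3 := card_erase_add_one (mem_univ i)
    have e1 : ((univ.erase i).filter fun i => u i ≠ v i).card ≤
        (univ.filter fun i => u i ≠ v i).card :=
      card_le_card (filter_subset_filter _ (erase_subset _ _))
    obtain ⟨E, hE, hEc, ζ, hu, hv, hw⟩ :=
      fill (by omega) u v w (J - 2 * e) e (univ.erase i) (by omega) (by omega)
    refine ⟨update ζ i (u i), E, by omega, ?_, ?_, ?_⟩ <;> rw [mem, cnt_erase (mem_univ i) hE]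
    · rw [nq_self]; omega
    · rw [hi1, nq_self]; omega
    · rw [nq_of_ne hi2]; omega
  · have hB : ∀ i, u i = v i → w i = u i := fun i h => by
      by_contra h'
      exact hA ⟨i, h, h'⟩
    obtain ⟨i2, hi2⟩ := Function.ne_iff.1 hwu
    obtain ⟨i1, hi1⟩ := Function.ne_iff.1 hwv
    have hv2 : u i2 ≠ v i2 := fun h => hi2 (hB _ h)
    have hv1 : u i1 ≠ v i1 := fun h => hi1 ((hB _ h).trans h)
    have hne : u ≠ v := fun h => hv2 (congrFun h i2)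
    obtain ⟨i, j, hij, hiV, hjV, hwi, hwj⟩ : ∃ i j, i ≠ j ∧ u i ≠ v i ∧ u j ≠ v j ∧
        w i ≠ v i ∧ w j ≠ u j := by
      by_cases h12 : i1 = i2
      · subst h12
        obtain ⟨r, hr, hr'⟩ : ∃ r, r ≠ i1 ∧ u r ≠ v r := by
          by_contra hcon
          refine hyp hne ⟨i1, fun r hr => ?_⟩
          have : u r = v r := by
            by_contra h
            exact hcon ⟨r, hr, h⟩
          exact ⟨this, hB r this⟩
        by_cases hw : w r = v r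
        · exact ⟨i1, r, hr.symm, hv1, hr', hi1, fun h => hr' (h.symm.trans hw)⟩
        · exact ⟨r, i1, hr, hr', hv1, hw, hi2⟩
      · exact ⟨i1, i2, h12, hv1, hv2, hi1, hi2⟩
    have hjR' : j ∈ univ.erase i := mem_erase.2 ⟨hij.symm, mem_univ j⟩
    have e1 := card_filter_erase (fun i => u i ≠ v i) (mem_univ i) hiV
    have e2 := card_filter_erase (fun i => u i ≠ v i) hjR' hjV
    have e3 := card_erase_add_one (mem_univ i)
    have e4 := card_erase_add_one hjR'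
    obtain ⟨E, hE, hEc, ζ, hu, hv, hw⟩ :=
      fill (by omega) u v w (J - 2 * e) (e - 1) ((univ.erase i).erase j) (by omega) (by omega)
    have hE' : E ⊆ univ.erase i := hE.trans (erase_subset _ _)
    refine ⟨update (update ζ j (u j)) i (v i), E, by omega, ?_, ?_, ?_⟩ <;>
      rw [mem, cnt_erase (mem_univ i) hE', cnt_erase hjR' hE]
    · rw [nq_self, nq_of_ne hiV]; omega
    · rw [nq_self, nq_of_ne (Ne.symm hjV)]; omega
    · rw [nq_of_ne hwi, nq_of_ne hwj]; omega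

end Pool.Agent.MP_92191b_al.K6

end

section

/-! The centred lemma in three coordinates. -/

set_option linter.unusedSectionVars false

namespace Pool.Agent.MP_92191b_al.K6

open Finset Function Equiv

variable {ι α : Type} [Fintype ι] [DecidableEq ι] [Fintype α] [DecidableEq α]

namespace T1

def q12 (W : W3 α) (b : α) : W2 α := fun c1 c2 t1 t2 => ∃ c3, W c1 c2 c3 t1 t2 (nz c3 b)

def q23 (W : W3 α) (p : α) : W2 α := fun c2 c3 t2 t3 => ∃ c1, W c1 c2 c3 (nz c1 p) t2 t3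

def q32 (W : W3 α) (p : α) : W2 α := fun c3 c2 t3 t2 => ∃ c1, W c1 c2 c3 (nz c1 p) t2 t3

def r32 (W : W3 α) (p : α) : W2 α := fun c3 c2 t3 t2 => ∃ c1, W c1 c2 c3 t2 (nz c1 p) t3

variable {W : W3 α}

theorem cp12 (hW : CSec3 W) (b : α) : CPlane (q12 W b) where
  sep c1 c2 t1 t2 c1' c2' t1' t2' := by
    rintro ⟨c3, h1⟩ ⟨c3', h2⟩ h3 h4
    have e1 := nz_le_nq c3 c3' b
    have e2 := nq_le_bo c3 c3' b
    have := hW.sep _ _ _ _ _ _ _ _ _ _ _ _ h1 h2 (by omega) (by omega)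
    exact ⟨this.1, this.2.1⟩
  ex z1 z2 := by
    obtain ⟨c1, c2, c3, h⟩ := hW.ex z1 z2 b
    exact ⟨c1, c2, c3, h⟩

theorem cp23 (hW : CSec3 W) (p : α) : CPlane (q23 W p) where
  sep c2 c3 t2 t3 c2' c3' t2' t3' := by
    rintro ⟨c1, h1⟩ ⟨c1', h2⟩ h3 h4
    have e1 := nz_le_nq c1 c1' p
    have e2 := nq_le_bo c1 c1' p
    have := hW.sep _ _ _ _ _ _ _ _ _ _ _ _ h1 h2 (by omega) (by omega)
    exact ⟨this.2.1, this.2.2⟩
  ex z2 z3 := by
    obtain ⟨c1, c2, c3, h⟩ := hW.ex p z2 z3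
    exact ⟨c2, c3, c1, h⟩

theorem cp32 (hW : CSec3 W) (p : α) : CPlane (q32 W p) where
  sep c3 c2 t3 t2 c3' c2' t3' t2' := by
    rintro ⟨c1, h1⟩ ⟨c1', h2⟩ h3 h4
    have e1 := nz_le_nq c1 c1' p
    have e2 := nq_le_bo c1 c1' p
    have := hW.sep _ _ _ _ _ _ _ _ _ _ _ _ h1 h2 (by omega) (by omega)
    exact ⟨this.2.2, this.2.1⟩
  ex z3 z2 := by
    obtain ⟨c1, c2, c3, h⟩ := hW.ex p z2 z3
    exact ⟨c3, c2, c1, h⟩

theorem cr32 (hW : CSec3 W) (p : α) : CPlane (r32 W p) where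
  sep c3 c2 t3 t2 c3' c2' t3' t2' := by
    rintro ⟨c1, h1⟩ ⟨c1', h2⟩ h3 h4
    have e1 := nz_le_nq c1 c1' p
    have e2 := nq_le_bo c1 c1' p
    have := hW.sep _ _ _ _ _ _ _ _ _ _ _ _ h1 h2 (by omega) (by omega)
    exact ⟨this.2.2, this.2.1⟩
  ex z3 z2 := by
    obtain ⟨c1, c2, c3, h⟩ := hW.ex12 p z2 z3
    exact ⟨c3, c2, c1, h⟩

theorem step1 (hCP : StmtCP α) (hk : 6 ≤ Fintype.card α) (hW : CSec3 W) {x1 z x3 a f : α}
    (h0 : W x1 z x3 true false true) (hA : W x1 f a false true false) (ha : a ≠ x3)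
    (hf : f ≠ z) :
    ∃ s χ1, s ≠ x1 ∧ χ1 ≠ x3 ∧ W s f χ1 true false (nz χ1 a) ∧
      (W s z a false true false ∨ W s z x3 false true true) ∧
      ∀ p y, p ≠ x1 → p ≠ s → y ≠ z → y ≠ f → ∃ γ, W p y γ false false (nz γ a) := by
  have m1 : q12 W a x1 z true false := ⟨x3, by rwa [nz_of_ne ha.symm]⟩
  have m2 : q12 W a x1 f false true := ⟨a, by rwa [nz_self]⟩
  have key : ∃ s, s ≠ x1 ∧ q12 W a s f true false ∧ q12 W a s z false true ∧
      ∀ p y, p ≠ x1 → p ≠ s → y ≠ z → y ≠ f → q12 W a p y false false := by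
    rcases hCP (by omega) _ (cp12 hW a) with ⟨u, v, h⟩ | h | ⟨u, v, h⟩ | ⟨u, v, h⟩ | ⟨τ, h⟩ |
      ⟨τ, h⟩ | ⟨a0, a1, y0, y1, h01, hy, h⟩
    · exact absurd (((h _ _ _ _).1 m2).2.trans ((h _ _ _ _).1 m1).2.symm) hf
    · simpa using ((h _ _ _ _).1 m1).1
    · have e1 := (h _ _ _ _).1 m1
      have e2 := (h _ _ _ _).1 m2
      simp at e1 e2
      exact absurd (e2.2.trans e1.2.symm) hf
    · simpa using (h _ _ _ _).1 m1
    · simpa using ((h _ _ _ _).1 m1).2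
    · simpa using ((h _ _ _ _).1 m2).2
    · have e1 := (h _ _ _ _).1 m1
      have e2 := (h _ _ _ _).1 m2
      simp at e1 e2
      rcases e1 with ⟨rfl, rfl⟩ | ⟨rfl, rfl⟩
      · rcases e2 with ⟨-, rfl⟩ | ⟨e, -⟩
        · refine ⟨a1, h01.symm, (h _ _ _ _).2 (by simp), (h _ _ _ _).2 (by simp), ?_⟩
          intro p y h1 h2 h3 h4
          exact (h _ _ _ _).2 (by simp [h1, h2, h3, h4])
        · exact absurd e h01
      · rcases e2 with ⟨e, -⟩ | ⟨-, rfl⟩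
        · exact absurd e.symm h01
        · refine ⟨a0, h01, (h _ _ _ _).2 (by simp), (h _ _ _ _).2 (by simp), ?_⟩
          intro p y h1 h2 h3 h4
          exact (h _ _ _ _).2 (by simp [h1, h2, h3, h4])
  obtain ⟨s, hs, ⟨χ1, w1⟩, ⟨χ2, w2⟩, hg⟩ := key
  refine ⟨s, χ1, hs, ?_, w1, ?_, hg⟩
  · rintro rfl
    rw [nz_of_ne ha.symm] at w1
    exact hs (hW.sep _ _ _ _ _ _ _ _ _ _ _ _ w1 h0 (by simp [nq]) (by simp [nq, bo, hs, hf])).1
  · by_cases h1 : χ2 = a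
    · left
      rwa [h1, nz_self] at w2
    · rw [nz_of_ne h1] at w2
      by_cases h2 : χ2 = x3
      · right
        rwa [h2] at w2
      · exact absurd (hW.sep _ _ _ _ _ _ _ _ _ _ _ _ w2 h0 (by simp [nq, hs, h2])
          (by simp [nq, bo, hs, h2])).1 hs

theorem zr (hCK : StmtCK α) (hk : 6 ≤ Fintype.card α) (hW : CSec3 W) {x1 z x3 a f s χ1 p : α}
    (h0 : W x1 z x3 true false true) (hA : W x1 f a false true false) (ha : a ≠ x3)
    (hf : f ≠ z) (w1 : W s f χ1 true false (nz χ1 a)) (w2 : W s z a false true false)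
    (hp1 : p ≠ x1) (hps : p ≠ s)
    (hg : ∀ y, y ≠ z → y ≠ f → ∃ γ, W p y γ false false (nz γ a)) :
    (∃ u v, Q3 (q32 W p) u v) ∨ ∃ a0 a1 y0 y1, Q8 (q32 W p) a0 a1 y0 y1 := by
  choose! γ hγ using hg
  have hZ : ∃ y0 y1, ∀ y, y ≠ y0 → y ≠ y1 → y ≠ z → y ≠ f → γ y = a := by
    let e : α → α := fun y => if y = z ∨ y = f then a else γ y
    have ez : e z = a := if_pos (Or.inl rfl)
    have ef : e f = a := if_pos (Or.inr rfl)
    have eg : ∀ y, y ≠ z → y ≠ f → e y = γ y := fun y h1 h2 => if_neg (by tauto)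
    have he : ∀ y, r32 W p (e y) y (nz (e y) a) false := by
      intro y
      by_cases h1 : y = z
      · rw [h1, ez, nz_self]
        exact ⟨s, by rwa [nz_of_ne hps.symm]⟩
      · by_cases h2 : y = f
        · rw [h2, ef, nz_self]
          exact ⟨x1, by rwa [nz_of_ne hp1.symm]⟩
        · rw [eg y h1 h2]
          exact ⟨p, by rw [nz_self]; exact hγ y h1 h2⟩
    rcases hCK (by omega) _ a e (cr32 hW p) he with h | ⟨y0, h, -⟩ | ⟨y0, y1, -, h, -⟩ |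
      ⟨τ, h, -⟩
    · exact ⟨z, z, fun y _ _ h1 h2 => (eg y h1 h2).symm.trans (h y)⟩
    · exact ⟨y0, y0, fun y h3 _ h1 h2 => (eg y h1 h2).symm.trans (h.1 y h3)⟩
    · exact ⟨y0, y1, fun y h3 h4 h1 h2 => (eg y h1 h2).symm.trans (h y h3 h4)⟩
    · exact absurd (τ.injective (by rw [← h, ← h, ez, ef])) hf
  obtain ⟨y0, y1, hZ⟩ := hZ
  let e : α → α := fun y => if y = z then x3 else if y = f then χ1 else γ y
  have ez : e z = x3 := if_pos rfl
  have ef : e f = χ1 := (if_neg hf).trans (if_pos rfl)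
  have eg : ∀ y, y ≠ z → y ≠ f → e y = γ y := fun y h1 h2 => (if_neg h1).trans (if_neg h2)
  have he : ∀ y, q32 W p (e y) y (nz (e y) a) false := by
    intro y
    by_cases h1 : y = z
    · rw [h1, ez, nz_of_ne ha.symm]
      exact ⟨x1, by rwa [nz_of_ne hp1.symm]⟩
    · by_cases h2 : y = f
      · rw [h2, ef]
        exact ⟨s, by rwa [nz_of_ne hps.symm]⟩
      · rw [eg y h1 h2]
        exact ⟨p, by rw [nz_self]; exact hγ y h1 h2⟩
  rcases hCK (by omega) _ a e (cp32 hW p) he with h | ⟨u, -, h⟩ | ⟨u, v, -, -, -, -, h⟩ |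
    ⟨τ, h, -⟩
  · exact absurd ((h z).symm.trans ez) ha
  · exact Or.inl ⟨_, _, h⟩
  · exact Or.inr ⟨_, _, _, _, h⟩
  · obtain ⟨y, h1, h2, h3, h4⟩ := exists_ne4 (by omega) y0 y1 z f
    obtain ⟨y', h1', h2', h3', h4', h5⟩ := exists_ne5 hk y0 y1 z f y
    refine absurd (τ.injective ?_) h5
    rw [← h, ← h, eg y h3 h4, eg y' h3' h4', hZ y h1 h2 h3 h4, hZ y' h1' h2' h3' h4']

/-- A word of type one and three over `s` forces the first form of the second word. -/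
theorem second (hW : CSec3 W) {z x3 a f s b g : α} (hf : f ≠ z) (hb : b ≠ x3)
    (u : W s f b true false true) (hB : W s g x3 false (nz g z) false)
    (w2 : W s z a false true false ∨ W s z x3 false true true) : W s z a false true false := by
  rcases w2 with w2 | w2
  · exact w2
  by_cases hg : g = z
  · rw [hg, nz_self] at hB
    exact absurd (hW.sep _ _ _ _ _ _ _ _ _ _ _ _ u hB (by simp [nq, hf, hb])
      (by simp [nq, bo, hf, hb])).2.1 hf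
  · rw [nz_of_ne hg] at hB
    exact absurd (hW.sep _ _ _ _ _ _ _ _ _ _ _ _ hB w2 (by simp [nq, hg])
      (by simp [nq, bo, hg])).2.1 hg

theorem caseQ3 (hCP : StmtCP α) (hCK : StmtCK α) (hk : 6 ≤ Fintype.card α) (hW : CSec3 W)
    {x1 z x3 a f : α} {ψ : α → α} (h0 : W x1 z x3 true false true)
    (hA : W x1 f a false true false) (hB : ∀ b, W b (ψ b) x3 false (nz (ψ b) z) false)
    (ha : a ≠ x3) (hf : f ≠ z) (h : Q3 (q23 W x1) f a) : False := by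
  obtain ⟨s, χ1, hs, -, w1, w2, hg⟩ := step1 hCP hk hW h0 hA ha hf
  have m1 : q23 W x1 f χ1 false (nz χ1 a) := ⟨s, by rwa [nz_of_ne hs]⟩
  have e1 : χ1 = a := by
    rcases (h _ _ _ _).1 m1 with e | e
    · exact e.2.1
    · exact absurd rfl e.1
  subst e1
  obtain ⟨ξ, u⟩ : q23 W x1 f χ1 false true := (h _ _ _ _).2 (by simp)
  have hξ : ξ ≠ x1 := by
    rintro rfl
    rw [nz_self] at u
    exact hf (hW.sep _ _ _ _ _ _ _ _ _ _ _ _ u h0 (by simp [nq, hf, ha])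
      (by simp [nq, bo, hf, ha])).2.1
  rw [nz_of_ne hξ] at u
  have w1' := w1
  rw [nz_self] at w1'
  have hξs : ξ = s := by
    by_contra hne
    exact hne (hW.sep _ _ _ _ _ _ _ _ _ _ _ _ u w1' (by simp [nq, hne])
      (by simp [nq, bo, hne])).1
  subst hξs
  have w2' := second hW hf ha u (hB ξ) w2
  obtain ⟨p, hp1, hps⟩ := exists_ne2 (by omega) x1 ξ
  have n0 : q32 W p x3 z true false := ⟨x1, by rwa [nz_of_ne hp1.symm]⟩
  have n1 : q32 W p χ1 f false false := ⟨ξ, by rwa [nz_of_ne hps.symm]⟩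
  have n2 : q32 W p χ1 f true false := ⟨ξ, by rwa [nz_of_ne hps.symm]⟩
  rcases zr hCK hk hW h0 hA ha hf w1 w2' hp1 hps (fun y => hg p y hp1 hps) with
    ⟨u', v, h'⟩ | ⟨a0, a1, y0, y1, -, -, h'⟩
  · have e0 := (h' _ _ _ _).1 n0
    have e2 := (h' _ _ _ _).1 n2
    simp at e0 e2
    exact ha (e2.1.trans e0.1.symm)
  · have e1 := (h' _ _ _ _).1 n1
    have e2 := (h' _ _ _ _).1 n2
    simp at e1 e2
    tauto

theorem Q8swap {P : W2 α} {a0 a1 x0 x1 : α} (h : Q8 P a0 a1 x0 x1) : Q8 P a1 a0 x1 x0 :=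
  ⟨h.1.symm, h.2.1.symm, fun c1 c2 t1 t2 => (h.2.2 c1 c2 t1 t2).trans (by tauto)⟩

theorem first8 {x1 a a' f f' s χ1 : α} (hs : s ≠ x1) (w1 : W s f χ1 true false (nz χ1 a))
    (h : Q8 (q23 W x1) f f' a' a) : χ1 = a' := by
  have m1 : q23 W x1 f χ1 false (nz χ1 a) := ⟨s, by rwa [nz_of_ne hs]⟩
  rcases (h.2.2 _ _ _ _).1 m1 with ⟨e | e, -⟩ | e | e
  · exact e.2
  · exact absurd e.1 h.1
  · simp at e
  · exact absurd rfl e.1

theorem caseQ8 (hCP : StmtCP α) (hCK : StmtCK α) (hk : 6 ≤ Fintype.card α) (hW : CSec3 W)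
    {x1 z x3 a a' f f' : α} {ψ : α → α} (h0 : W x1 z x3 true false true)
    (hA : W x1 f a false true false) (hA' : W x1 f' a' false true false)
    (hB : ∀ b, W b (ψ b) x3 false (nz (ψ b) z) false)
    (ha : a ≠ x3) (hf : f ≠ z) (hf' : f' ≠ z) (h : Q8 (q23 W x1) f f' a' a) : False := by
  obtain ⟨s, χ1, hs, hχ, w1, w2, hg⟩ := step1 hCP hk hW h0 hA ha hf
  have e1 := first8 hs w1 h
  subst e1
  have haa : χ1 ≠ a := h.2.1
  obtain ⟨s', χ1', hs', -, v1, -, -⟩ := step1 hCP hk hW h0 hA' hχ hf'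
  have e2 := first8 hs' v1 (Q8swap h)
  subst e2
  rw [nz_of_ne haa.symm] at v1
  have w1' := w1
  rw [nz_of_ne haa] at w1'
  have w2' := second hW hf hχ w1' (hB s) w2
  obtain ⟨p, hp1, hps, hps'⟩ := exists_ne3 (by omega) x1 s s'
  have n0 : q32 W p x3 z true false := ⟨x1, by rwa [nz_of_ne hp1.symm]⟩
  have n1 : q32 W p χ1 f true false := ⟨s, by rwa [nz_of_ne hps.symm]⟩
  have n2 : q32 W p χ1' f' true false := ⟨s', by rwa [nz_of_ne hps'.symm]⟩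
  rcases zr hCK hk hW h0 hA ha hf w1 w2' hp1 hps (fun y => hg p y hp1 hps) with
    ⟨u', v, h'⟩ | ⟨a0, a1, y0, y1, -, -, h'⟩
  · have e0 := (h' _ _ _ _).1 n0
    have e2 := (h' _ _ _ _).1 n2
    simp at e0 e2
    exact ha (e2.1.trans e0.1.symm)
  · have e0 := (h' _ _ _ _).1 n0
    have e1 := (h' _ _ _ _).1 n1
    have e2 := (h' _ _ _ _).1 n2
    simp at e0 e1 e2
    rcases e0 with ⟨e0, -⟩ | ⟨e0, -⟩ <;> rcases e1 with ⟨e1, -⟩ | ⟨e1, -⟩ <;>
      rcases e2 with ⟨e2, -⟩ | ⟨e2, -⟩ <;>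
      first
        | exact hχ (e1.trans e0.symm)
        | exact ha (e2.trans e0.symm)
        | exact haa (e1.trans e2.symm)

end T1

open T1 in
theorem t1 (hCP : StmtCP α) (hCK : StmtCK α) : StmtT1 α := by
  intro hk W x1 z x3 a φ ψ hW h0 hA hB ha hf
  have hA' : ∀ b, φ b ≠ z → W x1 (φ b) b false true false := fun b hb => by
    have := hA b
    rwa [nz_of_ne hb] at this
  have he : ∀ b, q23 W x1 (φ b) b (nz (φ b) z) false := fun b => ⟨x1, by rw [nz_self]; exact hA b⟩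
  rcases hCK (by omega) _ z φ (cp23 hW x1) he with h | ⟨a0, h1, h⟩ |
    ⟨a0, a1, -, h1, h2, h3, h⟩ | ⟨τ, hτ, h⟩
  · exact absurd (h a) hf
  · have e : a = a0 := by
      by_contra hne
      exact hf (h1.1 a hne)
    subst e
    exact (caseQ3 hCP hCK hk hW h0 (hA' a hf) hB ha hf h).elim
  · by_cases e0 : a = a0
    · subst e0
      exact (caseQ8 hCP hCK hk hW h0 (hA' a hf) (hA' a1 h3) hB ha hf h3 h).elim
    · by_cases e1 : a = a1
      · subst e1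
        exact (caseQ8 hCP hCK hk hW h0 (hA' a hf) (hA' a0 h2) hB ha hf h2 (Q8swap h)).elim
      · exact absurd (h1 a e0 e1) hf
  obtain ⟨s, χ1, hs, -, w1, w2, -⟩ := step1 hCP hk hW h0 (hA' a hf) ha hf
  have m1 : q23 W x1 (φ a) χ1 false (nz χ1 a) := ⟨s, by rwa [nz_of_ne hs]⟩
  have e1 : a = χ1 := τ.injective ((hτ a).symm.trans ((h _ _ _ _).1 m1).1)
  subst e1
  rw [nz_self] at w1
  refine ⟨fun b b' hb => τ.injective (by rw [← hτ, ← hτ, hb]), s, hs, w1, ?_⟩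
  rcases w2 with w2 | w2
  · refine Or.inl ⟨w2, ?_⟩
    have hBs := hB s
    by_cases hg : ψ s = z
    · rw [hg, nz_self] at hBs
      exact absurd (hW.sep _ _ _ _ _ _ _ _ _ _ _ _ w2 hBs (by simp [nq, ha])
        (by simp [nq, bo, ha])).2.2 ha
    · rw [nz_of_ne hg] at hBs
      by_contra hne
      exact ha (hW.sep _ _ _ _ _ _ _ _ _ _ _ _ hBs w1 (by simp [nq, ha.symm, hne])
        (by simp [nq, bo, ha.symm, hne])).2.2.symm
  · refine Or.inr ⟨w2, fun p _ => ?_, ?_⟩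
    · by_contra hg
      have hBp := hB p
      rw [nz_of_ne hg] at hBp
      have := nq_le p s
      exact hg (hW.sep _ _ _ _ _ _ _ _ _ _ _ _ hBp w2
        (by rw [nq_of_ne hg, nq_self, nq_self, nq_of_ne Bool.false_ne_true]; omega)
        (by rw [nq_of_ne hg, nq_self]; simp only [bo]; simp; omega)).2.1
    · have hz : φ x3 = z := by
        by_contra hne
        exact hne (hW.sep _ _ _ _ _ _ _ _ _ _ _ _ (hA' x3 hne) w2 (by simp [nq, hne])
          (by simp [nq, bo, hne, hs.symm])).2.1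
      obtain ⟨ξ, u⟩ : q23 W x1 z x3 true false := (h _ _ _ _).2 ⟨hz.symm.trans (hτ x3), rfl⟩
      have hξ : ξ ≠ x1 := by
        rintro rfl
        rw [nz_self] at u
        exact hs (hW.sep _ _ _ _ _ _ _ _ _ _ _ _ u w2 (by simp [nq, hs.symm])
          (by simp [nq, bo, hs.symm])).1.symm
      exact ⟨ξ, hξ, by rwa [nz_of_ne hξ] at u⟩

end Pool.Agent.MP_92191b_al.K6

end
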