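import Pool.Agent.MP_92191b_al.K6.Basic
import Pool.Agent.MP_92191b_al.X.Defs
import Pool.Agent.MP_92191b_al.G.Four
import Pool.Agent.Mg.F92191bp.G4681c0
import Pool.Agent.MP_92191b_al.K6.CSec
import Pool.Agent.Mg.F92191bp.G689315
import Pool.Agent.Mg.F92191bp.Ge1dd53
import Pool.Agent.Mg.F92191bp.Ge49acc
import Pool.Agent.MP_92191b_al.K6.Glue
import Pool.Agent.Mg.F92191bp.G9695df
import Pool.Agent.Mg.F92191bp.G168e24
import Pool.Agent.MP_92191b_al.K6.SecT
import Pool.Agent.MP_92191b_al.K6.T23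

section

/-! Sizes of products of a cube and a ball. -/

set_option linter.unusedSectionVars false

namespace Pool.Agent.MP_92191b_al.K6

open Finset Function Equiv

variable {ι α : Type} [Fintype ι] [DecidableEq ι] [Fintype α] [DecidableEq α]

namespace Ty

theorem card_box (ζ : ι → α) (U V : Finset ι) (h : Disjoint U V) :
    (univ.filter fun x : ι → α => (∀ i ∈ U, x i = ζ i) ∧ ∀ i ∈ V, x i ≠ ζ i).card =
      (Fintype.card α - 1) ^ V.card * Fintype.card α ^ (Fintype.card ι - U.card - V.card) := by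
  have e : (univ.filter fun x : ι → α => (∀ i ∈ U, x i = ζ i) ∧ ∀ i ∈ V, x i ≠ ζ i) =
      Fintype.piFinset fun i => if i ∈ U then {ζ i} else if i ∈ V then {ζ i}ᶜ else univ := by
    ext x
    simp only [mem_filter, mem_univ, true_and, Fintype.mem_piFinset]
    constructor
    · rintro ⟨h1, h2⟩ i
      split_ifs with hU hV
      · exact mem_singleton.2 (h1 i hU)
      · exact mem_compl.2 fun h => h2 i hV (mem_singleton.1 h)
      · exact mem_univ _
    · intro hx
      refine ⟨fun i hi => ?_, fun i hi => ?_⟩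
      · have := hx i
        rw [if_pos hi] at this
        exact mem_singleton.1 this
      · have := hx i
        rw [if_neg (fun hU => disjoint_left.1 h hU hi), if_pos hi] at this
        exact fun h => mem_compl.1 this (mem_singleton.2 h)
  rw [e, Fintype.card_piFinset]
  have e2 : ∀ i, (if i ∈ U then ({ζ i} : Finset α) else if i ∈ V then {ζ i}ᶜ else univ).card =
      if i ∈ U then 1 else if i ∈ V then Fintype.card α - 1 else Fintype.card α := by
    intro i
    split_ifs
    · exact card_singleton _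
    · rw [card_compl, card_singleton]
    · exact card_univ
  simp only [e2]
  rw [prod_ite, prod_const_one, one_mul, prod_ite, prod_const, prod_const]
  have e3 : ((univ.filter fun i => ¬i ∈ U).filter fun i => i ∈ V) = V := by
    ext i
    simp only [mem_filter, mem_univ, true_and]
    exact ⟨fun h => h.2, fun hi => ⟨fun hU => disjoint_left.1 h hU hi, hi⟩⟩
  have e4 : ((univ.filter fun i => ¬i ∈ U).filter fun i => ¬i ∈ V) = (U ∪ V)ᶜ := by
    ext i
    simp
  rw [e3, e4, card_compl, card_union_of_disjoint h, Nat.sub_sub]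

theorem dev_eq (ζ : ι → α) (E : Finset ι) (x : ι → α) :
    dev ζ E x = (Eᶜ.filter fun i => x i ≠ ζ i).card := by
  unfold dev
  congr 1
  ext i
  simp

theorem mem_AK {ζ : ι → α} {E : Finset ι} {e : ℕ} {x : ι → α} : x ∈ AK ζ E e ↔ dev ζ E x ≤ e := by
  simp [AK]

theorem card_AK (h : StmtSph ι α) (ζ : ι → α) (E : Finset ι) (e : ℕ) :
    (AK ζ E e).card = ∑ s ∈ range (e + 1), (Fintype.card ι - E.card).choose s *
      (Fintype.card α - 1) ^ s * Fintype.card α ^ (Fintype.card ι - (Fintype.card ι - E.card)) := by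
  rw [card_eq_sum_card_fiberwise (f := dev ζ E) (t := range (e + 1))
    (fun x hx => by simpa [Nat.lt_succ_iff] using mem_AK.1 hx)]
  refine sum_congr rfl fun s hs => ?_
  have := h ζ ∅ ∅ Eᶜ s (by simp) (by simp) (by simp)
  simp only [notMem_empty, false_imp_iff, implies_true, true_and, card_empty, Nat.add_zero,
    Nat.sub_zero, card_compl] at this
  rw [← this]
  congr 1
  ext x
  simp only [mem_filter, mem_univ, true_and, mem_AK, ← dev_eq]
  have := mem_range.1 hs
  omega

theorem diam (ζ : ι → α) (E : Finset ι) (e : ℕ) : Diam (AK ζ E e) (2 * e + E.card) := by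
  intro x hx y hy
  have h1 := mem_AK.1 hx
  have h2 := mem_AK.1 hy
  have hs : (univ.filter fun i => x i ≠ y i) ⊆
      ((univ.filter fun i => i ∉ E ∧ x i ≠ ζ i) ∪ univ.filter fun i => i ∉ E ∧ y i ≠ ζ i) ∪ E := by
    intro i hi
    simp only [mem_filter, mem_univ, true_and, mem_union] at hi ⊢
    by_contra hn
    push Not at hn
    exact hi ((hn.1.1 hn.2).trans (hn.1.2 hn.2).symm)
  have h3 := (card_le_card hs).trans ((card_union_le _ _).trans
    (Nat.add_le_add_right (card_union_le _ _) _))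
  unfold dev at h1 h2
  unfold hammingDist
  omega

theorem exists_dist (hk : 3 ≤ Fintype.card α) (ζ : ι → α) (E : Finset ι) (e s : ℕ)
    (hE : E.card + 2 * e ≤ Fintype.card ι) (hs : s ≤ 2 * e + E.card) :
    ∃ x ∈ AK ζ E e, ∃ y ∈ AK ζ E e, hammingDist x y = s := by
  choose η hη using fun i => exists_ne1 (α := α) (by omega) (ζ i)
  obtain ⟨D, hD, hDc⟩ := exists_subset_card_eq (s := E) (n := min s E.card) (min_le_right _ _)
  obtain ⟨S1, h1, h1c⟩ := exists_subset_card_eq (s := Eᶜ) (n := min (s - min s E.card) e)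
    (by rw [card_compl]; omega)
  obtain ⟨S2, h2, h2c⟩ := exists_subset_card_eq (s := Eᶜ \ S1)
    (n := s - min s E.card - min (s - min s E.card) e)
    (by rw [card_sdiff_of_subset h1, card_compl, h1c]; omega)
  have d1 : Disjoint S1 D := disjoint_left.2 fun i hi hi' => mem_compl.1 (h1 hi) (hD hi')
  have d2 : Disjoint (S1 ∪ D) S2 := disjoint_left.2 fun i hi hi' => by
    have := mem_sdiff.1 (h2 hi')
    rcases mem_union.1 hi with h | h
    · exact this.2 h
    · exact mem_compl.1 this.1 (hD h)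
  refine ⟨fun i => if i ∈ S1 ∪ D then η i else ζ i, mem_AK.2 ?_,
    fun i => if i ∈ S2 then η i else ζ i, mem_AK.2 ?_, ?_⟩
  · refine le_trans (card_le_card (t := S1) fun i hi => ?_) (by omega)
    simp only [mem_filter, mem_univ, true_and] at hi
    by_cases h : i ∈ S1 ∪ D
    · exact (mem_union.1 h).resolve_right fun h => hi.1 (hD h)
    · exact absurd (if_neg h) hi.2
  · refine le_trans (card_le_card (t := S2) fun i hi => ?_) (by omega)
    simp only [mem_filter, mem_univ, true_and] at hi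
    by_contra h
    exact hi.2 (if_neg h)
  · have : (univ.filter fun i => (if i ∈ S1 ∪ D then η i else ζ i) ≠
        if i ∈ S2 then η i else ζ i) = (S1 ∪ D) ∪ S2 := by
      ext i
      rw [mem_filter, mem_union (s := S1 ∪ D)]
      by_cases h : i ∈ S1 ∪ D
      · have h' : i ∉ S2 := disjoint_left.1 d2 h
        simp only [h, h', if_true, if_false, mem_univ, true_and, true_or, iff_true]
        exact hη i
      · by_cases h' : i ∈ S2
        · simp only [h, h', if_true, if_false, mem_univ, true_and, or_true, iff_true]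
          exact (hη i).symm
        · simp [h, h']
    unfold hammingDist
    rw [this, card_union_of_disjoint d2, card_union_of_disjoint d1]
    omega

theorem dev_pair (ζ : ι → α) {E : Finset ι} {i j : ι} (hi : i ∈ E) (hj : j ∈ E) (x : ι → α) :
    dev ζ (E \ {i, j}) x = dev ζ E x + (({i, j} : Finset ι).filter fun l => x l ≠ ζ l).card := by
  unfold dev
  rw [← card_union_of_disjoint]
  · congr 1
    ext l
    simp only [mem_filter, mem_univ, true_and, mem_union, mem_sdiff]
    tauto
  · refine disjoint_left.2 fun l h1 h2 => ?_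
    simp only [mem_filter, mem_univ, true_and, mem_insert, mem_singleton] at h1 h2
    rcases h2.1 with rfl | rfl
    · exact h1.1 hi
    · exact h1.1 hj

theorem num {n e q : ℕ} (hq : 0 < q) (h : q * (e + 1) + e < n) :
    n.choose e * q ^ (e + 2) < n.choose (e + 1) * q ^ (e + 1 + 0) := by
  have h1 := Nat.choose_succ_right_eq n e
  have h2 : 0 < n.choose e := Nat.choose_pos (by omega)
  have h3 : n.choose e * q < n.choose (e + 1) := by
    refine Nat.lt_of_mul_lt_mul_right (a := e + 1) ?_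
    rw [h1, mul_assoc]
    exact Nat.mul_lt_mul_of_pos_left (by omega) h2
  calc n.choose e * q ^ (e + 2) = n.choose e * q * q ^ (e + 1) := by ring
    _ < n.choose (e + 1) * q ^ (e + 1) := Nat.mul_lt_mul_of_pos_right h3 (pow_pos hq _)

theorem step (h : StmtSph ι α) (hk : 3 ≤ Fintype.card α) {J N e : ℕ} (ζ : ι → α)
    (hM : MaxA ι α J N) (hT : Ty ι α J N e) (h1 : 2 * (e + 1) ≤ J)
    (h2 : J + Fintype.card α * (e + 1) + 1 < Fintype.card ι + 2 * (e + 1)) : False := by
  obtain ⟨q, hq⟩ : ∃ q, Fintype.card α = q + 1 := ⟨Fintype.card α - 1, by omega⟩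
  have h2' : J + q * (e + 1) + e < Fintype.card ι + 2 * e := by
    rw [hq, add_mul] at h2
    omega
  have hq2 : e + 1 ≤ q * (e + 1) := Nat.le_mul_of_pos_left _ (by omega)
  obtain ⟨E, -, hE⟩ := exists_subset_card_eq (s := (univ : Finset ι)) (n := J - 2 * e)
    (by rw [card_univ]; omega)
  obtain ⟨i, hi, j, hj, hij⟩ := one_lt_card.1 (show 1 < E.card by omega)
  have hsub : ({i, j} : Finset ι) ⊆ E := by
    intro l hl
    rcases mem_insert.1 hl with rfl | hl
    · exact hi
    · exact mem_singleton.1 hl ▸ hj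
  have hA : (AK ζ E e).card = N := hT.2.2 ζ E (by omega)
  have hA' : (AK ζ (E \ {i, j}) (e + 1)).card ≤ N := by
    apply hM.le
    have := diam ζ (E \ {i, j}) (e + 1)
    rw [card_sdiff_of_subset hsub, card_pair hij] at this
    have e1 : 2 * (e + 1) + (E.card - 2) = J := by omega
    exact e1 ▸ this
  have hd : Disjoint ({i, j} : Finset ι) Eᶜ := disjoint_left.2 fun l hl hl' =>
    mem_compl.1 hl' (hsub hl)
  have c1 := h ζ {i, j} ∅ Eᶜ (e + 1) (by simp) hd (by simp)
  have c2 := h ζ ∅ {i, j} Eᶜ e (by simp) (by simp) hd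
  rw [card_pair hij, card_empty, card_compl] at c1 c2
  have s1 := card_le_card (show (univ.filter fun x : ι → α => (∀ l ∈ ({i, j} : Finset ι),
      x l = ζ l) ∧ (∀ l ∈ (∅ : Finset ι), x l ≠ ζ l) ∧
      (Eᶜ.filter fun l => x l ≠ ζ l).card = e + 1) ⊆
      AK ζ (E \ {i, j}) (e + 1) \ AK ζ E e from fun x hx => by
    obtain ⟨hx1, -, hx2⟩ := (mem_filter.1 hx).2
    rw [← dev_eq] at hx2
    rw [mem_sdiff, mem_AK, mem_AK, dev_pair ζ hi hj,
      filter_eq_empty_iff.2 (fun l hl hn => hn (hx1 l hl)), card_empty]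
    omega)
  have s2 := card_le_card (show AK ζ E e \ AK ζ (E \ {i, j}) (e + 1) ⊆
      (univ.filter fun x : ι → α => (∀ l ∈ (∅ : Finset ι), x l = ζ l) ∧
      (∀ l ∈ ({i, j} : Finset ι), x l ≠ ζ l) ∧
      (Eᶜ.filter fun l => x l ≠ ζ l).card = e) from fun x hx => by
    rw [mem_sdiff, mem_AK, mem_AK, dev_pair ζ hi hj] at hx
    have hle := card_filter_le ({i, j} : Finset ι) fun l => x l ≠ ζ l
    rw [card_pair hij] at hle
    rw [mem_filter, ← dev_eq]
    refine ⟨mem_univ _, by simp, ?_, by omega⟩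
    refine card_filter_eq_iff.1 ?_
    rw [card_pair hij]
    omega)
  rw [c1] at s1
  rw [c2] at s2
  have e1 := card_sdiff_add_card_inter (AK ζ (E \ {i, j}) (e + 1)) (AK ζ E e)
  have e2 := card_sdiff_add_card_inter (AK ζ E e) (AK ζ (E \ {i, j}) (e + 1))
  rw [inter_comm] at e2
  have hn := num (n := Fintype.card ι - E.card) (e := e) (q := Fintype.card α - 1) (by omega)
    (by rw [hq, Nat.add_sub_cancel]; omega)
  have hK := Nat.mul_lt_mul_of_pos_right hn
    (pow_pos (show 0 < Fintype.card α by omega) (Fintype.card ι - 2 - (Fintype.card ι - E.card)))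
  simp only [Nat.sub_zero] at s1 s2
  omega

end Ty

theorem sph : StmtSph ι α := by
  intro ζ Z N R s hZN hZR hNR
  rw [card_eq_sum_card_fiberwise (f := fun x : ι → α => R.filter fun i => x i ≠ ζ i)
    (t := powersetCard s R)
    (fun x hx => mem_powersetCard.2 ⟨filter_subset _ _, (mem_filter.1 hx).2.2.2⟩)]
  rw [mul_assoc, ← card_powersetCard, ← smul_eq_mul, ← sum_const]
  refine sum_congr rfl fun S hS => ?_
  obtain ⟨hSR, hSc⟩ := mem_powersetCard.1 hS
  have d1 : Disjoint Z (R \ S) := hZR.mono_right sdiff_subset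
  have d2 : Disjoint S N := (hNR.mono_right hSR).symm
  have d3 : Disjoint (Z ∪ R \ S) (S ∪ N) := by
    rw [disjoint_union_left, disjoint_union_right, disjoint_union_right]
    exact ⟨⟨hZR.mono_right hSR, hZN⟩, sdiff_disjoint, (hNR.mono_right sdiff_subset).symm⟩
  have := Ty.card_box ζ (Z ∪ R \ S) (S ∪ N) d3
  rw [card_union_of_disjoint d1, card_union_of_disjoint d2, card_sdiff_of_subset hSR, hSc] at this
  have hle : s ≤ R.card := hSc ▸ card_le_card hSR
  have e1 : Fintype.card ι - (Z.card + (R.card - s)) - (s + N.card) =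
      Fintype.card ι - Z.card - N.card - R.card := by omega
  rw [e1] at this
  rw [← this]
  congr 1
  ext x
  simp only [mem_filter, mem_univ, true_and, mem_union, mem_sdiff]
  constructor
  · rintro ⟨⟨h1, h2, -⟩, rfl⟩
    refine ⟨?_, ?_⟩
    · rintro i (hi | ⟨hi, hi'⟩)
      · exact h1 i hi
      · by_contra hn
        exact hi' (mem_filter.2 ⟨hi, hn⟩)
    · rintro i (hi | hi)
      · exact (mem_filter.1 hi).2
      · exact h2 i hi
  · rintro ⟨h1, h2⟩
    have e : (R.filter fun i => x i ≠ ζ i) = S := by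
      ext i
      rw [mem_filter]
      refine ⟨fun h => ?_, fun h => ⟨hSR h, h2 i (Or.inl h)⟩⟩
      by_contra hn
      exact h.2 (h1 i (Or.inr ⟨h.1, hn⟩))
    exact ⟨⟨fun i hi => h1 i (Or.inl hi), fun i hi => h2 i (Or.inr hi), e ▸ hSc⟩, e⟩

theorem ty (h : StmtSph ι α) : StmtTy ι α := by
  refine ⟨fun ζ ζ' E E' e hE => ?_, Ty.diam, Ty.exists_dist, ?_⟩
  · rw [Ty.card_AK h, Ty.card_AK h, hE]
  · rintro hk J N e e' ⟨ζ⟩ hM hT hT' hlt
    by_contra hn
    refine Ty.step h hk ζ hM hT (le_trans (by omega) hT'.1) ?_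
    have h2 := hT'.2.1
    obtain ⟨d, rfl⟩ : ∃ d, e' = e + 1 + d := ⟨e' - (e + 1), by omega⟩
    have h3 : 3 * d ≤ Fintype.card α * d := Nat.mul_le_mul_right _ hk
    rw [mul_add (Fintype.card α) (e + 1) d] at h2 hn
    omega

end Pool.Agent.MP_92191b_al.K6

end

section

/-! Preimages of largest anticodes, and uniformity when these are ball-cube products. -/

set_option linter.unusedSectionVars false

namespace Pool.Agent.MP_92191b_al.K6

open Finset Function Equiv

variable {ι α : Type} [Fintype ι] [DecidableEq ι] [Fintype α] [DecidableEq α]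

namespace B1

theorem walk (p : (ι → α) → Prop) (x y : ι → α) (step : ∀ z i, p z → p (update z i (y i)))
    (hx : p x) : p y := by
  have key : ∀ s : Finset ι, p (s.piecewise y x) := by
    intro s
    induction s using Finset.induction_on with
    | empty => simpa using hx
    | insert j s _ ih =>
      rw [piecewise_insert]
      exact step _ _ ih
  simpa using key univ

theorem diam (ζ : ι → α) (E : Finset ι) (e : ℕ) : Diam (AK ζ E e) (2 * e + E.card) := by
  intro u hu v hv
  have h1 : dev ζ E u ≤ e := (mem_filter.1 hu).2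
  have h2 : dev ζ E v ≤ e := (mem_filter.1 hv).2
  have h3 : (univ.filter fun i => u i ≠ v i) ⊆ ((univ.filter fun i => i ∉ E ∧ u i ≠ ζ i) ∪
      univ.filter fun i => i ∉ E ∧ v i ≠ ζ i) ∪ E := by
    intro i hi
    simp only [mem_filter, mem_univ, true_and, mem_union] at hi ⊢
    by_cases hE : i ∈ E
    · exact Or.inr hE
    · by_cases h : u i = ζ i
      · exact Or.inl (Or.inr ⟨hE, fun h' => hi (h.trans h'.symm)⟩)
      · exact Or.inl (Or.inl ⟨hE, h⟩)
  have h4 := (card_le_card h3).trans ((card_union_le _ _).trans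
    (Nat.add_le_add_right (card_union_le _ _) _))
  unfold dev at h1 h2
  unfold hammingDist
  omega

theorem mem_update {ζ x : ι → α} {E : Finset ι} {e : ℕ} (hx : x ∈ AK ζ E e) (i : ι) :
    update x i (ζ i) ∈ AK ζ E e := by
  refine mem_filter.2 ⟨mem_univ _, le_trans (card_le_card fun j hj => ?_) (mem_filter.1 hx).2⟩
  simp only [mem_filter, mem_univ, true_and] at hj ⊢
  by_cases h : j = i
  · subst h
    simp at hj
  · rwa [update_of_ne h] at hj

theorem lin_update {f : (ι → α) → ι → α} {x : ι → α} {i l : ι} (h : Lin f x i l) (a : α) :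
    Lin f (update x i a) i l := by
  obtain ⟨τ, hτ⟩ := h
  exact ⟨τ, fun b => by rw [update_idem, hτ, hτ, update_idem]⟩

theorem fib_le {f : (ι → α) → ι → α} {J : ℕ} (hT : TriP f J) (h : ∀ x i, ∃ l, Lin f x i l)
    (u : ι → α) (l : ι) (s : α) :
    (univ.filter fun x => f x = u).card ≤ (univ.filter fun x => f x = update u l s).card := by
  refine card_le_card_of_forall_subsingleton
    (fun x y => ∃ i a, y = update x i a ∧ Lin f x i l) (fun x hx => ?_) fun y _ => ?_
  · choose g hg using h x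
    have hi : Injective g := fun i i' e => hT.inj x i i' _ (hg i) (e ▸ hg i')
    obtain ⟨i, rfl⟩ := Finite.injective_iff_surjective.1 hi l
    obtain ⟨τ, hτ⟩ := hg i
    refine ⟨update x i (τ.symm s), mem_filter.2 ⟨mem_univ _, ?_⟩, i, _, rfl, τ, hτ⟩
    rw [hτ, τ.apply_symm_apply, (mem_filter.1 hx).2]
  · rintro x ⟨hx, i, a, e, hl⟩ x' ⟨hx', i', a', e', hl'⟩
    have h1 : Lin f y i l := e ▸ lin_update hl a
    have h2 : Lin f y i' l := e' ▸ lin_update hl' a'
    obtain rfl := hT.inj y i i' l h1 h2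
    obtain ⟨τ, hτ⟩ := h1
    have h3 : update y i (x i) = x := by rw [e, update_idem, update_eq_self]
    have h4 : update y i (x' i) = x' := by rw [e', update_idem, update_eq_self]
    have h5 : update (f y) l (τ (x i)) = update (f y) l (τ (x' i)) := by
      rw [← hτ, ← hτ, h3, h4, (mem_filter.1 hx).2, (mem_filter.1 hx').2]
    rw [← h3, ← h4, τ.injective (update_injective _ _ h5)]

theorem fib_eq {f : (ι → α) → ι → α} {J N e : ℕ} (hP : Pre f J N) (hTy : Ty ι α J N e)
    (hT : TriP f J) (h : ∀ x i l, ¬Lin f x i l) (x : ι → α) :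
    (univ.filter fun y => f y = f x).card = N := by
  obtain ⟨E, -, hE⟩ := exists_subset_card_eq (s := (univ : Finset ι)) (n := J - 2 * e) (by
    have h1 := hTy.2.1
    rw [card_univ]
    omega)
  have hJ : 2 * e + E.card = J := by
    have := hTy.1
    omega
  obtain ⟨ζ, E', e', hTy', hJ', hA⟩ := hP (f x) E e hTy hJ
  have hx : f x ∈ AK (f x) E e := mem_filter.2 ⟨mem_univ _, by simp [dev]⟩
  have key : ∀ y ∈ AK ζ E' e', f ζ = f y := by
    intro y hy
    refine (walk (fun z => z ∈ AK ζ E' e' ∧ f z = f y) y ζ (fun z i hz => ?_) ⟨hy, rfl⟩).2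
    refine ⟨mem_update hz.1 i, ?_⟩
    rcases hT.tri z i with hc | ⟨l, hl⟩ | hc
    · exact (hc _).trans hz.2
    · exact absurd hl (h z i l)
    · by_cases hi : z i = ζ i
      · rw [← hi, update_eq_self, hz.2]
      · have h1 := hc _ _ hi
        rw [update_eq_self] at h1
        have h2 := diam (f x) E e _ ((hA _).2 hz.1) _ ((hA _).2 (mem_update hz.1 i))
        omega
  rw [← hTy'.2.2 ζ E' hJ']
  congr 1
  ext y
  rw [mem_filter]
  exact ⟨fun hy => (hA y).1 (hy.2 ▸ hx),
    fun hy => ⟨mem_univ _, (key y hy).symm.trans (key x ((hA x).1 hx))⟩⟩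

end B1

theorem pre (hC : StmtCnt ι α) (hT : StmtTy ι α) : StmtPre ι α := by
  intro J N K f hα hM hK hKN hf ζ E e hTy hE
  have hB : (AK ζ E e).card = N := hTy.2.2 ζ E hE
  have hD : Diam (AK ζ E e) J := hE ▸ hT.2.1 ζ E e
  have hA : Diam (univ.filter fun x => f x ∈ AK ζ E e) J := fun x hx y hy =>
    not_lt.1 fun h => (hf x y h).not_ge (hD _ (mem_filter.1 hx).2 _ (mem_filter.1 hy).2)
  have hbig := hC.2.2.2 (univ.filter fun x => f x ∈ AK ζ E e) K fun σ => by
    have hg : ∀ x ∈ K, ∀ y ∈ K, x ≠ y →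
        J < hammingDist (f fun l => σ l (x l)) (f fun l => σ l (y l)) := fun x hx y hy hne =>
      hf _ _ ((hK x hx y hy hne).trans_eq
        (hammingDist_comp (fun l => σ l) fun l => (σ l).injective).symm)
    have hc : (K.image fun x => f fun l => σ l (x l)).card = K.card :=
      card_image_of_injOn fun x hx y hy e => by
        by_contra hne
        have h1 := hg x hx y hy hne
        rw [show (f fun l => σ l (x l)) = f fun l => σ l (y l) from e, hammingDist_self] at h1
        omega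
    have hs : Sep (K.image fun x => f fun l => σ l (x l)) (AK ζ E e) := by
      intro c hc c' hc' d hd d' hd' he
      obtain ⟨x, hx, rfl⟩ := mem_image.1 hc
      obtain ⟨y, hy, rfl⟩ := mem_image.1 hc'
      by_cases hne : x = y
      · rw [hne]
      · exact absurd (he ▸ hg x hx y hy hne) (hD d hd d' hd').not_gt
    obtain ⟨c, d, ⟨h1, h2⟩, h3⟩ := (hC.2.2.1 _ _ hα hs (by rw [hc, hB, hKN])).ex 1 1
    obtain ⟨x, hx, rfl⟩ := mem_image.1 h1
    obtain rfl : (f fun l => σ l (x l)) = d := funext h3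
    exact ⟨x, hx, mem_filter.2 ⟨mem_univ _, h2⟩⟩
  have hpos : 0 < K.card := Nat.pos_of_mul_pos_right (hKN ▸ pow_pos Fintype.card_pos _)
  rw [← hKN, mul_comm] at hbig
  obtain ⟨ζ', E', e', h1, h2, h3⟩ := hM.eq _ hA
    ((hM.le _ hA).antisymm (Nat.le_of_mul_le_mul_right hbig hpos))
  exact ⟨ζ', E', e', h2, h1, fun x => by rw [← h3, mem_filter, and_iff_right (mem_univ _)]⟩

theorem b1 (h1 : StmtTri ι α) (h2 : StmtCount ι α) : StmtB1 ι α := by
  intro hk J N e f hM hP hTy he
  have hT := h1 hk J N e f hP hTy he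
  have hC := h2 hk J N e f hM hP hTy he hT
  by_cases h : ∃ x, ∀ i, ∃ l, Lin f x i l
  · obtain ⟨x, hx⟩ := h
    have hall : ∀ y i, ∃ l, Lin f y i l := fun y =>
      B1.walk (fun z => ∀ i, ∃ l, Lin f z i l) x y (fun z i hz =>
        (hC _).resolve_right fun hn => (hz i).elim fun l hl => hn i l (B1.lin_update hl _)) hx
    have hle : ∀ u v : ι → α, (univ.filter fun x => f x = u).card ≤
        (univ.filter fun x => f x = v).card := fun u v =>
      B1.walk (fun w => (univ.filter fun x => f x = u).card ≤ (univ.filter fun x => f x = w).card)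
        u v (fun w l hw => hw.trans (B1.fib_le hT hall w l _)) le_rfl
    exact fun a b => (hle _ _).antisymm (hle _ _)
  · have hn : ∀ x i l, ¬Lin f x i l := fun x => (hC x).resolve_left fun hx => h ⟨x, hx⟩
    exact fun a b => (B1.fib_eq hP hTy hT hn a).trans (B1.fib_eq hP hTy hT hn b).symm

end Pool.Agent.MP_92191b_al.K6

end

section

/-! The graph of distance three over three letters. -/

set_option linter.unusedSectionVars false

namespace Pool.Agent.MP_92191b_al.X

open Finset Function Equiv K6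

variable {ι : Type} [Fintype ι] [DecidableEq ι]

namespace Three

/-- The third point of the line through `a` and `b`. -/
def th (a b : ι → Fin 3) : ι → Fin 3 := fun i => -(a i) - b i

theorem th_th (a b : ι → Fin 3) : th a (th a b) = b := by
  funext i
  simp only [th]
  abel

theorem th_cong (x a b : ι → Fin 3) :
    (hammingDist x a + hammingDist x b + hammingDist x (th a b)) % 3 =
      (2 * hammingDist a b) % 3 := by
  have h : ∀ x a b : Fin 3, (if x ≠ a then 1 else 0) + (if x ≠ b then 1 else 0) +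
      (if x ≠ -a - b then 1 else 0) =
      2 * (if a ≠ b then 1 else 0) + 3 * (if a = b ∧ x ≠ a then 1 else 0 : ℕ) := by decide
  have h2 : hammingDist x a + hammingDist x b + hammingDist x (th a b) =
      2 * hammingDist a b + 3 * ∑ i, (if a i = b i ∧ x i ≠ a i then 1 else 0 : ℕ) := by
    simp only [hammingDist, card_filter, mul_sum, ← sum_add_distrib]
    exact sum_congr rfl fun i _ => h _ _ _
  omega

theorem cl_mod {C : Finset (ι → Fin 3)} (hC : Cl {3} C) {x y : ι → Fin 3} (hx : x ∈ C)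
    (hy : y ∈ C) : hammingDist x y % 3 = 0 := by
  by_cases h : x = y
  · simp [h]
  · have h1 : hammingDist x y = 3 := hC x hx y hy h
    omega

theorem eq_three (hm : Fintype.card ι ≤ 5) {x y : ι → Fin 3} (hne : x ≠ y)
    (h : hammingDist x y % 3 = 0) : hammingDist x y = 3 := by
  have h1 : hammingDist x y ≤ Fintype.card ι := hammingDist_le_card_fintype
  have h2 : hammingDist x y ≠ 0 := hammingDist_ne_zero.2 hne
  omega

section

variable (hm : Fintype.card ι ≤ 5) (hmax : ∀ C : Finset (ι → Fin 3), Cl {3} C → C.card ≤ 9)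
  {C : Finset (ι → Fin 3)} (hC : Cl {3} C) (h9 : C.card = 9)
include hm hmax hC h9

theorem ins {u : ι → Fin 3} (h : ∀ x ∈ C, hammingDist u x % 3 = 0) : u ∈ C := by
  by_contra hu
  have h1 : Cl {3} (insert u C) := by
    intro y hy z hz hne
    rcases mem_insert.1 hy with rfl | hy' <;> rcases mem_insert.1 hz with rfl | hz'
    · exact absurd rfl hne
    · exact eq_three hm hne (h z hz')
    · exact eq_three hm hne (by rw [hammingDist_comm]; exact h y hy')
    · exact hC y hy' z hz' hne
  have h2 := hmax _ h1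
  rw [card_insert_of_notMem hu] at h2
  omega

theorem th_mem {a b : ι → Fin 3} (ha : a ∈ C) (hb : b ∈ C) : th a b ∈ C := by
  refine ins hm hmax hC h9 fun x hx => ?_
  have h1 := th_cong x a b
  have h2 := cl_mod hC hx ha
  have h3 := cl_mod hC hx hb
  have h4 := cl_mod hC ha hb
  rw [hammingDist_comm]
  omega

theorem lev_le (u : ι → Fin 3) {x : ι → Fin 3} (hx : x ∈ C) {s t : ℕ} (ht : t < 3)
    (h : (hammingDist u x + s + t) % 3 = 0) :
    (C.filter fun c => hammingDist u c % 3 = s).card ≤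
      (C.filter fun c => hammingDist u c % 3 = t).card := by
  refine card_le_card_of_injOn (th x) (fun c hc => ?_) fun c _ c' _ e => ?_
  · obtain ⟨h1, h2⟩ := mem_filter.1 (mem_coe.1 hc)
    refine mem_coe.2 (mem_filter.2 ⟨th_mem hm hmax hC h9 hx h1, ?_⟩)
    have h3 := th_cong u x c
    have h4 := cl_mod hC hx h1
    omega
  · rw [← th_th x c, e, th_th]

end

theorem lev_sum (C : Finset (ι → Fin 3)) (u : ι → Fin 3) :
    (C.filter fun c => hammingDist u c % 3 = 0).card +
      (C.filter fun c => hammingDist u c % 3 = 1).card +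
      (C.filter fun c => hammingDist u c % 3 = 2).card = C.card := by
  rw [card_eq_sum_card_fiberwise (f := fun c => hammingDist u c % 3) (s := C) (t := range 3)
    fun c _ => mem_coe.2 (mem_range.2 (Nat.mod_lt _ (by norm_num)))]
  simp [sum_range_succ]

theorem bound (hm : Fintype.card ι ≤ 5) (hmax : ∀ C : Finset (ι → Fin 3), Cl {3} C → C.card ≤ 9) :
    Bound ι (Fin 3) {3} 9 3 := by
  intro C hC h9 u hu T hT hT3
  rcases T.eq_empty_or_nonempty with rfl | ⟨a, ha⟩
  · simp
  have h0 : T ⊆ C.filter fun c => hammingDist u c % 3 = 0 := fun c hc =>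
    mem_filter.2 ⟨hT hc, by rw [show hammingDist u c = 3 from hT3 c hc]⟩
  refine (card_le_card h0).trans ?_
  obtain ⟨x, hx, hx0⟩ : ∃ x ∈ C, hammingDist u x % 3 ≠ 0 := by
    by_contra hc
    push Not at hc
    exact hu (ins hm hmax hC h9 hc)
  have h1 := th_mem hm hmax hC h9 (hT ha) hx
  have h2 := th_cong u a x
  have h3 := cl_mod hC (hT ha) hx
  have h4 : hammingDist u a = 3 := hT3 a ha
  have h5 := lev_sum C u
  by_cases h6 : hammingDist u x % 3 = 1
  · have h7 := lev_le hm hmax hC h9 u hx (s := 0) (t := 2) (by omega) (by omega)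
    have h8 := lev_le hm hmax hC h9 u h1 (s := 0) (t := 1) (by omega) (by omega)
    omega
  · have h7 := lev_le hm hmax hC h9 u hx (s := 0) (t := 1) (by omega) (by omega)
    have h8 := lev_le hm hmax hC h9 u h1 (s := 0) (t := 2) (by omega) (by omega)
    omega

theorem exists_clique (hM : StmtMove ι (Fin 3)) {K : Finset (ι → Fin 3)} (hK : Cl {3} K)
    (h9 : K.card = 9) {c c' : ι → Fin 3} (h : hammingDist c c' = 3) :
    ∃ C : Finset (ι → Fin 3), Cl {3} C ∧ C.card = 9 ∧ c ∈ C ∧ c' ∈ C := by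
  obtain ⟨p, hp, q, hq, hne⟩ := one_lt_card.1 (by omega : 1 < K.card)
  have h1 : hammingDist p q = 3 := hK p hp q hq hne
  obtain ⟨g, hg, rfl, rfl⟩ := hM p q c c' (h.trans h1.symm)
  refine ⟨K.map g.toEmbedding, ?_, by rw [card_map, h9], mem_map_of_mem _ hp, mem_map_of_mem _ hq⟩
  intro y hy z hz hyz
  obtain ⟨a, ha, rfl⟩ := mem_map.1 hy
  obtain ⟨b, hb, rfl⟩ := mem_map.1 hz
  have h2 := hK a ha b hb fun e => hyz (by rw [e])
  rw [← hg] at h2
  exact h2

theorem kept_symm {S : Set ℕ} {f : (ι → Fin 3) → ι → Fin 3} {x y : ι → Fin 3}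
    (h : Kept S f x y) : Kept S f y x :=
  ⟨h.1.symm, by rw [hammingDist_comm]; exact h.2⟩

/-- A point with prescribed distances to `u` and `c`. -/
def pt (u c : ι → Fin 3) (A B E : Finset ι) : ι → Fin 3 := fun i =>
  if i ∈ A then c i else if i ∈ B then th u c i else if i ∈ E then u i + 1 else u i

theorem dist_pt {u c : ι → Fin 3} {A B E : Finset ι} (hA : A ⊆ B) (hB : B ⊆ df u c)
    (hE : Disjoint E (df u c)) :
    hammingDist u (pt u c A B E) = B.card + E.card ∧
      hammingDist c (pt u c A B E) + A.card = hammingDist u c + E.card := by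
  have h1 : ∀ x y : Fin 3, ¬ x = y → ¬ x = -x - y ∧ ¬ y = -x - y := by decide
  have h2 : ∀ x : Fin 3, ¬ x = x + 1 := by decide
  have hB' : ∀ i ∈ B, ¬ u i = c i := fun i hi => (mem_filter.1 (hB hi)).2
  have hE' : ∀ i ∈ E, u i = c i := fun i hi => by
    by_contra hc
    exact disjoint_left.1 hE hi (mem_filter.2 ⟨mem_univ _, hc⟩)
  have e1 : df u (pt u c A B E) = B ∪ E := by
    ext i
    simp only [df, pt, th, mem_filter, mem_univ, true_and, mem_union, Ne]
    split_ifs with a1 a2 a3
    · exact iff_of_true (hB' i (hA a1)) (Or.inl (hA a1))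
    · exact iff_of_true (h1 _ _ (hB' i a2)).1 (Or.inl a2)
    · exact iff_of_true (h2 _) (Or.inr a3)
    · simp [a2, a3]
  have e2 : df c (pt u c A B E) = (df u c \ A) ∪ E := by
    ext i
    simp only [df, pt, th, mem_filter, mem_univ, true_and, mem_union, mem_sdiff, Ne]
    split_ifs with a1 a2 a3
    · refine iff_of_false (by simp) ?_
      rintro (h | h)
      · exact h.2 a1
      · exact hB' i (hA a1) (hE' i h)
    · exact iff_of_true (h1 _ _ (hB' i a2)).2 (Or.inl ⟨hB' i a2, a1⟩)
    · exact iff_of_true (hE' i a3 ▸ h2 _) (Or.inr a3)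
    · simp [a1, a3, eq_comm]
  refine ⟨?_, ?_⟩
  · change (df u _).card = _
    rw [e1, card_union_of_disjoint (hE.mono_right hB).symm]
  · change (df c _).card + _ = (df u c).card + _
    rw [e2, card_union_of_disjoint (hE.mono_right sdiff_subset).symm, add_right_comm,
      card_sdiff_add_card_eq_card (hA.trans hB)]

theorem exists_pt (u c : ι → Fin 3) {a b e : ℕ} (hab : a ≤ b) (hb : b ≤ hammingDist u c)
    (he : e + hammingDist u c ≤ Fintype.card ι) :
    ∃ c', hammingDist u c' = b + e ∧ hammingDist c c' + a = hammingDist u c + e := by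
  obtain ⟨B, hB, rfl⟩ := exists_subset_card_eq (s := df u c) hb
  obtain ⟨A, hA, rfl⟩ := exists_subset_card_eq (s := B) hab
  obtain ⟨E, hE, rfl⟩ := exists_subset_card_eq (s := (df u c)ᶜ) (n := e) (by
    rw [card_compl]
    exact Nat.le_sub_of_add_le he)
  exact ⟨_, dist_pt hA hB (subset_compl_iff_disjoint_right.1 hE)⟩

theorem exists_two (hm : 4 ≤ Fintype.card ι) {u c c' : ι → Fin 3} (h : hammingDist u c = 1)
    (h' : hammingDist u c' = 1) :
    ∃ x, hammingDist u x = 2 ∧ hammingDist c x = 3 ∧ hammingDist c' x = 3 := by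
  obtain ⟨E, hE, h2⟩ := exists_subset_card_eq (s := (df u c ∪ df u c')ᶜ) (n := 2) (by
    have h1 := card_union_le (df u c) (df u c')
    have h3 : (df u c).card = 1 := h
    have h4 : (df u c').card = 1 := h'
    rw [card_compl]
    omega)
  have h3 := disjoint_union_right.1 (subset_compl_iff_disjoint_right.1 hE)
  have h4 := dist_pt (Subset.refl ∅) (empty_subset _) h3.1
  have h5 := dist_pt (Subset.refl ∅) (empty_subset _) h3.2
  have h6 : pt u c' ∅ ∅ E = pt u c ∅ ∅ E := by
    funext i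
    simp [pt]
  rw [h6] at h5
  simp only [card_empty] at h4 h5
  exact ⟨pt u c ∅ ∅ E, by omega, by omega, by omega⟩

theorem dist_update (u : ι → Fin 3) (i : ι) {a : Fin 3} (h : a ≠ u i) :
    hammingDist u (update u i a) = 1 := by
  refine card_eq_one.2 ⟨i, ?_⟩
  ext j
  by_cases hj : j = i
  · subst hj
    simp [h.symm]
  · simp [hj]

end Three

open Three in
theorem three (hM : StmtMove ι (Fin 3)) (hR : StmtRob ι (Fin 3)) : StmtThree ι := by
  intro h4 h5 K D hT h9 f hf
  obtain ⟨r1, -, -, -, r5, r6, r7⟩ := hR {3} K D f ⟨0⟩ hT hf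
  rw [h9] at r1 r5
  have nk : ∀ x y, hammingDist x y = 3 → ¬Kept {3} f x y := fun x y h hk => hk.2 (hf x y h)
  have link0 : ∀ u c c', hammingDist c c' = 3 → hammingDist u c % 3 = 1 →
      hammingDist u c' % 3 = 2 → (Kept {3} f u c ↔ Kept {3} f u c') := by
    intro u c c' h h1 h2
    obtain ⟨C, hC, hC9, hc, hc'⟩ := exists_clique hM hT.cl h9 h
    have hu : u ∉ C := fun hu => by
      have := cl_mod hC hu hc
      omega
    have e1 := lev_le h5 r1 hC hC9 u hc (s := 2) (t := 0) (by omega) (by omega)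
    have e2 := lev_le h5 r1 hC hC9 u hc' (s := 1) (t := 0) (by omega) (by omega)
    have e3 := lev_sum C u
    have key : ∀ x ∈ C, hammingDist u x % 3 ≠ 0 → ¬Kept {3} f u x → ∀ y ∈ C, ¬Kept {3} f u y := by
      intro x hx hx0 hk
      refine r5 3 (bound h5 r1) C hC hC9 u (insert x (C.filter fun c => hammingDist u c % 3 = 0))
        (insert_subset hx (filter_subset _ _)) ?_ fun y hy => ?_
      · rw [card_insert_of_notMem (by simp [hx0])]
        omega
      · rcases mem_insert.1 hy with rfl | hy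
        · exact hk
        · obtain ⟨y1, y2⟩ := mem_filter.1 hy
          exact nk _ _ (eq_three h5 (fun e => hu (e ▸ y1)) y2)
    exact ⟨fun hk => by_contra fun hn => key c' hc' (by omega) hn c hc hk,
      fun hk => by_contra fun hn => key c hc (by omega) hn c' hc' hk⟩
  have two : ∀ u c, hammingDist u c = 2 →
      ∃ c0, hammingDist u c0 = 1 ∧ (Kept {3} f u c ↔ Kept {3} f u c0) := by
    intro u c h
    obtain ⟨c0, h1, h2⟩ := exists_pt u c (a := 0) (b := 0) (e := 1) le_rfl (by omega) (by omega)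
    exact ⟨c0, h1, (link0 u c0 c (by rw [hammingDist_comm]; omega) (by omega) (by omega)).symm⟩
  have four : ∀ u c, hammingDist u c = 4 →
      ∃ c0, hammingDist u c0 = 1 ∧ (Kept {3} f u c ↔ Kept {3} f u c0) := by
    intro u c h
    obtain ⟨c', h1, h2⟩ := exists_pt u c (a := 1) (b := 2) (e := 0) (by omega) (by omega) (by omega)
    obtain ⟨c0, h3, h6⟩ := two u c' h1
    exact ⟨c0, h3, (link0 u c c' (by omega) (by omega) (by omega)).trans h6⟩
  have all : ∀ u c, u ≠ c → hammingDist u c ≠ 3 →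
      ∃ c0, hammingDist u c0 = 1 ∧ (Kept {3} f u c ↔ Kept {3} f u c0) := by
    intro u c hne h3
    have h1 : hammingDist u c ≤ Fintype.card ι := hammingDist_le_card_fintype
    have h2 : hammingDist u c ≠ 0 := hammingDist_ne_zero.2 hne
    obtain h | h | h | h : hammingDist u c = 1 ∨ hammingDist u c = 2 ∨ hammingDist u c = 4 ∨
        hammingDist u c = 5 := by omega
    · exact ⟨c, h, Iff.rfl⟩
    · exact two u c h
    · exact four u c h
    · obtain ⟨c', h6, h7⟩ :=
        exists_pt u c (a := 2) (b := 4) (e := 0) (by omega) (by omega) (by omega)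
      obtain ⟨c0, h8, h9⟩ := four u c' h6
      exact ⟨c0, h8, (link0 u c' c (by rw [hammingDist_comm]; omega) (by omega)
        (by omega)).symm.trans h9⟩
  have one : ∀ u c, hammingDist u c = 1 → Kept {3} f u c →
      ∀ c', hammingDist u c' = 1 → Kept {3} f u c' := by
    intro u c h hk c' h'
    obtain ⟨x, h1, h2, h3⟩ := exists_two h4 h h'
    exact (link0 u c' x h3 (by omega) (by omega)).2 ((link0 u c x h2 (by omega) (by omega)).1 hk)
  by_cases hex : ∃ x y, Kept {3} f x y
  · obtain ⟨x, y, hk⟩ := hex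
    obtain ⟨c0, h1, h2⟩ := all x y (fun e => hk.1 (by rw [e])) fun h => nk x y h hk
    have hP : ∀ u, ∀ c, hammingDist u c = 1 → Kept {3} f u c := fun u =>
      B1.walk (fun z => ∀ c, hammingDist z c = 1 → Kept {3} f z c) x u (fun z i hz => by
        by_cases hi : u i = z i
        · rwa [hi, update_eq_self]
        · have h3 := dist_update z i hi
          exact one _ z (by rwa [hammingDist_comm]) (kept_symm (hz _ h3))) (one x c0 h1 (h2.1 hk))
    refine r7 fun a b hne hd => ?_
    obtain ⟨c, h6, h7⟩ := all a b hne hd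
    exact (h7.2 (hP a c h6)).1
  · exact r6 fun x y hk => hex ⟨x, y, hk⟩

end Pool.Agent.MP_92191b_al.X

end

section

/-! Connectivity of the pairs at distance `J + 1`. -/

set_option linter.unusedSectionVars false

namespace Pool.Agent.MP_92191b_al.K6

open Finset Function Equiv

variable {ι α : Type} [Fintype ι] [DecidableEq ι] [Fintype α] [DecidableEq α]

namespace Conn

theorem dist_eq (x y : ι → α) : hammingDist x y = (df x y).card := rfl

theorem mem_df {x y : ι → α} {i : ι} : i ∈ df x y ↔ x i ≠ y i := by simp [df]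

/-- The hypothesis of the statement. -/
def Hyp (J e : ℕ) (p : (ι → α) → (ι → α) → Prop) : Prop :=
  ∀ ζ E x, 2 * e + E.card = J → dev ζ E x = e + 1 → ∀ a ∈ AK ζ E e, ∀ a' ∈ AK ζ E e,
    hammingDist x a = J + 1 → hammingDist x a' = J + 1 → p x a → p x a'

theorem move {J e : ℕ} {p : (ι → α) → (ι → α) → Prop} (he : 1 ≤ e) (hJ : 2 * e ≤ J)
    (H : Hyp J e p) {x y y' : ι → α} (hy : hammingDist x y = J + 1)
    (hy' : hammingDist x y' = J + 1) {W : Finset ι} (hW : W.card = J)
    (h : ∀ i ∈ W, x i ≠ y i ∧ y' i = y i) (hp : p x y) : p x y' := by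
  obtain ⟨P, hPW, hP⟩ := exists_subset_card_eq (s := W) (n := e + 1) (by omega)
  obtain ⟨E, hEW, hE⟩ := exists_subset_card_eq (s := W \ P) (n := J - 2 * e) (by
    rw [card_sdiff_of_subset hPW]; omega)
  have hEP : Disjoint E P := by
    rw [disjoint_left]
    intro i hi
    exact (mem_sdiff.1 (hEW hi)).2
  set ζ : ι → α := fun i => if i ∈ P then y i else x i with hζ
  have hx : dev ζ E x = e + 1 := by
    rw [← hP, dev]
    congr 1
    ext i
    simp only [mem_filter, mem_univ, true_and, hζ]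
    by_cases hi : i ∈ P
    · simp only [hi, if_true, iff_true]
      exact ⟨fun k => disjoint_left.1 hEP k hi, (h i (hPW hi)).1⟩
    · simp [hi]
  have key : ∀ z : ι → α, hammingDist x z = J + 1 → (∀ i ∈ W, z i = y i) → z ∈ AK ζ E e := by
    intro z hz hzy
    have hsub : E ∪ P ⊆ df x z := by
      intro i hi
      have hiW : i ∈ W := by
        rcases mem_union.1 hi with k | k
        · exact (mem_sdiff.1 (hEW k)).1
        · exact hPW k
      rw [mem_df, hzy i hiW]
      exact (h i hiW).1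
    have h1 : dev ζ E z ≤ (df x z \ (E ∪ P)).card := by
      refine card_le_card fun i hi => ?_
      simp only [mem_filter, mem_univ, true_and, hζ] at hi
      by_cases k : i ∈ P
      · rw [if_pos k] at hi
        exact (hi.2 (hzy i (hPW k))).elim
      · rw [if_neg k] at hi
        rw [mem_sdiff, mem_df, mem_union]
        exact ⟨fun q => hi.2 q.symm, fun q => q.elim hi.1 k⟩
    rw [card_sdiff_of_subset hsub, card_union_of_disjoint hEP, ← dist_eq, hz] at h1
    simp only [AK, mem_filter, mem_univ, true_and]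
    omega
  exact H ζ E x (by omega) hx y (key y hy fun _ _ => rfl) y' (key y' hy' fun i hi => (h i hi).2)
    hy hy' hp

theorem fixed {J e : ℕ} {p : (ι → α) → (ι → α) → Prop} (he : 1 ≤ e) (hJ : 2 * e ≤ J)
    (H : Hyp J e p) {x y' : ι → α} (hy' : hammingDist x y' = J + 1) (n : ℕ) :
    ∀ y, ((df x y').filter fun i => y i ≠ y' i).card = n → hammingDist x y = J + 1 → p x y →
      p x y' := by
  induction n using Nat.strong_induction_on with
  | _ n ih =>
  intro y hn hy hp
  by_cases h0 : ∀ i ∈ df x y', y i = y' i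
  · have hsub : df x y' ⊆ df x y := fun i hi => by
      rw [mem_df, h0 i hi]
      exact mem_df.1 hi
    have heq : df x y' = df x y :=
      eq_of_subset_of_card_le hsub (by rw [← dist_eq, ← dist_eq, hy, hy'])
    have : y = y' := by
      funext i
      by_cases hi : i ∈ df x y'
      · exact h0 i hi
      · have hi' : i ∉ df x y := heq ▸ hi
        rw [mem_df, not_not] at hi hi'
        rw [← hi, ← hi']
    exact this ▸ hp
  push Not at h0
  obtain ⟨i', hi', hne⟩ := h0
  have hex : ∃ i ∈ df x y, i' ∉ (df x y).erase i ∧ (i ∈ df x y' → i = i') := by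
    by_cases k : i' ∈ df x y
    · exact ⟨i', k, notMem_erase _ _, fun _ => rfl⟩
    · by_contra hc
      push Not at hc
      have hsub : insert i' (df x y) ⊆ df x y' := by
        intro j hj
        rcases mem_insert.1 hj with rfl | hj
        · exact hi'
        · exact (hc j hj fun q => k (mem_of_mem_erase q)).1
      have := card_le_card hsub
      rw [card_insert_of_notMem k, ← dist_eq, ← dist_eq, hy, hy'] at this
      omega
  obtain ⟨i, hi, h1, h2⟩ := hex
  set z : ι → α := update (update y i (x i)) i' (y' i') with hz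
  have z0 : z i' = y' i' := update_self _ _ _
  have z1 : ∀ j, j ≠ i → j ≠ i' → z j = y j := fun j a b => by
    rw [hz, update_of_ne b, update_of_ne a]
  have hW : ((df x y).erase i).card = J := by
    rw [card_erase_of_mem hi, ← dist_eq, hy]
    rfl
  have hdf : df x z = insert i' ((df x y).erase i) := by
    ext j
    rw [mem_insert, mem_erase, mem_df, mem_df]
    by_cases a : j = i'
    · rw [a, z0]
      exact ⟨fun _ => Or.inl rfl, fun _ => mem_df.1 hi'⟩
    by_cases b : j = i
    · have : z j = x j := by rw [hz, update_of_ne a, b, update_self]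
      rw [this]
      exact ⟨fun q => (q rfl).elim, fun q => (q.elim a fun r => r.1 b).elim⟩
    · rw [z1 j b a]
      simp [a, b]
  have hzd : hammingDist x z = J + 1 := by
    rw [dist_eq, hdf, card_insert_of_notMem h1, hW]
  have hpz : p x z := move he hJ H hy hzd hW (fun j hj =>
    ⟨mem_df.1 (mem_of_mem_erase hj), z1 j (ne_of_mem_erase hj) fun q => h1 (q ▸ hj)⟩) hp
  refine ih _ ?_ z rfl hzd hpz
  rw [← hn]
  refine card_lt_card ⟨fun j hj => ?_, fun hs => ?_⟩
  · rw [mem_filter] at hj ⊢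
    have a : j ≠ i' := fun q => hj.2 (by rw [q, z0])
    have b : j ≠ i := fun q => a (q.trans (h2 (q ▸ hj.1)))
    exact ⟨hj.1, z1 j b a ▸ hj.2⟩
  · exact (mem_filter.1 (hs (mem_filter.2 ⟨hi', hne⟩))).2 z0

theorem common (hk : 3 ≤ Fintype.card α) {J : ℕ} (hJ : J + 1 ≤ Fintype.card ι) (x : ι → α)
    (i : ι) (a : α) :
    ∃ y, hammingDist x y = J + 1 ∧ hammingDist (update x i a) y = J + 1 := by
  obtain ⟨S, hS, hc⟩ := exists_subset_card_eq (s := (univ : Finset ι).erase i) (n := J) (by
    rw [card_erase_of_mem (mem_univ _), card_univ]; omega)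
  have hiS : i ∉ S := fun h => notMem_erase _ _ (hS h)
  obtain ⟨c, c1, c2⟩ := exists_ne2 hk (x i) a
  choose w hw using fun j : ι => exists_ne1 (by omega) (x j)
  have key : ∀ b, c ≠ b →
      hammingDist (update x i b) (update (fun j => if j ∈ S then w j else x j) i c) = J + 1 := by
    intro b hb
    rw [dist_eq, ← hc, ← card_insert_of_notMem hiS]
    congr 1
    ext j
    rw [mem_df, mem_insert]
    by_cases h : j = i
    · rw [h, update_self, update_self]
      simp [hb.symm]
    · rw [update_of_ne h, update_of_ne h]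
      by_cases k : j ∈ S
      · simp [k, (hw j).symm]
      · simp [k, h]
  refine ⟨_, ?_, key a c2⟩
  have := key (x i) c1
  rwa [update_eq_self] at this

end Conn

open Conn in
theorem conn : StmtConn ι α := by
  intro hk J e p he hJ hι hsymm H x y x' y' hy hy' hp
  have fx : ∀ x y y' : ι → α, hammingDist x y = J + 1 → hammingDist x y' = J + 1 → p x y →
      p x y' := fun x y y' h h' k => fixed he hJ H h' _ y rfl h k
  have step : ∀ (u : ι → α) (i : ι) (a : α), (∃ v, hammingDist u v = J + 1 ∧ p u v) →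
      ∃ v, hammingDist (update u i a) v = J + 1 ∧ p (update u i a) v := by
    rintro u i a ⟨v, hv, hpv⟩
    obtain ⟨z, z1, z2⟩ := common hk hι u i a
    refine ⟨z, z2, hsymm _ _ (fx z u _ ?_ ?_ (hsymm _ _ (fx u v z hv z1 hpv)))⟩
    · rw [hammingDist_comm, z1]
    · rw [hammingDist_comm, z2]
  have all : ∀ S : Finset ι,
      ∃ v, hammingDist (S.piecewise x' x) v = J + 1 ∧ p (S.piecewise x' x) v := by
    intro S
    induction S using Finset.induction_on with
    | empty => exact ⟨y, by simpa using hy, by simpa using hp⟩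
    | insert j S _ ih =>
      rw [piecewise_insert]
      exact step _ _ _ ih
  obtain ⟨v, hv, hpv⟩ := all univ
  rw [piecewise_univ] at hv hpv
  exact fx x' v y' hv hy' hpv

end Pool.Agent.MP_92191b_al.K6

end

section

/-! The complement of the graph of distance three over three letters. -/

set_option linter.unusedSectionVars false

namespace Pool.Agent.MP_92191b_al.X

open Finset Function Equiv K6

variable {ι α : Type} [Fintype ι] [DecidableEq ι] [Fintype α] [DecidableEq α]

namespace CoThree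

/-- The set of distances of the complement. -/
def S3 : Set ℕ := {s | s ≠ 0 ∧ s ≠ 3}

theorem nd_K {K : Finset (ι → α)} (hK : Cl {3} K) (h9 : K.card = 9) {v : ι → α} (hv : v ∈ K) :
    nd K v 3 = 8 ∧ ∀ s, s ≠ 0 → s ≠ 3 → nd K v s = 0 := by
  constructor
  · have : (K.filter fun c => hammingDist v c = 3) = K.erase v := by
      ext c
      simp only [mem_filter, mem_erase]
      constructor
      · rintro ⟨hc, h⟩
        refine ⟨?_, hc⟩
        rintro rfl
        simp at h
      · rintro ⟨hne, hc⟩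
        exact ⟨hc, hK v hv c hc (Ne.symm hne)⟩
    unfold nd
    rw [this, card_erase_of_mem hv, h9]
  · intro s h0 h3
    unfold nd
    rw [card_eq_zero, filter_eq_empty_iff]
    intro c hc h
    by_cases hvc : v = c
    · subst hvc
      simp at h
      exact h0 h.symm
    · have := hK v hv c hc hvc
      rw [h] at this
      exact h3 this

theorem nd_zero {C : Finset (ι → α)} {u : ι → α} (hu : u ∉ C) : nd C u 0 = 0 := by
  unfold nd
  rw [card_eq_zero, filter_eq_empty_iff]
  intro c hc h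
  exact hu (hammingDist_eq_zero.1 h ▸ hc)

theorem nd_three (hO : StmtOut ι (Fin 3)) (hm : 4 ≤ Fintype.card ι)
    {K C : Finset (ι → Fin 3)} (hK : Cl {3} K) (h9 : K.card = 9) (hC : Cl S3 C)
    (hbig : Fintype.card (Fin 3) ^ Fintype.card ι ≤ C.card * K.card) {u : ι → Fin 3}
    (hu : u ∉ C) : nd C u 3 = (Fintype.card ι).choose 3 := by
  obtain ⟨v, hv⟩ : K.Nonempty := card_pos.1 (by omega)
  have hsep : K6.Sep C K := by
    refine Glue.sep_of (S := S3) hC ?_
    intro y hy z hz hne h
    exact h.2 (hK y hy z hz hne)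
  have h := hO C K hsep hbig u v
  obtain ⟨h8, h0⟩ := nd_K hK h9 hv
  rw [sum_eq_single 3] at h
  · rw [h8] at h
    have hc : ((Fintype.card ι).choose 3 : ℚ) ≠ 0 := by
      have := Nat.choose_pos (n := Fintype.card ι) (k := 3) (by omega)
      exact_mod_cast this.ne'
    have h2 : ((Fintype.card (Fin 3) - 1 : ℕ) : ℚ) = 2 := by simp
    rw [h2, div_eq_one_iff_eq (by positivity)] at h
    have : (nd C u 3 : ℚ) = ((Fintype.card ι).choose 3 : ℚ) := by
      push_cast at h
      linarith
    exact_mod_cast this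
  · intro s _ hs
    by_cases hs0 : s = 0
    · subst hs0
      rw [nd_zero hu]
      simp
    · rw [h0 s hs0 hs]
      simp
  · intro h3
    exact absurd (mem_range.2 (by omega)) h3

theorem card_not_three {C : Finset (ι → α)} {u : ι → α} :
    (C.filter fun c => hammingDist u c ≠ 3).card = C.card - nd C u 3 := by
  have := card_filter_add_card_filter_not (s := C) fun c => hammingDist u c = 3
  unfold nd
  simp only [ne_eq]
  omega

theorem not_kept {S : Set ℕ} {f : (ι → α) → ι → α} (hf : Hom S f) {x y : ι → α}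
    (h : hammingDist x y ∈ S) : ¬Kept S f x y := fun hk => hk.2 (hf x y h)

theorem kept_symm {S : Set ℕ} {f : (ι → α) → ι → α} {x y : ι → α} (h : Kept S f x y) :
    Kept S f y x := ⟨h.1.symm, by rw [hammingDist_comm]; exact h.2⟩

/-- A third point at distance two from two neighbours. -/
theorem detour (hk : 2 ≤ Fintype.card α) (hm : 4 ≤ Fintype.card ι) {u c c' : ι → α}
    (h1 : hammingDist u c = 3) (h2 : hammingDist u c' = 3) (h3 : hammingDist c c' = 1) :
    ∃ w, hammingDist u w = 3 ∧ hammingDist c w = 2 ∧ hammingDist w c' = 2 := by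
  rw [Conn.dist_eq] at h1 h2 h3
  obtain ⟨i, hi⟩ := card_eq_one.1 h3
  have hii : c i ≠ c' i := Conn.mem_df.1 (hi ▸ mem_singleton_self i)
  have hoff : ∀ r, r ≠ i → c r = c' r := by
    intro r hr
    by_contra hne
    exact hr (mem_singleton.1 (hi ▸ Conn.mem_df.2 hne))
  have hui : u i ≠ c i := by
    intro he
    have : df u c' = insert i (df u c) := by
      ext r
      simp only [mem_insert, Conn.mem_df]
      by_cases hr : r = i
      · subst hr
        simp [he, hii]
      · simp [hr, hoff r hr]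
    rw [this, card_insert_of_notMem (by simp [Conn.mem_df, he])] at h2
    omega
  have hui' : u i ≠ c' i := by
    intro he
    have : df u c = insert i (df u c') := by
      ext r
      simp only [mem_insert, Conn.mem_df]
      by_cases hr : r = i
      · subst hr
        simp [hui]
      · simp [hr, hoff r hr]
    rw [this, card_insert_of_notMem (by simp [Conn.mem_df, he])] at h1
    omega
  obtain ⟨j, hj⟩ : ∃ j, j ∉ df u c := by
    by_contra hall
    push Not at hall
    have : df u c = univ := eq_univ_iff_forall.2 hall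
    rw [this, card_univ] at h1
    omega
  have huj : u j = c j := by
    by_contra hne
    exact hj (Conn.mem_df.2 hne)
  have hji : j ≠ i := by
    rintro rfl
    exact hui huj
  obtain ⟨t, ht⟩ := exists_ne1 hk (u j)
  refine ⟨update (update c i (u i)) j t, ?_, ?_, ?_⟩
  · have : df u (update (update c i (u i)) j t) = insert j ((df u c).erase i) := by
      ext r
      simp only [mem_insert, mem_erase, Conn.mem_df]
      by_cases hr : r = j
      · subst hr
        simp [ht.symm]
      · by_cases hr' : r = i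
        · subst hr'
          simp [hr]
        · simp [hr, hr']
    rw [Conn.dist_eq, this, card_insert_of_notMem (fun h => hj (mem_of_mem_erase h)),
      card_erase_of_mem (Conn.mem_df.2 hui), h1]
  · have : df c (update (update c i (u i)) j t) = {j, i} := by
      ext r
      simp only [mem_insert, mem_singleton, Conn.mem_df]
      by_cases hr : r = j
      · subst hr
        simp [← huj, ht.symm]
      · by_cases hr' : r = i
        · subst hr'
          simp [hr, hui.symm]
        · simp [hr, hr']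
    rw [Conn.dist_eq, this, card_pair hji]
  · have : df (update (update c i (u i)) j t) c' = {j, i} := by
      ext r
      simp only [mem_insert, mem_singleton, Conn.mem_df]
      by_cases hr : r = j
      · subst hr
        simp [← hoff r hji, ← huj, ht]
      · by_cases hr' : r = i
        · subst hr'
          simp [hr, hui']
        · simp [hr, hr', hoff r hr']
    rw [Conn.dist_eq, this, card_pair hji]

end CoThree

open CoThree in
theorem coThree (hM : StmtMove ι (Fin 3)) (hO : StmtOut ι (Fin 3)) (hR : StmtRob ι (Fin 3)) :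
    StmtCoThree ι := by
  intro hm _ K D htp h9 hD2 f hf
  change Hom S3 f at hf
  have hDc : Cl S3 D := fun y hy z hz hne =>
    ⟨fun h => hne (hammingDist_eq_zero.1 h), htp.co y hy z hz hne⟩
  have htp' : TP S3 D K :=
    ⟨fun h => h.1 rfl, hDc, fun y hy z hz hne h => h.2 (htp.cl y hy z hz hne),
      by rw [mul_comm]; exact htp.big⟩
  obtain ⟨-, -, -, -, h5, h6, h7⟩ := hR S3 D K f ⟨0⟩ htp' hf
  have hnd : ∀ C : Finset (ι → Fin 3), Cl S3 C → C.card = D.card → ∀ u, u ∉ C →
      (C.filter fun c => hammingDist u c ≠ 3).card = D.card - (Fintype.card ι).choose 3 := by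
    intro C hC hc u hu
    rw [card_not_three, nd_three hO hm htp.cl h9 hC (by rw [hc]; exact htp'.big) hu, hc]
  have hB : Bound ι (Fin 3) S3 D.card (D.card - (Fintype.card ι).choose 3) := by
    intro C hC hc u hu T hT hTS
    rw [← hnd C hC hc u hu]
    exact card_le_card fun c hcT => mem_filter.2 ⟨hT hcT, (hTS c hcT).2⟩
  have link2 : ∀ u c c' : ι → Fin 3, hammingDist u c = 3 → hammingDist c c' = 2 →
      ¬Kept S3 f u c → ¬Kept S3 f u c' := by
    intro u c c' huc hcc hk
    obtain ⟨x, hx, y, hy, hxy⟩ := hD2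
    obtain ⟨g, hg, hgx, hgy⟩ := hM x y c c' (by rw [hcc, hxy])
    have hC : Cl S3 (D.image g) := by
      intro a ha b hb hab
      obtain ⟨a', ha', rfl⟩ := mem_image.1 ha
      obtain ⟨b', hb', rfl⟩ := mem_image.1 hb
      rw [hg]
      exact hDc a' ha' b' hb' fun h => hab (by rw [h])
    have hcard : (D.image g).card = D.card := card_image_of_injective _ g.injective
    have hc : c ∈ D.image g := mem_image.2 ⟨x, hx, hgx⟩
    have hc' : c' ∈ D.image g := mem_image.2 ⟨y, hy, hgy⟩
    have hu : u ∉ D.image g := by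
      intro hu
      refine (hC u hu c hc ?_).2 huc
      rintro rfl
      simp at huc
    refine h5 _ hB (D.image g) hC hcard u
      (insert c ((D.image g).filter fun a => hammingDist u a ≠ 3)) ?_ ?_ ?_ c' hc'
    · exact insert_subset hc (filter_subset _ _)
    · rw [card_insert_of_notMem (by simp [huc]), hnd _ hC hcard u hu]
      omega
    · intro a ha
      rcases mem_insert.1 ha with rfl | ha
      · exact hk
      · obtain ⟨ha1, ha2⟩ := mem_filter.1 ha
        exact not_kept hf ⟨fun h => hu (hammingDist_eq_zero.1 h ▸ ha1), ha2⟩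
  have hall := conn (ι := ι) (α := Fin 3) (by simp) 2 1 (fun x y => ¬Kept S3 f x y) le_rfl
    le_rfl (by omega) (fun x y h h' => h (kept_symm h')) (by
      intro ζ E x hE _ a ha a' ha' hxa hxa' hp
      have hd : hammingDist a a' ≤ 2 * 1 + E.card := (ty sph).2.1 ζ E 1 a ha a' ha'
      rw [hE] at hd
      have h012 : hammingDist a a' = 0 ∨ hammingDist a a' = 1 ∨ hammingDist a a' = 2 := by omega
      rcases h012 with h | h | h
      · exact hammingDist_eq_zero.1 h ▸ hp
      · obtain ⟨w, hw1, hw2, hw3⟩ := detour (by simp) hm hxa hxa' h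
        exact link2 x w a' hw1 hw3 (link2 x a w hxa hw2 hp)
      · exact link2 x a a' hxa h hp)
  by_cases hex : ∃ x y, hammingDist x y = 3 ∧ ¬Kept S3 f x y
  · obtain ⟨x0, y0, h0, hk0⟩ := hex
    refine h6 fun x y => ?_
    by_cases hxy : x = y
    · exact fun h => h.1 (by rw [hxy])
    by_cases h3 : hammingDist x y = 3
    · exact hall x0 y0 x y h0 h3 hk0
    · exact not_kept hf ⟨fun h => hxy (hammingDist_eq_zero.1 h), h3⟩
  · refine h7 fun x y hxy hS => ?_
    have h3 : hammingDist x y = 3 := by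
      by_contra h3
      exact hS ⟨fun h => hxy (hammingDist_eq_zero.1 h), h3⟩
    by_contra he
    exact hex ⟨x, y, h3, fun h => h.1 he⟩

end Pool.Agent.MP_92191b_al.X

end

section

/-! Uniformity when the largest cliques are products of a ball and a cube. -/

set_option linter.unusedSectionVars false

namespace Pool.Agent.MP_92191b_al.K6

open Finset Function Equiv

variable {ι α : Type} [Fintype ι] [DecidableEq ι] [Fintype α] [DecidableEq α]

namespace B2

theorem mem_AK {ζ x : ι → α} {E : Finset ι} {e : ℕ} : x ∈ AK ζ E e ↔ dev ζ E x ≤ e := by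
  simp [AK]

theorem dev_comm (ζ x : ι → α) (E : Finset ι) : dev ζ E x = dev x E ζ := by
  simp only [dev, ne_comm]

theorem self_mem (x : ι → α) (E : Finset ι) (e : ℕ) : x ∈ AK x E e := by
  simp [mem_AK, dev]

theorem dev_update (ζ x : ι → α) (E : Finset ι) (i : ι) (a : α) :
    dev ζ E x ≤ dev (update ζ i a) E x + 1 := by
  refine le_trans (card_le_card fun j hj => ?_) (card_insert_le i _)
  rw [mem_insert, mem_filter]
  by_cases h : j = i
  · exact Or.inl h
  · rw [update_of_ne h]
    exact Or.inr (mem_filter.1 hj)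

theorem const_of_update {β : Type} (B : (ι → α) → β) (h : ∀ ζ i a, B (update ζ i a) = B ζ)
    (ζ ζ' : ι → α) : B ζ' = B ζ := by
  have key : ∀ s : Finset ι, B (s.piecewise ζ' ζ) = B ζ := by
    intro s
    induction s using Finset.induction_on with
    | empty => rw [piecewise_empty]
    | insert j s _ ih => rw [piecewise_insert, h, ih]
  rw [← key univ, piecewise_univ]

theorem nu_eq (hT : StmtTy ι α) (hF : StmtFar ι α) (hk : 3 ≤ Fintype.card α) {J N e e' : ℕ}
    (hn : Nonempty (ι → α)) (hM : MaxA ι α J N) (h : Ty ι α J N e) (h' : Ty ι α J N e') :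
    nu (Fintype.card ι) (Fintype.card α) J e = nu (Fintype.card ι) (Fintype.card α) J e' := by
  have key : ∀ e e', Ty ι α J N e → Ty ι α J N e' → e < e' →
      nu (Fintype.card ι) (Fintype.card α) J e = nu (Fintype.card ι) (Fintype.card α) J e' := by
    intro e e' h h' hlt
    obtain ⟨rfl, h1⟩ := hT.2.2.2 hk J N e e' hn hM h h' hlt
    exact (hF hk).2 _ _ _ _ hk h'.1 h1
  rcases lt_trichotomy e e' with k | rfl | k
  · exact key _ _ h h' k
  · rfl
  · exact (key _ _ h' h k).symm

variable {J N e : ℕ} {f : (ι → α) → ι → α} {ζ x : ι → α} {E : Finset ι}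

theorem dist_le
    (hf : ∀ x y, x ≠ y → hammingDist x y ≤ J → f x ≠ f y ∧ hammingDist (f x) (f y) ≤ J)
    {x y : ι → α} (h : hammingDist x y ≤ J) : hammingDist (f x) (f y) ≤ J := by
  by_cases k : x = y
  · simp [k]
  · exact (hf x y k h).2

theorem injOn (hT : StmtTy ι α)
    (hf : ∀ x y, x ≠ y → hammingDist x y ≤ J → f x ≠ f y ∧ hammingDist (f x) (f y) ≤ J)
    (hE : 2 * e + E.card = J) : Set.InjOn f (AK ζ E e) := by
  intro x hx y hy h
  by_contra k
  exact (hf x y k (hE ▸ hT.2.1 ζ E e x hx y hy)).1 h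

theorem diam_image (hT : StmtTy ι α)
    (hf : ∀ x y, x ≠ y → hammingDist x y ≤ J → f x ≠ f y ∧ hammingDist (f x) (f y) ≤ J)
    (hE : 2 * e + E.card = J) : Diam ((AK ζ E e).image f) J := by
  intro x hx y hy
  obtain ⟨a, ha, rfl⟩ := mem_image.1 hx
  obtain ⟨b, hb, rfl⟩ := mem_image.1 hy
  exact dist_le hf (hE ▸ hT.2.1 ζ E e a ha b hb)

theorem card_image (hT : StmtTy ι α) (hTy : Ty ι α J N e)
    (hf : ∀ x y, x ≠ y → hammingDist x y ≤ J → f x ≠ f y ∧ hammingDist (f x) (f y) ≤ J)
    (hE : 2 * e + E.card = J) : ((AK ζ E e).image f).card = N := by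
  rw [card_image_of_injOn (injOn hT hf hE), hTy.2.2 ζ E hE]

theorem key (hT : StmtTy ι α) (hF : StmtFar ι α) (hk : 3 ≤ Fintype.card α) (hM : MaxA ι α J N)
    (hTy : Ty ι α J N e) (he : 1 ≤ e)
    (hf : ∀ x y, x ≠ y → hammingDist x y ≤ J → f x ≠ f y ∧ hammingDist (f x) (f y) ≤ J)
    (hE : 2 * e + E.card = J) (hx : dev ζ E x = e + 1) (hn : f x ∉ (AK ζ E e).image f)
    {a : ι → α} (ha : a ∈ AK ζ E e) (hd : hammingDist x a = J + 1) :
    hammingDist (f x) (f a) = J + 1 := by
  obtain ⟨ζ', E', e', hE', hTy', hA⟩ := hM.eq _ (diam_image (ζ := ζ) hT hf hE)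
    (card_image hT hTy hf hE)
  have hJ : 2 ≤ J := by omega
  have h1 := (((hF hk).1 J e ζ E x hJ hE hTy.2.1).1 hx).2
  obtain ⟨h2, h3⟩ := (hF hk).1 J e' ζ' E' (f x) hJ hE' hTy'.2.1
  have h4 : (AK ζ' E' e').filter (fun b => J < hammingDist (f x) b) ⊆
      ((AK ζ E e).filter fun b => J < hammingDist x b).image f := by
    intro b hb
    obtain ⟨hb1, hb2⟩ := mem_filter.1 hb
    rw [← hA] at hb1
    obtain ⟨c, hc, rfl⟩ := mem_image.1 hb1
    exact mem_image_of_mem f (mem_filter.2 ⟨hc, not_le.1 fun h => (dist_le hf h).not_gt hb2⟩)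
  have h5 : (((AK ζ E e).filter fun b => J < hammingDist x b).image f).card ≤
      nu (Fintype.card ι) (Fintype.card α) J e' := by
    rw [← nu_eq hT hF hk ⟨x⟩ hM hTy hTy', ← h1]
    exact card_image_le
  rw [hA, mem_AK] at hn
  have h6 : dev ζ' E' (f x) = e' + 1 := by
    by_contra k
    exact ((card_le_card h4).trans h5).not_gt (h3 (by omega))
  obtain ⟨h7, h8⟩ := h2 h6
  have h9 : f a ∈ (AK ζ' E' e').filter fun b => J < hammingDist (f x) b := by
    rw [eq_of_subset_of_card_le h4 (h8 ▸ h5)]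
    exact mem_image_of_mem f (mem_filter.2 ⟨ha, by omega⟩)
  obtain ⟨h10, h11⟩ := mem_filter.1 h9
  have := h7 _ h10
  omega

theorem unif (hT : StmtTy ι α) (hTy : Ty ι α J N e)
    (hf : ∀ x y, x ≠ y → hammingDist x y ≤ J → f x ≠ f y ∧ hammingDist (f x) (f y) ≤ J)
    (hE : 2 * e + E.card = J)
    (h : ∀ ζ x, dev ζ E x ≤ e + 1 → f x ∈ (AK ζ E e).image f) : Unif f := by
  have h1 : ∀ ζ i a, (AK (update ζ i a) E e).image f = (AK ζ E e).image f := by
    intro ζ i a
    refine eq_of_subset_of_card_le (fun y hy => ?_)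
      (by rw [card_image hT hTy hf hE, card_image hT hTy hf hE])
    obtain ⟨x, hx, rfl⟩ := mem_image.1 hy
    exact h ζ x ((dev_update ζ x E i a).trans (Nat.succ_le_succ (mem_AK.1 hx)))
  have h2 : ∀ a, (univ.filter fun x => f x = f a).card * N = (univ : Finset (ι → α)).card * 1 := by
    intro a
    refine card_mul_eq_card_mul (fun x ζ => dev x E ζ ≤ e) (fun x _ => hTy.2.2 x E hE)
      fun ζ _ => ?_
    have h3 : f a ∈ (AK ζ E e).image f := by
      rw [const_of_update (fun ζ => (AK ζ E e).image f) h1 a ζ]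
      exact mem_image_of_mem f (self_mem a E e)
    obtain ⟨x, hx, hx'⟩ := mem_image.1 h3
    refine card_eq_one.2 ⟨x, eq_singleton_iff_unique_mem.2 ⟨?_, fun y hy => ?_⟩⟩
    · exact mem_filter.2 ⟨mem_filter.2 ⟨mem_univ _, hx'⟩, (dev_comm x ζ E).trans_le (mem_AK.1 hx)⟩
    · obtain ⟨k1, k2⟩ := mem_filter.1 hy
      exact injOn hT hf hE (mem_coe.2 (mem_AK.2 ((dev_comm ζ y E).trans_le k2))) (mem_coe.2 hx)
        ((mem_filter.1 k1).2.trans hx'.symm)
  intro a b
  have hN : 0 < N := hTy.2.2 a E hE ▸ card_pos.2 ⟨a, self_mem a E e⟩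
  exact Nat.eq_of_mul_eq_mul_right hN ((h2 a).trans (h2 b).symm)

end B2

theorem b2 (hT : StmtTy ι α) (hF : StmtFar ι α) (hC : StmtConn ι α) : StmtB2 ι α := by
  intro hk J N e f hM hTy he hf
  have hJ : J + 1 ≤ Fintype.card ι := by
    have h1 := hTy.2.1
    have h2 : 2 * e ≤ Fintype.card α * e := Nat.mul_le_mul_right _ (by omega)
    omega
  by_cases hp : ∃ x y, hammingDist x y = J + 1 ∧ hammingDist (f x) (f y) = J + 1
  · obtain ⟨x, y, h1, h2⟩ := hp
    refine Or.inr fun x' y' h => hC hk J e (fun x y => hammingDist (f x) (f y) = J + 1) he hTy.1 hJ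
      (fun x y h => by rwa [hammingDist_comm]) ?_ x y x' y' h1 h h2
    intro ζ E x hE hx a ha a' ha' _ hd' k
    refine B2.key hT hF hk hM hTy he hf hE hx (fun hn => ?_) ha' hd'
    have := B2.diam_image hT hf hE _ hn _ (mem_image_of_mem f ha)
    omega
  · obtain ⟨E, -, hE⟩ := exists_subset_card_eq (s := (univ : Finset ι)) (n := J - 2 * e)
      (by rw [card_univ]; omega)
    have hE' : 2 * e + E.card = J := by have := hTy.1; omega
    refine Or.inl (B2.unif hT hTy hf hE' fun ζ x hx => ?_)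
    rcases hx.eq_or_lt with hx | hx
    · by_contra hn
      obtain ⟨h1, h2⟩ := ((hF hk).1 J e ζ E x (by omega) hE' hTy.2.1).1 hx
      have h3 : 0 < nu (Fintype.card ι) (Fintype.card α) J e :=
        Nat.mul_pos (Nat.choose_pos (by omega)) (Nat.pow_pos (by omega))
      obtain ⟨a, ha⟩ := card_pos.1 (h2 ▸ h3)
      obtain ⟨h4, h5⟩ := mem_filter.1 ha
      have h6 : hammingDist x a = J + 1 := le_antisymm (h1 a h4) h5
      exact hp ⟨x, a, h6, B2.key hT hF hk hM hTy he hf hE' hx hn h4 h6⟩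
    · exact mem_image_of_mem f (B2.mem_AK.2 (Nat.le_of_lt_succ hx))

end Pool.Agent.MP_92191b_al.K6

end

section

/-! Points far from an outside point. -/

set_option linter.unusedSectionVars false

namespace Pool.Agent.MP_92191b_al.K6

open Finset Function Equiv

variable {ι α : Type} [Fintype ι] [DecidableEq ι] [Fintype α] [DecidableEq α]

namespace Far

theorem card_upd (p p' : ι → Prop) [DecidablePred p] [DecidablePred p'] (j : ι)
    (h : ∀ i, i ≠ j → (p i ↔ p' i)) : (univ.filter p).card + (if p' j then 1 else 0) =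
      (univ.filter p').card + if p j then 1 else 0 := by
  rw [card_filter, card_filter, ← add_sum_erase _ _ (mem_univ j),
    ← add_sum_erase _ (fun i => if p' i then 1 else 0) (mem_univ j),
    sum_congr rfl fun i hi => if_congr (h i (ne_of_mem_erase hi)) rfl rfl]
  omega

theorem hd (x y : ι → α) : hammingDist x y = (univ.filter fun i => x i ≠ y i).card := rfl

theorem mem_AK {ζ : ι → α} {E : Finset ι} {e : ℕ} {b : ι → α} : b ∈ AK ζ E e ↔ dev ζ E b ≤ e := by
  simp [AK]

theorem split (ζ : ι → α) (E : Finset ι) (y : ι → α) (p : ι → Prop) [DecidablePred p] :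
    (univ.filter p).card = (E.filter p).card +
      ((univ.filter fun i => i ∉ E ∧ y i ≠ ζ i).filter p).card +
      ((univ.filter fun i => i ∉ E ∧ y i = ζ i).filter p).card := by
  rw [← filter_univ_mem E]
  simp only [filter_filter, card_filter, ← sum_add_distrib, mem_filter, mem_univ, true_and]
  refine sum_congr rfl fun i _ => ?_
  by_cases h1 : i ∈ E <;> by_cases h2 : y i = ζ i <;> simp [h1, h2]

theorem base (h : StmtSph ι α) {J e : ℕ} {ζ : ι → α} {E : Finset ι} {y : ι → α}
    (hJ : 2 * e + E.card = J) (hy : dev ζ E y = e + 1) :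
    (∀ b ∈ AK ζ E e, hammingDist y b ≤ J + 1) ∧
      ((AK ζ E e).filter fun b => J < hammingDist y b).card =
        nu (Fintype.card ι) (Fintype.card α) J e := by
  set P := univ.filter fun i => i ∉ E ∧ y i ≠ ζ i with hP
  set R := univ.filter fun i => i ∉ E ∧ y i = ζ i with hR
  have hPc : P.card = e + 1 := hy
  have h1 : ∀ b : ι → α, hammingDist y b = (E.filter fun i => y i ≠ b i).card +
      (P.filter fun i => y i ≠ b i).card + (R.filter fun i => b i ≠ ζ i).card := fun b => by
    rw [hd, split ζ E y]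
    congr 2
    exact filter_congr fun i hi => by rw [(mem_filter.1 hi).2.2, ne_comm]
  have h2 : ∀ b : ι → α, dev ζ E b =
      (P.filter fun i => b i ≠ ζ i).card + (R.filter fun i => b i ≠ ζ i).card := fun b => by
    rw [dev, split ζ E y, filter_false_of_mem fun i hi h => h.1 hi, card_empty, zero_add]
    congr 2 <;> exact filter_congr fun i hi => and_iff_right (mem_filter.1 hi).2.1
  have h3 := split ζ E y fun _ => True
  simp only [filter_true, card_univ, ← hP, ← hR] at h3
  refine ⟨fun b hb => ?_, ?_⟩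
  · have a1 := card_filter_le E fun i => y i ≠ b i
    have a2 := card_filter_le P fun i => y i ≠ b i
    rw [mem_AK, h2] at hb
    rw [h1]
    omega
  have h4 := h (fun i => if i ∈ E then y i else ζ i) P E R e
    (disjoint_left.2 fun i hi => (mem_filter.1 hi).2.1)
    (disjoint_left.2 fun i hi hi' => (mem_filter.1 hi).2.2 (mem_filter.1 hi').2.2)
    (disjoint_left.2 fun i hi hi' => (mem_filter.1 hi').2.1 hi)
  rw [show Fintype.card ι - P.card - E.card - R.card = 0 by omega, pow_zero, mul_one,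
    show R.card = Fintype.card ι + e - J - 1 by omega,
    show e + E.card = J - e by omega] at h4
  rw [nu, ← h4]
  congr 1
  ext b
  have h5 : (R.filter fun i => b i ≠ if i ∈ E then y i else ζ i) = R.filter fun i => b i ≠ ζ i :=
    filter_congr fun i hi => by rw [if_neg (mem_filter.1 hi).2.1]
  have h6 : (∀ i ∈ P, b i = if i ∈ E then y i else ζ i) ↔ ∀ i ∈ P, b i = ζ i :=
    forall₂_congr fun i hi => by rw [if_neg (mem_filter.1 hi).2.1]
  have h7 : (∀ i ∈ E, b i ≠ if i ∈ E then y i else ζ i) ↔ ∀ i ∈ E, y i ≠ b i :=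
    forall₂_congr fun i hi => by rw [if_pos hi, ne_comm]
  rw [mem_filter, mem_filter, mem_AK, h1, h2, h5, h6, h7]
  have a1 := card_filter_le E fun i => y i ≠ b i
  have a2 := card_filter_le P fun i => y i ≠ b i
  constructor
  · rintro ⟨c1, c2⟩
    refine ⟨mem_univ _, fun i hi => ?_, card_filter_eq_iff.1 (by omega), by omega⟩
    exact not_not.1 (card_filter_eq_zero_iff.1
      (by omega : (P.filter fun i => b i ≠ ζ i).card = 0) i hi)
  · rintro ⟨-, c1, c2, c3⟩
    have c4 := card_filter_eq_iff.2 c2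
    have c5 : (P.filter fun i => b i ≠ ζ i).card = 0 :=
      card_filter_eq_zero_iff.2 fun i hi => not_not.2 (c1 i hi)
    have c6 : (P.filter fun i => y i ≠ b i).card = P.card :=
      card_filter_eq_iff.2 fun i hi => by rw [c1 i hi]; exact (mem_filter.1 hi).2.2
    omega

theorem mono {J e : ℕ} {ζ : ι → α} {E : Finset ι} {y : ι → α} {j : ι} (hj : j ∉ E)
    (hy : y j ≠ ζ j) : ((AK ζ E e).filter fun b => J < hammingDist (update y j (ζ j)) b).card ≤
      ((AK ζ E e).filter fun b => J < hammingDist y b).card ∧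
    ∀ b₀, b₀ j = ζ j → dev ζ E b₀ = e → hammingDist y b₀ = J + 1 →
      ((AK ζ E e).filter fun b => J < hammingDist (update y j (ζ j)) b).card <
        ((AK ζ E e).filter fun b => J < hammingDist y b).card := by
  let t : (ι → α) → ι → α := fun b => update b j (swap (y j) (ζ j) (b j))
  have tt : ∀ b, t (t b) = b := fun b => by simp [t]
  have h1 : ∀ b, hammingDist y (t b) = hammingDist (update y j (ζ j)) b := fun b => by
    rw [hd, hd]
    congr 1
    refine filter_congr fun i _ => ?_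
    rcases eq_or_ne i j with rfl | hi
    · simp only [t, update_self, ne_eq]
      rw [eq_comm, swap_apply_eq_iff, swap_apply_left, eq_comm]
    · simp [t, hi]
  have h2 : ∀ b, dev ζ E (t b) + (if b j ≠ ζ j then 1 else 0) =
      dev ζ E b + if b j ≠ y j then 1 else 0 := fun b => by
    have := card_upd (fun i => i ∉ E ∧ t b i ≠ ζ i) (fun i => i ∉ E ∧ b i ≠ ζ i) j
      fun i hi => by simp [t, hi]
    simpa only [hj, not_false_eq_true, true_and, t, update_self, ne_eq, swap_apply_eq_iff,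
      swap_apply_right, dev] using this
  have h3 : ∀ b, b j = ζ j → hammingDist y b = hammingDist (update y j (ζ j)) b + 1 :=
    fun b hb => by
      have := card_upd (fun i => y i ≠ b i) (fun i => update y j (ζ j) i ≠ b i) j
        fun i hi => by simp [hi]
      simpa [hb, hy, hd] using this
  let φ : (ι → α) → ι → α := fun b => if t b ∈ AK ζ E e then t b else b
  have hm : ∀ b ∈ (AK ζ E e).filter fun b => J < hammingDist (update y j (ζ j)) b,
      φ b ∈ (AK ζ E e).filter fun b => J < hammingDist y b := fun b hb => by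
    obtain ⟨c1, c2⟩ := mem_filter.1 hb
    simp only [φ]
    split_ifs with c
    · exact mem_filter.2 ⟨c, by rwa [h1]⟩
    · refine mem_filter.2 ⟨c1, ?_⟩
      have := h2 b
      rw [mem_AK] at c c1
      rw [h3 b (by by_contra c3; rw [if_pos c3] at this; split_ifs at this <;> omega)]
      omega
  have hi : Set.InjOn φ ((AK ζ E e).filter fun b => J < hammingDist (update y j (ζ j)) b) :=
    fun b hb b' hb' c => by
      have c1 := (mem_filter.1 hb).1
      have c2 := (mem_filter.1 hb').1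
      simp only [φ] at c
      split_ifs at c with d d' d'
      · rw [← tt b, c, tt]
      · exact absurd (by rwa [← c, tt]) d'
      · exact absurd (by rwa [c, tt]) d
      · exact c
  refine ⟨card_le_card_of_injOn φ hm hi, fun b₀ c1 c2 c3 => ?_⟩
  have c4 : t b₀ ∉ AK ζ E e := by
    have := h2 b₀
    rw [if_neg (not_not.2 c1), if_pos (c1 ▸ hy.symm)] at this
    rw [mem_AK]
    omega
  refine (card_le_card_of_injOn φ (fun b hb => mem_erase.2 ⟨fun c => ?_, hm b hb⟩) hi).trans_lt
    (card_erase_lt_of_mem (a := b₀) (mem_filter.2 ⟨mem_AK.2 c2.le, by omega⟩))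
  obtain ⟨d1, d2⟩ := mem_filter.1 hb
  simp only [φ] at c
  split_ifs at c with d
  · exact c4 (by rwa [← c, tt])
  · rw [c] at d2
    have := h3 b₀ c1
    omega

theorem mk (hk : 3 ≤ Fintype.card α) (ζ y : ι → α) {E E1 S : Finset ι} (h1 : E1 ⊆ E)
    (h2 : ∀ i ∈ S, i ∉ E) : ∃ b : ι → α, (∀ i, i ∉ E → i ∉ S → b i = ζ i) ∧ dev ζ E b = S.card ∧
      hammingDist y b = (E1 ∪ (S ∪ univ.filter fun i => i ∉ E ∧ y i ≠ ζ i)).card := by
  choose c hc using fun i => exists_ne2 hk (y i) (ζ i)
  refine ⟨fun i => if i ∈ E1 ∨ i ∈ S then c i else if i ∈ E then y i else ζ i, fun i a b => ?_,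
    congrArg card ?_, congrArg card ?_⟩
  · have : i ∉ E1 := fun h => a (h1 h)
    simp [a, b, this]
  · ext i
    have := @h1 i
    have := h2 i
    have := hc i
    by_cases a : i ∈ E <;> by_cases b : i ∈ S <;> by_cases d : i ∈ E1 <;> simp_all
  · ext i
    have := @h1 i
    have := h2 i
    have := (hc i).1.symm
    by_cases a : i ∈ E <;> by_cases b : i ∈ S <;> by_cases d : i ∈ E1 <;> simp_all

theorem wit (hk : 3 ≤ Fintype.card α) {J e : ℕ} {ζ : ι → α} {E : Finset ι} {y : ι → α}
    (h2 : 2 ≤ J) (hJ : 2 * e + E.card = J)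
    (hm : J + Fintype.card α * e + 1 ≤ Fintype.card ι + 2 * e) (hy : dev ζ E y = e + 2) {j : ι}
    (hj : j ∉ E) (hyj : y j ≠ ζ j) :
    ∃ b₀, b₀ j = ζ j ∧ dev ζ E b₀ = e ∧ hammingDist y b₀ = J + 1 := by
  set P := univ.filter fun i => i ∉ E ∧ y i ≠ ζ i with hP
  set R := univ.filter fun i => i ∉ E ∧ y i = ζ i with hR
  have hPc : P.card = e + 2 := hy
  rcases Nat.eq_zero_or_pos e with rfl | he
  · obtain ⟨i0, hi0⟩ := card_pos.1 (by omega : 0 < E.card)
    obtain ⟨b, c1, c2, c3⟩ := mk hk ζ y (S := ∅) (erase_subset i0 E) (by simp)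
    refine ⟨b, c1 j hj (notMem_empty j), c2, ?_⟩
    rw [c3, empty_union, card_union_of_disjoint (disjoint_left.2 fun i hi hi' =>
      (mem_filter.1 hi').2.1 (mem_of_mem_erase hi)), card_erase_of_mem hi0, ← hP]
    omega
  · have h3 := split ζ E y fun _ => True
    simp only [filter_true, card_univ, ← hP, ← hR] at h3
    have h4 := Nat.mul_le_mul_right e hk
    obtain ⟨R1, d1, d2⟩ := exists_subset_card_eq (s := R) (n := e - 1) (by omega)
    obtain ⟨p, hp, hpj⟩ := exists_mem_ne (by omega : 1 < P.card) j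
    have d3 : ∀ i ∈ R1, i ∉ P := fun i hi hi' => (mem_filter.1 hi').2.2 (mem_filter.1 (d1 hi)).2.2
    obtain ⟨b, c1, c2, c3⟩ := mk hk ζ y (S := insert p R1) (Subset.refl E) fun i hi => by
      rcases mem_insert.1 hi with rfl | hi
      · exact (mem_filter.1 hp).2.1
      · exact (mem_filter.1 (d1 hi)).2.1
    refine ⟨b, c1 j hj fun c => ?_, ?_, ?_⟩
    · rcases mem_insert.1 c with c | c
      · exact hpj c.symm
      · exact hyj (mem_filter.1 (d1 c)).2.2
    · rw [c2, card_insert_of_notMem fun c => d3 p c hp]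
      omega
    · rw [c3, insert_union, insert_eq_of_mem (mem_union_right _ hp),
        card_union_of_disjoint (disjoint_left.2 fun i hi hi' => by
          rcases mem_union.1 hi' with c | c
          · exact (mem_filter.1 (d1 c)).2.1 hi
          · exact (mem_filter.1 c).2.1 hi), card_union_of_disjoint (disjoint_left.2 d3)]
      omega

end Far

theorem far (h : StmtSph ι α) : StmtFar ι α := by
  intro hk
  refine ⟨fun J e ζ E y h2 hJ hm => ⟨Far.base h hJ, fun hy => ?_⟩, fun m k J e h1 h2 h3 => ?_⟩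
  · obtain ⟨n, hn⟩ := Nat.exists_eq_add_of_le hy
    clear hy
    induction n generalizing y with
    | zero | succ n ih =>
      obtain ⟨j, hj⟩ := card_pos.1 (by omega : 0 < dev ζ E y)
      obtain ⟨c1, c2⟩ := (mem_filter.1 hj).2
      have c3 := Far.card_upd (fun i => i ∉ E ∧ y i ≠ ζ i)
        (fun i => i ∉ E ∧ update y j (ζ j) i ≠ ζ i) j fun i hi => by simp [hi]
      rw [if_neg (by simp), if_pos ⟨c1, c2⟩] at c3
      change dev ζ E y + 0 = dev ζ E (update y j (ζ j)) + 1 at c3
      first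
      | exact (ih _ (by omega)).trans_le (Far.mono c1 c2).1
      | obtain ⟨b, d1, d2, d3⟩ := Far.wit hk h2 hJ hm hn c1 c2
        exact (Far.base h hJ (by omega)).2.ge.trans_lt ((Far.mono c1 c2).2 b d1 d2 d3)
  · obtain ⟨q, rfl⟩ := Nat.exists_eq_add_of_le' (by omega : 1 ≤ k)
    rw [add_mul, one_mul] at h3
    have h4 : 0 < q * (e + 1) := Nat.mul_pos (by omega) (by omega)
    have h5 := Nat.add_one_mul_choose_eq (m + e - J - 1) e
    rw [show m + e - J - 1 + 1 = q * (e + 1) by omega, mul_right_comm] at h5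
    rw [nu, nu, show m + (e + 1) - J - 1 = q * (e + 1) by omega,
      ← Nat.eq_of_mul_eq_mul_right (by omega) h5, show J - e = J - (e + 1) + 1 by omega,
      Nat.add_sub_cancel]
    ring

end Pool.Agent.MP_92191b_al.K6

end

section

/-! Sections of good relations. -/

set_option linter.unusedSectionVars false

namespace Pool.Agent.MP_92191b_al.K6

open Finset Function Equiv

variable {ι α : Type} [Fintype ι] [DecidableEq ι] [Fintype α] [DecidableEq α]

namespace Glob

theorem ham_comp (π : Perm ι) (c c' : ι → α) :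
    hammingDist (c ∘ π) (c' ∘ π) = hammingDist c c' := by
  unfold hammingDist
  exact card_equiv π fun i => by simp

theorem tight_dual {T : Rel2 ι α} (h : Tight T) : Tight fun d c => T c d where
  sep c d c' d' h1 h2 he := (h.sep _ _ _ _ h1 h2 he.symm).symm
  ex σ π := by
    obtain ⟨c, d, h1, h2⟩ := h.ex (fun l => (σ (π⁻¹ l))⁻¹) π⁻¹
    exact ⟨d, c, h1, fun l => by simp [h2]⟩

theorem dual_pl (T : Rel2 ι α) (σ : ι → Perm α) (i j : ι) :
    dual (pl T σ i j) = pl (fun d c => T c d) (fun r => (σ r)⁻¹) i j := by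
  funext c1 c2 d1 d2
  refine propext ⟨?_, ?_⟩ <;> rintro ⟨c, d, ⟨h1, h2⟩, h3, h4, h5, h6⟩ <;>
    exact ⟨d, c, ⟨h1, fun r hi hj => by simp [h2 r hi hj]⟩, h5, h6, h3, h4⟩

theorem good_c {T : Rel2 ι α} (h : Good T) (π : Perm ι) : Good fun c d => T (c ∘ π) d where
  tight :=
    { sep := fun c d c' d' h1 h2 he => by
        obtain ⟨e1, e2⟩ := h.tight.sep _ _ _ _ h1 h2 (by rw [ham_comp, he])
        exact ⟨π.surjective.injective_comp_right e1, e2⟩
      ex := fun σ ρ => by
        obtain ⟨c, d, h1, h2⟩ := h.tight.ex (fun l => σ (π l)) (ρ * π)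
        refine ⟨c ∘ π.symm, d, ?_, fun l => by simp [h2]⟩
        simpa [Function.comp_def] using h1 }
  no1 c c' d h1 h2 := by
    rw [← ham_comp π]
    exact h.no1 _ _ _ h1 h2
  prod _ _ _ _ h1 h2 := h.prod _ _ _ _ h1 h2

theorem good_d {T : Rel2 ι α} (h : Good T) (π : Perm ι) : Good fun c d => T c (d ∘ π) where
  tight :=
    { sep := fun c d c' d' h1 h2 he => by
        obtain ⟨e1, e2⟩ := h.tight.sep _ _ _ _ h1 h2 (by rw [ham_comp, he])
        exact ⟨e1, π.surjective.injective_comp_right e2⟩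
      ex := fun σ ρ => by
        obtain ⟨c, d, h1, h2⟩ := h.tight.ex σ (π⁻¹ * ρ)
        refine ⟨c, d ∘ π.symm, ?_, fun l => by simp [h2, Perm.inv_def]⟩
        simpa [Function.comp_def] using h1 }
  no1 c c' d h1 h2 := h.no1 _ _ _ h1 h2
  prod _ _ _ _ h1 h2 := h.prod _ _ _ _ h1 h2

theorem comp_swap (c : ι → α) (a b : ι) : (c ∘ swap a b) ∘ swap a b = c := by
  funext r; simp

variable {T : Rel2 ι α} {σ : ι → Perm α} {i j l : ι}

theorem sec_c12 (hli : l ≠ i) (hlj : l ≠ j) :
    c12 (sec T σ i j l) = sec (fun c d => T (c ∘ swap i j) d) σ i j l := by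
  funext c1 c2 c3 d1 d2 d3
  refine propext ⟨?_, ?_⟩ <;> rintro ⟨c, d, h1, h2, h3, h4, h5, h6⟩ <;>
    refine ⟨c ∘ swap i j, d, by simpa only [comp_swap] using h1, fun r hi hj hl => ?_,
      by simpa using h4, by simpa using h3, ?_, h6⟩
  all_goals first
    | simpa [swap_apply_of_ne_of_ne hi hj] using h2 r hi hj hl
    | simpa [swap_apply_of_ne_of_ne hli hlj] using h5

theorem sec_c23 (hij : i ≠ j) (hli : l ≠ i) :
    c23 (sec T σ i j l) = sec (fun c d => T (c ∘ swap j l) d) σ i j l := by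
  funext c1 c2 c3 d1 d2 d3
  refine propext ⟨?_, ?_⟩ <;> rintro ⟨c, d, h1, h2, h3, h4, h5, h6⟩ <;>
    refine ⟨c ∘ swap j l, d, by simpa only [comp_swap] using h1, fun r hi hj hl => ?_,
      ?_, by simpa using h5, by simpa using h4, h6⟩
  all_goals first
    | simpa [swap_apply_of_ne_of_ne hj hl] using h2 r hi hj hl
    | simpa [swap_apply_of_ne_of_ne hij hli.symm] using h3

theorem sec_d12 (hli : l ≠ i) (hlj : l ≠ j) :
    d12 (sec T σ i j l) = sec (fun c d => T c (d ∘ swap i j)) σ i j l := by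
  funext c1 c2 c3 d1 d2 d3
  refine propext ⟨?_, ?_⟩ <;> rintro ⟨c, d, h1, h2, k1, k2, k3, h3, h4, h5⟩ <;>
    refine ⟨c, d ∘ swap i j, by simpa only [comp_swap] using h1, fun r hi hj hl => ?_,
      k1, k2, k3, by simpa using h4, by simpa using h3, ?_⟩
  all_goals first
    | simpa [swap_apply_of_ne_of_ne hi hj] using h2 r hi hj hl
    | simpa [swap_apply_of_ne_of_ne hli hlj] using h5

theorem sec_d23 (hij : i ≠ j) (hli : l ≠ i) :
    d23 (sec T σ i j l) = sec (fun c d => T c (d ∘ swap j l)) σ i j l := by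
  funext c1 c2 c3 d1 d2 d3
  refine propext ⟨?_, ?_⟩ <;> rintro ⟨c, d, h1, h2, k1, k2, k3, h3, h4, h5⟩ <;>
    refine ⟨c, d ∘ swap j l, by simpa only [comp_swap] using h1, fun r hi hj hl => ?_,
      k1, k2, k3, ?_, by simpa using h5, by simpa using h4⟩
  all_goals first
    | simpa [swap_apply_of_ne_of_ne hj hl] using h2 r hi hj hl
    | simpa [swap_apply_of_ne_of_ne hij hli.symm] using h3

theorem orb_sec (hT : Good T) (hij : i ≠ j) (hli : l ≠ i) (hlj : l ≠ j) {Q : R6 α}
    (h : Orb (sec T σ i j l) Q) : ∃ T', Good T' ∧ Q = sec T' σ i j l := by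
  induction h with
  | refl => exact ⟨T, hT, rfl⟩
  | c12 _ ih =>
    obtain ⟨T', h1, rfl⟩ := ih
    exact ⟨_, good_c h1 _, sec_c12 hli hlj⟩
  | c23 _ ih =>
    obtain ⟨T', h1, rfl⟩ := ih
    exact ⟨_, good_c h1 _, sec_c23 hij hli⟩
  | d12 _ ih =>
    obtain ⟨T', h1, rfl⟩ := ih
    exact ⟨_, good_d h1 _, sec_d12 hli hlj⟩
  | d23 _ ih =>
    obtain ⟨T', h1, rfl⟩ := ih
    exact ⟨_, good_d h1 _, sec_d23 hij hli⟩

theorem sec_update (ρ : Perm α) : sec T σ i j l = sec T (update σ l ρ) i j l := by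
  funext c1 c2 c3 d1 d2 d3
  refine propext ⟨?_, ?_⟩ <;> rintro ⟨c, d, h1, h2, h3⟩ <;>
    exact ⟨c, d, h1, fun r hi hj hl => by simpa [update_of_ne hl] using h2 r hi hj hl, h3⟩

theorem is8_fst {P : R4 α} {a0 a1 x0 x1 y1 y2 d1 d2 : α} (h : Is8 P a0 a1 x0 x1 y1 y2)
    (k : P a0 x0 d1 d2) : d1 = y1 := by
  rcases (h.2.2 _ _ _ _).1 k with k | k | k
  · exact k.2.1
  · rcases k.1 with k | k
    · exact absurd k.2 h.2.1
    · exact absurd k.1 h.1
  · exact absurd rfl k.1

end Glob

theorem m1 (hS : StmtSec ι α) (h8 : StmtM8 α) : StmtM1 ι α := by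
  intro hk T hT hP σ i j hij a0 a1 x0 x1 y1 y2 h c d c' d' hc hc' e1 e2 e1' e2' r hri hrj
  have k : d i = y1 := Glob.is8_fst h ⟨c, d, hc, e1, e2, rfl, rfl⟩
  have k' : d' i = y1 := Glob.is8_fst h ⟨c', d', hc', e1', e2', rfl, rfl⟩
  rcases Nat.eq_or_lt_of_le hk with hk4 | hk5
  swap
  · obtain ⟨hs, hp, -⟩ := (hS T hT σ i j hij).2.2 r hri hrj
    exact h8 hk5 (sec T σ i j r) (σ r) a0 a1 x0 x1 y1 y2 hs (hp ▸ h) (d j) (d' j) (d r) (d' r)
      ⟨c, d, hc.1, fun s hi hj _ => hc.2 s hi hj, e1, e2, hc.2 r hri hrj, k, rfl, rfl⟩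
      ⟨c', d', hc'.1, fun s hi hj _ => hc'.2 s hi hj, e1', e2', hc'.2 r hri hrj, k', rfl, rfl⟩
  have n : ∀ c d, Cell T σ i j c d → c i = a0 → c j = x0 → d j ≠ y2 := fun c d hc e1 e2 => by
    have h1 := h.1
    have h2 := h.2.1
    have := (h.2.2 a0 x0 (d i) (d j)).1 ⟨c, d, hc, e1, e2, rfl, rfl⟩
    tauto
  by_cases n3 : d j = d' j
  · rw [((hS T hT σ i j hij).2.1 c d c' d' hc hc' (by rw [e1, e2, e1', e2', k, k', n3]; simp)).2]
  by_cases hs : ∃ s, s ≠ i ∧ s ≠ j ∧ s ≠ r
  · obtain ⟨s, hsi, hsj, hsr⟩ := hs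
    exact G.m8four hk4.symm hT hij hri hrj hsi hsj hsr h hc hc' e1 e2 e1' e2' k k'
      (n c d hc e1 e2) (n c' d' hc' e1' e2') n3
  by_contra hne
  have hu : (univ : Finset ι) = {i, j, r} := by
    ext s
    simp only [mem_univ, mem_insert, mem_singleton, true_iff]
    by_contra! h'
    exact hs ⟨s, h'⟩
  have ham : ∀ u v : ι → α, hammingDist u v = nq (u i) (v i) + nq (u j) (v j) + nq (u r) (v r) :=
    fun u v => by
      rw [SecT.ham_sum, hu, sum_insert (by simp [hij, hri.symm]), sum_pair hrj.symm, add_assoc]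
  obtain ⟨b, hb⟩ := exists_ne1 (by omega) y1
  obtain ⟨u, v, hu', f1, f2, -, -⟩ :=
    (h.2.2 a0 x1 b y2).2 (Or.inr (Or.inl ⟨Or.inl ⟨rfl, rfl⟩, hb, rfl⟩))
  have hd : hammingDist d d' = 2 := by rw [ham, k, k', nq_self, nq_of_ne n3, nq_of_ne hne]
  have fin : ∀ w, T w d → w i = a0 → w j = x0 → w r ≠ u r → False := fun w hw g1 g2 g3 => by
    have := (hT.sep w d u d' hw (hP _ _ _ _ hu'.1 hc'.1)
      (by rw [hd, ham, g1, g2, f1, f2, nq_self, nq_of_ne h.2.1, nq_of_ne g3])).1
    exact g3 (by rw [this])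
  by_cases g : c r = u r
  · refine fin c' (hP _ _ _ _ hc'.1 hc.1) e1' e2' fun g' => hne ((σ r).injective ?_)
    rw [← hc.2 r hri hrj, ← hc'.2 r hri hrj, g, g']
  · exact fin c hc.1 e1 e2 g

theorem no7 (h1 : StmtM1 ι α) : StmtNo7 ι α := by
  intro hk T hT σ i j hij a0 a1 x0 x1 y1 y2 h
  rw [Glob.dual_pl] at h
  obtain ⟨b, hb⟩ := exists_ne1 (by omega) y2
  obtain ⟨b', hb', hbb⟩ := exists_ne2 (by omega) y2 b
  obtain ⟨e, f, hc, e1, e2, f1, f2⟩ :=
    (h.2.2 a0 x0 y1 b).2 (Or.inl ⟨Or.inl ⟨rfl, rfl⟩, rfl, hb⟩)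
  obtain ⟨e', f', hc', e1', e2', f1', f2'⟩ :=
    (h.2.2 a0 x0 y1 b').2 (Or.inl ⟨Or.inl ⟨rfl, rfl⟩, rfl, hb'⟩)
  have k := h1 hk _ (Glob.tight_dual hT.tight) (fun _ _ _ _ t t' => hT.prod _ _ _ _ t' t) _ i j hij a0 a1 x0 x1 y1 y2 h e f e' f' hc hc'
    e1 e2 e1' e2'
  have he : e = e' := by
    funext r
    by_cases hi : r = i
    · rw [hi, e1, e1']
    by_cases hj : r = j
    · rw [hj, e2, e2']
    rw [hc.2 r hi hj, hc'.2 r hi hj, k r hi hj]
  subst he
  refine hT.no1 f f' e hc.1 hc'.1 ?_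
  unfold hammingDist
  rw [card_eq_one]
  refine ⟨j, ?_⟩
  ext r
  simp only [mem_filter, mem_univ, true_and, mem_singleton]
  constructor
  · intro hr
    by_contra hj
    by_cases hi : r = i
    · exact hr (by rw [hi, f1, f1'])
    · exact hr (k r hi hj)
  · rintro rfl
    rw [f2, f2']
    exact hbb.symm

theorem nice (hS : StmtSec ι α) (h1 : StmtM1 ι α) (h7 : StmtNo7 ι α) : StmtNice ι α := by
  intro hk T hT σ i j l hij hli hlj
  refine ⟨((hS T hT.tight σ i j hij).2.2 l hli hlj).1, fun Q hQ ρ a0 a1 x0 x1 y1 y2 => ?_,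
    fun Q hQ ρ a0 a1 x0 x1 y1 y2 => ?_⟩
  all_goals
    obtain ⟨T', hT', rfl⟩ := Glob.orb_sec hT hij hli hlj hQ
    have h := ((hS T' hT'.tight (update σ l ρ) i j hij).2.2 l hli hlj).2.1
    rw [update_self, ← Glob.sec_update] at h
    rw [h]
  · exact h7 hk T' hT' _ i j hij a0 a1 x0 x1 y1 y2
  · rintro h8 b b' w w' ⟨c, d, t, o, e1, e2, e3, -, -, rfl⟩ ⟨c', d', t', o', e1', e2', e3', -, -, rfl⟩
    have cell : ∀ c d, T' c d → (∀ r, r ≠ i → r ≠ j → r ≠ l → c r = σ r (d r)) → c l = ρ (d l) →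
        Cell T' (update σ l ρ) i j c d := fun c d t o e => ⟨t, fun r hi hj => by
      by_cases hr : r = l
      · rw [hr, update_self, e]
      · rw [update_of_ne hr, o r hi hj hr]⟩
    exact h1 hk T' hT'.tight hT'.prod _ i j hij a0 a1 x0 x1 y1 y2 h8 c d c' d' (cell c d t o e3)
      (cell c' d' t' o' e3') e1 e2 e1' e2' l hli hlj

theorem gRL (hS : StmtSec ι α) (hR : StmtRL α) (h7 : StmtNo7 ι α) : StmtGRL ι α := by
  intro hk T hT σ i j x c d hij hL
  rcases hR (by omega) (pl T σ i j) (σ i) x (fun b => d b i) (hS T hT.tight σ i j hij).1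
    (fun y => ⟨c y, d y, ⟨(hL y).1, fun r _ hj => (hL y).2.2.2 r hj⟩, (hL y).2.2.2 i hij,
      (hL y).2.1, rfl, (hL y).2.2.1⟩) with h | h | ⟨y0, y1, w, -, -, -, -, h⟩ | h
  · exact Or.inl h
  · exact Or.inr (Or.inl h)
  · exact absurd h (h7 hk T hT σ i j hij _ _ _ _ _ _)
  · exact Or.inr (Or.inr h)

end Pool.Agent.MP_92191b_al.K6

end

section

/-! The pivot line of a plane. -/

set_option linter.unusedSectionVars false

namespace Pool.Agent.MP_92191b_al.K6

open Finset Function Equiv

variable {ι α : Type} [Fintype ι] [DecidableEq ι] [Fintype α] [DecidableEq α]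

namespace Piv

theorem nq_iff {a a' b b' : α} (h : a = a' ↔ b = b') : nq a a' = nq b b' := by
  unfold nq
  by_cases h1 : a = a'
  · rw [if_pos h1, if_pos (h.1 h1)]
  · rw [if_neg h1, if_neg fun h2 => h1 (h.2 h2)]

theorem cover2 {a a' b b' : α} (h : a = a' ↔ b = b') : ∃ σ : Perm α, σ b = a ∧ σ b' = a' := by
  by_cases h1 : a = a'
  · obtain ⟨σ, hσ⟩ := exists_perm1 b a
    exact ⟨σ, hσ, by rw [← h.1 h1, ← h1, hσ]⟩
  · exact exists_perm2 (fun h2 => h1 (h.2 h2)) h1

theorem line {κ : Type} (a b : κ → α) (h : ∀ y y', y ≠ y' → ¬(a y = a y' ↔ b y = b y')) :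
    ((∀ y y', a y = a y') ∧ Injective b) ∨ ((∀ y y', b y = b y') ∧ Injective a) := by
  by_cases h1 : Injective a
  · refine Or.inr ⟨fun y y' => ?_, h1⟩
    by_contra h2
    have h3 : y ≠ y' := fun e => h2 (e ▸ rfl)
    exact h y y' h3 ⟨fun e => absurd (h1 e) h3, fun e => absurd e h2⟩
  · obtain ⟨y, y', e, hne⟩ : ∃ y y', a y = a y' ∧ y ≠ y' := by
      by_contra! h2
      exact h1 fun y y' e => h2 y y' e
    have hb : b y ≠ b y' := fun e' => h y y' hne ⟨fun _ => e', fun _ => e⟩
    have hc : ∀ z, a z = a y := by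
      intro z
      by_contra hz
      have hzy : z ≠ y := fun e' => hz (e' ▸ rfl)
      have hzy' : z ≠ y' := fun e' => hz (e' ▸ e.symm)
      have e1 : b z = b y := by
        by_contra e1
        exact h z y hzy ⟨fun e' => absurd e' hz, fun e' => absurd e' e1⟩
      have e2 : b z = b y' := by
        by_contra e2
        exact h z y' hzy' ⟨fun e' => absurd (e'.trans e.symm) hz, fun e' => absurd e' e2⟩
      exact hb (e1.symm.trans e2)
    refine Or.inl ⟨fun z z' => (hc z).trans (hc z').symm, fun z z' e' => ?_⟩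
    by_contra hz
    exact h z z' hz ⟨fun _ => e', fun _ => (hc z).trans (hc z').symm⟩

theorem hitsAll [Nonempty α] (a b : α → α) (h : ∀ y y', y ≠ y' → ¬(a y = a y' ↔ b y = b y'))
    (σ : Perm α) : ∃ y, σ (b y) = a y := by
  obtain ⟨y0⟩ := ‹Nonempty α›
  rcases line a b h with ⟨h1, h2⟩ | ⟨h1, h2⟩
  · obtain ⟨y, hy⟩ := Finite.injective_iff_surjective.1 h2 (σ⁻¹ (a y0))
    exact ⟨y, by rw [hy, h1 y y0]; simp⟩
  · obtain ⟨y, hy⟩ := Finite.injective_iff_surjective.1 h2 (σ (b y0))
    exact ⟨y, by rw [hy, h1 y y0]⟩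

theorem not_option (a b : Option α → α) (h : ∀ y y', y ≠ y' → ¬(a y = a y' ↔ b y = b y')) :
    False := by
  have key : ∀ f : Option α → α, ¬Injective f := fun f hf => by
    have := Fintype.card_le_of_injective f hf
    rw [Fintype.card_option] at this
    omega
  rcases line a b h with ⟨_, h2⟩ | ⟨_, h2⟩
  · exact key _ h2
  · exact key _ h2

theorem general (h0 : StmtLine0 α) {β : Type} (pc : Perm α → β) (U : β → α → α → Prop)
    (h1 : ∀ p (σ : Perm α) b, U p (σ b) b → pc σ = p) (h2 : ∀ σ, ∃ b, U (pc σ) (σ b) b)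
    (h3 : ∀ p, Conf (U p)) :
    (∃ (w : α) (f : α → β), ∀ σ, pc σ = f (σ w)) ∨ ∃ (w : α) (f : α → β), ∀ σ, pc σ = f (σ⁻¹ w) := by
  have hC : Conf fun a b => ∃ p, U p a b := by
    rintro a b a' b' ⟨p, hp⟩ ⟨p', hp'⟩ he
    obtain ⟨σ, e1, e2⟩ := cover2 he
    have e3 := h1 p σ b (e1 ▸ hp)
    have e4 := h1 p' σ b' (e2 ▸ hp')
    exact h3 p a b a' b' hp (by rw [← e3, e4]; exact hp') he
  rcases h0 _ hC (fun σ => (h2 σ).imp fun b hb => ⟨_, hb⟩) with ⟨a0, ha⟩ | ⟨b0, hb⟩
  · choose f hf using fun b => (ha a0 b).2 rfl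
    refine Or.inr ⟨a0, f, fun σ => h1 _ σ (σ⁻¹ a0) ?_⟩
    simpa using hf (σ⁻¹ a0)
  · choose f hf using fun a => (hb a b0).2 rfl
    exact Or.inl ⟨b0, f, fun σ => h1 _ σ b0 (hf _)⟩

theorem confM {P : R4 α} (hP : Plane P) (x y : α) : Conf fun a b => P a x b y := by
  intro a b a' b' h1 h2 he
  have := hP.sep _ _ _ _ _ _ _ _ h1 h2 (by rw [nq_iff he, nq_self, nq_self])
  exact ⟨this.1, this.2.2.1⟩

theorem exists_pc (h0 : StmtLine0 α) {P : R4 α} (hP : Plane P) : ∃ pc : Perm α → α ⊕ α,
    ∀ (σ : Perm α) x y, (∃ b, P (σ b) x b y) ↔ pc σ = .inl x ∨ pc σ = .inr y := by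
  have : ∀ σ : Perm α, ∃ p : α ⊕ α, ∀ x y, (∃ b, P (σ b) x b y) ↔ p = .inl x ∨ p = .inr y := by
    intro σ
    have hC : Conf fun x y => ∃ b, P (σ b) x b y := by
      rintro x y x' y' ⟨b, h1⟩ ⟨b', h2⟩ he
      have := hP.sep _ _ _ _ _ _ _ _ h1 h2 (by rw [nq_iff he, nq_perm])
      exact ⟨this.2.1, this.2.2.2⟩
    rcases h0 _ hC (fun τ => by
      obtain ⟨d1, d2, hd⟩ := hP.ex σ τ
      exact ⟨d2, d1, hd⟩) with ⟨x0, hx⟩ | ⟨y0, hy⟩
    · exact ⟨.inl x0, fun x y => (hx x y).trans (by simp [eq_comm])⟩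
    · exact ⟨.inr y0, fun x y => (hy x y).trans (by simp [eq_comm])⟩
  choose pc hpc using this
  exact ⟨pc, hpc⟩

theorem caseD (hk : 4 ≤ Fintype.card α) {P : R4 α} (hP : Plane P) {pc : Perm α → α ⊕ α}
    (hpc : ∀ (σ : Perm α) x y, (∃ b, P (σ b) x b y) ↔ pc σ = .inl x ∨ pc σ = .inr y)
    (hR : ∀ x, ∃ σ, pc σ = .inl x) (hK : ∀ y, ∃ σ, pc σ = .inr y) : False := by
  have hne : ∀ x y, ∃ a b, P a x b y := fun x y => by
    obtain ⟨σ, hσ⟩ := hR x
    obtain ⟨b, hb⟩ := (hpc σ x y).2 (Or.inl hσ)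
    exact ⟨_, _, hb⟩
  choose a b hab using hne
  have strict : ∀ {x y x' y' c d c' d'}, x ≠ x' → y ≠ y' → P c x d y → P c' x' d' y' →
      ¬(c = c' ↔ d = d') := fun hx hy h1 h2 he =>
    hx (hP.sep _ _ _ _ _ _ _ _ h1 h2 (by rw [nq_iff he, nq_of_ne hx, nq_of_ne hy])).2.1
  have uniq : ∀ x y c d, P c x d y → c = a x y ∧ d = b x y := by
    intro x y c d h
    by_contra hcd
    obtain ⟨τ, hτ⟩ := exists_perm1 y x
    have h1 : ∀ z, ¬(c = a (τ z) z ↔ d = b (τ z) z) := by
      intro z
      by_cases hz : y = z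
      · subst hz
        rw [hτ]
        exact fun he => hcd (confM hP x y _ _ _ _ h (hab x y) he)
      · exact strict (fun e => hz (τ.injective (hτ.trans e))) hz h (hab _ _)
    refine not_option (fun o => o.elim c fun z => a (τ z) z) (fun o => o.elim d fun z => b (τ z) z) ?_
    rintro (_ | z) (_ | z') hz
    · exact absurd rfl hz
    · exact h1 z'
    · exact fun he => h1 z ⟨fun e => (he.1 e.symm).symm, fun e => (he.2 e.symm).symm⟩
    · have hz' : z ≠ z' := fun e => hz (e ▸ rfl)
      exact strict (fun e => hz' (τ.injective e)) hz' (hab _ _) (hab _ _)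
  have cov : ∀ (σ : Perm α) x y, σ (b x y) = a x y ↔ pc σ = .inl x ∨ pc σ = .inr y := by
    intro σ x y
    rw [← hpc]
    refine ⟨fun e => ⟨b x y, e ▸ hab x y⟩, fun ⟨d, hd⟩ => ?_⟩
    obtain ⟨e1, e2⟩ := uniq _ _ _ _ hd
    rw [← e1, ← e2]
  have hinj : Injective pc := by
    intro σ σ' e
    rcases hs : pc σ with x | y
    · have c1 := fun y => (cov σ x y).2 (Or.inl hs)
      have c2 := fun y => (cov σ' x y).2 (Or.inl (e ▸ hs))
      have hb : Injective (b x) := by
        intro y y' e'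
        obtain ⟨ρ, hρ⟩ := hK y
        have e1 : ρ (b x y') = a x y' := by
          rw [← c1 y', ← e', c1 y]
          exact (cov ρ x y).2 (Or.inr hρ)
        simpa [hρ] using (cov ρ x y').1 e1
      ext d
      obtain ⟨y, rfl⟩ := Finite.injective_iff_surjective.1 hb d
      rw [c1, c2]
    · have c1 := fun x => (cov σ x y).2 (Or.inr hs)
      have c2 := fun x => (cov σ' x y).2 (Or.inr (e ▸ hs))
      have hb : Injective fun x => b x y := by
        intro x x' e'
        obtain ⟨ρ, hρ⟩ := hR x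
        have e1 : ρ (b x' y) = a x' y := by
          have e2 : b x y = b x' y := e'
          rw [← c1 x', ← e2, c1 x]
          exact (cov ρ x y).2 (Or.inl hρ)
        simpa [hρ] using (cov ρ x' y).1 e1
      ext d
      obtain ⟨x, rfl⟩ := Finite.injective_iff_surjective.1 hb d
      rw [c1, c2]
  have h1 := Fintype.card_le_of_injective pc hinj
  rw [Fintype.card_perm, Fintype.card_sum] at h1
  obtain ⟨n, hn⟩ : ∃ n, Fintype.card α = n + 1 := ⟨Fintype.card α - 1, by omega⟩
  rw [hn, Nat.factorial_succ] at h1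
  have h2 : Nat.factorial 3 ≤ n.factorial := Nat.factorial_le (by omega)
  have h3 : Nat.factorial 3 = 6 := rfl
  nlinarith

theorem main (h0 : StmtLine0 α) (hk : 4 ≤ Fintype.card α) {P : R4 α} (hP : Plane P)
    {pc : Perm α → α ⊕ α}
    (hpc : ∀ (σ : Perm α) x y, (∃ b, P (σ b) x b y) ↔ pc σ = .inl x ∨ pc σ = .inr y) :
    (∃ (w : α) (f : α → α ⊕ α), ∀ σ, pc σ = f (σ w)) ∨
      ∃ (w : α) (f : α → α ⊕ α), ∀ σ, pc σ = f (σ⁻¹ w) := by
  haveI : Nonempty α := Fintype.card_pos_iff.1 (by omega)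
  by_cases hR : ∀ x, ∃ σ, pc σ = .inl x
  · by_cases hK : ∀ y, ∃ σ, pc σ = .inr y
    · exact (caseD hk hP hpc hR hK).elim
    push Not at hK
    obtain ⟨y0, hy0⟩ := hK
    have hit : ∀ (σ : Perm α) x, (∃ b, P (σ b) x b y0) ↔ pc σ = .inl x := fun σ x =>
      (hpc σ x y0).trans ⟨fun h => h.resolve_right (hy0 σ), Or.inl⟩
    have hne : ∀ x, ∃ a b, P a x b y0 := fun x => by
      obtain ⟨σ, hσ⟩ := hR x
      obtain ⟨b, hb⟩ := (hit σ x).2 hσ
      exact ⟨_, _, hb⟩
    choose a b hab using hne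
    have hall := hitsAll a b fun x x' hx he => by
      obtain ⟨σ, e1, e2⟩ := cover2 he
      have e3 := (hit σ x).1 ⟨b x, e1 ▸ hab x⟩
      have e4 := (hit σ x').1 ⟨b x', e2 ▸ hab x'⟩
      exact hx (Sum.inl_injective (e3.symm.trans e4))
    refine general h0 pc (Sum.elim (fun x a b => P a x b y0) fun _ _ _ => False) ?_ ?_ ?_
    · rintro (x | y) σ d h
      · exact (hit σ x).1 ⟨d, h⟩
      · exact h.elim
    · intro σ
      obtain ⟨x, hx⟩ := hall σ
      rw [(hit σ x).1 ⟨b x, hx ▸ hab x⟩]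
      exact ⟨b x, by simpa [hx] using hab x⟩
    · rintro (x | y)
      · exact confM hP x y0
      · exact fun _ _ _ _ h => h.elim
  push Not at hR
  obtain ⟨x0, hx0⟩ := hR
  have hit : ∀ (σ : Perm α) y, (∃ b, P (σ b) x0 b y) ↔ pc σ = .inr y := fun σ y =>
    (hpc σ x0 y).trans ⟨fun h => h.resolve_left (hx0 σ), Or.inr⟩
  by_cases hK : ∀ y, ∃ σ, pc σ = .inr y
  · have hne : ∀ y, ∃ a b, P a x0 b y := fun y => by
      obtain ⟨σ, hσ⟩ := hK y
      obtain ⟨b, hb⟩ := (hit σ y).2 hσ
      exact ⟨_, _, hb⟩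
    choose a b hab using hne
    have hall := hitsAll a b fun y y' hy he => by
      obtain ⟨σ, e1, e2⟩ := cover2 he
      have e3 := (hit σ y).1 ⟨b y, e1 ▸ hab y⟩
      have e4 := (hit σ y').1 ⟨b y', e2 ▸ hab y'⟩
      exact hy (Sum.inr_injective (e3.symm.trans e4))
    refine general h0 pc (Sum.elim (fun _ _ _ => False) fun y a b => P a x0 b y) ?_ ?_ ?_
    · rintro (x | y) σ d h
      · exact h.elim
      · exact (hit σ y).1 ⟨d, h⟩
    · intro σ
      obtain ⟨y, hy⟩ := hall σ
      rw [(hit σ y).1 ⟨b y, hy ▸ hab y⟩]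
      exact ⟨b y, by simpa [hy] using hab y⟩
    · rintro (x | y)
      · exact fun _ _ _ _ h => h.elim
      · exact confM hP x0 y
  push Not at hK
  obtain ⟨y0, hy0⟩ := hK
  have hit' : ∀ (σ : Perm α) x, (∃ b, P (σ b) x b y0) ↔ pc σ = .inl x := fun σ x =>
    (hpc σ x y0).trans ⟨fun h => h.resolve_right (hy0 σ), Or.inl⟩
  refine general h0 pc (Sum.elim (fun x a b => P a x b y0) fun y a b => P a x0 b y) ?_ ?_ ?_
  · rintro (x | y) σ d h
    · exact (hit' σ x).1 ⟨d, h⟩
    · exact (hit σ y).1 ⟨d, h⟩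
  · intro σ
    rcases hs : pc σ with x | y
    · exact (hit' σ x).2 hs
    · exact (hit σ y).2 hs
  · rintro (x | y)
    · exact confM hP x y0
    · exact confM hP x0 y

end Piv

theorem piv (h0 : StmtLine0 α) : StmtPiv α := by
  intro hk P hP
  obtain ⟨pc, hpc⟩ := Piv.exists_pc h0 hP
  rcases Piv.main h0 hk hP hpc with ⟨w, f, hf⟩ | ⟨w, f, hf⟩
  · exact ⟨w, f, Or.inl fun x y σ => by rw [hpc, hf]⟩
  · refine ⟨w, fun a => (f a).swap, Or.inr fun x y σ => ?_⟩
    have h1 := hpc σ⁻¹ y x
    rw [hf, inv_inv] at h1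
    have h2 : (∃ b, dual P (σ b) x b y) ↔ ∃ b, P (σ⁻¹ b) y b x :=
      ⟨fun ⟨b, hb⟩ => ⟨σ b, by simpa [dual] using hb⟩,
        fun ⟨b, hb⟩ => ⟨σ⁻¹ b, by simpa [dual] using hb⟩⟩
    rw [h2, h1]
    dsimp only
    rcases f (σ w) with z | z <;> simp

end Pool.Agent.MP_92191b_al.K6

end

section

/-! Assembly. -/

set_option linter.unusedSectionVars false

namespace Pool.Agent.MP_92191b_al.K6

variable {ι α : Type} [Fintype ι] [DecidableEq ι] [Fintype α] [DecidableEq α]

theorem cls_all : StmtCls α := cls (piv line0) (enumA (rep line0)) (enumB (rep line0))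

theorem m8_all : StmtM8 α := m8 (rl cls_all) (m8b (rl cls_all))

theorem line_all : StmtLine ι α := by
  have hRL : StmtRL α := rl cls_all
  have hF : StmtF α := fLem hRL
  have hL : StmtLam α := lam hRL (block cls_all) hF
  have hS : StmtSec ι α := secT
  have h1 : StmtM1 ι α := m1 hS m8_all
  have h7 : StmtNo7 ι α := no7 h1
  have hN : StmtNice ι α := nice hS h1 h7
  have hR : StmtGRL ι α := gRL hS hRL h7
  have hGF : StmtGF ι α := gF hS hN hF
  have hGL : StmtGLam ι α := gLam hS hN h1 hGF hL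
  have hA : StmtAlpha ι α := alpha hS h1 hR hGF
  have hD1 : StmtDS1 ι α := ds1 hS hA hGF hGL
  have hD : StmtDS ι α := ds hD1 (ds2 hS hA hGF hGL hD1)
  exact lineThm line0 hR hD (no6 line0 hS hRL hR hD)

theorem cenA_all : StmtCenA ι α := by
  have hCP : StmtCP α := cp cls_all
  have hCK : StmtCK α := ck hCP
  exact cenA (down cSec hCP (t23 hCP (t1 hCP hCK))) (kl cSec hCK) fam

theorem lab_all : StmtLab ι α := lab cnt line_all

theorem sw2_all : StmtSw2 ι α := sw2 cnt line_all

theorem sw_all : StmtSw ι α := sw lab_all sw2_all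

theorem thmA_all : StmtA ι α := thmA lab_all sw_all (toCen cnt cenA_all)

theorem b1_all : StmtB1 ι α := b1 (tri sepB) (count (ty sph))

theorem b2_all : StmtB2 ι α := b2 (ty sph) (far sph) conn

theorem unif_all (hk : 5 ≤ Fintype.card α) (f : Function.End (ι → α))
    (hM : ∀ c ∈ Submonoid.closure ({g : Function.End (ι → α) |
      ∃ (σ : ι → Equiv.Perm α) (π : Equiv.Perm ι), g = fun x i => σ i (x (π i))} ∪ {f}),
      ¬∃ y, ∀ x, c x = y) : Unif f :=
  glue cnt thmA_all (ty sph) (pre cnt (ty sph)) b1_all b2_all hk f hM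

end Pool.Agent.MP_92191b_al.K6

end

section

/-! Endomorphisms of the graph with distances four and six over four letters. -/

set_option linter.unusedSectionVars false

namespace Pool.Agent.MP_92191b_al.X

open Finset Function Equiv K6

variable {ι α : Type} [Fintype ι] [DecidableEq ι] [Fintype α] [DecidableEq α]

namespace E7

theorem one {u x : ι → α} (h : hammingDist u x = 1) :
    ∃ i, u i ≠ x i ∧ ∀ l, l ≠ i → u l = x l := by
  obtain ⟨i, hi⟩ := card_eq_one.1 h
  have k : ∀ l, u l ≠ x l ↔ l = i := fun l => by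
    rw [← mem_singleton, ← hi, mem_filter]
    simp
  exact ⟨i, (k i).2 rfl, fun l hl => by_contra fun h' => hl ((k l).1 h')⟩

theorem step {u x c : ι → α} {i : ι} (h1 : u i ≠ x i) (h2 : ∀ l, l ≠ i → u l = x l)
    (h3 : c i = u i) : hammingDist x c = hammingDist u c + 1 := by
  have e : (univ.filter fun l => x l ≠ c l) = insert i (univ.filter fun l => u l ≠ c l) := by
    ext l
    by_cases h : l = i
    · subst h
      simp [h3, h1.symm]
    · simp [h, h2 l h]
  unfold hammingDist
  rw [e, card_insert_of_notMem (by simp [h3])]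

theorem dist_upd (u : ι → α) (i : ι) {a : α} (h : a ≠ u i) : hammingDist u (update u i a) = 1 := by
  rw [hammingDist_comm, step (u := u) (c := u) (i := i) (by simpa using h.symm)
    (fun l hl => (update_of_ne hl _ _).symm) rfl, hammingDist_self]

theorem symm {S : Set ℕ} {f : (ι → α) → ι → α} {x y : ι → α} (h : Kept S f x y) : Kept S f y x :=
  ⟨h.1.symm, by rw [hammingDist_comm]; exact h.2⟩

theorem cardN (C : Finset (ι → α)) (u : ι → α) :
    (C.filter fun c => hammingDist u c = 4 ∨ hammingDist u c = 6).card = nd C u 4 + nd C u 6 := by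
  rw [filter_or, card_union_of_disjoint (disjoint_filter.2 fun c _ h => by omega)]
  rfl

theorem nd_pos {C : Finset (ι → α)} {u c : ι → α} (hc : c ∈ C) : 0 < nd C u (hammingDist u c) :=
  card_pos.2 ⟨c, mem_filter.2 ⟨hc, rfl⟩⟩

theorem img (hM : StmtMove ι α) {S : Set ℕ} {H : Finset (ι → α)} (hH : Cl S H) {x y : ι → α}
    (h : HasD H (hammingDist x y)) :
    ∃ C : Finset (ι → α), C.card = H.card ∧ Cl S C ∧ x ∈ C ∧ y ∈ C := by
  obtain ⟨u, hu, v, hv, e⟩ := h
  obtain ⟨g, h1, rfl, rfl⟩ := hM u v x y e.symm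
  refine ⟨H.map g.toEmbedding, card_map _, fun a ha b hb hab => ?_, mem_map_of_mem _ hu,
    mem_map_of_mem _ hv⟩
  obtain ⟨a, ha', rfl⟩ := mem_map.1 ha
  obtain ⟨b, hb', rfl⟩ := mem_map.1 hb
  exact (h1 a b).symm ▸ hH a ha' b hb' fun k => hab (by rw [k])

theorem le_six (x y : Fin 6 → Fin 4) : hammingDist x y ≤ 6 := hammingDist_le_card_fintype

theorem third (u : Fin 6 → Fin 4) (i i' : Fin 6) :
    ∃ c : Fin 6 → Fin 4, hammingDist u c = 3 ∧ c i = u i ∧ c i' = u i' := by
  have h : 3 ≤ ({i, i'} : Finset (Fin 6))ᶜ.card := by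
    have := card_le_two (a := i) (b := i')
    rw [card_compl, Fintype.card_fin]
    omega
  obtain ⟨J, hJ, hJ'⟩ := exists_subset_card_eq h
  have k : ∀ a : Fin 4, a ≠ a + 1 := by decide
  refine ⟨fun l => if l ∈ J then u l + 1 else u l, ?_, if_neg fun h => by simpa using hJ h,
    if_neg fun h => by simpa using hJ h⟩
  refine (congrArg card (Finset.ext fun l => ?_)).trans hJ'
  by_cases hl : l ∈ J <;> simp [hl, k]

end E7

open E7 in
theorem e7 (hM : StmtMove (Fin 6) (Fin 4)) (hR : StmtRob (Fin 6) (Fin 4)) (hH : StmtHex)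
    (hX : StmtHexOut) : StmtE7 := by
  intro f hf
  obtain ⟨H, hc, hcl, h4, h6, v, hv, -⟩ := hH
  have tp : TP {4, 6} H (cube 0 {0, 1, 2}) := by
    refine ⟨by simp, hcl, fun y hy z hz _ k => ?_, by rw [hc, card_cube]; decide⟩
    have k1 : hammingDist y z ≤ 3 := dist_le_of_mem_cube hy hz
    rcases k with k | k
    · omega
    · rw [Set.mem_singleton_iff] at k
      omega
  obtain ⟨-, -, -, -, r5, r6, r7⟩ := hR _ _ _ f ⟨0⟩ tp hf
  have bd : Bound (Fin 6) (Fin 4) {4, 6} H.card 32 := fun C h1 h2 u hu T hT hT' => by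
    have k1 := card_le_card (fun c hc => mem_filter.2 ⟨hT hc, hT' c hc⟩ :
      T ⊆ C.filter fun c => hammingDist u c = 4 ∨ hammingDist u c = 6)
    have k2 := hX C (h2.trans hc) h1 u hu
    rw [cardN] at k1
    omega
  replace r5 := r5 32 bd
  have nb : ∀ x y, hammingDist x y = 4 ∨ hammingDist x y = 6 → ¬Kept {4, 6} f x y :=
    fun x y h k => k.2 (hf x y h)
  have out : ∀ C : Finset (Fin 6 → Fin 4), Cl {4, 6} C → ∀ u, ∀ c ∈ C, 0 < hammingDist u c →
      hammingDist u c < 4 → u ∉ C := fun C hC u c hc h1 h2 hu => by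
    have k : hammingDist u c = 4 ∨ hammingDist u c = 6 := hC u hu c hc (hammingDist_pos.1 h1)
    omega
  have link : ∀ u c0 c, hammingDist u c0 = 1 → hammingDist c0 c = hammingDist u c + 1 →
      hammingDist u c = 3 ∨ hammingDist u c = 5 →
      (Kept {4, 6} f u c0 ↔ Kept {4, 6} f u c) := fun u c0 c h1 h2 h3 => by
    obtain ⟨C, k1, k2, k3, k4⟩ := img hM hcl (x := c0) (y := c)
      (by rcases h3 with h3 | h3 <;> rw [h2, h3] <;> assumption)
    have k5 := hX C (k1.trans hc) k2 u (out C k2 u c0 k3 (by omega) (by omega))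
    have k6 := nd_pos (u := u) k3
    have k7 := cardN C u
    rw [h1] at k6
    have key : ∀ x ∈ C, ¬(hammingDist u x = 4 ∨ hammingDist u x = 6) → ¬Kept {4, 6} f u x →
        ∀ y ∈ C, ¬Kept {4, 6} f u y := fun x hx hx' hk => by
      refine r5 C k2 k1 u (insert x (C.filter fun c => hammingDist u c = 4 ∨ hammingDist u c = 6))
        (insert_subset hx (filter_subset _ _)) ?_ fun y hy => ?_
      · rw [card_insert_of_notMem (by rw [mem_filter]; exact fun h => hx' h.2)]
        omega
      · rcases mem_insert.1 hy with rfl | hy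
        · exact hk
        · exact nb _ _ (mem_filter.1 hy).2
    exact ⟨fun h => by_contra fun h' => key c k4 (by omega) h' c0 k3 h,
      fun h => by_contra fun h' => key c0 k3 (by omega) h' c k4 h⟩
  have sA : ∀ u c0 c1, hammingDist u c0 = 1 → hammingDist u c1 = 1 → Kept {4, 6} f u c0 →
      Kept {4, 6} f u c1 := fun u c0 c1 h0 h1 h => by
    obtain ⟨i, a1, a2⟩ := one h0
    obtain ⟨i', b1, b2⟩ := one h1
    obtain ⟨c, e1, e2, e3⟩ := third u i i'
    exact (link u c1 c h1 (step b1 b2 e3) (Or.inl e1)).2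
      ((link u c0 c h0 (step a1 a2 e2) (Or.inl e1)).1 h)
  have sC : ∀ u c, hammingDist u c = 3 ∨ hammingDist u c = 5 →
      ∃ c0, hammingDist u c0 = 1 ∧ (Kept {4, 6} f u c0 ↔ Kept {4, 6} f u c) := fun u c h => by
    obtain ⟨i, hi⟩ : ∃ i, c i = u i := by
      by_contra! k
      have : hammingDist u c = 6 := by
        unfold hammingDist
        rw [filter_true_of_mem fun l _ => (k l).symm]
        rfl
      omega
    obtain ⟨a, ha⟩ := exists_ne (u i)
    exact ⟨_, dist_upd u i ha, link u _ c (dist_upd u i ha)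
      (step (by simpa using ha.symm) (fun l hl => (update_of_ne hl _ _).symm) hi) h⟩
  have two : ∀ u c : Fin 6 → Fin 4, hammingDist u c = 2 → ∃ C : Finset (Fin 6 → Fin 4),
      C.card = H.card ∧ Cl {4, 6} C ∧ c ∈ C ∧ u ∉ C ∧ nd C u 2 = 3 ∧ nd C u 3 = 8 :=
    fun u c h => by
    obtain ⟨C, k1, k2, k3, -⟩ := img hM hcl (x := c) (y := c) ⟨v, hv, v, hv, by simp⟩
    have k4 := out C k2 u c k3 (by omega) (by omega)
    have k5 := hX C (k1.trans hc) k2 u k4
    have k6 := nd_pos (u := u) k3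
    rw [h] at k6
    exact ⟨C, k1, k2, k3, k4, by omega, by omega⟩
  by_cases h : ∃ u c, hammingDist u c = 1 ∧ Kept {4, 6} f u c
  · obtain ⟨u0, c0, h0, h1⟩ := h
    have a1 : ∀ u c, hammingDist u c = 1 → Kept {4, 6} f u c := fun u =>
      B1.walk (fun u => ∀ c, hammingDist u c = 1 → Kept {4, 6} f u c) u0 u
        (fun z i hz => by
          by_cases k : u i = z i
          · rwa [k, update_eq_self]
          · exact fun c hc => sA _ z c (by rw [hammingDist_comm]; exact dist_upd z i k) hc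
              (symm (hz _ (dist_upd z i k))))
        fun c hc => sA u0 c0 c h0 hc h1
    have a3 : ∀ u c, hammingDist u c = 3 ∨ hammingDist u c = 5 → Kept {4, 6} f u c :=
      fun u c h => by
      obtain ⟨c0, k1, k2⟩ := sC u c h
      exact k2.1 (a1 u c0 k1)
    refine r7 fun x y hxy hS e => ?_
    have k0 := hammingDist_pos.2 hxy
    have k6 := le_six x y
    have kS : ¬(hammingDist x y = 4 ∨ hammingDist x y = 6) := hS
    by_cases k2 : hammingDist x y = 2
    · obtain ⟨C, -, m2, m3, -, -, m6⟩ := two x y k2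
      obtain ⟨c, hc'⟩ := card_pos.1 (show 0 < nd C x 3 by omega)
      obtain ⟨n1, n2⟩ := mem_filter.1 hc'
      refine (a3 x c (Or.inl n2)).2 ?_
      rw [e]
      refine hf _ _ (m2 y m3 c n1 fun k => ?_)
      rw [← k] at n2
      omega
    · by_cases k1 : hammingDist x y = 1
      · exact (a1 x y k1).1 e
      · exact (a3 x y (by omega)).1 e
  · have a : ∀ x y, hammingDist x y ≠ 2 → ¬Kept {4, 6} f x y := fun x y k2 k => by
      have k0 := hammingDist_pos.2 fun e : x = y => k.1 (by rw [e])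
      have k6 := le_six x y
      by_cases k1 : hammingDist x y = 1
      · exact h ⟨x, y, k1, k⟩
      by_cases k3 : hammingDist x y = 3 ∨ hammingDist x y = 5
      · obtain ⟨c0, m1, m2⟩ := sC x y k3
        exact h ⟨x, c0, m1, m2.2 k⟩
      · exact nb x y (by omega) k
    refine r6 fun x y => ?_
    by_cases k2 : hammingDist x y = 2
    · obtain ⟨C, m1, m2, m3, -, m5, -⟩ := two x y k2
      refine r5 C m2 m1 x (C.filter fun c => ¬hammingDist x c = 2) (filter_subset _ _) ?_
        (fun c hc' => a x c (mem_filter.1 hc').2) y m3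
      have k := card_filter_add_card_filter_not (s := C) fun c => hammingDist x c = 2
      unfold nd at m5
      omega
    · exact a x y k2

end Pool.Agent.MP_92191b_al.X

end

section

/-! The graph with distances one, two, three and five on six coordinates over four letters. -/

set_option linter.unusedSectionVars false

namespace Pool.Agent.MP_92191b_al.X

open Finset Function Equiv K6

variable {ι α : Type} [Fintype ι] [DecidableEq ι] [Fintype α] [DecidableEq α]

namespace E8

/-- The set of distances. -/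
abbrev SS : Set ℕ := {1, 2, 3, 5}

theorem mem_SS {s : ℕ} : s ∈ SS ↔ s = 1 ∨ s = 2 ∨ s = 3 ∨ s = 5 := by
  simp [SS]

theorem dist_le (x y : Fin 6 → Fin 4) : hammingDist x y ≤ 6 := by
  have := hammingDist_le_card_fintype (x := x) (y := y)
  simpa using this

theorem cardA (ζ : Fin 6 → Fin 4) {E : Finset (Fin 6)} (hE : E.card = 1) :
    (AK ζ E 1).card = 64 := by
  rw [Ty.card_AK sph]
  simp [hE, sum_range_succ]

theorem diamA (ζ : Fin 6 → Fin 4) {E : Finset (Fin 6)} (hE : E.card = 1) {x y : Fin 6 → Fin 4}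
    (hx : x ∈ AK ζ E 1) (hy : y ∈ AK ζ E 1) : hammingDist x y ≤ 3 := by
  have := Ty.diam ζ E 1 x hx y hy
  omega

theorem clA (ζ : Fin 6 → Fin 4) {E : Finset (Fin 6)} (hE : E.card = 1) : Cl SS (AK ζ E 1) := by
  intro y hy z hz hyz
  have h1 := diamA ζ hE hy hz
  have h2 : 0 < hammingDist y z := hammingDist_pos.2 hyz
  rw [mem_SS]
  omega

theorem out (hO : StmtOut (Fin 6) (Fin 4)) (hH : StmtHex) {C : Finset (Fin 6 → Fin 4)}
    (hC : Cl SS C) (hc : C.card = 64) {u : Fin 6 → Fin 4} (hu : u ∉ C) :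
    3 * nd C u 4 + 2 * nd C u 6 = 81 := by
  obtain ⟨H, hH1, hH2, -, -, v, -, h0, h1, h2, h3, h4, h5, h6⟩ := hH
  have hs : K6.Sep C H := Glue.sep_of (S := SS) hC fun y hy z hz hyz => by
    have := hH2 y hy z hz hyz
    rw [mem_SS]
    simp only [Set.mem_insert_iff, Set.mem_singleton_iff] at this
    omega
  have h := hO C H hs (by rw [hc, hH1]; simp) u v
  have z0 : nd C u 0 = 0 := by
    unfold nd
    rw [card_eq_zero, filter_eq_empty_iff]
    intro c hcC he
    exact hu (hammingDist_eq_zero.1 he ▸ hcC)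
  simp only [Fintype.card_fin, sum_range_succ, range_zero, sum_empty, h0, h1, h2, h3, h4, h5, h6,
    z0] at h
  have e4 : Nat.choose 6 4 = 15 := by decide
  have e6 : Nat.choose 6 6 = 1 := by decide
  rw [e4, e6] at h
  have h' : (3 : ℚ) * (nd C u 4 : ℚ) + 2 * (nd C u 6 : ℚ) = 81 := by
    norm_num at h
    linarith
  exact_mod_cast h'

theorem bound (hO : StmtOut (Fin 6) (Fin 4)) (hH : StmtHex) : Bound (Fin 6) (Fin 4) SS 64 37 := by
  intro C hC hc u hu T hT hd
  have h := out hO hH hC hc hu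
  unfold nd at h
  have d1 : Disjoint (C.filter fun c => hammingDist u c = 4)
      (C.filter fun c => hammingDist u c = 6) := by
    rw [disjoint_filter]
    intro c _ h1 h2
    omega
  have d2 : Disjoint T ((C.filter fun c => hammingDist u c = 4) ∪
      (C.filter fun c => hammingDist u c = 6)) := by
    rw [disjoint_left]
    intro c hcT hc'
    have := mem_SS.1 (hd c hcT)
    simp only [mem_union, mem_filter] at hc'
    omega
  have hs : T ∪ ((C.filter fun c => hammingDist u c = 4) ∪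
      (C.filter fun c => hammingDist u c = 6)) ⊆ C :=
    union_subset hT (union_subset (filter_subset _ _) (filter_subset _ _))
  have := card_le_card hs
  rw [card_union_of_disjoint d2, card_union_of_disjoint d1] at this
  omega

theorem tp (hH : StmtHex) : ∃ K D : Finset (Fin 6 → Fin 4), K.card = 64 ∧ TP SS K D := by
  obtain ⟨H, hH1, hH2, -⟩ := hH
  have hc := cardA (fun _ => 0) (E := {0}) (card_singleton _)
  refine ⟨AK (fun _ => 0) {0} 1, H, hc, ?_, clA _ (card_singleton _), ?_, ?_⟩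
  · rw [mem_SS]
    omega
  · intro y hy z hz hyz
    have := hH2 y hy z hz hyz
    rw [Set.mem_compl_iff, mem_SS]
    simp only [Set.mem_insert_iff, Set.mem_singleton_iff] at this
    omega
  · rw [hc, hH1]
    simp

theorem nk_of {f : (Fin 6 → Fin 4) → Fin 6 → Fin 4} (hf : Hom SS f) {x y : Fin 6 → Fin 4}
    (h : hammingDist x y ∈ SS) : ¬Kept SS f x y := fun hk => hk.2 (hf x y h)

theorem nk_symm {f : (Fin 6 → Fin 4) → Fin 6 → Fin 4} {x y : Fin 6 → Fin 4}
    (h : ¬Kept SS f x y) : ¬Kept SS f y x := fun hk =>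
  h ⟨hk.1.symm, by rw [hammingDist_comm]; exact hk.2⟩

theorem near {ζ : Fin 6 → Fin 4} {E : Finset (Fin 6)} (hE : E.card = 1) {x b : Fin 6 → Fin 4}
    (hx : dev ζ E x = 2) (hb : b ∈ AK ζ E 1) : hammingDist x b ≤ 4 := by
  have h2 := Ty.mem_AK.1 hb
  have hs : (univ.filter fun i => x i ≠ b i) ⊆
      ((univ.filter fun i => i ∉ E ∧ x i ≠ ζ i) ∪ univ.filter fun i => i ∉ E ∧ b i ≠ ζ i) ∪ E := by
    intro i hi
    simp only [mem_filter, mem_univ, true_and, mem_union] at hi ⊢
    by_contra hn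
    push Not at hn
    exact hi ((hn.1.1 hn.2).trans (hn.1.2 hn.2).symm)
  have h3 := (card_le_card hs).trans ((card_union_le _ _).trans
    (Nat.add_le_add_right (card_union_le _ _) _))
  unfold dev at hx h2
  unfold hammingDist
  omega

/-- Spreading of the property of not being kept inside a largest clique. -/
def Spr (f : (Fin 6 → Fin 4) → Fin 6 → Fin 4) : Prop :=
  ∀ C : Finset (Fin 6 → Fin 4), Cl SS C → C.card = 64 →
    ∀ u T, T ⊆ C → 37 < T.card → (∀ c ∈ T, ¬Kept SS f u c) → ∀ c ∈ C, ¬Kept SS f u c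

theorem four (hO : StmtOut (Fin 6) (Fin 4)) (hH : StmtHex)
    {f : (Fin 6 → Fin 4) → Fin 6 → Fin 4} (hf : Hom SS f) (h5 : Spr f)
    (x y x' y' : Fin 6 → Fin 4) (h : hammingDist x y = 4) (h' : hammingDist x' y' = 4)
    (hn : ¬Kept SS f x y) : ¬Kept SS f x' y' := by
  refine conn (ι := Fin 6) (α := Fin 4) (by simp) 3 1 (fun x y => ¬Kept SS f x y) le_rfl
    (by norm_num) (by simp) (fun x y => nk_symm) ?_ x y x' y' h h' hn
  intro ζ E x hE hx a ha a' ha' hxa _ hk
  have hE1 : E.card = 1 := by omega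
  have hxA : x ∉ AK ζ E 1 := fun hm => by
    have := Ty.mem_AK.1 hm
    omega
  have ho := out hO hH (clA ζ hE1) (cardA ζ hE1) hxA
  have z6 : nd (AK ζ E 1) x 6 = 0 := by
    unfold nd
    rw [card_eq_zero, filter_eq_empty_iff]
    intro c hc he
    have := near hE1 (by omega) hc (x := x)
    omega
  have hsum := card_filter_add_card_filter_not (s := AK ζ E 1) (fun c => hammingDist x c = 4)
  rw [cardA ζ hE1] at hsum
  have hna : a ∉ (AK ζ E 1).filter fun c => ¬hammingDist x c = 4 := by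
    simp only [mem_filter, not_and, not_not]
    intro _
    omega
  refine h5 (AK ζ E 1) (clA ζ hE1) (cardA ζ hE1) x
    (insert a ((AK ζ E 1).filter fun c => ¬hammingDist x c = 4))
    (insert_subset ha (filter_subset _ _)) ?_ ?_ a' ha'
  · rw [card_insert_of_notMem hna]
    unfold nd at ho z6
    omega
  · intro c hc
    rcases mem_insert.1 hc with rfl | hc
    · exact hk
    · obtain ⟨hc1, hc2⟩ := mem_filter.1 hc
      refine nk_of hf ?_
      have h1 := near hE1 (by omega) hc1 (x := x)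
      have h2 : 0 < hammingDist x c := hammingDist_pos.2 fun he => hxA (he ▸ hc1)
      rw [mem_SS]
      omega

theorem self_mem (ζ : Fin 6 → Fin 4) (E : Finset (Fin 6)) : ζ ∈ AK ζ E 1 := by
  rw [Ty.mem_AK]
  simp [dev]

theorem six_kept (hO : StmtOut (Fin 6) (Fin 4)) (hH : StmtHex)
    {f : (Fin 6 → Fin 4) → Fin 6 → Fin 4} (hf : Hom SS f)
    (h4 : ∀ x y, hammingDist x y = 4 → Kept SS f x y) (u c : Fin 6 → Fin 4)
    (h : hammingDist u c = 6) : f u ≠ f c := by
  intro he
  have hE : ({0} : Finset (Fin 6)).card = 1 := card_singleton _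
  have hc := self_mem c {0}
  have hu : u ∉ AK c {0} 1 := fun hm => by
    have := diamA c hE hm hc
    omega
  have ho := out hO hH (clA c hE) (cardA c hE) hu
  have hp : 0 < nd (AK c {0} 1) u 4 := by omega
  unfold nd at hp
  obtain ⟨c', hc'⟩ := card_pos.1 hp
  obtain ⟨hc1, hc2⟩ := mem_filter.1 hc'
  have hne : c ≠ c' := fun e => by
    rw [← e] at hc2
    omega
  have := hf c c' (clA c hE c hc c' hc1 hne)
  rw [← he] at this
  exact (h4 u c' hc2).2 this

theorem six_not {f : (Fin 6 → Fin 4) → Fin 6 → Fin 4} (hf : Hom SS f) (h5 : Spr f)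
    (h4 : ∀ x y, hammingDist x y = 4 → ¬Kept SS f x y) (u c : Fin 6 → Fin 4)
    (h : hammingDist u c = 6) : ¬Kept SS f u c := by
  have hE : ({0} : Finset (Fin 6)).card = 1 := card_singleton _
  set ζ : Fin 6 → Fin 4 := update c 1 (u 1) with hζ
  have hc : c ∈ AK ζ {0} 1 := by
    rw [Ty.mem_AK]
    unfold dev
    refine (card_le_card (t := {1}) ?_).trans (card_singleton _).le
    intro i hi
    simp only [mem_filter, mem_univ, true_and] at hi
    rw [mem_singleton]
    by_contra hne
    exact hi.2 (by rw [hζ, update_of_ne hne])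
  have hu : u ∉ AK ζ {0} 1 := fun hm => by
    have := diamA ζ hE hm hc
    omega
  have key : ∀ b ∈ (AK ζ {0} 1).filter fun b => hammingDist u b = 6,
      ∀ r : Fin 6, r ≠ 0 → r ≠ 1 → b r = ζ r := by
    intro b hb r h0 h1
    obtain ⟨hb1, hb2⟩ := mem_filter.1 hb
    have hall : (univ.filter fun i => u i ≠ b i) = univ :=
      eq_univ_of_card _ (by simpa [hammingDist] using hb2)
    have h11 : u 1 ≠ b 1 := by
      have : (1 : Fin 6) ∈ univ.filter fun i => u i ≠ b i := by
        rw [hall]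
        exact mem_univ _
      exact (mem_filter.1 this).2
    by_contra hne
    have hd := Ty.mem_AK.1 hb1
    unfold dev at hd
    have hs : ({r, 1} : Finset (Fin 6)) ⊆
        univ.filter fun i => i ∉ ({0} : Finset (Fin 6)) ∧ b i ≠ ζ i := by
      intro i hi
      simp only [mem_insert, mem_singleton] at hi
      simp only [mem_filter, mem_univ, true_and, mem_singleton]
      rcases hi with rfl | rfl
      · exact ⟨h0, hne⟩
      · refine ⟨by decide, ?_⟩
        rw [hζ, update_self]
        exact h11.symm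
    have := card_le_card hs
    rw [card_pair h1] at this
    omega
  have h16 : ((AK ζ {0} 1).filter fun b => hammingDist u b = 6).card ≤ 16 := by
    have := card_le_card_of_injOn (s := (AK ζ {0} 1).filter fun b => hammingDist u b = 6)
      (t := (univ : Finset (Fin 4 × Fin 4))) (fun b => (b 0, b 1)) (fun _ _ => by simp)
      (fun b hb b' hb' e => by
        funext r
        simp only [Prod.mk.injEq] at e
        by_cases h0 : r = 0
        · rw [h0]
          exact e.1
        by_cases h1 : r = 1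
        · rw [h1]
          exact e.2
        rw [key b hb r h0 h1, key b' hb' r h0 h1])
    simpa using this
  have hsum := card_filter_add_card_filter_not (s := AK ζ {0} 1) (fun b => hammingDist u b = 6)
  rw [cardA ζ hE] at hsum
  refine h5 (AK ζ {0} 1) (clA ζ hE) (cardA ζ hE) u
    ((AK ζ {0} 1).filter fun b => ¬hammingDist u b = 6) (filter_subset _ _) (by omega) ?_ c hc
  intro b hb
  obtain ⟨hb1, hb2⟩ := mem_filter.1 hb
  by_cases e4 : hammingDist u b = 4
  · exact h4 u b e4
  refine nk_of hf ?_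
  have h1 := dist_le u b
  have h2 : 0 < hammingDist u b := hammingDist_pos.2 fun he => hu (he ▸ hb1)
  rw [mem_SS]
  omega

end E8

theorem e8 (hO : StmtOut (Fin 6) (Fin 4)) (hR : StmtRob (Fin 6) (Fin 4)) (hH : StmtHex) :
    StmtE8 := by
  intro f hf
  obtain ⟨K, D, hK, hT⟩ := E8.tp hH
  obtain ⟨-, -, -, -, r5, r6, r7⟩ := hR E8.SS K D f ⟨0⟩ hT hf
  rw [hK] at r5
  have h5 : E8.Spr f := r5 37 (E8.bound hO hH)
  by_cases hex : ∃ x y, hammingDist x y = 4 ∧ ¬Kept E8.SS f x y
  · obtain ⟨x, y, h, hn⟩ := hex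
    have h4 : ∀ x' y', hammingDist x' y' = 4 → ¬Kept E8.SS f x' y' :=
      fun x' y' h' => E8.four hO hH hf h5 x y x' y' h h' hn
    refine r6 fun x' y' => ?_
    by_cases e0 : x' = y'
    · exact fun hk => hk.1 (by rw [e0])
    by_cases e4 : hammingDist x' y' = 4
    · exact h4 x' y' e4
    by_cases e6 : hammingDist x' y' = 6
    · exact E8.six_not hf h5 h4 x' y' e6
    refine E8.nk_of hf ?_
    have h1 := E8.dist_le x' y'
    have h2 : 0 < hammingDist x' y' := hammingDist_pos.2 e0
    rw [E8.mem_SS]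
    omega
  · push Not at hex
    refine r7 fun x y hne hs => ?_
    by_cases e4 : hammingDist x y = 4
    · exact (hex x y e4).1
    refine E8.six_kept hO hH hf hex x y ?_
    have h1 := E8.dist_le x y
    have h2 : 0 < hammingDist x y := hammingDist_pos.2 hne
    rw [E8.mem_SS] at hs
    omega

end Pool.Agent.MP_92191b_al.X

end

section

/-! From the structure theorem with exceptions to uniformity of non-synchronized maps. -/

set_option linter.unusedSectionVars false

namespace Pool.Agent.MP_92191b_al.X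

open Finset Function Equiv K6

variable {ι α : Type} [Fintype ι] [DecidableEq ι] [Fintype α] [DecidableEq α]

namespace GlueX

open K6.Glue (sep_of)

theorem gp_of {S : Set ℕ} (h1 : 1 ∉ S) {C D : Finset (ι → α)}
    (hC : ∀ y ∈ C, ∀ z ∈ C, y ≠ z → hammingDist y z ∈ S)
    (hD : ∀ y ∈ D, ∀ z ∈ D, y ≠ z → hammingDist y z ∉ S)
    (hb : Fintype.card α ^ Fintype.card ι ≤ C.card * D.card) : GP C D :=
  ⟨sep_of hC hD, hb,
    fun c hc c' hc' he => h1 (he ▸ hC c hc c' hc' (hammingDist_pos.1 (by omega)))⟩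

/-- The structure theorem in terms of a set of distances. -/
theorem conc {Ex : Finset (ι → α) → Finset (ι → α) → Prop} (hA : StmtAX ι α Ex)
    (hT : StmtTy ι α) (hk : 3 ≤ Fintype.card α) {S : Set ℕ}
    (h1 : 1 ∉ S) {C D : Finset (ι → α)} (hC : ∀ y ∈ C, ∀ z ∈ C, y ≠ z → hammingDist y z ∈ S)
    (hD : ∀ y ∈ D, ∀ z ∈ D, y ≠ z → hammingDist y z ∉ S) (h2 : 2 ≤ C.card)
    (hb : Fintype.card α ^ Fintype.card ι ≤ C.card * D.card) (hx : ¬Ex C D) :
    ∃ ζ E e, D = AK ζ E e ∧ E.card + Fintype.card α * e + 1 ≤ Fintype.card ι ∧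
      2 * e + E.card + 1 ∈ S ∧ ∀ s, 1 ≤ s → s ≤ 2 * e + E.card → s ∉ S := by
  obtain ⟨ζ, E, e, rfl, hr, c, hc, c', hc', hd⟩ :=
    (hA C D (gp_of h1 hC hD hb) h2).resolve_right hx
  refine ⟨ζ, E, e, rfl, hr, hd ▸ hC c hc c' hc' (hammingDist_pos.1 (by omega)),
    fun s hs1 hs => ?_⟩
  obtain ⟨x, hx, y, hy, rfl⟩ := hT.2.2.1 (by omega) ζ E e s (by nlinarith) hs
  exact hD x hx y hy (hammingDist_pos.1 hs1)

theorem maxA {Ex : Finset (ι → α) → Finset (ι → α) → Prop} {f : (ι → α) → ι → α}
    (hH : Harmless Ex f) (hC : StmtCnt ι α) (hA : StmtAX ι α Ex) (hT : StmtTy ι α)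
    (hk : 3 ≤ Fintype.card α)
    {C : Finset (ι → α)} {J N : ℕ} (hJ : 1 ≤ J)
    (hd : ∀ y ∈ C, ∀ z ∈ C, y ≠ z → J < hammingDist y z) (h2 : 2 ≤ C.card)
    (hN : C.card * N = Fintype.card α ^ Fintype.card ι) : MaxA ι α J N := by
  have hF : ∀ F : Finset (ι → α), Diam F J →
      ∀ y ∈ F, ∀ z ∈ F, y ≠ z → hammingDist y z ∉ {s | J < s} :=
    fun F hF y hy z hz _ h => absurd (hF y hy z hz) (not_le.2 h)
  refine ⟨fun F h => ?_, fun F h hc => ?_⟩
  · have := hC.2.1 C F (sep_of (S := {s | J < s}) hd (hF F h))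
    rw [← hN] at this
    exact Nat.le_of_mul_le_mul_left this (by omega)
  · obtain ⟨ζ, E, e, rfl, hr, h3, -⟩ := conc hA hT hk (S := {s | J < s})
      (fun h' => absurd hJ (not_le.2 h')) hd (hF F h) h2 (by rw [hc, hN]) (fun hx => by
        obtain ⟨c, hc, c', hc', d, hd', d', hd'', hne, hle⟩ := hH.gap C F hx
        have h7 := hd c hc c' hc' hne
        have h8 := h d hd' d' hd''
        omega)
    obtain ⟨x, hx, y, hy, hxy⟩ := hT.2.2.1 (by omega) ζ E e _ (by nlinarith) le_rfl
    have h4 := h x hx y hy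
    have h5 : J < 2 * e + E.card + 1 := h3
    have h6 : 2 * e + E.card = J := by omega
    exact ⟨ζ, E, e, h6, ⟨by omega, by omega, fun ζ' E' h7 =>
      (hT.1 ζ' ζ E' E e (by omega)).trans hc⟩, rfl⟩

end GlueX

open K6.Glue (sep_of dist_wreath) in
open GlueX in
theorem glueX : StmtGlueX ι α := by
  intro hk Ex hA f hH hM
  have hC : StmtCnt ι α := K6.cnt
  have hT : StmtTy ι α := K6.ty K6.sph
  have hP : StmtPre ι α := K6.pre K6.cnt (K6.ty K6.sph)
  have hB1 : StmtB1 ι α := b1_all
  have hB2 : StmtB2 ι α := b2_all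
  classical
  have : Nontrivial α := Fintype.one_lt_card_iff_nontrivial.1 (by omega)
  obtain ⟨a0⟩ : Nonempty (ι → α) := inferInstance
  set M := Submonoid.closure ({g : Function.End (ι → α) |
      ∃ (σ : ι → Perm α) (π : Perm ι), g = fun x i => σ i (x (π i))} ∪ {f}) with hMdef
  have hG : ∀ (σ : ι → Perm α) (π : Perm ι),
      (fun x i => σ i (x (π i)) : Function.End (ι → α)) ∈ M :=
    fun σ π => Submonoid.subset_closure (Or.inl ⟨σ, π, rfl⟩)
  have hf : f ∈ M := Submonoid.subset_closure (Or.inr rfl)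
  let S : Set ℕ := {d | ∀ x y : ι → α, hammingDist x y = d → ∀ c ∈ M, c x ≠ c y}
  have hS : ∀ x y : ι → α, hammingDist x y ∈ S ↔ ∀ c ∈ M, c x ≠ c y := by
    refine fun x y => ⟨fun h => h x y rfl, fun h x' y' h' c hc hne => ?_⟩
    obtain ⟨σ, π, h1, h2⟩ := exists_wreath h'
    refine h _ (M.mul_mem hc (hG σ π)) ?_
    change c (fun i => σ i (x (π i))) = c fun i => σ i (y (π i))
    rw [h1, h2, hne]
  have hend : ∀ c ∈ M, ∀ x y, hammingDist x y ∈ S → c x ≠ c y ∧ hammingDist (c x) (c y) ∈ S :=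
    fun g hg x y h => ⟨(hS x y).1 h g hg, (hS _ _).2 fun c hc => (hS x y).1 h _ (M.mul_mem hc hg)⟩
  have hge : ∀ x y : ι → α, x ≠ y → 1 ≤ hammingDist x y := fun _ _ h => hammingDist_pos.2 h
  have hex : ∃ n, ∃ c ∈ M, (univ.image c).card = n := ⟨_, 1, M.one_mem, rfl⟩
  obtain ⟨h, hh, hcard⟩ := Nat.find_spec hex
  have hmin : ∀ c ∈ M, (univ.image h).card ≤ (univ.image c).card := fun c hc =>
    hcard ▸ Nat.find_min' hex ⟨c, hc, rfl⟩
  have hK : ∀ y ∈ univ.image h, ∀ z ∈ univ.image h, y ≠ z → hammingDist y z ∈ S := by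
    intro y hy z hz hyz
    refine (hS y z).2 fun c hc he => ?_
    have h1 : (univ.image (c * h)).card < (univ.image h).card := by
      have : univ.image (c * h) = (univ.image h).image c := by
        rw [image_image]
        rfl
      rw [this]
      exact lt_of_le_of_ne card_image_le fun h' => hyz (card_image_iff.1 h' hy hz he)
    exact absurd (hmin _ (M.mul_mem hc hh)) (not_le.2 h1)
  have hfib : ∀ c ∈ M, ∀ w, ∀ y ∈ univ.filter fun x => c x = w,
      ∀ z ∈ univ.filter fun x => c x = w, y ≠ z → hammingDist y z ∉ S := fun c hc w y hy z hz _ h' =>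
    (hS y z).1 h' c hc ((mem_filter.1 hy).2.trans (mem_filter.1 hz).2.symm)
  obtain ⟨w, -, hw⟩ := exists_max_image univ (fun w => (univ.filter fun x => h x = w).card)
    ⟨a0, mem_univ _⟩
  have hC0 := hfib h hh w
  have hKC : Fintype.card α ^ Fintype.card ι ≤
      (univ.image h).card * (univ.filter fun x => h x = w).card := by
    rw [← Fintype.card_fun, ← card_univ, mul_comm]
    exact card_le_mul_card_image _ _ fun v _ => hw v (mem_univ _)
  have hKC' := le_antisymm (hC.2.1 _ _ (sep_of hK hC0)) hKC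
  set K := univ.image h with hKdef
  set C0 := univ.filter fun x => h x = w with hC0def
  have h0S : 0 ∉ S := fun h' => h' a0 a0 (hammingDist_self a0) 1 M.one_mem rfl
  have hHom : Hom S f := fun x y hxy => (hend f hf x y hxy).2
  by_cases h1 : 1 ∈ S
  · by_cases h2 : 2 ≤ C0.card
    swap
    · have h3 : Fintype.card (ι → α) ≤ (univ.image f).card := by
        rw [Fintype.card_fun]
        refine hKC.trans (le_trans ?_ (hmin f hf))
        calc K.card * C0.card ≤ K.card * 1 := Nat.mul_le_mul_left _ (by omega)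
          _ = K.card := mul_one _
      have h4 : Injective f := fun x y hxy =>
        card_image_iff.1 (le_antisymm card_image_le (by rwa [card_univ])) (mem_univ x)
          (mem_univ y) hxy
      have h5 : ∀ a, (univ.filter fun x => f x = f a) = {a} := fun a => by
        ext x
        simp [h4.eq_iff]
      intro a b
      rw [h5, h5, card_singleton, card_singleton]
    have h1' : 1 ∉ Sᶜ := fun h' => h' h1
    by_cases hx : ∃ K' : Finset (ι → α), Cl S K' ∧ K'.card = K.card ∧ Ex C0 K'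
    · obtain ⟨K', h3, h4, h5⟩ := hx
      exact hH.unif C0 K' (gp_of (S := Sᶜ) h1' hC0 (fun y hy z hz hne h' => h' (h3 y hy z hz hne))
        (by rw [h4, mul_comm]; exact hKC)) h5 S h0S hHom (Or.inr ⟨h1, hC0, h3⟩)
    have key : ∀ K' : Finset (ι → α), (∀ y ∈ K', ∀ z ∈ K', y ≠ z → hammingDist y z ∈ S) →
        K'.card = K.card → ∃ ζ E e, K' = AK ζ E e ∧
          E.card + Fintype.card α * e + 1 ≤ Fintype.card ι ∧ 2 * e + E.card + 1 ∉ S ∧
          ∀ s, 1 ≤ s → s ≤ 2 * e + E.card → s ∈ S := by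
      intro K' h3 h4
      obtain ⟨ζ, E, e, h5, h6, h7, h8⟩ := conc hA hT hk (S := Sᶜ) h1' hC0
        (fun y hy z hz hne h' => h' (h3 y hy z hz hne)) h2 (by rw [h4, mul_comm]; exact hKC)
        (fun h' => hx ⟨K', h3, h4, h'⟩)
      exact ⟨ζ, E, e, h5, h6, h7, fun s hs hs' => not_not.1 (h8 s hs hs')⟩
    obtain ⟨ζ, E, e, hKe, hr, hJ1, hlow⟩ := key K hK rfl
    obtain ⟨j, hj⟩ : ∃ j, 2 * e + E.card = j + 1 :=
      Nat.exists_eq_succ_of_ne_zero fun h0 => hJ1 (by rw [h0]; exact h1)
    have hKd : Diam K (j + 1) := by rw [hKe, ← hj]; exact hT.2.1 ζ E e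
    rw [hj] at hJ1 hlow
    have hMax : MaxA ι α (j + 1) K.card := maxA hH hC hA hT hk (by omega)
      (fun y hy z hz hne => not_le.1 fun h' => hC0 y hy z hz hne (hlow _ (hge y z hne) h')) h2
      (by rw [mul_comm]; exact hKC')
    have hf' : ∀ x y, x ≠ y → hammingDist x y ≤ j + 1 →
        f x ≠ f y ∧ hammingDist (f x) (f y) ≤ j + 1 := by
      intro x y hne hd
      refine ⟨(hend f hf x y (hlow _ (hge x y hne) hd)).1, ?_⟩
      obtain ⟨x', hx', y', hy', hxy⟩ := hT.2.2.1 (by omega) ζ E e (hammingDist x y)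
        (by nlinarith) (by omega)
      rw [← hKe] at hx' hy'
      obtain ⟨σ, π, e1, e2⟩ := exists_wreath hxy.symm
      obtain ⟨g, hg, hgx, hgy⟩ : ∃ g ∈ M, g x' = f x ∧ g y' = f y :=
        ⟨_, M.mul_mem hf (hG σ π), congrArg f e1, congrArg f e2⟩
      obtain ⟨ζ', E', e', h5, -, h7, h8⟩ := key (K.image g) (by
        intro u hu v hv huv
        obtain ⟨u', hu', rfl⟩ := mem_image.1 hu
        obtain ⟨v', hv', rfl⟩ := mem_image.1 hv
        exact (hend g hg u' v' (hK u' hu' v' hv' fun h' => huv (by rw [h']))).2)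
        (card_image_of_injOn fun u hu v hv huv => by_contra fun hne' =>
          (hend g hg u v (hK u hu v hv hne')).1 huv)
      have h9 : 2 * e' + E'.card ≤ j + 1 := not_lt.1 fun h' => hJ1 (h8 _ (by omega) h')
      have h10 : f x ∈ K.image g := mem_image.2 ⟨x', hx', hgx⟩
      have h11 : f y ∈ K.image g := mem_image.2 ⟨y', hy', hgy⟩
      rw [h5] at h10 h11
      exact (hT.2.1 ζ' E' e' _ h10 _ h11).trans h9
    by_cases hty : ∃ e1, Ty ι α (j + 1) K.card e1 ∧ 1 ≤ e1
    · obtain ⟨e1, h3, h4⟩ := hty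
      refine (hB2 (by omega) _ _ e1 f hMax h3 h4 hf').resolve_right fun h5 => hJ1 ?_
      have h6 : ∀ c ∈ M, ∀ x y, hammingDist x y = j + 1 + 1 →
          hammingDist (c x) (c y) = j + 1 + 1 := by
        intro c hc
        induction hc using Submonoid.closure_induction with
        | mem c hc =>
          rcases hc with ⟨σ, π, rfl⟩ | rfl
          · exact fun x y hd => (dist_wreath σ π x y).trans hd
          · exact h5
        | one => exact fun x y hd => hd
        | mul c c' _ _ ih ih' => exact fun x y hd => ih _ _ (ih' x y hd)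
      intro x y hd c hc he
      have := h6 c hc x y hd
      rw [he, hammingDist_self] at this
      omega
    · exact uniform_of_small (by omega) (K6.Glue.ekr hMax (fun e1 h3 => by
        by_contra h4
        exact hty ⟨e1, h3, by omega⟩) ⟨K, hKd, rfl⟩) (by nlinarith) hf'
  · have h2 : 2 ≤ K.card := by
      obtain ⟨x, hx⟩ : ∃ x, h x ≠ h a0 := by
        by_contra! h'
        exact hM h hh ⟨h a0, h'⟩
      exact one_lt_card.2 ⟨_, mem_image_of_mem h (mem_univ x), _,
        mem_image_of_mem h (mem_univ a0), hx⟩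
    by_cases hx : ∃ D' : Finset (ι → α), Cl Sᶜ D' ∧
        Fintype.card α ^ Fintype.card ι ≤ K.card * D'.card ∧ Ex K D'
    · obtain ⟨D', h3, h4, h5⟩ := hx
      exact hH.unif K D' (gp_of h1 hK h3 h4) h5 S h0S hHom (Or.inl ⟨h1, hK, h3⟩)
    obtain ⟨ζ, E, e, hCe, hr, hJ1, hlow⟩ := conc hA hT hk h1 hK hC0 h2 hKC
      (fun h' => hx ⟨C0, hC0, hKC, h'⟩)
    obtain ⟨j, hj⟩ : ∃ j, 2 * e + E.card = j + 1 :=
      Nat.exists_eq_succ_of_ne_zero fun h0 => h1 (by rw [h0] at hJ1; exact hJ1)
    have hCd : Diam C0 (j + 1) := by rw [hCe, ← hj]; exact hT.2.1 ζ E e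
    rw [hj] at hJ1 hlow
    have hKd : ∀ y ∈ K, ∀ z ∈ K, y ≠ z → j + 1 < hammingDist y z :=
      fun y hy z hz hne => not_le.1 fun h' => hlow _ (hge y z hne) h' (hK y hy z hz hne)
    have hMax : MaxA ι α (j + 1) C0.card := maxA hH hC hA hT hk (by omega) hKd h2 hKC'
    have hhigh : ∀ x y : ι → α, j + 1 < hammingDist x y → hammingDist x y ∈ S := by
      intro x y hd
      refine (hS x y).2 fun c hc he => ?_
      have hg := M.mul_mem hh hc
      have hle : ∀ v, (univ.filter fun x => (h * c) x = v).card ≤ C0.card := fun v => by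
        have := hC.2.1 _ _ (sep_of hK (hfib _ hg v))
        rw [← hKC'] at this
        exact Nat.le_of_mul_le_mul_left this (by omega)
      have hsum : ∑ v ∈ K, (univ.filter fun x => (h * c) x = v).card = ∑ _v ∈ K, C0.card := by
        rw [sum_const, smul_eq_mul, hKC', ← Fintype.card_fun, ← card_univ]
        exact (card_eq_sum_card_fiberwise fun x _ => mem_image_of_mem h (mem_univ (c x))).symm
      have heq := (sum_eq_sum_iff_of_le fun v _ => hle v).1 hsum ((h * c) x)
        (mem_image_of_mem h (mem_univ (c x)))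
      obtain ⟨ζ', E', e', h5, -, -, h8⟩ := conc hA hT hk h1 hK (hfib _ hg ((h * c) x)) h2
        (by rw [heq]; exact hKC)
        (fun h' => hx ⟨_, hfib _ hg ((h * c) x), by rw [heq]; exact hKC, h'⟩)
      have h9 : 2 * e' + E'.card ≤ j + 1 := not_lt.1 fun h' => h8 _ (by omega) h' hJ1
      have h10 : x ∈ AK ζ' E' e' := h5 ▸ mem_filter.2 ⟨mem_univ _, rfl⟩
      have h11 : y ∈ AK ζ' E' e' := h5 ▸ mem_filter.2 ⟨mem_univ _, congrArg h he.symm⟩
      have := hT.2.1 ζ' E' e' _ h10 _ h11
      omega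
    have hf' : ∀ x y, j + 1 < hammingDist x y → j + 1 < hammingDist (f x) (f y) := by
      intro x y hd
      obtain ⟨h3, h4⟩ := hend f hf x y (hhigh x y hd)
      exact not_le.1 fun h' => hlow _ (hge _ _ h3) h' h4
    by_cases hty : ∃ e1, Ty ι α (j + 1) C0.card e1 ∧ 1 ≤ e1
    · obtain ⟨e1, h3, h4⟩ := hty
      exact hB1 (by omega) _ _ e1 f hMax (hP _ _ K f inferInstance hMax hKd hKC' hf') h3 h4
    · exact uniform_of_large (K6.Glue.ekr hMax (fun e1 h3 => by
        by_contra h4
        exact hty ⟨e1, h3, by omega⟩) ⟨C0, hCd, rfl⟩) (by nlinarith) hf'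

end Pool.Agent.MP_92191b_al.X

end
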