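import Pool.Agent.MP_92191b_al.X.Defs
import Pool.Agent.Mg.F92191bp.G689315
import Pool.Agent.Mg.F92191bp.Gf1626c
import Pool.Agent.MP_92191b_al.X.E3
import Pool.Agent.MP_92191b_al.X.Hex
import Pool.Agent.Mg.F92191bp.G4681c0
import Pool.Agent.Mg.F92191bp.Ge1dd53

section

/-! Transitivity of isometries on pairs, and outer distance distributions of a tight pair. -/

set_option linter.unusedSectionVars false

namespace Pool.Agent.MP_92191b_al.X

open Finset Function Equiv K6

variable {ι α : Type} [Fintype ι] [DecidableEq ι] [Fintype α] [DecidableEq α]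

theorem move : StmtMove ι α := by
  intro u v x y h
  obtain ⟨σ, π, h1, h2⟩ := exists_wreath h
  have hd := K6.Glue.dist_wreath σ π
  have hi : Injective fun (z : ι → α) (l : ι) => σ l (z (π l)) := by
    intro a b hab
    have := hd a b
    rw [show (fun i => σ i (a (π i))) = fun i => σ i (b (π i)) from hab, hammingDist_self] at this
    exact hammingDist_eq_zero.1 this.symm
  exact ⟨Equiv.ofBijective _ (Finite.injective_iff_bijective.1 hi), hd, h1, h2⟩

namespace Out

/-- Isometries sending `v` to `u` and `d` to `c`. -/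
def St (u v c d : ι → α) : Finset (Perm (ι → α)) :=
  univ.filter fun g => (∀ a b, hammingDist (g a) (g b) = hammingDist a b) ∧ g v = u ∧ g d = c

theorem mem_St {u v c d : ι → α} {g : Perm (ι → α)} : g ∈ St u v c d ↔
    (∀ a b, hammingDist (g a) (g b) = hammingDist a b) ∧ g v = u ∧ g d = c := by
  simp [St]

theorem St_le {u c c' : ι → α} (v d : ι → α) (h : hammingDist u c' = hammingDist u c) :
    (St u v c d).card ≤ (St u v c' d).card := by
  obtain ⟨k, hk, h1, h2⟩ := move u c u c' h
  refine card_le_card_of_injOn (fun g => g.trans k) (fun g hg => ?_) fun g _ g' _ he => ?_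
  · obtain ⟨g1, g2, g3⟩ := mem_St.1 (mem_coe.1 hg)
    refine mem_coe.2 (mem_St.2 ⟨fun a b => ?_, ?_, ?_⟩)
    · exact (hk _ _).trans (g1 a b)
    · simp only [Equiv.trans_apply, g2, h1]
    · simp only [Equiv.trans_apply, g3, h2]
  · exact Equiv.ext fun a => k.injective (Equiv.congr_fun he a)

theorem sphere (u : ι → α) (s : ℕ) : (univ.filter fun x => hammingDist u x = s).card =
    (Fintype.card ι).choose s * (Fintype.card α - 1) ^ s := by
  have := K6.sph u ∅ ∅ univ s (by simp) (by simp) (by simp)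
  simp only [notMem_empty, false_imp_iff, implies_true, true_and, card_empty, add_zero,
    card_univ, Nat.sub_zero, Nat.sub_self, pow_zero, mul_one] at this
  rw [← this]
  refine congrArg card (filter_congr fun x _ => ?_)
  rw [hammingDist_comm]
  rfl

theorem St_mul {u v c d : ι → α} (h : hammingDist u c = hammingDist v d) :
    (St u v u v).card = (St u v c d).card *
      ((Fintype.card ι).choose (hammingDist v d) * (Fintype.card α - 1) ^ hammingDist v d) := by
  rw [← sphere u, card_eq_sum_card_fiberwise (f := fun g : Perm (ι → α) => g d)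
    (t := univ.filter fun x => hammingDist u x = hammingDist v d), mul_comm, ← smul_eq_mul,
    ← sum_const]
  · refine sum_congr rfl fun x hx => ?_
    have hx' : hammingDist u x = hammingDist u c := (mem_filter.1 hx).2.trans h.symm
    rw [le_antisymm (St_le v d hx') (St_le v d hx'.symm)]
    refine congrArg card (Finset.ext fun g => ?_)
    simp only [mem_filter, mem_St, and_self, and_assoc]
  · intro g hg
    obtain ⟨g1, g2, -⟩ := mem_St.1 (mem_coe.1 hg)
    refine mem_coe.2 (mem_filter.2 ⟨mem_univ _, ?_⟩)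
    rw [← g2]
    exact g1 v d

theorem St_zero {u v c d : ι → α} (h : hammingDist u c ≠ hammingDist v d) :
    (St u v c d).card = 0 := by
  refine card_eq_zero.2 (eq_empty_of_forall_notMem fun g hg => h ?_)
  obtain ⟨g1, g2, g3⟩ := mem_St.1 hg
  rw [← g2, ← g3]
  exact g1 v d

theorem St_pos (u v : ι → α) : 0 < (St u v u v).card := by
  obtain ⟨k, hk, h1, -⟩ := move v v u u (by simp)
  exact card_pos.2 ⟨k, mem_St.2 ⟨hk, h1, h1⟩⟩

theorem ex_pair {C D : Finset (ι → α)} (hs : K6.Sep C D)
    (hb : Fintype.card α ^ Fintype.card ι ≤ C.card * D.card) (u : ι → α) {g : Perm (ι → α)}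
    (hg : ∀ a b, hammingDist (g a) (g b) = hammingDist a b) : ∃ c ∈ C, ∃ d ∈ D, g d = c := by
  rcases isEmpty_or_nonempty α with hα | hα
  · have h0 : 0 < C.card * D.card := by
      refine lt_of_lt_of_le ?_ hb
      rw [← Fintype.card_fun]
      exact Fintype.card_pos_iff.2 ⟨u⟩
    obtain ⟨c, hc⟩ := card_pos.1 (Nat.pos_of_mul_pos_right h0)
    obtain ⟨d, hd⟩ := card_pos.1 (Nat.pos_of_mul_pos_left h0)
    exact ⟨c, hc, d, hd, funext fun i => isEmptyElim (c i)⟩
  · have h1 : K6.Sep C (D.image g) := by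
      intro c hc c' hc' d hd d' hd' he
      obtain ⟨e, he1, rfl⟩ := mem_image.1 hd
      obtain ⟨e', he2, rfl⟩ := mem_image.1 hd'
      exact hs c hc c' hc' e he1 e' he2 (he.trans (hg e e'))
    obtain ⟨c, d, ⟨hc, hd⟩, he⟩ := (K6.cnt.2.2.1 C (D.image g) hα h1
      (by rwa [card_image_of_injective _ g.injective])).ex (fun _ => 1) 1
    obtain ⟨e, he1, rfl⟩ := mem_image.1 hd
    exact ⟨c, hc, e, he1, funext fun l => (he l).symm⟩

theorem total {C D : Finset (ι → α)} (hs : K6.Sep C D)
    (hb : Fintype.card α ^ Fintype.card ι ≤ C.card * D.card) (u v : ι → α) :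
    ∑ p ∈ C ×ˢ D, (St u v p.1 p.2).card = (St u v u v).card := by
  have h1 : ∀ p : (ι → α) × (ι → α), (St u v p.1 p.2).card =
      ∑ g ∈ St u v u v, if g p.2 = p.1 then 1 else 0 := by
    intro p
    rw [← card_filter]
    refine congrArg card (Finset.ext fun g => ?_)
    simp only [mem_filter, mem_St, and_self, and_assoc]
  simp only [h1]
  rw [sum_comm, card_eq_sum_ones]
  refine sum_congr rfl fun g hg => ?_
  obtain ⟨g1, -, -⟩ := mem_St.1 hg
  obtain ⟨c, hc, d, hd, he⟩ := ex_pair hs hb u g1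
  rw [← card_filter, card_eq_one]
  refine ⟨(c, d), eq_singleton_iff_unique_mem.2 ⟨mem_filter.2 ⟨mem_product.2 ⟨hc, hd⟩, he⟩, ?_⟩⟩
  rintro ⟨c', d'⟩ hp
  obtain ⟨hp1, hp2⟩ := mem_filter.1 hp
  obtain ⟨hc', hd'⟩ := mem_product.1 hp1
  have h2 : g d' = c' := hp2
  have h3 : c' = c := hs c' hc' c hc d' hd' d hd (by rw [← h2, ← he]; exact g1 d' d)
  exact Prod.ext h3 (g.injective (h2.trans (h3.trans he.symm)))

end Out

theorem out : StmtOut ι α := by
  intro C D hs hb u v
  have hN : (0 : ℚ) < (Out.St u v u v).card := Nat.cast_pos.2 (Out.St_pos u v)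
  have h1 : ∀ s : ℕ, ((nd C u s : ℚ) * (nd D v s : ℚ)) =
      ∑ p ∈ C ×ˢ D, if hammingDist v p.2 = s then
        (if hammingDist u p.1 = s then (1 : ℚ) else 0) else 0 := by
    intro s
    simp only [nd, card_filter, Nat.cast_sum, Nat.cast_ite, Nat.cast_one, Nat.cast_zero]
    rw [sum_mul_sum, sum_product]
    refine sum_congr rfl fun c _ => sum_congr rfl fun d _ => ?_
    split_ifs <;> simp
  simp only [h1, sum_div]
  have h0 : (1 : ℚ) = ∑ p ∈ C ×ˢ D,
      ((Out.St u v p.1 p.2).card : ℚ) / (Out.St u v u v).card := by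
    rw [← sum_div, ← Nat.cast_sum, Out.total hs hb u v, div_self hN.ne']
  refine sum_comm.trans (Eq.trans ?_ h0.symm)
  refine sum_congr rfl fun p _ => ?_
  simp only [ite_div, zero_div]
  rw [Finset.sum_ite_eq, if_pos (mem_range.2 (Nat.lt_succ_of_le hammingDist_le_card_fintype))]
  split_ifs with h
  · have h2 := Out.St_mul h
    have h3 := Out.St_pos u v
    rw [h2] at h3 ⊢
    have h4 : ((Out.St u v p.1 p.2).card : ℚ) ≠ 0 :=
      Nat.cast_ne_zero.2 (Nat.pos_of_mul_pos_right h3).ne'
    rw [Nat.cast_mul, Nat.cast_mul, Nat.cast_pow, div_mul_cancel_left₀ h4, one_div]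
  · rw [Out.St_zero h, Nat.cast_zero, zero_div]

end Pool.Agent.MP_92191b_al.X

end

section

/-! General facts on endomorphisms of a graph with a tight pair. -/

set_option linter.unusedSectionVars false

namespace Pool.Agent.MP_92191b_al.X

open Finset Function Equiv K6

variable {ι α : Type} [Fintype ι] [DecidableEq ι] [Fintype α] [DecidableEq α]

namespace Rob

theorem img {S : Set ℕ} (h0 : 0 ∉ S) {g : (ι → α) → ι → α} (hg : Hom S g)
    {C : Finset (ι → α)} (hC : Cl S C) : Cl S (C.image g) ∧ (C.image g).card = C.card := by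
  refine ⟨fun y hy z hz hne => ?_, card_image_of_injOn fun a ha b hb e => ?_⟩
  · obtain ⟨a, ha, rfl⟩ := mem_image.1 hy
    obtain ⟨b, hb, rfl⟩ := mem_image.1 hz
    exact hg _ _ (hC a ha b hb fun e => hne (congrArg g e))
  · by_contra hne
    have h1 := hg _ _ (hC a ha b hb hne)
    rw [e, hammingDist_self] at h1
    exact h0 h1

end Rob

theorem rob : StmtRob ι α := by
  intro S K D f hα hT hf
  have hC : StmtCnt ι α := K6.cnt
  have hpos : 0 < K.card * D.card := (pow_pos Fintype.card_pos _).trans_le hT.big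
  have hK : 0 < K.card := Nat.pos_of_mul_pos_right hpos
  have hD : 0 < D.card := Nat.pos_of_mul_pos_left hpos
  have h1 : ∀ C : Finset (ι → α), Cl S C → C.card ≤ K.card := fun C hc =>
    Nat.le_of_mul_le_mul_right ((hC.2.1 C D (Glue.sep_of hc hT.co)).trans hT.big) hD
  have h2 : ∀ D' : Finset (ι → α), Cl Sᶜ D' → D'.card ≤ D.card := fun D' hd =>
    Nat.le_of_mul_le_mul_left ((hC.2.1 K D' (Glue.sep_of hT.cl hd)).trans hT.big) hK
  have hle := hC.2.1 K D (Glue.sep_of hT.cl hT.co)
  have hne : ∀ x y, hammingDist x y ∈ S → f x ≠ f y := fun x y h e => by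
    have h3 := hf x y h
    rw [e, hammingDist_self] at h3
    exact hT.zero h3
  refine ⟨h1, h2, fun C hc => Rob.img hT.zero hf hc, fun D' hd hcard => ?_,
    fun a hB C hc hcard u T hTC ha hT' c hcC => ?_, fun h => ?_, fun h => ?_⟩
  · have hA : Cl Sᶜ (univ.filter fun x => f x ∈ D') := fun x hx y hy _ h =>
      hd _ (mem_filter.1 hx).2 _ (mem_filter.1 hy).2 (hne x y h) (hf x y h)
    refine ⟨hA, (h2 _ hA).antisymm ?_⟩
    have hbig := hC.2.2.2 (univ.filter fun x => f x ∈ D') K fun σ => by
      have hg : Hom S fun x : ι → α => f fun l => σ l (x l) := fun x y h =>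
        hf _ _ (by rwa [hammingDist_comp (fun l => σ l) fun l => (σ l).injective])
      obtain ⟨k1, k2⟩ := Rob.img hT.zero hg hT.cl
      obtain ⟨c, d, ⟨e1, e2⟩, e3⟩ :=
        (hC.2.2.1 _ _ hα (Glue.sep_of k1 hd) (by rw [k2, hcard]; exact hT.big)).ex 1 1
      obtain ⟨x, hx, rfl⟩ := mem_image.1 e1
      obtain rfl : (f fun l => σ l (x l)) = d := funext e3
      exact ⟨x, hx, mem_filter.2 ⟨mem_univ _, e2⟩⟩
    rw [mul_comm] at hbig
    exact Nat.le_of_mul_le_mul_left (hle.trans hbig) hK
  · rintro ⟨k1, k2⟩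
    by_cases hu : f u ∈ C.image f
    · obtain ⟨c0, hc0, e⟩ := mem_image.1 hu
      rw [← e] at k1 k2
      exact k2 (hf _ _ (hc c0 hc0 c hcC fun e' => k1 (congrArg f e')))
    · obtain ⟨j1, j2⟩ := Rob.img hT.zero hf hc
      have j3 := (Rob.img hT.zero hf (C := T) fun y hy z hz => hc y (hTC hy) z (hTC hz)).2
      have := hB _ j1 (j2.trans hcard) _ hu (T.image f) (image_subset_image hTC) fun t ht => by
        obtain ⟨t', ht', rfl⟩ := mem_image.1 ht
        by_contra h
        exact hT' t' ht' ⟨fun e => hu (e ▸ mem_image_of_mem f (hTC ht')), h⟩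
      omega
  · have hI : Cl S (univ.image f) := fun y hy z hz hyz => by
      obtain ⟨a, -, rfl⟩ := mem_image.1 hy
      obtain ⟨b, -, rfl⟩ := mem_image.1 hz
      by_contra h'
      exact h a b ⟨hyz, h'⟩
    have hF : ∀ y, (univ.filter fun x => f x = y).card ≤ D.card := fun y =>
      h2 _ fun a ha b hb _ h' => hne a b h' ((mem_filter.1 ha).2.trans (mem_filter.1 hb).2.symm)
    have hall : ∀ a, (univ.filter fun x => f x = f a).card = D.card := by
      intro a
      by_contra hlt
      have s1 := card_eq_sum_card_image f (univ : Finset (ι → α))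
      have s2 : ∑ y ∈ univ.image f, (univ.filter fun x => f x = y).card <
          ∑ _y ∈ univ.image f, D.card :=
        sum_lt_sum (fun y _ => hF y) ⟨f a, mem_image_of_mem f (mem_univ a),
          lt_of_le_of_ne (hF _) hlt⟩
      rw [← s1, sum_const, smul_eq_mul, card_univ, Fintype.card_fun] at s2
      exact absurd (hle.trans_lt s2) (not_lt.2 (Nat.mul_le_mul_right _ (h1 _ hI)))
    exact fun a b => (hall a).trans (hall b).symm
  · have hinj : Injective f := fun x y e => by
      by_contra hxy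
      by_cases h' : hammingDist x y ∈ S
      · exact hne x y h' e
      · exact h x y hxy h' e
    intro a b
    simp only [hinj.eq_iff, filter_eq', mem_univ, if_true, card_singleton]

end Pool.Agent.MP_92191b_al.X

end

section

/-! Assembly: the structure theorem with the listed exceptions gives uniformity. -/

namespace Pool.Agent.MP_92191b_al.X

open Finset Function Equiv K6

theorem e3_all : StmtE3 :=
  e3 move out rob (three move rob) (three move rob) (coThree move out rob) (coThree move out rob)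

theorem harm_all : StmtHarm := harm e3_all (e7 move rob hex (hexOut out)) (e8 out rob hex)

/-- If every good pair is standard or one of the listed exceptions, then every map that is not
synchronized is uniform. -/
theorem unifX {k m : ℕ} (hk : 3 ≤ k) (hA : StmtAX (Fin m) (Fin k) Exo)
    (f : Function.End (Fin m → Fin k))
    (hM : ∀ c ∈ Submonoid.closure ({g : Function.End (Fin m → Fin k) |
      ∃ (σ : Fin m → Perm (Fin k)) (π : Perm (Fin m)), g = fun x i => σ i (x (π i))} ∪ {f}),
      ¬∃ y, ∀ x, c x = y) : Unif f :=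
  glueX (by rwa [Fintype.card_fin]) Exo hA f (harm_all k m f) hM

end Pool.Agent.MP_92191b_al.X

end

section

/-! Distances in the exceptional pair over four letters. -/

namespace Pool.Agent.MP_92191b_al.X4

open Finset Function Equiv K6 X

theorem nd_zero {C : Finset (Fin 6 → Fin 4)} {u : Fin 6 → Fin 4} {s : ℕ}
    (h : ∀ c ∈ C, hammingDist u c ≠ s) : nd C u s = 0 :=
  card_eq_zero.2 (filter_eq_empty_iff.2 fun c hc => h c hc)

theorem nd_has {C : Finset (Fin 6 → Fin 4)} {u : Fin 6 → Fin 4} {s : ℕ} (h : nd C u s ≠ 0) :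
    ∃ c ∈ C, hammingDist u c = s := by
  obtain ⟨c, hc⟩ := card_ne_zero.1 h
  exact ⟨c, mem_filter.1 hc⟩

theorem nd_self {C : Finset (Fin 6 → Fin 4)} {u : Fin 6 → Fin 4} (hu : u ∈ C) : nd C u 0 = 1 := by
  refine card_eq_one.2 ⟨u, ?_⟩
  ext c
  rw [mem_filter, mem_singleton, hammingDist_eq_zero]
  exact ⟨fun h => h.2.symm, fun h => ⟨h ▸ hu, h.symm⟩⟩

theorem has6 {C : Finset (Fin 6 → Fin 4)} (h64 : C.card = 64) (hC : Cl {4, 6} C) : HasD C 6 := by
  obtain ⟨u, hu⟩ : C.Nonempty := card_pos.1 (by omega)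
  have z : ∀ s, s ≠ 0 → s ≠ 4 → s ≠ 6 → nd C u s = 0 := fun s h0 h4 h6 => nd_zero fun c hc e => by
    have := hC u hu c hc fun q => h0 (by rw [← e, q, hammingDist_self])
    simp only [Set.mem_insert_iff, Set.mem_singleton_iff] at this
    omega
  have e2 := Hex.out out h64 hC Hex.gC Hex.iC (fun s t => (Hex.hC s t).2) u _ _ Hex.a2
  have e4 := Hex.tot C u
  rw [z 1 (by omega) (by omega) (by omega), z 2 (by omega) (by omega) (by omega),
    z 3 (by omega) (by omega) (by omega), z 5 (by omega) (by omega) (by omega),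
    nd_self hu] at e2 e4
  norm_num [List.getD] at e2
  have f : nd C u 4 = 45 := by
    have : (nd C u 4 : ℚ) = 45 := by linarith
    exact_mod_cast this
  obtain ⟨c, hc, e⟩ := nd_has (C := C) (u := u) (s := 6) (by omega)
  exact ⟨u, hu, c, hc, e⟩

theorem eqs {C D : Finset (Fin 6 → Fin 4)} (hG : GP C D) (h64 : C.card = 64) (hC : Cl {4, 6} C)
    (n4 : ∀ x ∈ D, ∀ y ∈ D, hammingDist x y ≠ 4 ∧ hammingDist x y ≠ 6) {v : Fin 6 → Fin 4}
    (hv : v ∈ D) : 27 * nd D v 1 + 9 * nd D v 3 + 7 * nd D v 5 = 486 ∧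
      27 * nd D v 2 + 18 * nd D v 3 + 20 * nd D v 5 = 1215 := by
  obtain ⟨c, hc⟩ : C.Nonempty := card_pos.1 (by omega)
  have k : ∀ a : Fin 4, a + 1 ≠ a := by decide
  have no : ∀ u, hammingDist u c = 1 ∨ hammingDist u c = 2 → u ∉ C := fun u h hu => by
    have := hC u hu c hc fun q => by simp [q] at h
    simp only [Set.mem_insert_iff, Set.mem_singleton_iff] at this
    omega
  have d1 : hammingDist (update c 0 (c 0 + 1)) c = 1 := by
    rw [hammingDist_comm, E7.dist_upd c 0 (k _)]
  have d2 : hammingDist (update (update c 0 (c 0 + 1)) 1 (c 1 + 1)) c = 2 := by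
    rw [E7.step (u := update c 0 (c 0 + 1)) (i := 1) (by simp)
      (fun l hl => (update_of_ne hl _ _).symm) (by simp), d1]
  have z4 : nd D v 4 = 0 := nd_zero fun y hy => (n4 v hv y hy).1
  have z6 : nd D v 6 = 0 := nd_zero fun y hy => (n4 v hv y hy).2
  have z0 : ∀ u, u ∉ C → nd C u 0 = 0 := fun u hu => nd_zero fun y hy e =>
    hu (hammingDist_eq_zero.1 e ▸ hy)
  have o := fun u => out C D hG.sep hG.big u v
  simp only [Fintype.card_fin, sum_range_succ, sum_range_zero, z4, z6] at o
  constructor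
  · have hu := no _ (Or.inl d1)
    have p := E7.nd_pos (u := update c 0 (c 0 + 1)) hc
    rw [d1] at p
    obtain ⟨a1, a2, a3, a4, a5, a6⟩ := (hexOut out C h64 hC _ hu).resolve_right fun h => by omega
    have := o (update c 0 (c 0 + 1))
    rw [z0 _ hu, a1, a2, a3, a4, a5, a6] at this
    norm_num [Nat.choose] at this
    have : (27 * nd D v 1 + 9 * nd D v 3 + 7 * nd D v 5 : ℚ) = 486 := by linarith
    exact_mod_cast this
  · have hu := no _ (Or.inr d2)
    have p := E7.nd_pos (u := update (update c 0 (c 0 + 1)) 1 (c 1 + 1)) hc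
    rw [d2] at p
    obtain ⟨a1, a2, a3, a4, a5, a6⟩ := (hexOut out C h64 hC _ hu).resolve_left fun h => by omega
    have := o (update (update c 0 (c 0 + 1)) 1 (c 1 + 1))
    rw [z0 _ hu, a1, a2, a3, a4, a5, a6] at this
    norm_num [Nat.choose] at this
    have : (27 * nd D v 2 + 18 * nd D v 3 + 20 * nd D v 5 : ℚ) = 1215 := by linarith
    exact_mod_cast this

theorem hexD : StmtHexD := by
  intro C D hG h64 hC h4
  have h6 := has6 h64 hC
  have ne : ∀ s, s ≠ 0 → HasD C s → ∀ x ∈ D, ∀ y ∈ D, hammingDist x y ≠ s := by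
    rintro s hs ⟨c, hc, c', hc', e⟩ x hx y hy e'
    rw [hG.sep c hc c' hc' x hx y hy (e.trans e'.symm), hammingDist_self] at e
    exact hs e.symm
  have n4 : ∀ x ∈ D, ∀ y ∈ D, hammingDist x y ≠ 4 ∧ hammingDist x y ≠ 6 := fun x hx y hy =>
    ⟨ne 4 (by omega) h4 x hx y hy, ne 6 (by omega) h6 x hx y hy⟩
  have hD : D.card = 64 := by
    have h1 := hG.big
    have h2 := (K6.cnt (ι := Fin 6) (α := Fin 4)).2.1 C D hG.sep
    simp only [Fintype.card_fin, h64] at h1 h2
    omega
  obtain ⟨v0, hv0⟩ : D.Nonempty := card_pos.1 (by omega)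
  refine ⟨h6, ?_, ?_⟩
  · have := (eqs hG h64 hC n4 hv0).2
    obtain ⟨y, hy, e⟩ := nd_has (C := D) (u := v0) (s := 2) (by omega)
    exact ⟨v0, hv0, y, hy, e⟩
  by_contra h3
  have n3 : ∀ x ∈ D, ∀ y ∈ D, hammingDist x y ≠ 3 := fun x hx y hy e => h3 ⟨x, hx, y, hy, e⟩
  have k : ∀ v ∈ D, nd D v 1 = 4 ∧ nd D v 2 = 5 := by
    intro v hv
    obtain ⟨e1, e2⟩ := eqs hG h64 hC n4 hv
    rw [nd_zero (n3 v hv)] at e1 e2
    obtain ⟨y, hy, e⟩ := nd_has (C := D) (u := v) (s := 2) (by omega)
    have : nd D v 1 ≤ ((df v y ×ˢ (univ : Finset (Fin 4))).image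
        fun p => update v p.1 p.2).card := by
      refine card_le_card fun x hx => ?_
      obtain ⟨hx, ex⟩ := mem_filter.1 hx
      obtain ⟨j, j1, j2⟩ := E7.one ex
      refine mem_image.2 ⟨(j, x j), mem_product.2 ⟨ThmA.mem_df.2 fun q => ?_, mem_univ _⟩, ?_⟩
      · exact n3 x hx y hy (by rw [E7.step j1 j2 q.symm, e])
      · funext l
        by_cases hl : l = j
        · rw [hl, update_self]
        · rw [update_of_ne hl, j2 l hl]
    have h8 := this.trans card_image_le
    rw [card_product, ← ThmA.dist_eq, e, card_univ, Fintype.card_fin] at h8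
    omega
  let K : (Fin 6 → Fin 4) → Finset (Fin 6 → Fin 4) := fun v => D.filter fun w => hammingDist v w ≤ 2
  have tr : ∀ v ∈ D, ∀ w ∈ D, hammingDist v w ≤ 2 → K w ⊆ K v := fun v hv w hw e x hx => by
    obtain ⟨hx, ex⟩ := mem_filter.1 hx
    have := hammingDist_triangle v w x
    have := n3 v hv x hx
    have := (n4 v hv x hx).1
    exact mem_filter.2 ⟨hx, by omega⟩
  have cK : ∀ v ∈ D, (D.filter fun w => K w = K v).card = 10 := by
    intro v hv
    have e : (D.filter fun w => K w = K v) = (D.filter fun w => hammingDist v w = 0) ∪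
        (D.filter fun w => hammingDist v w = 1) ∪ D.filter fun w => hammingDist v w = 2 := by
      rw [← filter_or, ← filter_or]
      refine filter_congr fun w hw => ⟨fun q => ?_, fun q => ?_⟩
      · have : w ∈ K v := q ▸ mem_filter.2 ⟨hw, by simp⟩
        have := (mem_filter.1 this).2
        omega
      · exact Subset.antisymm (tr v hv w hw (by omega))
          (tr w hw v hv (by rw [hammingDist_comm]; omega))
    have e0 := nd_self hv
    obtain ⟨e1, e2⟩ := k v hv
    unfold nd at e0 e1 e2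
    rw [e, card_union_of_disjoint, card_union_of_disjoint, e0, e1, e2]
    · exact disjoint_filter.2 fun c _ h => by omega
    · rw [← filter_or]
      exact disjoint_filter.2 fun c _ h => by omega
  have := card_eq_sum_card_image K D
  rw [sum_congr rfl (g := fun _ => 10) fun b hb => by
    obtain ⟨v, hv, rfl⟩ := mem_image.1 hb
    exact cK v hv, sum_const, smul_eq_mul] at this
  omega

end Pool.Agent.MP_92191b_al.X4

end
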