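import Pool.Agent.Mg.F92191bp.Gee1eed
import Pool.Agent.Mg.F92191bp.G695593

/-! The structure theorem over four letters. -/

set_option linter.unusedSectionVars false

namespace Pool.Agent.MP_92191b_al.X4

open Finset Function Equiv K6 X K6.ThmA

variable {ι : Type} [Fintype ι] [DecidableEq ι]

theorem cenA (hK : StmtKL ι (Fin 4)) (hF : StmtFam ι (Fin 4)) {C : Finset (ι → Fin 4)}
    {F : Finset ι → Prop} (hC : Cen C F) (h2 : 2 ≤ C.card) (hD : ∀ V l, F (insert l V) → F V) :
    ∃ (E : Finset ι) (e : ℕ), E.card + Fintype.card (Fin 4) * e + 1 ≤ Fintype.card ι ∧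
      (∀ V, F V ↔ (V \ E).card ≤ e) ∧
      ∃ c ∈ C, ∃ c' ∈ C, hammingDist c c' = 2 * e + E.card + 1 := by
  classical
  have hk : 4 ≤ Fintype.card (Fin 4) := by simp
  have hd : ∀ V V', V' ⊆ V → F V → F V' := by
    intro V V' hs hV
    have key : ∀ S : Finset ι, F (S ∪ V') → F V' := by
      intro S
      induction S using Finset.induction_on with
      | empty => simp
      | insert a S _ ih =>
        intro h
        rw [insert_union] at h
        exact ih (hD _ _ h)
    exact key V (by rwa [union_eq_left.2 hs])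
  obtain ⟨c, hc, c', hc', hn⟩ := one_lt_card.1 h2
  have h0 : F ∅ := by
    obtain ⟨_, _, h⟩ := hC.ex c 1
    exact hd _ _ (empty_subset _) h
  have h1 : ¬F univ := fun h => hn (hC.sep c hc c' hc' _ _ h h (by simp)
    (by simpa using hammingDist_le_card_fintype))
  obtain ⟨p, hp, hm⟩ := exists_max_image
    (univ.filter fun p : Finset ι × Finset ι => F p.1 ∧ F p.2) (fun p => (p.1 ∪ p.2).card)
    ⟨(∅, ∅), by simpa using h0⟩
  rw [mem_filter] at hp
  have hJ : ∀ V V', F V → F V' → (V ∪ V').card ≤ (p.1 ∪ p.2).card := fun V V' a b =>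
    hm (V, V') (mem_filter.2 ⟨mem_univ _, a, b⟩)
  have hL := hK (by omega) C F _ hC hd hJ ⟨p.1, p.2, hp.2.1, hp.2.2, rfl⟩
  obtain ⟨E, e, k1, k2, k3⟩ := hF (by omega) F _ hd hJ
    (fun V l a b c => (hL V l a b c).2) h0 h1
  obtain ⟨V, l, hV, hx, hl⟩ := Fam.exists_max F h0 h1
  refine ⟨E, e, k2, k3, ?_⟩
  rw [k1]
  exact (hL V l hV hx hl).1

theorem cenOf (hC : StmtCnt ι (Fin 4)) {C D : Finset (ι → Fin 4)} (hG : GP C D) {ζ : ι → Fin 4}
    (H : ∀ d ∈ D, ∀ j v, d j ≠ ζ j → v ≠ ζ j → update d j v ∈ D) :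
    Cen C fun V => ∃ d ∈ D, df d ζ = V := by
  have hk : 4 ≤ Fintype.card (Fin 4) := by simp
  constructor
  · rintro c hc c' hc' V V' ⟨d, hd, hV⟩ ⟨d', hd', hV'⟩ h1 h3
    have hu : (V ∪ V').card = (symmDiff V V').card + (V ∩ V').card := by
      rw [← card_union_of_disjoint]
      · congr 1
        ext i
        simp only [mem_union, mem_symmDiff, mem_inter]
        tauto
      · rw [disjoint_left]
        intro i
        simp only [mem_symmDiff, mem_inter]
        tauto
    obtain ⟨S, hS, hSc⟩ := exists_subset_card_eq (s := V ∩ V')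
      (n := hammingDist c c' - (symmDiff V V').card) (by omega)
    choose a ha using fun r => exists_ne1 (by omega) (ζ r)
    choose a' ha' using fun r => exists_ne2 (by omega) (ζ r) (a r)
    have m1 : (fun i => if i ∈ V then a i else ζ i) ∈ D := by
      refine closure H hd ?_
      rw [hV]
      ext i
      rw [mem_df]
      by_cases hi : i ∈ V <;> simp [hi, ha i]
    have m2 : (fun i => if i ∈ V' then (if i ∈ S then a' i else a i) else ζ i) ∈ D := by
      refine closure H hd' ?_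
      rw [hV']
      ext i
      rw [mem_df]
      by_cases hi : i ∈ V' <;> by_cases hs : i ∈ S <;> simp [hi, hs, ha i, (ha' i).1]
    refine hG.sep c hc c' hc' _ m1 _ m2 ?_
    have h4 : df (fun i => if i ∈ V then a i else ζ i)
        (fun i => if i ∈ V' then (if i ∈ S then a' i else a i) else ζ i) =
        symmDiff V V' ∪ S := by
      ext i
      have h5 : i ∈ S → i ∈ V ∧ i ∈ V' := fun h => mem_inter.1 (hS h)
      rw [mem_df, mem_union, mem_symmDiff]
      by_cases hi : i ∈ V <;> by_cases hi' : i ∈ V' <;> by_cases hs : i ∈ S <;>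
        simp_all [(ha i).symm, (ha' i).2.symm]
    rw [dist_eq (fun i => if i ∈ V then a i else ζ i), h4, card_union_of_disjoint]
    · omega
    · rw [disjoint_left]
      intro i h6 h7
      have := mem_inter.1 (hS h7)
      rw [mem_symmDiff] at h6
      tauto
  · intro z π
    have hne : Nonempty (Fin 4) := Fintype.card_pos_iff.1 (by omega)
    obtain ⟨c, d, ⟨hc, hd⟩, h⟩ := (hC.2.2.1 C D hne hG.sep hG.big).ex
      (fun l => swap (ζ (π l)) (z l)) π
    refine ⟨c, hc, d, hd, ?_⟩
    ext r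
    obtain ⟨l, rfl⟩ := π.surjective r
    have h1 : π l ∈ (df c z).map π.toEmbedding ↔ l ∈ df c z := mem_map' π.toEmbedding
    rw [h1, mem_df, mem_df, h l, Ne, Ne, swap_apply_eq_iff, swap_apply_right]

theorem toCen {m : ℕ} {C D : Finset (Fin m → Fin 4)} (hG : GP C D) (h2 : 2 ≤ C.card)
    (ζ : Fin m → Fin 4) (H : ∀ d ∈ D, ∀ j v, d j ≠ ζ j → v ≠ ζ j → update d j v ∈ D) :
    Concl C D ∨ Ex0 C D := by
  have hcen := cenOf K6.cnt hG H
  have hCP : StmtCP (Fin 4) := cp cls_all
  rcases down4 _ (cross cSec hCP) C _ hcen with hD | ⟨m6, hC, h4, u5, V, V', ⟨d, hd, rfl⟩,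
    ⟨d', hd', rfl⟩, s5⟩
  · obtain ⟨E, e, room, hF, hcc⟩ := cenA (kl cSec (ck hCP)) fam hcen h2 hD
    refine Or.inl ⟨ζ, E, e, ?_, room, hcc⟩
    ext x
    rw [mem_AK, dev_eq, ← hF]
    exact ⟨fun hx => ⟨x, hx, rfl⟩, fun ⟨d, hd, h⟩ => closure H hd h.symm⟩
  have l5 : ∀ x ∈ D, ∀ y ∈ D, hammingDist x y ≤ 5 := fun x hx y hy =>
    (Down.dist_le fun r hr => by
      by_contra q
      rw [mem_union, mem_df, mem_df, not_or, not_not, not_not] at q
      exact hr (q.1.trans q.2.symm)).trans (u5 _ _ ⟨x, hx, rfl⟩ ⟨y, hy, rfl⟩)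
  refine Or.inr ⟨m6, ?_, hC, h4, d, hd, d', hd', le_antisymm (l5 d hd d' hd') ?_⟩
  · obtain rfl : m = 6 := by simpa using m6
    obtain ⟨K, k1, k2, -⟩ := hex
    obtain ⟨c, hc, c', hc', e⟩ := h4
    have b1 := (K6.cnt (ι := Fin 6) (α := Fin 4)).2.1 K D (Glue.sep_of k2 fun y hy z hz _ q => by
      have := l5 y hy z hz
      rcases q with q | q
      · rw [hG.sep c hc c' hc' y hy z hz (e.trans q.symm), hammingDist_self] at e
        omega
      · rw [Set.mem_singleton_iff] at q
        omega)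
    have b2 := (K6.cnt (ι := Fin 6) (α := Fin 4)).2.1 C _
      (Hex.sep hC Hex.gC fun s t => (Hex.hC s t).2)
    have b3 := hG.big
    rw [Hex.card_im _ Hex.iC] at b2
    simp only [Fintype.card_fin, k1] at b1 b2 b3
    have b4 : C.card * D.card ≤ C.card * 64 := Nat.mul_le_mul_left _ (by omega)
    omega
  · rw [← s5]
    refine le_dist fun r hr q => ?_
    rw [mem_symmDiff, mem_df, mem_df, q] at hr
    tauto

theorem Ex0.back {C D D' : Finset (ι → Fin 4)} (hG : GP C D) {j : ι} {z : Fin 4}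
    (hS : SwRel D D' j z) (h6 : HasD C 6) (h : Ex0 C D') : Ex0 C D := by
  obtain ⟨m6, c64, hC, h4, x, hx, y, hy, e⟩ := h
  have k : ∀ x ∈ D', ∃ v, update x j v ∈ D := fun x hx => by
    by_contra! q
    have : x j ∈ Fib D' j x := by simpa [Fib] using hx
    rw [(hS x).1 (Set.eq_empty_of_forall_notMem q)] at this
    exact this
  obtain ⟨v, hv⟩ := k x hx
  obtain ⟨w, hw⟩ := k y hy
  have ne : ∀ s, s ≠ 0 → HasD C s → hammingDist (update x j v) (update y j w) ≠ s := by
    rintro s hs ⟨c, hc, c', hc', e⟩ e'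
    rw [hG.sep c hc c' hc' _ hv _ hw (e.trans e'.symm), hammingDist_self] at e
    exact hs e.symm
  have n4 := ne 4 (by omega) h4
  have n6 := ne 6 (by omega) h6
  refine ⟨m6, c64, hC, h4, _, hv, _, hw, ?_⟩
  rw [CSec.ham, ← add_sum_erase _ _ (mem_univ j)] at e n4 n6 ⊢
  have q : ∑ r ∈ univ.erase j, nq (update x j v r) (update y j w r) =
      ∑ r ∈ univ.erase j, nq (x r) (y r) := sum_congr rfl fun r hr => by
    rw [update_of_ne (ne_of_mem_erase hr), update_of_ne (ne_of_mem_erase hr)]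
  have := nq_le (x j) (y j)
  have := nq_le (update x j v j) (update y j w j)
  omega

theorem Ex0.six {m : ℕ} {C D : Finset (Fin m → Fin 4)} (h : Ex0 C D) : HasD C 6 := by
  obtain rfl : m = 6 := by simpa using h.1
  exact has6 h.2.1 h.2.2.1

theorem thmA0 {m : ℕ} : StmtAX (Fin m) (Fin 4) Ex0 := by
  intro C D hG h2
  have hk : 4 ≤ Fintype.card (Fin 4) := by simp
  obtain ⟨ζ⟩ : Nonempty (Fin m → Fin 4) := inferInstance
  have hb : ∀ D : Finset (Fin m → Fin 4), ∑ j, (D.filter fun d => d j = ζ j).card ≤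
      ∑ _j : Fin m, Fintype.card (Fin m → Fin 4) := fun D =>
    sum_le_sum fun j _ => card_le_univ _
  have key : ∀ n, ∀ D : Finset (Fin m → Fin 4), GP C D →
      ∑ _j : Fin m, Fintype.card (Fin m → Fin 4) < ∑ j, (D.filter fun d => d j = ζ j).card + n →
      Concl C D ∨ Ex0 C D := by
    intro n
    induction n with
    | zero => exact fun D _ h => absurd (hb D) (by omega)
    | succ n ih =>
      intro D hG hn
      by_cases H : ∀ d ∈ D, ∀ j v, d j ≠ ζ j → v ≠ ζ j → update d j v ∈ D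
      · exact toCen hG h2 ζ H
      push Not at H
      obtain ⟨d, hd, j, v, h1, h3, h4⟩ := H
      have m1 : d j ∈ Fib D j d := by simpa [Fib] using hd
      have m2 : v ∉ Fib D j d := h4
      obtain ⟨b, hb1, hb2⟩ : ∃ b, b ≠ ζ j ∧ (Fib D j d = {b} ∨ Fib D j d = {b}ᶜ) := by
        rcases four lab_all hk hG (card_pos.1 (by omega)) j d with h | h | ⟨b, h | h⟩
        · rw [h] at m1
          exact m1.elim
        · rw [h] at m2
          exact (m2 trivial).elim
        · refine ⟨b, ?_, Or.inl h⟩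
          rw [h, Set.mem_singleton_iff] at m1
          exact m1 ▸ h1
        · refine ⟨b, ?_, Or.inr h⟩
          rw [h, Set.mem_compl_iff, not_not, Set.mem_singleton_iff] at m2
          exact m2 ▸ h3
      obtain ⟨D', hG', hsw, he, hlt⟩ := sw_all hk C D hG j (ζ j) ⟨d, b, hb1, hb2⟩
      refine (ih D' hG' ?_).imp (unswitch lab_all hk hG hsw hb2) fun h => h.back hG hsw h.six
      have : ∑ r, (D.filter fun d => d r = ζ r).card < ∑ r, (D'.filter fun d => d r = ζ r).card := by
        refine sum_lt_sum (fun r _ => ?_) ⟨j, mem_univ _, hlt⟩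
        by_cases hr : r = j
        · subst hr
          exact hlt.le
        · exact (he r _ hr).ge
      omega
  exact key (∑ _j : Fin m, Fintype.card (Fin m → Fin 4) + 1) D hG (by omega)

theorem thmA4 {m : ℕ} : StmtAX (Fin m) (Fin 4) Exo := by
  intro C D hG h2
  refine (thmA0 C D hG h2).imp_right fun ⟨m6, c64, hC, h4, h5⟩ => ?_
  obtain rfl : m = 6 := by simpa using m6
  obtain ⟨h6, d2, d3⟩ := hexD C D hG c64 hC h4
  exact Or.inr (Or.inr (Or.inr ⟨by simp, m6, h4, h6, d2, d3, h5⟩))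

/-- The structure theorem for at least four letters. -/
theorem thmA_ge4 {k m : ℕ} (hk : 4 ≤ k) : StmtAX (Fin m) (Fin k) Exo := by
  rcases Nat.eq_or_lt_of_le hk with rfl | h
  · exact thmA4
  · exact fun C D hG h2 => Or.inl (thmA_all (by rwa [Fintype.card_fin]) C D hG h2)

end Pool.Agent.MP_92191b_al.X4
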