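import Pool.Agent.Mg.F92191bp.Ge1dd53

/-! The centred family over four letters is down-closed or exceptional. -/

set_option linter.unusedSectionVars false

namespace Pool.Agent.MP_92191b_al.X4

open Finset Function Equiv K6 X K6.Down

variable {ι : Type} [Fintype ι] [DecidableEq ι]
variable {C : Finset (ι → Fin 4)} {F : Finset ι → Prop} {T T' : Finset ι}

theorem le_dist {c c' : ι → Fin 4} {S : Finset ι} (h : ∀ r ∈ S, c r ≠ c' r) :
    S.card ≤ hammingDist c c' :=
  card_le_card fun r hr => mem_filter.2 ⟨mem_univ _, h r hr⟩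

theorem cover (hC : Cen C F) (y : ι → Fin 4) : ∃ g ∈ C, F (df g y) := by
  obtain ⟨g, hg, h⟩ := hC.ex y 1
  refine ⟨g, hg, ?_⟩
  convert h using 1
  ext r
  rw [mem_map_equiv]
  rfl

theorem sub_of {P Q : Finset ι} (h : P.card ≤ (P ∩ Q).card) : P ⊆ Q :=
  inter_eq_left.1 (eq_of_subset_of_card_le inter_subset_left h)

theorem dis_of {P Q : Finset ι} (h : (P ∩ Q).card = 0) : Disjoint P Q :=
  disjoint_iff_inter_eq_empty.2 (card_eq_zero.1 h)

theorem three3 (hC : Cen C F) (s4 : SD C 4) {P Q : Finset ι} (hP : F P) (hQ : F Q)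
    (p : P.card = 3) (q : Q.card = 3) : P = Q ∨ Disjoint P Q := by
  rcases gap hC hP hQ s4 with h | h
  · exact Or.inr (dis_of (by omega))
  · exact Or.inl (eq_of_subset_of_card_le (sub_of (by omega)) (by omega))

theorem kinds (hC : Cen C F) (s4 : SD C 4) (hT : F T) (h3 : T.card = 3) (h3' : T'.card = 3)
    (hp : ∀ r ∈ T', F (T'.erase r)) {Y : Finset ι} (hY : F Y) :
    (Y.card ≤ 1 ∧ Y ⊆ T) ∨ (Y.card = 2 ∧ Y ⊆ T') ∨ (Y.card = 3 ∧ (Y = T' ∨ Disjoint Y T')) := by
  have y3 := gap0 hC hY s4
  have g1 := gap hC hY hT s4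
  have k1 : ∀ r ∈ T', r ∈ Y → 4 + 2 * ((Y ∩ T').card - 1) < Y.card + 2 ∨
      Y.card + 2 < 4 + ((Y ∩ T').card - 1) := fun r hr hr' => by
    have := gap hC hY (hp r hr) s4
    rwa [inter_erase, card_erase_of_mem hr, card_erase_of_mem (mem_inter.2 ⟨hr', hr⟩), h3'] at this
  have k0 : ∀ r ∈ T', r ∉ Y → 4 + 2 * (Y ∩ T').card < Y.card + 2 ∨
      Y.card + 2 < 4 + (Y ∩ T').card := fun r hr hr' => by
    have := gap hC hY (hp r hr) s4
    rwa [inter_erase, card_erase_of_mem hr, erase_eq_of_notMem (fun q => hr' (mem_inter.1 q).1),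
      h3'] at this
  have e1 : (Y ∩ T').card ≠ 0 → ∃ r ∈ T', r ∈ Y := fun q => by
    obtain ⟨r, hr⟩ := card_ne_zero.1 q
    exact ⟨r, (mem_inter.1 hr).2, (mem_inter.1 hr).1⟩
  have e0 : (Y ∩ T').card ≠ 3 → ∃ r ∈ T', r ∉ Y := fun q => by
    by_contra! q'
    exact q (by rw [inter_eq_right.2 q', h3'])
  have l1 : (Y ∩ T').card ≤ Y.card := card_le_card inter_subset_left
  rcases Nat.lt_or_ge Y.card 2 with h | h
  · exact Or.inl ⟨by omega, sub_of (by omega)⟩
  rcases Nat.eq_or_lt_of_le h with h | h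
  · refine Or.inr (Or.inl ⟨h.symm, sub_of ?_⟩)
    obtain ⟨r, hr, hr'⟩ := e0 (by omega)
    have := k0 r hr hr'
    obtain ⟨r, hr, hr'⟩ := e1 (by omega)
    have := k1 r hr hr'
    omega
  · refine Or.inr (Or.inr ⟨by omega, ?_⟩)
    by_cases q : (Y ∩ T').card = 0
    · exact Or.inr (dis_of q)
    · refine Or.inl (eq_of_subset_of_card_le (sub_of ?_) (by omega))
      by_contra q'
      obtain ⟨r, hr, hr'⟩ := e0 (by omega)
      have := k0 r hr hr'
      obtain ⟨r, hr, hr'⟩ := e1 q
      have := k1 r hr hr'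
      omega

/-- The word covering a neighbour of a codeword. -/
theorem nbr (hC : Cen C F) (s4 : SD C 4) (f3 : ∀ d, SD C d → 3 < d) {c : ι → Fin 4} (hc : c ∈ C)
    {r : ι} {a : Fin 4} (ha : a ≠ c r) (hr : ¬F {r}) :
    ∃ g ∈ C, ∃ X, F X ∧ X.card = 3 ∧ r ∉ X ∧ g r = a ∧ ∀ s, s ≠ r → (s ∈ X ↔ g s ≠ c s) := by
  obtain ⟨g, hg, hX⟩ := cover hC (update c r a)
  have k : ∀ s, s ≠ r → (s ∈ df g (update c r a) ↔ g s ≠ c s) := fun s hs => by
    rw [mem_df, update_of_ne hs]
  have n : g ≠ c := by
    rintro rfl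
    refine hr ?_
    convert hX using 1
    ext s
    by_cases hs : s = r
    · subst hs
      simp [mem_df, ha.symm]
    · simp [k s hs, hs]
  have d1 := f3 _ ⟨g, hg, c, hc, n, rfl⟩
  have d2 := gap0 hC hX s4
  have d3 : hammingDist g c ≤ (insert r (df g (update c r a))).card := dist_le fun s hs => by
    by_cases e : s = r
    · exact e ▸ mem_insert_self _ _
    · exact mem_insert_of_mem ((k s e).2 hs)
  have nr : r ∉ df g (update c r a) := fun q => by
    rw [insert_eq_of_mem q] at d3
    omega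
  rw [card_insert_of_notMem nr] at d3
  refine ⟨g, hg, _, hX, by omega, nr, ?_, k⟩
  rwa [mem_df, update_self, not_not] at nr

theorem only (hC : Cen C F) (s4 : SD C 4) (hT : F T) (h3 : T.card = 3) (h3' : T'.card = 3)
    (hd : Disjoint T T') (hp : ∀ r ∈ T', F (T'.erase r)) {X0 : Finset ι} (hX0 : F X0)
    (x3 : X0.card = 3) : X0 = T := by
  by_contra n0
  have dX : Disjoint X0 T := (three3 hC s4 hX0 hT x3 h3).resolve_left n0
  have n6 : ¬SD C 6 := by simpa only [x3, h3] using gap1 hC hX0 hT dX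
  have f3 : ∀ d, SD C d → 3 < d := fun d h => h3 ▸ gap0 hC hT h
  obtain ⟨r1, r2, r3, n12, n13, n23, rfl⟩ := card_eq_three.1 h3'
  have m1 : r1 ∈ ({r1, r2, r3} : Finset ι) := by simp
  have m2 : r2 ∈ ({r1, r2, r3} : Finset ι) := by simp
  have m3 : r3 ∈ ({r1, r2, r3} : Finset ι) := by simp
  have n5 : ¬SD C 5 := by
    have := gap1 hC hT (hp r1 m1) (hd.mono_right (erase_subset _ _))
    rwa [card_erase_of_mem m1, h3, h3'] at this
  have ok : ∀ g ∈ C, ∀ g' ∈ C, g ≠ g' → hammingDist g g' = 4 ∨ 7 ≤ hammingDist g g' := by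
    intro g hg g' hg' n
    have s : SD C (hammingDist g g') := ⟨g, hg, g', hg', n, rfl⟩
    have := f3 _ s
    have : hammingDist g g' ≠ 5 := fun e => n5 (e ▸ s)
    have : hammingDist g g' ≠ 6 := fun e => n6 (e ▸ s)
    omega
  have kd : ∀ Y, F Y → Y = ∅ ∨ (Y.card = 2 ∧ Y ⊆ {r1, r2, r3}) ∨
      (Y.card = 3 ∧ (Y = {r1, r2, r3} ∨ Disjoint Y {r1, r2, r3})) := fun Y hY => by
    rcases kinds hC s4 hT h3 h3' hp hY with ⟨h1, h2⟩ | h
    · left
      by_contra e
      have g := gap1 hC hX0 hY (dX.mono_right h2)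
      have := card_ne_zero.2 (nonempty_iff_ne_empty.2 e)
      rw [x3, show Y.card = 1 by omega] at g
      exact g s4
    · exact Or.inr h
  obtain ⟨c, hc, -⟩ := s4.has
  obtain ⟨a, ha⟩ := exists_ne (c r2)
  obtain ⟨c', hc', X, hX, X3, r2X, c2, k'⟩ := nbr hC s4 f3 hc ha fun h => by
    rcases kd _ h with h | ⟨h, -⟩ | ⟨h, -⟩ <;> simp at h
  have dT : Disjoint X {r1, r2, r3} := by
    rcases kd X hX with h | ⟨h, -⟩ | ⟨-, h | h⟩
    · simp [h] at X3
    · omega
    · exact (r2X (h ▸ m2)).elim
    · exact h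
  have r1X : r1 ∉ X := disjoint_right.1 dT m1
  have r3X : r3 ∉ X := disjoint_right.1 dT m3
  obtain ⟨j, hj⟩ : X.Nonempty := card_pos.1 (by omega)
  have j1 : j ≠ r1 := fun e => r1X (e ▸ hj)
  have j2 : j ≠ r2 := fun e => r2X (e ▸ hj)
  have j3 : j ≠ r3 := fun e => r3X (e ▸ hj)
  obtain ⟨t, t1, t2⟩ := exists_ne2 (α := Fin 4) (by simp) (c j) (c' j)
  have c1 : c' r1 = c r1 := by_contra fun e => r1X ((k' r1 n12).2 e)
  have c3 : c' r3 = c r3 := by_contra fun e => r3X ((k' r3 n23.symm).2 e)
  have main : ∀ s, s ≠ c r1 → ∃ g ∈ C, g r1 = s ∧ g j = c j ∧ ∀ r, r ∉ X → r ≠ r1 → g r = c' r := by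
    intro s hs
    obtain ⟨y, y1, y2, yj, yr⟩ : ∃ y : ι → Fin 4, y r1 = s ∧ y r2 = a ∧ y j = t ∧
        ∀ r, r ≠ r1 → r ≠ r2 → r ≠ j → y r = c r :=
      ⟨update (update (update c r2 a) r1 s) j t, by simp [j1.symm], by simp [j2.symm, n12.symm],
        by simp, fun r h1 h2 h3 => by simp [h1, h2, h3]⟩
    have yX : ∀ r ∈ X, y r ≠ c' r := fun r hr => by
      by_cases e : r = j
      · rwa [e, yj]
      · have e2 : r ≠ r2 := fun q => r2X (q ▸ hr)
        rw [yr r (fun q => r1X (q ▸ hr)) e2 e]
        exact ((k' r e2).1 hr).symm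
    have yN : ∀ r, r ∉ X → r ≠ r1 → y r = c' r := fun r hr e1 => by
      by_cases e : r = r2
      · rw [e, y2, c2]
      · rw [yr r e1 e fun q => hr (q ▸ hj)]
        exact (by_contra fun q => hr ((k' r e).2 q) : c' r = c r).symm
    obtain ⟨g, hg, hY⟩ := cover hC y
    have gY : ∀ r, r ∉ df g y → g r = y r := fun r hr => by rwa [mem_df, not_not] at hr
    have n1 : g ≠ c := by
      rintro rfl
      have q1 : r1 ∈ df g y := mem_df.2 (y1 ▸ hs.symm)
      have qj : j ∈ df g y := mem_df.2 (yj ▸ t1.symm)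
      rcases kd _ hY with h | ⟨-, h⟩ | ⟨-, h | h⟩
      · simp [h] at q1
      · exact disjoint_left.1 dT hj (h qj)
      · exact disjoint_left.1 dT hj (h ▸ qj)
      · exact disjoint_left.1 h q1 m1
    have n2 : g ≠ c' := by
      rintro rfl
      have := gap0 hC hY s4
      have q : insert r1 X ⊆ df g y := fun r hr => by
        rcases mem_insert.1 hr with e | e
        · rw [e, mem_df, y1, c1]
          exact hs.symm
        · exact mem_df.2 (yX r e).symm
      have := card_le_card q
      rw [card_insert_of_notMem r1X] at this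
      omega
    have o1 := ok g hg c hc n1
    have o2 := ok g hg c' hc' n2
    have u1 : ∀ r, g r ≠ c r → r ∈ df g y ∨ r = r1 ∨ r = r2 ∨ r = j := fun r hr => by
      by_contra! q
      exact hr ((gY r q.1).trans (yr r q.2.1 q.2.2.1 q.2.2.2))
    have u2 : ∀ r, g r ≠ c' r → r ∈ df g y ∨ r = r1 ∨ r ∈ X := fun r hr => by
      by_contra! q
      exact hr ((gY r q.1).trans (yN r q.2.2 q.2.1))
    have sub : df g y ⊆ {r1, r2, r3} → False := by
      intro h
      have gX : ∀ r ∈ X, g r ≠ c' r := fun r hr => by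
        rw [gY r fun q => disjoint_left.1 dT hr (h q)]
        exact yX r hr
      have b1 : hammingDist g c ≤ 4 := (dist_le (S := {r1, r2, r3, j}) fun r hr => by
        have := @h r
        simp only [mem_insert, mem_singleton] at this ⊢
        have := u1 r hr
        tauto).trans card_le_four
      have all : ∀ r ∈ ({r1, r2, r3, j} : Finset ι), g r ≠ c r := fun r hr e => by
        have : hammingDist g c ≤ (({r1, r2, r3, j} : Finset ι).erase r).card :=
          dist_le fun r' hr' => mem_erase.2 ⟨fun q => hr' (q ▸ e), by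
            have := @h r'
            simp only [mem_insert, mem_singleton] at this ⊢
            have := u1 r' hr'
            tauto⟩
        rw [card_erase_of_mem hr] at this
        have := @card_le_four _ _ r1 r2 r3 j
        omega
      have b2 : (insert r1 (insert r3 X)).card ≤ hammingDist g c' := le_dist fun r hr => by
        rcases mem_insert.1 hr with e | hr
        · rw [e, c1]
          exact all r1 (by simp)
        rcases mem_insert.1 hr with e | hr
        · rw [e, c3]
          exact all r3 (by simp)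
        · exact gX r hr
      rw [card_insert_of_notMem (by simp [n13, r1X]), card_insert_of_notMem r3X] at b2
      have b3 : hammingDist g c' ≤ (({r1, r2, r3} : Finset ι) ∪ X).card := dist_le fun r hr => by
        rcases u2 r hr with e | e | e
        · exact mem_union_left _ (h e)
        · exact mem_union_left _ (e ▸ m1)
        · exact mem_union_right _ e
      have := card_union_le ({r1, r2, r3} : Finset ι) X
      omega
    rcases kd _ hY with h | ⟨-, h⟩ | ⟨Y3, h | h⟩
    · exact (sub (h ▸ empty_subset _)).elim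
    · exact (sub h).elim
    · exact (sub h.le).elim
    have q1 : r1 ∉ df g y := disjoint_right.1 h m1
    have q2 : r2 ∉ df g y := disjoint_right.1 h m2
    have g1 : g r1 ≠ c r1 := by rwa [gY r1 q1, y1]
    have g2 : g r2 ≠ c r2 := by rwa [gY r2 q2, y2]
    have gd : ∀ r ∈ df g y, r ≠ j → g r ≠ c r := fun r hr e => by
      rw [← yr r (fun q => q1 (q ▸ hr)) (fun q => q2 (q ▸ hr)) e]
      exact mem_df.1 hr
    have b1 : hammingDist g c ≤ (df g y ∪ {r1, r2, j}).card := dist_le fun r hr => by
      have := u1 r hr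
      simp only [mem_union, mem_insert, mem_singleton]
      exact this
    have b2 := card_union_le (df g y) {r1, r2, j}
    have b3 := @card_le_three _ _ r1 r2 j
    have gj : g j = c j := by
      by_contra e
      have b4 : (insert r1 (insert r2 (df g y))).card ≤ hammingDist g c := le_dist fun r hr => by
        rcases mem_insert.1 hr with q | hr
        · rwa [q]
        rcases mem_insert.1 hr with q | hr
        · rwa [q]
        by_cases q : r = j
        · rwa [q]
        · exact gd r hr q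
      rw [card_insert_of_notMem (by simp [n12, q1]), card_insert_of_notMem q2] at b4
      omega
    have qj : j ∈ df g y := by
      rw [mem_df, gj, yj]
      exact t1.symm
    have eX : df g y = X :=
      (three3 hC s4 hY hX Y3 X3).resolve_right fun q => disjoint_left.1 q qj hj
    exact ⟨g, hg, (gY r1 q1).trans y1, gj, fun r hr e => (gY r (eX ▸ hr)).trans (yN r hr e)⟩
  obtain ⟨s, hs⟩ := exists_ne (c r1)
  obtain ⟨s', hs', n⟩ := exists_ne2 (α := Fin 4) (by simp) (c r1) s
  obtain ⟨g, hg, g1, gj, gr⟩ := main s hs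
  obtain ⟨g', hg', g1', gj', gr'⟩ := main s' hs'
  have := f3 _ ⟨g, hg, g', hg', fun e => n (by rw [← g1, ← g1', e]), rfl⟩
  have b : hammingDist g g' ≤ (insert r1 (X.erase j)).card := dist_le fun r hr => by
    by_contra q
    rw [mem_insert, mem_erase, not_or] at q
    by_cases e : r = j
    · exact hr (by rw [e, gj, gj'])
    · have : r ∉ X := fun w => q.2 ⟨e, w⟩
      exact hr (by rw [gr r this q.1, gr' r this q.1])
  have := card_insert_le r1 (X.erase j)
  rw [card_erase_of_mem hj] at this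
  omega

variable (ι) in
theorem alp : StmtAlp ι := by
  rintro C F hC h4 T hT ⟨h3, T', h3', hd, hp⟩
  have s4 : SD C 4 := by
    obtain ⟨x, hx, y, hy, e⟩ := h4
    exact ⟨x, hx, y, hy, fun q => by simp [q] at e, e⟩
  have f3 : ∀ d, SD C d → 3 < d := fun d h => h3 ▸ gap0 hC hT h
  have onl := fun X0 => @only _ _ _ C F T T' hC s4 hT h3 h3' hd hp X0
  obtain ⟨r0, m0⟩ : T'.Nonempty := card_pos.1 (by omega)
  have d0 : Disjoint T (T'.erase r0) := hd.mono_right (erase_subset _ _)
  have c0 : (T'.erase r0).card = 2 := by rw [card_erase_of_mem m0, h3']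
  have n5 : ¬SD C 5 := by simpa only [h3, c0] using gap1 hC hT (hp r0 m0) d0
  have m6 : Fintype.card ι = 6 := by
    have l1 := card_le_univ (T ∪ T')
    rw [card_union_of_disjoint hd] at l1
    obtain ⟨c, hc, -⟩ := h4
    have ex : ∀ p : ι × Fin 3, ∃ g ∈ C, p.1 ∉ T → g p.1 = (c p.1).succAbove p.2 ∧
        ∀ s, s ≠ p.1 → (s ∈ T ↔ g s ≠ c s) := by
      rintro ⟨r, n⟩
      by_cases hr : r ∈ T
      · exact ⟨c, hc, fun q => (q hr).elim⟩
      obtain ⟨g, hg, X, hX, X3, -, e, k⟩ := nbr hC s4 f3 hc (Fin.succAbove_ne (c r) n) fun h => by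
        rcases kinds hC s4 hT h3 h3' hp h with ⟨-, h⟩ | ⟨h, -⟩ | ⟨h, -⟩
        · exact hr (h (mem_singleton_self r))
        · simp at h
        · simp at h
      exact ⟨g, hg, fun _ => ⟨e, onl X hX X3 ▸ k⟩⟩
    choose g hg hk using ex
    obtain ⟨j1, j2, j3, n12, n13, n23, eT⟩ := card_eq_three.1 h3
    have a1 : j1 ∈ T := by simp [eT]
    have a2 : j2 ∈ T := by simp [eT]
    have := card_le_card_of_injOn (s := Tᶜ ×ˢ (univ : Finset (Fin 3)))
      (t := univ.erase (c j1) ×ˢ univ.erase (c j2)) (fun p => (g p j1, g p j2))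
      (fun p hp' => by
        have q : p.1 ∉ T := mem_compl.1 (mem_product.1 (mem_coe.1 hp')).1
        refine mem_coe.2 (mem_product.2 ⟨mem_erase.2 ⟨?_, mem_univ _⟩, mem_erase.2 ⟨?_, mem_univ _⟩⟩)
        · exact ((hk p q).2 j1 fun e => q (e ▸ a1)).1 a1
        · exact ((hk p q).2 j2 fun e => q (e ▸ a2)).1 a2)
      (fun p hp1 p' hp2 e => by
        have q : p.1 ∉ T := mem_compl.1 (mem_product.1 (mem_coe.1 hp1)).1
        have q' : p'.1 ∉ T := mem_compl.1 (mem_product.1 (mem_coe.1 hp2)).1
        have e1 : g p j1 = g p' j1 := congrArg Prod.fst e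
        have e2 : g p j2 = g p' j2 := congrArg Prod.snd e
        have eg : g p = g p' := by
          by_contra n
          have := f3 _ ⟨_, hg p, _, hg p', n, rfl⟩
          have b : hammingDist (g p) (g p') ≤ ({p.1, p'.1, j3} : Finset ι).card :=
            dist_le fun r hr => by
              by_contra w
              simp only [mem_insert, mem_singleton, not_or] at w
              have rT : r ∉ T := fun v => by
                simp only [eT, mem_insert, mem_singleton] at v
                rcases v with rfl | rfl | rfl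
                · exact hr e1
                · exact hr e2
                · exact w.2.2 rfl
              have v1 : g p r = c r := by_contra fun v => rT (((hk p q).2 r w.1).2 v)
              have v2 : g p' r = c r := by_contra fun v => rT (((hk p' q').2 r w.2.1).2 v)
              exact hr (v1.trans v2.symm)
          have := @card_le_three _ _ p.1 p'.1 j3
          omega
        have f1 : p.1 = p'.1 := by
          by_contra n
          refine q (((hk p' q').2 p.1 n).2 ?_)
          rw [← eg, (hk p q).1]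
          exact Fin.succAbove_ne _ _
        refine Prod.ext f1 (Fin.succAbove_right_injective (p := c p.1) ?_)
        rw [← (hk p q).1, eg, f1, (hk p' q').1])
    simp only [card_product, card_compl, card_univ, Fintype.card_fin, card_erase_of_mem (mem_univ _),
      h3] at this
    omega
  refine ⟨m6, fun x hx y hy n => ?_, h4, fun V V' hV hV' => ?_, T, _, hT, hp r0 m0, ?_⟩
  · have s : SD C (hammingDist x y) := ⟨x, hx, y, hy, n, rfl⟩
    have := f3 _ s
    have : hammingDist x y ≠ 5 := fun e => n5 (e ▸ s)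
    have := hammingDist_le_card_fintype (x := x) (y := y)
    simp only [Set.mem_insert_iff, Set.mem_singleton_iff]
    omega
  · have := gap0 hC hV s4
    have := gap0 hC hV' s4
    have := card_union_le V V'
    by_contra q
    have e1 := onl V hV (by omega)
    have e2 := onl V' hV' (by omega)
    rw [e1, e2, union_self] at q
    omega
  · have := card_symm T (T'.erase r0)
    rw [disjoint_iff_inter_eq_empty.1 d0, card_empty] at this
    omega

variable (ι) in
theorem down4 (hX : StmtCross ι (Fin 4)) : StmtDown4 ι := by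
  intro C F hC
  have key : ∀ T l, F (insert l T) → ¬F T →
      HasD C 4 ∧ (Alp F (insert l T) ∨ Bet F (insert l T)) := fun T l h1 h2 => by
    obtain ⟨c, z, i, A, B, U, W, h, hA, hB⟩ := hX (by simp) C F hC T l h1 h2
    exact hole ι C F hC c z _ i l A B U W h hA hB
  by_contra! h
  obtain ⟨⟨T, l, h1, h2⟩, hE⟩ := h
  obtain ⟨h4, hA | ⟨v2, Y, hY, Y3, hd⟩⟩ := key T l h1 h2
  · exact hE (alp ι C F hC h4 _ h1 hA)
  obtain ⟨x, hx⟩ : Y.Nonempty := card_pos.1 (by omega)
  have s4 : SD C 4 := by
    obtain ⟨x, hx, y, hy, e⟩ := h4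
    exact ⟨x, hx, y, hy, fun q => by simp [q] at e, e⟩
  have := key (Y.erase x) x (by rwa [insert_erase hx]) fun q => by
    have := gap1 hC h1 q (hd.mono_right (erase_subset _ _))
    rw [v2, card_erase_of_mem hx, Y3] at this
    exact this s4
  rw [insert_erase hx] at this
  obtain ⟨-, hA | ⟨v, -⟩⟩ := this
  · exact hE (alp ι C F hC h4 _ hY hA)
  · omega

end Pool.Agent.MP_92191b_al.X4
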